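import Pool.Graph.R_seed8.R6.Trade.Vec

/-!
MP_5465ec_co, Q2: statements of the parts.
-/

set_option autoImplicit false

namespace Pool.Agent.Helper89.TQ

open Finset Pool.Agent.R6.Trade

/-- `x` is above `y` in the shift order: the partial sums of `x` are at least those of `y` -/
def GE (x y : Fin 3 → ℕ) : Prop :=
  y 0 ≤ x 0 ∧ y 0 + y 1 ≤ x 0 + x 1 ∧ y 0 + y 1 + y 2 ≤ x 0 + x 1 + x 2

/-- `v` is a shift-minimal winning vector -/
def MinWin {N : Type} [DecidableEq N] (W : Finset N → Prop) (τ : N → Fin 3)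
    (v : Fin 3 → ℕ) : Prop :=
  (∃ S, W S ∧ vec τ S = v) ∧ ∀ S, W S → GE v (vec τ S) → vec τ S = v

/-- winning vectors of the game with the rows `a`, `b` -/
def Win (a b x : Fin 3 → ℕ) : Prop := GE x a ∨ GE x b

/-- BRIDGE.  (`win_of_vec_eq` in the library module: `W S` depends only on `vec τ S`.)
(i) Shift monotonicity: if `W S`, `vec τ S = x`, `y ≤ nn`, `GE y x` then `W T` for `vec τ T = y`: induction on
the sum of the partial sums of `y` minus those of `x`.  If `x ≠ y` let `i` be the first index with `X_i < Y_i`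
(partial sums) and `j > i` the first with `X_j = Y_j`: `x i < y i ≤ nn i` and `x j > y j ≥ 0`; replace a voter
of `S` of type `j` by a voter of type `i` not in `S` (`AtLeast`), resp. add a voter of type `i` if there is no
such `j` (six cases).
(ii) every winning vector is above a minimal one (induction on the sum of the partial sums), so above
`a` or `b`.  (iii) `a`, `b` incomparable by minimality.  (iv) types `0`, `1` differ: voters `u` (type 0),
`v` (type 1), not `AtLeast W v u`: a coalition `S` with `W (insert u S)`, `¬ W (insert v S)`; with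
`x = vec τ S`: `x + e_0` is above `a`, say, and `x + e_1` is not: `a 0 = x 0 + 1`, `a 1 ≤ x 1 < nn 1`.  The same
for types `1`, `2`. -/
def S_BRIDGE : Prop := ∀ (N : Type) [Fintype N] [DecidableEq N] (W : Finset N → Prop)
  (τ : N → Fin 3) (a b : Fin 3 → ℕ), IsSimple W → Function.Surjective τ →
  (∀ u v, AtLeast W u v ↔ τ u ≤ τ v) → a ≠ b → (∀ v, MinWin W τ v ↔ v = a ∨ v = b) →
  (∀ i, a i ≤ nn τ i) ∧ (∀ i, b i ≤ nn τ i) ∧ ¬ GE a b ∧ ¬ GE b a ∧
  ((0 < a 0 ∧ a 1 < nn τ 1) ∨ (0 < b 0 ∧ b 1 < nn τ 1)) ∧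
  ((0 < a 1 ∧ a 2 < nn τ 2) ∨ (0 < b 1 ∧ b 2 < nn τ 2)) ∧
  ∀ S, W S ↔ Win a b (vec τ S)

/-- TRADE.  Balanced realization (`realize` in the library module) for the first clause (as in the proof
of `weighted_of_three_types` there); `sum_vec` for the second: the failing trade has length `3`
(length `1`: `X = Y`; length `2` contradicts `TradeRobust W 2`). -/
def S_TRADE : Prop := ∀ (N : Type) [Fintype N] [DecidableEq N] (W : Finset N → Prop)
  (τ : N → Fin 3) (a b : Fin 3 → ℕ), (∀ S, W S ↔ Win a b (vec τ S)) →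
  TradeRobust W 2 → ¬ TradeRobust W 3 →
  (∀ x x' y y' : Fin 3 → ℕ, (∀ i, x i ≤ nn τ i) → (∀ i, x' i ≤ nn τ i) → (∀ i, y i ≤ nn τ i) →
    (∀ i, y' i ≤ nn τ i) → (∀ i, x i + x' i = y i + y' i) → Win a b x → Win a b x' →
      Win a b y ∨ Win a b y') ∧
  ∃ x y : Fin 3 → Fin 3 → ℕ, (∀ k i, x k i ≤ nn τ i) ∧ (∀ k i, y k i ≤ nn τ i) ∧
    (∀ k, Win a b (x k)) ∧ (∀ k, ¬ Win a b (y k)) ∧
    ∀ i, x 0 i + x 1 i + x 2 i = y 0 i + y 1 i + y 2 i

/-- membership in the families `F_1`, `F_2` of the problem (rows in this order) -/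
def Member (n a b : Fin 3 → ℕ) : Prop := ∃ k₁ k₂ k₃ l : ℕ,
  (n = ![2 * l + 3 + k₁, k₂ + 3, 2 * l + 5 + k₃] ∧
    a = ![n 0 - l - 1, n 1 - 1, n 2 - l - 2] ∧ b = ![n 0 - 2 * l - 2, n 1 - 1, n 2]) ∨
  (n = ![2 * l + 3 + k₁, k₂ + 3, 2 * l + 5] ∧ a = ![l + 1, 1, l + 2] ∧ b = ![0, 1, 2 * l + 4])

/-- CONV (the known direction).  Not 3-trade robust: coalitions with the vectors `a, a, a` and three
losing vectors with the same sum (`realize`).  `F_1`: `(n0-2l-3, n1, n2)`, `(n0-l, n1-3, n2-l-1)`,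
`(n0, n1, n2-2l-5)`; `F_2`: `(0, 0, 2l+5)`, `(l, 3, l+1)`, `(2l+3, 0, 0)`.  2-trade robust: by `sum_vec` a
failing trade of length at most two gives vectors `x + x' = y + y'`; `omega` (cases on the rows and on
the coordinates in which the losing vectors fail). -/
def S_CONV : Prop := ∀ (N : Type) [Fintype N] [DecidableEq N] (W : Finset N → Prop)
  (τ : N → Fin 3) (a b : Fin 3 → ℕ), (∀ S, W S ↔ Win a b (vec τ S)) → Member (nn τ) a b →
  TradeRobust W 2 ∧ ¬ TradeRobust W 3

end Pool.Agent.Helper89.TQ
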