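import Mathlib.Tactic

set_option autoImplicit false
set_option linter.all false
set_option maxHeartbeats 4000000

namespace Pool.Agent.Helper89.TQ

/-- membership in the first family, in partial sums -/
def F1 (n1 n2 n3 A1 A2 A3 B1 B2 B3 : ℤ) : Prop :=
  A1 + 1 ≤ n1 ∧ 2 * (n1 - A1 - 1) + 3 ≤ n1 ∧ 3 ≤ n2 ∧ 2 * (n1 - A1 - 1) + 5 ≤ n3 ∧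
  A2 - A1 = n2 - 1 ∧ A3 - A2 = n3 - (n1 - A1 - 1) - 2 ∧ B1 = n1 - 2 * (n1 - A1 - 1) - 2 ∧
  B2 - B1 = n2 - 1 ∧ B3 - B2 = n3

/-- membership in the second family, in partial sums -/
def F2 (n1 n2 n3 A1 A2 A3 B1 B2 B3 : ℤ) : Prop :=
  1 ≤ A1 ∧ 2 * (A1 - 1) + 3 ≤ n1 ∧ 3 ≤ n2 ∧ n3 = 2 * (A1 - 1) + 5 ∧
  A2 - A1 = 1 ∧ A3 - A2 = A1 - 1 + 2 ∧ B1 = 0 ∧ B2 - B1 = 1 ∧ B3 - B2 = 2 * (A1 - 1) + 4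

structure Ctx0 (n1 n2 n3 A1 A2 A3 B1 B2 B3 m11_1 m11_2 m11_3 m13_1 m13_2 m13_3 m22_1 m22_2 m22_3 m23_1 m23_2 m23_3 m33_1 m33_2 m33_3 : ℤ) : Prop where
  a0 : 0 ≤ A1
  a1 : A1 ≤ n1
  a2 : A1 ≤ A2
  a3 : A2 ≤ A1 + n2
  a4 : A2 ≤ A3
  a5 : A3 ≤ A2 + n3
  b0 : 0 ≤ B1
  b1 : B1 ≤ n1
  b2 : B1 ≤ B2
  b3 : B2 ≤ B1 + n2
  b4 : B2 ≤ B3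
  b5 : B3 ≤ B2 + n3
  o0 : A1 > B1
  o1 : A2 ≥ B2
  o2 : A3 < B3
  t12 : (0 < A1 ∧ A2 < A1 + n2) ∨ (0 < B1 ∧ B2 < B1 + n2)
  t23 : (A1 < A2 ∧ A3 < A2 + n3) ∨ (B1 < B2 ∧ B3 < B2 + n3)
  f11_0 : m11_1 = B1 - 1
  f11_1 : m11_2 = m11_1 + n2
  f11_2 : m11_3 = m11_2 + n3
  f13_0 : m13_1 ≤ A1 - 1
  f13_1 : m13_1 ≤ B3 - 1
  f13_2 : m13_1 = A1 - 1 ∨ m13_1 = B3 - 1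
  f13_3 : m13_2 ≤ m13_1 + n2
  f13_4 : m13_2 ≤ B3 - 1
  f13_5 : m13_2 = m13_1 + n2 ∨ m13_2 = B3 - 1
  f13_6 : m13_3 ≤ m13_2 + n3
  f13_7 : m13_3 ≤ B3 - 1
  f13_8 : m13_3 = m13_2 + n3 ∨ m13_3 = B3 - 1
  f22_0 : m22_1 ≤ n1
  f22_1 : m22_1 ≤ B2 - 1
  f22_2 : m22_1 = n1 ∨ m22_1 = B2 - 1
  f22_3 : m22_2 ≤ m22_1 + n2
  f22_4 : m22_2 ≤ B2 - 1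
  f22_5 : m22_2 = m22_1 + n2 ∨ m22_2 = B2 - 1
  f22_6 : m22_3 = m22_2 + n3
  f23_0 : m23_1 ≤ n1
  f23_1 : m23_1 ≤ A2 - 1
  f23_2 : m23_1 ≤ B3 - 1
  f23_3 : m23_1 = n1 ∨ m23_1 = A2 - 1 ∨ m23_1 = B3 - 1
  f23_4 : m23_2 ≤ m23_1 + n2
  f23_5 : m23_2 ≤ A2 - 1
  f23_6 : m23_2 ≤ B3 - 1
  f23_7 : m23_2 = m23_1 + n2 ∨ m23_2 = A2 - 1 ∨ m23_2 = B3 - 1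
  f23_8 : m23_3 ≤ m23_2 + n3
  f23_9 : m23_3 ≤ B3 - 1
  f23_10 : m23_3 = m23_2 + n3 ∨ m23_3 = B3 - 1
  f33_0 : m33_1 ≤ n1
  f33_1 : m33_1 ≤ A3 - 1
  f33_2 : m33_1 = n1 ∨ m33_1 = A3 - 1
  f33_3 : m33_2 ≤ m33_1 + n2
  f33_4 : m33_2 ≤ A3 - 1
  f33_5 : m33_2 = m33_1 + n2 ∨ m33_2 = A3 - 1
  f33_6 : m33_3 ≤ m33_2 + n3
  f33_7 : m33_3 ≤ A3 - 1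
  f33_8 : m33_3 = m33_2 + n3 ∨ m33_3 = A3 - 1
  p11_13A : 0 < B1 → 0 < A1 → 0 < B3 → ¬ (2 * A1 ≤ m11_1 + m13_1 ∧ 2 * A2 ≤ m11_2 + m13_2 ∧ 2 * A3 ≤ m11_3 + m13_3)
  p11_13B : 0 < B1 → 0 < A1 → 0 < B3 → ¬ (2 * B1 ≤ m11_1 + m13_1 ∧ 2 * B2 ≤ m11_2 + m13_2 ∧ 2 * B3 ≤ m11_3 + m13_3)
  p11_22A : 0 < B1 → 0 < B2 → ¬ (2 * A1 ≤ m11_1 + m22_1 ∧ 2 * A2 ≤ m11_2 + m22_2 ∧ 2 * A3 ≤ m11_3 + m22_3)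
  p11_22B : 0 < B1 → 0 < B2 → ¬ (2 * B1 ≤ m11_1 + m22_1 ∧ 2 * B2 ≤ m11_2 + m22_2 ∧ 2 * B3 ≤ m11_3 + m22_3)
  p11_23A : 0 < B1 → 0 < A2 → 0 < B3 → ¬ (2 * A1 ≤ m11_1 + m23_1 ∧ 2 * A2 ≤ m11_2 + m23_2 ∧ 2 * A3 ≤ m11_3 + m23_3)
  p11_23B : 0 < B1 → 0 < A2 → 0 < B3 → ¬ (2 * B1 ≤ m11_1 + m23_1 ∧ 2 * B2 ≤ m11_2 + m23_2 ∧ 2 * B3 ≤ m11_3 + m23_3)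
  p11_33A : 0 < B1 → 0 < A3 → ¬ (2 * A1 ≤ m11_1 + m33_1 ∧ 2 * A2 ≤ m11_2 + m33_2 ∧ 2 * A3 ≤ m11_3 + m33_3)
  p11_33B : 0 < B1 → 0 < A3 → ¬ (2 * B1 ≤ m11_1 + m33_1 ∧ 2 * B2 ≤ m11_2 + m33_2 ∧ 2 * B3 ≤ m11_3 + m33_3)
  p13_22A : 0 < A1 → 0 < B3 → 0 < B2 → ¬ (2 * A1 ≤ m13_1 + m22_1 ∧ 2 * A2 ≤ m13_2 + m22_2 ∧ 2 * A3 ≤ m13_3 + m22_3)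
  p13_22B : 0 < A1 → 0 < B3 → 0 < B2 → ¬ (2 * B1 ≤ m13_1 + m22_1 ∧ 2 * B2 ≤ m13_2 + m22_2 ∧ 2 * B3 ≤ m13_3 + m22_3)
  p13_23A : 0 < A1 → 0 < B3 → 0 < A2 → ¬ (2 * A1 ≤ m13_1 + m23_1 ∧ 2 * A2 ≤ m13_2 + m23_2 ∧ 2 * A3 ≤ m13_3 + m23_3)
  p13_23B : 0 < A1 → 0 < B3 → 0 < A2 → ¬ (2 * B1 ≤ m13_1 + m23_1 ∧ 2 * B2 ≤ m13_2 + m23_2 ∧ 2 * B3 ≤ m13_3 + m23_3)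
  p13_33A : 0 < A1 → 0 < B3 → 0 < A3 → ¬ (2 * A1 ≤ m13_1 + m33_1 ∧ 2 * A2 ≤ m13_2 + m33_2 ∧ 2 * A3 ≤ m13_3 + m33_3)
  p13_33B : 0 < A1 → 0 < B3 → 0 < A3 → ¬ (2 * B1 ≤ m13_1 + m33_1 ∧ 2 * B2 ≤ m13_2 + m33_2 ∧ 2 * B3 ≤ m13_3 + m33_3)
  p22_23A : 0 < B2 → 0 < A2 → 0 < B3 → ¬ (2 * A1 ≤ m22_1 + m23_1 ∧ 2 * A2 ≤ m22_2 + m23_2 ∧ 2 * A3 ≤ m22_3 + m23_3)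
  p22_23B : 0 < B2 → 0 < A2 → 0 < B3 → ¬ (2 * B1 ≤ m22_1 + m23_1 ∧ 2 * B2 ≤ m22_2 + m23_2 ∧ 2 * B3 ≤ m22_3 + m23_3)
  p22_33A : 0 < B2 → 0 < A3 → ¬ (2 * A1 ≤ m22_1 + m33_1 ∧ 2 * A2 ≤ m22_2 + m33_2 ∧ 2 * A3 ≤ m22_3 + m33_3)
  p22_33B : 0 < B2 → 0 < A3 → ¬ (2 * B1 ≤ m22_1 + m33_1 ∧ 2 * B2 ≤ m22_2 + m33_2 ∧ 2 * B3 ≤ m22_3 + m33_3)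
  p23_33A : 0 < A2 → 0 < B3 → 0 < A3 → ¬ (2 * A1 ≤ m23_1 + m33_1 ∧ 2 * A2 ≤ m23_2 + m33_2 ∧ 2 * A3 ≤ m23_3 + m33_3)
  p23_33B : 0 < A2 → 0 < B3 → 0 < A3 → ¬ (2 * B1 ≤ m23_1 + m33_1 ∧ 2 * B2 ≤ m23_2 + m33_2 ∧ 2 * B3 ≤ m23_3 + m33_3)
  tmzp : ¬ (A1 + 1 ≤ n1 ∧ A1 + 1 ≤ A2 ∧ A2 + 1 ≤ A3 ∧ 1 ≤ B1 ∧ B2 + 1 ≤ B1 + n2 ∧ B3 + 1 ≤ B2 + n3)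
  tmpp : ¬ (A1 + 1 ≤ n1 ∧ A1 + 2 ≤ A2 ∧ 1 ≤ B1 ∧ B2 + 2 ≤ B1 + n2)
  tzmp : ¬ (A2 + 1 ≤ A1 + n2 ∧ A2 + 2 ≤ A3 ∧ B1 + 1 ≤ B2 ∧ B3 + 2 ≤ B2 + n3)
  tzpm : ¬ (A1 + 1 ≤ A2 ∧ A3 + 2 ≤ A2 + n3 ∧ B2 + 1 ≤ B1 + n2 ∧ B2 + 2 ≤ B3 ∧ (A2 < B2 + (1) ∨ A3 < B3 + (-1)))
  tpmm : ¬ (1 ≤ A1 ∧ A2 + 2 ≤ A1 + n2 ∧ B1 + 1 ≤ n1 ∧ B1 + 2 ≤ B2 ∧ (A3 < B3 + (-1)))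
  tpmz : ¬ (1 ≤ A1 ∧ A2 + 2 ≤ A1 + n2 ∧ A2 + 1 ≤ A3 ∧ B1 + 1 ≤ n1 ∧ B1 + 2 ≤ B2 ∧ B3 + 1 ≤ B2 + n3)
  tpzm : ¬ (1 ≤ A1 ∧ A2 + 1 ≤ A1 + n2 ∧ A3 + 1 ≤ A2 + n3 ∧ B1 + 1 ≤ n1 ∧ B1 + 1 ≤ B2 ∧ B2 + 1 ≤ B3 ∧ (A3 < B3 + (-1)) ∧ (B1 + (1) < A1 ∨ B2 + (0) < A2))

structure Ctx1 (n1 n2 n3 A1 A2 A3 B1 B2 B3 m11_1 m11_2 m11_3 m12_1 m12_2 m12_3 m22_1 m22_2 m22_3 m32_1 m32_2 m32_3 m33_1 m33_2 m33_3 : ℤ) : Prop where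
  a0 : 0 ≤ A1
  a1 : A1 ≤ n1
  a2 : A1 ≤ A2
  a3 : A2 ≤ A1 + n2
  a4 : A2 ≤ A3
  a5 : A3 ≤ A2 + n3
  b0 : 0 ≤ B1
  b1 : B1 ≤ n1
  b2 : B1 ≤ B2
  b3 : B2 ≤ B1 + n2
  b4 : B2 ≤ B3
  b5 : B3 ≤ B2 + n3
  o0 : A1 > B1
  o1 : A2 < B2
  o2 : A3 ≥ B3
  t12 : (0 < A1 ∧ A2 < A1 + n2) ∨ (0 < B1 ∧ B2 < B1 + n2)
  t23 : (A1 < A2 ∧ A3 < A2 + n3) ∨ (B1 < B2 ∧ B3 < B2 + n3)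
  f11_0 : m11_1 = B1 - 1
  f11_1 : m11_2 = m11_1 + n2
  f11_2 : m11_3 = m11_2 + n3
  f12_0 : m12_1 ≤ A1 - 1
  f12_1 : m12_1 ≤ B2 - 1
  f12_2 : m12_1 = A1 - 1 ∨ m12_1 = B2 - 1
  f12_3 : m12_2 ≤ m12_1 + n2
  f12_4 : m12_2 ≤ B2 - 1
  f12_5 : m12_2 = m12_1 + n2 ∨ m12_2 = B2 - 1
  f12_6 : m12_3 = m12_2 + n3
  f22_0 : m22_1 ≤ n1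
  f22_1 : m22_1 ≤ A2 - 1
  f22_2 : m22_1 = n1 ∨ m22_1 = A2 - 1
  f22_3 : m22_2 ≤ m22_1 + n2
  f22_4 : m22_2 ≤ A2 - 1
  f22_5 : m22_2 = m22_1 + n2 ∨ m22_2 = A2 - 1
  f22_6 : m22_3 = m22_2 + n3
  f32_0 : m32_1 ≤ n1
  f32_1 : m32_1 ≤ B2 - 1
  f32_2 : m32_1 ≤ A3 - 1
  f32_3 : m32_1 = n1 ∨ m32_1 = B2 - 1 ∨ m32_1 = A3 - 1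
  f32_4 : m32_2 ≤ m32_1 + n2
  f32_5 : m32_2 ≤ B2 - 1
  f32_6 : m32_2 ≤ A3 - 1
  f32_7 : m32_2 = m32_1 + n2 ∨ m32_2 = B2 - 1 ∨ m32_2 = A3 - 1
  f32_8 : m32_3 ≤ m32_2 + n3
  f32_9 : m32_3 ≤ A3 - 1
  f32_10 : m32_3 = m32_2 + n3 ∨ m32_3 = A3 - 1
  f33_0 : m33_1 ≤ n1
  f33_1 : m33_1 ≤ B3 - 1
  f33_2 : m33_1 = n1 ∨ m33_1 = B3 - 1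
  f33_3 : m33_2 ≤ m33_1 + n2
  f33_4 : m33_2 ≤ B3 - 1
  f33_5 : m33_2 = m33_1 + n2 ∨ m33_2 = B3 - 1
  f33_6 : m33_3 ≤ m33_2 + n3
  f33_7 : m33_3 ≤ B3 - 1
  f33_8 : m33_3 = m33_2 + n3 ∨ m33_3 = B3 - 1
  p11_12A : 0 < B1 → 0 < A1 → 0 < B2 → ¬ (2 * A1 ≤ m11_1 + m12_1 ∧ 2 * A2 ≤ m11_2 + m12_2 ∧ 2 * A3 ≤ m11_3 + m12_3)
  p11_12B : 0 < B1 → 0 < A1 → 0 < B2 → ¬ (2 * B1 ≤ m11_1 + m12_1 ∧ 2 * B2 ≤ m11_2 + m12_2 ∧ 2 * B3 ≤ m11_3 + m12_3)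
  p11_22A : 0 < B1 → 0 < A2 → ¬ (2 * A1 ≤ m11_1 + m22_1 ∧ 2 * A2 ≤ m11_2 + m22_2 ∧ 2 * A3 ≤ m11_3 + m22_3)
  p11_22B : 0 < B1 → 0 < A2 → ¬ (2 * B1 ≤ m11_1 + m22_1 ∧ 2 * B2 ≤ m11_2 + m22_2 ∧ 2 * B3 ≤ m11_3 + m22_3)
  p11_32A : 0 < B1 → 0 < B2 → 0 < A3 → ¬ (2 * A1 ≤ m11_1 + m32_1 ∧ 2 * A2 ≤ m11_2 + m32_2 ∧ 2 * A3 ≤ m11_3 + m32_3)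
  p11_32B : 0 < B1 → 0 < B2 → 0 < A3 → ¬ (2 * B1 ≤ m11_1 + m32_1 ∧ 2 * B2 ≤ m11_2 + m32_2 ∧ 2 * B3 ≤ m11_3 + m32_3)
  p11_33A : 0 < B1 → 0 < B3 → ¬ (2 * A1 ≤ m11_1 + m33_1 ∧ 2 * A2 ≤ m11_2 + m33_2 ∧ 2 * A3 ≤ m11_3 + m33_3)
  p11_33B : 0 < B1 → 0 < B3 → ¬ (2 * B1 ≤ m11_1 + m33_1 ∧ 2 * B2 ≤ m11_2 + m33_2 ∧ 2 * B3 ≤ m11_3 + m33_3)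
  p12_22A : 0 < A1 → 0 < B2 → 0 < A2 → ¬ (2 * A1 ≤ m12_1 + m22_1 ∧ 2 * A2 ≤ m12_2 + m22_2 ∧ 2 * A3 ≤ m12_3 + m22_3)
  p12_22B : 0 < A1 → 0 < B2 → 0 < A2 → ¬ (2 * B1 ≤ m12_1 + m22_1 ∧ 2 * B2 ≤ m12_2 + m22_2 ∧ 2 * B3 ≤ m12_3 + m22_3)
  p12_32A : 0 < A1 → 0 < B2 → 0 < A3 → ¬ (2 * A1 ≤ m12_1 + m32_1 ∧ 2 * A2 ≤ m12_2 + m32_2 ∧ 2 * A3 ≤ m12_3 + m32_3)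
  p12_32B : 0 < A1 → 0 < B2 → 0 < A3 → ¬ (2 * B1 ≤ m12_1 + m32_1 ∧ 2 * B2 ≤ m12_2 + m32_2 ∧ 2 * B3 ≤ m12_3 + m32_3)
  p12_33A : 0 < A1 → 0 < B2 → 0 < B3 → ¬ (2 * A1 ≤ m12_1 + m33_1 ∧ 2 * A2 ≤ m12_2 + m33_2 ∧ 2 * A3 ≤ m12_3 + m33_3)
  p12_33B : 0 < A1 → 0 < B2 → 0 < B3 → ¬ (2 * B1 ≤ m12_1 + m33_1 ∧ 2 * B2 ≤ m12_2 + m33_2 ∧ 2 * B3 ≤ m12_3 + m33_3)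
  p22_32A : 0 < A2 → 0 < B2 → 0 < A3 → ¬ (2 * A1 ≤ m22_1 + m32_1 ∧ 2 * A2 ≤ m22_2 + m32_2 ∧ 2 * A3 ≤ m22_3 + m32_3)
  p22_32B : 0 < A2 → 0 < B2 → 0 < A3 → ¬ (2 * B1 ≤ m22_1 + m32_1 ∧ 2 * B2 ≤ m22_2 + m32_2 ∧ 2 * B3 ≤ m22_3 + m32_3)
  p22_33A : 0 < A2 → 0 < B3 → ¬ (2 * A1 ≤ m22_1 + m33_1 ∧ 2 * A2 ≤ m22_2 + m33_2 ∧ 2 * A3 ≤ m22_3 + m33_3)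
  p22_33B : 0 < A2 → 0 < B3 → ¬ (2 * B1 ≤ m22_1 + m33_1 ∧ 2 * B2 ≤ m22_2 + m33_2 ∧ 2 * B3 ≤ m22_3 + m33_3)
  p32_33A : 0 < B2 → 0 < A3 → 0 < B3 → ¬ (2 * A1 ≤ m32_1 + m33_1 ∧ 2 * A2 ≤ m32_2 + m33_2 ∧ 2 * A3 ≤ m32_3 + m33_3)
  p32_33B : 0 < B2 → 0 < A3 → 0 < B3 → ¬ (2 * B1 ≤ m32_1 + m33_1 ∧ 2 * B2 ≤ m32_2 + m33_2 ∧ 2 * B3 ≤ m32_3 + m33_3)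
  tmzp : ¬ (A1 + 1 ≤ n1 ∧ A1 + 1 ≤ A2 ∧ A2 + 1 ≤ A3 ∧ 1 ≤ B1 ∧ B2 + 1 ≤ B1 + n2 ∧ B3 + 1 ≤ B2 + n3)
  tmpp : ¬ (A1 + 1 ≤ n1 ∧ A1 + 2 ≤ A2 ∧ 1 ≤ B1 ∧ B2 + 2 ≤ B1 + n2)
  tzmp : ¬ (A2 + 1 ≤ A1 + n2 ∧ A2 + 2 ≤ A3 ∧ B1 + 1 ≤ B2 ∧ B3 + 2 ≤ B2 + n3 ∧ (A2 < B2 + (-1) ∨ A3 < B3 + (1)))
  tzpm : ¬ (A1 + 1 ≤ A2 ∧ A3 + 2 ≤ A2 + n3 ∧ B2 + 1 ≤ B1 + n2 ∧ B2 + 2 ≤ B3)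
  tpmm : ¬ (1 ≤ A1 ∧ A2 + 2 ≤ A1 + n2 ∧ B1 + 1 ≤ n1 ∧ B1 + 2 ≤ B2 ∧ (A2 < B2 + (-1)))
  tpmz : ¬ (1 ≤ A1 ∧ A2 + 2 ≤ A1 + n2 ∧ A2 + 1 ≤ A3 ∧ B1 + 1 ≤ n1 ∧ B1 + 2 ≤ B2 ∧ B3 + 1 ≤ B2 + n3 ∧ (A2 < B2 + (-1)) ∧ (B1 + (1) < A1 ∨ B3 + (0) < A3))
  tpzm : ¬ (1 ≤ A1 ∧ A2 + 1 ≤ A1 + n2 ∧ A3 + 1 ≤ A2 + n3 ∧ B1 + 1 ≤ n1 ∧ B1 + 1 ≤ B2 ∧ B2 + 1 ≤ B3)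

structure Ctx2 (n1 n2 n3 A1 A2 A3 B1 B2 B3 m11_1 m11_2 m11_3 m12_1 m12_2 m12_3 m13_1 m13_2 m13_3 m22_1 m22_2 m22_3 m33_1 m33_2 m33_3 : ℤ) : Prop where
  a0 : 0 ≤ A1
  a1 : A1 ≤ n1
  a2 : A1 ≤ A2
  a3 : A2 ≤ A1 + n2
  a4 : A2 ≤ A3
  a5 : A3 ≤ A2 + n3
  b0 : 0 ≤ B1
  b1 : B1 ≤ n1
  b2 : B1 ≤ B2
  b3 : B2 ≤ B1 + n2
  b4 : B2 ≤ B3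
  b5 : B3 ≤ B2 + n3
  o0 : A1 > B1
  o1 : A2 < B2
  o2 : A3 < B3
  t12 : (0 < A1 ∧ A2 < A1 + n2) ∨ (0 < B1 ∧ B2 < B1 + n2)
  t23 : (A1 < A2 ∧ A3 < A2 + n3) ∨ (B1 < B2 ∧ B3 < B2 + n3)
  f11_0 : m11_1 = B1 - 1
  f11_1 : m11_2 = m11_1 + n2
  f11_2 : m11_3 = m11_2 + n3
  f12_0 : m12_1 ≤ A1 - 1
  f12_1 : m12_1 ≤ B2 - 1
  f12_2 : m12_1 = A1 - 1 ∨ m12_1 = B2 - 1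
  f12_3 : m12_2 ≤ m12_1 + n2
  f12_4 : m12_2 ≤ B2 - 1
  f12_5 : m12_2 = m12_1 + n2 ∨ m12_2 = B2 - 1
  f12_6 : m12_3 = m12_2 + n3
  f13_0 : m13_1 ≤ A1 - 1
  f13_1 : m13_1 ≤ B3 - 1
  f13_2 : m13_1 = A1 - 1 ∨ m13_1 = B3 - 1
  f13_3 : m13_2 ≤ m13_1 + n2
  f13_4 : m13_2 ≤ B3 - 1
  f13_5 : m13_2 = m13_1 + n2 ∨ m13_2 = B3 - 1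
  f13_6 : m13_3 ≤ m13_2 + n3
  f13_7 : m13_3 ≤ B3 - 1
  f13_8 : m13_3 = m13_2 + n3 ∨ m13_3 = B3 - 1
  f22_0 : m22_1 ≤ n1
  f22_1 : m22_1 ≤ A2 - 1
  f22_2 : m22_1 = n1 ∨ m22_1 = A2 - 1
  f22_3 : m22_2 ≤ m22_1 + n2
  f22_4 : m22_2 ≤ A2 - 1
  f22_5 : m22_2 = m22_1 + n2 ∨ m22_2 = A2 - 1
  f22_6 : m22_3 = m22_2 + n3
  f33_0 : m33_1 ≤ n1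
  f33_1 : m33_1 ≤ A3 - 1
  f33_2 : m33_1 = n1 ∨ m33_1 = A3 - 1
  f33_3 : m33_2 ≤ m33_1 + n2
  f33_4 : m33_2 ≤ A3 - 1
  f33_5 : m33_2 = m33_1 + n2 ∨ m33_2 = A3 - 1
  f33_6 : m33_3 ≤ m33_2 + n3
  f33_7 : m33_3 ≤ A3 - 1
  f33_8 : m33_3 = m33_2 + n3 ∨ m33_3 = A3 - 1
  p11_12A : 0 < B1 → 0 < A1 → 0 < B2 → ¬ (2 * A1 ≤ m11_1 + m12_1 ∧ 2 * A2 ≤ m11_2 + m12_2 ∧ 2 * A3 ≤ m11_3 + m12_3)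
  p11_12B : 0 < B1 → 0 < A1 → 0 < B2 → ¬ (2 * B1 ≤ m11_1 + m12_1 ∧ 2 * B2 ≤ m11_2 + m12_2 ∧ 2 * B3 ≤ m11_3 + m12_3)
  p11_13A : 0 < B1 → 0 < A1 → 0 < B3 → ¬ (2 * A1 ≤ m11_1 + m13_1 ∧ 2 * A2 ≤ m11_2 + m13_2 ∧ 2 * A3 ≤ m11_3 + m13_3)
  p11_13B : 0 < B1 → 0 < A1 → 0 < B3 → ¬ (2 * B1 ≤ m11_1 + m13_1 ∧ 2 * B2 ≤ m11_2 + m13_2 ∧ 2 * B3 ≤ m11_3 + m13_3)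
  p11_22A : 0 < B1 → 0 < A2 → ¬ (2 * A1 ≤ m11_1 + m22_1 ∧ 2 * A2 ≤ m11_2 + m22_2 ∧ 2 * A3 ≤ m11_3 + m22_3)
  p11_22B : 0 < B1 → 0 < A2 → ¬ (2 * B1 ≤ m11_1 + m22_1 ∧ 2 * B2 ≤ m11_2 + m22_2 ∧ 2 * B3 ≤ m11_3 + m22_3)
  p11_33A : 0 < B1 → 0 < A3 → ¬ (2 * A1 ≤ m11_1 + m33_1 ∧ 2 * A2 ≤ m11_2 + m33_2 ∧ 2 * A3 ≤ m11_3 + m33_3)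
  p11_33B : 0 < B1 → 0 < A3 → ¬ (2 * B1 ≤ m11_1 + m33_1 ∧ 2 * B2 ≤ m11_2 + m33_2 ∧ 2 * B3 ≤ m11_3 + m33_3)
  p12_13A : 0 < A1 → 0 < B2 → 0 < B3 → ¬ (2 * A1 ≤ m12_1 + m13_1 ∧ 2 * A2 ≤ m12_2 + m13_2 ∧ 2 * A3 ≤ m12_3 + m13_3)
  p12_13B : 0 < A1 → 0 < B2 → 0 < B3 → ¬ (2 * B1 ≤ m12_1 + m13_1 ∧ 2 * B2 ≤ m12_2 + m13_2 ∧ 2 * B3 ≤ m12_3 + m13_3)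
  p12_22A : 0 < A1 → 0 < B2 → 0 < A2 → ¬ (2 * A1 ≤ m12_1 + m22_1 ∧ 2 * A2 ≤ m12_2 + m22_2 ∧ 2 * A3 ≤ m12_3 + m22_3)
  p12_22B : 0 < A1 → 0 < B2 → 0 < A2 → ¬ (2 * B1 ≤ m12_1 + m22_1 ∧ 2 * B2 ≤ m12_2 + m22_2 ∧ 2 * B3 ≤ m12_3 + m22_3)
  p12_33A : 0 < A1 → 0 < B2 → 0 < A3 → ¬ (2 * A1 ≤ m12_1 + m33_1 ∧ 2 * A2 ≤ m12_2 + m33_2 ∧ 2 * A3 ≤ m12_3 + m33_3)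
  p12_33B : 0 < A1 → 0 < B2 → 0 < A3 → ¬ (2 * B1 ≤ m12_1 + m33_1 ∧ 2 * B2 ≤ m12_2 + m33_2 ∧ 2 * B3 ≤ m12_3 + m33_3)
  p13_22A : 0 < A1 → 0 < B3 → 0 < A2 → ¬ (2 * A1 ≤ m13_1 + m22_1 ∧ 2 * A2 ≤ m13_2 + m22_2 ∧ 2 * A3 ≤ m13_3 + m22_3)
  p13_22B : 0 < A1 → 0 < B3 → 0 < A2 → ¬ (2 * B1 ≤ m13_1 + m22_1 ∧ 2 * B2 ≤ m13_2 + m22_2 ∧ 2 * B3 ≤ m13_3 + m22_3)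
  p13_33A : 0 < A1 → 0 < B3 → 0 < A3 → ¬ (2 * A1 ≤ m13_1 + m33_1 ∧ 2 * A2 ≤ m13_2 + m33_2 ∧ 2 * A3 ≤ m13_3 + m33_3)
  p13_33B : 0 < A1 → 0 < B3 → 0 < A3 → ¬ (2 * B1 ≤ m13_1 + m33_1 ∧ 2 * B2 ≤ m13_2 + m33_2 ∧ 2 * B3 ≤ m13_3 + m33_3)
  p22_33A : 0 < A2 → 0 < A3 → ¬ (2 * A1 ≤ m22_1 + m33_1 ∧ 2 * A2 ≤ m22_2 + m33_2 ∧ 2 * A3 ≤ m22_3 + m33_3)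
  p22_33B : 0 < A2 → 0 < A3 → ¬ (2 * B1 ≤ m22_1 + m33_1 ∧ 2 * B2 ≤ m22_2 + m33_2 ∧ 2 * B3 ≤ m22_3 + m33_3)
  tmzp : ¬ (A1 + 1 ≤ n1 ∧ A1 + 1 ≤ A2 ∧ A2 + 1 ≤ A3 ∧ 1 ≤ B1 ∧ B2 + 1 ≤ B1 + n2 ∧ B3 + 1 ≤ B2 + n3)
  tmpp : ¬ (A1 + 1 ≤ n1 ∧ A1 + 2 ≤ A2 ∧ 1 ≤ B1 ∧ B2 + 2 ≤ B1 + n2)
  tzmp : ¬ (A2 + 1 ≤ A1 + n2 ∧ A2 + 2 ≤ A3 ∧ B1 + 1 ≤ B2 ∧ B3 + 2 ≤ B2 + n3)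
  tzpm : ¬ (A1 + 1 ≤ A2 ∧ A3 + 2 ≤ A2 + n3 ∧ B2 + 1 ≤ B1 + n2 ∧ B2 + 2 ≤ B3)
  tpmm : ¬ (1 ≤ A1 ∧ A2 + 2 ≤ A1 + n2 ∧ B1 + 1 ≤ n1 ∧ B1 + 2 ≤ B2 ∧ (A2 < B2 + (-1) ∨ A3 < B3 + (-1)) ∧ (B1 + (1) < A1))
  tpmz : ¬ (1 ≤ A1 ∧ A2 + 2 ≤ A1 + n2 ∧ A2 + 1 ≤ A3 ∧ B1 + 1 ≤ n1 ∧ B1 + 2 ≤ B2 ∧ B3 + 1 ≤ B2 + n3 ∧ (B1 + (1) < A1))
  tpzm : ¬ (1 ≤ A1 ∧ A2 + 1 ≤ A1 + n2 ∧ A3 + 1 ≤ A2 + n3 ∧ B1 + 1 ≤ n1 ∧ B1 + 1 ≤ B2 ∧ B2 + 1 ≤ B3 ∧ (B1 + (1) < A1))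

structure Ctx3 (n1 n2 n3 A1 A2 A3 B1 B2 B3 m11_1 m11_2 m11_3 m22_1 m22_2 m22_3 m23_1 m23_2 m23_3 m33_1 m33_2 m33_3 : ℤ) : Prop where
  a0 : 0 ≤ A1
  a1 : A1 ≤ n1
  a2 : A1 ≤ A2
  a3 : A2 ≤ A1 + n2
  a4 : A2 ≤ A3
  a5 : A3 ≤ A2 + n3
  b0 : 0 ≤ B1
  b1 : B1 ≤ n1
  b2 : B1 ≤ B2
  b3 : B2 ≤ B1 + n2
  b4 : B2 ≤ B3
  b5 : B3 ≤ B2 + n3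
  o0 : A1 = B1
  o1 : A2 > B2
  o2 : A3 < B3
  t12 : (0 < A1 ∧ A2 < A1 + n2) ∨ (0 < B1 ∧ B2 < B1 + n2)
  t23 : (A1 < A2 ∧ A3 < A2 + n3) ∨ (B1 < B2 ∧ B3 < B2 + n3)
  f11_0 : m11_1 = B1 - 1
  f11_1 : m11_2 = m11_1 + n2
  f11_2 : m11_3 = m11_2 + n3
  f22_0 : m22_1 ≤ n1
  f22_1 : m22_1 ≤ B2 - 1
  f22_2 : m22_1 = n1 ∨ m22_1 = B2 - 1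
  f22_3 : m22_2 ≤ m22_1 + n2
  f22_4 : m22_2 ≤ B2 - 1
  f22_5 : m22_2 = m22_1 + n2 ∨ m22_2 = B2 - 1
  f22_6 : m22_3 = m22_2 + n3
  f23_0 : m23_1 ≤ n1
  f23_1 : m23_1 ≤ A2 - 1
  f23_2 : m23_1 ≤ B3 - 1
  f23_3 : m23_1 = n1 ∨ m23_1 = A2 - 1 ∨ m23_1 = B3 - 1
  f23_4 : m23_2 ≤ m23_1 + n2
  f23_5 : m23_2 ≤ A2 - 1
  f23_6 : m23_2 ≤ B3 - 1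
  f23_7 : m23_2 = m23_1 + n2 ∨ m23_2 = A2 - 1 ∨ m23_2 = B3 - 1
  f23_8 : m23_3 ≤ m23_2 + n3
  f23_9 : m23_3 ≤ B3 - 1
  f23_10 : m23_3 = m23_2 + n3 ∨ m23_3 = B3 - 1
  f33_0 : m33_1 ≤ n1
  f33_1 : m33_1 ≤ A3 - 1
  f33_2 : m33_1 = n1 ∨ m33_1 = A3 - 1
  f33_3 : m33_2 ≤ m33_1 + n2
  f33_4 : m33_2 ≤ A3 - 1
  f33_5 : m33_2 = m33_1 + n2 ∨ m33_2 = A3 - 1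
  f33_6 : m33_3 ≤ m33_2 + n3
  f33_7 : m33_3 ≤ A3 - 1
  f33_8 : m33_3 = m33_2 + n3 ∨ m33_3 = A3 - 1
  p11_22A : 0 < B1 → 0 < B2 → ¬ (2 * A1 ≤ m11_1 + m22_1 ∧ 2 * A2 ≤ m11_2 + m22_2 ∧ 2 * A3 ≤ m11_3 + m22_3)
  p11_22B : 0 < B1 → 0 < B2 → ¬ (2 * B1 ≤ m11_1 + m22_1 ∧ 2 * B2 ≤ m11_2 + m22_2 ∧ 2 * B3 ≤ m11_3 + m22_3)
  p11_23A : 0 < B1 → 0 < A2 → 0 < B3 → ¬ (2 * A1 ≤ m11_1 + m23_1 ∧ 2 * A2 ≤ m11_2 + m23_2 ∧ 2 * A3 ≤ m11_3 + m23_3)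
  p11_23B : 0 < B1 → 0 < A2 → 0 < B3 → ¬ (2 * B1 ≤ m11_1 + m23_1 ∧ 2 * B2 ≤ m11_2 + m23_2 ∧ 2 * B3 ≤ m11_3 + m23_3)
  p11_33A : 0 < B1 → 0 < A3 → ¬ (2 * A1 ≤ m11_1 + m33_1 ∧ 2 * A2 ≤ m11_2 + m33_2 ∧ 2 * A3 ≤ m11_3 + m33_3)
  p11_33B : 0 < B1 → 0 < A3 → ¬ (2 * B1 ≤ m11_1 + m33_1 ∧ 2 * B2 ≤ m11_2 + m33_2 ∧ 2 * B3 ≤ m11_3 + m33_3)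
  p22_23A : 0 < B2 → 0 < A2 → 0 < B3 → ¬ (2 * A1 ≤ m22_1 + m23_1 ∧ 2 * A2 ≤ m22_2 + m23_2 ∧ 2 * A3 ≤ m22_3 + m23_3)
  p22_23B : 0 < B2 → 0 < A2 → 0 < B3 → ¬ (2 * B1 ≤ m22_1 + m23_1 ∧ 2 * B2 ≤ m22_2 + m23_2 ∧ 2 * B3 ≤ m22_3 + m23_3)
  p22_33A : 0 < B2 → 0 < A3 → ¬ (2 * A1 ≤ m22_1 + m33_1 ∧ 2 * A2 ≤ m22_2 + m33_2 ∧ 2 * A3 ≤ m22_3 + m33_3)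
  p22_33B : 0 < B2 → 0 < A3 → ¬ (2 * B1 ≤ m22_1 + m33_1 ∧ 2 * B2 ≤ m22_2 + m33_2 ∧ 2 * B3 ≤ m22_3 + m33_3)
  p23_33A : 0 < A2 → 0 < B3 → 0 < A3 → ¬ (2 * A1 ≤ m23_1 + m33_1 ∧ 2 * A2 ≤ m23_2 + m33_2 ∧ 2 * A3 ≤ m23_3 + m33_3)
  p23_33B : 0 < A2 → 0 < B3 → 0 < A3 → ¬ (2 * B1 ≤ m23_1 + m33_1 ∧ 2 * B2 ≤ m23_2 + m33_2 ∧ 2 * B3 ≤ m23_3 + m33_3)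
  tmzp : ¬ (A1 + 1 ≤ n1 ∧ A1 + 1 ≤ A2 ∧ A2 + 1 ≤ A3 ∧ 1 ≤ B1 ∧ B2 + 1 ≤ B1 + n2 ∧ B3 + 1 ≤ B2 + n3)
  tmpp : ¬ (A1 + 1 ≤ n1 ∧ A1 + 2 ≤ A2 ∧ 1 ≤ B1 ∧ B2 + 2 ≤ B1 + n2)
  tzmp : ¬ (A2 + 1 ≤ A1 + n2 ∧ A2 + 2 ≤ A3 ∧ B1 + 1 ≤ B2 ∧ B3 + 2 ≤ B2 + n3)
  tzpm : ¬ (A1 + 1 ≤ A2 ∧ A3 + 2 ≤ A2 + n3 ∧ B2 + 1 ≤ B1 + n2 ∧ B2 + 2 ≤ B3 ∧ (A3 < B3 + (-1)) ∧ (B2 + (1) < A2))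
  tpmm : ¬ (1 ≤ A1 ∧ A2 + 2 ≤ A1 + n2 ∧ B1 + 1 ≤ n1 ∧ B1 + 2 ≤ B2)
  tpmz : ¬ (1 ≤ A1 ∧ A2 + 2 ≤ A1 + n2 ∧ A2 + 1 ≤ A3 ∧ B1 + 1 ≤ n1 ∧ B1 + 2 ≤ B2 ∧ B3 + 1 ≤ B2 + n3)
  tpzm : ¬ (1 ≤ A1 ∧ A2 + 1 ≤ A1 + n2 ∧ A3 + 1 ≤ A2 + n3 ∧ B1 + 1 ≤ n1 ∧ B1 + 1 ≤ B2 ∧ B2 + 1 ≤ B3)

end Pool.Agent.Helper89.TQ
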