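import Pool.Agent.Helper89.TQ.Ctx

set_option autoImplicit false
set_option linter.all false
set_option maxHeartbeats 4000000

namespace Pool.Agent.Helper89.TQ

/-- in the box, in partial sums -/
def Bx (n1 n2 n3 x1 x2 x3 : ℤ) : Prop :=
  0 ≤ x1 ∧ x1 ≤ n1 ∧ x1 ≤ x2 ∧ x2 ≤ x1 + n2 ∧ x2 ≤ x3 ∧ x3 ≤ x2 + n3

/-- losing, in partial sums -/
def Ls (A1 A2 A3 B1 B2 B3 x1 x2 x3 : ℤ) : Prop :=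
  ¬ (A1 ≤ x1 ∧ A2 ≤ x2 ∧ A3 ≤ x3) ∧ ¬ (B1 ≤ x1 ∧ B2 ≤ x2 ∧ B3 ≤ x3)

/-- there is no trade of length two -/
def NT (n1 n2 n3 A1 A2 A3 B1 B2 B3 : ℤ) : Prop :=
  ∀ x1 x2 x3 y1 y2 y3 z1 z2 z3 w1 w2 w3 : ℤ, Bx n1 n2 n3 x1 x2 x3 → Bx n1 n2 n3 y1 y2 y3 →
    Bx n1 n2 n3 z1 z2 z3 → Bx n1 n2 n3 w1 w2 w3 → ¬ Ls A1 A2 A3 B1 B2 B3 x1 x2 x3 →
    ¬ Ls A1 A2 A3 B1 B2 B3 y1 y2 y3 → Ls A1 A2 A3 B1 B2 B3 z1 z2 z3 →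
    Ls A1 A2 A3 B1 B2 B3 w1 w2 w3 → x1 + y1 = z1 + w1 → x2 + y2 = z2 + w2 → x3 + y3 = z3 + w3 →
    False

theorem pairA {n1 n2 n3 A1 A2 A3 B1 B2 B3 : ℤ} (h : NT n1 n2 n3 A1 A2 A3 B1 B2 B3)
    {z1 z2 z3 w1 w2 w3 : ℤ} (hz : Bx n1 n2 n3 z1 z2 z3 ∧ Ls A1 A2 A3 B1 B2 B3 z1 z2 z3)
    (hw : Bx n1 n2 n3 w1 w2 w3 ∧ Ls A1 A2 A3 B1 B2 B3 w1 w2 w3) :
    ¬ (2 * A1 ≤ z1 + w1 ∧ 2 * A2 ≤ z2 + w2 ∧ 2 * A3 ≤ z3 + w3) := by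
  rintro ⟨h1, h2, h3⟩
  refine h ((z1 + w1 + 1) / 2) ((z2 + w2 + 1) / 2) ((z3 + w3 + 1) / 2) ((z1 + w1) / 2)
    ((z2 + w2) / 2) ((z3 + w3) / 2) z1 z2 z3 w1 w2 w3 ?_ ?_ hz.1 hw.1 ?_ ?_ hz.2 hw.2 ?_ ?_ ?_
  · have a := hz.1; have b := hw.1; unfold Bx at *; omega
  · have a := hz.1; have b := hw.1; unfold Bx at *; omega
  · exact fun hL => hL.1 ⟨by omega, by omega, by omega⟩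
  · exact fun hL => hL.1 ⟨by omega, by omega, by omega⟩
  all_goals omega

theorem pairB {n1 n2 n3 A1 A2 A3 B1 B2 B3 : ℤ} (h : NT n1 n2 n3 A1 A2 A3 B1 B2 B3)
    {z1 z2 z3 w1 w2 w3 : ℤ} (hz : Bx n1 n2 n3 z1 z2 z3 ∧ Ls A1 A2 A3 B1 B2 B3 z1 z2 z3)
    (hw : Bx n1 n2 n3 w1 w2 w3 ∧ Ls A1 A2 A3 B1 B2 B3 w1 w2 w3) :
    ¬ (2 * B1 ≤ z1 + w1 ∧ 2 * B2 ≤ z2 + w2 ∧ 2 * B3 ≤ z3 + w3) := by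
  rintro ⟨h1, h2, h3⟩
  refine h ((z1 + w1 + 1) / 2) ((z2 + w2 + 1) / 2) ((z3 + w3 + 1) / 2) ((z1 + w1) / 2)
    ((z2 + w2) / 2) ((z3 + w3) / 2) z1 z2 z3 w1 w2 w3 ?_ ?_ hz.1 hw.1 ?_ ?_ hz.2 hw.2 ?_ ?_ ?_
  · have a := hz.1; have b := hw.1; unfold Bx at *; omega
  · have a := hz.1; have b := hw.1; unfold Bx at *; omega
  · exact fun hL => hL.2 ⟨by omega, by omega, by omega⟩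
  · exact fun hL => hL.2 ⟨by omega, by omega, by omega⟩
  all_goals omega

theorem temp {n1 n2 n3 A1 A2 A3 B1 B2 B3 : ℤ} (h : NT n1 n2 n3 A1 A2 A3 B1 B2 B3)
    (hA : Bx n1 n2 n3 A1 A2 A3) (hB : Bx n1 n2 n3 B1 B2 B3) (f1 f2 f3 : ℤ)
    (h1 : Bx n1 n2 n3 (A1 - f1) (A2 - f2) (A3 - f3) ∧
      Ls A1 A2 A3 B1 B2 B3 (A1 - f1) (A2 - f2) (A3 - f3))
    (h2 : Bx n1 n2 n3 (B1 + f1) (B2 + f2) (B3 + f3) ∧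
      Ls A1 A2 A3 B1 B2 B3 (B1 + f1) (B2 + f2) (B3 + f3)) : False :=
  h A1 A2 A3 B1 B2 B3 _ _ _ _ _ _ hA hB h1.1 h2.1 (fun hL => hL.1 ⟨le_rfl, le_rfl, le_rfl⟩)
    (fun hL => hL.2 ⟨le_rfl, le_rfl, le_rfl⟩) h1.2 h2.2 (by ring) (by ring) (by ring)

theorem min2 (a b : ℤ) : ∃ x : ℤ, x ≤ a ∧ x ≤ b ∧ (x = a ∨ x = b) := by
  rcases le_total a b with h | h
  · exact ⟨a, le_rfl, h, Or.inl rfl⟩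
  · exact ⟨b, h, le_rfl, Or.inr rfl⟩

theorem min3 (a b c : ℤ) : ∃ x : ℤ, x ≤ a ∧ x ≤ b ∧ x ≤ c ∧ (x = a ∨ x = b ∨ x = c) := by
  obtain ⟨y, h1, h2, h3⟩ := min2 b c
  obtain ⟨x, h4, h5, h6⟩ := min2 a y
  exact ⟨x, h4, by omega, by omega, by omega⟩

/-- lower bounds for the sum of the three losing vectors -/
def SG (A1 A2 A3 B1 B2 B3 s1 s2 s3 : ℤ) : Prop :=
  (0 * A1 + 3 * B1 ≤ s1 ∧ 0 * A2 + 3 * B2 ≤ s2 ∧ 0 * A3 + 3 * B3 ≤ s3) ∨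
  (1 * A1 + 2 * B1 ≤ s1 ∧ 1 * A2 + 2 * B2 ≤ s2 ∧ 1 * A3 + 2 * B3 ≤ s3) ∨
  (2 * A1 + 1 * B1 ≤ s1 ∧ 2 * A2 + 1 * B2 ≤ s2 ∧ 2 * A3 + 1 * B3 ≤ s3) ∨
  (3 * A1 + 0 * B1 ≤ s1 ∧ 3 * A2 + 0 * B2 ≤ s2 ∧ 3 * A3 + 0 * B3 ≤ s3)

theorem SG.mono {A1 A2 A3 B1 B2 B3 s1 s2 s3 t1 t2 t3 : ℤ} (h : SG A1 A2 A3 B1 B2 B3 s1 s2 s3)
    (h1 : s1 ≤ t1) (h2 : s2 ≤ t2) (h3 : s3 ≤ t3) : SG A1 A2 A3 B1 B2 B3 t1 t2 t3 := by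
  unfold SG at *
  rcases h with h | h | h | h
  · exact Or.inl ⟨h.1.trans h1, h.2.1.trans h2, h.2.2.trans h3⟩
  · exact Or.inr (Or.inl ⟨h.1.trans h1, h.2.1.trans h2, h.2.2.trans h3⟩)
  · exact Or.inr (Or.inr (Or.inl ⟨h.1.trans h1, h.2.1.trans h2, h.2.2.trans h3⟩))
  · exact Or.inr (Or.inr (Or.inr ⟨h.1.trans h1, h.2.1.trans h2, h.2.2.trans h3⟩))

end Pool.Agent.Helper89.TQ
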