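import Pool.Agent.Helper89.TQ.Ctx

set_option autoImplicit false
set_option linter.all false
set_option maxHeartbeats 4000000

namespace Pool.Agent.Helper89.TQ

theorem c0_11_13_13_k0 {n1 n2 n3 A1 A2 A3 B1 B2 B3 m11_1 m11_2 m11_3 m13_1 m13_2 m13_3 m22_1 m22_2 m22_3 m23_1 m23_2 m23_3 m33_1 m33_2 m33_3 : ℤ}
    (C : Ctx0 n1 n2 n3 A1 A2 A3 B1 B2 B3 m11_1 m11_2 m11_3 m13_1 m13_2 m13_3 m22_1 m22_2 m22_3 m23_1 m23_2 m23_3 m33_1 m33_2 m33_3)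
    (e0 : 0 < B1)
    (e1 : 0 < A1)
    (e2 : 0 < B3)
    (s1 : 0 * A1 + 3 * B1 ≤ m11_1 + m13_1 + m13_1)
    (s2 : 0 * A2 + 3 * B2 ≤ m11_2 + m13_2 + m13_2)
    (s3 : 0 * A3 + 3 * B3 ≤ m11_3 + m13_3 + m13_3) : False := by
  have d5 : ((0 ≤ 0 - B1)) ∨ ((0 ≤ 0 - A1)) ∨ ((0 ≤ 0 - B3)) ∨ ((0 ≤ -1 + 2 * B1 - m11_1 - m13_1)) ∨ ((0 ≤ -1 + 2 * B2 - m11_2 - m13_2)) ∨ ((0 ≤ -1 + 2 * B3 - m11_3 - m13_3)) := by
    have h := C.p11_13B
    clear C e0 e1 e2 s1 s2 s3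
    omega
  rcases d5 with g1 | g2 | g3 | g4 | g5 | g6
  · linarith only [g1, e0]
  · linarith only [g2, e1]
  · linarith only [g3, e2]
  · linarith only [g4, s1, C.f11_0]
  · linarith only [C.b3, s2, C.f11_0, C.f11_1, g5]
  · linarith only [g6, s3, C.f13_7]

theorem c0_11_13_13_k1 {n1 n2 n3 A1 A2 A3 B1 B2 B3 m11_1 m11_2 m11_3 m13_1 m13_2 m13_3 m22_1 m22_2 m22_3 m23_1 m23_2 m23_3 m33_1 m33_2 m33_3 : ℤ}
    (C : Ctx0 n1 n2 n3 A1 A2 A3 B1 B2 B3 m11_1 m11_2 m11_3 m13_1 m13_2 m13_3 m22_1 m22_2 m22_3 m23_1 m23_2 m23_3 m33_1 m33_2 m33_3)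
    (e0 : 0 < B1)
    (e1 : 0 < A1)
    (e2 : 0 < B3)
    (s1 : 1 * A1 + 2 * B1 ≤ m11_1 + m13_1 + m13_1)
    (s2 : 1 * A2 + 2 * B2 ≤ m11_2 + m13_2 + m13_2)
    (s3 : 1 * A3 + 2 * B3 ≤ m11_3 + m13_3 + m13_3) : False := by
  have d0 : ((0 ≤ -1 + A1) ∧ (0 ≤ -1 + A1 - A2 + n2)) ∨ ((0 ≤ -1 + B1) ∧ (0 ≤ -1 + B1 - B2 + n2)) := by
    have h := C.t12
    clear C e0 e1 e2 s1 s2 s3
    omega
  have d1 : ((0 ≤ -1 - A1 + A2) ∧ (0 ≤ -1 + A2 - A3 + n3)) ∨ ((0 ≤ -1 - B1 + B2) ∧ (0 ≤ -1 + B2 - B3 + n3)) := by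
    have h := C.t23
    clear C e0 e1 e2 s1 s2 s3
    omega
  have d2 : ((0 ≤ 1 - A1 + m13_1) ∧ (0 ≤ -1 + A1 - m13_1)) ∨ ((0 ≤ 1 - B3 + m13_1) ∧ (0 ≤ -1 + B3 - m13_1)) := by
    have h := C.f13_2
    clear C e0 e1 e2 s1 s2 s3
    omega
  have d4 : ((0 ≤ 0 - m13_2 + m13_3 - n3) ∧ (0 ≤ 0 + m13_2 - m13_3 + n3)) ∨ ((0 ≤ 1 - B3 + m13_3) ∧ (0 ≤ -1 + B3 - m13_3)) := by
    have h := C.f13_8
    clear C e0 e1 e2 s1 s2 s3
    omega
  have d5 : ((0 ≤ 0 - B1)) ∨ ((0 ≤ 0 - A1)) ∨ ((0 ≤ 0 - B3)) ∨ ((0 ≤ -1 + 2 * B1 - m11_1 - m13_1)) ∨ ((0 ≤ -1 + 2 * B2 - m11_2 - m13_2)) ∨ ((0 ≤ -1 + 2 * B3 - m11_3 - m13_3)) := by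
    have h := C.p11_13B
    clear C e0 e1 e2 s1 s2 s3
    omega
  have d6 : ((0 ≤ 0 + A1 - A2)) ∨ ((0 ≤ 1 - A2 + A3 - n3)) ∨ ((0 ≤ 0 - B1 + B2 - n2)) ∨ ((0 ≤ 1 + B2 - B3)) ∨ ((0 ≤ -1 + A2 - B2) ∧ (0 ≤ 1 + A3 - B3)) := by
    have h := C.tzpm
    clear C e0 e1 e2 s1 s2 s3
    omega
  have d7 : ((0 ≤ 0 - A1)) ∨ ((0 ≤ 0 - A1 + A2 - n2)) ∨ ((0 ≤ 0 - A2 + A3 - n3)) ∨ ((0 ≤ 0 + B1 - n1)) ∨ ((0 ≤ 0 + B1 - B2)) ∨ ((0 ≤ 0 + B2 - B3)) ∨ ((0 ≤ 1 + A3 - B3)) ∨ ((0 ≤ 1 - A1 + B1) ∧ (0 ≤ 0 - A2 + B2)) := by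
    have h := C.tpzm
    clear C e0 e1 e2 s1 s2 s3
    omega
  rcases d5 with g1 | g2 | g3 | g4 | g5 | g6
  · linarith only [g1, e0]
  · linarith only [g2, e1]
  · linarith only [g3, e2]
  · linarith only [g4, s1, C.f13_0]
  · linarith only [C.b3, s2, C.o1, C.f11_0, C.f11_1, g5]
  · rcases d2 with ⟨g7, g8⟩ | ⟨g9, g10⟩
    · rcases d4 with ⟨g11, g12⟩ | ⟨g13, g14⟩
      · linarith only [s2, C.b5, C.o1, C.f11_2, g11, C.f13_7, g6]
      · rcases d7 with g15 | g16 | g17 | g18 | g19 | g20 | g21 | ⟨g22, g23⟩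
        · linarith only [g15, e1]
        · rcases d0 with ⟨g24, g25⟩ | ⟨g26, g27⟩
          · linarith only [g25, g16]
          · rcases d6 with g28 | g29 | g30 | g31 | ⟨g32, g33⟩
            · linarith only [C.b2, g28, g16, g27]
            · linarith only [g29, s1, s3, g16, C.f11_0, C.f11_1, C.f11_2, g8, g14]
            · linarith only [g30, g27]
            · linarith only [g31, s1, s3, g16, C.a4, g27, C.f11_0, g8, g14, g6]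
            · linarith only [g33, s3, g14, g6]
        · linarith only [C.b5, s3, g17, C.o1, g14, g6]
        · linarith only [g18, s1, C.a1, C.f11_0, g8]
        · rcases d1 with ⟨g34, g35⟩ | ⟨g36, g37⟩
          · rcases d6 with g38 | g39 | g40 | g41 | ⟨g42, g43⟩
            · linarith only [g38, g34]
            · linarith only [g39, s1, s3, g34, g19, C.b5, C.f11_0, g8, g14, g6]
            · linarith only [C.a3, g34, g19, g40]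
            · linarith only [g41, s1, s3, g34, C.a4, g19, C.f11_0, g8, g14, g6]
            · linarith only [g43, s3, g14, g6]
          · linarith only [g36, g19]
        · linarith only [C.o1, s3, C.a4, g20, g14, g6]
        · linarith only [g21, s3, g14, g6]
        · linarith only [g22, s1, C.f11_0, g8]
    · linarith only [C.a2, s3, C.a4, C.f13_0, g9, C.f13_7, g6]

theorem c0_11_13_13_k2 {n1 n2 n3 A1 A2 A3 B1 B2 B3 m11_1 m11_2 m11_3 m13_1 m13_2 m13_3 m22_1 m22_2 m22_3 m23_1 m23_2 m23_3 m33_1 m33_2 m33_3 : ℤ}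
    (C : Ctx0 n1 n2 n3 A1 A2 A3 B1 B2 B3 m11_1 m11_2 m11_3 m13_1 m13_2 m13_3 m22_1 m22_2 m22_3 m23_1 m23_2 m23_3 m33_1 m33_2 m33_3)
    (e0 : 0 < B1)
    (e1 : 0 < A1)
    (e2 : 0 < B3)
    (s1 : 2 * A1 + 1 * B1 ≤ m11_1 + m13_1 + m13_1)
    (s2 : 2 * A2 + 1 * B2 ≤ m11_2 + m13_2 + m13_2)
    (s3 : 2 * A3 + 1 * B3 ≤ m11_3 + m13_3 + m13_3) : False := by
  linarith only [C.f13_0, s1, C.f11_0]

theorem c0_11_13_13_k3 {n1 n2 n3 A1 A2 A3 B1 B2 B3 m11_1 m11_2 m11_3 m13_1 m13_2 m13_3 m22_1 m22_2 m22_3 m23_1 m23_2 m23_3 m33_1 m33_2 m33_3 : ℤ}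
    (C : Ctx0 n1 n2 n3 A1 A2 A3 B1 B2 B3 m11_1 m11_2 m11_3 m13_1 m13_2 m13_3 m22_1 m22_2 m22_3 m23_1 m23_2 m23_3 m33_1 m33_2 m33_3)
    (e0 : 0 < B1)
    (e1 : 0 < A1)
    (e2 : 0 < B3)
    (s1 : 3 * A1 + 0 * B1 ≤ m11_1 + m13_1 + m13_1)
    (s2 : 3 * A2 + 0 * B2 ≤ m11_2 + m13_2 + m13_2)
    (s3 : 3 * A3 + 0 * B3 ≤ m11_3 + m13_3 + m13_3) : False := by
  linarith only [C.f13_0, s1, C.o0, C.f11_0]

theorem c0_11_13_22_k0 {n1 n2 n3 A1 A2 A3 B1 B2 B3 m11_1 m11_2 m11_3 m13_1 m13_2 m13_3 m22_1 m22_2 m22_3 m23_1 m23_2 m23_3 m33_1 m33_2 m33_3 : ℤ}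
    (C : Ctx0 n1 n2 n3 A1 A2 A3 B1 B2 B3 m11_1 m11_2 m11_3 m13_1 m13_2 m13_3 m22_1 m22_2 m22_3 m23_1 m23_2 m23_3 m33_1 m33_2 m33_3)
    (e0 : 0 < B1)
    (e1 : 0 < A1)
    (e2 : 0 < B3)
    (e3 : 0 < B2)
    (s1 : 0 * A1 + 3 * B1 ≤ m11_1 + m13_1 + m22_1)
    (s2 : 0 * A2 + 3 * B2 ≤ m11_2 + m13_2 + m22_2)
    (s3 : 0 * A3 + 3 * B3 ≤ m11_3 + m13_3 + m22_3) : False := by
  have d2 : ((0 ≤ 1 - A1 + m13_1) ∧ (0 ≤ -1 + A1 - m13_1)) ∨ ((0 ≤ 1 - B3 + m13_1) ∧ (0 ≤ -1 + B3 - m13_1)) := by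
    have h := C.f13_2
    clear C e0 e1 e2 e3 s1 s2 s3
    omega
  have d4 : ((0 ≤ 0 - m13_2 + m13_3 - n3) ∧ (0 ≤ 0 + m13_2 - m13_3 + n3)) ∨ ((0 ≤ 1 - B3 + m13_3) ∧ (0 ≤ -1 + B3 - m13_3)) := by
    have h := C.f13_8
    clear C e0 e1 e2 e3 s1 s2 s3
    omega
  have d6 : ((0 ≤ 0 - m22_1 + m22_2 - n2) ∧ (0 ≤ 0 + m22_1 - m22_2 + n2)) ∨ ((0 ≤ 1 - B2 + m22_2) ∧ (0 ≤ -1 + B2 - m22_2)) := by
    have h := C.f22_5
    clear C e0 e1 e2 e3 s1 s2 s3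
    omega
  have d7 : ((0 ≤ 0 + m23_1 - n1) ∧ (0 ≤ 0 - m23_1 + n1)) ∨ ((0 ≤ 1 - A2 + m23_1) ∧ (0 ≤ -1 + A2 - m23_1)) ∨ ((0 ≤ 1 - B3 + m23_1) ∧ (0 ≤ -1 + B3 - m23_1)) := by
    have h := C.f23_3
    clear C e0 e1 e2 e3 s1 s2 s3
    omega
  have d8 : ((0 ≤ 0 - m23_1 + m23_2 - n2) ∧ (0 ≤ 0 + m23_1 - m23_2 + n2)) ∨ ((0 ≤ 1 - A2 + m23_2) ∧ (0 ≤ -1 + A2 - m23_2)) ∨ ((0 ≤ 1 - B3 + m23_2) ∧ (0 ≤ -1 + B3 - m23_2)) := by
    have h := C.f23_7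
    clear C e0 e1 e2 e3 s1 s2 s3
    omega
  have d9 : ((0 ≤ 0 - m23_2 + m23_3 - n3) ∧ (0 ≤ 0 + m23_2 - m23_3 + n3)) ∨ ((0 ≤ 1 - B3 + m23_3) ∧ (0 ≤ -1 + B3 - m23_3)) := by
    have h := C.f23_10
    clear C e0 e1 e2 e3 s1 s2 s3
    omega
  have d10 : ((0 ≤ 0 - B1)) ∨ ((0 ≤ 0 - A1)) ∨ ((0 ≤ 0 - B3)) ∨ ((0 ≤ -1 + 2 * B1 - m11_1 - m13_1)) ∨ ((0 ≤ -1 + 2 * B2 - m11_2 - m13_2)) ∨ ((0 ≤ -1 + 2 * B3 - m11_3 - m13_3)) := by
    have h := C.p11_13B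
    clear C e0 e1 e2 e3 s1 s2 s3
    omega
  have d11 : ((0 ≤ 0 - B1)) ∨ ((0 ≤ 0 - B2)) ∨ ((0 ≤ -1 + 2 * B1 - m11_1 - m22_1)) ∨ ((0 ≤ -1 + 2 * B2 - m11_2 - m22_2)) ∨ ((0 ≤ -1 + 2 * B3 - m11_3 - m22_3)) := by
    have h := C.p11_22B
    clear C e0 e1 e2 e3 s1 s2 s3
    omega
  have d12 : ((0 ≤ 0 - B1)) ∨ ((0 ≤ 0 - A2)) ∨ ((0 ≤ 0 - B3)) ∨ ((0 ≤ -1 + 2 * B1 - m11_1 - m23_1)) ∨ ((0 ≤ -1 + 2 * B2 - m11_2 - m23_2)) ∨ ((0 ≤ -1 + 2 * B3 - m11_3 - m23_3)) := by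
    have h := C.p11_23B
    clear C e0 e1 e2 e3 s1 s2 s3
    omega
  have d14 : ((0 ≤ 0 + A1 - n1)) ∨ ((0 ≤ 0 + A1 - A2)) ∨ ((0 ≤ 0 + A2 - A3)) ∨ ((0 ≤ 0 - B1)) ∨ ((0 ≤ 0 - B1 + B2 - n2)) ∨ ((0 ≤ 0 - B2 + B3 - n3)) := by
    have h := C.tmzp
    clear C e0 e1 e2 e3 s1 s2 s3
    omega
  have d15 : ((0 ≤ 0 + A1 - A2)) ∨ ((0 ≤ 1 - A2 + A3 - n3)) ∨ ((0 ≤ 0 - B1 + B2 - n2)) ∨ ((0 ≤ 1 + B2 - B3)) ∨ ((0 ≤ -1 + A2 - B2) ∧ (0 ≤ 1 + A3 - B3)) := by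
    have h := C.tzpm
    clear C e0 e1 e2 e3 s1 s2 s3
    omega
  rcases d2 with ⟨g1, g2⟩ | ⟨g3, g4⟩
  · rcases d10 with g5 | g6 | g7 | g8 | g9 | g10
    · linarith only [g5, e0]
    · linarith only [g6, e1]
    · linarith only [g7, e2]
    · rcases d11 with g11 | g12 | g13 | g14 | g15
      · linarith only [g11, e0]
      · linarith only [g12, e3]
      · linarith only [g13, s1, C.f11_0, g8]
      · rcases d15 with g16 | g17 | g18 | g19 | ⟨g20, g21⟩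
        · linarith only [C.o1, s1, g16, C.f11_0, g1, C.f22_1, g8]
        · linarith only [g17, s3, C.o1, C.o2, C.f11_2, C.f13_7, C.f22_6, g14]
        · linarith only [C.f13_3, s2, g18, C.f11_0, g8, g14]
        · linarith only [g19, s2, C.f13_4, g14]
        · rcases d4 with ⟨g22, g23⟩ | ⟨g24, g25⟩
          · linarith only [g22, s2, s3, C.f11_2, C.f13_7, C.f22_6, g14]
          · rcases d6 with ⟨g26, g27⟩ | ⟨g28, g29⟩
            · linarith only [g26, s1, s2, C.f11_0, C.f11_1, C.f13_3, g8, g14]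
            · rcases d14 with g30 | g31 | g32 | g33 | g34 | g35
              · rcases d7 with ⟨g36, g37⟩ | ⟨g38, g39⟩ | ⟨g40, g41⟩
                · rcases d8 with ⟨g42, g43⟩ | ⟨g44, g45⟩ | ⟨g46, g47⟩
                  · linarith only [C.a3, C.a1, g36, g42, C.f23_5]
                  · rcases d12 with g48 | g49 | g50 | g51 | g52 | g53
                    · linarith only [g48, e0]
                    · linarith only [g49, e0, s1, g20, C.f22_1, g8]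
                    · linarith only [g50, e2]
                    · linarith only [s2, C.a1, C.f11_0, C.f11_1, g2, C.f13_3, g28, g36, g14, g51]
                    · linarith only [g8, s2, g20, C.f11_0, C.f11_1, C.f13_3, g29, g44, g52]
                    · rcases d9 with ⟨g54, g55⟩ | ⟨g56, g57⟩
                      · linarith only [g54, s3, g20, g25, g29, C.f22_6, g44, g53]
                      · linarith only [g56, s2, s3, C.f11_0, C.f11_1, C.f11_2, C.f13_3, g25, g29, C.f22_6, g8, g53]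
                  · linarith only [g46, C.a4, C.o2, C.f23_5]
                · linarith only [g38, s1, g30, g20, C.f11_0, g1, C.f22_1, C.f23_0, g8]
                · linarith only [s2, s1, g30, C.f11_0, g1, C.f13_4, C.f22_1, C.f23_0, g40, g8, g14]
              · linarith only [g31, s1, g20, C.f11_0, g1, C.f22_1, g8]
              · rcases d7 with ⟨g58, g59⟩ | ⟨g60, g61⟩ | ⟨g62, g63⟩
                · rcases d8 with ⟨g64, g65⟩ | ⟨g66, g67⟩ | ⟨g68, g69⟩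
                  · linarith only [C.a3, C.a1, g58, g64, C.f23_5]
                  · rcases d12 with g70 | g71 | g72 | g73 | g74 | g75
                    · linarith only [g70, e0]
                    · linarith only [e3, g20, g71]
                    · linarith only [g72, e2]
                    · linarith only [C.o0, C.a1, C.f11_0, g58, g73]
                    · linarith only [s2, g32, g21, C.f13_4, g29, g66, g74]
                    · rcases d9 with ⟨g76, g77⟩ | ⟨g78, g79⟩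
                      · linarith only [g76, s3, g20, g25, g29, C.f22_6, g66, g75]
                      · linarith only [C.a3, s2, s3, g32, g21, C.f11_0, C.f11_1, C.f11_2, g1, C.f13_4, g25, g29, C.f22_6, g78, g8, g75]
                  · linarith only [g68, C.a4, C.o2, C.f23_5]
                · rcases d8 with ⟨g80, g81⟩ | ⟨g82, g83⟩ | ⟨g84, g85⟩
                  · linarith only [C.a3, s1, s2, g32, g21, C.f11_1, g1, C.f13_4, C.f22_1, g29, g60, g80, C.f23_5, g8]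
                  · rcases d12 with g86 | g87 | g88 | g89 | g90 | g91
                    · linarith only [g86, e0]
                    · linarith only [g87, e0, s1, g20, C.f22_1, g8]
                    · linarith only [g88, e2]
                    · linarith only [g89, s1, g20, C.f11_0, C.f22_1, g60, g8]
                    · linarith only [s2, g32, g21, C.f13_4, g29, g82, g90]
                    · rcases d9 with ⟨g92, g93⟩ | ⟨g94, g95⟩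
                      · linarith only [g92, s3, g20, g25, g29, C.f22_6, g82, g91]
                      · linarith only [C.a3, s2, s3, g32, g21, C.f11_0, C.f11_1, C.f11_2, g1, C.f13_4, g25, g29, C.f22_6, g94, g8, g91]
                  · linarith only [g84, C.a4, C.o2, C.f23_5]
                · linarith only [C.a4, C.o2, C.f23_1, g62]
              · linarith only [g33, e0]
              · linarith only [g34, s2, C.f11_1, C.f13_3, g29, g8]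
              · linarith only [g14, s3, g35, C.f11_2, g25, C.f22_6]
      · linarith only [g15, s3, C.f13_7]
    · linarith only [g9, s2, C.f22_4]
    · rcases d4 with ⟨g96, g97⟩ | ⟨g98, g99⟩
      · linarith only [g96, s2, s3, C.f11_2, C.f22_4, C.f22_6, g10]
      · linarith only [C.b3, s3, C.f11_0, C.f11_1, C.f11_2, g98, C.f22_4, C.f22_6, g10]
  · linarith only [C.a2, C.a4, C.o2, C.f13_0, g3]

theorem c0_11_13_22_k1 {n1 n2 n3 A1 A2 A3 B1 B2 B3 m11_1 m11_2 m11_3 m13_1 m13_2 m13_3 m22_1 m22_2 m22_3 m23_1 m23_2 m23_3 m33_1 m33_2 m33_3 : ℤ}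
    (C : Ctx0 n1 n2 n3 A1 A2 A3 B1 B2 B3 m11_1 m11_2 m11_3 m13_1 m13_2 m13_3 m22_1 m22_2 m22_3 m23_1 m23_2 m23_3 m33_1 m33_2 m33_3)
    (e0 : 0 < B1)
    (e1 : 0 < A1)
    (e2 : 0 < B3)
    (e3 : 0 < B2)
    (s1 : 1 * A1 + 2 * B1 ≤ m11_1 + m13_1 + m22_1)
    (s2 : 1 * A2 + 2 * B2 ≤ m11_2 + m13_2 + m22_2)
    (s3 : 1 * A3 + 2 * B3 ≤ m11_3 + m13_3 + m22_3) : False := by
  have d2 : ((0 ≤ 1 - A1 + m13_1) ∧ (0 ≤ -1 + A1 - m13_1)) ∨ ((0 ≤ 1 - B3 + m13_1) ∧ (0 ≤ -1 + B3 - m13_1)) := by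
    have h := C.f13_2
    clear C e0 e1 e2 e3 s1 s2 s3
    omega
  have d4 : ((0 ≤ 0 - m13_2 + m13_3 - n3) ∧ (0 ≤ 0 + m13_2 - m13_3 + n3)) ∨ ((0 ≤ 1 - B3 + m13_3) ∧ (0 ≤ -1 + B3 - m13_3)) := by
    have h := C.f13_8
    clear C e0 e1 e2 e3 s1 s2 s3
    omega
  have d6 : ((0 ≤ 0 - m22_1 + m22_2 - n2) ∧ (0 ≤ 0 + m22_1 - m22_2 + n2)) ∨ ((0 ≤ 1 - B2 + m22_2) ∧ (0 ≤ -1 + B2 - m22_2)) := by
    have h := C.f22_5
    clear C e0 e1 e2 e3 s1 s2 s3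
    omega
  have d7 : ((0 ≤ 0 - B1)) ∨ ((0 ≤ 0 - A1)) ∨ ((0 ≤ 0 - B3)) ∨ ((0 ≤ -1 + 2 * B1 - m11_1 - m13_1)) ∨ ((0 ≤ -1 + 2 * B2 - m11_2 - m13_2)) ∨ ((0 ≤ -1 + 2 * B3 - m11_3 - m13_3)) := by
    have h := C.p11_13B
    clear C e0 e1 e2 e3 s1 s2 s3
    omega
  have d8 : ((0 ≤ 0 - B1)) ∨ ((0 ≤ 0 - B2)) ∨ ((0 ≤ -1 + 2 * B1 - m11_1 - m22_1)) ∨ ((0 ≤ -1 + 2 * B2 - m11_2 - m22_2)) ∨ ((0 ≤ -1 + 2 * B3 - m11_3 - m22_3)) := by
    have h := C.p11_22B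
    clear C e0 e1 e2 e3 s1 s2 s3
    omega
  have d9 : ((0 ≤ 0 - A1)) ∨ ((0 ≤ 0 - B3)) ∨ ((0 ≤ 0 - B2)) ∨ ((0 ≤ -1 + 2 * A1 - m13_1 - m22_1)) ∨ ((0 ≤ -1 + 2 * A2 - m13_2 - m22_2)) ∨ ((0 ≤ -1 + 2 * A3 - m13_3 - m22_3)) := by
    have h := C.p13_22A
    clear C e0 e1 e2 e3 s1 s2 s3
    omega
  have d10 : ((0 ≤ 0 - A1)) ∨ ((0 ≤ 1 - A1 + A2 - n2)) ∨ ((0 ≤ 0 + B1 - n1)) ∨ ((0 ≤ 1 + B1 - B2)) ∨ ((0 ≤ 1 + A3 - B3)) := by
    have h := C.tpmm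
    clear C e0 e1 e2 e3 s1 s2 s3
    omega
  have d11 : ((0 ≤ 0 - A1)) ∨ ((0 ≤ 1 - A1 + A2 - n2)) ∨ ((0 ≤ 0 + A2 - A3)) ∨ ((0 ≤ 0 + B1 - n1)) ∨ ((0 ≤ 1 + B1 - B2)) ∨ ((0 ≤ 0 - B2 + B3 - n3)) := by
    have h := C.tpmz
    clear C e0 e1 e2 e3 s1 s2 s3
    omega
  rcases d2 with ⟨g1, g2⟩ | ⟨g3, g4⟩
  · rcases d6 with ⟨g5, g6⟩ | ⟨g7, g8⟩
    · linarith only [C.b3, s1, C.f11_0, g2, g5, C.f22_4]
    · rcases d7 with g9 | g10 | g11 | g12 | g13 | g14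
      · linarith only [g9, e0]
      · linarith only [g10, e1]
      · linarith only [g11, e2]
      · rcases d9 with g15 | g16 | g17 | g18 | g19 | g20
        · linarith only [g15, e1]
        · linarith only [g16, e2]
        · linarith only [g17, e3]
        · linarith only [g12, s1, g1, g18]
        · rcases d8 with g21 | g22 | g23 | g24 | g25
          · linarith only [g21, e0]
          · linarith only [g22, e3]
          · linarith only [g23, s1, g2]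
          · linarith only [g12, s2, C.f11_0, C.f11_1, C.f13_3, g7, g24, g19]
          · linarith only [s2, C.b5, C.f11_0, C.f11_1, C.f11_2, C.f13_3, g7, C.f22_6, g12, g25, g19]
        · rcases d8 with g26 | g27 | g28 | g29 | g30
          · linarith only [g26, e0]
          · linarith only [g27, e3]
          · linarith only [g28, s1, g2]
          · rcases d4 with ⟨g31, g32⟩ | ⟨g33, g34⟩
            · linarith only [C.a5, s2, s3, C.o2, C.f11_2, g31, g7, C.f22_6, g29, g20]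
            · linarith only [g33, s3, C.o2, C.f11_2, g7, C.f22_6, g29, g20]
          · linarith only [C.b5, s3, C.o2, g7, C.f22_6, g30, g20]
      · linarith only [g13, s2, C.o1, g8]
      · rcases d4 with ⟨g35, g36⟩ | ⟨g37, g38⟩
        · linarith only [g14, s2, C.b5, C.o1, C.f11_2, g35, g8]
        · rcases d10 with g39 | g40 | g41 | g42 | g43
          · linarith only [g39, e1]
          · linarith only [C.b5, s2, g40, C.f11_2, g2, C.f13_3, g37, g8, g14]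
          · linarith only [g41, s1, C.f11_0, g2, C.f22_0]
          · linarith only [g42, s1, C.f11_0, g2, C.f22_1]
          · rcases d11 with g44 | g45 | g46 | g47 | g48 | g49
            · linarith only [g44, e1]
            · linarith only [g45, s2, s3, g43, C.f11_2, g2, C.f13_3, g37, g8, C.f22_6, g14]
            · linarith only [g46, s2, s3, g43, C.f11_2, C.f13_4, g37, g8, C.f22_6, g14]
            · linarith only [C.a5, s2, s3, C.a1, g47, g43, C.f11_0, C.f11_1, C.f11_2, g2, C.f13_3, g37, g8, C.f22_6, g14]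
            · linarith only [g48, s1, C.f11_0, g2, C.f22_1]
            · linarith only [g49, s3, g43, g8, C.f22_6, g14]
  · linarith only [C.a2, C.a4, C.o2, C.f13_0, g3]

theorem c0_11_13_22_k2 {n1 n2 n3 A1 A2 A3 B1 B2 B3 m11_1 m11_2 m11_3 m13_1 m13_2 m13_3 m22_1 m22_2 m22_3 m23_1 m23_2 m23_3 m33_1 m33_2 m33_3 : ℤ}
    (C : Ctx0 n1 n2 n3 A1 A2 A3 B1 B2 B3 m11_1 m11_2 m11_3 m13_1 m13_2 m13_3 m22_1 m22_2 m22_3 m23_1 m23_2 m23_3 m33_1 m33_2 m33_3)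
    (e0 : 0 < B1)
    (e1 : 0 < A1)
    (e2 : 0 < B3)
    (e3 : 0 < B2)
    (s1 : 2 * A1 + 1 * B1 ≤ m11_1 + m13_1 + m22_1)
    (s2 : 2 * A2 + 1 * B2 ≤ m11_2 + m13_2 + m22_2)
    (s3 : 2 * A3 + 1 * B3 ≤ m11_3 + m13_3 + m22_3) : False := by
  have d2 : ((0 ≤ 1 - A1 + m13_1) ∧ (0 ≤ -1 + A1 - m13_1)) ∨ ((0 ≤ 1 - B3 + m13_1) ∧ (0 ≤ -1 + B3 - m13_1)) := by
    have h := C.f13_2
    clear C e0 e1 e2 e3 s1 s2 s3
    omega
  have d4 : ((0 ≤ 0 - m13_2 + m13_3 - n3) ∧ (0 ≤ 0 + m13_2 - m13_3 + n3)) ∨ ((0 ≤ 1 - B3 + m13_3) ∧ (0 ≤ -1 + B3 - m13_3)) := by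
    have h := C.f13_8
    clear C e0 e1 e2 e3 s1 s2 s3
    omega
  have d6 : ((0 ≤ 0 - m22_1 + m22_2 - n2) ∧ (0 ≤ 0 + m22_1 - m22_2 + n2)) ∨ ((0 ≤ 1 - B2 + m22_2) ∧ (0 ≤ -1 + B2 - m22_2)) := by
    have h := C.f22_5
    clear C e0 e1 e2 e3 s1 s2 s3
    omega
  have d7 : ((0 ≤ 0 - B1)) ∨ ((0 ≤ 0 - B2)) ∨ ((0 ≤ -1 + 2 * B1 - m11_1 - m22_1)) ∨ ((0 ≤ -1 + 2 * B2 - m11_2 - m22_2)) ∨ ((0 ≤ -1 + 2 * B3 - m11_3 - m22_3)) := by
    have h := C.p11_22B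
    clear C e0 e1 e2 e3 s1 s2 s3
    omega
  have d8 : ((0 ≤ 0 - A1)) ∨ ((0 ≤ 0 - B3)) ∨ ((0 ≤ 0 - B2)) ∨ ((0 ≤ -1 + 2 * A1 - m13_1 - m22_1)) ∨ ((0 ≤ -1 + 2 * A2 - m13_2 - m22_2)) ∨ ((0 ≤ -1 + 2 * A3 - m13_3 - m22_3)) := by
    have h := C.p13_22A
    clear C e0 e1 e2 e3 s1 s2 s3
    omega
  rcases d2 with ⟨g1, g2⟩ | ⟨g3, g4⟩
  · rcases d6 with ⟨g5, g6⟩ | ⟨g7, g8⟩
    · linarith only [C.a3, s1, C.o1, C.f11_0, g2, g5, C.f22_4]
    · rcases d8 with g9 | g10 | g11 | g12 | g13 | g14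
      · linarith only [g9, e1]
      · linarith only [g10, e2]
      · linarith only [g11, e3]
      · linarith only [g12, s1, C.f11_0]
      · rcases d7 with g15 | g16 | g17 | g18 | g19
        · linarith only [g15, e0]
        · linarith only [g16, e3]
        · linarith only [g17, s1, C.o0, g2]
        · linarith only [g13, s2, g7, g18]
        · linarith only [g19, s2, C.b5, C.f11_2, g7, C.f22_6, g13]
      · rcases d7 with g20 | g21 | g22 | g23 | g24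
        · linarith only [g20, e0]
        · linarith only [g21, e3]
        · linarith only [g22, s1, C.o0, g2]
        · rcases d4 with ⟨g25, g26⟩ | ⟨g27, g28⟩
          · linarith only [g25, s2, s3, C.o1, C.o2, C.f11_2, g7, C.f22_6, g23, g14]
          · linarith only [g27, s3, C.o2, C.f11_2, g7, C.f22_6, g23, g14]
        · linarith only [C.b5, s3, g7, C.f22_6, g24, g14]
  · linarith only [g3, s1, C.a4, C.o1, C.o2, C.f11_0, C.f13_0, C.f22_1]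

theorem c0_11_13_22_k3 {n1 n2 n3 A1 A2 A3 B1 B2 B3 m11_1 m11_2 m11_3 m13_1 m13_2 m13_3 m22_1 m22_2 m22_3 m23_1 m23_2 m23_3 m33_1 m33_2 m33_3 : ℤ}
    (C : Ctx0 n1 n2 n3 A1 A2 A3 B1 B2 B3 m11_1 m11_2 m11_3 m13_1 m13_2 m13_3 m22_1 m22_2 m22_3 m23_1 m23_2 m23_3 m33_1 m33_2 m33_3)
    (e0 : 0 < B1)
    (e1 : 0 < A1)
    (e2 : 0 < B3)
    (e3 : 0 < B2)
    (s1 : 3 * A1 + 0 * B1 ≤ m11_1 + m13_1 + m22_1)
    (s2 : 3 * A2 + 0 * B2 ≤ m11_2 + m13_2 + m22_2)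
    (s3 : 3 * A3 + 0 * B3 ≤ m11_3 + m13_3 + m22_3) : False := by
  have d2 : ((0 ≤ 1 - A1 + m13_1) ∧ (0 ≤ -1 + A1 - m13_1)) ∨ ((0 ≤ 1 - B3 + m13_1) ∧ (0 ≤ -1 + B3 - m13_1)) := by
    have h := C.f13_2
    clear C e0 e1 e2 e3 s1 s2 s3
    omega
  have d3 : ((0 ≤ 0 - m13_1 + m13_2 - n2) ∧ (0 ≤ 0 + m13_1 - m13_2 + n2)) ∨ ((0 ≤ 1 - B3 + m13_2) ∧ (0 ≤ -1 + B3 - m13_2)) := by
    have h := C.f13_5
    clear C e0 e1 e2 e3 s1 s2 s3
    omega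
  have d4 : ((0 ≤ 0 - m13_2 + m13_3 - n3) ∧ (0 ≤ 0 + m13_2 - m13_3 + n3)) ∨ ((0 ≤ 1 - B3 + m13_3) ∧ (0 ≤ -1 + B3 - m13_3)) := by
    have h := C.f13_8
    clear C e0 e1 e2 e3 s1 s2 s3
    omega
  have d6 : ((0 ≤ 0 - m22_1 + m22_2 - n2) ∧ (0 ≤ 0 + m22_1 - m22_2 + n2)) ∨ ((0 ≤ 1 - B2 + m22_2) ∧ (0 ≤ -1 + B2 - m22_2)) := by
    have h := C.f22_5
    clear C e0 e1 e2 e3 s1 s2 s3
    omega
  have d7 : ((0 ≤ 0 - B1)) ∨ ((0 ≤ 0 - B2)) ∨ ((0 ≤ -1 + 2 * B1 - m11_1 - m22_1)) ∨ ((0 ≤ -1 + 2 * B2 - m11_2 - m22_2)) ∨ ((0 ≤ -1 + 2 * B3 - m11_3 - m22_3)) := by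
    have h := C.p11_22B
    clear C e0 e1 e2 e3 s1 s2 s3
    omega
  have d8 : ((0 ≤ 0 - A1)) ∨ ((0 ≤ 0 - B3)) ∨ ((0 ≤ 0 - B2)) ∨ ((0 ≤ -1 + 2 * A1 - m13_1 - m22_1)) ∨ ((0 ≤ -1 + 2 * A2 - m13_2 - m22_2)) ∨ ((0 ≤ -1 + 2 * A3 - m13_3 - m22_3)) := by
    have h := C.p13_22A
    clear C e0 e1 e2 e3 s1 s2 s3
    omega
  rcases d2 with ⟨g1, g2⟩ | ⟨g3, g4⟩
  · rcases d6 with ⟨g5, g6⟩ | ⟨g7, g8⟩
    · linarith only [C.a3, s1, C.o0, C.o1, C.f11_0, g2, g5, C.f22_4]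
    · rcases d8 with g9 | g10 | g11 | g12 | g13 | g14
      · linarith only [g9, e1]
      · linarith only [g10, e2]
      · linarith only [g11, e3]
      · linarith only [g12, s1, C.o0, C.f11_0]
      · rcases d7 with g15 | g16 | g17 | g18 | g19
        · linarith only [g15, e0]
        · linarith only [g16, e3]
        · linarith only [g17, s1, C.o0, g2]
        · linarith only [g13, s2, C.o1, g7, g18]
        · linarith only [g19, s2, C.b5, C.o1, C.f11_2, g7, C.f22_6, g13]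
      · rcases d4 with ⟨g20, g21⟩ | ⟨g22, g23⟩
        · rcases d3 with ⟨g24, g25⟩ | ⟨g26, g27⟩
          · linarith only [C.b5, s3, C.o0, C.o2, C.f11_0, C.f11_1, C.f11_2, g1, g24, g20, g7, C.f22_6, g14]
          · linarith only [g26, C.a4, C.b5, C.o1, C.o2, g20, g7, C.f22_6, g14]
        · linarith only [g22, C.b5, C.o2, g7, C.f22_6, g14]
  · linarith only [g3, s1, C.a4, C.o0, C.o1, C.o2, C.f11_0, C.f13_0, C.f22_1]

theorem c0_11_13_23_k1 {n1 n2 n3 A1 A2 A3 B1 B2 B3 m11_1 m11_2 m11_3 m13_1 m13_2 m13_3 m22_1 m22_2 m22_3 m23_1 m23_2 m23_3 m33_1 m33_2 m33_3 : ℤ}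
    (C : Ctx0 n1 n2 n3 A1 A2 A3 B1 B2 B3 m11_1 m11_2 m11_3 m13_1 m13_2 m13_3 m22_1 m22_2 m22_3 m23_1 m23_2 m23_3 m33_1 m33_2 m33_3)
    (e0 : 0 < B1)
    (e1 : 0 < A1)
    (e2 : 0 < B3)
    (e3 : 0 < A2)
    (s1 : 1 * A1 + 2 * B1 ≤ m11_1 + m13_1 + m23_1)
    (s2 : 1 * A2 + 2 * B2 ≤ m11_2 + m13_2 + m23_2)
    (s3 : 1 * A3 + 2 * B3 ≤ m11_3 + m13_3 + m23_3) : False := by
  have d0 : ((0 ≤ -1 + A1) ∧ (0 ≤ -1 + A1 - A2 + n2)) ∨ ((0 ≤ -1 + B1) ∧ (0 ≤ -1 + B1 - B2 + n2)) := by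
    have h := C.t12
    clear C e0 e1 e2 e3 s1 s2 s3
    omega
  have d1 : ((0 ≤ -1 - A1 + A2) ∧ (0 ≤ -1 + A2 - A3 + n3)) ∨ ((0 ≤ -1 - B1 + B2) ∧ (0 ≤ -1 + B2 - B3 + n3)) := by
    have h := C.t23
    clear C e0 e1 e2 e3 s1 s2 s3
    omega
  have d2 : ((0 ≤ 1 - A1 + m13_1) ∧ (0 ≤ -1 + A1 - m13_1)) ∨ ((0 ≤ 1 - B3 + m13_1) ∧ (0 ≤ -1 + B3 - m13_1)) := by
    have h := C.f13_2
    clear C e0 e1 e2 e3 s1 s2 s3
    omega
  have d4 : ((0 ≤ 0 - m13_2 + m13_3 - n3) ∧ (0 ≤ 0 + m13_2 - m13_3 + n3)) ∨ ((0 ≤ 1 - B3 + m13_3) ∧ (0 ≤ -1 + B3 - m13_3)) := by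
    have h := C.f13_8
    clear C e0 e1 e2 e3 s1 s2 s3
    omega
  have d5 : ((0 ≤ 0 + m23_1 - n1) ∧ (0 ≤ 0 - m23_1 + n1)) ∨ ((0 ≤ 1 - A2 + m23_1) ∧ (0 ≤ -1 + A2 - m23_1)) ∨ ((0 ≤ 1 - B3 + m23_1) ∧ (0 ≤ -1 + B3 - m23_1)) := by
    have h := C.f23_3
    clear C e0 e1 e2 e3 s1 s2 s3
    omega
  have d6 : ((0 ≤ 0 - m23_1 + m23_2 - n2) ∧ (0 ≤ 0 + m23_1 - m23_2 + n2)) ∨ ((0 ≤ 1 - A2 + m23_2) ∧ (0 ≤ -1 + A2 - m23_2)) ∨ ((0 ≤ 1 - B3 + m23_2) ∧ (0 ≤ -1 + B3 - m23_2)) := by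
    have h := C.f23_7
    clear C e0 e1 e2 e3 s1 s2 s3
    omega
  have d8 : ((0 ≤ 0 - B1)) ∨ ((0 ≤ 0 - A1)) ∨ ((0 ≤ 0 - B3)) ∨ ((0 ≤ -1 + 2 * B1 - m11_1 - m13_1)) ∨ ((0 ≤ -1 + 2 * B2 - m11_2 - m13_2)) ∨ ((0 ≤ -1 + 2 * B3 - m11_3 - m13_3)) := by
    have h := C.p11_13B
    clear C e0 e1 e2 e3 s1 s2 s3
    omega
  have d9 : ((0 ≤ 0 - B1)) ∨ ((0 ≤ 0 - A2)) ∨ ((0 ≤ 0 - B3)) ∨ ((0 ≤ -1 + 2 * B1 - m11_1 - m23_1)) ∨ ((0 ≤ -1 + 2 * B2 - m11_2 - m23_2)) ∨ ((0 ≤ -1 + 2 * B3 - m11_3 - m23_3)) := by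
    have h := C.p11_23B
    clear C e0 e1 e2 e3 s1 s2 s3
    omega
  have d10 : ((0 ≤ 0 + A1 - A2)) ∨ ((0 ≤ 1 - A2 + A3 - n3)) ∨ ((0 ≤ 0 - B1 + B2 - n2)) ∨ ((0 ≤ 1 + B2 - B3)) ∨ ((0 ≤ -1 + A2 - B2) ∧ (0 ≤ 1 + A3 - B3)) := by
    have h := C.tzpm
    clear C e0 e1 e2 e3 s1 s2 s3
    omega
  have d11 : ((0 ≤ 0 - A1)) ∨ ((0 ≤ 0 - A1 + A2 - n2)) ∨ ((0 ≤ 0 - A2 + A3 - n3)) ∨ ((0 ≤ 0 + B1 - n1)) ∨ ((0 ≤ 0 + B1 - B2)) ∨ ((0 ≤ 0 + B2 - B3)) ∨ ((0 ≤ 1 + A3 - B3)) ∨ ((0 ≤ 1 - A1 + B1) ∧ (0 ≤ 0 - A2 + B2)) := by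
    have h := C.tpzm
    clear C e0 e1 e2 e3 s1 s2 s3
    omega
  rcases d2 with ⟨g1, g2⟩ | ⟨g3, g4⟩
  · rcases d8 with g5 | g6 | g7 | g8 | g9 | g10
    · linarith only [g5, e0]
    · linarith only [g6, e1]
    · linarith only [g7, e2]
    · rcases d6 with ⟨g11, g12⟩ | ⟨g13, g14⟩ | ⟨g15, g16⟩
      · linarith only [g8, s1, C.a3, g11, C.f23_5]
      · rcases d9 with g17 | g18 | g19 | g20 | g21 | g22
        · linarith only [g17, e0]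
        · linarith only [g18, e3]
        · linarith only [g19, e2]
        · linarith only [g20, s1, g2]
        · rcases d10 with g23 | g24 | g25 | g26 | ⟨g27, g28⟩
          · linarith only [g23, s1, C.f23_1, g8]
          · linarith only [g24, s3, C.o1, C.f11_2, C.f13_7, g13, C.f23_9, g21]
          · linarith only [s2, g25, C.f11_1, C.f13_3, g14, g8]
          · linarith only [C.o1, s2, g26, C.f13_4, g21]
          · linarith only [C.f13_3, s2, g27, C.f11_0, C.f11_1, g13, g8, g21]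
        · rcases d10 with g29 | g30 | g31 | g32 | ⟨g33, g34⟩
          · linarith only [g29, s1, C.f23_1, g8]
          · linarith only [g30, s3, C.b5, C.o1, C.f13_7, g22]
          · linarith only [C.f13_3, s2, g31, C.f11_1, g14, g8]
          · linarith only [g32, s3, C.a4, C.o1, C.f13_7, g22]
          · linarith only [g34, s3, C.f13_7, g22]
      · linarith only [C.o2, C.a4, C.f23_5, g15]
    · linarith only [g9, s2, C.f23_5]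
    · rcases d4 with ⟨g35, g36⟩ | ⟨g37, g38⟩
      · linarith only [C.f23_5, s2, C.b5, C.f11_2, g35, g10]
      · rcases d10 with g39 | g40 | g41 | g42 | ⟨g43, g44⟩
        · rcases d5 with ⟨g45, g46⟩ | ⟨g47, g48⟩ | ⟨g49, g50⟩
          · linarith only [g45, C.a1, g39, C.f23_1]
          · rcases d1 with ⟨g51, g52⟩ | ⟨g53, g54⟩
            · linarith only [g51, g39]
            · rcases d11 with g55 | g56 | g57 | g58 | g59 | g60 | g61 | ⟨g62, g63⟩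
              · linarith only [g55, e1]
              · linarith only [g53, g39, g56, C.b3]
              · linarith only [g54, s3, g57, C.o1, C.f23_9, g10]
              · linarith only [g58, s1, C.a1, g39, C.f11_0, g2, g48]
              · linarith only [g59, g53]
              · linarith only [g60, s3, C.a4, C.o1, C.f23_9, g10]
              · linarith only [g61, s3, C.f23_9, g10]
              · linarith only [g62, s1, g39, C.f11_0, g2, g48]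
          · linarith only [s3, C.a4, C.f23_1, g49, C.f23_9, g10]
        · linarith only [s3, g40, C.f23_5, C.f23_8, g10]
        · rcases d0 with ⟨g64, g65⟩ | ⟨g66, g67⟩
          · rcases d11 with g68 | g69 | g70 | g71 | g72 | g73 | g74 | ⟨g75, g76⟩
            · linarith only [g68, g64]
            · linarith only [g69, g65]
            · linarith only [s3, g70, g41, C.o1, C.f11_0, C.f11_1, C.f11_2, g38, C.f23_9]
            · linarith only [g65, C.a1, g71, g41, C.o1]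
            · linarith only [g65, C.a2, g72, g41]
            · linarith only [g73, s3, C.a4, C.o1, C.f23_9, g10]
            · linarith only [g74, s3, C.f23_9, g10]
            · linarith only [g75, s2, g41, C.f11_0, C.f11_1, g2, C.f13_3, C.f23_5]
          · linarith only [g67, g41]
        · linarith only [C.a4, s3, g42, C.o1, C.f23_9, g10]
        · linarith only [g44, s3, C.f23_9, g10]
  · linarith only [C.a2, C.a4, C.o2, C.f13_0, g3]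

theorem c0_11_13_23_k2 {n1 n2 n3 A1 A2 A3 B1 B2 B3 m11_1 m11_2 m11_3 m13_1 m13_2 m13_3 m22_1 m22_2 m22_3 m23_1 m23_2 m23_3 m33_1 m33_2 m33_3 : ℤ}
    (C : Ctx0 n1 n2 n3 A1 A2 A3 B1 B2 B3 m11_1 m11_2 m11_3 m13_1 m13_2 m13_3 m22_1 m22_2 m22_3 m23_1 m23_2 m23_3 m33_1 m33_2 m33_3)
    (e0 : 0 < B1)
    (e1 : 0 < A1)
    (e2 : 0 < B3)
    (e3 : 0 < A2)
    (s1 : 2 * A1 + 1 * B1 ≤ m11_1 + m13_1 + m23_1)
    (s2 : 2 * A2 + 1 * B2 ≤ m11_2 + m13_2 + m23_2)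
    (s3 : 2 * A3 + 1 * B3 ≤ m11_3 + m13_3 + m23_3) : False := by
  have d2 : ((0 ≤ 1 - A1 + m13_1) ∧ (0 ≤ -1 + A1 - m13_1)) ∨ ((0 ≤ 1 - B3 + m13_1) ∧ (0 ≤ -1 + B3 - m13_1)) := by
    have h := C.f13_2
    clear C e0 e1 e2 e3 s1 s2 s3
    omega
  have d4 : ((0 ≤ 0 - m13_2 + m13_3 - n3) ∧ (0 ≤ 0 + m13_2 - m13_3 + n3)) ∨ ((0 ≤ 1 - B3 + m13_3) ∧ (0 ≤ -1 + B3 - m13_3)) := by
    have h := C.f13_8
    clear C e0 e1 e2 e3 s1 s2 s3
    omega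
  have d6 : ((0 ≤ 0 - m23_1 + m23_2 - n2) ∧ (0 ≤ 0 + m23_1 - m23_2 + n2)) ∨ ((0 ≤ 1 - A2 + m23_2) ∧ (0 ≤ -1 + A2 - m23_2)) ∨ ((0 ≤ 1 - B3 + m23_2) ∧ (0 ≤ -1 + B3 - m23_2)) := by
    have h := C.f23_7
    clear C e0 e1 e2 e3 s1 s2 s3
    omega
  have d7 : ((0 ≤ 0 - m23_2 + m23_3 - n3) ∧ (0 ≤ 0 + m23_2 - m23_3 + n3)) ∨ ((0 ≤ 1 - B3 + m23_3) ∧ (0 ≤ -1 + B3 - m23_3)) := by
    have h := C.f23_10
    clear C e0 e1 e2 e3 s1 s2 s3
    omega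
  have d8 : ((0 ≤ 0 - B1)) ∨ ((0 ≤ 0 - A2)) ∨ ((0 ≤ 0 - B3)) ∨ ((0 ≤ -1 + 2 * B1 - m11_1 - m23_1)) ∨ ((0 ≤ -1 + 2 * B2 - m11_2 - m23_2)) ∨ ((0 ≤ -1 + 2 * B3 - m11_3 - m23_3)) := by
    have h := C.p11_23B
    clear C e0 e1 e2 e3 s1 s2 s3
    omega
  have d9 : ((0 ≤ 0 - A1)) ∨ ((0 ≤ 0 - B3)) ∨ ((0 ≤ 0 - A2)) ∨ ((0 ≤ -1 + 2 * A1 - m13_1 - m23_1)) ∨ ((0 ≤ -1 + 2 * A2 - m13_2 - m23_2)) ∨ ((0 ≤ -1 + 2 * A3 - m13_3 - m23_3)) := by
    have h := C.p13_23A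
    clear C e0 e1 e2 e3 s1 s2 s3
    omega
  rcases d6 with ⟨g1, g2⟩ | ⟨g3, g4⟩ | ⟨g5, g6⟩
  · linarith only [C.a3, s1, C.f11_0, C.f13_0, g1, C.f23_5]
  · rcases d2 with ⟨g7, g8⟩ | ⟨g9, g10⟩
    · rcases d8 with g11 | g12 | g13 | g14 | g15 | g16
      · linarith only [g11, e0]
      · linarith only [g12, e3]
      · linarith only [g13, e2]
      · linarith only [g14, s1, C.o0, g8]
      · rcases d9 with g17 | g18 | g19 | g20 | g21 | g22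
        · linarith only [g17, e1]
        · linarith only [g18, e2]
        · linarith only [g19, e3]
        · linarith only [g20, s1, C.f11_0]
        · linarith only [g21, s2, C.o1, g3, g15]
        · rcases d4 with ⟨g23, g24⟩ | ⟨g25, g26⟩
          · linarith only [g23, s2, s3, C.o1, C.f11_2, C.f13_7, g3, g15, g22]
          · rcases d7 with ⟨g27, g28⟩ | ⟨g29, g30⟩
            · linarith only [g27, s3, C.o1, C.o2, C.f11_2, g25, g3, g15, g22]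
            · linarith only [g29, C.o2, g25, g22]
      · rcases d9 with g31 | g32 | g33 | g34 | g35 | g36
        · linarith only [g31, e1]
        · linarith only [g32, e2]
        · linarith only [g33, e3]
        · linarith only [g34, s1, C.f11_0]
        · rcases d7 with ⟨g37, g38⟩ | ⟨g39, g40⟩
          · linarith only [g35, s2, C.b5, C.o1, C.f11_2, g3, g37, g16]
          · linarith only [g39, s2, C.b5, C.f11_2, g16, g35]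
        · rcases d7 with ⟨g41, g42⟩ | ⟨g43, g44⟩
          · linarith only [s3, C.b5, C.o1, g3, g41, g16, g36]
          · linarith only [g43, s3, g16, g36]
    · linarith only [C.a4, s1, C.o2, C.f11_0, C.f13_0, g9, C.f23_1]
  · linarith only [C.a4, C.o2, C.f23_5, g5]

theorem c0_11_13_33_k0 {n1 n2 n3 A1 A2 A3 B1 B2 B3 m11_1 m11_2 m11_3 m13_1 m13_2 m13_3 m22_1 m22_2 m22_3 m23_1 m23_2 m23_3 m33_1 m33_2 m33_3 : ℤ}
    (C : Ctx0 n1 n2 n3 A1 A2 A3 B1 B2 B3 m11_1 m11_2 m11_3 m13_1 m13_2 m13_3 m22_1 m22_2 m22_3 m23_1 m23_2 m23_3 m33_1 m33_2 m33_3)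
    (e0 : 0 < B1)
    (e1 : 0 < A1)
    (e2 : 0 < B3)
    (e3 : 0 < A3)
    (s1 : 0 * A1 + 3 * B1 ≤ m11_1 + m13_1 + m33_1)
    (s2 : 0 * A2 + 3 * B2 ≤ m11_2 + m13_2 + m33_2)
    (s3 : 0 * A3 + 3 * B3 ≤ m11_3 + m13_3 + m33_3) : False := by
  have d2 : ((0 ≤ 1 - A1 + m13_1) ∧ (0 ≤ -1 + A1 - m13_1)) ∨ ((0 ≤ 1 - B3 + m13_1) ∧ (0 ≤ -1 + B3 - m13_1)) := by
    have h := C.f13_2
    clear C e0 e1 e2 e3 s1 s2 s3
    omega
  have d3 : ((0 ≤ 0 - m13_1 + m13_2 - n2) ∧ (0 ≤ 0 + m13_1 - m13_2 + n2)) ∨ ((0 ≤ 1 - B3 + m13_2) ∧ (0 ≤ -1 + B3 - m13_2)) := by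
    have h := C.f13_5
    clear C e0 e1 e2 e3 s1 s2 s3
    omega
  have d4 : ((0 ≤ 0 - m13_2 + m13_3 - n3) ∧ (0 ≤ 0 + m13_2 - m13_3 + n3)) ∨ ((0 ≤ 1 - B3 + m13_3) ∧ (0 ≤ -1 + B3 - m13_3)) := by
    have h := C.f13_8
    clear C e0 e1 e2 e3 s1 s2 s3
    omega
  have d6 : ((0 ≤ 0 - m33_1 + m33_2 - n2) ∧ (0 ≤ 0 + m33_1 - m33_2 + n2)) ∨ ((0 ≤ 1 - A3 + m33_2) ∧ (0 ≤ -1 + A3 - m33_2)) := by
    have h := C.f33_5
    clear C e0 e1 e2 e3 s1 s2 s3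
    omega
  have d8 : ((0 ≤ 0 - B1)) ∨ ((0 ≤ 0 - A1)) ∨ ((0 ≤ 0 - B3)) ∨ ((0 ≤ -1 + 2 * B1 - m11_1 - m13_1)) ∨ ((0 ≤ -1 + 2 * B2 - m11_2 - m13_2)) ∨ ((0 ≤ -1 + 2 * B3 - m11_3 - m13_3)) := by
    have h := C.p11_13B
    clear C e0 e1 e2 e3 s1 s2 s3
    omega
  have d9 : ((0 ≤ 0 - B1)) ∨ ((0 ≤ 0 - A3)) ∨ ((0 ≤ -1 + 2 * B1 - m11_1 - m33_1)) ∨ ((0 ≤ -1 + 2 * B2 - m11_2 - m33_2)) ∨ ((0 ≤ -1 + 2 * B3 - m11_3 - m33_3)) := by
    have h := C.p11_33B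
    clear C e0 e1 e2 e3 s1 s2 s3
    omega
  have d10 : ((0 ≤ 0 + A1 - A2)) ∨ ((0 ≤ 1 - A2 + A3 - n3)) ∨ ((0 ≤ 0 - B1 + B2 - n2)) ∨ ((0 ≤ 1 + B2 - B3)) ∨ ((0 ≤ -1 + A2 - B2) ∧ (0 ≤ 1 + A3 - B3)) := by
    have h := C.tzpm
    clear C e0 e1 e2 e3 s1 s2 s3
    omega
  rcases d2 with ⟨g1, g2⟩ | ⟨g3, g4⟩
  · rcases d8 with g5 | g6 | g7 | g8 | g9 | g10
    · linarith only [g5, e0]
    · linarith only [g6, e1]
    · linarith only [g7, e2]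
    · rcases d9 with g11 | g12 | g13 | g14 | g15
      · linarith only [g11, e0]
      · linarith only [g12, e3]
      · linarith only [g13, s1, C.f11_0, g8]
      · rcases d4 with ⟨g16, g17⟩ | ⟨g18, g19⟩
        · linarith only [C.b5, s2, g16, C.f13_7, g14]
        · rcases d6 with ⟨g20, g21⟩ | ⟨g22, g23⟩
          · linarith only [s2, s1, C.f11_0, C.f11_1, C.f13_3, g20, g8, g14]
          · rcases d10 with g24 | g25 | g26 | g27 | ⟨g28, g29⟩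
            · linarith only [C.o1, s1, s2, g24, C.f11_0, C.f11_1, g1, C.f13_3, C.f33_1, g22, g8, g14]
            · linarith only [C.o1, s2, s3, g25, C.f11_0, C.f11_1, C.f11_2, C.f13_3, C.f13_4, g19, g22, C.f33_7, g8, g14]
            · linarith only [g26, s2, C.f11_0, C.f13_3, g8, g14]
            · linarith only [g27, s2, C.f13_4, g14]
            · linarith only [C.a4, s2, g28, C.f11_0, C.f11_1, C.f13_3, g22, g8, g14]
      · linarith only [g15, s3, C.f13_7]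
    · rcases d9 with g30 | g31 | g32 | g33 | g34
      · linarith only [g30, e0]
      · linarith only [g31, e3]
      · rcases d3 with ⟨g35, g36⟩ | ⟨g37, g38⟩
        · linarith only [g35, s1, s2, C.f11_0, C.f11_1, C.f33_3, g9, g32]
        · linarith only [g37, s2, C.o2, C.f11_0, C.f11_1, C.f33_3, C.f33_4, g9, g32]
      · linarith only [C.b3, s2, C.f11_0, C.f11_1, g9, g33]
      · linarith only [g34, s3, C.f13_7]
    · linarith only [g10, s3, C.o2, C.f33_7]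
  · linarith only [C.a2, C.a4, C.o2, C.f13_0, g3]

theorem c0_11_13_33_k1 {n1 n2 n3 A1 A2 A3 B1 B2 B3 m11_1 m11_2 m11_3 m13_1 m13_2 m13_3 m22_1 m22_2 m22_3 m23_1 m23_2 m23_3 m33_1 m33_2 m33_3 : ℤ}
    (C : Ctx0 n1 n2 n3 A1 A2 A3 B1 B2 B3 m11_1 m11_2 m11_3 m13_1 m13_2 m13_3 m22_1 m22_2 m22_3 m23_1 m23_2 m23_3 m33_1 m33_2 m33_3)
    (e0 : 0 < B1)
    (e1 : 0 < A1)
    (e2 : 0 < B3)
    (e3 : 0 < A3)
    (s1 : 1 * A1 + 2 * B1 ≤ m11_1 + m13_1 + m33_1)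
    (s2 : 1 * A2 + 2 * B2 ≤ m11_2 + m13_2 + m33_2)
    (s3 : 1 * A3 + 2 * B3 ≤ m11_3 + m13_3 + m33_3) : False := by
  have d0 : ((0 ≤ -1 + A1) ∧ (0 ≤ -1 + A1 - A2 + n2)) ∨ ((0 ≤ -1 + B1) ∧ (0 ≤ -1 + B1 - B2 + n2)) := by
    have h := C.t12
    clear C e0 e1 e2 e3 s1 s2 s3
    omega
  have d1 : ((0 ≤ -1 - A1 + A2) ∧ (0 ≤ -1 + A2 - A3 + n3)) ∨ ((0 ≤ -1 - B1 + B2) ∧ (0 ≤ -1 + B2 - B3 + n3)) := by
    have h := C.t23
    clear C e0 e1 e2 e3 s1 s2 s3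
    omega
  have d2 : ((0 ≤ 1 - A1 + m13_1) ∧ (0 ≤ -1 + A1 - m13_1)) ∨ ((0 ≤ 1 - B3 + m13_1) ∧ (0 ≤ -1 + B3 - m13_1)) := by
    have h := C.f13_2
    clear C e0 e1 e2 e3 s1 s2 s3
    omega
  have d3 : ((0 ≤ 0 - m13_1 + m13_2 - n2) ∧ (0 ≤ 0 + m13_1 - m13_2 + n2)) ∨ ((0 ≤ 1 - B3 + m13_2) ∧ (0 ≤ -1 + B3 - m13_2)) := by
    have h := C.f13_5
    clear C e0 e1 e2 e3 s1 s2 s3
    omega
  have d4 : ((0 ≤ 0 - m13_2 + m13_3 - n3) ∧ (0 ≤ 0 + m13_2 - m13_3 + n3)) ∨ ((0 ≤ 1 - B3 + m13_3) ∧ (0 ≤ -1 + B3 - m13_3)) := by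
    have h := C.f13_8
    clear C e0 e1 e2 e3 s1 s2 s3
    omega
  have d6 : ((0 ≤ 0 - m33_1 + m33_2 - n2) ∧ (0 ≤ 0 + m33_1 - m33_2 + n2)) ∨ ((0 ≤ 1 - A3 + m33_2) ∧ (0 ≤ -1 + A3 - m33_2)) := by
    have h := C.f33_5
    clear C e0 e1 e2 e3 s1 s2 s3
    omega
  have d7 : ((0 ≤ 0 - m33_2 + m33_3 - n3) ∧ (0 ≤ 0 + m33_2 - m33_3 + n3)) ∨ ((0 ≤ 1 - A3 + m33_3) ∧ (0 ≤ -1 + A3 - m33_3)) := by
    have h := C.f33_8
    clear C e0 e1 e2 e3 s1 s2 s3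
    omega
  have d8 : ((0 ≤ 0 - B1)) ∨ ((0 ≤ 0 - A1)) ∨ ((0 ≤ 0 - B3)) ∨ ((0 ≤ -1 + 2 * B1 - m11_1 - m13_1)) ∨ ((0 ≤ -1 + 2 * B2 - m11_2 - m13_2)) ∨ ((0 ≤ -1 + 2 * B3 - m11_3 - m13_3)) := by
    have h := C.p11_13B
    clear C e0 e1 e2 e3 s1 s2 s3
    omega
  have d9 : ((0 ≤ 0 - B1)) ∨ ((0 ≤ 0 - A3)) ∨ ((0 ≤ -1 + 2 * B1 - m11_1 - m33_1)) ∨ ((0 ≤ -1 + 2 * B2 - m11_2 - m33_2)) ∨ ((0 ≤ -1 + 2 * B3 - m11_3 - m33_3)) := by
    have h := C.p11_33B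
    clear C e0 e1 e2 e3 s1 s2 s3
    omega
  have d10 : ((0 ≤ 0 - A1)) ∨ ((0 ≤ 0 - B3)) ∨ ((0 ≤ 0 - A3)) ∨ ((0 ≤ -1 + 2 * A1 - m13_1 - m33_1)) ∨ ((0 ≤ -1 + 2 * A2 - m13_2 - m33_2)) ∨ ((0 ≤ -1 + 2 * A3 - m13_3 - m33_3)) := by
    have h := C.p13_33A
    clear C e0 e1 e2 e3 s1 s2 s3
    omega
  have d11 : ((0 ≤ 0 + A1 - A2)) ∨ ((0 ≤ 1 - A2 + A3 - n3)) ∨ ((0 ≤ 0 - B1 + B2 - n2)) ∨ ((0 ≤ 1 + B2 - B3)) ∨ ((0 ≤ -1 + A2 - B2) ∧ (0 ≤ 1 + A3 - B3)) := by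
    have h := C.tzpm
    clear C e0 e1 e2 e3 s1 s2 s3
    omega
  rcases d2 with ⟨g1, g2⟩ | ⟨g3, g4⟩
  · rcases d8 with g5 | g6 | g7 | g8 | g9 | g10
    · linarith only [g5, e0]
    · linarith only [g6, e1]
    · linarith only [g7, e2]
    · rcases d10 with g11 | g12 | g13 | g14 | g15 | g16
      · linarith only [g11, e1]
      · linarith only [g12, e2]
      · linarith only [g13, e3]
      · linarith only [g14, s1, g1, g8]
      · rcases d9 with g17 | g18 | g19 | g20 | g21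
        · linarith only [g17, e0]
        · linarith only [g18, e3]
        · linarith only [g19, s1, g2]
        · rcases d6 with ⟨g22, g23⟩ | ⟨g24, g25⟩
          · linarith only [C.a3, s1, s2, g22, g8, g20, g15]
          · linarith only [C.a4, s2, g24, g20, g15]
        · rcases d11 with g26 | g27 | g28 | g29 | ⟨g30, g31⟩
          · rcases d1 with ⟨g32, g33⟩ | ⟨g34, g35⟩
            · linarith only [g32, g26]
            · rcases d0 with ⟨g36, g37⟩ | ⟨g38, g39⟩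
              · rcases d3 with ⟨g40, g41⟩ | ⟨g42, g43⟩
                · rcases d6 with ⟨g44, g45⟩ | ⟨g46, g47⟩
                  · linarith only [g8, s1, g37, g1, g40, g44, g15]
                  · linarith only [C.a4, s2, g26, g34, C.f11_1, g1, g40, g46, g8, g15]
                · rcases d6 with ⟨g48, g49⟩ | ⟨g50, g51⟩
                  · linarith only [g48, s1, s3, g26, g2, C.f13_3, g42, C.f13_7, C.f33_1, g8, g21, g15]
                  · linarith only [g50, s1, s3, g26, g42, C.f13_7, C.f33_1, g8, g21, g15]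
              · rcases d3 with ⟨g52, g53⟩ | ⟨g54, g55⟩
                · rcases d6 with ⟨g56, g57⟩ | ⟨g58, g59⟩
                  · linarith only [g8, s1, g26, g34, g39, g1, g52, g56, g15]
                  · linarith only [g58, g26, C.a4, g34, g39, g1, g52, g15]
                · rcases d6 with ⟨g60, g61⟩ | ⟨g62, g63⟩
                  · linarith only [g60, s1, s3, g26, g2, C.f13_3, g54, C.f13_7, C.f33_1, g8, g21, g15]
                  · linarith only [g62, s1, s3, g26, g54, C.f13_7, C.f33_1, g8, g21, g15]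
          · linarith only [C.b5, s3, g27, C.o1, C.f13_7, g21]
          · linarith only [C.a3, s2, g28, C.f11_1, g1, g8, g15]
          · linarith only [C.o1, s3, C.a4, g29, C.f13_7, g21]
          · linarith only [g31, s3, C.f13_7, g21]
      · rcases d9 with g64 | g65 | g66 | g67 | g68
        · linarith only [g64, e0]
        · linarith only [g65, e3]
        · linarith only [g66, s1, g2]
        · rcases d4 with ⟨g69, g70⟩ | ⟨g71, g72⟩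
          · linarith only [s2, C.b5, C.o1, g69, C.f13_7, g67]
          · rcases d6 with ⟨g73, g74⟩ | ⟨g75, g76⟩
            · linarith only [C.b3, s1, C.f11_1, g2, g73, g67]
            · rcases d7 with ⟨g77, g78⟩ | ⟨g79, g80⟩
              · linarith only [g77, s2, s3, C.o1, C.f11_0, C.f11_1, C.f11_2, C.f13_3, C.f13_4, g71, g75, g8, g67, g16]
              · linarith only [g79, s2, C.o1, C.f11_0, C.f11_1, C.f13_3, C.f13_4, g71, g75, g8, g67, g16]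
        · rcases d7 with ⟨g81, g82⟩ | ⟨g83, g84⟩
          · rcases d6 with ⟨g85, g86⟩ | ⟨g87, g88⟩
            · linarith only [g85, s1, s3, C.f11_0, C.f11_1, C.f11_2, g2, C.f13_7, g81, g68, g16]
            · linarith only [g87, s2, s3, C.b5, C.o1, C.f11_2, C.f13_4, g81, g68, g16]
          · linarith only [g83, s3, g68, g16]
    · rcases d9 with g89 | g90 | g91 | g92 | g93
      · linarith only [g89, e0]
      · linarith only [g90, e3]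
      · linarith only [g91, s1, g2]
      · linarith only [C.b3, s2, C.o1, C.f11_0, C.f11_1, g9, g92]
      · rcases d3 with ⟨g94, g95⟩ | ⟨g96, g97⟩
        · rcases d10 with g98 | g99 | g100 | g101 | g102 | g103
          · linarith only [g98, e1]
          · linarith only [g99, e2]
          · linarith only [g100, e3]
          · linarith only [C.b3, s1, C.f11_1, g1, g94, g9, g101]
          · linarith only [C.a3, s2, g1, g94, g9, g102]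
          · rcases d7 with ⟨g104, g105⟩ | ⟨g106, g107⟩
            · linarith only [s2, s3, C.a5, g104, g9, g93, g103]
            · linarith only [g106, s3, g93, g103]
        · linarith only [C.o1, s2, s3, C.b3, C.f11_0, C.f11_1, g96, C.f13_7, C.f33_4, g9, g93]
    · linarith only [g10, s3, C.f33_7]
  · linarith only [C.a2, C.a4, C.o2, C.f13_0, g3]

theorem c0_11_13_33_k3 {n1 n2 n3 A1 A2 A3 B1 B2 B3 m11_1 m11_2 m11_3 m13_1 m13_2 m13_3 m22_1 m22_2 m22_3 m23_1 m23_2 m23_3 m33_1 m33_2 m33_3 : ℤ}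
    (C : Ctx0 n1 n2 n3 A1 A2 A3 B1 B2 B3 m11_1 m11_2 m11_3 m13_1 m13_2 m13_3 m22_1 m22_2 m22_3 m23_1 m23_2 m23_3 m33_1 m33_2 m33_3)
    (e0 : 0 < B1)
    (e1 : 0 < A1)
    (e2 : 0 < B3)
    (e3 : 0 < A3)
    (s1 : 3 * A1 + 0 * B1 ≤ m11_1 + m13_1 + m33_1)
    (s2 : 3 * A2 + 0 * B2 ≤ m11_2 + m13_2 + m33_2)
    (s3 : 3 * A3 + 0 * B3 ≤ m11_3 + m13_3 + m33_3) : False := by
  have d2 : ((0 ≤ 1 - A1 + m13_1) ∧ (0 ≤ -1 + A1 - m13_1)) ∨ ((0 ≤ 1 - B3 + m13_1) ∧ (0 ≤ -1 + B3 - m13_1)) := by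
    have h := C.f13_2
    clear C e0 e1 e2 e3 s1 s2 s3
    omega
  have d4 : ((0 ≤ 0 - m13_2 + m13_3 - n3) ∧ (0 ≤ 0 + m13_2 - m13_3 + n3)) ∨ ((0 ≤ 1 - B3 + m13_3) ∧ (0 ≤ -1 + B3 - m13_3)) := by
    have h := C.f13_8
    clear C e0 e1 e2 e3 s1 s2 s3
    omega
  have d5 : ((0 ≤ 0 + m23_1 - n1) ∧ (0 ≤ 0 - m23_1 + n1)) ∨ ((0 ≤ 1 - A2 + m23_1) ∧ (0 ≤ -1 + A2 - m23_1)) ∨ ((0 ≤ 1 - B3 + m23_1) ∧ (0 ≤ -1 + B3 - m23_1)) := by
    have h := C.f23_3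
    clear C e0 e1 e2 e3 s1 s2 s3
    omega
  have d6 : ((0 ≤ 0 - m23_1 + m23_2 - n2) ∧ (0 ≤ 0 + m23_1 - m23_2 + n2)) ∨ ((0 ≤ 1 - A2 + m23_2) ∧ (0 ≤ -1 + A2 - m23_2)) ∨ ((0 ≤ 1 - B3 + m23_2) ∧ (0 ≤ -1 + B3 - m23_2)) := by
    have h := C.f23_7
    clear C e0 e1 e2 e3 s1 s2 s3
    omega
  have d7 : ((0 ≤ 0 - m23_2 + m23_3 - n3) ∧ (0 ≤ 0 + m23_2 - m23_3 + n3)) ∨ ((0 ≤ 1 - B3 + m23_3) ∧ (0 ≤ -1 + B3 - m23_3)) := by
    have h := C.f23_10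
    clear C e0 e1 e2 e3 s1 s2 s3
    omega
  have d9 : ((0 ≤ 0 - m33_1 + m33_2 - n2) ∧ (0 ≤ 0 + m33_1 - m33_2 + n2)) ∨ ((0 ≤ 1 - A3 + m33_2) ∧ (0 ≤ -1 + A3 - m33_2)) := by
    have h := C.f33_5
    clear C e0 e1 e2 e3 s1 s2 s3
    omega
  have d10 : ((0 ≤ 0 - m33_2 + m33_3 - n3) ∧ (0 ≤ 0 + m33_2 - m33_3 + n3)) ∨ ((0 ≤ 1 - A3 + m33_3) ∧ (0 ≤ -1 + A3 - m33_3)) := by
    have h := C.f33_8
    clear C e0 e1 e2 e3 s1 s2 s3
    omega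
  have d11 : ((0 ≤ 0 - B1)) ∨ ((0 ≤ 0 - A3)) ∨ ((0 ≤ -1 + 2 * A1 - m11_1 - m33_1)) ∨ ((0 ≤ -1 + 2 * A2 - m11_2 - m33_2)) ∨ ((0 ≤ -1 + 2 * A3 - m11_3 - m33_3)) := by
    have h := C.p11_33A
    clear C e0 e1 e2 e3 s1 s2 s3
    omega
  have d12 : ((0 ≤ 0 - A1)) ∨ ((0 ≤ 0 - B3)) ∨ ((0 ≤ 0 - A2)) ∨ ((0 ≤ -1 + 2 * A1 - m13_1 - m23_1)) ∨ ((0 ≤ -1 + 2 * A2 - m13_2 - m23_2)) ∨ ((0 ≤ -1 + 2 * A3 - m13_3 - m23_3)) := by
    have h := C.p13_23A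
    clear C e0 e1 e2 e3 s1 s2 s3
    omega
  have d13 : ((0 ≤ 0 - A1)) ∨ ((0 ≤ 0 - B3)) ∨ ((0 ≤ 0 - A3)) ∨ ((0 ≤ -1 + 2 * A1 - m13_1 - m33_1)) ∨ ((0 ≤ -1 + 2 * A2 - m13_2 - m33_2)) ∨ ((0 ≤ -1 + 2 * A3 - m13_3 - m33_3)) := by
    have h := C.p13_33A
    clear C e0 e1 e2 e3 s1 s2 s3
    omega
  rcases d2 with ⟨g1, g2⟩ | ⟨g3, g4⟩
  · rcases d13 with g5 | g6 | g7 | g8 | g9 | g10
    · linarith only [g5, e1]
    · linarith only [g6, e2]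
    · linarith only [g7, e3]
    · linarith only [s1, C.o0, C.f11_0, g8]
    · rcases d11 with g11 | g12 | g13 | g14 | g15
      · linarith only [g11, e0]
      · linarith only [g12, e3]
      · linarith only [g13, s1, g2]
      · rcases d9 with ⟨g16, g17⟩ | ⟨g18, g19⟩
        · linarith only [g16, s1, s2, C.o0, C.f11_0, C.f11_1, g2, g14, g9]
        · linarith only [C.a4, s2, g18, g14, g9]
      · rcases d10 with ⟨g20, g21⟩ | ⟨g22, g23⟩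
        · rcases d9 with ⟨g24, g25⟩ | ⟨g26, g27⟩
          · linarith only [g24, s1, s2, s3, C.b5, C.o1, C.f11_1, C.f11_2, g2, C.f13_3, C.f13_7, g20, g15]
          · linarith only [g26, s2, s3, C.b5, C.o1, C.f11_2, C.f13_4, C.f13_7, g20, g15, g9]
        · linarith only [s2, s3, C.b5, C.o1, C.f11_2, C.f13_7, g22, g15, g9]
    · rcases d11 with g28 | g29 | g30 | g31 | g32
      · linarith only [g28, e0]
      · linarith only [g29, e3]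
      · linarith only [g30, s1, g2]
      · rcases d4 with ⟨g33, g34⟩ | ⟨g35, g36⟩
        · linarith only [C.b5, s2, C.o1, g33, C.f13_7, g31]
        · rcases d9 with ⟨g37, g38⟩ | ⟨g39, g40⟩
          · linarith only [g37, s1, s2, C.f11_1, g2, C.f13_3, g31]
          · rcases d10 with ⟨g41, g42⟩ | ⟨g43, g44⟩
            · linarith only [C.a4, s2, s3, C.f11_2, C.f13_4, g35, g39, g41, g31, g10]
            · rcases d5 with ⟨g45, g46⟩ | ⟨g47, g48⟩ | ⟨g49, g50⟩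
              · rcases d6 with ⟨g51, g52⟩ | ⟨g53, g54⟩ | ⟨g55, g56⟩
                · linarith only [C.f23_5, s1, s2, C.f11_1, g2, C.f13_3, C.f13_4, g35, g45, g51, C.f33_0, g39, g43, g31, g10]
                · rcases d12 with g57 | g58 | g59 | g60 | g61 | g62
                  · linarith only [g57, e1]
                  · linarith only [g58, e2]
                  · linarith only [g59, e0, s1, s2, C.f11_0, C.f11_1, g2, C.f13_3, C.f13_4, g35, g45, C.f23_1, C.f33_0, g39, g43, g31, g10]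
                  · linarith only [g60, s1, s2, C.f11_1, g2, C.f13_3, C.f13_4, g35, g45, C.f33_0, g39, g43, g31, g10]
                  · linarith only [g61, s2, g53, g31]
                  · rcases d7 with ⟨g63, g64⟩ | ⟨g65, g66⟩
                    · linarith only [s3, s2, C.f11_2, C.f13_4, g35, g53, g63, g39, g31, g62, g10]
                    · linarith only [C.o2, g35, g65, g62]
                · linarith only [g55, s2, C.f13_4, C.f23_5, g31]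
              · rcases d6 with ⟨g67, g68⟩ | ⟨g69, g70⟩ | ⟨g71, g72⟩
                · linarith only [C.a2, s2, g2, C.f13_3, g47, g67, C.f23_5, g31]
                · rcases d12 with g73 | g74 | g75 | g76 | g77 | g78
                  · linarith only [g73, e1]
                  · linarith only [g74, e2]
                  · linarith only [g75, e0, s1, s2, C.f11_0, C.f11_1, g2, C.f13_3, C.f13_4, g35, C.f33_1, g39, g43, g31, g10]
                  · linarith only [g76, s1, s2, C.f11_1, g2, C.f13_3, g47, C.f33_1, g39, g31]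
                  · linarith only [g77, s2, g69, g31]
                  · rcases d7 with ⟨g79, g80⟩ | ⟨g81, g82⟩
                    · linarith only [s3, s2, C.f11_2, C.f13_4, g35, g69, g79, g39, g31, g78, g10]
                    · linarith only [C.o2, g35, g81, g78]
                · linarith only [g71, s2, C.f13_4, C.f23_5, g31]
              · linarith only [g49, s2, C.f13_4, C.f23_1, g31]
      · rcases d10 with ⟨g83, g84⟩ | ⟨g85, g86⟩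
        · rcases d9 with ⟨g87, g88⟩ | ⟨g89, g90⟩
          · linarith only [g87, s1, s2, s3, C.b5, C.o1, C.f11_1, C.f11_2, g2, C.f13_3, C.f13_7, g83, g32]
          · linarith only [C.b3, s2, s3, C.b5, C.o1, C.f11_0, C.f11_1, C.f11_2, C.f13_4, C.f13_7, g89, g83, g32]
        · linarith only [C.b3, s3, C.b5, C.f11_0, C.f11_1, C.f11_2, C.f13_7, g85, g32]
  · linarith only [g3, s1, C.o0, C.o2, C.f11_0, C.f13_0, C.f33_1]

end Pool.Agent.Helper89.TQ
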