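import Pool.Agent.Helper89.TQ.Ctx

set_option autoImplicit false
set_option linter.all false
set_option maxHeartbeats 4000000

namespace Pool.Agent.Helper89.TQ

theorem c0_11_22_22_k0 {n1 n2 n3 A1 A2 A3 B1 B2 B3 m11_1 m11_2 m11_3 m13_1 m13_2 m13_3 m22_1 m22_2 m22_3 m23_1 m23_2 m23_3 m33_1 m33_2 m33_3 : ℤ}
    (C : Ctx0 n1 n2 n3 A1 A2 A3 B1 B2 B3 m11_1 m11_2 m11_3 m13_1 m13_2 m13_3 m22_1 m22_2 m22_3 m23_1 m23_2 m23_3 m33_1 m33_2 m33_3)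
    (e0 : 0 < B1)
    (e1 : 0 < B2)
    (s1 : 0 * A1 + 3 * B1 ≤ m11_1 + m22_1 + m22_1)
    (s2 : 0 * A2 + 3 * B2 ≤ m11_2 + m22_2 + m22_2)
    (s3 : 0 * A3 + 3 * B3 ≤ m11_3 + m22_3 + m22_3) : False := by
  have h9 := C.b3
  have h11 := C.b5
  have h17 := C.f11_0
  have h18 := C.f11_1
  have h19 := C.f11_2
  have h21 := C.f22_1
  have h24 := C.f22_4
  have h26 := C.f22_6
  have kh27 : (B1 ≤ 0) ∨ (B2 ≤ 0) ∨ (-2 * B1 + m11_1 + m22_1 ≤ -1) ∨ (-2 * B2 + m11_2 + m22_2 ≤ -1) ∨ (-2 * B3 + m11_3 + m22_3 ≤ -1) := by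
    have q := C.p11_22B
    clear * - q
    omega
  clear C
  rcases kh27 with g1_0 | g1_0 | g1_0 | g1_0 | g1_0
  · linarith only [e0, g1_0]
  · linarith only [e0, g1_0, h17, h21, s1]
  · linarith only [g1_0, h17, s1]
  · linarith only [g1_0, h24, s2]
  · linarith only [g1_0, h11, h17, h18, h19, h26, h9, s2]

theorem c0_11_22_22_k1 {n1 n2 n3 A1 A2 A3 B1 B2 B3 m11_1 m11_2 m11_3 m13_1 m13_2 m13_3 m22_1 m22_2 m22_3 m23_1 m23_2 m23_3 m33_1 m33_2 m33_3 : ℤ}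
    (C : Ctx0 n1 n2 n3 A1 A2 A3 B1 B2 B3 m11_1 m11_2 m11_3 m13_1 m13_2 m13_3 m22_1 m22_2 m22_3 m23_1 m23_2 m23_3 m33_1 m33_2 m33_3)
    (e0 : 0 < B1)
    (e1 : 0 < B2)
    (s1 : 1 * A1 + 2 * B1 ≤ m11_1 + m22_1 + m22_1)
    (s2 : 1 * A2 + 2 * B2 ≤ m11_2 + m22_2 + m22_2)
    (s3 : 1 * A3 + 2 * B3 ≤ m11_3 + m22_3 + m22_3) : False := by
  have h9 := C.b3
  have h11 := C.b5
  have h12 := C.o0
  have h13 := C.o1
  have h17 := C.f11_0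
  have h18 := C.f11_1
  have h19 := C.f11_2
  have h21 := C.f22_1
  have h26 := C.f22_6
  have kh27 : (B1 ≤ 0) ∨ (B2 ≤ 0) ∨ (-2 * B1 + m11_1 + m22_1 ≤ -1) ∨ (-2 * B2 + m11_2 + m22_2 ≤ -1) ∨ (-2 * B3 + m11_3 + m22_3 ≤ -1) := by
    have q := C.p11_22B
    clear * - q
    omega
  clear C
  rcases kh27 with g1_0 | g1_0 | g1_0 | g1_0 | g1_0
  · linarith only [e0, g1_0]
  · linarith only [e0, g1_0, h12, h17, h21, s1]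
  · linarith only [g1_0, h12, h17, s1]
  · linarith only [g1_0, h13, h17, h18, h9, s2]
  · linarith only [g1_0, h11, h13, h17, h18, h19, h26, h9, s2]

theorem c0_11_22_22_k2 {n1 n2 n3 A1 A2 A3 B1 B2 B3 m11_1 m11_2 m11_3 m13_1 m13_2 m13_3 m22_1 m22_2 m22_3 m23_1 m23_2 m23_3 m33_1 m33_2 m33_3 : ℤ}
    (C : Ctx0 n1 n2 n3 A1 A2 A3 B1 B2 B3 m11_1 m11_2 m11_3 m13_1 m13_2 m13_3 m22_1 m22_2 m22_3 m23_1 m23_2 m23_3 m33_1 m33_2 m33_3)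
    (e0 : 0 < B1)
    (e1 : 0 < B2)
    (s1 : 2 * A1 + 1 * B1 ≤ m11_1 + m22_1 + m22_1)
    (s2 : 2 * A2 + 1 * B2 ≤ m11_2 + m22_2 + m22_2)
    (s3 : 2 * A3 + 1 * B3 ≤ m11_3 + m22_3 + m22_3) : False := by
  have h9 := C.b3
  have h11 := C.b5
  have h12 := C.o0
  have h13 := C.o1
  have h17 := C.f11_0
  have h18 := C.f11_1
  have h19 := C.f11_2
  have h21 := C.f22_1
  have h26 := C.f22_6
  have kh27 : (B1 ≤ 0) ∨ (B2 ≤ 0) ∨ (-2 * B1 + m11_1 + m22_1 ≤ -1) ∨ (-2 * B2 + m11_2 + m22_2 ≤ -1) ∨ (-2 * B3 + m11_3 + m22_3 ≤ -1) := by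
    have q := C.p11_22B
    clear * - q
    omega
  clear C
  rcases kh27 with g1_0 | g1_0 | g1_0 | g1_0 | g1_0
  · linarith only [e0, g1_0]
  · linarith only [e0, g1_0, h12, h17, h21, s1]
  · linarith only [g1_0, h12, h17, s1]
  · linarith only [g1_0, h13, h17, h18, h9, s2]
  · linarith only [g1_0, h11, h13, h17, h18, h19, h26, h9, s2]

theorem c0_11_22_22_k3 {n1 n2 n3 A1 A2 A3 B1 B2 B3 m11_1 m11_2 m11_3 m13_1 m13_2 m13_3 m22_1 m22_2 m22_3 m23_1 m23_2 m23_3 m33_1 m33_2 m33_3 : ℤ}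
    (C : Ctx0 n1 n2 n3 A1 A2 A3 B1 B2 B3 m11_1 m11_2 m11_3 m13_1 m13_2 m13_3 m22_1 m22_2 m22_3 m23_1 m23_2 m23_3 m33_1 m33_2 m33_3)
    (e0 : 0 < B1)
    (e1 : 0 < B2)
    (s1 : 3 * A1 + 0 * B1 ≤ m11_1 + m22_1 + m22_1)
    (s2 : 3 * A2 + 0 * B2 ≤ m11_2 + m22_2 + m22_2)
    (s3 : 3 * A3 + 0 * B3 ≤ m11_3 + m22_3 + m22_3) : False := by
  have h9 := C.b3
  have h11 := C.b5
  have h12 := C.o0
  have h13 := C.o1
  have h17 := C.f11_0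
  have h18 := C.f11_1
  have h19 := C.f11_2
  have h21 := C.f22_1
  have h26 := C.f22_6
  have kh27 : (B1 ≤ 0) ∨ (B2 ≤ 0) ∨ (-2 * B1 + m11_1 + m22_1 ≤ -1) ∨ (-2 * B2 + m11_2 + m22_2 ≤ -1) ∨ (-2 * B3 + m11_3 + m22_3 ≤ -1) := by
    have q := C.p11_22B
    clear * - q
    omega
  clear C
  rcases kh27 with g1_0 | g1_0 | g1_0 | g1_0 | g1_0
  · linarith only [e0, g1_0]
  · linarith only [e0, g1_0, h12, h17, h21, s1]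
  · linarith only [g1_0, h12, h17, s1]
  · linarith only [g1_0, h13, h17, h18, h9, s2]
  · linarith only [g1_0, h11, h13, h17, h18, h19, h26, h9, s2]

theorem c0_11_22_23_k0 {n1 n2 n3 A1 A2 A3 B1 B2 B3 m11_1 m11_2 m11_3 m13_1 m13_2 m13_3 m22_1 m22_2 m22_3 m23_1 m23_2 m23_3 m33_1 m33_2 m33_3 : ℤ}
    (C : Ctx0 n1 n2 n3 A1 A2 A3 B1 B2 B3 m11_1 m11_2 m11_3 m13_1 m13_2 m13_3 m22_1 m22_2 m22_3 m23_1 m23_2 m23_3 m33_1 m33_2 m33_3)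
    (e0 : 0 < B1)
    (e1 : 0 < B2)
    (e2 : 0 < A2)
    (e3 : 0 < B3)
    (s1 : 0 * A1 + 3 * B1 ≤ m11_1 + m22_1 + m23_1)
    (s2 : 0 * A2 + 3 * B2 ≤ m11_2 + m22_2 + m23_2)
    (s3 : 0 * A3 + 3 * B3 ≤ m11_3 + m22_3 + m23_3) : False := by
  have h4 := C.a4
  have h9 := C.b3
  have h10 := C.b4
  have h11 := C.b5
  have h13 := C.o1
  have h14 := C.o2
  have h17 := C.f11_0
  have h18 := C.f11_1
  have h19 := C.f11_2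
  have h20 := C.f22_0
  have h21 := C.f22_1
  have h24 := C.f22_4
  have h26 := C.f22_6
  have h28 := C.f23_1
  have kh30 : (-n1 + m23_1 ≤ 0 ∧ n1 - m23_1 ≤ 0) ∨ (-A2 + m23_1 ≤ -1 ∧ A2 - m23_1 ≤ 1) ∨ (-B3 + m23_1 ≤ -1 ∧ B3 - m23_1 ≤ 1) := by
    have q := C.f23_3
    clear * - q
    omega
  have kh37 : (-n3 - m23_2 + m23_3 ≤ 0 ∧ n3 + m23_2 - m23_3 ≤ 0) ∨ (-B3 + m23_3 ≤ -1 ∧ B3 - m23_3 ≤ 1) := by
    have q := C.f23_10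
    clear * - q
    omega
  have kh38 : (B1 ≤ 0) ∨ (A2 ≤ 0) ∨ (B3 ≤ 0) ∨ (-2 * B1 + m11_1 + m23_1 ≤ -1) ∨ (-2 * B2 + m11_2 + m23_2 ≤ -1) ∨ (-2 * B3 + m11_3 + m23_3 ≤ -1) := by
    have q := C.p11_23B
    clear * - q
    omega
  clear C
  rcases kh38 with g1_0 | g1_0 | g1_0 | g1_0 | g1_0 | g1_0
  · linarith only [e0, g1_0]
  · linarith only [e0, g1_0, h13, h17, h21, h28, s1]
  · linarith only [e0, g1_0, h10, h14, h17, h21, h28, h4, s1]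
  · rcases kh30 with ⟨g2_0, g2_1⟩ | ⟨g2_0, g2_1⟩ | ⟨g2_0, g2_1⟩
    · linarith only [g1_0, g2_1, h17, h20, s1]
    · linarith only [g1_0, g2_1, h13, h17, h21, s1]
    · linarith only [g1_0, g2_1, h10, h17, h21, s1]
  · linarith only [g1_0, h24, s2]
  · rcases kh37 with ⟨g3_0, g3_1⟩ | ⟨g3_0, g3_1⟩
    · linarith only [g1_0, g3_1, h11, h19, h24, s2]
    · linarith only [g1_0, g3_1, h17, h18, h19, h24, h26, h9, s3]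

theorem c0_11_22_23_k1 {n1 n2 n3 A1 A2 A3 B1 B2 B3 m11_1 m11_2 m11_3 m13_1 m13_2 m13_3 m22_1 m22_2 m22_3 m23_1 m23_2 m23_3 m33_1 m33_2 m33_3 : ℤ}
    (C : Ctx0 n1 n2 n3 A1 A2 A3 B1 B2 B3 m11_1 m11_2 m11_3 m13_1 m13_2 m13_3 m22_1 m22_2 m22_3 m23_1 m23_2 m23_3 m33_1 m33_2 m33_3)
    (e0 : 0 < B1)
    (e1 : 0 < B2)
    (e2 : 0 < A2)
    (e3 : 0 < B3)
    (s1 : 1 * A1 + 2 * B1 ≤ m11_1 + m22_1 + m23_1)
    (s2 : 1 * A2 + 2 * B2 ≤ m11_2 + m22_2 + m23_2)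
    (s3 : 1 * A3 + 2 * B3 ≤ m11_3 + m22_3 + m23_3) : False := by
  have h10 := C.b4
  have h11 := C.b5
  have h12 := C.o0
  have h13 := C.o1
  have h17 := C.f11_0
  have h19 := C.f11_2
  have h20 := C.f22_0
  have h21 := C.f22_1
  have h24 := C.f22_4
  have h28 := C.f23_1
  have h29 := C.f23_2
  have h32 := C.f23_5
  have kh30 : (-n1 + m23_1 ≤ 0 ∧ n1 - m23_1 ≤ 0) ∨ (-A2 + m23_1 ≤ -1 ∧ A2 - m23_1 ≤ 1) ∨ (-B3 + m23_1 ≤ -1 ∧ B3 - m23_1 ≤ 1) := by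
    have q := C.f23_3
    clear * - q
    omega
  have kh37 : (-n3 - m23_2 + m23_3 ≤ 0 ∧ n3 + m23_2 - m23_3 ≤ 0) ∨ (-B3 + m23_3 ≤ -1 ∧ B3 - m23_3 ≤ 1) := by
    have q := C.f23_10
    clear * - q
    omega
  have kh38 : (B1 ≤ 0) ∨ (A2 ≤ 0) ∨ (B3 ≤ 0) ∨ (-2 * B1 + m11_1 + m23_1 ≤ -1) ∨ (-2 * B2 + m11_2 + m23_2 ≤ -1) ∨ (-2 * B3 + m11_3 + m23_3 ≤ -1) := by
    have q := C.p11_23B
    clear * - q
    omega
  clear C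
  rcases kh38 with g1_0 | g1_0 | g1_0 | g1_0 | g1_0 | g1_0
  · linarith only [e0, g1_0]
  · linarith only [e0, g1_0, h12, h13, h17, h21, h28, s1]
  · linarith only [e0, g1_0, h10, h12, h17, h21, h29, s1]
  · rcases kh30 with ⟨g2_0, g2_1⟩ | ⟨g2_0, g2_1⟩ | ⟨g2_0, g2_1⟩
    · linarith only [g1_0, g2_1, h12, h17, h20, s1]
    · linarith only [g1_0, g2_1, h12, h13, h17, h21, s1]
    · linarith only [g1_0, g2_1, h10, h12, h17, h21, s1]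
  · linarith only [g1_0, h13, h24, s2]
  · rcases kh37 with ⟨g3_0, g3_1⟩ | ⟨g3_0, g3_1⟩
    · linarith only [g1_0, g3_1, h11, h13, h19, h24, s2]
    · linarith only [g1_0, g3_1, h11, h19, h24, h32, s2]

theorem c0_11_22_23_k2 {n1 n2 n3 A1 A2 A3 B1 B2 B3 m11_1 m11_2 m11_3 m13_1 m13_2 m13_3 m22_1 m22_2 m22_3 m23_1 m23_2 m23_3 m33_1 m33_2 m33_3 : ℤ}
    (C : Ctx0 n1 n2 n3 A1 A2 A3 B1 B2 B3 m11_1 m11_2 m11_3 m13_1 m13_2 m13_3 m22_1 m22_2 m22_3 m23_1 m23_2 m23_3 m33_1 m33_2 m33_3)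
    (e0 : 0 < B1)
    (e1 : 0 < B2)
    (e2 : 0 < A2)
    (e3 : 0 < B3)
    (s1 : 2 * A1 + 1 * B1 ≤ m11_1 + m22_1 + m23_1)
    (s2 : 2 * A2 + 1 * B2 ≤ m11_2 + m22_2 + m23_2)
    (s3 : 2 * A3 + 1 * B3 ≤ m11_3 + m22_3 + m23_3) : False := by
  have h8 := C.b2
  have h10 := C.b4
  have h11 := C.b5
  have h12 := C.o0
  have h13 := C.o1
  have h17 := C.f11_0
  have h19 := C.f11_2
  have h20 := C.f22_0
  have h21 := C.f22_1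
  have h24 := C.f22_4
  have h29 := C.f23_2
  have h32 := C.f23_5
  have kh30 : (-n1 + m23_1 ≤ 0 ∧ n1 - m23_1 ≤ 0) ∨ (-A2 + m23_1 ≤ -1 ∧ A2 - m23_1 ≤ 1) ∨ (-B3 + m23_1 ≤ -1 ∧ B3 - m23_1 ≤ 1) := by
    have q := C.f23_3
    clear * - q
    omega
  have kh37 : (-n3 - m23_2 + m23_3 ≤ 0 ∧ n3 + m23_2 - m23_3 ≤ 0) ∨ (-B3 + m23_3 ≤ -1 ∧ B3 - m23_3 ≤ 1) := by
    have q := C.f23_10
    clear * - q
    omega
  have kh38 : (B1 ≤ 0) ∨ (A2 ≤ 0) ∨ (B3 ≤ 0) ∨ (-2 * B1 + m11_1 + m23_1 ≤ -1) ∨ (-2 * B2 + m11_2 + m23_2 ≤ -1) ∨ (-2 * B3 + m11_3 + m23_3 ≤ -1) := by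
    have q := C.p11_23B
    clear * - q
    omega
  clear C
  rcases kh38 with g1_0 | g1_0 | g1_0 | g1_0 | g1_0 | g1_0
  · linarith only [e0, g1_0]
  · linarith only [e0, g1_0, h13, h8]
  · linarith only [e0, g1_0, h10, h12, h17, h21, h29, s1]
  · rcases kh30 with ⟨g2_0, g2_1⟩ | ⟨g2_0, g2_1⟩ | ⟨g2_0, g2_1⟩
    · linarith only [g1_0, g2_1, h12, h17, h20, s1]
    · linarith only [g1_0, g2_1, h12, h13, h17, h21, s1]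
    · linarith only [g1_0, g2_1, h10, h12, h17, h21, s1]
  · linarith only [g1_0, h13, h24, s2]
  · rcases kh37 with ⟨g3_0, g3_1⟩ | ⟨g3_0, g3_1⟩
    · linarith only [g1_0, g3_1, h11, h13, h19, h24, s2]
    · linarith only [g1_0, g3_1, h11, h13, h19, h24, h32, s2]

theorem c0_11_22_33_k2 {n1 n2 n3 A1 A2 A3 B1 B2 B3 m11_1 m11_2 m11_3 m13_1 m13_2 m13_3 m22_1 m22_2 m22_3 m23_1 m23_2 m23_3 m33_1 m33_2 m33_3 : ℤ}
    (C : Ctx0 n1 n2 n3 A1 A2 A3 B1 B2 B3 m11_1 m11_2 m11_3 m13_1 m13_2 m13_3 m22_1 m22_2 m22_3 m23_1 m23_2 m23_3 m33_1 m33_2 m33_3)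
    (e0 : 0 < B1)
    (e1 : 0 < B2)
    (e2 : 0 < A3)
    (s1 : 2 * A1 + 1 * B1 ≤ m11_1 + m22_1 + m33_1)
    (s2 : 2 * A2 + 1 * B2 ≤ m11_2 + m22_2 + m33_2)
    (s3 : 2 * A3 + 1 * B3 ≤ m11_3 + m22_3 + m33_3) : False := by
  have h4 := C.a4
  have h7 := C.b1
  have h8 := C.b2
  have h9 := C.b3
  have h11 := C.b5
  have h12 := C.o0
  have h13 := C.o1
  have h14 := C.o2
  have h17 := C.f11_0
  have h18 := C.f11_1
  have h19 := C.f11_2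
  have h21 := C.f22_1
  have h24 := C.f22_4
  have h26 := C.f22_6
  have h31 := C.f33_4
  have h34 := C.f33_7
  have kh25 : (-n2 - m22_1 + m22_2 ≤ 0 ∧ n2 + m22_1 - m22_2 ≤ 0) ∨ (-B2 + m22_2 ≤ -1 ∧ B2 - m22_2 ≤ 1) := by
    have q := C.f22_5
    clear * - q
    omega
  have kh29 : (-n1 + m33_1 ≤ 0 ∧ n1 - m33_1 ≤ 0) ∨ (-A3 + m33_1 ≤ -1 ∧ A3 - m33_1 ≤ 1) := by
    have q := C.f33_2
    clear * - q
    omega
  have kh32 : (-n2 - m33_1 + m33_2 ≤ 0 ∧ n2 + m33_1 - m33_2 ≤ 0) ∨ (-A3 + m33_2 ≤ -1 ∧ A3 - m33_2 ≤ 1) := by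
    have q := C.f33_5
    clear * - q
    omega
  have kh35 : (-n3 - m33_2 + m33_3 ≤ 0 ∧ n3 + m33_2 - m33_3 ≤ 0) ∨ (-A3 + m33_3 ≤ -1 ∧ A3 - m33_3 ≤ 1) := by
    have q := C.f33_8
    clear * - q
    omega
  have kh36 : (B1 ≤ 0) ∨ (B2 ≤ 0) ∨ (-2 * B1 + m11_1 + m22_1 ≤ -1) ∨ (-2 * B2 + m11_2 + m22_2 ≤ -1) ∨ (-2 * B3 + m11_3 + m22_3 ≤ -1) := by
    have q := C.p11_22B
    clear * - q
    omega
  have kh37 : (B2 ≤ 0) ∨ (A3 ≤ 0) ∨ (-2 * A1 + m22_1 + m33_1 ≤ -1) ∨ (-2 * A2 + m22_2 + m33_2 ≤ -1) ∨ (-2 * A3 + m22_3 + m33_3 ≤ -1) := by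
    have q := C.p22_33A
    clear * - q
    omega
  have kh38 : (B1 ≤ 0) ∨ (A3 ≤ 0) ∨ (-2 * A1 + m11_1 + m33_1 ≤ -1) ∨ (-2 * A2 + m11_2 + m33_2 ≤ -1) ∨ (-2 * A3 + m11_3 + m33_3 ≤ -1) := by
    have q := C.p11_33A
    clear * - q
    omega
  clear C
  rcases kh35 with ⟨g1_0, g1_1⟩ | ⟨g1_0, g1_1⟩
  · rcases kh32 with ⟨g2_0, g2_1⟩ | ⟨g2_0, g2_1⟩
    · rcases kh29 with ⟨g3_0, g3_1⟩ | ⟨g3_0, g3_1⟩
      · linarith only [g1_1, g2_1, g3_1, h11, h14, h34, h7, h9]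
      · linarith only [g1_1, g2_1, g3_1, h11, h12, h14, h17, h21, h31, h34, h9, s1]
    · linarith only [g1_1, g2_1, h11, h13, h14, h34, h4]
  · rcases kh38 with g4_0 | g4_0 | g4_0 | g4_0 | g4_0
    · linarith only [e0, g4_0]
    · linarith only [e0, g4_0, h13, h4, h8]
    · rcases kh25 with ⟨g5_0, g5_1⟩ | ⟨g5_0, g5_1⟩
      · linarith only [g4_0, g5_1, h24, h9, s1]
      · rcases kh36 with g6_0 | g6_0 | g6_0 | g6_0 | g6_0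
        · linarith only [e0, g6_0]
        · linarith only [e0, g4_0, g6_0, h21, s1]
        · linarith only [g4_0, g6_0, h17, s1]
        · rcases kh37 with g7_0 | g7_0 | g7_0 | g7_0 | g7_0
          · linarith only [e0, g4_0, g7_0, h21, s1]
          · linarith only [e0, g4_0, g7_0, h13, h21, h4, s1]
          · linarith only [g5_1, g6_0, g7_0, h18, h9, s1]
          · linarith only [g5_1, g6_0, g7_0, s2]
          · linarith only [g1_1, g5_1, g6_0, g7_0, h14, h19, h26, s3]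
        · rcases kh37 with g8_0 | g8_0 | g8_0 | g8_0 | g8_0
          · linarith only [e0, g4_0, g8_0, h21, s1]
          · linarith only [e0, g4_0, g8_0, h13, h21, h4, s1]
          · linarith only [g5_1, g6_0, g8_0, h11, h18, h19, h26, h9, s1]
          · linarith only [g5_1, g6_0, g8_0, h11, h19, h26, s2]
          · linarith only [g5_1, g6_0, g8_0, h11, h26, s3]
    · linarith only [g4_0, h24, s2]
    · linarith only [g1_1, g4_0, h14, h17, h18, h19, h24, h26, h9, s3]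

end Pool.Agent.Helper89.TQ
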