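import Pool.Agent.Helper89.TQ.Ctx

set_option autoImplicit false
set_option linter.all false
set_option maxHeartbeats 4000000

namespace Pool.Agent.Helper89.TQ

theorem c0_11_23_23_k0 {n1 n2 n3 A1 A2 A3 B1 B2 B3 m11_1 m11_2 m11_3 m13_1 m13_2 m13_3 m22_1 m22_2 m22_3 m23_1 m23_2 m23_3 m33_1 m33_2 m33_3 : ℤ}
    (C : Ctx0 n1 n2 n3 A1 A2 A3 B1 B2 B3 m11_1 m11_2 m11_3 m13_1 m13_2 m13_3 m22_1 m22_2 m22_3 m23_1 m23_2 m23_3 m33_1 m33_2 m33_3)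
    (e0 : 0 < B1)
    (e1 : 0 < A2)
    (e2 : 0 < B3)
    (s1 : 0 * A1 + 3 * B1 ≤ m11_1 + m23_1 + m23_1)
    (s2 : 0 * A2 + 3 * B2 ≤ m11_2 + m23_2 + m23_2)
    (s3 : 0 * A3 + 3 * B3 ≤ m11_3 + m23_3 + m23_3) : False := by
  have d5 : ((0 ≤ 0 - B1)) ∨ ((0 ≤ 0 - A2)) ∨ ((0 ≤ 0 - B3)) ∨ ((0 ≤ -1 + 2 * B1 - m11_1 - m23_1)) ∨ ((0 ≤ -1 + 2 * B2 - m11_2 - m23_2)) ∨ ((0 ≤ -1 + 2 * B3 - m11_3 - m23_3)) := by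
    have h := C.p11_23B
    clear C e0 e1 e2 s1 s2 s3
    omega
  rcases d5 with g1 | g2 | g3 | g4 | g5 | g6
  · linarith only [g1, e0]
  · linarith only [g2, e1]
  · linarith only [g3, e2]
  · linarith only [g4, s1, C.f11_0]
  · linarith only [C.b3, s2, C.f11_0, C.f11_1, g5]
  · linarith only [g6, s3, C.f23_9]

theorem c0_11_23_23_k1 {n1 n2 n3 A1 A2 A3 B1 B2 B3 m11_1 m11_2 m11_3 m13_1 m13_2 m13_3 m22_1 m22_2 m22_3 m23_1 m23_2 m23_3 m33_1 m33_2 m33_3 : ℤ}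
    (C : Ctx0 n1 n2 n3 A1 A2 A3 B1 B2 B3 m11_1 m11_2 m11_3 m13_1 m13_2 m13_3 m22_1 m22_2 m22_3 m23_1 m23_2 m23_3 m33_1 m33_2 m33_3)
    (e0 : 0 < B1)
    (e1 : 0 < A2)
    (e2 : 0 < B3)
    (s1 : 1 * A1 + 2 * B1 ≤ m11_1 + m23_1 + m23_1)
    (s2 : 1 * A2 + 2 * B2 ≤ m11_2 + m23_2 + m23_2)
    (s3 : 1 * A3 + 2 * B3 ≤ m11_3 + m23_3 + m23_3) : False := by
  have d0 : ((0 ≤ -1 + A1) ∧ (0 ≤ -1 + A1 - A2 + n2)) ∨ ((0 ≤ -1 + B1) ∧ (0 ≤ -1 + B1 - B2 + n2)) := by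
    have h := C.t12
    clear C e0 e1 e2 s1 s2 s3
    omega
  have d1 : ((0 ≤ -1 - A1 + A2) ∧ (0 ≤ -1 + A2 - A3 + n3)) ∨ ((0 ≤ -1 - B1 + B2) ∧ (0 ≤ -1 + B2 - B3 + n3)) := by
    have h := C.t23
    clear C e0 e1 e2 s1 s2 s3
    omega
  have d4 : ((0 ≤ 0 - m23_2 + m23_3 - n3) ∧ (0 ≤ 0 + m23_2 - m23_3 + n3)) ∨ ((0 ≤ 1 - B3 + m23_3) ∧ (0 ≤ -1 + B3 - m23_3)) := by
    have h := C.f23_10
    clear C e0 e1 e2 s1 s2 s3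
    omega
  have d5 : ((0 ≤ 0 - B1)) ∨ ((0 ≤ 0 - A2)) ∨ ((0 ≤ 0 - B3)) ∨ ((0 ≤ -1 + 2 * B1 - m11_1 - m23_1)) ∨ ((0 ≤ -1 + 2 * B2 - m11_2 - m23_2)) ∨ ((0 ≤ -1 + 2 * B3 - m11_3 - m23_3)) := by
    have h := C.p11_23B
    clear C e0 e1 e2 s1 s2 s3
    omega
  have d6 : ((0 ≤ 0 + A1 - A2)) ∨ ((0 ≤ 1 - A2 + A3 - n3)) ∨ ((0 ≤ 0 - B1 + B2 - n2)) ∨ ((0 ≤ 1 + B2 - B3)) ∨ ((0 ≤ -1 + A2 - B2) ∧ (0 ≤ 1 + A3 - B3)) := by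
    have h := C.tzpm
    clear C e0 e1 e2 s1 s2 s3
    omega
  have d7 : ((0 ≤ 0 - A1)) ∨ ((0 ≤ 0 - A1 + A2 - n2)) ∨ ((0 ≤ 0 - A2 + A3 - n3)) ∨ ((0 ≤ 0 + B1 - n1)) ∨ ((0 ≤ 0 + B1 - B2)) ∨ ((0 ≤ 0 + B2 - B3)) ∨ ((0 ≤ 1 + A3 - B3)) ∨ ((0 ≤ 1 - A1 + B1) ∧ (0 ≤ 0 - A2 + B2)) := by
    have h := C.tpzm
    clear C e0 e1 e2 s1 s2 s3
    omega
  rcases d5 with g1 | g2 | g3 | g4 | g5 | g6
  · linarith only [g1, e0]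
  · linarith only [g2, e1]
  · linarith only [g3, e2]
  · linarith only [g4, s1, C.o0, C.f11_0]
  · linarith only [g5, s2, C.f23_5]
  · rcases d4 with ⟨g7, g8⟩ | ⟨g9, g10⟩
    · linarith only [C.b5, s2, C.f11_2, C.f23_5, g7, g6]
    · rcases d7 with g11 | g12 | g13 | g14 | g15 | g16 | g17 | ⟨g18, g19⟩
      · linarith only [g11, e0, s2, C.a3, C.b5, C.f11_0, C.f11_1, C.f11_2, C.f23_5, g9, g6]
      · rcases d0 with ⟨g20, g21⟩ | ⟨g22, g23⟩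
        · linarith only [g21, g12]
        · rcases d6 with g24 | g25 | g26 | g27 | ⟨g28, g29⟩
          · linarith only [g24, g12, C.b2, g23]
          · linarith only [C.b5, s2, s3, g25, C.f11_2, C.f23_5, g6]
          · linarith only [g26, g23]
          · linarith only [C.a5, s2, s3, C.a4, g27, C.f11_2, C.f23_5, g6]
          · linarith only [g29, s3, g10, g6]
      · linarith only [g13, s2, s3, C.b5, C.f11_2, C.f23_5, g6]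
      · linarith only [g14, s2, C.a1, C.a3, C.b5, C.f11_0, C.f11_1, C.f11_2, C.f23_5, g9, g6]
      · rcases d1 with ⟨g30, g31⟩ | ⟨g32, g33⟩
        · rcases d6 with g34 | g35 | g36 | g37 | ⟨g38, g39⟩
          · linarith only [g34, g30]
          · linarith only [C.b5, s2, s3, g35, C.f11_2, C.f23_5, g6]
          · linarith only [g30, C.a3, g15, g36]
          · linarith only [g31, s2, s3, C.a4, g37, C.f11_2, C.f23_5, g6]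
          · linarith only [g39, s3, g10, g6]
        · linarith only [g32, g15]
      · linarith only [g16, s2, s3, C.a4, C.b5, C.f11_2, C.f23_5, g6]
      · linarith only [g17, s3, g10, g6]
      · linarith only [g19, s2, C.b5, C.f11_2, C.f23_5, g9, g6]

theorem c0_11_23_23_k2 {n1 n2 n3 A1 A2 A3 B1 B2 B3 m11_1 m11_2 m11_3 m13_1 m13_2 m13_3 m22_1 m22_2 m22_3 m23_1 m23_2 m23_3 m33_1 m33_2 m33_3 : ℤ}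
    (C : Ctx0 n1 n2 n3 A1 A2 A3 B1 B2 B3 m11_1 m11_2 m11_3 m13_1 m13_2 m13_3 m22_1 m22_2 m22_3 m23_1 m23_2 m23_3 m33_1 m33_2 m33_3)
    (e0 : 0 < B1)
    (e1 : 0 < A2)
    (e2 : 0 < B3)
    (s1 : 2 * A1 + 1 * B1 ≤ m11_1 + m23_1 + m23_1)
    (s2 : 2 * A2 + 1 * B2 ≤ m11_2 + m23_2 + m23_2)
    (s3 : 2 * A3 + 1 * B3 ≤ m11_3 + m23_3 + m23_3) : False := by
  have d4 : ((0 ≤ 0 - m23_2 + m23_3 - n3) ∧ (0 ≤ 0 + m23_2 - m23_3 + n3)) ∨ ((0 ≤ 1 - B3 + m23_3) ∧ (0 ≤ -1 + B3 - m23_3)) := by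
    have h := C.f23_10
    clear C e0 e1 e2 s1 s2 s3
    omega
  have d5 : ((0 ≤ 0 - B1)) ∨ ((0 ≤ 0 - A2)) ∨ ((0 ≤ 0 - B3)) ∨ ((0 ≤ -1 + 2 * B1 - m11_1 - m23_1)) ∨ ((0 ≤ -1 + 2 * B2 - m11_2 - m23_2)) ∨ ((0 ≤ -1 + 2 * B3 - m11_3 - m23_3)) := by
    have h := C.p11_23B
    clear C e0 e1 e2 s1 s2 s3
    omega
  rcases d5 with g1 | g2 | g3 | g4 | g5 | g6
  · linarith only [g1, e0]
  · linarith only [g2, e1]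
  · linarith only [g3, e2]
  · linarith only [g4, s1, C.o0, C.f11_0]
  · linarith only [g5, s2, C.o1, C.f23_5]
  · rcases d4 with ⟨g7, g8⟩ | ⟨g9, g10⟩
    · linarith only [C.o1, s2, C.b5, C.f11_2, C.f23_5, g7, g6]
    · linarith only [g9, s2, C.b5, C.f11_2, C.f23_5, g6]

theorem c0_11_23_23_k3 {n1 n2 n3 A1 A2 A3 B1 B2 B3 m11_1 m11_2 m11_3 m13_1 m13_2 m13_3 m22_1 m22_2 m22_3 m23_1 m23_2 m23_3 m33_1 m33_2 m33_3 : ℤ}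
    (C : Ctx0 n1 n2 n3 A1 A2 A3 B1 B2 B3 m11_1 m11_2 m11_3 m13_1 m13_2 m13_3 m22_1 m22_2 m22_3 m23_1 m23_2 m23_3 m33_1 m33_2 m33_3)
    (e0 : 0 < B1)
    (e1 : 0 < A2)
    (e2 : 0 < B3)
    (s1 : 3 * A1 + 0 * B1 ≤ m11_1 + m23_1 + m23_1)
    (s2 : 3 * A2 + 0 * B2 ≤ m11_2 + m23_2 + m23_2)
    (s3 : 3 * A3 + 0 * B3 ≤ m11_3 + m23_3 + m23_3) : False := by
  have d4 : ((0 ≤ 0 - m23_2 + m23_3 - n3) ∧ (0 ≤ 0 + m23_2 - m23_3 + n3)) ∨ ((0 ≤ 1 - B3 + m23_3) ∧ (0 ≤ -1 + B3 - m23_3)) := by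
    have h := C.f23_10
    clear C e0 e1 e2 s1 s2 s3
    omega
  have d5 : ((0 ≤ 0 - B1)) ∨ ((0 ≤ 0 - A2)) ∨ ((0 ≤ 0 - B3)) ∨ ((0 ≤ -1 + 2 * B1 - m11_1 - m23_1)) ∨ ((0 ≤ -1 + 2 * B2 - m11_2 - m23_2)) ∨ ((0 ≤ -1 + 2 * B3 - m11_3 - m23_3)) := by
    have h := C.p11_23B
    clear C e0 e1 e2 s1 s2 s3
    omega
  rcases d5 with g1 | g2 | g3 | g4 | g5 | g6
  · linarith only [g1, e0]
  · linarith only [g2, e1]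
  · linarith only [g3, e2]
  · linarith only [g4, s1, C.o0, C.f11_0]
  · linarith only [g5, s2, C.o1, C.f23_5]
  · rcases d4 with ⟨g7, g8⟩ | ⟨g9, g10⟩
    · linarith only [g7, s2, C.b5, C.o1, C.f11_2, C.f23_5, g6]
    · linarith only [g9, s2, C.b5, C.o1, C.f11_2, C.f23_5, g6]

theorem c0_11_23_33_k0 {n1 n2 n3 A1 A2 A3 B1 B2 B3 m11_1 m11_2 m11_3 m13_1 m13_2 m13_3 m22_1 m22_2 m22_3 m23_1 m23_2 m23_3 m33_1 m33_2 m33_3 : ℤ}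
    (C : Ctx0 n1 n2 n3 A1 A2 A3 B1 B2 B3 m11_1 m11_2 m11_3 m13_1 m13_2 m13_3 m22_1 m22_2 m22_3 m23_1 m23_2 m23_3 m33_1 m33_2 m33_3)
    (e0 : 0 < B1)
    (e1 : 0 < A2)
    (e2 : 0 < B3)
    (e3 : 0 < A3)
    (s1 : 0 * A1 + 3 * B1 ≤ m11_1 + m23_1 + m33_1)
    (s2 : 0 * A2 + 3 * B2 ≤ m11_2 + m23_2 + m33_2)
    (s3 : 0 * A3 + 3 * B3 ≤ m11_3 + m23_3 + m33_3) : False := by
  have d5 : ((0 ≤ 0 + m33_1 - n1) ∧ (0 ≤ 0 - m33_1 + n1)) ∨ ((0 ≤ 1 - A3 + m33_1) ∧ (0 ≤ -1 + A3 - m33_1)) := by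
    have h := C.f33_2
    clear C e0 e1 e2 e3 s1 s2 s3
    omega
  have d6 : ((0 ≤ 0 - m33_1 + m33_2 - n2) ∧ (0 ≤ 0 + m33_1 - m33_2 + n2)) ∨ ((0 ≤ 1 - A3 + m33_2) ∧ (0 ≤ -1 + A3 - m33_2)) := by
    have h := C.f33_5
    clear C e0 e1 e2 e3 s1 s2 s3
    omega
  have d8 : ((0 ≤ 0 - B1)) ∨ ((0 ≤ 0 - A3)) ∨ ((0 ≤ -1 + 2 * B1 - m11_1 - m33_1)) ∨ ((0 ≤ -1 + 2 * B2 - m11_2 - m33_2)) ∨ ((0 ≤ -1 + 2 * B3 - m11_3 - m33_3)) := by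
    have h := C.p11_33B
    clear C e0 e1 e2 e3 s1 s2 s3
    omega
  rcases d8 with g1 | g2 | g3 | g4 | g5
  · linarith only [g1, e0]
  · linarith only [g2, e3]
  · rcases d5 with ⟨g6, g7⟩ | ⟨g8, g9⟩
    · linarith only [g3, C.a1, C.o0, C.f11_0, g6]
    · linarith only [s1, C.a4, C.f11_0, C.f23_1, g8, g3]
  · rcases d6 with ⟨g10, g11⟩ | ⟨g12, g13⟩
    · rcases d5 with ⟨g14, g15⟩ | ⟨g16, g17⟩
      · linarith only [C.b3, s2, C.a1, C.a3, C.f11_0, C.f11_1, C.f23_5, g14, g10, g4]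
      · linarith only [g16, s2, C.a2, C.a3, C.a4, C.b3, C.f11_0, C.f11_1, C.f23_5, g10, g4]
    · linarith only [C.b3, s2, C.a4, C.f11_0, C.f11_1, C.f23_5, g12, g4]
  · linarith only [g5, s3, C.f23_9]

end Pool.Agent.Helper89.TQ
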