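import Pool.Agent.Helper89.TQ.Ctx

set_option autoImplicit false
set_option linter.all false
set_option maxHeartbeats 4000000

namespace Pool.Agent.Helper89.TQ

theorem c0_11_33_33_k0 {n1 n2 n3 A1 A2 A3 B1 B2 B3 m11_1 m11_2 m11_3 m13_1 m13_2 m13_3 m22_1 m22_2 m22_3 m23_1 m23_2 m23_3 m33_1 m33_2 m33_3 : ℤ}
    (C : Ctx0 n1 n2 n3 A1 A2 A3 B1 B2 B3 m11_1 m11_2 m11_3 m13_1 m13_2 m13_3 m22_1 m22_2 m22_3 m23_1 m23_2 m23_3 m33_1 m33_2 m33_3)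
    (e0 : 0 < B1)
    (e1 : 0 < A3)
    (s1 : 0 * A1 + 3 * B1 ≤ m11_1 + m33_1 + m33_1)
    (s2 : 0 * A2 + 3 * B2 ≤ m11_2 + m33_2 + m33_2)
    (s3 : 0 * A3 + 3 * B3 ≤ m11_3 + m33_3 + m33_3) : False := by
  have d5 : ((0 ≤ 0 - B1)) ∨ ((0 ≤ 0 - A3)) ∨ ((0 ≤ -1 + 2 * B1 - m11_1 - m33_1)) ∨ ((0 ≤ -1 + 2 * B2 - m11_2 - m33_2)) ∨ ((0 ≤ -1 + 2 * B3 - m11_3 - m33_3)) := by
    have h := C.p11_33B
    clear C e0 e1 s1 s2 s3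
    omega
  rcases d5 with g1 | g2 | g3 | g4 | g5
  · linarith only [g1, e0]
  · linarith only [g2, e1]
  · linarith only [g3, s1, C.f11_0]
  · linarith only [C.b3, s2, C.f11_0, C.f11_1, g4]
  · linarith only [g5, s3, C.o2, C.f33_7]

theorem c0_11_33_33_k1 {n1 n2 n3 A1 A2 A3 B1 B2 B3 m11_1 m11_2 m11_3 m13_1 m13_2 m13_3 m22_1 m22_2 m22_3 m23_1 m23_2 m23_3 m33_1 m33_2 m33_3 : ℤ}
    (C : Ctx0 n1 n2 n3 A1 A2 A3 B1 B2 B3 m11_1 m11_2 m11_3 m13_1 m13_2 m13_3 m22_1 m22_2 m22_3 m23_1 m23_2 m23_3 m33_1 m33_2 m33_3)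
    (e0 : 0 < B1)
    (e1 : 0 < A3)
    (s1 : 1 * A1 + 2 * B1 ≤ m11_1 + m33_1 + m33_1)
    (s2 : 1 * A2 + 2 * B2 ≤ m11_2 + m33_2 + m33_2)
    (s3 : 1 * A3 + 2 * B3 ≤ m11_3 + m33_3 + m33_3) : False := by
  have d5 : ((0 ≤ 0 - B1)) ∨ ((0 ≤ 0 - A3)) ∨ ((0 ≤ -1 + 2 * B1 - m11_1 - m33_1)) ∨ ((0 ≤ -1 + 2 * B2 - m11_2 - m33_2)) ∨ ((0 ≤ -1 + 2 * B3 - m11_3 - m33_3)) := by
    have h := C.p11_33B
    clear C e0 e1 s1 s2 s3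
    omega
  rcases d5 with g1 | g2 | g3 | g4 | g5
  · linarith only [g1, e0]
  · linarith only [g2, e1]
  · linarith only [g3, s1, C.o0, C.f11_0]
  · linarith only [C.b3, s2, C.o1, C.f11_0, C.f11_1, g4]
  · linarith only [g5, s3, C.f33_7]

end Pool.Agent.Helper89.TQ
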