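import Pool.Agent.Helper89.TQ.Ctx

set_option autoImplicit false
set_option linter.all false
set_option maxHeartbeats 4000000

namespace Pool.Agent.Helper89.TQ

theorem c0_13_13_13_k0 {n1 n2 n3 A1 A2 A3 B1 B2 B3 m11_1 m11_2 m11_3 m13_1 m13_2 m13_3 m22_1 m22_2 m22_3 m23_1 m23_2 m23_3 m33_1 m33_2 m33_3 : ℤ}
    (C : Ctx0 n1 n2 n3 A1 A2 A3 B1 B2 B3 m11_1 m11_2 m11_3 m13_1 m13_2 m13_3 m22_1 m22_2 m22_3 m23_1 m23_2 m23_3 m33_1 m33_2 m33_3)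
    (e0 : 0 < A1)
    (e1 : 0 < B3)
    (s1 : 0 * A1 + 3 * B1 ≤ m13_1 + m13_1 + m13_1)
    (s2 : 0 * A2 + 3 * B2 ≤ m13_2 + m13_2 + m13_2)
    (s3 : 0 * A3 + 3 * B3 ≤ m13_3 + m13_3 + m13_3) : False := by
  linarith only [C.f13_7, s3]

theorem c0_13_13_13_k1 {n1 n2 n3 A1 A2 A3 B1 B2 B3 m11_1 m11_2 m11_3 m13_1 m13_2 m13_3 m22_1 m22_2 m22_3 m23_1 m23_2 m23_3 m33_1 m33_2 m33_3 : ℤ}
    (C : Ctx0 n1 n2 n3 A1 A2 A3 B1 B2 B3 m11_1 m11_2 m11_3 m13_1 m13_2 m13_3 m22_1 m22_2 m22_3 m23_1 m23_2 m23_3 m33_1 m33_2 m33_3)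
    (e0 : 0 < A1)
    (e1 : 0 < B3)
    (s1 : 1 * A1 + 2 * B1 ≤ m13_1 + m13_1 + m13_1)
    (s2 : 1 * A2 + 2 * B2 ≤ m13_2 + m13_2 + m13_2)
    (s3 : 1 * A3 + 2 * B3 ≤ m13_3 + m13_3 + m13_3) : False := by
  have d0 : ((0 ≤ -1 + A1) ∧ (0 ≤ -1 + A1 - A2 + n2)) ∨ ((0 ≤ -1 + B1) ∧ (0 ≤ -1 + B1 - B2 + n2)) := by
    have h := C.t12
    clear C e0 e1 s1 s2 s3
    omega
  have d1 : ((0 ≤ -1 - A1 + A2) ∧ (0 ≤ -1 + A2 - A3 + n3)) ∨ ((0 ≤ -1 - B1 + B2) ∧ (0 ≤ -1 + B2 - B3 + n3)) := by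
    have h := C.t23
    clear C e0 e1 s1 s2 s3
    omega
  have d2 : ((0 ≤ 1 - A1 + m13_1) ∧ (0 ≤ -1 + A1 - m13_1)) ∨ ((0 ≤ 1 - B3 + m13_1) ∧ (0 ≤ -1 + B3 - m13_1)) := by
    have h := C.f13_2
    clear C e0 e1 s1 s2 s3
    omega
  have d4 : ((0 ≤ 0 - m13_2 + m13_3 - n3) ∧ (0 ≤ 0 + m13_2 - m13_3 + n3)) ∨ ((0 ≤ 1 - B3 + m13_3) ∧ (0 ≤ -1 + B3 - m13_3)) := by
    have h := C.f13_8
    clear C e0 e1 s1 s2 s3
    omega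
  have d5 : ((0 ≤ 0 + A1 - A2)) ∨ ((0 ≤ 1 - A2 + A3 - n3)) ∨ ((0 ≤ 0 - B1 + B2 - n2)) ∨ ((0 ≤ 1 + B2 - B3)) ∨ ((0 ≤ -1 + A2 - B2) ∧ (0 ≤ 1 + A3 - B3)) := by
    have h := C.tzpm
    clear C e0 e1 s1 s2 s3
    omega
  have d6 : ((0 ≤ 0 - A1)) ∨ ((0 ≤ 0 - A1 + A2 - n2)) ∨ ((0 ≤ 0 - A2 + A3 - n3)) ∨ ((0 ≤ 0 + B1 - n1)) ∨ ((0 ≤ 0 + B1 - B2)) ∨ ((0 ≤ 0 + B2 - B3)) ∨ ((0 ≤ 1 + A3 - B3)) ∨ ((0 ≤ 1 - A1 + B1) ∧ (0 ≤ 0 - A2 + B2)) := by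
    have h := C.tpzm
    clear C e0 e1 s1 s2 s3
    omega
  rcases d2 with ⟨g1, g2⟩ | ⟨g3, g4⟩
  · rcases d4 with ⟨g5, g6⟩ | ⟨g7, g8⟩
    · linarith only [s2, C.b5, C.o1, g5, C.f13_7]
    · rcases d6 with g9 | g10 | g11 | g12 | g13 | g14 | g15 | ⟨g16, g17⟩
      · linarith only [g9, e0]
      · rcases d0 with ⟨g18, g19⟩ | ⟨g20, g21⟩
        · linarith only [g19, g10]
        · rcases d5 with g22 | g23 | g24 | g25 | ⟨g26, g27⟩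
          · linarith only [C.b2, g22, g10, g21]
          · linarith only [C.b5, s1, s3, g10, g23, g21, g2, g8]
          · linarith only [g24, g21]
          · linarith only [g25, s1, s3, g10, C.a4, g21, g2, g8]
          · linarith only [g27, s3, g8]
      · linarith only [C.o1, s3, g11, C.b5, g8]
      · linarith only [g12, s1, C.a1, g2]
      · rcases d1 with ⟨g28, g29⟩ | ⟨g30, g31⟩
        · rcases d5 with g32 | g33 | g34 | g35 | ⟨g36, g37⟩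
          · linarith only [g32, g28]
          · linarith only [g33, s1, s3, g28, g13, C.b5, g2, g8]
          · linarith only [C.a3, g28, g13, g34]
          · linarith only [g35, s1, s3, g28, C.a4, g13, g2, g8]
          · linarith only [g37, s3, g8]
        · linarith only [g30, g13]
      · linarith only [C.o1, s3, C.a4, g14, g8]
      · linarith only [g15, s3, g8]
      · linarith only [g16, s1, g2]
  · linarith only [C.a2, s3, C.a4, C.f13_0, g3, C.f13_7]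

theorem c0_13_13_13_k2 {n1 n2 n3 A1 A2 A3 B1 B2 B3 m11_1 m11_2 m11_3 m13_1 m13_2 m13_3 m22_1 m22_2 m22_3 m23_1 m23_2 m23_3 m33_1 m33_2 m33_3 : ℤ}
    (C : Ctx0 n1 n2 n3 A1 A2 A3 B1 B2 B3 m11_1 m11_2 m11_3 m13_1 m13_2 m13_3 m22_1 m22_2 m22_3 m23_1 m23_2 m23_3 m33_1 m33_2 m33_3)
    (e0 : 0 < A1)
    (e1 : 0 < B3)
    (s1 : 2 * A1 + 1 * B1 ≤ m13_1 + m13_1 + m13_1)
    (s2 : 2 * A2 + 1 * B2 ≤ m13_2 + m13_2 + m13_2)
    (s3 : 2 * A3 + 1 * B3 ≤ m13_3 + m13_3 + m13_3) : False := by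
  have d0 : ((0 ≤ -1 + A1) ∧ (0 ≤ -1 + A1 - A2 + n2)) ∨ ((0 ≤ -1 + B1) ∧ (0 ≤ -1 + B1 - B2 + n2)) := by
    have h := C.t12
    clear C e0 e1 s1 s2 s3
    omega
  have d1 : ((0 ≤ -1 - A1 + A2) ∧ (0 ≤ -1 + A2 - A3 + n3)) ∨ ((0 ≤ -1 - B1 + B2) ∧ (0 ≤ -1 + B2 - B3 + n3)) := by
    have h := C.t23
    clear C e0 e1 s1 s2 s3
    omega
  have d2 : ((0 ≤ 1 - A1 + m13_1) ∧ (0 ≤ -1 + A1 - m13_1)) ∨ ((0 ≤ 1 - B3 + m13_1) ∧ (0 ≤ -1 + B3 - m13_1)) := by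
    have h := C.f13_2
    clear C e0 e1 s1 s2 s3
    omega
  have d4 : ((0 ≤ 0 - m13_2 + m13_3 - n3) ∧ (0 ≤ 0 + m13_2 - m13_3 + n3)) ∨ ((0 ≤ 1 - B3 + m13_3) ∧ (0 ≤ -1 + B3 - m13_3)) := by
    have h := C.f13_8
    clear C e0 e1 s1 s2 s3
    omega
  have d5 : ((0 ≤ 0 + A1 - A2)) ∨ ((0 ≤ 1 - A2 + A3 - n3)) ∨ ((0 ≤ 0 - B1 + B2 - n2)) ∨ ((0 ≤ 1 + B2 - B3)) ∨ ((0 ≤ -1 + A2 - B2) ∧ (0 ≤ 1 + A3 - B3)) := by
    have h := C.tzpm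
    clear C e0 e1 s1 s2 s3
    omega
  have d6 : ((0 ≤ 0 - A1)) ∨ ((0 ≤ 0 - A1 + A2 - n2)) ∨ ((0 ≤ 0 - A2 + A3 - n3)) ∨ ((0 ≤ 0 + B1 - n1)) ∨ ((0 ≤ 0 + B1 - B2)) ∨ ((0 ≤ 0 + B2 - B3)) ∨ ((0 ≤ 1 + A3 - B3)) ∨ ((0 ≤ 1 - A1 + B1) ∧ (0 ≤ 0 - A2 + B2)) := by
    have h := C.tpzm
    clear C e0 e1 s1 s2 s3
    omega
  rcases d2 with ⟨g1, g2⟩ | ⟨g3, g4⟩
  · rcases d4 with ⟨g5, g6⟩ | ⟨g7, g8⟩
    · linarith only [s2, C.b5, C.o1, g5, C.f13_7]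
    · rcases d6 with g9 | g10 | g11 | g12 | g13 | g14 | g15 | ⟨g16, g17⟩
      · linarith only [g9, e0]
      · rcases d0 with ⟨g18, g19⟩ | ⟨g20, g21⟩
        · linarith only [g19, g10]
        · rcases d5 with g22 | g23 | g24 | g25 | ⟨g26, g27⟩
          · linarith only [C.b2, g22, g10, g21]
          · linarith only [C.b5, s1, s3, g10, g23, g21, g2, g8]
          · linarith only [g24, g21]
          · linarith only [g25, s1, s3, g10, C.a4, g21, g2, g8]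
          · linarith only [g27, s3, g8]
      · linarith only [C.o1, s3, g11, C.b5, g8]
      · linarith only [g12, s1, C.a1, g2]
      · rcases d1 with ⟨g28, g29⟩ | ⟨g30, g31⟩
        · rcases d5 with g32 | g33 | g34 | g35 | ⟨g36, g37⟩
          · linarith only [g32, g28]
          · linarith only [g33, s1, s3, g28, g13, C.b5, g2, g8]
          · linarith only [C.a3, g28, g13, g34]
          · linarith only [g35, s1, s3, g28, C.a4, g13, g2, g8]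
          · linarith only [g37, s3, g8]
        · linarith only [g30, g13]
      · linarith only [C.o1, s3, C.a4, g14, g8]
      · linarith only [g15, s3, g8]
      · linarith only [g16, s1, g2]
  · linarith only [C.a2, s3, C.a4, C.f13_0, g3, C.f13_7]

theorem c0_13_13_13_k3 {n1 n2 n3 A1 A2 A3 B1 B2 B3 m11_1 m11_2 m11_3 m13_1 m13_2 m13_3 m22_1 m22_2 m22_3 m23_1 m23_2 m23_3 m33_1 m33_2 m33_3 : ℤ}
    (C : Ctx0 n1 n2 n3 A1 A2 A3 B1 B2 B3 m11_1 m11_2 m11_3 m13_1 m13_2 m13_3 m22_1 m22_2 m22_3 m23_1 m23_2 m23_3 m33_1 m33_2 m33_3)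
    (e0 : 0 < A1)
    (e1 : 0 < B3)
    (s1 : 3 * A1 + 0 * B1 ≤ m13_1 + m13_1 + m13_1)
    (s2 : 3 * A2 + 0 * B2 ≤ m13_2 + m13_2 + m13_2)
    (s3 : 3 * A3 + 0 * B3 ≤ m13_3 + m13_3 + m13_3) : False := by
  linarith only [C.f13_0, s1]

theorem c0_13_13_22_k0 {n1 n2 n3 A1 A2 A3 B1 B2 B3 m11_1 m11_2 m11_3 m13_1 m13_2 m13_3 m22_1 m22_2 m22_3 m23_1 m23_2 m23_3 m33_1 m33_2 m33_3 : ℤ}
    (C : Ctx0 n1 n2 n3 A1 A2 A3 B1 B2 B3 m11_1 m11_2 m11_3 m13_1 m13_2 m13_3 m22_1 m22_2 m22_3 m23_1 m23_2 m23_3 m33_1 m33_2 m33_3)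
    (e0 : 0 < A1)
    (e1 : 0 < B3)
    (e2 : 0 < B2)
    (s1 : 0 * A1 + 3 * B1 ≤ m13_1 + m13_1 + m22_1)
    (s2 : 0 * A2 + 3 * B2 ≤ m13_2 + m13_2 + m22_2)
    (s3 : 0 * A3 + 3 * B3 ≤ m13_3 + m13_3 + m22_3) : False := by
  have d2 : ((0 ≤ 1 - A1 + m13_1) ∧ (0 ≤ -1 + A1 - m13_1)) ∨ ((0 ≤ 1 - B3 + m13_1) ∧ (0 ≤ -1 + B3 - m13_1)) := by
    have h := C.f13_2
    clear C e0 e1 e2 s1 s2 s3
    omega
  have d4 : ((0 ≤ 0 - m13_2 + m13_3 - n3) ∧ (0 ≤ 0 + m13_2 - m13_3 + n3)) ∨ ((0 ≤ 1 - B3 + m13_3) ∧ (0 ≤ -1 + B3 - m13_3)) := by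
    have h := C.f13_8
    clear C e0 e1 e2 s1 s2 s3
    omega
  have d5 : ((0 ≤ 0 + m22_1 - n1) ∧ (0 ≤ 0 - m22_1 + n1)) ∨ ((0 ≤ 1 - B2 + m22_1) ∧ (0 ≤ -1 + B2 - m22_1)) := by
    have h := C.f22_2
    clear C e0 e1 e2 s1 s2 s3
    omega
  have d6 : ((0 ≤ 0 - m22_1 + m22_2 - n2) ∧ (0 ≤ 0 + m22_1 - m22_2 + n2)) ∨ ((0 ≤ 1 - B2 + m22_2) ∧ (0 ≤ -1 + B2 - m22_2)) := by
    have h := C.f22_5
    clear C e0 e1 e2 s1 s2 s3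
    omega
  have d7 : ((0 ≤ 0 - A1)) ∨ ((0 ≤ 0 - B3)) ∨ ((0 ≤ 0 - B2)) ∨ ((0 ≤ -1 + 2 * B1 - m13_1 - m22_1)) ∨ ((0 ≤ -1 + 2 * B2 - m13_2 - m22_2)) ∨ ((0 ≤ -1 + 2 * B3 - m13_3 - m22_3)) := by
    have h := C.p13_22B
    clear C e0 e1 e2 s1 s2 s3
    omega
  rcases d2 with ⟨g1, g2⟩ | ⟨g3, g4⟩
  · rcases d4 with ⟨g5, g6⟩ | ⟨g7, g8⟩
    · linarith only [C.f22_4, s2, s3, g5, C.f13_7, C.f22_6]
    · rcases d7 with g9 | g10 | g11 | g12 | g13 | g14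
      · linarith only [g9, e0]
      · linarith only [g10, e1]
      · linarith only [g11, e2]
      · rcases d5 with ⟨g15, g16⟩ | ⟨g17, g18⟩
        · linarith only [s1, C.a1, g2, g15, g12]
        · linarith only [C.b2, s1, g17, g12]
      · rcases d6 with ⟨g19, g20⟩ | ⟨g21, g22⟩
        · rcases d5 with ⟨g23, g24⟩ | ⟨g25, g26⟩
          · linarith only [s2, C.a1, g2, C.f13_3, g23, g19, g13]
          · linarith only [C.a3, s2, C.a2, g25, g19, g13]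
        · linarith only [g21, s2, g13]
      · linarith only [g14, s3, g8]
  · linarith only [C.a4, C.a2, C.o2, C.f13_0, g3]

theorem c0_13_13_22_k1 {n1 n2 n3 A1 A2 A3 B1 B2 B3 m11_1 m11_2 m11_3 m13_1 m13_2 m13_3 m22_1 m22_2 m22_3 m23_1 m23_2 m23_3 m33_1 m33_2 m33_3 : ℤ}
    (C : Ctx0 n1 n2 n3 A1 A2 A3 B1 B2 B3 m11_1 m11_2 m11_3 m13_1 m13_2 m13_3 m22_1 m22_2 m22_3 m23_1 m23_2 m23_3 m33_1 m33_2 m33_3)
    (e0 : 0 < A1)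
    (e1 : 0 < B3)
    (e2 : 0 < B2)
    (s1 : 1 * A1 + 2 * B1 ≤ m13_1 + m13_1 + m22_1)
    (s2 : 1 * A2 + 2 * B2 ≤ m13_2 + m13_2 + m22_2)
    (s3 : 1 * A3 + 2 * B3 ≤ m13_3 + m13_3 + m22_3) : False := by
  have d0 : ((0 ≤ -1 + A1) ∧ (0 ≤ -1 + A1 - A2 + n2)) ∨ ((0 ≤ -1 + B1) ∧ (0 ≤ -1 + B1 - B2 + n2)) := by
    have h := C.t12
    clear C e0 e1 e2 s1 s2 s3
    omega
  have d1 : ((0 ≤ -1 - A1 + A2) ∧ (0 ≤ -1 + A2 - A3 + n3)) ∨ ((0 ≤ -1 - B1 + B2) ∧ (0 ≤ -1 + B2 - B3 + n3)) := by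
    have h := C.t23
    clear C e0 e1 e2 s1 s2 s3
    omega
  have d2 : ((0 ≤ 1 - A1 + m13_1) ∧ (0 ≤ -1 + A1 - m13_1)) ∨ ((0 ≤ 1 - B3 + m13_1) ∧ (0 ≤ -1 + B3 - m13_1)) := by
    have h := C.f13_2
    clear C e0 e1 e2 s1 s2 s3
    omega
  have d4 : ((0 ≤ 0 - m13_2 + m13_3 - n3) ∧ (0 ≤ 0 + m13_2 - m13_3 + n3)) ∨ ((0 ≤ 1 - B3 + m13_3) ∧ (0 ≤ -1 + B3 - m13_3)) := by
    have h := C.f13_8
    clear C e0 e1 e2 s1 s2 s3
    omega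
  have d5 : ((0 ≤ 0 + m22_1 - n1) ∧ (0 ≤ 0 - m22_1 + n1)) ∨ ((0 ≤ 1 - B2 + m22_1) ∧ (0 ≤ -1 + B2 - m22_1)) := by
    have h := C.f22_2
    clear C e0 e1 e2 s1 s2 s3
    omega
  have d6 : ((0 ≤ 0 - m22_1 + m22_2 - n2) ∧ (0 ≤ 0 + m22_1 - m22_2 + n2)) ∨ ((0 ≤ 1 - B2 + m22_2) ∧ (0 ≤ -1 + B2 - m22_2)) := by
    have h := C.f22_5
    clear C e0 e1 e2 s1 s2 s3
    omega
  have d7 : ((0 ≤ 0 - A1)) ∨ ((0 ≤ 0 - B3)) ∨ ((0 ≤ 0 - B2)) ∨ ((0 ≤ -1 + 2 * B1 - m13_1 - m22_1)) ∨ ((0 ≤ -1 + 2 * B2 - m13_2 - m22_2)) ∨ ((0 ≤ -1 + 2 * B3 - m13_3 - m22_3)) := by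
    have h := C.p13_22B
    clear C e0 e1 e2 s1 s2 s3
    omega
  have d8 : ((0 ≤ 0 + A1 - A2)) ∨ ((0 ≤ 1 - A2 + A3 - n3)) ∨ ((0 ≤ 0 - B1 + B2 - n2)) ∨ ((0 ≤ 1 + B2 - B3)) ∨ ((0 ≤ -1 + A2 - B2) ∧ (0 ≤ 1 + A3 - B3)) := by
    have h := C.tzpm
    clear C e0 e1 e2 s1 s2 s3
    omega
  have d9 : ((0 ≤ 0 - A1)) ∨ ((0 ≤ 0 - A1 + A2 - n2)) ∨ ((0 ≤ 0 - A2 + A3 - n3)) ∨ ((0 ≤ 0 + B1 - n1)) ∨ ((0 ≤ 0 + B1 - B2)) ∨ ((0 ≤ 0 + B2 - B3)) ∨ ((0 ≤ 1 + A3 - B3)) ∨ ((0 ≤ 1 - A1 + B1) ∧ (0 ≤ 0 - A2 + B2)) := by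
    have h := C.tpzm
    clear C e0 e1 e2 s1 s2 s3
    omega
  rcases d2 with ⟨g1, g2⟩ | ⟨g3, g4⟩
  · rcases d4 with ⟨g5, g6⟩ | ⟨g7, g8⟩
    · linarith only [C.b5, s2, C.o1, g5, C.f13_7, C.f22_4]
    · rcases d7 with g9 | g10 | g11 | g12 | g13 | g14
      · linarith only [g9, e0]
      · linarith only [g10, e1]
      · linarith only [g11, e2]
      · linarith only [g12, s1, g2]
      · rcases d6 with ⟨g15, g16⟩ | ⟨g17, g18⟩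
        · rcases d5 with ⟨g19, g20⟩ | ⟨g21, g22⟩
          · linarith only [g19, s1, s2, C.a1, C.b3, C.o1, g2, g15, g13]
          · linarith only [C.a2, s1, s2, C.b3, C.o1, g2, g21, g15, g13]
        · linarith only [g17, s2, C.o1, g13]
      · rcases d8 with g23 | g24 | g25 | g26 | ⟨g27, g28⟩
        · rcases d1 with ⟨g29, g30⟩ | ⟨g31, g32⟩
          · linarith only [g29, g23]
          · rcases d9 with g33 | g34 | g35 | g36 | g37 | g38 | g39 | ⟨g40, g41⟩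
            · linarith only [g33, e0]
            · linarith only [g34, g23, g31, C.b3]
            · linarith only [C.o1, s3, g35, g8, C.f22_4, C.f22_6]
            · linarith only [C.o0, C.a1, g36]
            · linarith only [g37, g31]
            · linarith only [C.a4, s3, g38, C.o1, g8, g14]
            · linarith only [g39, s3, g8, g14]
            · linarith only [C.f22_1, s1, g23, g40, C.o1, g2]
        · linarith only [g24, s3, C.o1, g8, C.f22_4, C.f22_6]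
        · rcases d0 with ⟨g42, g43⟩ | ⟨g44, g45⟩
          · rcases d9 with g46 | g47 | g48 | g49 | g50 | g51 | g52 | ⟨g53, g54⟩
            · linarith only [g46, g42]
            · linarith only [g47, g43]
            · linarith only [s3, g48, C.o1, g8, C.f22_4, C.f22_6]
            · linarith only [s2, C.a1, g49, g25, C.o1, g2, C.f13_3, C.f22_4]
            · linarith only [g43, C.a2, g50, g25]
            · linarith only [C.o1, s3, C.a4, g51, g8, g14]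
            · linarith only [g52, s3, g8, g14]
            · linarith only [g53, s2, g25, C.o1, g2, C.f13_3, C.f22_4]
          · linarith only [g45, g25]
        · linarith only [g26, s3, C.a4, C.o1, g8, g14]
        · linarith only [g28, s3, g8, g14]
  · linarith only [C.a4, C.a2, C.o2, C.f13_0, g3]

theorem c0_13_13_22_k2 {n1 n2 n3 A1 A2 A3 B1 B2 B3 m11_1 m11_2 m11_3 m13_1 m13_2 m13_3 m22_1 m22_2 m22_3 m23_1 m23_2 m23_3 m33_1 m33_2 m33_3 : ℤ}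
    (C : Ctx0 n1 n2 n3 A1 A2 A3 B1 B2 B3 m11_1 m11_2 m11_3 m13_1 m13_2 m13_3 m22_1 m22_2 m22_3 m23_1 m23_2 m23_3 m33_1 m33_2 m33_3)
    (e0 : 0 < A1)
    (e1 : 0 < B3)
    (e2 : 0 < B2)
    (s1 : 2 * A1 + 1 * B1 ≤ m13_1 + m13_1 + m22_1)
    (s2 : 2 * A2 + 1 * B2 ≤ m13_2 + m13_2 + m22_2)
    (s3 : 2 * A3 + 1 * B3 ≤ m13_3 + m13_3 + m22_3) : False := by
  have d8 : ((0 ≤ 0 - A1)) ∨ ((0 ≤ 1 - A1 + A2 - n2)) ∨ ((0 ≤ 0 + B1 - n1)) ∨ ((0 ≤ 1 + B1 - B2)) ∨ ((0 ≤ 1 + A3 - B3)) := by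
    have h := C.tpmm
    clear C e0 e1 e2 s1 s2 s3
    omega
  have d9 : ((0 ≤ 0 - A1)) ∨ ((0 ≤ 1 - A1 + A2 - n2)) ∨ ((0 ≤ 0 + A2 - A3)) ∨ ((0 ≤ 0 + B1 - n1)) ∨ ((0 ≤ 1 + B1 - B2)) ∨ ((0 ≤ 0 - B2 + B3 - n3)) := by
    have h := C.tpmz
    clear C e0 e1 e2 s1 s2 s3
    omega
  rcases d8 with g1 | g2 | g3 | g4 | g5
  · linarith only [g1, e0]
  · linarith only [C.f22_4, s2, g2, C.f13_0, C.f13_3]
  · linarith only [g3, s1, C.f13_0, C.f22_0]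
  · linarith only [g4, s1, C.f13_0, C.f22_1]
  · rcases d9 with g6 | g7 | g8 | g9 | g10 | g11
    · linarith only [g6, e0]
    · linarith only [C.f22_4, s2, g7, C.f13_0, C.f13_3]
    · linarith only [g8, s2, g5, C.f13_4, C.f22_4]
    · linarith only [g9, s1, C.f13_0, C.f22_0]
    · linarith only [g10, s1, C.f13_0, C.f22_1]
    · linarith only [g11, s3, g5, C.f13_7, C.f22_4, C.f22_6]

theorem c0_13_13_22_k3 {n1 n2 n3 A1 A2 A3 B1 B2 B3 m11_1 m11_2 m11_3 m13_1 m13_2 m13_3 m22_1 m22_2 m22_3 m23_1 m23_2 m23_3 m33_1 m33_2 m33_3 : ℤ}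
    (C : Ctx0 n1 n2 n3 A1 A2 A3 B1 B2 B3 m11_1 m11_2 m11_3 m13_1 m13_2 m13_3 m22_1 m22_2 m22_3 m23_1 m23_2 m23_3 m33_1 m33_2 m33_3)
    (e0 : 0 < A1)
    (e1 : 0 < B3)
    (e2 : 0 < B2)
    (s1 : 3 * A1 + 0 * B1 ≤ m13_1 + m13_1 + m22_1)
    (s2 : 3 * A2 + 0 * B2 ≤ m13_2 + m13_2 + m22_2)
    (s3 : 3 * A3 + 0 * B3 ≤ m13_3 + m13_3 + m22_3) : False := by
  have d2 : ((0 ≤ 1 - A1 + m13_1) ∧ (0 ≤ -1 + A1 - m13_1)) ∨ ((0 ≤ 1 - B3 + m13_1) ∧ (0 ≤ -1 + B3 - m13_1)) := by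
    have h := C.f13_2
    clear C e0 e1 e2 s1 s2 s3
    omega
  have d4 : ((0 ≤ 0 - m13_2 + m13_3 - n3) ∧ (0 ≤ 0 + m13_2 - m13_3 + n3)) ∨ ((0 ≤ 1 - B3 + m13_3) ∧ (0 ≤ -1 + B3 - m13_3)) := by
    have h := C.f13_8
    clear C e0 e1 e2 s1 s2 s3
    omega
  have d7 : ((0 ≤ 0 + m23_1 - n1) ∧ (0 ≤ 0 - m23_1 + n1)) ∨ ((0 ≤ 1 - A2 + m23_1) ∧ (0 ≤ -1 + A2 - m23_1)) ∨ ((0 ≤ 1 - B3 + m23_1) ∧ (0 ≤ -1 + B3 - m23_1)) := by
    have h := C.f23_3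
    clear C e0 e1 e2 s1 s2 s3
    omega
  have d8 : ((0 ≤ 0 - m23_1 + m23_2 - n2) ∧ (0 ≤ 0 + m23_1 - m23_2 + n2)) ∨ ((0 ≤ 1 - A2 + m23_2) ∧ (0 ≤ -1 + A2 - m23_2)) ∨ ((0 ≤ 1 - B3 + m23_2) ∧ (0 ≤ -1 + B3 - m23_2)) := by
    have h := C.f23_7
    clear C e0 e1 e2 s1 s2 s3
    omega
  have d9 : ((0 ≤ 0 - m23_2 + m23_3 - n3) ∧ (0 ≤ 0 + m23_2 - m23_3 + n3)) ∨ ((0 ≤ 1 - B3 + m23_3) ∧ (0 ≤ -1 + B3 - m23_3)) := by
    have h := C.f23_10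
    clear C e0 e1 e2 s1 s2 s3
    omega
  have d10 : ((0 ≤ 0 - A1)) ∨ ((0 ≤ 0 - B3)) ∨ ((0 ≤ 0 - B2)) ∨ ((0 ≤ -1 + 2 * A1 - m13_1 - m22_1)) ∨ ((0 ≤ -1 + 2 * A2 - m13_2 - m22_2)) ∨ ((0 ≤ -1 + 2 * A3 - m13_3 - m22_3)) := by
    have h := C.p13_22A
    clear C e0 e1 e2 s1 s2 s3
    omega
  have d11 : ((0 ≤ 0 - A1)) ∨ ((0 ≤ 0 - B3)) ∨ ((0 ≤ 0 - A2)) ∨ ((0 ≤ -1 + 2 * A1 - m13_1 - m23_1)) ∨ ((0 ≤ -1 + 2 * A2 - m13_2 - m23_2)) ∨ ((0 ≤ -1 + 2 * A3 - m13_3 - m23_3)) := by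
    have h := C.p13_23A
    clear C e0 e1 e2 s1 s2 s3
    omega
  have d13 : ((0 ≤ 0 - A1)) ∨ ((0 ≤ 1 - A1 + A2 - n2)) ∨ ((0 ≤ 0 + B1 - n1)) ∨ ((0 ≤ 1 + B1 - B2)) ∨ ((0 ≤ 1 + A3 - B3)) := by
    have h := C.tpmm
    clear C e0 e1 e2 s1 s2 s3
    omega
  have d14 : ((0 ≤ 0 - A1)) ∨ ((0 ≤ 1 - A1 + A2 - n2)) ∨ ((0 ≤ 0 + A2 - A3)) ∨ ((0 ≤ 0 + B1 - n1)) ∨ ((0 ≤ 1 + B1 - B2)) ∨ ((0 ≤ 0 - B2 + B3 - n3)) := by
    have h := C.tpmz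
    clear C e0 e1 e2 s1 s2 s3
    omega
  rcases d13 with g1 | g2 | g3 | g4 | g5
  · linarith only [g1, e0]
  · linarith only [C.f22_4, s2, g2, C.o1, C.f13_0, C.f13_3]
  · linarith only [g3, s1, C.o0, C.f13_0, C.f22_0]
  · linarith only [g4, s1, C.o0, C.f13_0, C.f22_1]
  · rcases d10 with g6 | g7 | g8 | g9 | g10 | g11
    · linarith only [g6, e0]
    · linarith only [g7, e1]
    · linarith only [g8, e2]
    · linarith only [g9, s1, C.f13_0]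
    · rcases d14 with g12 | g13 | g14 | g15 | g16 | g17
      · linarith only [g12, e0]
      · linarith only [g13, s2, C.f13_0, C.f13_3, g10]
      · linarith only [g14, s2, g5, C.f13_4, g10]
      · linarith only [g15, s1, C.o0, C.f13_0, C.f22_0]
      · linarith only [g16, s1, C.o0, C.f13_0, C.f22_1]
      · rcases d2 with ⟨g18, g19⟩ | ⟨g20, g21⟩
        · rcases d4 with ⟨g22, g23⟩ | ⟨g24, g25⟩
          · linarith only [g22, s2, s3, g5, C.f13_7, C.f22_6, g10]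
          · rcases d7 with ⟨g26, g27⟩ | ⟨g28, g29⟩ | ⟨g30, g31⟩
            · rcases d8 with ⟨g32, g33⟩ | ⟨g34, g35⟩ | ⟨g36, g37⟩
              · linarith only [C.f23_5, s1, s2, g19, C.f13_3, C.f22_0, g26, g32, g10]
              · rcases d11 with g38 | g39 | g40 | g41 | g42 | g43
                · linarith only [g38, e0]
                · linarith only [g39, e1]
                · linarith only [e0, s1, s2, s3, g17, g5, g19, g25, C.f22_1, C.f22_6, g10, g40]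
                · linarith only [g41, s1, g19, C.f22_0, g26]
                · linarith only [g42, s2, g34, g10]
                · rcases d9 with ⟨g44, g45⟩ | ⟨g46, g47⟩
                  · linarith only [g44, s2, s3, g5, g25, C.f22_6, g34, g10, g43]
                  · linarith only [g46, C.o2, g24, g43]
              · linarith only [g36, s2, C.f13_4, C.f23_5, g10]
            · rcases d8 with ⟨g48, g49⟩ | ⟨g50, g51⟩ | ⟨g52, g53⟩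
              · linarith only [g48, s1, s2, s3, g17, g5, g19, C.f13_3, g25, C.f22_1, C.f22_6, g28, C.f23_5, g10]
              · rcases d11 with g54 | g55 | g56 | g57 | g58 | g59
                · linarith only [g54, e0]
                · linarith only [g55, e1]
                · linarith only [e0, s1, s2, s3, g17, g5, g19, g25, C.f22_1, C.f22_6, g10, g56]
                · linarith only [g57, s1, s2, s3, g17, g5, g19, g25, C.f22_1, C.f22_6, g28, g10]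
                · linarith only [g58, s2, g50, g10]
                · rcases d9 with ⟨g60, g61⟩ | ⟨g62, g63⟩
                  · linarith only [g60, s2, s3, g5, g25, C.f22_6, g50, g10, g59]
                  · linarith only [g62, C.o2, g24, g59]
              · linarith only [g52, s2, C.f13_4, C.f23_5, g10]
            · linarith only [g30, s2, C.f13_4, C.f23_1, g10]
        · linarith only [g20, s1, s2, s3, g17, g5, C.f13_0, C.f13_4, C.f13_7, C.f22_1, C.f22_6, g10]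
    · linarith only [g11, s3, g5, C.f13_7]

theorem c0_13_13_23_k0 {n1 n2 n3 A1 A2 A3 B1 B2 B3 m11_1 m11_2 m11_3 m13_1 m13_2 m13_3 m22_1 m22_2 m22_3 m23_1 m23_2 m23_3 m33_1 m33_2 m33_3 : ℤ}
    (C : Ctx0 n1 n2 n3 A1 A2 A3 B1 B2 B3 m11_1 m11_2 m11_3 m13_1 m13_2 m13_3 m22_1 m22_2 m22_3 m23_1 m23_2 m23_3 m33_1 m33_2 m33_3)
    (e0 : 0 < A1)
    (e1 : 0 < B3)
    (e2 : 0 < A2)
    (s1 : 0 * A1 + 3 * B1 ≤ m13_1 + m13_1 + m23_1)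
    (s2 : 0 * A2 + 3 * B2 ≤ m13_2 + m13_2 + m23_2)
    (s3 : 0 * A3 + 3 * B3 ≤ m13_3 + m13_3 + m23_3) : False := by
  linarith only [C.f23_9, s3, C.f13_7]

theorem c0_13_13_23_k1 {n1 n2 n3 A1 A2 A3 B1 B2 B3 m11_1 m11_2 m11_3 m13_1 m13_2 m13_3 m22_1 m22_2 m22_3 m23_1 m23_2 m23_3 m33_1 m33_2 m33_3 : ℤ}
    (C : Ctx0 n1 n2 n3 A1 A2 A3 B1 B2 B3 m11_1 m11_2 m11_3 m13_1 m13_2 m13_3 m22_1 m22_2 m22_3 m23_1 m23_2 m23_3 m33_1 m33_2 m33_3)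
    (e0 : 0 < A1)
    (e1 : 0 < B3)
    (e2 : 0 < A2)
    (s1 : 1 * A1 + 2 * B1 ≤ m13_1 + m13_1 + m23_1)
    (s2 : 1 * A2 + 2 * B2 ≤ m13_2 + m13_2 + m23_2)
    (s3 : 1 * A3 + 2 * B3 ≤ m13_3 + m13_3 + m23_3) : False := by
  have d0 : ((0 ≤ -1 + A1) ∧ (0 ≤ -1 + A1 - A2 + n2)) ∨ ((0 ≤ -1 + B1) ∧ (0 ≤ -1 + B1 - B2 + n2)) := by
    have h := C.t12
    clear C e0 e1 e2 s1 s2 s3
    omega
  have d1 : ((0 ≤ -1 - A1 + A2) ∧ (0 ≤ -1 + A2 - A3 + n3)) ∨ ((0 ≤ -1 - B1 + B2) ∧ (0 ≤ -1 + B2 - B3 + n3)) := by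
    have h := C.t23
    clear C e0 e1 e2 s1 s2 s3
    omega
  have d2 : ((0 ≤ 1 - A1 + m13_1) ∧ (0 ≤ -1 + A1 - m13_1)) ∨ ((0 ≤ 1 - B3 + m13_1) ∧ (0 ≤ -1 + B3 - m13_1)) := by
    have h := C.f13_2
    clear C e0 e1 e2 s1 s2 s3
    omega
  have d4 : ((0 ≤ 0 - m13_2 + m13_3 - n3) ∧ (0 ≤ 0 + m13_2 - m13_3 + n3)) ∨ ((0 ≤ 1 - B3 + m13_3) ∧ (0 ≤ -1 + B3 - m13_3)) := by
    have h := C.f13_8
    clear C e0 e1 e2 s1 s2 s3
    omega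
  have d5 : ((0 ≤ 0 + m23_1 - n1) ∧ (0 ≤ 0 - m23_1 + n1)) ∨ ((0 ≤ 1 - A2 + m23_1) ∧ (0 ≤ -1 + A2 - m23_1)) ∨ ((0 ≤ 1 - B3 + m23_1) ∧ (0 ≤ -1 + B3 - m23_1)) := by
    have h := C.f23_3
    clear C e0 e1 e2 s1 s2 s3
    omega
  have d8 : ((0 ≤ 0 + A1 - A2)) ∨ ((0 ≤ 1 - A2 + A3 - n3)) ∨ ((0 ≤ 0 - B1 + B2 - n2)) ∨ ((0 ≤ 1 + B2 - B3)) ∨ ((0 ≤ -1 + A2 - B2) ∧ (0 ≤ 1 + A3 - B3)) := by
    have h := C.tzpm
    clear C e0 e1 e2 s1 s2 s3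
    omega
  have d9 : ((0 ≤ 0 - A1)) ∨ ((0 ≤ 0 - A1 + A2 - n2)) ∨ ((0 ≤ 0 - A2 + A3 - n3)) ∨ ((0 ≤ 0 + B1 - n1)) ∨ ((0 ≤ 0 + B1 - B2)) ∨ ((0 ≤ 0 + B2 - B3)) ∨ ((0 ≤ 1 + A3 - B3)) ∨ ((0 ≤ 1 - A1 + B1) ∧ (0 ≤ 0 - A2 + B2)) := by
    have h := C.tpzm
    clear C e0 e1 e2 s1 s2 s3
    omega
  rcases d2 with ⟨g1, g2⟩ | ⟨g3, g4⟩
  · rcases d4 with ⟨g5, g6⟩ | ⟨g7, g8⟩
    · linarith only [C.f23_5, s2, C.b5, g5, C.f13_7]
    · rcases d8 with g9 | g10 | g11 | g12 | ⟨g13, g14⟩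
      · rcases d5 with ⟨g15, g16⟩ | ⟨g17, g18⟩ | ⟨g19, g20⟩
        · linarith only [g15, C.a1, g9, C.f23_1]
        · rcases d1 with ⟨g21, g22⟩ | ⟨g23, g24⟩
          · linarith only [g21, g9]
          · rcases d9 with g25 | g26 | g27 | g28 | g29 | g30 | g31 | ⟨g32, g33⟩
            · linarith only [g25, e0]
            · linarith only [g23, g9, g26, C.b3]
            · linarith only [C.o1, s3, g27, g24, g8, C.f23_9]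
            · linarith only [g28, s1, C.a1, g9, g2, g18]
            · linarith only [g29, g23]
            · linarith only [C.a4, s3, g30, C.o1, g8, C.f23_9]
            · linarith only [g31, s3, g8, C.f23_9]
            · linarith only [s1, g9, g32, g2, g18]
        · linarith only [g19, s3, C.a4, g8, C.f23_1, C.f23_9]
      · linarith only [g10, s3, g8, C.f23_5, C.f23_8]
      · rcases d0 with ⟨g34, g35⟩ | ⟨g36, g37⟩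
        · rcases d9 with g38 | g39 | g40 | g41 | g42 | g43 | g44 | ⟨g45, g46⟩
          · linarith only [g38, g34]
          · linarith only [g39, g35]
          · linarith only [g40, s3, g8, C.f23_5, C.f23_8]
          · linarith only [s2, C.a1, g41, g11, g2, C.f13_3, C.f23_5]
          · linarith only [g42, C.a2, g35, g11]
          · linarith only [C.o1, s3, C.a4, g43, g8, C.f23_9]
          · linarith only [g44, s3, g8, C.f23_9]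
          · linarith only [s2, g11, g45, g2, C.f13_3, C.f23_5]
        · linarith only [g37, g11]
      · linarith only [C.o1, s3, C.a4, g12, g8, C.f23_9]
      · linarith only [g14, s3, g8, C.f23_9]
  · linarith only [C.a2, s3, C.a4, C.f13_0, g3, C.f13_7, C.f23_9]

theorem c0_13_13_23_k2 {n1 n2 n3 A1 A2 A3 B1 B2 B3 m11_1 m11_2 m11_3 m13_1 m13_2 m13_3 m22_1 m22_2 m22_3 m23_1 m23_2 m23_3 m33_1 m33_2 m33_3 : ℤ}
    (C : Ctx0 n1 n2 n3 A1 A2 A3 B1 B2 B3 m11_1 m11_2 m11_3 m13_1 m13_2 m13_3 m22_1 m22_2 m22_3 m23_1 m23_2 m23_3 m33_1 m33_2 m33_3)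
    (e0 : 0 < A1)
    (e1 : 0 < B3)
    (e2 : 0 < A2)
    (s1 : 2 * A1 + 1 * B1 ≤ m13_1 + m13_1 + m23_1)
    (s2 : 2 * A2 + 1 * B2 ≤ m13_2 + m13_2 + m23_2)
    (s3 : 2 * A3 + 1 * B3 ≤ m13_3 + m13_3 + m23_3) : False := by
  have d0 : ((0 ≤ -1 + A1) ∧ (0 ≤ -1 + A1 - A2 + n2)) ∨ ((0 ≤ -1 + B1) ∧ (0 ≤ -1 + B1 - B2 + n2)) := by
    have h := C.t12
    clear C e0 e1 e2 s1 s2 s3
    omega
  have d1 : ((0 ≤ -1 - A1 + A2) ∧ (0 ≤ -1 + A2 - A3 + n3)) ∨ ((0 ≤ -1 - B1 + B2) ∧ (0 ≤ -1 + B2 - B3 + n3)) := by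
    have h := C.t23
    clear C e0 e1 e2 s1 s2 s3
    omega
  have d2 : ((0 ≤ 1 - A1 + m13_1) ∧ (0 ≤ -1 + A1 - m13_1)) ∨ ((0 ≤ 1 - B3 + m13_1) ∧ (0 ≤ -1 + B3 - m13_1)) := by
    have h := C.f13_2
    clear C e0 e1 e2 s1 s2 s3
    omega
  have d4 : ((0 ≤ 0 - m13_2 + m13_3 - n3) ∧ (0 ≤ 0 + m13_2 - m13_3 + n3)) ∨ ((0 ≤ 1 - B3 + m13_3) ∧ (0 ≤ -1 + B3 - m13_3)) := by
    have h := C.f13_8
    clear C e0 e1 e2 s1 s2 s3
    omega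
  have d5 : ((0 ≤ 0 + m23_1 - n1) ∧ (0 ≤ 0 - m23_1 + n1)) ∨ ((0 ≤ 1 - A2 + m23_1) ∧ (0 ≤ -1 + A2 - m23_1)) ∨ ((0 ≤ 1 - B3 + m23_1) ∧ (0 ≤ -1 + B3 - m23_1)) := by
    have h := C.f23_3
    clear C e0 e1 e2 s1 s2 s3
    omega
  have d8 : ((0 ≤ 0 + A1 - A2)) ∨ ((0 ≤ 1 - A2 + A3 - n3)) ∨ ((0 ≤ 0 - B1 + B2 - n2)) ∨ ((0 ≤ 1 + B2 - B3)) ∨ ((0 ≤ -1 + A2 - B2) ∧ (0 ≤ 1 + A3 - B3)) := by
    have h := C.tzpm
    clear C e0 e1 e2 s1 s2 s3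
    omega
  have d9 : ((0 ≤ 0 - A1)) ∨ ((0 ≤ 0 - A1 + A2 - n2)) ∨ ((0 ≤ 0 - A2 + A3 - n3)) ∨ ((0 ≤ 0 + B1 - n1)) ∨ ((0 ≤ 0 + B1 - B2)) ∨ ((0 ≤ 0 + B2 - B3)) ∨ ((0 ≤ 1 + A3 - B3)) ∨ ((0 ≤ 1 - A1 + B1) ∧ (0 ≤ 0 - A2 + B2)) := by
    have h := C.tpzm
    clear C e0 e1 e2 s1 s2 s3
    omega
  rcases d2 with ⟨g1, g2⟩ | ⟨g3, g4⟩
  · rcases d4 with ⟨g5, g6⟩ | ⟨g7, g8⟩
    · linarith only [C.b5, s2, C.o1, g5, C.f13_7, C.f23_5]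
    · rcases d8 with g9 | g10 | g11 | g12 | ⟨g13, g14⟩
      · rcases d5 with ⟨g15, g16⟩ | ⟨g17, g18⟩ | ⟨g19, g20⟩
        · linarith only [g15, C.a1, g9, C.f23_1]
        · rcases d1 with ⟨g21, g22⟩ | ⟨g23, g24⟩
          · linarith only [g21, g9]
          · rcases d9 with g25 | g26 | g27 | g28 | g29 | g30 | g31 | ⟨g32, g33⟩
            · linarith only [g25, e0]
            · linarith only [g23, g9, g26, C.b3]
            · linarith only [C.o1, s3, g27, g24, g8, C.f23_9]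
            · linarith only [g28, s1, C.a1, g9, g2, g18]
            · linarith only [g29, g23]
            · linarith only [C.a4, s3, g30, C.o1, g8, C.f23_9]
            · linarith only [g31, s3, g8, C.f23_9]
            · linarith only [g32, s1, g9, g2, g18]
        · linarith only [s3, C.a4, g8, C.f23_1, g19, C.f23_9]
      · linarith only [C.o1, s3, g10, C.b5, g8, C.f23_5, C.f23_8]
      · rcases d0 with ⟨g34, g35⟩ | ⟨g36, g37⟩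
        · rcases d9 with g38 | g39 | g40 | g41 | g42 | g43 | g44 | ⟨g45, g46⟩
          · linarith only [g38, g34]
          · linarith only [g39, g35]
          · linarith only [C.o1, s3, g40, C.b5, g8, C.f23_5, C.f23_8]
          · linarith only [g41, s1, g2, C.f23_0]
          · linarith only [C.a2, g35, g42, g11]
          · linarith only [C.o1, s2, g43, C.f13_4, C.f23_5]
          · linarith only [C.f23_9, s3, g44, g8]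
          · linarith only [s2, g11, g45, C.o1, g2, C.f13_3, C.f23_5]
        · linarith only [g37, g11]
      · linarith only [s2, g12, C.o1, C.f13_4, C.f23_5]
      · linarith only [g14, s3, g8, C.f23_9]
  · linarith only [C.a2, s3, C.a4, C.f13_0, g3, C.f13_7, C.f23_9]

theorem c0_13_13_23_k3 {n1 n2 n3 A1 A2 A3 B1 B2 B3 m11_1 m11_2 m11_3 m13_1 m13_2 m13_3 m22_1 m22_2 m22_3 m23_1 m23_2 m23_3 m33_1 m33_2 m33_3 : ℤ}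
    (C : Ctx0 n1 n2 n3 A1 A2 A3 B1 B2 B3 m11_1 m11_2 m11_3 m13_1 m13_2 m13_3 m22_1 m22_2 m22_3 m23_1 m23_2 m23_3 m33_1 m33_2 m33_3)
    (e0 : 0 < A1)
    (e1 : 0 < B3)
    (e2 : 0 < A2)
    (s1 : 3 * A1 + 0 * B1 ≤ m13_1 + m13_1 + m23_1)
    (s2 : 3 * A2 + 0 * B2 ≤ m13_2 + m13_2 + m23_2)
    (s3 : 3 * A3 + 0 * B3 ≤ m13_3 + m13_3 + m23_3) : False := by
  have d6 : ((0 ≤ 0 - m23_1 + m23_2 - n2) ∧ (0 ≤ 0 + m23_1 - m23_2 + n2)) ∨ ((0 ≤ 1 - A2 + m23_2) ∧ (0 ≤ -1 + A2 - m23_2)) ∨ ((0 ≤ 1 - B3 + m23_2) ∧ (0 ≤ -1 + B3 - m23_2)) := by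
    have h := C.f23_7
    clear C e0 e1 e2 s1 s2 s3
    omega
  have d7 : ((0 ≤ 0 - m23_2 + m23_3 - n3) ∧ (0 ≤ 0 + m23_2 - m23_3 + n3)) ∨ ((0 ≤ 1 - B3 + m23_3) ∧ (0 ≤ -1 + B3 - m23_3)) := by
    have h := C.f23_10
    clear C e0 e1 e2 s1 s2 s3
    omega
  have d8 : ((0 ≤ 0 - A1)) ∨ ((0 ≤ 0 - B3)) ∨ ((0 ≤ 0 - A2)) ∨ ((0 ≤ -1 + 2 * A1 - m13_1 - m23_1)) ∨ ((0 ≤ -1 + 2 * A2 - m13_2 - m23_2)) ∨ ((0 ≤ -1 + 2 * A3 - m13_3 - m23_3)) := by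
    have h := C.p13_23A
    clear C e0 e1 e2 s1 s2 s3
    omega
  rcases d6 with ⟨g1, g2⟩ | ⟨g3, g4⟩ | ⟨g5, g6⟩
  · linarith only [g1, s1, s2, C.f13_0, C.f13_3, C.f23_5]
  · rcases d8 with g7 | g8 | g9 | g10 | g11 | g12
    · linarith only [g7, e0]
    · linarith only [g8, e1]
    · linarith only [g9, e2]
    · linarith only [g10, s1, C.f13_0]
    · linarith only [g11, s2, g3]
    · rcases d7 with ⟨g13, g14⟩ | ⟨g15, g16⟩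
      · linarith only [g13, s3, C.b5, C.o1, C.f13_7, g3, g12]
      · linarith only [g15, s3, C.f13_7, g12]
  · linarith only [g5, s2, C.f13_4, C.f23_5]

theorem c0_13_13_33_k0 {n1 n2 n3 A1 A2 A3 B1 B2 B3 m11_1 m11_2 m11_3 m13_1 m13_2 m13_3 m22_1 m22_2 m22_3 m23_1 m23_2 m23_3 m33_1 m33_2 m33_3 : ℤ}
    (C : Ctx0 n1 n2 n3 A1 A2 A3 B1 B2 B3 m11_1 m11_2 m11_3 m13_1 m13_2 m13_3 m22_1 m22_2 m22_3 m23_1 m23_2 m23_3 m33_1 m33_2 m33_3)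
    (e0 : 0 < A1)
    (e1 : 0 < B3)
    (e2 : 0 < A3)
    (s1 : 0 * A1 + 3 * B1 ≤ m13_1 + m13_1 + m33_1)
    (s2 : 0 * A2 + 3 * B2 ≤ m13_2 + m13_2 + m33_2)
    (s3 : 0 * A3 + 3 * B3 ≤ m13_3 + m13_3 + m33_3) : False := by
  linarith only [C.f33_7, s3, C.o2, C.f13_7]

theorem c0_13_13_33_k1 {n1 n2 n3 A1 A2 A3 B1 B2 B3 m11_1 m11_2 m11_3 m13_1 m13_2 m13_3 m22_1 m22_2 m22_3 m23_1 m23_2 m23_3 m33_1 m33_2 m33_3 : ℤ}
    (C : Ctx0 n1 n2 n3 A1 A2 A3 B1 B2 B3 m11_1 m11_2 m11_3 m13_1 m13_2 m13_3 m22_1 m22_2 m22_3 m23_1 m23_2 m23_3 m33_1 m33_2 m33_3)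
    (e0 : 0 < A1)
    (e1 : 0 < B3)
    (e2 : 0 < A3)
    (s1 : 1 * A1 + 2 * B1 ≤ m13_1 + m13_1 + m33_1)
    (s2 : 1 * A2 + 2 * B2 ≤ m13_2 + m13_2 + m33_2)
    (s3 : 1 * A3 + 2 * B3 ≤ m13_3 + m13_3 + m33_3) : False := by
  linarith only [C.f33_7, s3, C.f13_7]

theorem c0_13_13_33_k2 {n1 n2 n3 A1 A2 A3 B1 B2 B3 m11_1 m11_2 m11_3 m13_1 m13_2 m13_3 m22_1 m22_2 m22_3 m23_1 m23_2 m23_3 m33_1 m33_2 m33_3 : ℤ}
    (C : Ctx0 n1 n2 n3 A1 A2 A3 B1 B2 B3 m11_1 m11_2 m11_3 m13_1 m13_2 m13_3 m22_1 m22_2 m22_3 m23_1 m23_2 m23_3 m33_1 m33_2 m33_3)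
    (e0 : 0 < A1)
    (e1 : 0 < B3)
    (e2 : 0 < A3)
    (s1 : 2 * A1 + 1 * B1 ≤ m13_1 + m13_1 + m33_1)
    (s2 : 2 * A2 + 1 * B2 ≤ m13_2 + m13_2 + m33_2)
    (s3 : 2 * A3 + 1 * B3 ≤ m13_3 + m13_3 + m33_3) : False := by
  have d0 : ((0 ≤ -1 + A1) ∧ (0 ≤ -1 + A1 - A2 + n2)) ∨ ((0 ≤ -1 + B1) ∧ (0 ≤ -1 + B1 - B2 + n2)) := by
    have h := C.t12
    clear C e0 e1 e2 s1 s2 s3
    omega
  have d1 : ((0 ≤ -1 - A1 + A2) ∧ (0 ≤ -1 + A2 - A3 + n3)) ∨ ((0 ≤ -1 - B1 + B2) ∧ (0 ≤ -1 + B2 - B3 + n3)) := by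
    have h := C.t23
    clear C e0 e1 e2 s1 s2 s3
    omega
  have d2 : ((0 ≤ 1 - A1 + m13_1) ∧ (0 ≤ -1 + A1 - m13_1)) ∨ ((0 ≤ 1 - B3 + m13_1) ∧ (0 ≤ -1 + B3 - m13_1)) := by
    have h := C.f13_2
    clear C e0 e1 e2 s1 s2 s3
    omega
  have d4 : ((0 ≤ 0 - m13_2 + m13_3 - n3) ∧ (0 ≤ 0 + m13_2 - m13_3 + n3)) ∨ ((0 ≤ 1 - B3 + m13_3) ∧ (0 ≤ -1 + B3 - m13_3)) := by
    have h := C.f13_8
    clear C e0 e1 e2 s1 s2 s3
    omega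
  have d6 : ((0 ≤ 0 - m33_1 + m33_2 - n2) ∧ (0 ≤ 0 + m33_1 - m33_2 + n2)) ∨ ((0 ≤ 1 - A3 + m33_2) ∧ (0 ≤ -1 + A3 - m33_2)) := by
    have h := C.f33_5
    clear C e0 e1 e2 s1 s2 s3
    omega
  have d8 : ((0 ≤ 0 - A1)) ∨ ((0 ≤ 0 - B3)) ∨ ((0 ≤ 0 - A3)) ∨ ((0 ≤ -1 + 2 * A1 - m13_1 - m33_1)) ∨ ((0 ≤ -1 + 2 * A2 - m13_2 - m33_2)) ∨ ((0 ≤ -1 + 2 * A3 - m13_3 - m33_3)) := by
    have h := C.p13_33A
    clear C e0 e1 e2 s1 s2 s3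
    omega
  have d9 : ((0 ≤ 0 + A1 - A2)) ∨ ((0 ≤ 1 - A2 + A3 - n3)) ∨ ((0 ≤ 0 - B1 + B2 - n2)) ∨ ((0 ≤ 1 + B2 - B3)) ∨ ((0 ≤ -1 + A2 - B2) ∧ (0 ≤ 1 + A3 - B3)) := by
    have h := C.tzpm
    clear C e0 e1 e2 s1 s2 s3
    omega
  have d10 : ((0 ≤ 0 - A1)) ∨ ((0 ≤ 0 - A1 + A2 - n2)) ∨ ((0 ≤ 0 - A2 + A3 - n3)) ∨ ((0 ≤ 0 + B1 - n1)) ∨ ((0 ≤ 0 + B1 - B2)) ∨ ((0 ≤ 0 + B2 - B3)) ∨ ((0 ≤ 1 + A3 - B3)) ∨ ((0 ≤ 1 - A1 + B1) ∧ (0 ≤ 0 - A2 + B2)) := by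
    have h := C.tpzm
    clear C e0 e1 e2 s1 s2 s3
    omega
  rcases d2 with ⟨g1, g2⟩ | ⟨g3, g4⟩
  · rcases d8 with g5 | g6 | g7 | g8 | g9 | g10
    · linarith only [g5, e0]
    · linarith only [g6, e1]
    · linarith only [g7, e2]
    · rcases d10 with g11 | g12 | g13 | g14 | g15 | g16 | g17 | ⟨g18, g19⟩
      · linarith only [g11, e0]
      · rcases d0 with ⟨g20, g21⟩ | ⟨g22, g23⟩
        · linarith only [g21, g12]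
        · rcases d9 with g24 | g25 | g26 | g27 | ⟨g28, g29⟩
          · linarith only [g24, g12, C.b2, g23]
          · linarith only [g25, s1, s3, g12, g23, C.b5, g2, C.f13_7, C.f33_7, g8]
          · linarith only [g26, g23]
          · linarith only [g27, s1, s3, g12, C.a4, g23, g2, C.f13_7, C.f33_7, g8]
          · linarith only [g29, s3, C.f13_7, C.f33_7]
      · linarith only [C.o1, s3, g13, C.b5, C.f13_7, C.f33_7]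
      · linarith only [g14, s1, g2, C.f33_0]
      · rcases d1 with ⟨g30, g31⟩ | ⟨g32, g33⟩
        · rcases d9 with g34 | g35 | g36 | g37 | ⟨g38, g39⟩
          · linarith only [g34, g30]
          · linarith only [g35, s1, s3, g30, g15, C.b5, g2, C.f13_7, C.f33_7, g8]
          · linarith only [C.a3, g30, g15, g36]
          · linarith only [g37, s1, s3, g30, C.a4, g15, g2, C.f13_7, C.f33_7, g8]
          · linarith only [g39, s3, C.f13_7, C.f33_7]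
        · linarith only [g32, g15]
      · linarith only [C.a4, s3, g16, C.o1, C.f13_7, C.f33_7]
      · linarith only [g17, s3, C.f13_7, C.f33_7]
      · linarith only [g18, s1, g2, g8]
    · rcases d4 with ⟨g40, g41⟩ | ⟨g42, g43⟩
      · linarith only [g9, s2, C.b5, g40, C.f13_7]
      · rcases d9 with g44 | g45 | g46 | g47 | ⟨g48, g49⟩
        · rcases d1 with ⟨g50, g51⟩ | ⟨g52, g53⟩
          · linarith only [g50, g44]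
          · rcases d10 with g54 | g55 | g56 | g57 | g58 | g59 | g60 | ⟨g61, g62⟩
            · linarith only [g54, e0]
            · linarith only [C.b3, g44, g55, g52]
            · linarith only [C.o1, s3, g56, g53, g43, C.f33_7]
            · linarith only [g57, s1, g2, C.f33_0]
            · linarith only [g58, g52]
            · linarith only [C.a4, s3, g59, C.o1, g43, C.f33_7]
            · linarith only [g60, s3, g43, C.f33_7]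
            · rcases d6 with ⟨g63, g64⟩ | ⟨g65, g66⟩
              · linarith only [s2, s1, g61, g62, g2, C.f13_3, g63, g9]
              · linarith only [g65, s1, s2, g44, g61, g62, g2, C.f33_1, g9]
        · linarith only [g45, s3, C.b5, C.o1, g43, C.f33_7]
        · rcases d0 with ⟨g67, g68⟩ | ⟨g69, g70⟩
          · rcases d10 with g71 | g72 | g73 | g74 | g75 | g76 | g77 | ⟨g78, g79⟩
            · linarith only [g71, g67]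
            · linarith only [g72, g68]
            · linarith only [g73, s3, C.b5, C.o1, g43, C.f33_7]
            · linarith only [s2, C.a1, g74, g46, g2, C.f13_3, g9]
            · linarith only [g68, C.a2, g75, g46]
            · linarith only [C.o1, s3, C.a4, g76, g43, C.f33_7]
            · linarith only [g77, s3, g43, C.f33_7]
            · linarith only [g78, s2, g46, g2, C.f13_3, g9]
          · linarith only [g70, g46]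
        · linarith only [s2, g47, C.f13_4, g9]
        · linarith only [g49, s3, g43, C.f33_7]
    · linarith only [g10, s3, C.f13_7]
  · linarith only [C.a2, s3, C.a4, C.f13_0, g3, C.f13_7, C.f33_7]

theorem c0_13_13_33_k3 {n1 n2 n3 A1 A2 A3 B1 B2 B3 m11_1 m11_2 m11_3 m13_1 m13_2 m13_3 m22_1 m22_2 m22_3 m23_1 m23_2 m23_3 m33_1 m33_2 m33_3 : ℤ}
    (C : Ctx0 n1 n2 n3 A1 A2 A3 B1 B2 B3 m11_1 m11_2 m11_3 m13_1 m13_2 m13_3 m22_1 m22_2 m22_3 m23_1 m23_2 m23_3 m33_1 m33_2 m33_3)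
    (e0 : 0 < A1)
    (e1 : 0 < B3)
    (e2 : 0 < A3)
    (s1 : 3 * A1 + 0 * B1 ≤ m13_1 + m13_1 + m33_1)
    (s2 : 3 * A2 + 0 * B2 ≤ m13_2 + m13_2 + m33_2)
    (s3 : 3 * A3 + 0 * B3 ≤ m13_3 + m13_3 + m33_3) : False := by
  have d2 : ((0 ≤ 1 - A1 + m13_1) ∧ (0 ≤ -1 + A1 - m13_1)) ∨ ((0 ≤ 1 - B3 + m13_1) ∧ (0 ≤ -1 + B3 - m13_1)) := by
    have h := C.f13_2
    clear C e0 e1 e2 s1 s2 s3
    omega
  have d6 : ((0 ≤ 0 - m33_1 + m33_2 - n2) ∧ (0 ≤ 0 + m33_1 - m33_2 + n2)) ∨ ((0 ≤ 1 - A3 + m33_2) ∧ (0 ≤ -1 + A3 - m33_2)) := by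
    have h := C.f33_5
    clear C e0 e1 e2 s1 s2 s3
    omega
  have d7 : ((0 ≤ 0 - m33_2 + m33_3 - n3) ∧ (0 ≤ 0 + m33_2 - m33_3 + n3)) ∨ ((0 ≤ 1 - A3 + m33_3) ∧ (0 ≤ -1 + A3 - m33_3)) := by
    have h := C.f33_8
    clear C e0 e1 e2 s1 s2 s3
    omega
  have d8 : ((0 ≤ 0 - A1)) ∨ ((0 ≤ 0 - B3)) ∨ ((0 ≤ 0 - A3)) ∨ ((0 ≤ -1 + 2 * A1 - m13_1 - m33_1)) ∨ ((0 ≤ -1 + 2 * A2 - m13_2 - m33_2)) ∨ ((0 ≤ -1 + 2 * A3 - m13_3 - m33_3)) := by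
    have h := C.p13_33A
    clear C e0 e1 e2 s1 s2 s3
    omega
  rcases d2 with ⟨g1, g2⟩ | ⟨g3, g4⟩
  · rcases d8 with g5 | g6 | g7 | g8 | g9 | g10
    · linarith only [g5, e0]
    · linarith only [g6, e1]
    · linarith only [g7, e2]
    · linarith only [g8, s1, g2]
    · rcases d6 with ⟨g11, g12⟩ | ⟨g13, g14⟩
      · linarith only [g11, s1, s2, g2, C.f13_3, g9]
      · linarith only [g13, s2, C.a4, g9]
    · rcases d7 with ⟨g15, g16⟩ | ⟨g17, g18⟩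
      · rcases d6 with ⟨g19, g20⟩ | ⟨g21, g22⟩
        · linarith only [g19, s1, s2, s3, C.b5, C.o1, g2, C.f13_3, C.f13_7, g15, g10]
        · linarith only [g21, s2, s3, C.b5, C.o1, C.f13_4, C.f13_7, g15, g10]
      · linarith only [g17, s3, g10]
  · linarith only [g3, s1, s3, C.f13_0, C.f13_7, C.f33_1, C.f33_7]

end Pool.Agent.Helper89.TQ
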