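import Pool.Agent.Helper89.TQ.Ctx

set_option autoImplicit false
set_option linter.all false
set_option maxHeartbeats 4000000

namespace Pool.Agent.Helper89.TQ

theorem c0_13_23_23_k0 {n1 n2 n3 A1 A2 A3 B1 B2 B3 m11_1 m11_2 m11_3 m13_1 m13_2 m13_3 m22_1 m22_2 m22_3 m23_1 m23_2 m23_3 m33_1 m33_2 m33_3 : ℤ}
    (C : Ctx0 n1 n2 n3 A1 A2 A3 B1 B2 B3 m11_1 m11_2 m11_3 m13_1 m13_2 m13_3 m22_1 m22_2 m22_3 m23_1 m23_2 m23_3 m33_1 m33_2 m33_3)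
    (e0 : 0 < A1)
    (e1 : 0 < B3)
    (e2 : 0 < A2)
    (s1 : 0 * A1 + 3 * B1 ≤ m13_1 + m23_1 + m23_1)
    (s2 : 0 * A2 + 3 * B2 ≤ m13_2 + m23_2 + m23_2)
    (s3 : 0 * A3 + 3 * B3 ≤ m13_3 + m23_3 + m23_3) : False := by
  linarith only [C.f23_9, s3, C.f13_7]

theorem c0_13_23_23_k1 {n1 n2 n3 A1 A2 A3 B1 B2 B3 m11_1 m11_2 m11_3 m13_1 m13_2 m13_3 m22_1 m22_2 m22_3 m23_1 m23_2 m23_3 m33_1 m33_2 m33_3 : ℤ}
    (C : Ctx0 n1 n2 n3 A1 A2 A3 B1 B2 B3 m11_1 m11_2 m11_3 m13_1 m13_2 m13_3 m22_1 m22_2 m22_3 m23_1 m23_2 m23_3 m33_1 m33_2 m33_3)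
    (e0 : 0 < A1)
    (e1 : 0 < B3)
    (e2 : 0 < A2)
    (s1 : 1 * A1 + 2 * B1 ≤ m13_1 + m23_1 + m23_1)
    (s2 : 1 * A2 + 2 * B2 ≤ m13_2 + m23_2 + m23_2)
    (s3 : 1 * A3 + 2 * B3 ≤ m13_3 + m23_3 + m23_3) : False := by
  have d0 : ((0 ≤ -1 + A1) ∧ (0 ≤ -1 + A1 - A2 + n2)) ∨ ((0 ≤ -1 + B1) ∧ (0 ≤ -1 + B1 - B2 + n2)) := by
    have h := C.t12
    clear C e0 e1 e2 s1 s2 s3
    omega
  have d1 : ((0 ≤ -1 - A1 + A2) ∧ (0 ≤ -1 + A2 - A3 + n3)) ∨ ((0 ≤ -1 - B1 + B2) ∧ (0 ≤ -1 + B2 - B3 + n3)) := by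
    have h := C.t23
    clear C e0 e1 e2 s1 s2 s3
    omega
  have d2 : ((0 ≤ 1 - A1 + m13_1) ∧ (0 ≤ -1 + A1 - m13_1)) ∨ ((0 ≤ 1 - B3 + m13_1) ∧ (0 ≤ -1 + B3 - m13_1)) := by
    have h := C.f13_2
    clear C e0 e1 e2 s1 s2 s3
    omega
  have d5 : ((0 ≤ 0 + m23_1 - n1) ∧ (0 ≤ 0 - m23_1 + n1)) ∨ ((0 ≤ 1 - A2 + m23_1) ∧ (0 ≤ -1 + A2 - m23_1)) ∨ ((0 ≤ 1 - B3 + m23_1) ∧ (0 ≤ -1 + B3 - m23_1)) := by
    have h := C.f23_3
    clear C e0 e1 e2 s1 s2 s3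
    omega
  have d8 : ((0 ≤ 0 + A1 - A2)) ∨ ((0 ≤ 1 - A2 + A3 - n3)) ∨ ((0 ≤ 0 - B1 + B2 - n2)) ∨ ((0 ≤ 1 + B2 - B3)) ∨ ((0 ≤ -1 + A2 - B2) ∧ (0 ≤ 1 + A3 - B3)) := by
    have h := C.tzpm
    clear C e0 e1 e2 s1 s2 s3
    omega
  have d9 : ((0 ≤ 0 - A1)) ∨ ((0 ≤ 0 - A1 + A2 - n2)) ∨ ((0 ≤ 0 - A2 + A3 - n3)) ∨ ((0 ≤ 0 + B1 - n1)) ∨ ((0 ≤ 0 + B1 - B2)) ∨ ((0 ≤ 0 + B2 - B3)) ∨ ((0 ≤ 1 + A3 - B3)) ∨ ((0 ≤ 1 - A1 + B1) ∧ (0 ≤ 0 - A2 + B2)) := by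
    have h := C.tpzm
    clear C e0 e1 e2 s1 s2 s3
    omega
  rcases d2 with ⟨g1, g2⟩ | ⟨g3, g4⟩
  · rcases d8 with g5 | g6 | g7 | g8 | ⟨g9, g10⟩
    · rcases d5 with ⟨g11, g12⟩ | ⟨g13, g14⟩ | ⟨g15, g16⟩
      · linarith only [g11, C.a1, g5, C.f23_1]
      · rcases d1 with ⟨g17, g18⟩ | ⟨g19, g20⟩
        · linarith only [g17, g5]
        · rcases d9 with g21 | g22 | g23 | g24 | g25 | g26 | g27 | ⟨g28, g29⟩
          · linarith only [g21, e0]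
          · linarith only [g19, g5, g22, C.b3]
          · linarith only [C.o1, s3, g23, g20, C.f13_7, C.f23_9]
          · linarith only [g24, s1, C.a1, g5, g2, g14]
          · linarith only [g25, g19]
          · linarith only [C.a4, s3, g26, C.o1, C.f13_7, C.f23_9]
          · linarith only [g27, s3, C.f13_7, C.f23_9]
          · linarith only [g28, s1, g5, g2, g14]
      · linarith only [g15, s3, C.a4, C.f13_7, C.f23_1, C.f23_9]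
    · linarith only [g6, s3, C.f13_7, C.f23_5, C.f23_8, C.f23_9]
    · rcases d0 with ⟨g30, g31⟩ | ⟨g32, g33⟩
      · rcases d9 with g34 | g35 | g36 | g37 | g38 | g39 | g40 | ⟨g41, g42⟩
        · linarith only [g34, g30]
        · linarith only [g35, g31]
        · linarith only [g36, s3, C.f13_7, C.f23_5, C.f23_8, C.f23_9]
        · linarith only [g31, s2, C.a1, g37, g7, g2, C.f13_3, C.f23_5]
        · linarith only [g38, C.a2, g31, g7]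
        · linarith only [C.o1, s3, C.a4, g39, C.f13_7, C.f23_9]
        · linarith only [g40, s3, C.f13_7, C.f23_9]
        · linarith only [g41, s2, g7, g42, g2, C.f13_3, C.f23_5]
      · linarith only [g33, g7]
    · linarith only [C.o1, s3, C.a4, g8, C.f13_7, C.f23_9]
    · linarith only [g10, s3, C.f13_7, C.f23_9]
  · linarith only [C.a2, s3, C.a4, C.f13_0, g3, C.f13_7, C.f23_9]

theorem c0_13_23_23_k2 {n1 n2 n3 A1 A2 A3 B1 B2 B3 m11_1 m11_2 m11_3 m13_1 m13_2 m13_3 m22_1 m22_2 m22_3 m23_1 m23_2 m23_3 m33_1 m33_2 m33_3 : ℤ}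
    (C : Ctx0 n1 n2 n3 A1 A2 A3 B1 B2 B3 m11_1 m11_2 m11_3 m13_1 m13_2 m13_3 m22_1 m22_2 m22_3 m23_1 m23_2 m23_3 m33_1 m33_2 m33_3)
    (e0 : 0 < A1)
    (e1 : 0 < B3)
    (e2 : 0 < A2)
    (s1 : 2 * A1 + 1 * B1 ≤ m13_1 + m23_1 + m23_1)
    (s2 : 2 * A2 + 1 * B2 ≤ m13_2 + m23_2 + m23_2)
    (s3 : 2 * A3 + 1 * B3 ≤ m13_3 + m23_3 + m23_3) : False := by
  have d0 : ((0 ≤ -1 + A1) ∧ (0 ≤ -1 + A1 - A2 + n2)) ∨ ((0 ≤ -1 + B1) ∧ (0 ≤ -1 + B1 - B2 + n2)) := by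
    have h := C.t12
    clear C e0 e1 e2 s1 s2 s3
    omega
  have d1 : ((0 ≤ -1 - A1 + A2) ∧ (0 ≤ -1 + A2 - A3 + n3)) ∨ ((0 ≤ -1 - B1 + B2) ∧ (0 ≤ -1 + B2 - B3 + n3)) := by
    have h := C.t23
    clear C e0 e1 e2 s1 s2 s3
    omega
  have d2 : ((0 ≤ 1 - A1 + m13_1) ∧ (0 ≤ -1 + A1 - m13_1)) ∨ ((0 ≤ 1 - B3 + m13_1) ∧ (0 ≤ -1 + B3 - m13_1)) := by
    have h := C.f13_2
    clear C e0 e1 e2 s1 s2 s3
    omega
  have d4 : ((0 ≤ 0 - m13_2 + m13_3 - n3) ∧ (0 ≤ 0 + m13_2 - m13_3 + n3)) ∨ ((0 ≤ 1 - B3 + m13_3) ∧ (0 ≤ -1 + B3 - m13_3)) := by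
    have h := C.f13_8
    clear C e0 e1 e2 s1 s2 s3
    omega
  have d5 : ((0 ≤ 0 + m23_1 - n1) ∧ (0 ≤ 0 - m23_1 + n1)) ∨ ((0 ≤ 1 - A2 + m23_1) ∧ (0 ≤ -1 + A2 - m23_1)) ∨ ((0 ≤ 1 - B3 + m23_1) ∧ (0 ≤ -1 + B3 - m23_1)) := by
    have h := C.f23_3
    clear C e0 e1 e2 s1 s2 s3
    omega
  have d8 : ((0 ≤ 0 + A1 - A2)) ∨ ((0 ≤ 1 - A2 + A3 - n3)) ∨ ((0 ≤ 0 - B1 + B2 - n2)) ∨ ((0 ≤ 1 + B2 - B3)) ∨ ((0 ≤ -1 + A2 - B2) ∧ (0 ≤ 1 + A3 - B3)) := by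
    have h := C.tzpm
    clear C e0 e1 e2 s1 s2 s3
    omega
  have d9 : ((0 ≤ 0 - A1)) ∨ ((0 ≤ 0 - A1 + A2 - n2)) ∨ ((0 ≤ 0 - A2 + A3 - n3)) ∨ ((0 ≤ 0 + B1 - n1)) ∨ ((0 ≤ 0 + B1 - B2)) ∨ ((0 ≤ 0 + B2 - B3)) ∨ ((0 ≤ 1 + A3 - B3)) ∨ ((0 ≤ 1 - A1 + B1) ∧ (0 ≤ 0 - A2 + B2)) := by
    have h := C.tpzm
    clear C e0 e1 e2 s1 s2 s3
    omega
  rcases d2 with ⟨g1, g2⟩ | ⟨g3, g4⟩
  · rcases d4 with ⟨g5, g6⟩ | ⟨g7, g8⟩
    · linarith only [C.b5, s2, g5, C.f13_7, C.f23_5]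
    · rcases d8 with g9 | g10 | g11 | g12 | ⟨g13, g14⟩
      · rcases d5 with ⟨g15, g16⟩ | ⟨g17, g18⟩ | ⟨g19, g20⟩
        · linarith only [g15, C.a1, g9, C.f23_1]
        · rcases d1 with ⟨g21, g22⟩ | ⟨g23, g24⟩
          · linarith only [g21, g9]
          · rcases d9 with g25 | g26 | g27 | g28 | g29 | g30 | g31 | ⟨g32, g33⟩
            · linarith only [g25, e0]
            · linarith only [g23, g9, g26, C.b3]
            · linarith only [C.o1, s3, g27, g24, g8, C.f23_9]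
            · linarith only [g28, s1, C.a1, g9, g2, g18]
            · linarith only [g29, g23]
            · linarith only [C.a4, s3, g30, C.o1, g8, C.f23_9]
            · linarith only [g31, s3, g8, C.f23_9]
            · linarith only [g32, s1, g9, g2, g18]
        · linarith only [s3, C.a4, g8, C.f23_1, g19, C.f23_9]
      · linarith only [s3, g10, g8, C.f23_5, C.f23_8]
      · rcases d0 with ⟨g34, g35⟩ | ⟨g36, g37⟩
        · rcases d9 with g38 | g39 | g40 | g41 | g42 | g43 | g44 | ⟨g45, g46⟩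
          · linarith only [g38, g34]
          · linarith only [g39, g35]
          · linarith only [s3, g40, g8, C.f23_5, C.f23_8]
          · linarith only [g41, s2, C.a1, g11, g2, C.f13_3, C.f23_5]
          · linarith only [g35, C.a2, g42, g11]
          · linarith only [g43, s2, C.f13_4, C.f23_5]
          · linarith only [g44, s3, g8, C.f23_9]
          · linarith only [g45, s2, g11, g2, C.f13_3, C.f23_5]
        · linarith only [g37, g11]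
      · linarith only [g12, s2, C.f13_4, C.f23_5]
      · linarith only [g14, s3, g8, C.f23_9]
  · linarith only [C.a2, s3, C.a4, C.f13_0, g3, C.f13_7, C.f23_9]

theorem c0_13_23_23_k3 {n1 n2 n3 A1 A2 A3 B1 B2 B3 m11_1 m11_2 m11_3 m13_1 m13_2 m13_3 m22_1 m22_2 m22_3 m23_1 m23_2 m23_3 m33_1 m33_2 m33_3 : ℤ}
    (C : Ctx0 n1 n2 n3 A1 A2 A3 B1 B2 B3 m11_1 m11_2 m11_3 m13_1 m13_2 m13_3 m22_1 m22_2 m22_3 m23_1 m23_2 m23_3 m33_1 m33_2 m33_3)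
    (e0 : 0 < A1)
    (e1 : 0 < B3)
    (e2 : 0 < A2)
    (s1 : 3 * A1 + 0 * B1 ≤ m13_1 + m23_1 + m23_1)
    (s2 : 3 * A2 + 0 * B2 ≤ m13_2 + m23_2 + m23_2)
    (s3 : 3 * A3 + 0 * B3 ≤ m13_3 + m23_3 + m23_3) : False := by
  have d2 : ((0 ≤ 1 - A1 + m13_1) ∧ (0 ≤ -1 + A1 - m13_1)) ∨ ((0 ≤ 1 - B3 + m13_1) ∧ (0 ≤ -1 + B3 - m13_1)) := by
    have h := C.f13_2
    clear C e0 e1 e2 s1 s2 s3
    omega
  have d4 : ((0 ≤ 0 - m13_2 + m13_3 - n3) ∧ (0 ≤ 0 + m13_2 - m13_3 + n3)) ∨ ((0 ≤ 1 - B3 + m13_3) ∧ (0 ≤ -1 + B3 - m13_3)) := by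
    have h := C.f13_8
    clear C e0 e1 e2 s1 s2 s3
    omega
  have d6 : ((0 ≤ 0 - m23_1 + m23_2 - n2) ∧ (0 ≤ 0 + m23_1 - m23_2 + n2)) ∨ ((0 ≤ 1 - A2 + m23_2) ∧ (0 ≤ -1 + A2 - m23_2)) ∨ ((0 ≤ 1 - B3 + m23_2) ∧ (0 ≤ -1 + B3 - m23_2)) := by
    have h := C.f23_7
    clear C e0 e1 e2 s1 s2 s3
    omega
  have d8 : ((0 ≤ 0 - A1)) ∨ ((0 ≤ 0 - B3)) ∨ ((0 ≤ 0 - A2)) ∨ ((0 ≤ -1 + 2 * A1 - m13_1 - m23_1)) ∨ ((0 ≤ -1 + 2 * A2 - m13_2 - m23_2)) ∨ ((0 ≤ -1 + 2 * A3 - m13_3 - m23_3)) := by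
    have h := C.p13_23A
    clear C e0 e1 e2 s1 s2 s3
    omega
  rcases d6 with ⟨g1, g2⟩ | ⟨g3, g4⟩ | ⟨g5, g6⟩
  · linarith only [g1, s1, s2, C.f13_0, C.f13_3, C.f23_5]
  · rcases d2 with ⟨g7, g8⟩ | ⟨g9, g10⟩
    · rcases d8 with g11 | g12 | g13 | g14 | g15 | g16
      · linarith only [g11, e0]
      · linarith only [g12, e1]
      · linarith only [g13, e2]
      · linarith only [g14, s1, g7]
      · linarith only [g15, s2, g4]
      · rcases d4 with ⟨g17, g18⟩ | ⟨g19, g20⟩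
        · linarith only [C.a5, s2, s3, g17, g4, g16]
        · linarith only [g19, s3, C.f23_9, g16]
    · linarith only [g9, s1, s2, C.f13_0, C.f13_4, C.f23_1, g4]
  · linarith only [g5, s2, C.f13_4, C.f23_5]

theorem c0_13_23_33_k0 {n1 n2 n3 A1 A2 A3 B1 B2 B3 m11_1 m11_2 m11_3 m13_1 m13_2 m13_3 m22_1 m22_2 m22_3 m23_1 m23_2 m23_3 m33_1 m33_2 m33_3 : ℤ}
    (C : Ctx0 n1 n2 n3 A1 A2 A3 B1 B2 B3 m11_1 m11_2 m11_3 m13_1 m13_2 m13_3 m22_1 m22_2 m22_3 m23_1 m23_2 m23_3 m33_1 m33_2 m33_3)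
    (e0 : 0 < A1)
    (e1 : 0 < B3)
    (e2 : 0 < A2)
    (e3 : 0 < A3)
    (s1 : 0 * A1 + 3 * B1 ≤ m13_1 + m23_1 + m33_1)
    (s2 : 0 * A2 + 3 * B2 ≤ m13_2 + m23_2 + m33_2)
    (s3 : 0 * A3 + 3 * B3 ≤ m13_3 + m23_3 + m33_3) : False := by
  linarith only [C.f33_7, s3, C.o2, C.f13_7, C.f23_9]

theorem c0_13_23_33_k1 {n1 n2 n3 A1 A2 A3 B1 B2 B3 m11_1 m11_2 m11_3 m13_1 m13_2 m13_3 m22_1 m22_2 m22_3 m23_1 m23_2 m23_3 m33_1 m33_2 m33_3 : ℤ}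
    (C : Ctx0 n1 n2 n3 A1 A2 A3 B1 B2 B3 m11_1 m11_2 m11_3 m13_1 m13_2 m13_3 m22_1 m22_2 m22_3 m23_1 m23_2 m23_3 m33_1 m33_2 m33_3)
    (e0 : 0 < A1)
    (e1 : 0 < B3)
    (e2 : 0 < A2)
    (e3 : 0 < A3)
    (s1 : 1 * A1 + 2 * B1 ≤ m13_1 + m23_1 + m33_1)
    (s2 : 1 * A2 + 2 * B2 ≤ m13_2 + m23_2 + m33_2)
    (s3 : 1 * A3 + 2 * B3 ≤ m13_3 + m23_3 + m33_3) : False := by
  linarith only [C.f33_7, s3, C.f13_7, C.f23_9]

theorem c0_13_23_33_k3 {n1 n2 n3 A1 A2 A3 B1 B2 B3 m11_1 m11_2 m11_3 m13_1 m13_2 m13_3 m22_1 m22_2 m22_3 m23_1 m23_2 m23_3 m33_1 m33_2 m33_3 : ℤ}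
    (C : Ctx0 n1 n2 n3 A1 A2 A3 B1 B2 B3 m11_1 m11_2 m11_3 m13_1 m13_2 m13_3 m22_1 m22_2 m22_3 m23_1 m23_2 m23_3 m33_1 m33_2 m33_3)
    (e0 : 0 < A1)
    (e1 : 0 < B3)
    (e2 : 0 < A2)
    (e3 : 0 < A3)
    (s1 : 3 * A1 + 0 * B1 ≤ m13_1 + m23_1 + m33_1)
    (s2 : 3 * A2 + 0 * B2 ≤ m13_2 + m23_2 + m33_2)
    (s3 : 3 * A3 + 0 * B3 ≤ m13_3 + m23_3 + m33_3) : False := by
  have d0 : ((0 ≤ -1 + A1) ∧ (0 ≤ -1 + A1 - A2 + n2)) ∨ ((0 ≤ -1 + B1) ∧ (0 ≤ -1 + B1 - B2 + n2)) := by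
    have h := C.t12
    clear C e0 e1 e2 e3 s1 s2 s3
    omega
  have d2 : ((0 ≤ 1 - A1 + m13_1) ∧ (0 ≤ -1 + A1 - m13_1)) ∨ ((0 ≤ 1 - B3 + m13_1) ∧ (0 ≤ -1 + B3 - m13_1)) := by
    have h := C.f13_2
    clear C e0 e1 e2 e3 s1 s2 s3
    omega
  have d3 : ((0 ≤ 0 - m13_1 + m13_2 - n2) ∧ (0 ≤ 0 + m13_1 - m13_2 + n2)) ∨ ((0 ≤ 1 - B3 + m13_2) ∧ (0 ≤ -1 + B3 - m13_2)) := by
    have h := C.f13_5
    clear C e0 e1 e2 e3 s1 s2 s3
    omega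
  have d4 : ((0 ≤ 0 - m13_2 + m13_3 - n3) ∧ (0 ≤ 0 + m13_2 - m13_3 + n3)) ∨ ((0 ≤ 1 - B3 + m13_3) ∧ (0 ≤ -1 + B3 - m13_3)) := by
    have h := C.f13_8
    clear C e0 e1 e2 e3 s1 s2 s3
    omega
  have d5 : ((0 ≤ 0 + m23_1 - n1) ∧ (0 ≤ 0 - m23_1 + n1)) ∨ ((0 ≤ 1 - A2 + m23_1) ∧ (0 ≤ -1 + A2 - m23_1)) ∨ ((0 ≤ 1 - B3 + m23_1) ∧ (0 ≤ -1 + B3 - m23_1)) := by
    have h := C.f23_3
    clear C e0 e1 e2 e3 s1 s2 s3
    omega
  have d6 : ((0 ≤ 0 - m23_1 + m23_2 - n2) ∧ (0 ≤ 0 + m23_1 - m23_2 + n2)) ∨ ((0 ≤ 1 - A2 + m23_2) ∧ (0 ≤ -1 + A2 - m23_2)) ∨ ((0 ≤ 1 - B3 + m23_2) ∧ (0 ≤ -1 + B3 - m23_2)) := by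
    have h := C.f23_7
    clear C e0 e1 e2 e3 s1 s2 s3
    omega
  have d8 : ((0 ≤ 0 + m33_1 - n1) ∧ (0 ≤ 0 - m33_1 + n1)) ∨ ((0 ≤ 1 - A3 + m33_1) ∧ (0 ≤ -1 + A3 - m33_1)) := by
    have h := C.f33_2
    clear C e0 e1 e2 e3 s1 s2 s3
    omega
  have d9 : ((0 ≤ 0 - m33_1 + m33_2 - n2) ∧ (0 ≤ 0 + m33_1 - m33_2 + n2)) ∨ ((0 ≤ 1 - A3 + m33_2) ∧ (0 ≤ -1 + A3 - m33_2)) := by
    have h := C.f33_5
    clear C e0 e1 e2 e3 s1 s2 s3
    omega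
  have d10 : ((0 ≤ 0 - m33_2 + m33_3 - n3) ∧ (0 ≤ 0 + m33_2 - m33_3 + n3)) ∨ ((0 ≤ 1 - A3 + m33_3) ∧ (0 ≤ -1 + A3 - m33_3)) := by
    have h := C.f33_8
    clear C e0 e1 e2 e3 s1 s2 s3
    omega
  have d11 : ((0 ≤ 0 - A1)) ∨ ((0 ≤ 0 - B3)) ∨ ((0 ≤ 0 - A3)) ∨ ((0 ≤ -1 + 2 * A1 - m13_1 - m33_1)) ∨ ((0 ≤ -1 + 2 * A2 - m13_2 - m33_2)) ∨ ((0 ≤ -1 + 2 * A3 - m13_3 - m33_3)) := by
    have h := C.p13_33A
    clear C e0 e1 e2 e3 s1 s2 s3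
    omega
  rcases d2 with ⟨g1, g2⟩ | ⟨g3, g4⟩
  · rcases d11 with g5 | g6 | g7 | g8 | g9 | g10
    · linarith only [g5, e0]
    · linarith only [g6, e1]
    · linarith only [g7, e3]
    · rcases d8 with ⟨g11, g12⟩ | ⟨g13, g14⟩
      · linarith only [g11, s1, g1, C.f23_0, g8]
      · linarith only [C.a4, s1, g1, C.f23_1, g13, g8]
    · linarith only [g9, s2, C.f23_5]
    · rcases d5 with ⟨g15, g16⟩ | ⟨g17, g18⟩ | ⟨g19, g20⟩
      · rcases d6 with ⟨g21, g22⟩ | ⟨g23, g24⟩ | ⟨g25, g26⟩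
        · linarith only [C.a3, s1, g2, g15, g21, C.f23_5, C.f33_0]
        · rcases d0 with ⟨g27, g28⟩ | ⟨g29, g30⟩
          · rcases d3 with ⟨g31, g32⟩ | ⟨g33, g34⟩
            · rcases d4 with ⟨g35, g36⟩ | ⟨g37, g38⟩
              · linarith only [g28, C.b5, C.o1, g1, g31, g35, C.f13_7]
              · rcases d10 with ⟨g39, g40⟩ | ⟨g41, g42⟩
                · rcases d8 with ⟨g43, g44⟩ | ⟨g45, g46⟩
                  · rcases d9 with ⟨g47, g48⟩ | ⟨g49, g50⟩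
                    · linarith only [g47, s1, s2, s3, C.b5, C.o1, g2, g32, g37, g16, g24, C.f23_9, g43, g39, g10]
                    · linarith only [g49, s2, s3, C.b5, C.o1, C.f13_4, g37, g24, C.f23_9, g39, g10]
                  · linarith only [g45, s2, s3, C.b5, C.o1, C.f13_4, g37, g15, C.f23_1, g24, C.f23_9, C.f33_0, g39, g10]
                · linarith only [g41, s3, g37, C.f23_9, g10]
            · rcases d4 with ⟨g51, g52⟩ | ⟨g53, g54⟩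
              · linarith only [C.a4, s3, C.b5, C.o1, g33, g51, C.f13_7, C.f23_9, g10]
              · rcases d10 with ⟨g55, g56⟩ | ⟨g57, g58⟩
                · rcases d8 with ⟨g59, g60⟩ | ⟨g61, g62⟩
                  · rcases d9 with ⟨g63, g64⟩ | ⟨g65, g66⟩
                    · linarith only [g63, s1, s2, s3, C.b5, C.o1, g2, C.f13_3, g53, g16, g24, C.f23_9, g59, g55, g10]
                    · linarith only [g65, s2, s3, C.b5, C.o1, g34, g53, g24, C.f23_9, g55, g10]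
                  · linarith only [g61, s2, s3, C.b5, C.o1, g34, g53, g15, C.f23_1, g24, C.f23_9, C.f33_0, g55, g10]
                · linarith only [g57, s3, g53, C.f23_9, g10]
          · rcases d3 with ⟨g67, g68⟩ | ⟨g69, g70⟩
            · rcases d4 with ⟨g71, g72⟩ | ⟨g73, g74⟩
              · linarith only [g30, C.b5, C.o0, g1, g67, g71, C.f13_7]
              · rcases d10 with ⟨g75, g76⟩ | ⟨g77, g78⟩
                · rcases d8 with ⟨g79, g80⟩ | ⟨g81, g82⟩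
                  · rcases d9 with ⟨g83, g84⟩ | ⟨g85, g86⟩
                    · linarith only [g83, s1, s2, s3, C.b5, C.o1, g2, g68, g73, g16, g24, C.f23_9, g79, g75, g10]
                    · linarith only [g85, s2, s3, C.b5, C.o1, C.f13_4, g73, g24, C.f23_9, g75, g10]
                  · linarith only [g81, s2, s3, C.b5, C.o1, C.f13_4, g73, g15, C.f23_1, g24, C.f23_9, C.f33_0, g75, g10]
                · linarith only [g77, s3, g73, C.f23_9, g10]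
            · rcases d4 with ⟨g87, g88⟩ | ⟨g89, g90⟩
              · linarith only [C.a4, s3, C.b5, C.o1, g69, g87, C.f13_7, C.f23_9, g10]
              · rcases d10 with ⟨g91, g92⟩ | ⟨g93, g94⟩
                · rcases d8 with ⟨g95, g96⟩ | ⟨g97, g98⟩
                  · rcases d9 with ⟨g99, g100⟩ | ⟨g101, g102⟩
                    · linarith only [g99, s1, s2, s3, C.b5, C.o1, g2, C.f13_3, g89, g16, g24, C.f23_9, g95, g91, g10]
                    · linarith only [g101, s2, s3, C.b5, C.o1, g70, g89, g24, C.f23_9, g91, g10]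
                  · linarith only [g97, s2, s3, C.b5, C.o1, g70, g89, g15, C.f23_1, g24, C.f23_9, C.f33_0, g91, g10]
                · linarith only [g93, s3, g89, C.f23_9, g10]
        · linarith only [C.a4, s3, C.f23_5, g25, C.f23_9, g10]
      · rcases d6 with ⟨g103, g104⟩ | ⟨g105, g106⟩ | ⟨g107, g108⟩
        · rcases d0 with ⟨g109, g110⟩ | ⟨g111, g112⟩
          · linarith only [C.a2, g110, g17, g103, C.f23_5]
          · linarith only [C.b2, g112, g17, g103, C.f23_5]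
        · rcases d0 with ⟨g113, g114⟩ | ⟨g115, g116⟩
          · rcases d3 with ⟨g117, g118⟩ | ⟨g119, g120⟩
            · rcases d4 with ⟨g121, g122⟩ | ⟨g123, g124⟩
              · linarith only [g114, C.b5, C.o1, g1, g117, g121, C.f13_7]
              · rcases d10 with ⟨g125, g126⟩ | ⟨g127, g128⟩
                · rcases d9 with ⟨g129, g130⟩ | ⟨g131, g132⟩
                  · rcases d8 with ⟨g133, g134⟩ | ⟨g135, g136⟩
                    · linarith only [g133, s1, s2, s3, C.b5, C.o1, g2, g118, g123, C.f23_0, g106, C.f23_9, g129, g125, g10]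
                    · linarith only [g135, s1, s2, s3, C.b5, C.o1, g2, g118, C.f13_4, g123, g18, g106, C.f23_9, g129, g125, g10]
                  · linarith only [g131, s2, s3, C.b5, C.o1, C.f13_4, g123, g106, C.f23_9, g125, g10]
                · linarith only [g127, s3, g123, C.f23_9, g10]
            · rcases d4 with ⟨g137, g138⟩ | ⟨g139, g140⟩
              · linarith only [C.a4, s3, C.b5, C.o1, g119, g137, C.f13_7, C.f23_9, g10]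
              · rcases d10 with ⟨g141, g142⟩ | ⟨g143, g144⟩
                · rcases d9 with ⟨g145, g146⟩ | ⟨g147, g148⟩
                  · rcases d8 with ⟨g149, g150⟩ | ⟨g151, g152⟩
                    · linarith only [g149, s1, s2, s3, C.b5, C.o1, g2, C.f13_3, g139, C.f23_0, g106, C.f23_9, g145, g141, g10]
                    · linarith only [g151, s1, s2, s3, C.b5, C.o1, g2, C.f13_3, g120, g139, g18, g106, C.f23_9, g145, g141, g10]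
                  · linarith only [g147, s2, s3, C.b5, C.o1, g120, g139, g106, C.f23_9, g141, g10]
                · linarith only [g143, s3, g139, C.f23_9, g10]
          · rcases d3 with ⟨g153, g154⟩ | ⟨g155, g156⟩
            · rcases d4 with ⟨g157, g158⟩ | ⟨g159, g160⟩
              · linarith only [g116, C.b5, C.o0, g1, g153, g157, C.f13_7]
              · rcases d10 with ⟨g161, g162⟩ | ⟨g163, g164⟩
                · rcases d9 with ⟨g165, g166⟩ | ⟨g167, g168⟩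
                  · rcases d8 with ⟨g169, g170⟩ | ⟨g171, g172⟩
                    · linarith only [g169, s1, s2, s3, C.b5, C.o1, g2, g154, g159, C.f23_0, g106, C.f23_9, g165, g161, g10]
                    · linarith only [g171, s1, s2, s3, C.b5, C.o1, g2, g154, C.f13_4, g159, g18, g106, C.f23_9, g165, g161, g10]
                  · linarith only [g167, s2, s3, C.b5, C.o1, C.f13_4, g159, g106, C.f23_9, g161, g10]
                · linarith only [g163, s3, g159, C.f23_9, g10]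
            · rcases d4 with ⟨g173, g174⟩ | ⟨g175, g176⟩
              · linarith only [C.a4, s3, C.b5, C.o1, g155, g173, C.f13_7, C.f23_9, g10]
              · rcases d10 with ⟨g177, g178⟩ | ⟨g179, g180⟩
                · rcases d9 with ⟨g181, g182⟩ | ⟨g183, g184⟩
                  · rcases d8 with ⟨g185, g186⟩ | ⟨g187, g188⟩
                    · linarith only [g185, s1, s2, s3, C.b5, C.o1, g2, C.f13_3, g175, C.f23_0, g106, C.f23_9, g181, g177, g10]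
                    · linarith only [g187, s1, s2, s3, C.b5, C.o1, g2, C.f13_3, g156, g175, g18, g106, C.f23_9, g181, g177, g10]
                  · linarith only [g183, s2, s3, C.b5, C.o1, g156, g175, g106, C.f23_9, g177, g10]
                · linarith only [g179, s3, g175, C.f23_9, g10]
        · linarith only [C.a4, s3, C.f23_5, g107, C.f23_9, g10]
      · linarith only [C.a4, s3, C.f23_1, g19, C.f23_9, g10]
  · linarith only [C.a2, s3, C.a4, C.f13_0, g3, C.f13_7, C.f23_9, C.f33_7]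

end Pool.Agent.Helper89.TQ
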