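import Pool.Agent.Helper89.TQ.Ctx

set_option autoImplicit false
set_option linter.all false
set_option maxHeartbeats 4000000

namespace Pool.Agent.Helper89.TQ

theorem c0_22_22_22_k0 {n1 n2 n3 A1 A2 A3 B1 B2 B3 m11_1 m11_2 m11_3 m13_1 m13_2 m13_3 m22_1 m22_2 m22_3 m23_1 m23_2 m23_3 m33_1 m33_2 m33_3 : ℤ}
    (C : Ctx0 n1 n2 n3 A1 A2 A3 B1 B2 B3 m11_1 m11_2 m11_3 m13_1 m13_2 m13_3 m22_1 m22_2 m22_3 m23_1 m23_2 m23_3 m33_1 m33_2 m33_3)
    (e0 : 0 < B2)
    (s1 : 0 * A1 + 3 * B1 ≤ m22_1 + m22_1 + m22_1)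
    (s2 : 0 * A2 + 3 * B2 ≤ m22_2 + m22_2 + m22_2)
    (s3 : 0 * A3 + 3 * B3 ≤ m22_3 + m22_3 + m22_3) : False := by
  have h21 := C.f22_4
  clear C
  linarith only [h21, s2]

theorem c0_22_22_22_k1 {n1 n2 n3 A1 A2 A3 B1 B2 B3 m11_1 m11_2 m11_3 m13_1 m13_2 m13_3 m22_1 m22_2 m22_3 m23_1 m23_2 m23_3 m33_1 m33_2 m33_3 : ℤ}
    (C : Ctx0 n1 n2 n3 A1 A2 A3 B1 B2 B3 m11_1 m11_2 m11_3 m13_1 m13_2 m13_3 m22_1 m22_2 m22_3 m23_1 m23_2 m23_3 m33_1 m33_2 m33_3)
    (e0 : 0 < B2)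
    (s1 : 1 * A1 + 2 * B1 ≤ m22_1 + m22_1 + m22_1)
    (s2 : 1 * A2 + 2 * B2 ≤ m22_2 + m22_2 + m22_2)
    (s3 : 1 * A3 + 2 * B3 ≤ m22_3 + m22_3 + m22_3) : False := by
  have h13 := C.o1
  have h21 := C.f22_4
  clear C
  linarith only [h13, h21, s2]

theorem c0_22_22_22_k2 {n1 n2 n3 A1 A2 A3 B1 B2 B3 m11_1 m11_2 m11_3 m13_1 m13_2 m13_3 m22_1 m22_2 m22_3 m23_1 m23_2 m23_3 m33_1 m33_2 m33_3 : ℤ}
    (C : Ctx0 n1 n2 n3 A1 A2 A3 B1 B2 B3 m11_1 m11_2 m11_3 m13_1 m13_2 m13_3 m22_1 m22_2 m22_3 m23_1 m23_2 m23_3 m33_1 m33_2 m33_3)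
    (e0 : 0 < B2)
    (s1 : 2 * A1 + 1 * B1 ≤ m22_1 + m22_1 + m22_1)
    (s2 : 2 * A2 + 1 * B2 ≤ m22_2 + m22_2 + m22_2)
    (s3 : 2 * A3 + 1 * B3 ≤ m22_3 + m22_3 + m22_3) : False := by
  have h13 := C.o1
  have h21 := C.f22_4
  clear C
  linarith only [h13, h21, s2]

theorem c0_22_22_22_k3 {n1 n2 n3 A1 A2 A3 B1 B2 B3 m11_1 m11_2 m11_3 m13_1 m13_2 m13_3 m22_1 m22_2 m22_3 m23_1 m23_2 m23_3 m33_1 m33_2 m33_3 : ℤ}
    (C : Ctx0 n1 n2 n3 A1 A2 A3 B1 B2 B3 m11_1 m11_2 m11_3 m13_1 m13_2 m13_3 m22_1 m22_2 m22_3 m23_1 m23_2 m23_3 m33_1 m33_2 m33_3)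
    (e0 : 0 < B2)
    (s1 : 3 * A1 + 0 * B1 ≤ m22_1 + m22_1 + m22_1)
    (s2 : 3 * A2 + 0 * B2 ≤ m22_2 + m22_2 + m22_2)
    (s3 : 3 * A3 + 0 * B3 ≤ m22_3 + m22_3 + m22_3) : False := by
  have h13 := C.o1
  have h21 := C.f22_4
  clear C
  linarith only [h13, h21, s2]

theorem c0_22_22_23_k0 {n1 n2 n3 A1 A2 A3 B1 B2 B3 m11_1 m11_2 m11_3 m13_1 m13_2 m13_3 m22_1 m22_2 m22_3 m23_1 m23_2 m23_3 m33_1 m33_2 m33_3 : ℤ}
    (C : Ctx0 n1 n2 n3 A1 A2 A3 B1 B2 B3 m11_1 m11_2 m11_3 m13_1 m13_2 m13_3 m22_1 m22_2 m22_3 m23_1 m23_2 m23_3 m33_1 m33_2 m33_3)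
    (e0 : 0 < B2)
    (e1 : 0 < A2)
    (e2 : 0 < B3)
    (s1 : 0 * A1 + 3 * B1 ≤ m22_1 + m22_1 + m23_1)
    (s2 : 0 * A2 + 3 * B2 ≤ m22_2 + m22_2 + m23_2)
    (s3 : 0 * A3 + 3 * B3 ≤ m22_3 + m22_3 + m23_3) : False := by
  have h2 := C.a2
  have h4 := C.a4
  have h6 := C.b0
  have h11 := C.b5
  have h12 := C.o0
  have h13 := C.o1
  have h14 := C.o2
  have h17 := C.f22_0
  have h18 := C.f22_1
  have h21 := C.f22_4
  have h25 := C.f23_1
  have h29 := C.f23_5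
  have h33 := C.f23_9
  have kh27 : (-n1 + m23_1 ≤ 0 ∧ n1 - m23_1 ≤ 0) ∨ (-A2 + m23_1 ≤ -1 ∧ A2 - m23_1 ≤ 1) ∨ (-B3 + m23_1 ≤ -1 ∧ B3 - m23_1 ≤ 1) := by
    have q := C.f23_3
    clear * - q
    omega
  have kh34 : (-n3 - m23_2 + m23_3 ≤ 0 ∧ n3 + m23_2 - m23_3 ≤ 0) ∨ (-B3 + m23_3 ≤ -1 ∧ B3 - m23_3 ≤ 1) := by
    have q := C.f23_10
    clear * - q
    omega
  have kh35 : (B2 ≤ 0) ∨ (A2 ≤ 0) ∨ (B3 ≤ 0) ∨ (-2 * B1 + m22_1 + m23_1 ≤ -1) ∨ (-2 * B2 + m22_2 + m23_2 ≤ -1) ∨ (-2 * B3 + m22_3 + m23_3 ≤ -1) := by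
    have q := C.p22_23B
    clear * - q
    omega
  clear C
  rcases kh34 with ⟨g1_0, g1_1⟩ | ⟨g1_0, g1_1⟩
  · linarith only [g1_1, h11, h21, h33, s2]
  · rcases kh35 with g2_0 | g2_0 | g2_0 | g2_0 | g2_0 | g2_0
    · linarith only [e0, g2_0]
    · linarith only [g2_0, h13, h18, h25, h6, s1]
    · linarith only [g2_0, h14, h18, h21, h25, h29, h4, h6, s1, s2]
    · rcases kh27 with ⟨g3_0, g3_1⟩ | ⟨g3_0, g3_1⟩ | ⟨g3_0, g3_1⟩
      · linarith only [g2_0, g3_1, h17, s1]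
      · linarith only [g2_0, g3_1, h12, h2, s1]
      · linarith only [g2_0, g3_1, h12, h14, h2, h4, s1]
    · linarith only [g2_0, h21, s2]
    · linarith only [g1_1, g2_0, s3]

theorem c0_22_22_23_k1 {n1 n2 n3 A1 A2 A3 B1 B2 B3 m11_1 m11_2 m11_3 m13_1 m13_2 m13_3 m22_1 m22_2 m22_3 m23_1 m23_2 m23_3 m33_1 m33_2 m33_3 : ℤ}
    (C : Ctx0 n1 n2 n3 A1 A2 A3 B1 B2 B3 m11_1 m11_2 m11_3 m13_1 m13_2 m13_3 m22_1 m22_2 m22_3 m23_1 m23_2 m23_3 m33_1 m33_2 m33_3)
    (e0 : 0 < B2)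
    (e1 : 0 < A2)
    (e2 : 0 < B3)
    (s1 : 1 * A1 + 2 * B1 ≤ m22_1 + m22_1 + m23_1)
    (s2 : 1 * A2 + 2 * B2 ≤ m22_2 + m22_2 + m23_2)
    (s3 : 1 * A3 + 2 * B3 ≤ m22_3 + m22_3 + m23_3) : False := by
  have h21 := C.f22_4
  have h29 := C.f23_5
  clear C
  linarith only [h21, h29, s2]

theorem c0_22_22_23_k2 {n1 n2 n3 A1 A2 A3 B1 B2 B3 m11_1 m11_2 m11_3 m13_1 m13_2 m13_3 m22_1 m22_2 m22_3 m23_1 m23_2 m23_3 m33_1 m33_2 m33_3 : ℤ}
    (C : Ctx0 n1 n2 n3 A1 A2 A3 B1 B2 B3 m11_1 m11_2 m11_3 m13_1 m13_2 m13_3 m22_1 m22_2 m22_3 m23_1 m23_2 m23_3 m33_1 m33_2 m33_3)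
    (e0 : 0 < B2)
    (e1 : 0 < A2)
    (e2 : 0 < B3)
    (s1 : 2 * A1 + 1 * B1 ≤ m22_1 + m22_1 + m23_1)
    (s2 : 2 * A2 + 1 * B2 ≤ m22_2 + m22_2 + m23_2)
    (s3 : 2 * A3 + 1 * B3 ≤ m22_3 + m22_3 + m23_3) : False := by
  have h13 := C.o1
  have h21 := C.f22_4
  have h29 := C.f23_5
  clear C
  linarith only [h13, h21, h29, s2]

theorem c0_22_22_23_k3 {n1 n2 n3 A1 A2 A3 B1 B2 B3 m11_1 m11_2 m11_3 m13_1 m13_2 m13_3 m22_1 m22_2 m22_3 m23_1 m23_2 m23_3 m33_1 m33_2 m33_3 : ℤ}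
    (C : Ctx0 n1 n2 n3 A1 A2 A3 B1 B2 B3 m11_1 m11_2 m11_3 m13_1 m13_2 m13_3 m22_1 m22_2 m22_3 m23_1 m23_2 m23_3 m33_1 m33_2 m33_3)
    (e0 : 0 < B2)
    (e1 : 0 < A2)
    (e2 : 0 < B3)
    (s1 : 3 * A1 + 0 * B1 ≤ m22_1 + m22_1 + m23_1)
    (s2 : 3 * A2 + 0 * B2 ≤ m22_2 + m22_2 + m23_2)
    (s3 : 3 * A3 + 0 * B3 ≤ m22_3 + m22_3 + m23_3) : False := by
  have h13 := C.o1
  have h21 := C.f22_4
  have h29 := C.f23_5
  clear C
  linarith only [h13, h21, h29, s2]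

theorem c0_22_22_33_k0 {n1 n2 n3 A1 A2 A3 B1 B2 B3 m11_1 m11_2 m11_3 m13_1 m13_2 m13_3 m22_1 m22_2 m22_3 m23_1 m23_2 m23_3 m33_1 m33_2 m33_3 : ℤ}
    (C : Ctx0 n1 n2 n3 A1 A2 A3 B1 B2 B3 m11_1 m11_2 m11_3 m13_1 m13_2 m13_3 m22_1 m22_2 m22_3 m23_1 m23_2 m23_3 m33_1 m33_2 m33_3)
    (e0 : 0 < B2)
    (e1 : 0 < A3)
    (s1 : 0 * A1 + 3 * B1 ≤ m22_1 + m22_1 + m33_1)
    (s2 : 0 * A2 + 3 * B2 ≤ m22_2 + m22_2 + m33_2)
    (s3 : 0 * A3 + 3 * B3 ≤ m22_3 + m22_3 + m33_3) : False := by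
  have h1 := C.a1
  have h2 := C.a2
  have h3 := C.a3
  have h4 := C.a4
  have h5 := C.a5
  have h6 := C.b0
  have h8 := C.b2
  have h9 := C.b3
  have h11 := C.b5
  have h12 := C.o0
  have h13 := C.o1
  have h14 := C.o2
  have h17 := C.f22_0
  have h18 := C.f22_1
  have h21 := C.f22_4
  have h23 := C.f22_6
  have h24 := C.f33_0
  have h25 := C.f33_1
  have h28 := C.f33_4
  have h31 := C.f33_7
  have h33 := C.f23_0
  have h34 := C.f23_1
  have h38 := C.f23_5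
  have h42 := C.f23_9
  have kh15 : (-A1 ≤ -1 ∧ -n2 - A1 + A2 ≤ -1) ∨ (-B1 ≤ -1 ∧ -n2 - B1 + B2 ≤ -1) := by
    have q := C.t12
    clear * - q
    omega
  have kh16 : (A1 - A2 ≤ -1 ∧ -n3 - A2 + A3 ≤ -1) ∨ (B1 - B2 ≤ -1 ∧ -n3 - B2 + B3 ≤ -1) := by
    have q := C.t23
    clear * - q
    omega
  have kh19 : (-n1 + m22_1 ≤ 0 ∧ n1 - m22_1 ≤ 0) ∨ (-B2 + m22_1 ≤ -1 ∧ B2 - m22_1 ≤ 1) := by
    have q := C.f22_2
    clear * - q
    omega
  have kh22 : (-n2 - m22_1 + m22_2 ≤ 0 ∧ n2 + m22_1 - m22_2 ≤ 0) ∨ (-B2 + m22_2 ≤ -1 ∧ B2 - m22_2 ≤ 1) := by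
    have q := C.f22_5
    clear * - q
    omega
  have kh26 : (-n1 + m33_1 ≤ 0 ∧ n1 - m33_1 ≤ 0) ∨ (-A3 + m33_1 ≤ -1 ∧ A3 - m33_1 ≤ 1) := by
    have q := C.f33_2
    clear * - q
    omega
  have kh32 : (-n3 - m33_2 + m33_3 ≤ 0 ∧ n3 + m33_2 - m33_3 ≤ 0) ∨ (-A3 + m33_3 ≤ -1 ∧ A3 - m33_3 ≤ 1) := by
    have q := C.f33_8
    clear * - q
    omega
  have kh36 : (-n1 + m23_1 ≤ 0 ∧ n1 - m23_1 ≤ 0) ∨ (-A2 + m23_1 ≤ -1 ∧ A2 - m23_1 ≤ 1) ∨ (-B3 + m23_1 ≤ -1 ∧ B3 - m23_1 ≤ 1) := by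
    have q := C.f23_3
    clear * - q
    omega
  have kh40 : (-n2 - m23_1 + m23_2 ≤ 0 ∧ n2 + m23_1 - m23_2 ≤ 0) ∨ (-A2 + m23_2 ≤ -1 ∧ A2 - m23_2 ≤ 1) ∨ (-B3 + m23_2 ≤ -1 ∧ B3 - m23_2 ≤ 1) := by
    have q := C.f23_7
    clear * - q
    omega
  have kh43 : (-n3 - m23_2 + m23_3 ≤ 0 ∧ n3 + m23_2 - m23_3 ≤ 0) ∨ (-B3 + m23_3 ≤ -1 ∧ B3 - m23_3 ≤ 1) := by
    have q := C.f23_10
    clear * - q
    omega
  have kh44 : (n2 + A1 - A2 ≤ 0) ∨ (-A2 + A3 ≤ 1) ∨ (-B1 + B2 ≤ 0) ∨ (n3 + B2 - B3 ≤ 1) := by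
    have q := C.tzmp
    clear * - q
    omega
  have kh45 : (B2 ≤ 0) ∨ (A3 ≤ 0) ∨ (-2 * B1 + m22_1 + m33_1 ≤ -1) ∨ (-2 * B2 + m22_2 + m33_2 ≤ -1) ∨ (-2 * B3 + m22_3 + m33_3 ≤ -1) := by
    have q := C.p22_33B
    clear * - q
    omega
  have kh47 : (B2 ≤ 0) ∨ (A2 ≤ 0) ∨ (B3 ≤ 0) ∨ (-2 * B1 + m22_1 + m23_1 ≤ -1) ∨ (-2 * B2 + m22_2 + m23_2 ≤ -1) ∨ (-2 * B3 + m22_3 + m23_3 ≤ -1) := by
    have q := C.p22_23B
    clear * - q
    omega
  clear C
  rcases kh32 with ⟨g1_0, g1_1⟩ | ⟨g1_0, g1_1⟩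
  · linarith only [g1_1, h11, h14, h21, h31, s2]
  · rcases kh26 with ⟨g2_0, g2_1⟩ | ⟨g2_0, g2_1⟩
    · rcases kh45 with g3_0 | g3_0 | g3_0 | g3_0 | g3_0
      · linarith only [e0, g3_0]
      · linarith only [g3_0, h21, h28, h6, h8, s2]
      · linarith only [g2_1, g3_0, h17, s1]
      · linarith only [g3_0, h21, s2]
      · rcases kh40 with ⟨g4_0, g4_1⟩ | ⟨g4_0, g4_1⟩ | ⟨g4_0, g4_1⟩
        · rcases kh36 with ⟨g5_0, g5_1⟩ | ⟨g5_0, g5_1⟩ | ⟨g5_0, g5_1⟩
          · linarith only [g4_1, g5_1, h1, h3, h38]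
          · rcases kh15 with ⟨g6_0, g6_1⟩ | ⟨g6_0, g6_1⟩
            · linarith only [g4_1, g5_1, g6_1, h2, h38]
            · linarith only [g4_1, g5_1, g6_1, h38, h8]
          · linarith only [g1_1, g3_0, g4_1, g5_1, h38, h4, h8, h9, s3]
        · rcases kh43 with ⟨g7_0, g7_1⟩ | ⟨g7_0, g7_1⟩
          · linarith only [g4_1, g7_1, h13, h21, h23, h31, h42, h5, s3]
          · rcases kh19 with ⟨g8_0, g8_1⟩ | ⟨g8_0, g8_1⟩
            · rcases kh22 with ⟨g9_0, g9_1⟩ | ⟨g9_0, g9_1⟩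
              · linarith only [g8_1, g9_1, h1, h13, h21, h3]
              · rcases kh36 with ⟨g10_0, g10_1⟩ | ⟨g10_0, g10_1⟩ | ⟨g10_0, g10_1⟩
                · rcases kh47 with g11_0 | g11_0 | g11_0 | g11_0 | g11_0 | g11_0
                  · linarith only [g11_0, g8_1, h18, h24, h6, s1]
                  · linarith only [g10_1, g11_0, h17, h24, h34, h6, s1]
                  · linarith only [g10_1, g11_0, h14, h17, h24, h34, h4, h6, s1]
                  · linarith only [g10_1, g11_0, h17, h24, s1]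
                  · rcases kh44 with g12_0 | g12_0 | g12_0 | g12_0
                    · rcases kh15 with ⟨g13_0, g13_1⟩ | ⟨g13_0, g13_1⟩
                      · linarith only [g12_0, g13_1]
                      · linarith only [g11_0, g12_0, g13_1, g4_1, g9_1, h12]
                    · linarith only [g11_0, g12_0, g4_1, h21, h28, s2]
                    · linarith only [g12_0, g8_1, h18, h24, s1]
                    · linarith only [g12_0, h14, h21, h23, h31, s3]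
                  · linarith only [g11_0, g7_1, h14, h31, s3]
                · rcases kh44 with g14_0 | g14_0 | g14_0 | g14_0
                  · linarith only [g10_1, g14_0, g8_1, h12, h18, h33, h9]
                  · linarith only [g10_1, g14_0, g8_1, h18, h21, h28, h33, s2]
                  · linarith only [g14_0, g8_1, h1, h12, h18]
                  · linarith only [g14_0, g3_0, h21, h23, s3]
                · linarith only [g10_1, g1_1, g3_0, g8_1, h13, h18, h23, h28, h33, h4, h5, s2]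
            · rcases kh15 with ⟨g15_0, g15_1⟩ | ⟨g15_0, g15_1⟩
              · rcases kh22 with ⟨g16_0, g16_1⟩ | ⟨g16_0, g16_1⟩
                · linarith only [g15_1, g16_1, g8_1, h2, h21]
                · rcases kh44 with g17_0 | g17_0 | g17_0 | g17_0
                  · linarith only [g15_1, g17_0]
                  · rcases kh47 with g18_0 | g18_0 | g18_0 | g18_0 | g18_0 | g18_0
                    · linarith only [e0, g18_0]
                    · linarith only [g17_0, g18_0, h21, h28, h6, h8, s2]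
                    · linarith only [g18_0, g2_1, h14, h17, h25, h6, s1]
                    · rcases kh36 with ⟨g19_0, g19_1⟩ | ⟨g19_0, g19_1⟩ | ⟨g19_0, g19_1⟩
                      · linarith only [g18_0, g19_1, h17, h24, s1]
                      · linarith only [g17_0, g18_0, g19_1, h21, h25, h28, h8, s1, s2]
                      · linarith only [g18_0, g19_1, g1_1, g2_1, g3_0, h17, h25, s1, s3]
                    · linarith only [g17_0, g18_0, g4_1, h21, h28, s2]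
                    · linarith only [g18_0, g7_1, h14, h31, s3]
                  · rcases kh16 with ⟨g20_0, g20_1⟩ | ⟨g20_0, g20_1⟩
                    · rcases kh47 with g21_0 | g21_0 | g21_0 | g21_0 | g21_0 | g21_0
                      · linarith only [e0, g21_0]
                      · linarith only [g21_0, h12, h2, h6]
                      · linarith only [g21_0, g2_1, h14, h17, h25, h6, s1]
                      · rcases kh36 with ⟨g22_0, g22_1⟩ | ⟨g22_0, g22_1⟩ | ⟨g22_0, g22_1⟩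
                        · linarith only [g21_0, g22_1, h17, h24, s1]
                        · linarith only [g20_0, g21_0, g22_1, g8_1, h12, h8]
                        · linarith only [g1_1, g21_0, g22_1, g2_1, g3_0, h17, h25, s1, s3]
                      · linarith only [g16_1, g17_0, g20_0, g21_0, g4_1, h12]
                      · linarith only [g21_0, g7_1, h14, h31, s3]
                    · linarith only [g17_0, g20_0]
                  · linarith only [g17_0, h14, h21, h23, h31, s3]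
              · rcases kh22 with ⟨g23_0, g23_1⟩ | ⟨g23_0, g23_1⟩
                · linarith only [g15_1, g23_1, g8_1, h21, h8]
                · rcases kh47 with g24_0 | g24_0 | g24_0 | g24_0 | g24_0 | g24_0
                  · linarith only [e0, g24_0]
                  · linarith only [g24_0, h12, h2, h6]
                  · linarith only [g24_0, g2_1, h14, h17, h25, h6, s1]
                  · rcases kh36 with ⟨g25_0, g25_1⟩ | ⟨g25_0, g25_1⟩ | ⟨g25_0, g25_1⟩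
                    · linarith only [g24_0, g25_1, h17, h24, s1]
                    · rcases kh16 with ⟨g26_0, g26_1⟩ | ⟨g26_0, g26_1⟩
                      · linarith only [g24_0, g25_1, g26_0, g8_1, h12, h8]
                      · linarith only [g24_0, g25_1, g26_0, g8_1, h12, h2]
                    · linarith only [g1_1, g24_0, g25_1, g2_1, g3_0, h17, h25, s1, s3]
                  · rcases kh44 with g27_0 | g27_0 | g27_0 | g27_0
                    · linarith only [g15_1, g23_1, g24_0, g27_0, g4_1, h12]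
                    · linarith only [g24_0, g27_0, g4_1, h21, h28, s2]
                    · rcases kh16 with ⟨g28_0, g28_1⟩ | ⟨g28_0, g28_1⟩
                      · linarith only [g23_1, g24_0, g27_0, g28_0, g4_1, h12]
                      · linarith only [g27_0, g28_0]
                    · linarith only [g27_0, h14, h21, h23, h31, s3]
                  · linarith only [g24_0, g7_1, h14, h31, s3]
        · linarith only [g4_1, h14, h38, h4]
    · rcases kh19 with ⟨g29_0, g29_1⟩ | ⟨g29_0, g29_1⟩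
      · linarith only [g29_1, g2_1, h18, h21, h24, h28, s2]
      · rcases kh45 with g30_0 | g30_0 | g30_0 | g30_0 | g30_0
        · linarith only [e0, g30_0]
        · linarith only [g30_0, h18, h21, h25, h28, h6, s1, s2]
        · linarith only [g2_1, g30_0, h12, h2, h4, s1]
        · linarith only [g30_0, h21, s2]
        · rcases kh15 with ⟨g31_0, g31_1⟩ | ⟨g31_0, g31_1⟩
          · rcases kh22 with ⟨g32_0, g32_1⟩ | ⟨g32_0, g32_1⟩
            · linarith only [g29_1, g31_1, g32_1, h2, h21]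
            · rcases kh40 with ⟨g33_0, g33_1⟩ | ⟨g33_0, g33_1⟩ | ⟨g33_0, g33_1⟩
              · rcases kh36 with ⟨g34_0, g34_1⟩ | ⟨g34_0, g34_1⟩ | ⟨g34_0, g34_1⟩
                · linarith only [g31_1, g33_1, g34_1, h1, h38]
                · linarith only [g31_1, g33_1, g34_1, h2, h38]
                · linarith only [g1_1, g30_0, g33_1, g34_1, h38, h4, h8, h9, s3]
              · rcases kh43 with ⟨g35_0, g35_1⟩ | ⟨g35_0, g35_1⟩
                · linarith only [g33_1, g35_1, h13, h21, h23, h31, h42, h5, s3]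
                · rcases kh36 with ⟨g36_0, g36_1⟩ | ⟨g36_0, g36_1⟩ | ⟨g36_0, g36_1⟩
                  · rcases kh47 with g37_0 | g37_0 | g37_0 | g37_0 | g37_0 | g37_0
                    · linarith only [e0, g37_0]
                    · linarith only [g36_1, g37_0, h17, h24, h34, h6, s1]
                    · linarith only [g36_1, g37_0, h14, h17, h24, h34, h4, h6, s1]
                    · linarith only [g2_1, g36_1, g37_0, h21, h24, h28, h8, s1, s2]
                    · linarith only [g2_1, g33_1, g36_1, g37_0, h21, h24, h28, h34, s2]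
                    · linarith only [g35_1, g37_0, h14, h31, s3]
                  · rcases kh44 with g38_0 | g38_0 | g38_0 | g38_0
                    · linarith only [g31_1, g38_0]
                    · rcases kh47 with g39_0 | g39_0 | g39_0 | g39_0 | g39_0 | g39_0
                      · linarith only [e0, g39_0]
                      · linarith only [g38_0, g39_0, h13, h18, h25, h6, s1]
                      · linarith only [g1_1, g30_0, g39_0, h18, h23, h25, h28, h4, h5, h6, h8, s1, s2]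
                      · linarith only [g36_1, g38_0, g39_0, h12, h2, h25, s1]
                      · linarith only [g33_1, g38_0, g39_0, h21, h28, s2]
                      · linarith only [g35_1, g39_0, h14, h31, s3]
                    · rcases kh16 with ⟨g40_0, g40_1⟩ | ⟨g40_0, g40_1⟩
                      · rcases kh47 with g41_0 | g41_0 | g41_0 | g41_0 | g41_0 | g41_0
                        · linarith only [e0, g41_0]
                        · linarith only [g41_0, h12, h2, h6]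
                        · linarith only [g1_1, g30_0, g41_0, h18, h23, h25, h28, h4, h5, h6, h8, s1, s2]
                        · linarith only [g29_1, g36_1, g40_0, g41_0, h12, h8]
                        · linarith only [g32_1, g33_1, g38_0, g40_0, g41_0, h12]
                        · linarith only [g35_1, g41_0, h14, h31, s3]
                      · linarith only [g38_0, g40_0]
                    · linarith only [g38_0, h14, h21, h23, h31, s3]
                  · linarith only [g36_1, h14, h34, h4]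
              · linarith only [g33_1, h14, h38, h4]
          · rcases kh22 with ⟨g42_0, g42_1⟩ | ⟨g42_0, g42_1⟩
            · linarith only [g29_1, g31_1, g42_1, h21, h8]
            · rcases kh40 with ⟨g43_0, g43_1⟩ | ⟨g43_0, g43_1⟩ | ⟨g43_0, g43_1⟩
              · rcases kh36 with ⟨g44_0, g44_1⟩ | ⟨g44_0, g44_1⟩ | ⟨g44_0, g44_1⟩
                · linarith only [g43_1, g44_1, h1, h3, h38]
                · linarith only [g31_1, g43_1, g44_1, h38, h8]
                · linarith only [g1_1, g30_0, g43_1, g44_1, h38, h4, h8, h9, s3]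
              · rcases kh43 with ⟨g45_0, g45_1⟩ | ⟨g45_0, g45_1⟩
                · linarith only [g43_1, g45_1, h13, h21, h23, h31, h42, h5, s3]
                · rcases kh36 with ⟨g46_0, g46_1⟩ | ⟨g46_0, g46_1⟩ | ⟨g46_0, g46_1⟩
                  · rcases kh47 with g47_0 | g47_0 | g47_0 | g47_0 | g47_0 | g47_0
                    · linarith only [e0, g47_0]
                    · linarith only [g46_1, g47_0, h17, h24, h34, h6, s1]
                    · linarith only [g46_1, g47_0, h14, h17, h24, h34, h4, h6, s1]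
                    · linarith only [g2_1, g46_1, g47_0, h21, h24, h28, h8, s1, s2]
                    · linarith only [g2_1, g43_1, g46_1, g47_0, h21, h24, h28, h34, s2]
                    · linarith only [g45_1, g47_0, h14, h31, s3]
                  · rcases kh47 with g48_0 | g48_0 | g48_0 | g48_0 | g48_0 | g48_0
                    · linarith only [e0, g48_0]
                    · linarith only [g48_0, h12, h2, h6]
                    · linarith only [g1_1, g30_0, g48_0, h18, h23, h25, h28, h4, h5, h6, h8, s1, s2]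
                    · rcases kh16 with ⟨g49_0, g49_1⟩ | ⟨g49_0, g49_1⟩
                      · linarith only [g29_1, g46_1, g48_0, g49_0, h12, h8]
                      · linarith only [g29_1, g46_1, g48_0, g49_0, h12, h2]
                    · rcases kh44 with g50_0 | g50_0 | g50_0 | g50_0
                      · linarith only [g31_1, g42_1, g43_1, g48_0, g50_0, h12]
                      · linarith only [g43_1, g48_0, g50_0, h21, h28, s2]
                      · rcases kh16 with ⟨g51_0, g51_1⟩ | ⟨g51_0, g51_1⟩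
                        · linarith only [g42_1, g43_1, g48_0, g50_0, g51_0, h12]
                        · linarith only [g50_0, g51_0]
                      · linarith only [g50_0, h14, h21, h23, h31, s3]
                    · linarith only [g45_1, g48_0, h14, h31, s3]
                  · linarith only [g46_1, h14, h34, h4]
              · linarith only [g43_1, h14, h38, h4]

theorem c0_22_22_33_k1 {n1 n2 n3 A1 A2 A3 B1 B2 B3 m11_1 m11_2 m11_3 m13_1 m13_2 m13_3 m22_1 m22_2 m22_3 m23_1 m23_2 m23_3 m33_1 m33_2 m33_3 : ℤ}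
    (C : Ctx0 n1 n2 n3 A1 A2 A3 B1 B2 B3 m11_1 m11_2 m11_3 m13_1 m13_2 m13_3 m22_1 m22_2 m22_3 m23_1 m23_2 m23_3 m33_1 m33_2 m33_3)
    (e0 : 0 < B2)
    (e1 : 0 < A3)
    (s1 : 1 * A1 + 2 * B1 ≤ m22_1 + m22_1 + m33_1)
    (s2 : 1 * A2 + 2 * B2 ≤ m22_2 + m22_2 + m33_2)
    (s3 : 1 * A3 + 2 * B3 ≤ m22_3 + m22_3 + m33_3) : False := by
  have h3 := C.a3
  have h8 := C.b2
  have h18 := C.f22_1
  have h21 := C.f22_4
  have h23 := C.f22_6
  have h24 := C.f33_0
  have h27 := C.f33_3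
  have h28 := C.f33_4
  have h31 := C.f33_7
  have kh15 : (-A1 ≤ -1 ∧ -n2 - A1 + A2 ≤ -1) ∨ (-B1 ≤ -1 ∧ -n2 - B1 + B2 ≤ -1) := by
    have q := C.t12
    clear * - q
    omega
  have kh16 : (A1 - A2 ≤ -1 ∧ -n3 - A2 + A3 ≤ -1) ∨ (B1 - B2 ≤ -1 ∧ -n3 - B2 + B3 ≤ -1) := by
    have q := C.t23
    clear * - q
    omega
  have kh33 : (n2 + A1 - A2 ≤ 0) ∨ (-A2 + A3 ≤ 1) ∨ (-B1 + B2 ≤ 0) ∨ (n3 + B2 - B3 ≤ 1) := by
    have q := C.tzmp
    clear * - q
    omega
  have kh34 : (n1 - A1 ≤ 0) ∨ (-A1 + A2 ≤ 0) ∨ (-A2 + A3 ≤ 0) ∨ (B1 ≤ 0) ∨ (n2 + B1 - B2 ≤ 0) ∨ (n3 + B2 - B3 ≤ 0) := by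
    have q := C.tmzp
    clear * - q
    omega
  clear C
  rcases kh33 with g1_0 | g1_0 | g1_0 | g1_0
  · rcases kh15 with ⟨g2_0, g2_1⟩ | ⟨g2_0, g2_1⟩
    · linarith only [g1_0, g2_1]
    · rcases kh34 with g3_0 | g3_0 | g3_0 | g3_0 | g3_0 | g3_0
      · linarith only [g1_0, g3_0, h21, h24, h27, s2]
      · linarith only [g1_0, g2_1, g3_0, h8]
      · linarith only [g3_0, h21, h28, s2]
      · linarith only [g2_0, g3_0]
      · linarith only [g2_1, g3_0]
      · linarith only [g3_0, h21, h23, h31, s3]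
  · linarith only [g1_0, h21, h28, s2]
  · rcases kh16 with ⟨g4_0, g4_1⟩ | ⟨g4_0, g4_1⟩
    · rcases kh34 with g5_0 | g5_0 | g5_0 | g5_0 | g5_0 | g5_0
      · linarith only [g1_0, g5_0, h18, h24, s1]
      · linarith only [g4_0, g5_0]
      · linarith only [g5_0, h21, h28, s2]
      · linarith only [e0, g1_0, g5_0]
      · linarith only [g1_0, g4_0, g5_0, h3]
      · linarith only [g5_0, h21, h23, h31, s3]
    · linarith only [g1_0, g4_0]
  · linarith only [g1_0, h21, h23, h31, s3]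

theorem c0_22_22_33_k2 {n1 n2 n3 A1 A2 A3 B1 B2 B3 m11_1 m11_2 m11_3 m13_1 m13_2 m13_3 m22_1 m22_2 m22_3 m23_1 m23_2 m23_3 m33_1 m33_2 m33_3 : ℤ}
    (C : Ctx0 n1 n2 n3 A1 A2 A3 B1 B2 B3 m11_1 m11_2 m11_3 m13_1 m13_2 m13_3 m22_1 m22_2 m22_3 m23_1 m23_2 m23_3 m33_1 m33_2 m33_3)
    (e0 : 0 < B2)
    (e1 : 0 < A3)
    (s1 : 2 * A1 + 1 * B1 ≤ m22_1 + m22_1 + m33_1)
    (s2 : 2 * A2 + 1 * B2 ≤ m22_2 + m22_2 + m33_2)
    (s3 : 2 * A3 + 1 * B3 ≤ m22_3 + m22_3 + m33_3) : False := by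
  have h4 := C.a4
  have h5 := C.a5
  have h6 := C.b0
  have h9 := C.b3
  have h12 := C.o0
  have h13 := C.o1
  have h14 := C.o2
  have h17 := C.f22_0
  have h18 := C.f22_1
  have h21 := C.f22_4
  have h23 := C.f22_6
  have h25 := C.f33_1
  have h27 := C.f33_3
  have h28 := C.f33_4
  have h31 := C.f33_7
  have kh32 : (-n3 - m33_2 + m33_3 ≤ 0 ∧ n3 + m33_2 - m33_3 ≤ 0) ∨ (-A3 + m33_3 ≤ -1 ∧ A3 - m33_3 ≤ 1) := by
    have q := C.f33_8
    clear * - q
    omega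
  have kh33 : (B2 ≤ 0) ∨ (A3 ≤ 0) ∨ (-2 * A1 + m22_1 + m33_1 ≤ -1) ∨ (-2 * A2 + m22_2 + m33_2 ≤ -1) ∨ (-2 * A3 + m22_3 + m33_3 ≤ -1) := by
    have q := C.p22_33A
    clear * - q
    omega
  have kh34 : (A1 ≤ 0) ∨ (n2 + A1 - A2 ≤ 1) ∨ (-A2 + A3 ≤ 0) ∨ (n1 - B1 ≤ 0) ∨ (-B1 + B2 ≤ 1) ∨ (n3 + B2 - B3 ≤ 0) := by
    have q := C.tpmz
    clear * - q
    omega
  have kh35 : (A1 ≤ 0) ∨ (n2 + A1 - A2 ≤ 1) ∨ (n1 - B1 ≤ 0) ∨ (-B1 + B2 ≤ 1) ∨ (-A3 + B3 ≤ 1) := by
    have q := C.tpmm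
    clear * - q
    omega
  clear C
  rcases kh32 with ⟨g1_0, g1_1⟩ | ⟨g1_0, g1_1⟩
  · linarith only [g1_1, h13, h21, h31, h5, s2]
  · rcases kh33 with g2_0 | g2_0 | g2_0 | g2_0 | g2_0
    · linarith only [e0, g2_0]
    · linarith only [g2_0, h12, h13, h18, h25, h4, h6, s1]
    · rcases kh35 with g3_0 | g3_0 | g3_0 | g3_0 | g3_0
      · linarith only [g3_0, h12, h6]
      · linarith only [g2_0, g3_0, h21, h27, h9, s1, s2]
      · linarith only [g2_0, g3_0, h17, s1]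
      · linarith only [g2_0, g3_0, h18, s1]
      · rcases kh34 with g4_0 | g4_0 | g4_0 | g4_0 | g4_0 | g4_0
        · linarith only [g4_0, h12, h6]
        · linarith only [g2_0, g4_0, h21, h27, h9, s1, s2]
        · linarith only [g4_0, h13, h21, h28, s2]
        · linarith only [g2_0, g4_0, h17, s1]
        · linarith only [g2_0, g4_0, h18, s1]
        · linarith only [g3_0, g4_0, h21, h23, h31, s3]
    · linarith only [g2_0, h21, s2]
    · linarith only [g1_1, g2_0, h14, s3]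

theorem c0_22_22_33_k3 {n1 n2 n3 A1 A2 A3 B1 B2 B3 m11_1 m11_2 m11_3 m13_1 m13_2 m13_3 m22_1 m22_2 m22_3 m23_1 m23_2 m23_3 m33_1 m33_2 m33_3 : ℤ}
    (C : Ctx0 n1 n2 n3 A1 A2 A3 B1 B2 B3 m11_1 m11_2 m11_3 m13_1 m13_2 m13_3 m22_1 m22_2 m22_3 m23_1 m23_2 m23_3 m33_1 m33_2 m33_3)
    (e0 : 0 < B2)
    (e1 : 0 < A3)
    (s1 : 3 * A1 + 0 * B1 ≤ m22_1 + m22_1 + m33_1)
    (s2 : 3 * A2 + 0 * B2 ≤ m22_2 + m22_2 + m33_2)
    (s3 : 3 * A3 + 0 * B3 ≤ m22_3 + m22_3 + m33_3) : False := by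
  have h4 := C.a4
  have h5 := C.a5
  have h6 := C.b0
  have h12 := C.o0
  have h13 := C.o1
  have h17 := C.f22_0
  have h18 := C.f22_1
  have h21 := C.f22_4
  have h25 := C.f33_1
  have h31 := C.f33_7
  have kh26 : (-n1 + m33_1 ≤ 0 ∧ n1 - m33_1 ≤ 0) ∨ (-A3 + m33_1 ≤ -1 ∧ A3 - m33_1 ≤ 1) := by
    have q := C.f33_2
    clear * - q
    omega
  have kh32 : (-n3 - m33_2 + m33_3 ≤ 0 ∧ n3 + m33_2 - m33_3 ≤ 0) ∨ (-A3 + m33_3 ≤ -1 ∧ A3 - m33_3 ≤ 1) := by
    have q := C.f33_8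
    clear * - q
    omega
  have kh33 : (B2 ≤ 0) ∨ (A3 ≤ 0) ∨ (-2 * A1 + m22_1 + m33_1 ≤ -1) ∨ (-2 * A2 + m22_2 + m33_2 ≤ -1) ∨ (-2 * A3 + m22_3 + m33_3 ≤ -1) := by
    have q := C.p22_33A
    clear * - q
    omega
  clear C
  rcases kh32 with ⟨g1_0, g1_1⟩ | ⟨g1_0, g1_1⟩
  · linarith only [g1_1, h13, h21, h31, h5, s2]
  · rcases kh33 with g2_0 | g2_0 | g2_0 | g2_0 | g2_0
    · linarith only [e0, g2_0]
    · linarith only [g2_0, h12, h13, h18, h25, h4, h6, s1]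
    · rcases kh26 with ⟨g3_0, g3_1⟩ | ⟨g3_0, g3_1⟩
      · linarith only [g2_0, g3_1, h17, s1]
      · linarith only [g2_0, g3_1, h13, h18, h4, s1]
    · linarith only [g2_0, h13, h21, s2]
    · linarith only [g1_1, g2_0, s3]

end Pool.Agent.Helper89.TQ
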