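import Pool.Agent.Helper89.TQ.Ctx

set_option autoImplicit false
set_option linter.all false
set_option maxHeartbeats 4000000

namespace Pool.Agent.Helper89.TQ

theorem c0_23_23_23_k0 {n1 n2 n3 A1 A2 A3 B1 B2 B3 m11_1 m11_2 m11_3 m13_1 m13_2 m13_3 m22_1 m22_2 m22_3 m23_1 m23_2 m23_3 m33_1 m33_2 m33_3 : ℤ}
    (C : Ctx0 n1 n2 n3 A1 A2 A3 B1 B2 B3 m11_1 m11_2 m11_3 m13_1 m13_2 m13_3 m22_1 m22_2 m22_3 m23_1 m23_2 m23_3 m33_1 m33_2 m33_3)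
    (e0 : 0 < A2)
    (e1 : 0 < B3)
    (s1 : 0 * A1 + 3 * B1 ≤ m23_1 + m23_1 + m23_1)
    (s2 : 0 * A2 + 3 * B2 ≤ m23_2 + m23_2 + m23_2)
    (s3 : 0 * A3 + 3 * B3 ≤ m23_3 + m23_3 + m23_3) : False := by
  linarith only [C.f23_9, s3]

theorem c0_23_23_23_k1 {n1 n2 n3 A1 A2 A3 B1 B2 B3 m11_1 m11_2 m11_3 m13_1 m13_2 m13_3 m22_1 m22_2 m22_3 m23_1 m23_2 m23_3 m33_1 m33_2 m33_3 : ℤ}
    (C : Ctx0 n1 n2 n3 A1 A2 A3 B1 B2 B3 m11_1 m11_2 m11_3 m13_1 m13_2 m13_3 m22_1 m22_2 m22_3 m23_1 m23_2 m23_3 m33_1 m33_2 m33_3)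
    (e0 : 0 < A2)
    (e1 : 0 < B3)
    (s1 : 1 * A1 + 2 * B1 ≤ m23_1 + m23_1 + m23_1)
    (s2 : 1 * A2 + 2 * B2 ≤ m23_2 + m23_2 + m23_2)
    (s3 : 1 * A3 + 2 * B3 ≤ m23_3 + m23_3 + m23_3) : False := by
  have d0 : ((0 ≤ -1 + A1) ∧ (0 ≤ -1 + A1 - A2 + n2)) ∨ ((0 ≤ -1 + B1) ∧ (0 ≤ -1 + B1 - B2 + n2)) := by
    have h := C.t12
    clear C e0 e1 s1 s2 s3
    omega
  have d1 : ((0 ≤ -1 - A1 + A2) ∧ (0 ≤ -1 + A2 - A3 + n3)) ∨ ((0 ≤ -1 - B1 + B2) ∧ (0 ≤ -1 + B2 - B3 + n3)) := by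
    have h := C.t23
    clear C e0 e1 s1 s2 s3
    omega
  have d4 : ((0 ≤ 0 - m23_2 + m23_3 - n3) ∧ (0 ≤ 0 + m23_2 - m23_3 + n3)) ∨ ((0 ≤ 1 - B3 + m23_3) ∧ (0 ≤ -1 + B3 - m23_3)) := by
    have h := C.f23_10
    clear C e0 e1 s1 s2 s3
    omega
  have d5 : ((0 ≤ 0 + A1 - A2)) ∨ ((0 ≤ 1 - A2 + A3 - n3)) ∨ ((0 ≤ 0 - B1 + B2 - n2)) ∨ ((0 ≤ 1 + B2 - B3)) ∨ ((0 ≤ -1 + A2 - B2) ∧ (0 ≤ 1 + A3 - B3)) := by
    have h := C.tzpm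
    clear C e0 e1 s1 s2 s3
    omega
  have d6 : ((0 ≤ 0 - A1)) ∨ ((0 ≤ 0 - A1 + A2 - n2)) ∨ ((0 ≤ 0 - A2 + A3 - n3)) ∨ ((0 ≤ 0 + B1 - n1)) ∨ ((0 ≤ 0 + B1 - B2)) ∨ ((0 ≤ 0 + B2 - B3)) ∨ ((0 ≤ 1 + A3 - B3)) ∨ ((0 ≤ 1 - A1 + B1) ∧ (0 ≤ 0 - A2 + B2)) := by
    have h := C.tpzm
    clear C e0 e1 s1 s2 s3
    omega
  rcases d4 with ⟨g1, g2⟩ | ⟨g3, g4⟩
  · linarith only [C.b5, s2, C.f23_5, g1, C.f23_9]
  · rcases d6 with g5 | g6 | g7 | g8 | g9 | g10 | g11 | ⟨g12, g13⟩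
    · linarith only [C.o0, g5, C.b0]
    · rcases d0 with ⟨g14, g15⟩ | ⟨g16, g17⟩
      · linarith only [g15, g6]
      · rcases d5 with g18 | g19 | g20 | g21 | ⟨g22, g23⟩
        · linarith only [g18, g6, C.b2, g17]
        · linarith only [s2, s3, g19, C.b5, C.f23_5, g4]
        · linarith only [g20, g17]
        · linarith only [g21, s2, s3, C.a4, C.f23_5, g4]
        · linarith only [g23, s3, g4]
    · linarith only [g7, s2, s3, C.b5, C.f23_5, g4]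
    · linarith only [g8, C.a1, C.o0]
    · rcases d1 with ⟨g24, g25⟩ | ⟨g26, g27⟩
      · rcases d5 with g28 | g29 | g30 | g31 | ⟨g32, g33⟩
        · linarith only [g28, g24]
        · linarith only [s2, s3, g29, C.b5, C.f23_5, g4]
        · linarith only [g30, g24, C.a3, g9]
        · linarith only [g31, s2, s3, C.a4, C.f23_5, g4]
        · linarith only [g33, s3, g4]
      · linarith only [g26, g9]
    · linarith only [g10, s2, s3, C.a4, C.f23_5, g4]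
    · linarith only [g11, s3, g4]
    · linarith only [g13, s2, C.f23_5]

theorem c0_23_23_23_k2 {n1 n2 n3 A1 A2 A3 B1 B2 B3 m11_1 m11_2 m11_3 m13_1 m13_2 m13_3 m22_1 m22_2 m22_3 m23_1 m23_2 m23_3 m33_1 m33_2 m33_3 : ℤ}
    (C : Ctx0 n1 n2 n3 A1 A2 A3 B1 B2 B3 m11_1 m11_2 m11_3 m13_1 m13_2 m13_3 m22_1 m22_2 m22_3 m23_1 m23_2 m23_3 m33_1 m33_2 m33_3)
    (e0 : 0 < A2)
    (e1 : 0 < B3)
    (s1 : 2 * A1 + 1 * B1 ≤ m23_1 + m23_1 + m23_1)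
    (s2 : 2 * A2 + 1 * B2 ≤ m23_2 + m23_2 + m23_2)
    (s3 : 2 * A3 + 1 * B3 ≤ m23_3 + m23_3 + m23_3) : False := by
  have d0 : ((0 ≤ -1 + A1) ∧ (0 ≤ -1 + A1 - A2 + n2)) ∨ ((0 ≤ -1 + B1) ∧ (0 ≤ -1 + B1 - B2 + n2)) := by
    have h := C.t12
    clear C e0 e1 s1 s2 s3
    omega
  have d1 : ((0 ≤ -1 - A1 + A2) ∧ (0 ≤ -1 + A2 - A3 + n3)) ∨ ((0 ≤ -1 - B1 + B2) ∧ (0 ≤ -1 + B2 - B3 + n3)) := by
    have h := C.t23
    clear C e0 e1 s1 s2 s3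
    omega
  have d4 : ((0 ≤ 0 - m23_2 + m23_3 - n3) ∧ (0 ≤ 0 + m23_2 - m23_3 + n3)) ∨ ((0 ≤ 1 - B3 + m23_3) ∧ (0 ≤ -1 + B3 - m23_3)) := by
    have h := C.f23_10
    clear C e0 e1 s1 s2 s3
    omega
  have d5 : ((0 ≤ 0 + A1 - A2)) ∨ ((0 ≤ 1 - A2 + A3 - n3)) ∨ ((0 ≤ 0 - B1 + B2 - n2)) ∨ ((0 ≤ 1 + B2 - B3)) ∨ ((0 ≤ -1 + A2 - B2) ∧ (0 ≤ 1 + A3 - B3)) := by
    have h := C.tzpm
    clear C e0 e1 s1 s2 s3
    omega
  have d6 : ((0 ≤ 0 - A1)) ∨ ((0 ≤ 0 - A1 + A2 - n2)) ∨ ((0 ≤ 0 - A2 + A3 - n3)) ∨ ((0 ≤ 0 + B1 - n1)) ∨ ((0 ≤ 0 + B1 - B2)) ∨ ((0 ≤ 0 + B2 - B3)) ∨ ((0 ≤ 1 + A3 - B3)) ∨ ((0 ≤ 1 - A1 + B1) ∧ (0 ≤ 0 - A2 + B2)) := by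
    have h := C.tpzm
    clear C e0 e1 s1 s2 s3
    omega
  rcases d4 with ⟨g1, g2⟩ | ⟨g3, g4⟩
  · linarith only [C.b5, s2, C.f23_5, g1, C.f23_9]
  · rcases d6 with g5 | g6 | g7 | g8 | g9 | g10 | g11 | ⟨g12, g13⟩
    · linarith only [C.o0, g5, C.b0]
    · rcases d0 with ⟨g14, g15⟩ | ⟨g16, g17⟩
      · linarith only [g15, g6]
      · rcases d5 with g18 | g19 | g20 | g21 | ⟨g22, g23⟩
        · linarith only [g18, g6, C.b2, g17]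
        · linarith only [s2, s3, g19, C.b5, C.f23_5, g4]
        · linarith only [g20, g17]
        · linarith only [g21, s2, s3, C.a4, C.f23_5, g4]
        · linarith only [g23, s3, g4]
    · linarith only [g7, s2, s3, C.b5, C.f23_5, g4]
    · linarith only [g8, C.a1, C.o0]
    · rcases d1 with ⟨g24, g25⟩ | ⟨g26, g27⟩
      · rcases d5 with g28 | g29 | g30 | g31 | ⟨g32, g33⟩
        · linarith only [g28, g24]
        · linarith only [s2, s3, g29, C.b5, C.f23_5, g4]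
        · linarith only [g30, g24, C.a3, g9]
        · linarith only [g31, s2, s3, C.a4, C.f23_5, g4]
        · linarith only [g33, s3, g4]
      · linarith only [g26, g9]
    · linarith only [g10, s2, s3, C.a4, C.f23_5, g4]
    · linarith only [g11, s3, g4]
    · linarith only [g13, s2, C.f23_5]

theorem c0_23_23_23_k3 {n1 n2 n3 A1 A2 A3 B1 B2 B3 m11_1 m11_2 m11_3 m13_1 m13_2 m13_3 m22_1 m22_2 m22_3 m23_1 m23_2 m23_3 m33_1 m33_2 m33_3 : ℤ}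
    (C : Ctx0 n1 n2 n3 A1 A2 A3 B1 B2 B3 m11_1 m11_2 m11_3 m13_1 m13_2 m13_3 m22_1 m22_2 m22_3 m23_1 m23_2 m23_3 m33_1 m33_2 m33_3)
    (e0 : 0 < A2)
    (e1 : 0 < B3)
    (s1 : 3 * A1 + 0 * B1 ≤ m23_1 + m23_1 + m23_1)
    (s2 : 3 * A2 + 0 * B2 ≤ m23_2 + m23_2 + m23_2)
    (s3 : 3 * A3 + 0 * B3 ≤ m23_3 + m23_3 + m23_3) : False := by
  linarith only [C.f23_5, s2]

theorem c0_23_23_33_k0 {n1 n2 n3 A1 A2 A3 B1 B2 B3 m11_1 m11_2 m11_3 m13_1 m13_2 m13_3 m22_1 m22_2 m22_3 m23_1 m23_2 m23_3 m33_1 m33_2 m33_3 : ℤ}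
    (C : Ctx0 n1 n2 n3 A1 A2 A3 B1 B2 B3 m11_1 m11_2 m11_3 m13_1 m13_2 m13_3 m22_1 m22_2 m22_3 m23_1 m23_2 m23_3 m33_1 m33_2 m33_3)
    (e0 : 0 < A2)
    (e1 : 0 < B3)
    (e2 : 0 < A3)
    (s1 : 0 * A1 + 3 * B1 ≤ m23_1 + m23_1 + m33_1)
    (s2 : 0 * A2 + 3 * B2 ≤ m23_2 + m23_2 + m33_2)
    (s3 : 0 * A3 + 3 * B3 ≤ m23_3 + m23_3 + m33_3) : False := by
  linarith only [C.f33_7, s3, C.o2, C.f23_9]

theorem c0_23_23_33_k1 {n1 n2 n3 A1 A2 A3 B1 B2 B3 m11_1 m11_2 m11_3 m13_1 m13_2 m13_3 m22_1 m22_2 m22_3 m23_1 m23_2 m23_3 m33_1 m33_2 m33_3 : ℤ}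
    (C : Ctx0 n1 n2 n3 A1 A2 A3 B1 B2 B3 m11_1 m11_2 m11_3 m13_1 m13_2 m13_3 m22_1 m22_2 m22_3 m23_1 m23_2 m23_3 m33_1 m33_2 m33_3)
    (e0 : 0 < A2)
    (e1 : 0 < B3)
    (e2 : 0 < A3)
    (s1 : 1 * A1 + 2 * B1 ≤ m23_1 + m23_1 + m33_1)
    (s2 : 1 * A2 + 2 * B2 ≤ m23_2 + m23_2 + m33_2)
    (s3 : 1 * A3 + 2 * B3 ≤ m23_3 + m23_3 + m33_3) : False := by
  linarith only [C.f33_7, s3, C.f23_9]

theorem c0_23_23_33_k2 {n1 n2 n3 A1 A2 A3 B1 B2 B3 m11_1 m11_2 m11_3 m13_1 m13_2 m13_3 m22_1 m22_2 m22_3 m23_1 m23_2 m23_3 m33_1 m33_2 m33_3 : ℤ}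
    (C : Ctx0 n1 n2 n3 A1 A2 A3 B1 B2 B3 m11_1 m11_2 m11_3 m13_1 m13_2 m13_3 m22_1 m22_2 m22_3 m23_1 m23_2 m23_3 m33_1 m33_2 m33_3)
    (e0 : 0 < A2)
    (e1 : 0 < B3)
    (e2 : 0 < A3)
    (s1 : 2 * A1 + 1 * B1 ≤ m23_1 + m23_1 + m33_1)
    (s2 : 2 * A2 + 1 * B2 ≤ m23_2 + m23_2 + m33_2)
    (s3 : 2 * A3 + 1 * B3 ≤ m23_3 + m23_3 + m33_3) : False := by
  have d0 : ((0 ≤ -1 + A1) ∧ (0 ≤ -1 + A1 - A2 + n2)) ∨ ((0 ≤ -1 + B1) ∧ (0 ≤ -1 + B1 - B2 + n2)) := by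
    have h := C.t12
    clear C e0 e1 e2 s1 s2 s3
    omega
  have d1 : ((0 ≤ -1 - A1 + A2) ∧ (0 ≤ -1 + A2 - A3 + n3)) ∨ ((0 ≤ -1 - B1 + B2) ∧ (0 ≤ -1 + B2 - B3 + n3)) := by
    have h := C.t23
    clear C e0 e1 e2 s1 s2 s3
    omega
  have d2 : ((0 ≤ 0 + m23_1 - n1) ∧ (0 ≤ 0 - m23_1 + n1)) ∨ ((0 ≤ 1 - A2 + m23_1) ∧ (0 ≤ -1 + A2 - m23_1)) ∨ ((0 ≤ 1 - B3 + m23_1) ∧ (0 ≤ -1 + B3 - m23_1)) := by
    have h := C.f23_3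
    clear C e0 e1 e2 s1 s2 s3
    omega
  have d4 : ((0 ≤ 0 - m23_2 + m23_3 - n3) ∧ (0 ≤ 0 + m23_2 - m23_3 + n3)) ∨ ((0 ≤ 1 - B3 + m23_3) ∧ (0 ≤ -1 + B3 - m23_3)) := by
    have h := C.f23_10
    clear C e0 e1 e2 s1 s2 s3
    omega
  have d7 : ((0 ≤ 0 - m33_2 + m33_3 - n3) ∧ (0 ≤ 0 + m33_2 - m33_3 + n3)) ∨ ((0 ≤ 1 - A3 + m33_3) ∧ (0 ≤ -1 + A3 - m33_3)) := by
    have h := C.f33_8
    clear C e0 e1 e2 s1 s2 s3
    omega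
  have d8 : ((0 ≤ 0 - A2)) ∨ ((0 ≤ 0 - B3)) ∨ ((0 ≤ 0 - A3)) ∨ ((0 ≤ -1 + 2 * A1 - m23_1 - m33_1)) ∨ ((0 ≤ -1 + 2 * A2 - m23_2 - m33_2)) ∨ ((0 ≤ -1 + 2 * A3 - m23_3 - m33_3)) := by
    have h := C.p23_33A
    clear C e0 e1 e2 s1 s2 s3
    omega
  have d9 : ((0 ≤ 0 + A1 - A2)) ∨ ((0 ≤ 1 - A2 + A3 - n3)) ∨ ((0 ≤ 0 - B1 + B2 - n2)) ∨ ((0 ≤ 1 + B2 - B3)) ∨ ((0 ≤ -1 + A2 - B2) ∧ (0 ≤ 1 + A3 - B3)) := by
    have h := C.tzpm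
    clear C e0 e1 e2 s1 s2 s3
    omega
  have d10 : ((0 ≤ 0 - A1)) ∨ ((0 ≤ 0 - A1 + A2 - n2)) ∨ ((0 ≤ 0 - A2 + A3 - n3)) ∨ ((0 ≤ 0 + B1 - n1)) ∨ ((0 ≤ 0 + B1 - B2)) ∨ ((0 ≤ 0 + B2 - B3)) ∨ ((0 ≤ 1 + A3 - B3)) ∨ ((0 ≤ 1 - A1 + B1) ∧ (0 ≤ 0 - A2 + B2)) := by
    have h := C.tpzm
    clear C e0 e1 e2 s1 s2 s3
    omega
  rcases d7 with ⟨g1, g2⟩ | ⟨g3, g4⟩
  · linarith only [C.f23_5, s2, s3, C.b5, C.f23_9, g1, C.f33_7]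
  · rcases d8 with g5 | g6 | g7 | g8 | g9 | g10
    · linarith only [g5, e0]
    · linarith only [g6, e1]
    · linarith only [g7, e2]
    · rcases d9 with g11 | g12 | g13 | g14 | ⟨g15, g16⟩
      · rcases d2 with ⟨g17, g18⟩ | ⟨g19, g20⟩ | ⟨g21, g22⟩
        · linarith only [g17, C.a1, g11, C.f23_1]
        · rcases d1 with ⟨g23, g24⟩ | ⟨g25, g26⟩
          · linarith only [g23, g11]
          · rcases d10 with g27 | g28 | g29 | g30 | g31 | g32 | g33 | ⟨g34, g35⟩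
            · linarith only [e0, g27, g11]
            · linarith only [g28, g11, g25, C.b3]
            · linarith only [C.o1, s3, g29, g26, C.f23_9, g4]
            · linarith only [s1, C.a1, g11, g30, g20, g8]
            · linarith only [g31, g25]
            · linarith only [g32, s2, s3, C.f23_5, C.f23_9, C.f33_4, g4]
            · linarith only [g33, s3, C.f23_9, g4]
            · linarith only [g34, s1, g11, g20, g8]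
        · linarith only [C.a4, s3, C.f23_1, g21, C.f23_9, g4]
      · linarith only [C.o1, s3, g12, C.b5, C.f23_9, g4]
      · rcases d0 with ⟨g36, g37⟩ | ⟨g38, g39⟩
        · rcases d10 with g40 | g41 | g42 | g43 | g44 | g45 | g46 | ⟨g47, g48⟩
          · linarith only [g40, g36]
          · linarith only [g41, g37]
          · linarith only [C.o1, s3, g42, C.b5, C.f23_9, g4]
          · linarith only [g43, s2, g13, C.f23_5, C.f33_0, C.f33_3]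
          · linarith only [g37, C.a2, g44, g13]
          · linarith only [g45, s2, s3, C.f23_5, C.f23_9, C.f33_4, g4]
          · linarith only [g46, s3, C.f23_9, g4]
          · linarith only [g47, s1, s2, g13, C.f23_5, C.f33_3, g8]
        · linarith only [g39, g13]
      · linarith only [g14, s2, s3, C.f23_5, C.f23_9, C.f33_4, g4]
      · linarith only [g16, s3, C.f23_9, g4]
    · rcases d4 with ⟨g49, g50⟩ | ⟨g51, g52⟩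
      · linarith only [C.b5, s2, g49, C.f23_9, g9]
      · rcases d10 with g53 | g54 | g55 | g56 | g57 | g58 | g59 | ⟨g60, g61⟩
        · linarith only [C.o0, g53, C.b0]
        · rcases d0 with ⟨g62, g63⟩ | ⟨g64, g65⟩
          · linarith only [g63, g54]
          · rcases d9 with g66 | g67 | g68 | g69 | ⟨g70, g71⟩
            · linarith only [g66, g54, C.b2, g65]
            · linarith only [C.b5, s3, g54, g67, g65, C.o0, g52, g4]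
            · linarith only [g68, g65]
            · linarith only [s2, s3, g69, C.f23_5, g52, C.f33_4, g4]
            · linarith only [g71, s3, g52, g4]
        · linarith only [g55, s2, s3, C.b5, C.f23_5, g52, g4, g9]
        · linarith only [C.o0, C.a1, g56]
        · rcases d1 with ⟨g72, g73⟩ | ⟨g74, g75⟩
          · rcases d9 with g76 | g77 | g78 | g79 | ⟨g80, g81⟩
            · linarith only [g76, g72]
            · linarith only [C.o0, s3, g72, g77, g57, C.b5, g52, g4]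
            · linarith only [g78, g72, C.a3, g57]
            · linarith only [s2, s3, g79, C.f23_5, g52, C.f33_4, g4]
            · linarith only [g81, s3, g52, g4]
          · linarith only [g74, g57]
        · linarith only [g58, s2, s3, C.f23_5, g52, C.f33_4, g4]
        · linarith only [g59, s3, g52, g4]
        · linarith only [g61, s2, C.f23_5, g9]
    · linarith only [g10, s3, C.f23_9]

theorem c0_23_23_33_k3 {n1 n2 n3 A1 A2 A3 B1 B2 B3 m11_1 m11_2 m11_3 m13_1 m13_2 m13_3 m22_1 m22_2 m22_3 m23_1 m23_2 m23_3 m33_1 m33_2 m33_3 : ℤ}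
    (C : Ctx0 n1 n2 n3 A1 A2 A3 B1 B2 B3 m11_1 m11_2 m11_3 m13_1 m13_2 m13_3 m22_1 m22_2 m22_3 m23_1 m23_2 m23_3 m33_1 m33_2 m33_3)
    (e0 : 0 < A2)
    (e1 : 0 < B3)
    (e2 : 0 < A3)
    (s1 : 3 * A1 + 0 * B1 ≤ m23_1 + m23_1 + m33_1)
    (s2 : 3 * A2 + 0 * B2 ≤ m23_2 + m23_2 + m33_2)
    (s3 : 3 * A3 + 0 * B3 ≤ m23_3 + m23_3 + m33_3) : False := by
  have d5 : ((0 ≤ 0 + m33_1 - n1) ∧ (0 ≤ 0 - m33_1 + n1)) ∨ ((0 ≤ 1 - A3 + m33_1) ∧ (0 ≤ -1 + A3 - m33_1)) := by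
    have h := C.f33_2
    clear C e0 e1 e2 s1 s2 s3
    omega
  have d7 : ((0 ≤ 0 - m33_2 + m33_3 - n3) ∧ (0 ≤ 0 + m33_2 - m33_3 + n3)) ∨ ((0 ≤ 1 - A3 + m33_3) ∧ (0 ≤ -1 + A3 - m33_3)) := by
    have h := C.f33_8
    clear C e0 e1 e2 s1 s2 s3
    omega
  have d8 : ((0 ≤ 0 - A2)) ∨ ((0 ≤ 0 - B3)) ∨ ((0 ≤ 0 - A3)) ∨ ((0 ≤ -1 + 2 * A1 - m23_1 - m33_1)) ∨ ((0 ≤ -1 + 2 * A2 - m23_2 - m33_2)) ∨ ((0 ≤ -1 + 2 * A3 - m23_3 - m33_3)) := by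
    have h := C.p23_33A
    clear C e0 e1 e2 s1 s2 s3
    omega
  rcases d7 with ⟨g1, g2⟩ | ⟨g3, g4⟩
  · linarith only [C.f23_5, s2, s3, C.b5, C.o1, C.f23_9, g1, C.f33_7]
  · rcases d8 with g5 | g6 | g7 | g8 | g9 | g10
    · linarith only [g5, e0]
    · linarith only [g6, e1]
    · linarith only [g7, e2]
    · rcases d5 with ⟨g11, g12⟩ | ⟨g13, g14⟩
      · linarith only [g11, s1, C.f23_0, g8]
      · linarith only [g13, s1, s2, C.f23_1, C.f23_5, C.f33_4, g8]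
    · linarith only [g9, s2, C.f23_5]
    · linarith only [g10, s3, g3]

end Pool.Agent.Helper89.TQ
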