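import Pool.Agent.Helper89.TQ.Ctx

set_option autoImplicit false
set_option linter.all false
set_option maxHeartbeats 4000000

namespace Pool.Agent.Helper89.TQ

theorem c0_33_33_33_k0 {n1 n2 n3 A1 A2 A3 B1 B2 B3 m11_1 m11_2 m11_3 m13_1 m13_2 m13_3 m22_1 m22_2 m22_3 m23_1 m23_2 m23_3 m33_1 m33_2 m33_3 : ℤ}
    (C : Ctx0 n1 n2 n3 A1 A2 A3 B1 B2 B3 m11_1 m11_2 m11_3 m13_1 m13_2 m13_3 m22_1 m22_2 m22_3 m23_1 m23_2 m23_3 m33_1 m33_2 m33_3)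
    (e0 : 0 < A3)
    (s1 : 0 * A1 + 3 * B1 ≤ m33_1 + m33_1 + m33_1)
    (s2 : 0 * A2 + 3 * B2 ≤ m33_2 + m33_2 + m33_2)
    (s3 : 0 * A3 + 3 * B3 ≤ m33_3 + m33_3 + m33_3) : False := by
  linarith only [C.f33_7, s3, C.o2]

theorem c0_33_33_33_k1 {n1 n2 n3 A1 A2 A3 B1 B2 B3 m11_1 m11_2 m11_3 m13_1 m13_2 m13_3 m22_1 m22_2 m22_3 m23_1 m23_2 m23_3 m33_1 m33_2 m33_3 : ℤ}
    (C : Ctx0 n1 n2 n3 A1 A2 A3 B1 B2 B3 m11_1 m11_2 m11_3 m13_1 m13_2 m13_3 m22_1 m22_2 m22_3 m23_1 m23_2 m23_3 m33_1 m33_2 m33_3)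
    (e0 : 0 < A3)
    (s1 : 1 * A1 + 2 * B1 ≤ m33_1 + m33_1 + m33_1)
    (s2 : 1 * A2 + 2 * B2 ≤ m33_2 + m33_2 + m33_2)
    (s3 : 1 * A3 + 2 * B3 ≤ m33_3 + m33_3 + m33_3) : False := by
  linarith only [C.f33_7, s3, C.o2]

theorem c0_33_33_33_k2 {n1 n2 n3 A1 A2 A3 B1 B2 B3 m11_1 m11_2 m11_3 m13_1 m13_2 m13_3 m22_1 m22_2 m22_3 m23_1 m23_2 m23_3 m33_1 m33_2 m33_3 : ℤ}
    (C : Ctx0 n1 n2 n3 A1 A2 A3 B1 B2 B3 m11_1 m11_2 m11_3 m13_1 m13_2 m13_3 m22_1 m22_2 m22_3 m23_1 m23_2 m23_3 m33_1 m33_2 m33_3)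
    (e0 : 0 < A3)
    (s1 : 2 * A1 + 1 * B1 ≤ m33_1 + m33_1 + m33_1)
    (s2 : 2 * A2 + 1 * B2 ≤ m33_2 + m33_2 + m33_2)
    (s3 : 2 * A3 + 1 * B3 ≤ m33_3 + m33_3 + m33_3) : False := by
  linarith only [C.f33_7, s3, C.o2]

theorem c0_33_33_33_k3 {n1 n2 n3 A1 A2 A3 B1 B2 B3 m11_1 m11_2 m11_3 m13_1 m13_2 m13_3 m22_1 m22_2 m22_3 m23_1 m23_2 m23_3 m33_1 m33_2 m33_3 : ℤ}
    (C : Ctx0 n1 n2 n3 A1 A2 A3 B1 B2 B3 m11_1 m11_2 m11_3 m13_1 m13_2 m13_3 m22_1 m22_2 m22_3 m23_1 m23_2 m23_3 m33_1 m33_2 m33_3)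
    (e0 : 0 < A3)
    (s1 : 3 * A1 + 0 * B1 ≤ m33_1 + m33_1 + m33_1)
    (s2 : 3 * A2 + 0 * B2 ≤ m33_2 + m33_2 + m33_2)
    (s3 : 3 * A3 + 0 * B3 ≤ m33_3 + m33_3 + m33_3) : False := by
  linarith only [C.f33_7, s3]

end Pool.Agent.Helper89.TQ
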