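import Pool.Agent.Helper89.TQ.P0_11_11
import Pool.Agent.Helper89.TQ.P0_11_13
import Pool.Agent.Helper89.TQ.P0_11_22
import Pool.Agent.Helper89.TQ.P0_11_23
import Pool.Agent.Helper89.TQ.P0_11_33
import Pool.Agent.Helper89.TQ.P0_13_13
import Pool.Agent.Helper89.TQ.P0_13_22
import Pool.Agent.Helper89.TQ.P0_13_23
import Pool.Agent.Helper89.TQ.P0_13_33
import Pool.Agent.Helper89.TQ.P0_22_22
import Pool.Agent.Helper89.TQ.P0_22_23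
import Pool.Agent.Helper89.TQ.P0_22_33
import Pool.Agent.Helper89.TQ.P0_23_23
import Pool.Agent.Helper89.TQ.P0_23_33
import Pool.Agent.Helper89.TQ.P0_33_33
import Pool.Agent.Helper89.TQ.Prep0
import Pool.Agent.Helper86.TQ.c0_11_11_33_k0
import Pool.Agent.Helper56.TQ.c0_11_11_33_k1
import Pool.Agent.Helper5.TQ.c0_11_13_23_k0
import Pool.Agent.Helper65.TQ.c0_11_13_23_k3
import Pool.Agent.Helper74.TQ.c0_11_13_33_k2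
import Pool.Agent.Helper65.TQ.c0_11_22_23_k3
import Pool.Agent.Helper70.TQ.c0_11_22_33_k0
import Pool.Agent.Helper10.TQ.c0_11_22_33_k1
import Pool.Agent.Helper86.TQ.c0_11_22_33_k3
import Pool.Agent.Helper79.TQ.c0_11_23_33_k1
import Pool.Agent.Helper86.TQ.c0_11_23_33_k2
import Pool.Agent.Helper86.TQ.c0_11_23_33_k3
import Pool.Agent.Helper86.TQ.c0_11_33_33_k2
import Pool.Agent.Helper86.TQ.c0_11_33_33_k3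
import Pool.Agent.Helper9.TQ.c0_13_22_33_k2
import Pool.Agent.Helper46.TQ.c0_13_22_33_k3
import Pool.Agent.Helper44.TQ.c0_13_23_33_k2
import Pool.Agent.Helper82.TQ.c0_22_23_33_k3

set_option autoImplicit false
set_option linter.all false
set_option maxHeartbeats 4000000

namespace Pool.Agent.Helper89.TQ

theorem c0_11_11_33_k0 {n1 n2 n3 A1 A2 A3 B1 B2 B3 m11_1 m11_2 m11_3 m13_1 m13_2 m13_3 m22_1 m22_2 m22_3 m23_1 m23_2 m23_3 m33_1 m33_2 m33_3 : ℤ}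
    (C : Ctx0 n1 n2 n3 A1 A2 A3 B1 B2 B3 m11_1 m11_2 m11_3 m13_1 m13_2 m13_3 m22_1 m22_2 m22_3 m23_1 m23_2 m23_3 m33_1 m33_2 m33_3)
    (e0 : 0 < B1)
    (e1 : 0 < A3)
    (s1 : 0 * A1 + 3 * B1 ≤ m11_1 + m11_1 + m33_1)
    (s2 : 0 * A2 + 3 * B2 ≤ m11_2 + m11_2 + m33_2)
    (s3 : 0 * A3 + 3 * B3 ≤ m11_3 + m11_3 + m33_3) : False :=
  Pool.Agent.Helper86.TQ.c0_11_11_33_k0 C e0 e1 s1 s2 s3

theorem c0_11_11_33_k1 {n1 n2 n3 A1 A2 A3 B1 B2 B3 m11_1 m11_2 m11_3 m13_1 m13_2 m13_3 m22_1 m22_2 m22_3 m23_1 m23_2 m23_3 m33_1 m33_2 m33_3 : ℤ}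
    (C : Ctx0 n1 n2 n3 A1 A2 A3 B1 B2 B3 m11_1 m11_2 m11_3 m13_1 m13_2 m13_3 m22_1 m22_2 m22_3 m23_1 m23_2 m23_3 m33_1 m33_2 m33_3)
    (e0 : 0 < B1)
    (e1 : 0 < A3)
    (s1 : 1 * A1 + 2 * B1 ≤ m11_1 + m11_1 + m33_1)
    (s2 : 1 * A2 + 2 * B2 ≤ m11_2 + m11_2 + m33_2)
    (s3 : 1 * A3 + 2 * B3 ≤ m11_3 + m11_3 + m33_3) : False :=
  Pool.Agent.Helper56.TQ.c0_11_11_33_k1 C e0 e1 s1 s2 s3

theorem c0_11_13_23_k0 {n1 n2 n3 A1 A2 A3 B1 B2 B3 m11_1 m11_2 m11_3 m13_1 m13_2 m13_3 m22_1 m22_2 m22_3 m23_1 m23_2 m23_3 m33_1 m33_2 m33_3 : ℤ}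
    (C : Ctx0 n1 n2 n3 A1 A2 A3 B1 B2 B3 m11_1 m11_2 m11_3 m13_1 m13_2 m13_3 m22_1 m22_2 m22_3 m23_1 m23_2 m23_3 m33_1 m33_2 m33_3)
    (e0 : 0 < B1)
    (e1 : 0 < A1)
    (e2 : 0 < B3)
    (e3 : 0 < A2)
    (s1 : 0 * A1 + 3 * B1 ≤ m11_1 + m13_1 + m23_1)
    (s2 : 0 * A2 + 3 * B2 ≤ m11_2 + m13_2 + m23_2)
    (s3 : 0 * A3 + 3 * B3 ≤ m11_3 + m13_3 + m23_3) : False :=
  Pool.Agent.Helper5.TQ.c0_11_13_23_k0 C e0 e1 e2 e3 s1 s2 s3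

theorem c0_11_13_23_k3 {n1 n2 n3 A1 A2 A3 B1 B2 B3 m11_1 m11_2 m11_3 m13_1 m13_2 m13_3 m22_1 m22_2 m22_3 m23_1 m23_2 m23_3 m33_1 m33_2 m33_3 : ℤ}
    (C : Ctx0 n1 n2 n3 A1 A2 A3 B1 B2 B3 m11_1 m11_2 m11_3 m13_1 m13_2 m13_3 m22_1 m22_2 m22_3 m23_1 m23_2 m23_3 m33_1 m33_2 m33_3)
    (e0 : 0 < B1)
    (e1 : 0 < A1)
    (e2 : 0 < B3)
    (e3 : 0 < A2)
    (s1 : 3 * A1 + 0 * B1 ≤ m11_1 + m13_1 + m23_1)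
    (s2 : 3 * A2 + 0 * B2 ≤ m11_2 + m13_2 + m23_2)
    (s3 : 3 * A3 + 0 * B3 ≤ m11_3 + m13_3 + m23_3) : False :=
  Pool.Agent.Helper65.TQ.c0_11_13_23_k3 C e0 e1 e2 e3 s1 s2 s3

theorem c0_11_13_33_k2 {n1 n2 n3 A1 A2 A3 B1 B2 B3 m11_1 m11_2 m11_3 m13_1 m13_2 m13_3 m22_1 m22_2 m22_3 m23_1 m23_2 m23_3 m33_1 m33_2 m33_3 : ℤ}
    (C : Ctx0 n1 n2 n3 A1 A2 A3 B1 B2 B3 m11_1 m11_2 m11_3 m13_1 m13_2 m13_3 m22_1 m22_2 m22_3 m23_1 m23_2 m23_3 m33_1 m33_2 m33_3)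
    (e0 : 0 < B1)
    (e1 : 0 < A1)
    (e2 : 0 < B3)
    (e3 : 0 < A3)
    (s1 : 2 * A1 + 1 * B1 ≤ m11_1 + m13_1 + m33_1)
    (s2 : 2 * A2 + 1 * B2 ≤ m11_2 + m13_2 + m33_2)
    (s3 : 2 * A3 + 1 * B3 ≤ m11_3 + m13_3 + m33_3) : False :=
  Pool.Agent.Helper74.TQ.c0_11_13_33_k2 C e0 e1 e2 e3 s1 s2 s3

theorem c0_11_22_23_k3 {n1 n2 n3 A1 A2 A3 B1 B2 B3 m11_1 m11_2 m11_3 m13_1 m13_2 m13_3 m22_1 m22_2 m22_3 m23_1 m23_2 m23_3 m33_1 m33_2 m33_3 : ℤ}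
    (C : Ctx0 n1 n2 n3 A1 A2 A3 B1 B2 B3 m11_1 m11_2 m11_3 m13_1 m13_2 m13_3 m22_1 m22_2 m22_3 m23_1 m23_2 m23_3 m33_1 m33_2 m33_3)
    (e0 : 0 < B1)
    (e1 : 0 < B2)
    (e2 : 0 < A2)
    (e3 : 0 < B3)
    (s1 : 3 * A1 + 0 * B1 ≤ m11_1 + m22_1 + m23_1)
    (s2 : 3 * A2 + 0 * B2 ≤ m11_2 + m22_2 + m23_2)
    (s3 : 3 * A3 + 0 * B3 ≤ m11_3 + m22_3 + m23_3) : False :=
  Pool.Agent.Helper65.TQ.c0_11_22_23_k3 C e0 e1 e2 e3 s1 s2 s3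

theorem c0_11_22_33_k0 {n1 n2 n3 A1 A2 A3 B1 B2 B3 m11_1 m11_2 m11_3 m13_1 m13_2 m13_3 m22_1 m22_2 m22_3 m23_1 m23_2 m23_3 m33_1 m33_2 m33_3 : ℤ}
    (C : Ctx0 n1 n2 n3 A1 A2 A3 B1 B2 B3 m11_1 m11_2 m11_3 m13_1 m13_2 m13_3 m22_1 m22_2 m22_3 m23_1 m23_2 m23_3 m33_1 m33_2 m33_3)
    (e0 : 0 < B1)
    (e1 : 0 < B2)
    (e2 : 0 < A3)
    (s1 : 0 * A1 + 3 * B1 ≤ m11_1 + m22_1 + m33_1)
    (s2 : 0 * A2 + 3 * B2 ≤ m11_2 + m22_2 + m33_2)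
    (s3 : 0 * A3 + 3 * B3 ≤ m11_3 + m22_3 + m33_3) : False :=
  Pool.Agent.Helper70.TQ.c0_11_22_33_k0 C e0 e1 e2 s1 s2 s3

theorem c0_11_22_33_k1 {n1 n2 n3 A1 A2 A3 B1 B2 B3 m11_1 m11_2 m11_3 m13_1 m13_2 m13_3 m22_1 m22_2 m22_3 m23_1 m23_2 m23_3 m33_1 m33_2 m33_3 : ℤ}
    (C : Ctx0 n1 n2 n3 A1 A2 A3 B1 B2 B3 m11_1 m11_2 m11_3 m13_1 m13_2 m13_3 m22_1 m22_2 m22_3 m23_1 m23_2 m23_3 m33_1 m33_2 m33_3)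
    (e0 : 0 < B1)
    (e1 : 0 < B2)
    (e2 : 0 < A3)
    (s1 : 1 * A1 + 2 * B1 ≤ m11_1 + m22_1 + m33_1)
    (s2 : 1 * A2 + 2 * B2 ≤ m11_2 + m22_2 + m33_2)
    (s3 : 1 * A3 + 2 * B3 ≤ m11_3 + m22_3 + m33_3) : False :=
  Pool.Agent.Helper10.TQ.c0_11_22_33_k1 C e0 e1 e2 s1 s2 s3

theorem c0_11_22_33_k3 {n1 n2 n3 A1 A2 A3 B1 B2 B3 m11_1 m11_2 m11_3 m13_1 m13_2 m13_3 m22_1 m22_2 m22_3 m23_1 m23_2 m23_3 m33_1 m33_2 m33_3 : ℤ}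
    (C : Ctx0 n1 n2 n3 A1 A2 A3 B1 B2 B3 m11_1 m11_2 m11_3 m13_1 m13_2 m13_3 m22_1 m22_2 m22_3 m23_1 m23_2 m23_3 m33_1 m33_2 m33_3)
    (e0 : 0 < B1)
    (e1 : 0 < B2)
    (e2 : 0 < A3)
    (s1 : 3 * A1 + 0 * B1 ≤ m11_1 + m22_1 + m33_1)
    (s2 : 3 * A2 + 0 * B2 ≤ m11_2 + m22_2 + m33_2)
    (s3 : 3 * A3 + 0 * B3 ≤ m11_3 + m22_3 + m33_3) : False :=
  Pool.Agent.Helper86.TQ.c0_11_22_33_k3 C e0 e1 e2 s1 s2 s3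

theorem c0_11_23_33_k1 {n1 n2 n3 A1 A2 A3 B1 B2 B3 m11_1 m11_2 m11_3 m13_1 m13_2 m13_3 m22_1 m22_2 m22_3 m23_1 m23_2 m23_3 m33_1 m33_2 m33_3 : ℤ}
    (C : Ctx0 n1 n2 n3 A1 A2 A3 B1 B2 B3 m11_1 m11_2 m11_3 m13_1 m13_2 m13_3 m22_1 m22_2 m22_3 m23_1 m23_2 m23_3 m33_1 m33_2 m33_3)
    (e0 : 0 < B1)
    (e1 : 0 < A2)
    (e2 : 0 < B3)
    (e3 : 0 < A3)
    (s1 : 1 * A1 + 2 * B1 ≤ m11_1 + m23_1 + m33_1)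
    (s2 : 1 * A2 + 2 * B2 ≤ m11_2 + m23_2 + m33_2)
    (s3 : 1 * A3 + 2 * B3 ≤ m11_3 + m23_3 + m33_3) : False :=
  Pool.Agent.Helper79.TQ.c0_11_23_33_k1 C e0 e1 e2 e3 s1 s2 s3

theorem c0_11_23_33_k2 {n1 n2 n3 A1 A2 A3 B1 B2 B3 m11_1 m11_2 m11_3 m13_1 m13_2 m13_3 m22_1 m22_2 m22_3 m23_1 m23_2 m23_3 m33_1 m33_2 m33_3 : ℤ}
    (C : Ctx0 n1 n2 n3 A1 A2 A3 B1 B2 B3 m11_1 m11_2 m11_3 m13_1 m13_2 m13_3 m22_1 m22_2 m22_3 m23_1 m23_2 m23_3 m33_1 m33_2 m33_3)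
    (e0 : 0 < B1)
    (e1 : 0 < A2)
    (e2 : 0 < B3)
    (e3 : 0 < A3)
    (s1 : 2 * A1 + 1 * B1 ≤ m11_1 + m23_1 + m33_1)
    (s2 : 2 * A2 + 1 * B2 ≤ m11_2 + m23_2 + m33_2)
    (s3 : 2 * A3 + 1 * B3 ≤ m11_3 + m23_3 + m33_3) : False :=
  Pool.Agent.Helper86.TQ.c0_11_23_33_k2 C e0 e1 e2 e3 s1 s2 s3

theorem c0_11_23_33_k3 {n1 n2 n3 A1 A2 A3 B1 B2 B3 m11_1 m11_2 m11_3 m13_1 m13_2 m13_3 m22_1 m22_2 m22_3 m23_1 m23_2 m23_3 m33_1 m33_2 m33_3 : ℤ}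
    (C : Ctx0 n1 n2 n3 A1 A2 A3 B1 B2 B3 m11_1 m11_2 m11_3 m13_1 m13_2 m13_3 m22_1 m22_2 m22_3 m23_1 m23_2 m23_3 m33_1 m33_2 m33_3)
    (e0 : 0 < B1)
    (e1 : 0 < A2)
    (e2 : 0 < B3)
    (e3 : 0 < A3)
    (s1 : 3 * A1 + 0 * B1 ≤ m11_1 + m23_1 + m33_1)
    (s2 : 3 * A2 + 0 * B2 ≤ m11_2 + m23_2 + m33_2)
    (s3 : 3 * A3 + 0 * B3 ≤ m11_3 + m23_3 + m33_3) : F1 n1 n2 n3 A1 A2 A3 B1 B2 B3 ∨ F2 n1 n2 n3 A1 A2 A3 B1 B2 B3 :=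
  Pool.Agent.Helper86.TQ.c0_11_23_33_k3 C e0 e1 e2 e3 s1 s2 s3

theorem c0_11_33_33_k2 {n1 n2 n3 A1 A2 A3 B1 B2 B3 m11_1 m11_2 m11_3 m13_1 m13_2 m13_3 m22_1 m22_2 m22_3 m23_1 m23_2 m23_3 m33_1 m33_2 m33_3 : ℤ}
    (C : Ctx0 n1 n2 n3 A1 A2 A3 B1 B2 B3 m11_1 m11_2 m11_3 m13_1 m13_2 m13_3 m22_1 m22_2 m22_3 m23_1 m23_2 m23_3 m33_1 m33_2 m33_3)
    (e0 : 0 < B1)
    (e1 : 0 < A3)
    (s1 : 2 * A1 + 1 * B1 ≤ m11_1 + m33_1 + m33_1)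
    (s2 : 2 * A2 + 1 * B2 ≤ m11_2 + m33_2 + m33_2)
    (s3 : 2 * A3 + 1 * B3 ≤ m11_3 + m33_3 + m33_3) : False :=
  Pool.Agent.Helper86.TQ.c0_11_33_33_k2 C e0 e1 s1 s2 s3

theorem c0_11_33_33_k3 {n1 n2 n3 A1 A2 A3 B1 B2 B3 m11_1 m11_2 m11_3 m13_1 m13_2 m13_3 m22_1 m22_2 m22_3 m23_1 m23_2 m23_3 m33_1 m33_2 m33_3 : ℤ}
    (C : Ctx0 n1 n2 n3 A1 A2 A3 B1 B2 B3 m11_1 m11_2 m11_3 m13_1 m13_2 m13_3 m22_1 m22_2 m22_3 m23_1 m23_2 m23_3 m33_1 m33_2 m33_3)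
    (e0 : 0 < B1)
    (e1 : 0 < A3)
    (s1 : 3 * A1 + 0 * B1 ≤ m11_1 + m33_1 + m33_1)
    (s2 : 3 * A2 + 0 * B2 ≤ m11_2 + m33_2 + m33_2)
    (s3 : 3 * A3 + 0 * B3 ≤ m11_3 + m33_3 + m33_3) : False :=
  Pool.Agent.Helper86.TQ.c0_11_33_33_k3 C e0 e1 s1 s2 s3

theorem c0_13_22_33_k2 {n1 n2 n3 A1 A2 A3 B1 B2 B3 m11_1 m11_2 m11_3 m13_1 m13_2 m13_3 m22_1 m22_2 m22_3 m23_1 m23_2 m23_3 m33_1 m33_2 m33_3 : ℤ}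
    (C : Ctx0 n1 n2 n3 A1 A2 A3 B1 B2 B3 m11_1 m11_2 m11_3 m13_1 m13_2 m13_3 m22_1 m22_2 m22_3 m23_1 m23_2 m23_3 m33_1 m33_2 m33_3)
    (e0 : 0 < A1)
    (e1 : 0 < B3)
    (e2 : 0 < B2)
    (e3 : 0 < A3)
    (s1 : 2 * A1 + 1 * B1 ≤ m13_1 + m22_1 + m33_1)
    (s2 : 2 * A2 + 1 * B2 ≤ m13_2 + m22_2 + m33_2)
    (s3 : 2 * A3 + 1 * B3 ≤ m13_3 + m22_3 + m33_3) : False :=
  Pool.Agent.Helper9.TQ.c0_13_22_33_k2 C e0 e1 e2 e3 s1 s2 s3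

theorem c0_13_22_33_k3 {n1 n2 n3 A1 A2 A3 B1 B2 B3 m11_1 m11_2 m11_3 m13_1 m13_2 m13_3 m22_1 m22_2 m22_3 m23_1 m23_2 m23_3 m33_1 m33_2 m33_3 : ℤ}
    (C : Ctx0 n1 n2 n3 A1 A2 A3 B1 B2 B3 m11_1 m11_2 m11_3 m13_1 m13_2 m13_3 m22_1 m22_2 m22_3 m23_1 m23_2 m23_3 m33_1 m33_2 m33_3)
    (e0 : 0 < A1)
    (e1 : 0 < B3)
    (e2 : 0 < B2)
    (e3 : 0 < A3)
    (s1 : 3 * A1 + 0 * B1 ≤ m13_1 + m22_1 + m33_1)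
    (s2 : 3 * A2 + 0 * B2 ≤ m13_2 + m22_2 + m33_2)
    (s3 : 3 * A3 + 0 * B3 ≤ m13_3 + m22_3 + m33_3) : F1 n1 n2 n3 A1 A2 A3 B1 B2 B3 ∨ F2 n1 n2 n3 A1 A2 A3 B1 B2 B3 :=
  Pool.Agent.Helper46.TQ.c0_13_22_33_k3 C e0 e1 e2 e3 s1 s2 s3

theorem c0_13_23_33_k2 {n1 n2 n3 A1 A2 A3 B1 B2 B3 m11_1 m11_2 m11_3 m13_1 m13_2 m13_3 m22_1 m22_2 m22_3 m23_1 m23_2 m23_3 m33_1 m33_2 m33_3 : ℤ}
    (C : Ctx0 n1 n2 n3 A1 A2 A3 B1 B2 B3 m11_1 m11_2 m11_3 m13_1 m13_2 m13_3 m22_1 m22_2 m22_3 m23_1 m23_2 m23_3 m33_1 m33_2 m33_3)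
    (e0 : 0 < A1)
    (e1 : 0 < B3)
    (e2 : 0 < A2)
    (e3 : 0 < A3)
    (s1 : 2 * A1 + 1 * B1 ≤ m13_1 + m23_1 + m33_1)
    (s2 : 2 * A2 + 1 * B2 ≤ m13_2 + m23_2 + m33_2)
    (s3 : 2 * A3 + 1 * B3 ≤ m13_3 + m23_3 + m33_3) : False :=
  Pool.Agent.Helper44.TQ.c0_13_23_33_k2 C e0 e1 e2 e3 s1 s2 s3

theorem c0_22_23_33_k3 {n1 n2 n3 A1 A2 A3 B1 B2 B3 m11_1 m11_2 m11_3 m13_1 m13_2 m13_3 m22_1 m22_2 m22_3 m23_1 m23_2 m23_3 m33_1 m33_2 m33_3 : ℤ}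
    (C : Ctx0 n1 n2 n3 A1 A2 A3 B1 B2 B3 m11_1 m11_2 m11_3 m13_1 m13_2 m13_3 m22_1 m22_2 m22_3 m23_1 m23_2 m23_3 m33_1 m33_2 m33_3)
    (e0 : 0 < B2)
    (e1 : 0 < A2)
    (e2 : 0 < B3)
    (e3 : 0 < A3)
    (s1 : 3 * A1 + 0 * B1 ≤ m22_1 + m23_1 + m33_1)
    (s2 : 3 * A2 + 0 * B2 ≤ m22_2 + m23_2 + m33_2)
    (s3 : 3 * A3 + 0 * B3 ≤ m22_3 + m23_3 + m33_3) : False :=
  Pool.Agent.Helper82.TQ.c0_22_23_33_k3 C e0 e1 e2 e3 s1 s2 s3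

theorem tri0_11_11_11 {n1 n2 n3 A1 A2 A3 B1 B2 B3 m11_1 m11_2 m11_3 m13_1 m13_2 m13_3 m22_1 m22_2 m22_3 m23_1 m23_2 m23_3 m33_1 m33_2 m33_3 : ℤ}
    (C : Ctx0 n1 n2 n3 A1 A2 A3 B1 B2 B3 m11_1 m11_2 m11_3 m13_1 m13_2 m13_3 m22_1 m22_2 m22_3 m23_1 m23_2 m23_3 m33_1 m33_2 m33_3)
    (e0 : 0 < B1)
    (h : SG A1 A2 A3 B1 B2 B3 (m11_1 + m11_1 + m11_1) (m11_2 + m11_2 + m11_2) (m11_3 + m11_3 + m11_3)) :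
    F1 n1 n2 n3 A1 A2 A3 B1 B2 B3 ∨ F2 n1 n2 n3 A1 A2 A3 B1 B2 B3 := by
  rcases h with ⟨s1, s2, s3⟩ | ⟨s1, s2, s3⟩ | ⟨s1, s2, s3⟩ | ⟨s1, s2, s3⟩
  · exact (c0_11_11_11_k0 C e0 s1 s2 s3).elim
  · exact (c0_11_11_11_k1 C e0 s1 s2 s3).elim
  · exact (c0_11_11_11_k2 C e0 s1 s2 s3).elim
  · exact (c0_11_11_11_k3 C e0 s1 s2 s3).elim

theorem tri0_11_11_13 {n1 n2 n3 A1 A2 A3 B1 B2 B3 m11_1 m11_2 m11_3 m13_1 m13_2 m13_3 m22_1 m22_2 m22_3 m23_1 m23_2 m23_3 m33_1 m33_2 m33_3 : ℤ}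
    (C : Ctx0 n1 n2 n3 A1 A2 A3 B1 B2 B3 m11_1 m11_2 m11_3 m13_1 m13_2 m13_3 m22_1 m22_2 m22_3 m23_1 m23_2 m23_3 m33_1 m33_2 m33_3)
    (e0 : 0 < B1)
    (e1 : 0 < A1)
    (e2 : 0 < B3)
    (h : SG A1 A2 A3 B1 B2 B3 (m11_1 + m11_1 + m13_1) (m11_2 + m11_2 + m13_2) (m11_3 + m11_3 + m13_3)) :
    F1 n1 n2 n3 A1 A2 A3 B1 B2 B3 ∨ F2 n1 n2 n3 A1 A2 A3 B1 B2 B3 := by
  rcases h with ⟨s1, s2, s3⟩ | ⟨s1, s2, s3⟩ | ⟨s1, s2, s3⟩ | ⟨s1, s2, s3⟩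
  · exact (c0_11_11_13_k0 C e0 e1 e2 s1 s2 s3).elim
  · exact (c0_11_11_13_k1 C e0 e1 e2 s1 s2 s3).elim
  · exact (c0_11_11_13_k2 C e0 e1 e2 s1 s2 s3).elim
  · exact (c0_11_11_13_k3 C e0 e1 e2 s1 s2 s3).elim

theorem tri0_11_11_22 {n1 n2 n3 A1 A2 A3 B1 B2 B3 m11_1 m11_2 m11_3 m13_1 m13_2 m13_3 m22_1 m22_2 m22_3 m23_1 m23_2 m23_3 m33_1 m33_2 m33_3 : ℤ}
    (C : Ctx0 n1 n2 n3 A1 A2 A3 B1 B2 B3 m11_1 m11_2 m11_3 m13_1 m13_2 m13_3 m22_1 m22_2 m22_3 m23_1 m23_2 m23_3 m33_1 m33_2 m33_3)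
    (e0 : 0 < B1)
    (e1 : 0 < B2)
    (h : SG A1 A2 A3 B1 B2 B3 (m11_1 + m11_1 + m22_1) (m11_2 + m11_2 + m22_2) (m11_3 + m11_3 + m22_3)) :
    F1 n1 n2 n3 A1 A2 A3 B1 B2 B3 ∨ F2 n1 n2 n3 A1 A2 A3 B1 B2 B3 := by
  rcases h with ⟨s1, s2, s3⟩ | ⟨s1, s2, s3⟩ | ⟨s1, s2, s3⟩ | ⟨s1, s2, s3⟩
  · exact (c0_11_11_22_k0 C e0 e1 s1 s2 s3).elim
  · exact (c0_11_11_22_k1 C e0 e1 s1 s2 s3).elim
  · exact (c0_11_11_22_k2 C e0 e1 s1 s2 s3).elim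
  · exact (c0_11_11_22_k3 C e0 e1 s1 s2 s3).elim

theorem tri0_11_11_23 {n1 n2 n3 A1 A2 A3 B1 B2 B3 m11_1 m11_2 m11_3 m13_1 m13_2 m13_3 m22_1 m22_2 m22_3 m23_1 m23_2 m23_3 m33_1 m33_2 m33_3 : ℤ}
    (C : Ctx0 n1 n2 n3 A1 A2 A3 B1 B2 B3 m11_1 m11_2 m11_3 m13_1 m13_2 m13_3 m22_1 m22_2 m22_3 m23_1 m23_2 m23_3 m33_1 m33_2 m33_3)
    (e0 : 0 < B1)
    (e1 : 0 < A2)
    (e2 : 0 < B3)
    (h : SG A1 A2 A3 B1 B2 B3 (m11_1 + m11_1 + m23_1) (m11_2 + m11_2 + m23_2) (m11_3 + m11_3 + m23_3)) :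
    F1 n1 n2 n3 A1 A2 A3 B1 B2 B3 ∨ F2 n1 n2 n3 A1 A2 A3 B1 B2 B3 := by
  rcases h with ⟨s1, s2, s3⟩ | ⟨s1, s2, s3⟩ | ⟨s1, s2, s3⟩ | ⟨s1, s2, s3⟩
  · exact (c0_11_11_23_k0 C e0 e1 e2 s1 s2 s3).elim
  · exact (c0_11_11_23_k1 C e0 e1 e2 s1 s2 s3).elim
  · exact (c0_11_11_23_k2 C e0 e1 e2 s1 s2 s3).elim
  · exact (c0_11_11_23_k3 C e0 e1 e2 s1 s2 s3).elim

theorem tri0_11_11_33 {n1 n2 n3 A1 A2 A3 B1 B2 B3 m11_1 m11_2 m11_3 m13_1 m13_2 m13_3 m22_1 m22_2 m22_3 m23_1 m23_2 m23_3 m33_1 m33_2 m33_3 : ℤ}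
    (C : Ctx0 n1 n2 n3 A1 A2 A3 B1 B2 B3 m11_1 m11_2 m11_3 m13_1 m13_2 m13_3 m22_1 m22_2 m22_3 m23_1 m23_2 m23_3 m33_1 m33_2 m33_3)
    (e0 : 0 < B1)
    (e1 : 0 < A3)
    (h : SG A1 A2 A3 B1 B2 B3 (m11_1 + m11_1 + m33_1) (m11_2 + m11_2 + m33_2) (m11_3 + m11_3 + m33_3)) :
    F1 n1 n2 n3 A1 A2 A3 B1 B2 B3 ∨ F2 n1 n2 n3 A1 A2 A3 B1 B2 B3 := by
  rcases h with ⟨s1, s2, s3⟩ | ⟨s1, s2, s3⟩ | ⟨s1, s2, s3⟩ | ⟨s1, s2, s3⟩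
  · exact (c0_11_11_33_k0 C e0 e1 s1 s2 s3).elim
  · exact (c0_11_11_33_k1 C e0 e1 s1 s2 s3).elim
  · exact (c0_11_11_33_k2 C e0 e1 s1 s2 s3).elim
  · exact (c0_11_11_33_k3 C e0 e1 s1 s2 s3).elim

theorem tri0_11_13_13 {n1 n2 n3 A1 A2 A3 B1 B2 B3 m11_1 m11_2 m11_3 m13_1 m13_2 m13_3 m22_1 m22_2 m22_3 m23_1 m23_2 m23_3 m33_1 m33_2 m33_3 : ℤ}
    (C : Ctx0 n1 n2 n3 A1 A2 A3 B1 B2 B3 m11_1 m11_2 m11_3 m13_1 m13_2 m13_3 m22_1 m22_2 m22_3 m23_1 m23_2 m23_3 m33_1 m33_2 m33_3)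
    (e0 : 0 < B1)
    (e1 : 0 < A1)
    (e2 : 0 < B3)
    (h : SG A1 A2 A3 B1 B2 B3 (m11_1 + m13_1 + m13_1) (m11_2 + m13_2 + m13_2) (m11_3 + m13_3 + m13_3)) :
    F1 n1 n2 n3 A1 A2 A3 B1 B2 B3 ∨ F2 n1 n2 n3 A1 A2 A3 B1 B2 B3 := by
  rcases h with ⟨s1, s2, s3⟩ | ⟨s1, s2, s3⟩ | ⟨s1, s2, s3⟩ | ⟨s1, s2, s3⟩
  · exact (c0_11_13_13_k0 C e0 e1 e2 s1 s2 s3).elim
  · exact (c0_11_13_13_k1 C e0 e1 e2 s1 s2 s3).elim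
  · exact (c0_11_13_13_k2 C e0 e1 e2 s1 s2 s3).elim
  · exact (c0_11_13_13_k3 C e0 e1 e2 s1 s2 s3).elim

theorem tri0_11_13_22 {n1 n2 n3 A1 A2 A3 B1 B2 B3 m11_1 m11_2 m11_3 m13_1 m13_2 m13_3 m22_1 m22_2 m22_3 m23_1 m23_2 m23_3 m33_1 m33_2 m33_3 : ℤ}
    (C : Ctx0 n1 n2 n3 A1 A2 A3 B1 B2 B3 m11_1 m11_2 m11_3 m13_1 m13_2 m13_3 m22_1 m22_2 m22_3 m23_1 m23_2 m23_3 m33_1 m33_2 m33_3)
    (e0 : 0 < B1)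
    (e1 : 0 < A1)
    (e2 : 0 < B3)
    (e3 : 0 < B2)
    (h : SG A1 A2 A3 B1 B2 B3 (m11_1 + m13_1 + m22_1) (m11_2 + m13_2 + m22_2) (m11_3 + m13_3 + m22_3)) :
    F1 n1 n2 n3 A1 A2 A3 B1 B2 B3 ∨ F2 n1 n2 n3 A1 A2 A3 B1 B2 B3 := by
  rcases h with ⟨s1, s2, s3⟩ | ⟨s1, s2, s3⟩ | ⟨s1, s2, s3⟩ | ⟨s1, s2, s3⟩
  · exact (c0_11_13_22_k0 C e0 e1 e2 e3 s1 s2 s3).elim
  · exact (c0_11_13_22_k1 C e0 e1 e2 e3 s1 s2 s3).elim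
  · exact (c0_11_13_22_k2 C e0 e1 e2 e3 s1 s2 s3).elim
  · exact (c0_11_13_22_k3 C e0 e1 e2 e3 s1 s2 s3).elim

theorem tri0_11_13_23 {n1 n2 n3 A1 A2 A3 B1 B2 B3 m11_1 m11_2 m11_3 m13_1 m13_2 m13_3 m22_1 m22_2 m22_3 m23_1 m23_2 m23_3 m33_1 m33_2 m33_3 : ℤ}
    (C : Ctx0 n1 n2 n3 A1 A2 A3 B1 B2 B3 m11_1 m11_2 m11_3 m13_1 m13_2 m13_3 m22_1 m22_2 m22_3 m23_1 m23_2 m23_3 m33_1 m33_2 m33_3)
    (e0 : 0 < B1)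
    (e1 : 0 < A1)
    (e2 : 0 < B3)
    (e3 : 0 < A2)
    (h : SG A1 A2 A3 B1 B2 B3 (m11_1 + m13_1 + m23_1) (m11_2 + m13_2 + m23_2) (m11_3 + m13_3 + m23_3)) :
    F1 n1 n2 n3 A1 A2 A3 B1 B2 B3 ∨ F2 n1 n2 n3 A1 A2 A3 B1 B2 B3 := by
  rcases h with ⟨s1, s2, s3⟩ | ⟨s1, s2, s3⟩ | ⟨s1, s2, s3⟩ | ⟨s1, s2, s3⟩
  · exact (c0_11_13_23_k0 C e0 e1 e2 e3 s1 s2 s3).elim
  · exact (c0_11_13_23_k1 C e0 e1 e2 e3 s1 s2 s3).elim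
  · exact (c0_11_13_23_k2 C e0 e1 e2 e3 s1 s2 s3).elim
  · exact (c0_11_13_23_k3 C e0 e1 e2 e3 s1 s2 s3).elim

theorem tri0_11_13_33 {n1 n2 n3 A1 A2 A3 B1 B2 B3 m11_1 m11_2 m11_3 m13_1 m13_2 m13_3 m22_1 m22_2 m22_3 m23_1 m23_2 m23_3 m33_1 m33_2 m33_3 : ℤ}
    (C : Ctx0 n1 n2 n3 A1 A2 A3 B1 B2 B3 m11_1 m11_2 m11_3 m13_1 m13_2 m13_3 m22_1 m22_2 m22_3 m23_1 m23_2 m23_3 m33_1 m33_2 m33_3)
    (e0 : 0 < B1)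
    (e1 : 0 < A1)
    (e2 : 0 < B3)
    (e3 : 0 < A3)
    (h : SG A1 A2 A3 B1 B2 B3 (m11_1 + m13_1 + m33_1) (m11_2 + m13_2 + m33_2) (m11_3 + m13_3 + m33_3)) :
    F1 n1 n2 n3 A1 A2 A3 B1 B2 B3 ∨ F2 n1 n2 n3 A1 A2 A3 B1 B2 B3 := by
  rcases h with ⟨s1, s2, s3⟩ | ⟨s1, s2, s3⟩ | ⟨s1, s2, s3⟩ | ⟨s1, s2, s3⟩
  · exact (c0_11_13_33_k0 C e0 e1 e2 e3 s1 s2 s3).elim
  · exact (c0_11_13_33_k1 C e0 e1 e2 e3 s1 s2 s3).elim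
  · exact (c0_11_13_33_k2 C e0 e1 e2 e3 s1 s2 s3).elim
  · exact (c0_11_13_33_k3 C e0 e1 e2 e3 s1 s2 s3).elim

theorem tri0_11_22_22 {n1 n2 n3 A1 A2 A3 B1 B2 B3 m11_1 m11_2 m11_3 m13_1 m13_2 m13_3 m22_1 m22_2 m22_3 m23_1 m23_2 m23_3 m33_1 m33_2 m33_3 : ℤ}
    (C : Ctx0 n1 n2 n3 A1 A2 A3 B1 B2 B3 m11_1 m11_2 m11_3 m13_1 m13_2 m13_3 m22_1 m22_2 m22_3 m23_1 m23_2 m23_3 m33_1 m33_2 m33_3)
    (e0 : 0 < B1)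
    (e1 : 0 < B2)
    (h : SG A1 A2 A3 B1 B2 B3 (m11_1 + m22_1 + m22_1) (m11_2 + m22_2 + m22_2) (m11_3 + m22_3 + m22_3)) :
    F1 n1 n2 n3 A1 A2 A3 B1 B2 B3 ∨ F2 n1 n2 n3 A1 A2 A3 B1 B2 B3 := by
  rcases h with ⟨s1, s2, s3⟩ | ⟨s1, s2, s3⟩ | ⟨s1, s2, s3⟩ | ⟨s1, s2, s3⟩
  · exact (c0_11_22_22_k0 C e0 e1 s1 s2 s3).elim
  · exact (c0_11_22_22_k1 C e0 e1 s1 s2 s3).elim
  · exact (c0_11_22_22_k2 C e0 e1 s1 s2 s3).elim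
  · exact (c0_11_22_22_k3 C e0 e1 s1 s2 s3).elim

theorem tri0_11_22_23 {n1 n2 n3 A1 A2 A3 B1 B2 B3 m11_1 m11_2 m11_3 m13_1 m13_2 m13_3 m22_1 m22_2 m22_3 m23_1 m23_2 m23_3 m33_1 m33_2 m33_3 : ℤ}
    (C : Ctx0 n1 n2 n3 A1 A2 A3 B1 B2 B3 m11_1 m11_2 m11_3 m13_1 m13_2 m13_3 m22_1 m22_2 m22_3 m23_1 m23_2 m23_3 m33_1 m33_2 m33_3)
    (e0 : 0 < B1)
    (e1 : 0 < B2)
    (e2 : 0 < A2)
    (e3 : 0 < B3)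
    (h : SG A1 A2 A3 B1 B2 B3 (m11_1 + m22_1 + m23_1) (m11_2 + m22_2 + m23_2) (m11_3 + m22_3 + m23_3)) :
    F1 n1 n2 n3 A1 A2 A3 B1 B2 B3 ∨ F2 n1 n2 n3 A1 A2 A3 B1 B2 B3 := by
  rcases h with ⟨s1, s2, s3⟩ | ⟨s1, s2, s3⟩ | ⟨s1, s2, s3⟩ | ⟨s1, s2, s3⟩
  · exact (c0_11_22_23_k0 C e0 e1 e2 e3 s1 s2 s3).elim
  · exact (c0_11_22_23_k1 C e0 e1 e2 e3 s1 s2 s3).elim
  · exact (c0_11_22_23_k2 C e0 e1 e2 e3 s1 s2 s3).elim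
  · exact (c0_11_22_23_k3 C e0 e1 e2 e3 s1 s2 s3).elim

theorem tri0_11_22_33 {n1 n2 n3 A1 A2 A3 B1 B2 B3 m11_1 m11_2 m11_3 m13_1 m13_2 m13_3 m22_1 m22_2 m22_3 m23_1 m23_2 m23_3 m33_1 m33_2 m33_3 : ℤ}
    (C : Ctx0 n1 n2 n3 A1 A2 A3 B1 B2 B3 m11_1 m11_2 m11_3 m13_1 m13_2 m13_3 m22_1 m22_2 m22_3 m23_1 m23_2 m23_3 m33_1 m33_2 m33_3)
    (e0 : 0 < B1)
    (e1 : 0 < B2)
    (e2 : 0 < A3)
    (h : SG A1 A2 A3 B1 B2 B3 (m11_1 + m22_1 + m33_1) (m11_2 + m22_2 + m33_2) (m11_3 + m22_3 + m33_3)) :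
    F1 n1 n2 n3 A1 A2 A3 B1 B2 B3 ∨ F2 n1 n2 n3 A1 A2 A3 B1 B2 B3 := by
  rcases h with ⟨s1, s2, s3⟩ | ⟨s1, s2, s3⟩ | ⟨s1, s2, s3⟩ | ⟨s1, s2, s3⟩
  · exact (c0_11_22_33_k0 C e0 e1 e2 s1 s2 s3).elim
  · exact (c0_11_22_33_k1 C e0 e1 e2 s1 s2 s3).elim
  · exact (c0_11_22_33_k2 C e0 e1 e2 s1 s2 s3).elim
  · exact (c0_11_22_33_k3 C e0 e1 e2 s1 s2 s3).elim

theorem tri0_11_23_23 {n1 n2 n3 A1 A2 A3 B1 B2 B3 m11_1 m11_2 m11_3 m13_1 m13_2 m13_3 m22_1 m22_2 m22_3 m23_1 m23_2 m23_3 m33_1 m33_2 m33_3 : ℤ}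
    (C : Ctx0 n1 n2 n3 A1 A2 A3 B1 B2 B3 m11_1 m11_2 m11_3 m13_1 m13_2 m13_3 m22_1 m22_2 m22_3 m23_1 m23_2 m23_3 m33_1 m33_2 m33_3)
    (e0 : 0 < B1)
    (e1 : 0 < A2)
    (e2 : 0 < B3)
    (h : SG A1 A2 A3 B1 B2 B3 (m11_1 + m23_1 + m23_1) (m11_2 + m23_2 + m23_2) (m11_3 + m23_3 + m23_3)) :
    F1 n1 n2 n3 A1 A2 A3 B1 B2 B3 ∨ F2 n1 n2 n3 A1 A2 A3 B1 B2 B3 := by
  rcases h with ⟨s1, s2, s3⟩ | ⟨s1, s2, s3⟩ | ⟨s1, s2, s3⟩ | ⟨s1, s2, s3⟩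
  · exact (c0_11_23_23_k0 C e0 e1 e2 s1 s2 s3).elim
  · exact (c0_11_23_23_k1 C e0 e1 e2 s1 s2 s3).elim
  · exact (c0_11_23_23_k2 C e0 e1 e2 s1 s2 s3).elim
  · exact (c0_11_23_23_k3 C e0 e1 e2 s1 s2 s3).elim

theorem tri0_11_23_33 {n1 n2 n3 A1 A2 A3 B1 B2 B3 m11_1 m11_2 m11_3 m13_1 m13_2 m13_3 m22_1 m22_2 m22_3 m23_1 m23_2 m23_3 m33_1 m33_2 m33_3 : ℤ}
    (C : Ctx0 n1 n2 n3 A1 A2 A3 B1 B2 B3 m11_1 m11_2 m11_3 m13_1 m13_2 m13_3 m22_1 m22_2 m22_3 m23_1 m23_2 m23_3 m33_1 m33_2 m33_3)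
    (e0 : 0 < B1)
    (e1 : 0 < A2)
    (e2 : 0 < B3)
    (e3 : 0 < A3)
    (h : SG A1 A2 A3 B1 B2 B3 (m11_1 + m23_1 + m33_1) (m11_2 + m23_2 + m33_2) (m11_3 + m23_3 + m33_3)) :
    F1 n1 n2 n3 A1 A2 A3 B1 B2 B3 ∨ F2 n1 n2 n3 A1 A2 A3 B1 B2 B3 := by
  rcases h with ⟨s1, s2, s3⟩ | ⟨s1, s2, s3⟩ | ⟨s1, s2, s3⟩ | ⟨s1, s2, s3⟩
  · exact (c0_11_23_33_k0 C e0 e1 e2 e3 s1 s2 s3).elim
  · exact (c0_11_23_33_k1 C e0 e1 e2 e3 s1 s2 s3).elim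
  · exact (c0_11_23_33_k2 C e0 e1 e2 e3 s1 s2 s3).elim
  · exact c0_11_23_33_k3 C e0 e1 e2 e3 s1 s2 s3

theorem tri0_11_33_33 {n1 n2 n3 A1 A2 A3 B1 B2 B3 m11_1 m11_2 m11_3 m13_1 m13_2 m13_3 m22_1 m22_2 m22_3 m23_1 m23_2 m23_3 m33_1 m33_2 m33_3 : ℤ}
    (C : Ctx0 n1 n2 n3 A1 A2 A3 B1 B2 B3 m11_1 m11_2 m11_3 m13_1 m13_2 m13_3 m22_1 m22_2 m22_3 m23_1 m23_2 m23_3 m33_1 m33_2 m33_3)
    (e0 : 0 < B1)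
    (e1 : 0 < A3)
    (h : SG A1 A2 A3 B1 B2 B3 (m11_1 + m33_1 + m33_1) (m11_2 + m33_2 + m33_2) (m11_3 + m33_3 + m33_3)) :
    F1 n1 n2 n3 A1 A2 A3 B1 B2 B3 ∨ F2 n1 n2 n3 A1 A2 A3 B1 B2 B3 := by
  rcases h with ⟨s1, s2, s3⟩ | ⟨s1, s2, s3⟩ | ⟨s1, s2, s3⟩ | ⟨s1, s2, s3⟩
  · exact (c0_11_33_33_k0 C e0 e1 s1 s2 s3).elim
  · exact (c0_11_33_33_k1 C e0 e1 s1 s2 s3).elim
  · exact (c0_11_33_33_k2 C e0 e1 s1 s2 s3).elim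
  · exact (c0_11_33_33_k3 C e0 e1 s1 s2 s3).elim

theorem tri0_13_13_13 {n1 n2 n3 A1 A2 A3 B1 B2 B3 m11_1 m11_2 m11_3 m13_1 m13_2 m13_3 m22_1 m22_2 m22_3 m23_1 m23_2 m23_3 m33_1 m33_2 m33_3 : ℤ}
    (C : Ctx0 n1 n2 n3 A1 A2 A3 B1 B2 B3 m11_1 m11_2 m11_3 m13_1 m13_2 m13_3 m22_1 m22_2 m22_3 m23_1 m23_2 m23_3 m33_1 m33_2 m33_3)
    (e0 : 0 < A1)
    (e1 : 0 < B3)
    (h : SG A1 A2 A3 B1 B2 B3 (m13_1 + m13_1 + m13_1) (m13_2 + m13_2 + m13_2) (m13_3 + m13_3 + m13_3)) :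
    F1 n1 n2 n3 A1 A2 A3 B1 B2 B3 ∨ F2 n1 n2 n3 A1 A2 A3 B1 B2 B3 := by
  rcases h with ⟨s1, s2, s3⟩ | ⟨s1, s2, s3⟩ | ⟨s1, s2, s3⟩ | ⟨s1, s2, s3⟩
  · exact (c0_13_13_13_k0 C e0 e1 s1 s2 s3).elim
  · exact (c0_13_13_13_k1 C e0 e1 s1 s2 s3).elim
  · exact (c0_13_13_13_k2 C e0 e1 s1 s2 s3).elim
  · exact (c0_13_13_13_k3 C e0 e1 s1 s2 s3).elim

theorem tri0_13_13_22 {n1 n2 n3 A1 A2 A3 B1 B2 B3 m11_1 m11_2 m11_3 m13_1 m13_2 m13_3 m22_1 m22_2 m22_3 m23_1 m23_2 m23_3 m33_1 m33_2 m33_3 : ℤ}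
    (C : Ctx0 n1 n2 n3 A1 A2 A3 B1 B2 B3 m11_1 m11_2 m11_3 m13_1 m13_2 m13_3 m22_1 m22_2 m22_3 m23_1 m23_2 m23_3 m33_1 m33_2 m33_3)
    (e0 : 0 < A1)
    (e1 : 0 < B3)
    (e2 : 0 < B2)
    (h : SG A1 A2 A3 B1 B2 B3 (m13_1 + m13_1 + m22_1) (m13_2 + m13_2 + m22_2) (m13_3 + m13_3 + m22_3)) :
    F1 n1 n2 n3 A1 A2 A3 B1 B2 B3 ∨ F2 n1 n2 n3 A1 A2 A3 B1 B2 B3 := by
  rcases h with ⟨s1, s2, s3⟩ | ⟨s1, s2, s3⟩ | ⟨s1, s2, s3⟩ | ⟨s1, s2, s3⟩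
  · exact (c0_13_13_22_k0 C e0 e1 e2 s1 s2 s3).elim
  · exact (c0_13_13_22_k1 C e0 e1 e2 s1 s2 s3).elim
  · exact (c0_13_13_22_k2 C e0 e1 e2 s1 s2 s3).elim
  · exact (c0_13_13_22_k3 C e0 e1 e2 s1 s2 s3).elim

theorem tri0_13_13_23 {n1 n2 n3 A1 A2 A3 B1 B2 B3 m11_1 m11_2 m11_3 m13_1 m13_2 m13_3 m22_1 m22_2 m22_3 m23_1 m23_2 m23_3 m33_1 m33_2 m33_3 : ℤ}
    (C : Ctx0 n1 n2 n3 A1 A2 A3 B1 B2 B3 m11_1 m11_2 m11_3 m13_1 m13_2 m13_3 m22_1 m22_2 m22_3 m23_1 m23_2 m23_3 m33_1 m33_2 m33_3)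
    (e0 : 0 < A1)
    (e1 : 0 < B3)
    (e2 : 0 < A2)
    (h : SG A1 A2 A3 B1 B2 B3 (m13_1 + m13_1 + m23_1) (m13_2 + m13_2 + m23_2) (m13_3 + m13_3 + m23_3)) :
    F1 n1 n2 n3 A1 A2 A3 B1 B2 B3 ∨ F2 n1 n2 n3 A1 A2 A3 B1 B2 B3 := by
  rcases h with ⟨s1, s2, s3⟩ | ⟨s1, s2, s3⟩ | ⟨s1, s2, s3⟩ | ⟨s1, s2, s3⟩
  · exact (c0_13_13_23_k0 C e0 e1 e2 s1 s2 s3).elim
  · exact (c0_13_13_23_k1 C e0 e1 e2 s1 s2 s3).elim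
  · exact (c0_13_13_23_k2 C e0 e1 e2 s1 s2 s3).elim
  · exact (c0_13_13_23_k3 C e0 e1 e2 s1 s2 s3).elim

theorem tri0_13_13_33 {n1 n2 n3 A1 A2 A3 B1 B2 B3 m11_1 m11_2 m11_3 m13_1 m13_2 m13_3 m22_1 m22_2 m22_3 m23_1 m23_2 m23_3 m33_1 m33_2 m33_3 : ℤ}
    (C : Ctx0 n1 n2 n3 A1 A2 A3 B1 B2 B3 m11_1 m11_2 m11_3 m13_1 m13_2 m13_3 m22_1 m22_2 m22_3 m23_1 m23_2 m23_3 m33_1 m33_2 m33_3)
    (e0 : 0 < A1)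
    (e1 : 0 < B3)
    (e2 : 0 < A3)
    (h : SG A1 A2 A3 B1 B2 B3 (m13_1 + m13_1 + m33_1) (m13_2 + m13_2 + m33_2) (m13_3 + m13_3 + m33_3)) :
    F1 n1 n2 n3 A1 A2 A3 B1 B2 B3 ∨ F2 n1 n2 n3 A1 A2 A3 B1 B2 B3 := by
  rcases h with ⟨s1, s2, s3⟩ | ⟨s1, s2, s3⟩ | ⟨s1, s2, s3⟩ | ⟨s1, s2, s3⟩
  · exact (c0_13_13_33_k0 C e0 e1 e2 s1 s2 s3).elim
  · exact (c0_13_13_33_k1 C e0 e1 e2 s1 s2 s3).elim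
  · exact (c0_13_13_33_k2 C e0 e1 e2 s1 s2 s3).elim
  · exact (c0_13_13_33_k3 C e0 e1 e2 s1 s2 s3).elim

theorem tri0_13_22_22 {n1 n2 n3 A1 A2 A3 B1 B2 B3 m11_1 m11_2 m11_3 m13_1 m13_2 m13_3 m22_1 m22_2 m22_3 m23_1 m23_2 m23_3 m33_1 m33_2 m33_3 : ℤ}
    (C : Ctx0 n1 n2 n3 A1 A2 A3 B1 B2 B3 m11_1 m11_2 m11_3 m13_1 m13_2 m13_3 m22_1 m22_2 m22_3 m23_1 m23_2 m23_3 m33_1 m33_2 m33_3)
    (e0 : 0 < A1)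
    (e1 : 0 < B3)
    (e2 : 0 < B2)
    (h : SG A1 A2 A3 B1 B2 B3 (m13_1 + m22_1 + m22_1) (m13_2 + m22_2 + m22_2) (m13_3 + m22_3 + m22_3)) :
    F1 n1 n2 n3 A1 A2 A3 B1 B2 B3 ∨ F2 n1 n2 n3 A1 A2 A3 B1 B2 B3 := by
  rcases h with ⟨s1, s2, s3⟩ | ⟨s1, s2, s3⟩ | ⟨s1, s2, s3⟩ | ⟨s1, s2, s3⟩
  · exact (c0_13_22_22_k0 C e0 e1 e2 s1 s2 s3).elim
  · exact (c0_13_22_22_k1 C e0 e1 e2 s1 s2 s3).elim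
  · exact (c0_13_22_22_k2 C e0 e1 e2 s1 s2 s3).elim
  · exact (c0_13_22_22_k3 C e0 e1 e2 s1 s2 s3).elim

theorem tri0_13_22_23 {n1 n2 n3 A1 A2 A3 B1 B2 B3 m11_1 m11_2 m11_3 m13_1 m13_2 m13_3 m22_1 m22_2 m22_3 m23_1 m23_2 m23_3 m33_1 m33_2 m33_3 : ℤ}
    (C : Ctx0 n1 n2 n3 A1 A2 A3 B1 B2 B3 m11_1 m11_2 m11_3 m13_1 m13_2 m13_3 m22_1 m22_2 m22_3 m23_1 m23_2 m23_3 m33_1 m33_2 m33_3)
    (e0 : 0 < A1)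
    (e1 : 0 < B3)
    (e2 : 0 < B2)
    (e3 : 0 < A2)
    (h : SG A1 A2 A3 B1 B2 B3 (m13_1 + m22_1 + m23_1) (m13_2 + m22_2 + m23_2) (m13_3 + m22_3 + m23_3)) :
    F1 n1 n2 n3 A1 A2 A3 B1 B2 B3 ∨ F2 n1 n2 n3 A1 A2 A3 B1 B2 B3 := by
  rcases h with ⟨s1, s2, s3⟩ | ⟨s1, s2, s3⟩ | ⟨s1, s2, s3⟩ | ⟨s1, s2, s3⟩
  · exact (c0_13_22_23_k0 C e0 e1 e2 e3 s1 s2 s3).elim
  · exact (c0_13_22_23_k1 C e0 e1 e2 e3 s1 s2 s3).elim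
  · exact (c0_13_22_23_k2 C e0 e1 e2 e3 s1 s2 s3).elim
  · exact (c0_13_22_23_k3 C e0 e1 e2 e3 s1 s2 s3).elim

theorem tri0_13_22_33 {n1 n2 n3 A1 A2 A3 B1 B2 B3 m11_1 m11_2 m11_3 m13_1 m13_2 m13_3 m22_1 m22_2 m22_3 m23_1 m23_2 m23_3 m33_1 m33_2 m33_3 : ℤ}
    (C : Ctx0 n1 n2 n3 A1 A2 A3 B1 B2 B3 m11_1 m11_2 m11_3 m13_1 m13_2 m13_3 m22_1 m22_2 m22_3 m23_1 m23_2 m23_3 m33_1 m33_2 m33_3)
    (e0 : 0 < A1)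
    (e1 : 0 < B3)
    (e2 : 0 < B2)
    (e3 : 0 < A3)
    (h : SG A1 A2 A3 B1 B2 B3 (m13_1 + m22_1 + m33_1) (m13_2 + m22_2 + m33_2) (m13_3 + m22_3 + m33_3)) :
    F1 n1 n2 n3 A1 A2 A3 B1 B2 B3 ∨ F2 n1 n2 n3 A1 A2 A3 B1 B2 B3 := by
  rcases h with ⟨s1, s2, s3⟩ | ⟨s1, s2, s3⟩ | ⟨s1, s2, s3⟩ | ⟨s1, s2, s3⟩
  · exact (c0_13_22_33_k0 C e0 e1 e2 e3 s1 s2 s3).elim
  · exact (c0_13_22_33_k1 C e0 e1 e2 e3 s1 s2 s3).elim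
  · exact (c0_13_22_33_k2 C e0 e1 e2 e3 s1 s2 s3).elim
  · exact c0_13_22_33_k3 C e0 e1 e2 e3 s1 s2 s3

theorem tri0_13_23_23 {n1 n2 n3 A1 A2 A3 B1 B2 B3 m11_1 m11_2 m11_3 m13_1 m13_2 m13_3 m22_1 m22_2 m22_3 m23_1 m23_2 m23_3 m33_1 m33_2 m33_3 : ℤ}
    (C : Ctx0 n1 n2 n3 A1 A2 A3 B1 B2 B3 m11_1 m11_2 m11_3 m13_1 m13_2 m13_3 m22_1 m22_2 m22_3 m23_1 m23_2 m23_3 m33_1 m33_2 m33_3)
    (e0 : 0 < A1)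
    (e1 : 0 < B3)
    (e2 : 0 < A2)
    (h : SG A1 A2 A3 B1 B2 B3 (m13_1 + m23_1 + m23_1) (m13_2 + m23_2 + m23_2) (m13_3 + m23_3 + m23_3)) :
    F1 n1 n2 n3 A1 A2 A3 B1 B2 B3 ∨ F2 n1 n2 n3 A1 A2 A3 B1 B2 B3 := by
  rcases h with ⟨s1, s2, s3⟩ | ⟨s1, s2, s3⟩ | ⟨s1, s2, s3⟩ | ⟨s1, s2, s3⟩
  · exact (c0_13_23_23_k0 C e0 e1 e2 s1 s2 s3).elim
  · exact (c0_13_23_23_k1 C e0 e1 e2 s1 s2 s3).elim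
  · exact (c0_13_23_23_k2 C e0 e1 e2 s1 s2 s3).elim
  · exact (c0_13_23_23_k3 C e0 e1 e2 s1 s2 s3).elim

theorem tri0_13_23_33 {n1 n2 n3 A1 A2 A3 B1 B2 B3 m11_1 m11_2 m11_3 m13_1 m13_2 m13_3 m22_1 m22_2 m22_3 m23_1 m23_2 m23_3 m33_1 m33_2 m33_3 : ℤ}
    (C : Ctx0 n1 n2 n3 A1 A2 A3 B1 B2 B3 m11_1 m11_2 m11_3 m13_1 m13_2 m13_3 m22_1 m22_2 m22_3 m23_1 m23_2 m23_3 m33_1 m33_2 m33_3)
    (e0 : 0 < A1)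
    (e1 : 0 < B3)
    (e2 : 0 < A2)
    (e3 : 0 < A3)
    (h : SG A1 A2 A3 B1 B2 B3 (m13_1 + m23_1 + m33_1) (m13_2 + m23_2 + m33_2) (m13_3 + m23_3 + m33_3)) :
    F1 n1 n2 n3 A1 A2 A3 B1 B2 B3 ∨ F2 n1 n2 n3 A1 A2 A3 B1 B2 B3 := by
  rcases h with ⟨s1, s2, s3⟩ | ⟨s1, s2, s3⟩ | ⟨s1, s2, s3⟩ | ⟨s1, s2, s3⟩
  · exact (c0_13_23_33_k0 C e0 e1 e2 e3 s1 s2 s3).elim
  · exact (c0_13_23_33_k1 C e0 e1 e2 e3 s1 s2 s3).elim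
  · exact (c0_13_23_33_k2 C e0 e1 e2 e3 s1 s2 s3).elim
  · exact (c0_13_23_33_k3 C e0 e1 e2 e3 s1 s2 s3).elim

theorem tri0_13_33_33 {n1 n2 n3 A1 A2 A3 B1 B2 B3 m11_1 m11_2 m11_3 m13_1 m13_2 m13_3 m22_1 m22_2 m22_3 m23_1 m23_2 m23_3 m33_1 m33_2 m33_3 : ℤ}
    (C : Ctx0 n1 n2 n3 A1 A2 A3 B1 B2 B3 m11_1 m11_2 m11_3 m13_1 m13_2 m13_3 m22_1 m22_2 m22_3 m23_1 m23_2 m23_3 m33_1 m33_2 m33_3)
    (e0 : 0 < A1)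
    (e1 : 0 < B3)
    (e2 : 0 < A3)
    (h : SG A1 A2 A3 B1 B2 B3 (m13_1 + m33_1 + m33_1) (m13_2 + m33_2 + m33_2) (m13_3 + m33_3 + m33_3)) :
    F1 n1 n2 n3 A1 A2 A3 B1 B2 B3 ∨ F2 n1 n2 n3 A1 A2 A3 B1 B2 B3 := by
  rcases h with ⟨s1, s2, s3⟩ | ⟨s1, s2, s3⟩ | ⟨s1, s2, s3⟩ | ⟨s1, s2, s3⟩
  · exact (c0_13_33_33_k0 C e0 e1 e2 s1 s2 s3).elim
  · exact (c0_13_33_33_k1 C e0 e1 e2 s1 s2 s3).elim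
  · exact (c0_13_33_33_k2 C e0 e1 e2 s1 s2 s3).elim
  · exact (c0_13_33_33_k3 C e0 e1 e2 s1 s2 s3).elim

theorem tri0_22_22_22 {n1 n2 n3 A1 A2 A3 B1 B2 B3 m11_1 m11_2 m11_3 m13_1 m13_2 m13_3 m22_1 m22_2 m22_3 m23_1 m23_2 m23_3 m33_1 m33_2 m33_3 : ℤ}
    (C : Ctx0 n1 n2 n3 A1 A2 A3 B1 B2 B3 m11_1 m11_2 m11_3 m13_1 m13_2 m13_3 m22_1 m22_2 m22_3 m23_1 m23_2 m23_3 m33_1 m33_2 m33_3)
    (e0 : 0 < B2)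
    (h : SG A1 A2 A3 B1 B2 B3 (m22_1 + m22_1 + m22_1) (m22_2 + m22_2 + m22_2) (m22_3 + m22_3 + m22_3)) :
    F1 n1 n2 n3 A1 A2 A3 B1 B2 B3 ∨ F2 n1 n2 n3 A1 A2 A3 B1 B2 B3 := by
  rcases h with ⟨s1, s2, s3⟩ | ⟨s1, s2, s3⟩ | ⟨s1, s2, s3⟩ | ⟨s1, s2, s3⟩
  · exact (c0_22_22_22_k0 C e0 s1 s2 s3).elim
  · exact (c0_22_22_22_k1 C e0 s1 s2 s3).elim
  · exact (c0_22_22_22_k2 C e0 s1 s2 s3).elim
  · exact (c0_22_22_22_k3 C e0 s1 s2 s3).elim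

theorem tri0_22_22_23 {n1 n2 n3 A1 A2 A3 B1 B2 B3 m11_1 m11_2 m11_3 m13_1 m13_2 m13_3 m22_1 m22_2 m22_3 m23_1 m23_2 m23_3 m33_1 m33_2 m33_3 : ℤ}
    (C : Ctx0 n1 n2 n3 A1 A2 A3 B1 B2 B3 m11_1 m11_2 m11_3 m13_1 m13_2 m13_3 m22_1 m22_2 m22_3 m23_1 m23_2 m23_3 m33_1 m33_2 m33_3)
    (e0 : 0 < B2)
    (e1 : 0 < A2)
    (e2 : 0 < B3)
    (h : SG A1 A2 A3 B1 B2 B3 (m22_1 + m22_1 + m23_1) (m22_2 + m22_2 + m23_2) (m22_3 + m22_3 + m23_3)) :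
    F1 n1 n2 n3 A1 A2 A3 B1 B2 B3 ∨ F2 n1 n2 n3 A1 A2 A3 B1 B2 B3 := by
  rcases h with ⟨s1, s2, s3⟩ | ⟨s1, s2, s3⟩ | ⟨s1, s2, s3⟩ | ⟨s1, s2, s3⟩
  · exact (c0_22_22_23_k0 C e0 e1 e2 s1 s2 s3).elim
  · exact (c0_22_22_23_k1 C e0 e1 e2 s1 s2 s3).elim
  · exact (c0_22_22_23_k2 C e0 e1 e2 s1 s2 s3).elim
  · exact (c0_22_22_23_k3 C e0 e1 e2 s1 s2 s3).elim

theorem tri0_22_22_33 {n1 n2 n3 A1 A2 A3 B1 B2 B3 m11_1 m11_2 m11_3 m13_1 m13_2 m13_3 m22_1 m22_2 m22_3 m23_1 m23_2 m23_3 m33_1 m33_2 m33_3 : ℤ}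
    (C : Ctx0 n1 n2 n3 A1 A2 A3 B1 B2 B3 m11_1 m11_2 m11_3 m13_1 m13_2 m13_3 m22_1 m22_2 m22_3 m23_1 m23_2 m23_3 m33_1 m33_2 m33_3)
    (e0 : 0 < B2)
    (e1 : 0 < A3)
    (h : SG A1 A2 A3 B1 B2 B3 (m22_1 + m22_1 + m33_1) (m22_2 + m22_2 + m33_2) (m22_3 + m22_3 + m33_3)) :
    F1 n1 n2 n3 A1 A2 A3 B1 B2 B3 ∨ F2 n1 n2 n3 A1 A2 A3 B1 B2 B3 := by
  rcases h with ⟨s1, s2, s3⟩ | ⟨s1, s2, s3⟩ | ⟨s1, s2, s3⟩ | ⟨s1, s2, s3⟩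
  · exact (c0_22_22_33_k0 C e0 e1 s1 s2 s3).elim
  · exact (c0_22_22_33_k1 C e0 e1 s1 s2 s3).elim
  · exact (c0_22_22_33_k2 C e0 e1 s1 s2 s3).elim
  · exact (c0_22_22_33_k3 C e0 e1 s1 s2 s3).elim

theorem tri0_22_23_23 {n1 n2 n3 A1 A2 A3 B1 B2 B3 m11_1 m11_2 m11_3 m13_1 m13_2 m13_3 m22_1 m22_2 m22_3 m23_1 m23_2 m23_3 m33_1 m33_2 m33_3 : ℤ}
    (C : Ctx0 n1 n2 n3 A1 A2 A3 B1 B2 B3 m11_1 m11_2 m11_3 m13_1 m13_2 m13_3 m22_1 m22_2 m22_3 m23_1 m23_2 m23_3 m33_1 m33_2 m33_3)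
    (e0 : 0 < B2)
    (e1 : 0 < A2)
    (e2 : 0 < B3)
    (h : SG A1 A2 A3 B1 B2 B3 (m22_1 + m23_1 + m23_1) (m22_2 + m23_2 + m23_2) (m22_3 + m23_3 + m23_3)) :
    F1 n1 n2 n3 A1 A2 A3 B1 B2 B3 ∨ F2 n1 n2 n3 A1 A2 A3 B1 B2 B3 := by
  rcases h with ⟨s1, s2, s3⟩ | ⟨s1, s2, s3⟩ | ⟨s1, s2, s3⟩ | ⟨s1, s2, s3⟩
  · exact (c0_22_23_23_k0 C e0 e1 e2 s1 s2 s3).elim
  · exact (c0_22_23_23_k1 C e0 e1 e2 s1 s2 s3).elim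
  · exact (c0_22_23_23_k2 C e0 e1 e2 s1 s2 s3).elim
  · exact (c0_22_23_23_k3 C e0 e1 e2 s1 s2 s3).elim

theorem tri0_22_23_33 {n1 n2 n3 A1 A2 A3 B1 B2 B3 m11_1 m11_2 m11_3 m13_1 m13_2 m13_3 m22_1 m22_2 m22_3 m23_1 m23_2 m23_3 m33_1 m33_2 m33_3 : ℤ}
    (C : Ctx0 n1 n2 n3 A1 A2 A3 B1 B2 B3 m11_1 m11_2 m11_3 m13_1 m13_2 m13_3 m22_1 m22_2 m22_3 m23_1 m23_2 m23_3 m33_1 m33_2 m33_3)
    (e0 : 0 < B2)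
    (e1 : 0 < A2)
    (e2 : 0 < B3)
    (e3 : 0 < A3)
    (h : SG A1 A2 A3 B1 B2 B3 (m22_1 + m23_1 + m33_1) (m22_2 + m23_2 + m33_2) (m22_3 + m23_3 + m33_3)) :
    F1 n1 n2 n3 A1 A2 A3 B1 B2 B3 ∨ F2 n1 n2 n3 A1 A2 A3 B1 B2 B3 := by
  rcases h with ⟨s1, s2, s3⟩ | ⟨s1, s2, s3⟩ | ⟨s1, s2, s3⟩ | ⟨s1, s2, s3⟩
  · exact (c0_22_23_33_k0 C e0 e1 e2 e3 s1 s2 s3).elim
  · exact (c0_22_23_33_k1 C e0 e1 e2 e3 s1 s2 s3).elim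
  · exact (c0_22_23_33_k2 C e0 e1 e2 e3 s1 s2 s3).elim
  · exact (c0_22_23_33_k3 C e0 e1 e2 e3 s1 s2 s3).elim

theorem tri0_22_33_33 {n1 n2 n3 A1 A2 A3 B1 B2 B3 m11_1 m11_2 m11_3 m13_1 m13_2 m13_3 m22_1 m22_2 m22_3 m23_1 m23_2 m23_3 m33_1 m33_2 m33_3 : ℤ}
    (C : Ctx0 n1 n2 n3 A1 A2 A3 B1 B2 B3 m11_1 m11_2 m11_3 m13_1 m13_2 m13_3 m22_1 m22_2 m22_3 m23_1 m23_2 m23_3 m33_1 m33_2 m33_3)
    (e0 : 0 < B2)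
    (e1 : 0 < A3)
    (h : SG A1 A2 A3 B1 B2 B3 (m22_1 + m33_1 + m33_1) (m22_2 + m33_2 + m33_2) (m22_3 + m33_3 + m33_3)) :
    F1 n1 n2 n3 A1 A2 A3 B1 B2 B3 ∨ F2 n1 n2 n3 A1 A2 A3 B1 B2 B3 := by
  rcases h with ⟨s1, s2, s3⟩ | ⟨s1, s2, s3⟩ | ⟨s1, s2, s3⟩ | ⟨s1, s2, s3⟩
  · exact (c0_22_33_33_k0 C e0 e1 s1 s2 s3).elim
  · exact (c0_22_33_33_k1 C e0 e1 s1 s2 s3).elim
  · exact (c0_22_33_33_k2 C e0 e1 s1 s2 s3).elim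
  · exact (c0_22_33_33_k3 C e0 e1 s1 s2 s3).elim

theorem tri0_23_23_23 {n1 n2 n3 A1 A2 A3 B1 B2 B3 m11_1 m11_2 m11_3 m13_1 m13_2 m13_3 m22_1 m22_2 m22_3 m23_1 m23_2 m23_3 m33_1 m33_2 m33_3 : ℤ}
    (C : Ctx0 n1 n2 n3 A1 A2 A3 B1 B2 B3 m11_1 m11_2 m11_3 m13_1 m13_2 m13_3 m22_1 m22_2 m22_3 m23_1 m23_2 m23_3 m33_1 m33_2 m33_3)
    (e0 : 0 < A2)
    (e1 : 0 < B3)
    (h : SG A1 A2 A3 B1 B2 B3 (m23_1 + m23_1 + m23_1) (m23_2 + m23_2 + m23_2) (m23_3 + m23_3 + m23_3)) :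
    F1 n1 n2 n3 A1 A2 A3 B1 B2 B3 ∨ F2 n1 n2 n3 A1 A2 A3 B1 B2 B3 := by
  rcases h with ⟨s1, s2, s3⟩ | ⟨s1, s2, s3⟩ | ⟨s1, s2, s3⟩ | ⟨s1, s2, s3⟩
  · exact (c0_23_23_23_k0 C e0 e1 s1 s2 s3).elim
  · exact (c0_23_23_23_k1 C e0 e1 s1 s2 s3).elim
  · exact (c0_23_23_23_k2 C e0 e1 s1 s2 s3).elim
  · exact (c0_23_23_23_k3 C e0 e1 s1 s2 s3).elim

theorem tri0_23_23_33 {n1 n2 n3 A1 A2 A3 B1 B2 B3 m11_1 m11_2 m11_3 m13_1 m13_2 m13_3 m22_1 m22_2 m22_3 m23_1 m23_2 m23_3 m33_1 m33_2 m33_3 : ℤ}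
    (C : Ctx0 n1 n2 n3 A1 A2 A3 B1 B2 B3 m11_1 m11_2 m11_3 m13_1 m13_2 m13_3 m22_1 m22_2 m22_3 m23_1 m23_2 m23_3 m33_1 m33_2 m33_3)
    (e0 : 0 < A2)
    (e1 : 0 < B3)
    (e2 : 0 < A3)
    (h : SG A1 A2 A3 B1 B2 B3 (m23_1 + m23_1 + m33_1) (m23_2 + m23_2 + m33_2) (m23_3 + m23_3 + m33_3)) :
    F1 n1 n2 n3 A1 A2 A3 B1 B2 B3 ∨ F2 n1 n2 n3 A1 A2 A3 B1 B2 B3 := by
  rcases h with ⟨s1, s2, s3⟩ | ⟨s1, s2, s3⟩ | ⟨s1, s2, s3⟩ | ⟨s1, s2, s3⟩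
  · exact (c0_23_23_33_k0 C e0 e1 e2 s1 s2 s3).elim
  · exact (c0_23_23_33_k1 C e0 e1 e2 s1 s2 s3).elim
  · exact (c0_23_23_33_k2 C e0 e1 e2 s1 s2 s3).elim
  · exact (c0_23_23_33_k3 C e0 e1 e2 s1 s2 s3).elim

theorem tri0_23_33_33 {n1 n2 n3 A1 A2 A3 B1 B2 B3 m11_1 m11_2 m11_3 m13_1 m13_2 m13_3 m22_1 m22_2 m22_3 m23_1 m23_2 m23_3 m33_1 m33_2 m33_3 : ℤ}
    (C : Ctx0 n1 n2 n3 A1 A2 A3 B1 B2 B3 m11_1 m11_2 m11_3 m13_1 m13_2 m13_3 m22_1 m22_2 m22_3 m23_1 m23_2 m23_3 m33_1 m33_2 m33_3)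
    (e0 : 0 < A2)
    (e1 : 0 < B3)
    (e2 : 0 < A3)
    (h : SG A1 A2 A3 B1 B2 B3 (m23_1 + m33_1 + m33_1) (m23_2 + m33_2 + m33_2) (m23_3 + m33_3 + m33_3)) :
    F1 n1 n2 n3 A1 A2 A3 B1 B2 B3 ∨ F2 n1 n2 n3 A1 A2 A3 B1 B2 B3 := by
  rcases h with ⟨s1, s2, s3⟩ | ⟨s1, s2, s3⟩ | ⟨s1, s2, s3⟩ | ⟨s1, s2, s3⟩
  · exact (c0_23_33_33_k0 C e0 e1 e2 s1 s2 s3).elim
  · exact (c0_23_33_33_k1 C e0 e1 e2 s1 s2 s3).elim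
  · exact (c0_23_33_33_k2 C e0 e1 e2 s1 s2 s3).elim
  · exact (c0_23_33_33_k3 C e0 e1 e2 s1 s2 s3).elim

theorem tri0_33_33_33 {n1 n2 n3 A1 A2 A3 B1 B2 B3 m11_1 m11_2 m11_3 m13_1 m13_2 m13_3 m22_1 m22_2 m22_3 m23_1 m23_2 m23_3 m33_1 m33_2 m33_3 : ℤ}
    (C : Ctx0 n1 n2 n3 A1 A2 A3 B1 B2 B3 m11_1 m11_2 m11_3 m13_1 m13_2 m13_3 m22_1 m22_2 m22_3 m23_1 m23_2 m23_3 m33_1 m33_2 m33_3)
    (e0 : 0 < A3)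
    (h : SG A1 A2 A3 B1 B2 B3 (m33_1 + m33_1 + m33_1) (m33_2 + m33_2 + m33_2) (m33_3 + m33_3 + m33_3)) :
    F1 n1 n2 n3 A1 A2 A3 B1 B2 B3 ∨ F2 n1 n2 n3 A1 A2 A3 B1 B2 B3 := by
  rcases h with ⟨s1, s2, s3⟩ | ⟨s1, s2, s3⟩ | ⟨s1, s2, s3⟩ | ⟨s1, s2, s3⟩
  · exact (c0_33_33_33_k0 C e0 s1 s2 s3).elim
  · exact (c0_33_33_33_k1 C e0 s1 s2 s3).elim
  · exact (c0_33_33_33_k2 C e0 s1 s2 s3).elim
  · exact (c0_33_33_33_k3 C e0 s1 s2 s3).elim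

theorem case0 {n1 n2 n3 A1 A2 A3 B1 B2 B3 y1 y2 y3 z1 z2 z3 w1 w2 w3 : ℤ}
    (h0 : 0 ≤ A1)
    (h1 : A1 ≤ n1)
    (h2 : A1 ≤ A2)
    (h3 : A2 ≤ A1 + n2)
    (h4 : A2 ≤ A3)
    (h5 : A3 ≤ A2 + n3)
    (h6 : 0 ≤ B1)
    (h7 : B1 ≤ n1)
    (h8 : B1 ≤ B2)
    (h9 : B2 ≤ B1 + n2)
    (h10 : B2 ≤ B3)
    (h11 : B3 ≤ B2 + n3)
    (h12 : A1 > B1)
    (h13 : A2 ≥ B2)
    (h14 : A3 < B3)
    (h15 : (0 < A1 ∧ A2 < A1 + n2) ∨ (0 < B1 ∧ B2 < B1 + n2))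
    (h16 : (A1 < A2 ∧ A3 < A2 + n3) ∨ (B1 < B2 ∧ B3 < B2 + n3))
    (hN : NT n1 n2 n3 A1 A2 A3 B1 B2 B3)
    (by_ : Bx n1 n2 n3 y1 y2 y3) (ly : Ls A1 A2 A3 B1 B2 B3 y1 y2 y3)
    (bz : Bx n1 n2 n3 z1 z2 z3) (lz : Ls A1 A2 A3 B1 B2 B3 z1 z2 z3)
    (bw : Bx n1 n2 n3 w1 w2 w3) (lw : Ls A1 A2 A3 B1 B2 B3 w1 w2 w3)
    (hS : SG A1 A2 A3 B1 B2 B3 (y1 + z1 + w1) (y2 + z2 + w2) (y3 + z3 + w3)) :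
    F1 n1 n2 n3 A1 A2 A3 B1 B2 B3 ∨ F2 n1 n2 n3 A1 A2 A3 B1 B2 B3 := by
  obtain ⟨m11_1, m11_2, m11_3, m13_1, m13_2, m13_3, m22_1, m22_2, m22_3, m23_1, m23_2, m23_3, m33_1, m33_2, m33_3, C⟩ := exctx0 h0 h1 h2 h3 h4 h5 h6 h7 h8 h9 h10 h11 h12 h13 h14 h15 h16 hN
  rcases cl0 C by_ ly with ⟨ey11_0, qy11_1, qy11_2, qy11_3⟩ | ⟨ey13_0, ey13_1, qy13_1, qy13_2, qy13_3⟩ | ⟨ey22_0, qy22_1, qy22_2, qy22_3⟩ | ⟨ey23_0, ey23_1, qy23_1, qy23_2, qy23_3⟩ | ⟨ey33_0, qy33_1, qy33_2, qy33_3⟩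
  · rcases cl0 C bz lz with ⟨ez11_0, qz11_1, qz11_2, qz11_3⟩ | ⟨ez13_0, ez13_1, qz13_1, qz13_2, qz13_3⟩ | ⟨ez22_0, qz22_1, qz22_2, qz22_3⟩ | ⟨ez23_0, ez23_1, qz23_1, qz23_2, qz23_3⟩ | ⟨ez33_0, qz33_1, qz33_2, qz33_3⟩
    · rcases cl0 C bw lw with ⟨ew11_0, qw11_1, qw11_2, qw11_3⟩ | ⟨ew13_0, ew13_1, qw13_1, qw13_2, qw13_3⟩ | ⟨ew22_0, qw22_1, qw22_2, qw22_3⟩ | ⟨ew23_0, ew23_1, qw23_1, qw23_2, qw23_3⟩ | ⟨ew33_0, qw33_1, qw33_2, qw33_3⟩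
      · exact tri0_11_11_11 C ew11_0 (hS.mono (by linarith) (by linarith) (by linarith))
      · exact tri0_11_11_13 C ey11_0 ew13_0 ew13_1 (hS.mono (by linarith) (by linarith) (by linarith))
      · exact tri0_11_11_22 C ey11_0 ew22_0 (hS.mono (by linarith) (by linarith) (by linarith))
      · exact tri0_11_11_23 C ey11_0 ew23_0 ew23_1 (hS.mono (by linarith) (by linarith) (by linarith))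
      · exact tri0_11_11_33 C ey11_0 ew33_0 (hS.mono (by linarith) (by linarith) (by linarith))
    · rcases cl0 C bw lw with ⟨ew11_0, qw11_1, qw11_2, qw11_3⟩ | ⟨ew13_0, ew13_1, qw13_1, qw13_2, qw13_3⟩ | ⟨ew22_0, qw22_1, qw22_2, qw22_3⟩ | ⟨ew23_0, ew23_1, qw23_1, qw23_2, qw23_3⟩ | ⟨ew33_0, qw33_1, qw33_2, qw33_3⟩
      · exact tri0_11_11_13 C ew11_0 ez13_0 ez13_1 (hS.mono (by linarith) (by linarith) (by linarith))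
      · exact tri0_11_13_13 C ey11_0 ew13_0 ew13_1 (hS.mono (by linarith) (by linarith) (by linarith))
      · exact tri0_11_13_22 C ey11_0 ez13_0 ez13_1 ew22_0 (hS.mono (by linarith) (by linarith) (by linarith))
      · exact tri0_11_13_23 C ey11_0 ez13_0 ez13_1 ew23_0 (hS.mono (by linarith) (by linarith) (by linarith))
      · exact tri0_11_13_33 C ey11_0 ez13_0 ez13_1 ew33_0 (hS.mono (by linarith) (by linarith) (by linarith))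
    · rcases cl0 C bw lw with ⟨ew11_0, qw11_1, qw11_2, qw11_3⟩ | ⟨ew13_0, ew13_1, qw13_1, qw13_2, qw13_3⟩ | ⟨ew22_0, qw22_1, qw22_2, qw22_3⟩ | ⟨ew23_0, ew23_1, qw23_1, qw23_2, qw23_3⟩ | ⟨ew33_0, qw33_1, qw33_2, qw33_3⟩
      · exact tri0_11_11_22 C ew11_0 ez22_0 (hS.mono (by linarith) (by linarith) (by linarith))
      · exact tri0_11_13_22 C ey11_0 ew13_0 ew13_1 ez22_0 (hS.mono (by linarith) (by linarith) (by linarith))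
      · exact tri0_11_22_22 C ey11_0 ew22_0 (hS.mono (by linarith) (by linarith) (by linarith))
      · exact tri0_11_22_23 C ey11_0 ez22_0 ew23_0 ew23_1 (hS.mono (by linarith) (by linarith) (by linarith))
      · exact tri0_11_22_33 C ey11_0 ez22_0 ew33_0 (hS.mono (by linarith) (by linarith) (by linarith))
    · rcases cl0 C bw lw with ⟨ew11_0, qw11_1, qw11_2, qw11_3⟩ | ⟨ew13_0, ew13_1, qw13_1, qw13_2, qw13_3⟩ | ⟨ew22_0, qw22_1, qw22_2, qw22_3⟩ | ⟨ew23_0, ew23_1, qw23_1, qw23_2, qw23_3⟩ | ⟨ew33_0, qw33_1, qw33_2, qw33_3⟩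
      · exact tri0_11_11_23 C ew11_0 ez23_0 ez23_1 (hS.mono (by linarith) (by linarith) (by linarith))
      · exact tri0_11_13_23 C ey11_0 ew13_0 ew13_1 ez23_0 (hS.mono (by linarith) (by linarith) (by linarith))
      · exact tri0_11_22_23 C ey11_0 ew22_0 ez23_0 ez23_1 (hS.mono (by linarith) (by linarith) (by linarith))
      · exact tri0_11_23_23 C ey11_0 ew23_0 ew23_1 (hS.mono (by linarith) (by linarith) (by linarith))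
      · exact tri0_11_23_33 C ey11_0 ez23_0 ez23_1 ew33_0 (hS.mono (by linarith) (by linarith) (by linarith))
    · rcases cl0 C bw lw with ⟨ew11_0, qw11_1, qw11_2, qw11_3⟩ | ⟨ew13_0, ew13_1, qw13_1, qw13_2, qw13_3⟩ | ⟨ew22_0, qw22_1, qw22_2, qw22_3⟩ | ⟨ew23_0, ew23_1, qw23_1, qw23_2, qw23_3⟩ | ⟨ew33_0, qw33_1, qw33_2, qw33_3⟩
      · exact tri0_11_11_33 C ew11_0 ez33_0 (hS.mono (by linarith) (by linarith) (by linarith))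
      · exact tri0_11_13_33 C ey11_0 ew13_0 ew13_1 ez33_0 (hS.mono (by linarith) (by linarith) (by linarith))
      · exact tri0_11_22_33 C ey11_0 ew22_0 ez33_0 (hS.mono (by linarith) (by linarith) (by linarith))
      · exact tri0_11_23_33 C ey11_0 ew23_0 ew23_1 ez33_0 (hS.mono (by linarith) (by linarith) (by linarith))
      · exact tri0_11_33_33 C ey11_0 ew33_0 (hS.mono (by linarith) (by linarith) (by linarith))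
  · rcases cl0 C bz lz with ⟨ez11_0, qz11_1, qz11_2, qz11_3⟩ | ⟨ez13_0, ez13_1, qz13_1, qz13_2, qz13_3⟩ | ⟨ez22_0, qz22_1, qz22_2, qz22_3⟩ | ⟨ez23_0, ez23_1, qz23_1, qz23_2, qz23_3⟩ | ⟨ez33_0, qz33_1, qz33_2, qz33_3⟩
    · rcases cl0 C bw lw with ⟨ew11_0, qw11_1, qw11_2, qw11_3⟩ | ⟨ew13_0, ew13_1, qw13_1, qw13_2, qw13_3⟩ | ⟨ew22_0, qw22_1, qw22_2, qw22_3⟩ | ⟨ew23_0, ew23_1, qw23_1, qw23_2, qw23_3⟩ | ⟨ew33_0, qw33_1, qw33_2, qw33_3⟩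
      · exact tri0_11_11_13 C ew11_0 ey13_0 ey13_1 (hS.mono (by linarith) (by linarith) (by linarith))
      · exact tri0_11_13_13 C ez11_0 ew13_0 ew13_1 (hS.mono (by linarith) (by linarith) (by linarith))
      · exact tri0_11_13_22 C ez11_0 ey13_0 ey13_1 ew22_0 (hS.mono (by linarith) (by linarith) (by linarith))
      · exact tri0_11_13_23 C ez11_0 ey13_0 ey13_1 ew23_0 (hS.mono (by linarith) (by linarith) (by linarith))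
      · exact tri0_11_13_33 C ez11_0 ey13_0 ey13_1 ew33_0 (hS.mono (by linarith) (by linarith) (by linarith))
    · rcases cl0 C bw lw with ⟨ew11_0, qw11_1, qw11_2, qw11_3⟩ | ⟨ew13_0, ew13_1, qw13_1, qw13_2, qw13_3⟩ | ⟨ew22_0, qw22_1, qw22_2, qw22_3⟩ | ⟨ew23_0, ew23_1, qw23_1, qw23_2, qw23_3⟩ | ⟨ew33_0, qw33_1, qw33_2, qw33_3⟩
      · exact tri0_11_13_13 C ew11_0 ey13_0 ey13_1 (hS.mono (by linarith) (by linarith) (by linarith))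
      · exact tri0_13_13_13 C ew13_0 ew13_1 (hS.mono (by linarith) (by linarith) (by linarith))
      · exact tri0_13_13_22 C ey13_0 ey13_1 ew22_0 (hS.mono (by linarith) (by linarith) (by linarith))
      · exact tri0_13_13_23 C ey13_0 ey13_1 ew23_0 (hS.mono (by linarith) (by linarith) (by linarith))
      · exact tri0_13_13_33 C ey13_0 ey13_1 ew33_0 (hS.mono (by linarith) (by linarith) (by linarith))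
    · rcases cl0 C bw lw with ⟨ew11_0, qw11_1, qw11_2, qw11_3⟩ | ⟨ew13_0, ew13_1, qw13_1, qw13_2, qw13_3⟩ | ⟨ew22_0, qw22_1, qw22_2, qw22_3⟩ | ⟨ew23_0, ew23_1, qw23_1, qw23_2, qw23_3⟩ | ⟨ew33_0, qw33_1, qw33_2, qw33_3⟩
      · exact tri0_11_13_22 C ew11_0 ey13_0 ey13_1 ez22_0 (hS.mono (by linarith) (by linarith) (by linarith))
      · exact tri0_13_13_22 C ew13_0 ew13_1 ez22_0 (hS.mono (by linarith) (by linarith) (by linarith))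
      · exact tri0_13_22_22 C ey13_0 ey13_1 ew22_0 (hS.mono (by linarith) (by linarith) (by linarith))
      · exact tri0_13_22_23 C ey13_0 ey13_1 ez22_0 ew23_0 (hS.mono (by linarith) (by linarith) (by linarith))
      · exact tri0_13_22_33 C ey13_0 ey13_1 ez22_0 ew33_0 (hS.mono (by linarith) (by linarith) (by linarith))
    · rcases cl0 C bw lw with ⟨ew11_0, qw11_1, qw11_2, qw11_3⟩ | ⟨ew13_0, ew13_1, qw13_1, qw13_2, qw13_3⟩ | ⟨ew22_0, qw22_1, qw22_2, qw22_3⟩ | ⟨ew23_0, ew23_1, qw23_1, qw23_2, qw23_3⟩ | ⟨ew33_0, qw33_1, qw33_2, qw33_3⟩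
      · exact tri0_11_13_23 C ew11_0 ey13_0 ey13_1 ez23_0 (hS.mono (by linarith) (by linarith) (by linarith))
      · exact tri0_13_13_23 C ew13_0 ew13_1 ez23_0 (hS.mono (by linarith) (by linarith) (by linarith))
      · exact tri0_13_22_23 C ey13_0 ey13_1 ew22_0 ez23_0 (hS.mono (by linarith) (by linarith) (by linarith))
      · exact tri0_13_23_23 C ey13_0 ey13_1 ew23_0 (hS.mono (by linarith) (by linarith) (by linarith))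
      · exact tri0_13_23_33 C ey13_0 ey13_1 ez23_0 ew33_0 (hS.mono (by linarith) (by linarith) (by linarith))
    · rcases cl0 C bw lw with ⟨ew11_0, qw11_1, qw11_2, qw11_3⟩ | ⟨ew13_0, ew13_1, qw13_1, qw13_2, qw13_3⟩ | ⟨ew22_0, qw22_1, qw22_2, qw22_3⟩ | ⟨ew23_0, ew23_1, qw23_1, qw23_2, qw23_3⟩ | ⟨ew33_0, qw33_1, qw33_2, qw33_3⟩
      · exact tri0_11_13_33 C ew11_0 ey13_0 ey13_1 ez33_0 (hS.mono (by linarith) (by linarith) (by linarith))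
      · exact tri0_13_13_33 C ew13_0 ew13_1 ez33_0 (hS.mono (by linarith) (by linarith) (by linarith))
      · exact tri0_13_22_33 C ey13_0 ey13_1 ew22_0 ez33_0 (hS.mono (by linarith) (by linarith) (by linarith))
      · exact tri0_13_23_33 C ey13_0 ey13_1 ew23_0 ez33_0 (hS.mono (by linarith) (by linarith) (by linarith))
      · exact tri0_13_33_33 C ey13_0 ey13_1 ew33_0 (hS.mono (by linarith) (by linarith) (by linarith))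
  · rcases cl0 C bz lz with ⟨ez11_0, qz11_1, qz11_2, qz11_3⟩ | ⟨ez13_0, ez13_1, qz13_1, qz13_2, qz13_3⟩ | ⟨ez22_0, qz22_1, qz22_2, qz22_3⟩ | ⟨ez23_0, ez23_1, qz23_1, qz23_2, qz23_3⟩ | ⟨ez33_0, qz33_1, qz33_2, qz33_3⟩
    · rcases cl0 C bw lw with ⟨ew11_0, qw11_1, qw11_2, qw11_3⟩ | ⟨ew13_0, ew13_1, qw13_1, qw13_2, qw13_3⟩ | ⟨ew22_0, qw22_1, qw22_2, qw22_3⟩ | ⟨ew23_0, ew23_1, qw23_1, qw23_2, qw23_3⟩ | ⟨ew33_0, qw33_1, qw33_2, qw33_3⟩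
      · exact tri0_11_11_22 C ew11_0 ey22_0 (hS.mono (by linarith) (by linarith) (by linarith))
      · exact tri0_11_13_22 C ez11_0 ew13_0 ew13_1 ey22_0 (hS.mono (by linarith) (by linarith) (by linarith))
      · exact tri0_11_22_22 C ez11_0 ew22_0 (hS.mono (by linarith) (by linarith) (by linarith))
      · exact tri0_11_22_23 C ez11_0 ey22_0 ew23_0 ew23_1 (hS.mono (by linarith) (by linarith) (by linarith))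
      · exact tri0_11_22_33 C ez11_0 ey22_0 ew33_0 (hS.mono (by linarith) (by linarith) (by linarith))
    · rcases cl0 C bw lw with ⟨ew11_0, qw11_1, qw11_2, qw11_3⟩ | ⟨ew13_0, ew13_1, qw13_1, qw13_2, qw13_3⟩ | ⟨ew22_0, qw22_1, qw22_2, qw22_3⟩ | ⟨ew23_0, ew23_1, qw23_1, qw23_2, qw23_3⟩ | ⟨ew33_0, qw33_1, qw33_2, qw33_3⟩
      · exact tri0_11_13_22 C ew11_0 ez13_0 ez13_1 ey22_0 (hS.mono (by linarith) (by linarith) (by linarith))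
      · exact tri0_13_13_22 C ew13_0 ew13_1 ey22_0 (hS.mono (by linarith) (by linarith) (by linarith))
      · exact tri0_13_22_22 C ez13_0 ez13_1 ew22_0 (hS.mono (by linarith) (by linarith) (by linarith))
      · exact tri0_13_22_23 C ez13_0 ez13_1 ey22_0 ew23_0 (hS.mono (by linarith) (by linarith) (by linarith))
      · exact tri0_13_22_33 C ez13_0 ez13_1 ey22_0 ew33_0 (hS.mono (by linarith) (by linarith) (by linarith))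
    · rcases cl0 C bw lw with ⟨ew11_0, qw11_1, qw11_2, qw11_3⟩ | ⟨ew13_0, ew13_1, qw13_1, qw13_2, qw13_3⟩ | ⟨ew22_0, qw22_1, qw22_2, qw22_3⟩ | ⟨ew23_0, ew23_1, qw23_1, qw23_2, qw23_3⟩ | ⟨ew33_0, qw33_1, qw33_2, qw33_3⟩
      · exact tri0_11_22_22 C ew11_0 ey22_0 (hS.mono (by linarith) (by linarith) (by linarith))
      · exact tri0_13_22_22 C ew13_0 ew13_1 ey22_0 (hS.mono (by linarith) (by linarith) (by linarith))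
      · exact tri0_22_22_22 C ew22_0 (hS.mono (by linarith) (by linarith) (by linarith))
      · exact tri0_22_22_23 C ey22_0 ew23_0 ew23_1 (hS.mono (by linarith) (by linarith) (by linarith))
      · exact tri0_22_22_33 C ey22_0 ew33_0 (hS.mono (by linarith) (by linarith) (by linarith))
    · rcases cl0 C bw lw with ⟨ew11_0, qw11_1, qw11_2, qw11_3⟩ | ⟨ew13_0, ew13_1, qw13_1, qw13_2, qw13_3⟩ | ⟨ew22_0, qw22_1, qw22_2, qw22_3⟩ | ⟨ew23_0, ew23_1, qw23_1, qw23_2, qw23_3⟩ | ⟨ew33_0, qw33_1, qw33_2, qw33_3⟩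
      · exact tri0_11_22_23 C ew11_0 ey22_0 ez23_0 ez23_1 (hS.mono (by linarith) (by linarith) (by linarith))
      · exact tri0_13_22_23 C ew13_0 ew13_1 ey22_0 ez23_0 (hS.mono (by linarith) (by linarith) (by linarith))
      · exact tri0_22_22_23 C ew22_0 ez23_0 ez23_1 (hS.mono (by linarith) (by linarith) (by linarith))
      · exact tri0_22_23_23 C ey22_0 ew23_0 ew23_1 (hS.mono (by linarith) (by linarith) (by linarith))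
      · exact tri0_22_23_33 C ey22_0 ez23_0 ez23_1 ew33_0 (hS.mono (by linarith) (by linarith) (by linarith))
    · rcases cl0 C bw lw with ⟨ew11_0, qw11_1, qw11_2, qw11_3⟩ | ⟨ew13_0, ew13_1, qw13_1, qw13_2, qw13_3⟩ | ⟨ew22_0, qw22_1, qw22_2, qw22_3⟩ | ⟨ew23_0, ew23_1, qw23_1, qw23_2, qw23_3⟩ | ⟨ew33_0, qw33_1, qw33_2, qw33_3⟩
      · exact tri0_11_22_33 C ew11_0 ey22_0 ez33_0 (hS.mono (by linarith) (by linarith) (by linarith))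
      · exact tri0_13_22_33 C ew13_0 ew13_1 ey22_0 ez33_0 (hS.mono (by linarith) (by linarith) (by linarith))
      · exact tri0_22_22_33 C ew22_0 ez33_0 (hS.mono (by linarith) (by linarith) (by linarith))
      · exact tri0_22_23_33 C ey22_0 ew23_0 ew23_1 ez33_0 (hS.mono (by linarith) (by linarith) (by linarith))
      · exact tri0_22_33_33 C ey22_0 ew33_0 (hS.mono (by linarith) (by linarith) (by linarith))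
  · rcases cl0 C bz lz with ⟨ez11_0, qz11_1, qz11_2, qz11_3⟩ | ⟨ez13_0, ez13_1, qz13_1, qz13_2, qz13_3⟩ | ⟨ez22_0, qz22_1, qz22_2, qz22_3⟩ | ⟨ez23_0, ez23_1, qz23_1, qz23_2, qz23_3⟩ | ⟨ez33_0, qz33_1, qz33_2, qz33_3⟩
    · rcases cl0 C bw lw with ⟨ew11_0, qw11_1, qw11_2, qw11_3⟩ | ⟨ew13_0, ew13_1, qw13_1, qw13_2, qw13_3⟩ | ⟨ew22_0, qw22_1, qw22_2, qw22_3⟩ | ⟨ew23_0, ew23_1, qw23_1, qw23_2, qw23_3⟩ | ⟨ew33_0, qw33_1, qw33_2, qw33_3⟩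
      · exact tri0_11_11_23 C ew11_0 ey23_0 ey23_1 (hS.mono (by linarith) (by linarith) (by linarith))
      · exact tri0_11_13_23 C ez11_0 ew13_0 ew13_1 ey23_0 (hS.mono (by linarith) (by linarith) (by linarith))
      · exact tri0_11_22_23 C ez11_0 ew22_0 ey23_0 ey23_1 (hS.mono (by linarith) (by linarith) (by linarith))
      · exact tri0_11_23_23 C ez11_0 ew23_0 ew23_1 (hS.mono (by linarith) (by linarith) (by linarith))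
      · exact tri0_11_23_33 C ez11_0 ey23_0 ey23_1 ew33_0 (hS.mono (by linarith) (by linarith) (by linarith))
    · rcases cl0 C bw lw with ⟨ew11_0, qw11_1, qw11_2, qw11_3⟩ | ⟨ew13_0, ew13_1, qw13_1, qw13_2, qw13_3⟩ | ⟨ew22_0, qw22_1, qw22_2, qw22_3⟩ | ⟨ew23_0, ew23_1, qw23_1, qw23_2, qw23_3⟩ | ⟨ew33_0, qw33_1, qw33_2, qw33_3⟩
      · exact tri0_11_13_23 C ew11_0 ez13_0 ez13_1 ey23_0 (hS.mono (by linarith) (by linarith) (by linarith))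
      · exact tri0_13_13_23 C ew13_0 ew13_1 ey23_0 (hS.mono (by linarith) (by linarith) (by linarith))
      · exact tri0_13_22_23 C ez13_0 ez13_1 ew22_0 ey23_0 (hS.mono (by linarith) (by linarith) (by linarith))
      · exact tri0_13_23_23 C ez13_0 ez13_1 ew23_0 (hS.mono (by linarith) (by linarith) (by linarith))
      · exact tri0_13_23_33 C ez13_0 ez13_1 ey23_0 ew33_0 (hS.mono (by linarith) (by linarith) (by linarith))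
    · rcases cl0 C bw lw with ⟨ew11_0, qw11_1, qw11_2, qw11_3⟩ | ⟨ew13_0, ew13_1, qw13_1, qw13_2, qw13_3⟩ | ⟨ew22_0, qw22_1, qw22_2, qw22_3⟩ | ⟨ew23_0, ew23_1, qw23_1, qw23_2, qw23_3⟩ | ⟨ew33_0, qw33_1, qw33_2, qw33_3⟩
      · exact tri0_11_22_23 C ew11_0 ez22_0 ey23_0 ey23_1 (hS.mono (by linarith) (by linarith) (by linarith))
      · exact tri0_13_22_23 C ew13_0 ew13_1 ez22_0 ey23_0 (hS.mono (by linarith) (by linarith) (by linarith))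
      · exact tri0_22_22_23 C ew22_0 ey23_0 ey23_1 (hS.mono (by linarith) (by linarith) (by linarith))
      · exact tri0_22_23_23 C ez22_0 ew23_0 ew23_1 (hS.mono (by linarith) (by linarith) (by linarith))
      · exact tri0_22_23_33 C ez22_0 ey23_0 ey23_1 ew33_0 (hS.mono (by linarith) (by linarith) (by linarith))
    · rcases cl0 C bw lw with ⟨ew11_0, qw11_1, qw11_2, qw11_3⟩ | ⟨ew13_0, ew13_1, qw13_1, qw13_2, qw13_3⟩ | ⟨ew22_0, qw22_1, qw22_2, qw22_3⟩ | ⟨ew23_0, ew23_1, qw23_1, qw23_2, qw23_3⟩ | ⟨ew33_0, qw33_1, qw33_2, qw33_3⟩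
      · exact tri0_11_23_23 C ew11_0 ey23_0 ey23_1 (hS.mono (by linarith) (by linarith) (by linarith))
      · exact tri0_13_23_23 C ew13_0 ew13_1 ey23_0 (hS.mono (by linarith) (by linarith) (by linarith))
      · exact tri0_22_23_23 C ew22_0 ey23_0 ey23_1 (hS.mono (by linarith) (by linarith) (by linarith))
      · exact tri0_23_23_23 C ew23_0 ew23_1 (hS.mono (by linarith) (by linarith) (by linarith))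
      · exact tri0_23_23_33 C ey23_0 ey23_1 ew33_0 (hS.mono (by linarith) (by linarith) (by linarith))
    · rcases cl0 C bw lw with ⟨ew11_0, qw11_1, qw11_2, qw11_3⟩ | ⟨ew13_0, ew13_1, qw13_1, qw13_2, qw13_3⟩ | ⟨ew22_0, qw22_1, qw22_2, qw22_3⟩ | ⟨ew23_0, ew23_1, qw23_1, qw23_2, qw23_3⟩ | ⟨ew33_0, qw33_1, qw33_2, qw33_3⟩
      · exact tri0_11_23_33 C ew11_0 ey23_0 ey23_1 ez33_0 (hS.mono (by linarith) (by linarith) (by linarith))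
      · exact tri0_13_23_33 C ew13_0 ew13_1 ey23_0 ez33_0 (hS.mono (by linarith) (by linarith) (by linarith))
      · exact tri0_22_23_33 C ew22_0 ey23_0 ey23_1 ez33_0 (hS.mono (by linarith) (by linarith) (by linarith))
      · exact tri0_23_23_33 C ew23_0 ew23_1 ez33_0 (hS.mono (by linarith) (by linarith) (by linarith))
      · exact tri0_23_33_33 C ey23_0 ey23_1 ew33_0 (hS.mono (by linarith) (by linarith) (by linarith))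
  · rcases cl0 C bz lz with ⟨ez11_0, qz11_1, qz11_2, qz11_3⟩ | ⟨ez13_0, ez13_1, qz13_1, qz13_2, qz13_3⟩ | ⟨ez22_0, qz22_1, qz22_2, qz22_3⟩ | ⟨ez23_0, ez23_1, qz23_1, qz23_2, qz23_3⟩ | ⟨ez33_0, qz33_1, qz33_2, qz33_3⟩
    · rcases cl0 C bw lw with ⟨ew11_0, qw11_1, qw11_2, qw11_3⟩ | ⟨ew13_0, ew13_1, qw13_1, qw13_2, qw13_3⟩ | ⟨ew22_0, qw22_1, qw22_2, qw22_3⟩ | ⟨ew23_0, ew23_1, qw23_1, qw23_2, qw23_3⟩ | ⟨ew33_0, qw33_1, qw33_2, qw33_3⟩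
      · exact tri0_11_11_33 C ew11_0 ey33_0 (hS.mono (by linarith) (by linarith) (by linarith))
      · exact tri0_11_13_33 C ez11_0 ew13_0 ew13_1 ey33_0 (hS.mono (by linarith) (by linarith) (by linarith))
      · exact tri0_11_22_33 C ez11_0 ew22_0 ey33_0 (hS.mono (by linarith) (by linarith) (by linarith))
      · exact tri0_11_23_33 C ez11_0 ew23_0 ew23_1 ey33_0 (hS.mono (by linarith) (by linarith) (by linarith))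
      · exact tri0_11_33_33 C ez11_0 ew33_0 (hS.mono (by linarith) (by linarith) (by linarith))
    · rcases cl0 C bw lw with ⟨ew11_0, qw11_1, qw11_2, qw11_3⟩ | ⟨ew13_0, ew13_1, qw13_1, qw13_2, qw13_3⟩ | ⟨ew22_0, qw22_1, qw22_2, qw22_3⟩ | ⟨ew23_0, ew23_1, qw23_1, qw23_2, qw23_3⟩ | ⟨ew33_0, qw33_1, qw33_2, qw33_3⟩
      · exact tri0_11_13_33 C ew11_0 ez13_0 ez13_1 ey33_0 (hS.mono (by linarith) (by linarith) (by linarith))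
      · exact tri0_13_13_33 C ew13_0 ew13_1 ey33_0 (hS.mono (by linarith) (by linarith) (by linarith))
      · exact tri0_13_22_33 C ez13_0 ez13_1 ew22_0 ey33_0 (hS.mono (by linarith) (by linarith) (by linarith))
      · exact tri0_13_23_33 C ez13_0 ez13_1 ew23_0 ey33_0 (hS.mono (by linarith) (by linarith) (by linarith))
      · exact tri0_13_33_33 C ez13_0 ez13_1 ew33_0 (hS.mono (by linarith) (by linarith) (by linarith))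
    · rcases cl0 C bw lw with ⟨ew11_0, qw11_1, qw11_2, qw11_3⟩ | ⟨ew13_0, ew13_1, qw13_1, qw13_2, qw13_3⟩ | ⟨ew22_0, qw22_1, qw22_2, qw22_3⟩ | ⟨ew23_0, ew23_1, qw23_1, qw23_2, qw23_3⟩ | ⟨ew33_0, qw33_1, qw33_2, qw33_3⟩
      · exact tri0_11_22_33 C ew11_0 ez22_0 ey33_0 (hS.mono (by linarith) (by linarith) (by linarith))
      · exact tri0_13_22_33 C ew13_0 ew13_1 ez22_0 ey33_0 (hS.mono (by linarith) (by linarith) (by linarith))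
      · exact tri0_22_22_33 C ew22_0 ey33_0 (hS.mono (by linarith) (by linarith) (by linarith))
      · exact tri0_22_23_33 C ez22_0 ew23_0 ew23_1 ey33_0 (hS.mono (by linarith) (by linarith) (by linarith))
      · exact tri0_22_33_33 C ez22_0 ew33_0 (hS.mono (by linarith) (by linarith) (by linarith))
    · rcases cl0 C bw lw with ⟨ew11_0, qw11_1, qw11_2, qw11_3⟩ | ⟨ew13_0, ew13_1, qw13_1, qw13_2, qw13_3⟩ | ⟨ew22_0, qw22_1, qw22_2, qw22_3⟩ | ⟨ew23_0, ew23_1, qw23_1, qw23_2, qw23_3⟩ | ⟨ew33_0, qw33_1, qw33_2, qw33_3⟩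
      · exact tri0_11_23_33 C ew11_0 ez23_0 ez23_1 ey33_0 (hS.mono (by linarith) (by linarith) (by linarith))
      · exact tri0_13_23_33 C ew13_0 ew13_1 ez23_0 ey33_0 (hS.mono (by linarith) (by linarith) (by linarith))
      · exact tri0_22_23_33 C ew22_0 ez23_0 ez23_1 ey33_0 (hS.mono (by linarith) (by linarith) (by linarith))
      · exact tri0_23_23_33 C ew23_0 ew23_1 ey33_0 (hS.mono (by linarith) (by linarith) (by linarith))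
      · exact tri0_23_33_33 C ez23_0 ez23_1 ew33_0 (hS.mono (by linarith) (by linarith) (by linarith))
    · rcases cl0 C bw lw with ⟨ew11_0, qw11_1, qw11_2, qw11_3⟩ | ⟨ew13_0, ew13_1, qw13_1, qw13_2, qw13_3⟩ | ⟨ew22_0, qw22_1, qw22_2, qw22_3⟩ | ⟨ew23_0, ew23_1, qw23_1, qw23_2, qw23_3⟩ | ⟨ew33_0, qw33_1, qw33_2, qw33_3⟩
      · exact tri0_11_33_33 C ew11_0 ey33_0 (hS.mono (by linarith) (by linarith) (by linarith))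
      · exact tri0_13_33_33 C ew13_0 ew13_1 ey33_0 (hS.mono (by linarith) (by linarith) (by linarith))
      · exact tri0_22_33_33 C ew22_0 ey33_0 (hS.mono (by linarith) (by linarith) (by linarith))
      · exact tri0_23_33_33 C ew23_0 ew23_1 ey33_0 (hS.mono (by linarith) (by linarith) (by linarith))
      · exact tri0_33_33_33 C ew33_0 (hS.mono (by linarith) (by linarith) (by linarith))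

end Pool.Agent.Helper89.TQ
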