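import Pool.Agent.Helper89.TQ.Ctx

set_option autoImplicit false
set_option linter.all false
set_option maxHeartbeats 4000000

namespace Pool.Agent.Helper89.TQ

theorem c1_11_12_12_k0 {n1 n2 n3 A1 A2 A3 B1 B2 B3 m11_1 m11_2 m11_3 m12_1 m12_2 m12_3 m22_1 m22_2 m22_3 m32_1 m32_2 m32_3 m33_1 m33_2 m33_3 : ℤ}
    (C : Ctx1 n1 n2 n3 A1 A2 A3 B1 B2 B3 m11_1 m11_2 m11_3 m12_1 m12_2 m12_3 m22_1 m22_2 m22_3 m32_1 m32_2 m32_3 m33_1 m33_2 m33_3)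
    (e0 : 0 < B1)
    (e1 : 0 < A1)
    (e2 : 0 < B2)
    (s1 : 0 * A1 + 3 * B1 ≤ m11_1 + m12_1 + m12_1)
    (s2 : 0 * A2 + 3 * B2 ≤ m11_2 + m12_2 + m12_2)
    (s3 : 0 * A3 + 3 * B3 ≤ m11_3 + m12_3 + m12_3) : False := by
  have d4 : ((0 ≤ 0 - B1)) ∨ ((0 ≤ 0 - A1)) ∨ ((0 ≤ 0 - B2)) ∨ ((0 ≤ -1 + 2 * B1 - m11_1 - m12_1)) ∨ ((0 ≤ -1 + 2 * B2 - m11_2 - m12_2)) ∨ ((0 ≤ -1 + 2 * B3 - m11_3 - m12_3)) := by
    have h := C.p11_12B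
    clear C e0 e1 e2 s1 s2 s3
    omega
  rcases d4 with g1 | g2 | g3 | g4 | g5 | g6
  · linarith only [g1, e0]
  · linarith only [g2, e1]
  · linarith only [g3, e2]
  · linarith only [g4, s1, C.f11_0]
  · linarith only [g5, s2, C.f12_4]
  · linarith only [s3, s2, C.f11_2, C.f12_4, C.f12_6, g6]

theorem c1_11_12_12_k1 {n1 n2 n3 A1 A2 A3 B1 B2 B3 m11_1 m11_2 m11_3 m12_1 m12_2 m12_3 m22_1 m22_2 m22_3 m32_1 m32_2 m32_3 m33_1 m33_2 m33_3 : ℤ}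
    (C : Ctx1 n1 n2 n3 A1 A2 A3 B1 B2 B3 m11_1 m11_2 m11_3 m12_1 m12_2 m12_3 m22_1 m22_2 m22_3 m32_1 m32_2 m32_3 m33_1 m33_2 m33_3)
    (e0 : 0 < B1)
    (e1 : 0 < A1)
    (e2 : 0 < B2)
    (s1 : 1 * A1 + 2 * B1 ≤ m11_1 + m12_1 + m12_1)
    (s2 : 1 * A2 + 2 * B2 ≤ m11_2 + m12_2 + m12_2)
    (s3 : 1 * A3 + 2 * B3 ≤ m11_3 + m12_3 + m12_3) : False := by
  have d4 : ((0 ≤ 0 - B1)) ∨ ((0 ≤ 0 - A1)) ∨ ((0 ≤ 0 - B2)) ∨ ((0 ≤ -1 + 2 * B1 - m11_1 - m12_1)) ∨ ((0 ≤ -1 + 2 * B2 - m11_2 - m12_2)) ∨ ((0 ≤ -1 + 2 * B3 - m11_3 - m12_3)) := by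
    have h := C.p11_12B
    clear C e0 e1 e2 s1 s2 s3
    omega
  have d5 : ((0 ≤ 0 - A1 + A2 - n2)) ∨ ((0 ≤ 1 + A2 - A3)) ∨ ((0 ≤ 0 + B1 - B2)) ∨ ((0 ≤ 1 - B2 + B3 - n3)) ∨ ((0 ≤ 1 + A2 - B2) ∧ (0 ≤ -1 + A3 - B3)) := by
    have h := C.tzmp
    clear C e0 e1 e2 s1 s2 s3
    omega
  rcases d4 with g1 | g2 | g3 | g4 | g5 | g6
  · linarith only [g1, e0]
  · linarith only [g2, e1]
  · linarith only [g3, e2]
  · linarith only [g4, s1, C.f12_0]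
  · rcases d5 with g7 | g8 | g9 | g10 | ⟨g11, g12⟩
    · linarith only [g7, s1, s2, C.f11_0, C.f11_1, C.f12_0, C.f12_4]
    · linarith only [C.o2, s2, g8, C.b4, C.f12_4, g5]
    · linarith only [g9, s1, s2, C.a2, C.f11_0, C.f12_0, C.f12_4, g5]
    · linarith only [C.a5, s2, g10, C.o2, C.f12_4, g5]
    · linarith only [g11, s2, C.f12_4, g5]
  · linarith only [s3, C.b3, C.o2, C.f11_0, C.f11_1, C.f11_2, C.f12_4, C.f12_6, g6]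

theorem c1_11_12_12_k2 {n1 n2 n3 A1 A2 A3 B1 B2 B3 m11_1 m11_2 m11_3 m12_1 m12_2 m12_3 m22_1 m22_2 m22_3 m32_1 m32_2 m32_3 m33_1 m33_2 m33_3 : ℤ}
    (C : Ctx1 n1 n2 n3 A1 A2 A3 B1 B2 B3 m11_1 m11_2 m11_3 m12_1 m12_2 m12_3 m22_1 m22_2 m22_3 m32_1 m32_2 m32_3 m33_1 m33_2 m33_3)
    (e0 : 0 < B1)
    (e1 : 0 < A1)
    (e2 : 0 < B2)
    (s1 : 2 * A1 + 1 * B1 ≤ m11_1 + m12_1 + m12_1)
    (s2 : 2 * A2 + 1 * B2 ≤ m11_2 + m12_2 + m12_2)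
    (s3 : 2 * A3 + 1 * B3 ≤ m11_3 + m12_3 + m12_3) : False := by
  linarith only [C.f12_0, s1, C.f11_0]

theorem c1_11_12_12_k3 {n1 n2 n3 A1 A2 A3 B1 B2 B3 m11_1 m11_2 m11_3 m12_1 m12_2 m12_3 m22_1 m22_2 m22_3 m32_1 m32_2 m32_3 m33_1 m33_2 m33_3 : ℤ}
    (C : Ctx1 n1 n2 n3 A1 A2 A3 B1 B2 B3 m11_1 m11_2 m11_3 m12_1 m12_2 m12_3 m22_1 m22_2 m22_3 m32_1 m32_2 m32_3 m33_1 m33_2 m33_3)
    (e0 : 0 < B1)
    (e1 : 0 < A1)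
    (e2 : 0 < B2)
    (s1 : 3 * A1 + 0 * B1 ≤ m11_1 + m12_1 + m12_1)
    (s2 : 3 * A2 + 0 * B2 ≤ m11_2 + m12_2 + m12_2)
    (s3 : 3 * A3 + 0 * B3 ≤ m11_3 + m12_3 + m12_3) : False := by
  linarith only [C.f12_0, s1, C.o0, C.f11_0]

theorem c1_11_12_22_k0 {n1 n2 n3 A1 A2 A3 B1 B2 B3 m11_1 m11_2 m11_3 m12_1 m12_2 m12_3 m22_1 m22_2 m22_3 m32_1 m32_2 m32_3 m33_1 m33_2 m33_3 : ℤ}
    (C : Ctx1 n1 n2 n3 A1 A2 A3 B1 B2 B3 m11_1 m11_2 m11_3 m12_1 m12_2 m12_3 m22_1 m22_2 m22_3 m32_1 m32_2 m32_3 m33_1 m33_2 m33_3)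
    (e0 : 0 < B1)
    (e1 : 0 < A1)
    (e2 : 0 < B2)
    (e3 : 0 < A2)
    (s1 : 0 * A1 + 3 * B1 ≤ m11_1 + m12_1 + m22_1)
    (s2 : 0 * A2 + 3 * B2 ≤ m11_2 + m12_2 + m22_2)
    (s3 : 0 * A3 + 3 * B3 ≤ m11_3 + m12_3 + m22_3) : False := by
  have d4 : ((0 ≤ 0 + m22_1 - n1) ∧ (0 ≤ 0 - m22_1 + n1)) ∨ ((0 ≤ 1 - A2 + m22_1) ∧ (0 ≤ -1 + A2 - m22_1)) := by
    have h := C.f22_2
    clear C e0 e1 e2 e3 s1 s2 s3
    omega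
  have d6 : ((0 ≤ 0 - B1)) ∨ ((0 ≤ 0 - A2)) ∨ ((0 ≤ -1 + 2 * B1 - m11_1 - m22_1)) ∨ ((0 ≤ -1 + 2 * B2 - m11_2 - m22_2)) ∨ ((0 ≤ -1 + 2 * B3 - m11_3 - m22_3)) := by
    have h := C.p11_22B
    clear C e0 e1 e2 e3 s1 s2 s3
    omega
  rcases d6 with g1 | g2 | g3 | g4 | g5
  · linarith only [g1, e0]
  · linarith only [g2, e3]
  · rcases d4 with ⟨g6, g7⟩ | ⟨g8, g9⟩
    · linarith only [g6, s1, C.a1, C.f11_0, C.f12_0, g3]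
    · linarith only [g8, s1, C.a2, C.f11_0, C.f12_0, g3]
  · linarith only [g4, s2, C.f12_4]
  · linarith only [s3, s2, C.f11_2, C.f12_4, C.f12_6, C.f22_6, g5]

theorem c1_11_12_22_k1 {n1 n2 n3 A1 A2 A3 B1 B2 B3 m11_1 m11_2 m11_3 m12_1 m12_2 m12_3 m22_1 m22_2 m22_3 m32_1 m32_2 m32_3 m33_1 m33_2 m33_3 : ℤ}
    (C : Ctx1 n1 n2 n3 A1 A2 A3 B1 B2 B3 m11_1 m11_2 m11_3 m12_1 m12_2 m12_3 m22_1 m22_2 m22_3 m32_1 m32_2 m32_3 m33_1 m33_2 m33_3)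
    (e0 : 0 < B1)
    (e1 : 0 < A1)
    (e2 : 0 < B2)
    (e3 : 0 < A2)
    (s1 : 1 * A1 + 2 * B1 ≤ m11_1 + m12_1 + m22_1)
    (s2 : 1 * A2 + 2 * B2 ≤ m11_2 + m12_2 + m22_2)
    (s3 : 1 * A3 + 2 * B3 ≤ m11_3 + m12_3 + m22_3) : False := by
  have d6 : ((0 ≤ 0 - B1)) ∨ ((0 ≤ 0 - A2)) ∨ ((0 ≤ -1 + 2 * B1 - m11_1 - m22_1)) ∨ ((0 ≤ -1 + 2 * B2 - m11_2 - m22_2)) ∨ ((0 ≤ -1 + 2 * B3 - m11_3 - m22_3)) := by
    have h := C.p11_22B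
    clear C e0 e1 e2 e3 s1 s2 s3
    omega
  have d7 : ((0 ≤ 0 - A1 + A2 - n2)) ∨ ((0 ≤ 1 + A2 - A3)) ∨ ((0 ≤ 0 + B1 - B2)) ∨ ((0 ≤ 1 - B2 + B3 - n3)) ∨ ((0 ≤ 1 + A2 - B2) ∧ (0 ≤ -1 + A3 - B3)) := by
    have h := C.tzmp
    clear C e0 e1 e2 e3 s1 s2 s3
    omega
  rcases d6 with g1 | g2 | g3 | g4 | g5
  · linarith only [g1, e0]
  · linarith only [g2, e3]
  · linarith only [g3, s1, C.f12_0]
  · rcases d7 with g6 | g7 | g8 | g9 | ⟨g10, g11⟩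
    · linarith only [g6, s2, C.o0, C.f11_0, C.f11_1, C.f12_4, C.f22_4, g4]
    · linarith only [C.o2, s2, g7, C.b4, C.f12_4, g4]
    · linarith only [g8, s1, s2, C.f11_0, C.f12_0, C.f12_4, C.f22_1, g4]
    · linarith only [C.a5, s2, g9, C.o2, C.f12_4, g4]
    · linarith only [g10, s2, C.f12_4, g4]
  · linarith only [C.a5, s2, s3, C.o2, C.f11_2, C.f12_4, C.f12_6, C.f22_6, g5]

theorem c1_11_12_22_k2 {n1 n2 n3 A1 A2 A3 B1 B2 B3 m11_1 m11_2 m11_3 m12_1 m12_2 m12_3 m22_1 m22_2 m22_3 m32_1 m32_2 m32_3 m33_1 m33_2 m33_3 : ℤ}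
    (C : Ctx1 n1 n2 n3 A1 A2 A3 B1 B2 B3 m11_1 m11_2 m11_3 m12_1 m12_2 m12_3 m22_1 m22_2 m22_3 m32_1 m32_2 m32_3 m33_1 m33_2 m33_3)
    (e0 : 0 < B1)
    (e1 : 0 < A1)
    (e2 : 0 < B2)
    (e3 : 0 < A2)
    (s1 : 2 * A1 + 1 * B1 ≤ m11_1 + m12_1 + m22_1)
    (s2 : 2 * A2 + 1 * B2 ≤ m11_2 + m12_2 + m22_2)
    (s3 : 2 * A3 + 1 * B3 ≤ m11_3 + m12_3 + m22_3) : False := by
  have d3 : ((0 ≤ 0 - m12_1 + m12_2 - n2) ∧ (0 ≤ 0 + m12_1 - m12_2 + n2)) ∨ ((0 ≤ 1 - B2 + m12_2) ∧ (0 ≤ -1 + B2 - m12_2)) := by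
    have h := C.f12_5
    clear C e0 e1 e2 e3 s1 s2 s3
    omega
  have d6 : ((0 ≤ 0 - B1)) ∨ ((0 ≤ 0 - A1)) ∨ ((0 ≤ 0 - B2)) ∨ ((0 ≤ -1 + 2 * B1 - m11_1 - m12_1)) ∨ ((0 ≤ -1 + 2 * B2 - m11_2 - m12_2)) ∨ ((0 ≤ -1 + 2 * B3 - m11_3 - m12_3)) := by
    have h := C.p11_12B
    clear C e0 e1 e2 e3 s1 s2 s3
    omega
  have d7 : ((0 ≤ 0 - B1)) ∨ ((0 ≤ 0 - A2)) ∨ ((0 ≤ -1 + 2 * A1 - m11_1 - m22_1)) ∨ ((0 ≤ -1 + 2 * A2 - m11_2 - m22_2)) ∨ ((0 ≤ -1 + 2 * A3 - m11_3 - m22_3)) := by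
    have h := C.p11_22A
    clear C e0 e1 e2 e3 s1 s2 s3
    omega
  have d8 : ((0 ≤ 0 - A1)) ∨ ((0 ≤ 0 - B2)) ∨ ((0 ≤ 0 - A2)) ∨ ((0 ≤ -1 + 2 * A1 - m12_1 - m22_1)) ∨ ((0 ≤ -1 + 2 * A2 - m12_2 - m22_2)) ∨ ((0 ≤ -1 + 2 * A3 - m12_3 - m22_3)) := by
    have h := C.p12_22A
    clear C e0 e1 e2 e3 s1 s2 s3
    omega
  rcases d7 with g1 | g2 | g3 | g4 | g5
  · linarith only [g1, e0]
  · linarith only [g2, e3]
  · rcases d6 with g6 | g7 | g8 | g9 | g10 | g11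
    · linarith only [g6, e0]
    · linarith only [g7, e1]
    · linarith only [g8, e2]
    · linarith only [g9, s1, C.f11_0, g3]
    · rcases d3 with ⟨g12, g13⟩ | ⟨g14, g15⟩
      · linarith only [C.b3, s1, C.f11_0, C.f11_1, g12, g10, g3]
      · rcases d8 with g16 | g17 | g18 | g19 | g20 | g21
        · linarith only [g16, e1]
        · linarith only [g17, e2]
        · linarith only [g18, e3]
        · linarith only [g19, s1, C.f11_0]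
        · linarith only [g20, s2, g14, g10]
        · linarith only [C.a5, s2, g14, C.f12_6, C.f22_6, g10, g21]
    · linarith only [C.b5, s2, s3, C.o2, C.f11_2, C.f12_6, C.f22_4, C.f22_6, g11]
  · linarith only [g4, s2, C.f12_4]
  · linarith only [g5, s2, C.a5, C.f11_2, C.f12_4, C.f22_6]

theorem c1_11_12_22_k3 {n1 n2 n3 A1 A2 A3 B1 B2 B3 m11_1 m11_2 m11_3 m12_1 m12_2 m12_3 m22_1 m22_2 m22_3 m32_1 m32_2 m32_3 m33_1 m33_2 m33_3 : ℤ}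
    (C : Ctx1 n1 n2 n3 A1 A2 A3 B1 B2 B3 m11_1 m11_2 m11_3 m12_1 m12_2 m12_3 m22_1 m22_2 m22_3 m32_1 m32_2 m32_3 m33_1 m33_2 m33_3)
    (e0 : 0 < B1)
    (e1 : 0 < A1)
    (e2 : 0 < B2)
    (e3 : 0 < A2)
    (s1 : 3 * A1 + 0 * B1 ≤ m11_1 + m12_1 + m22_1)
    (s2 : 3 * A2 + 0 * B2 ≤ m11_2 + m12_2 + m22_2)
    (s3 : 3 * A3 + 0 * B3 ≤ m11_3 + m12_3 + m22_3) : False := by
  have d2 : ((0 ≤ 1 - A1 + m12_1) ∧ (0 ≤ -1 + A1 - m12_1)) ∨ ((0 ≤ 1 - B2 + m12_1) ∧ (0 ≤ -1 + B2 - m12_1)) := by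
    have h := C.f12_2
    clear C e0 e1 e2 e3 s1 s2 s3
    omega
  have d3 : ((0 ≤ 0 - m12_1 + m12_2 - n2) ∧ (0 ≤ 0 + m12_1 - m12_2 + n2)) ∨ ((0 ≤ 1 - B2 + m12_2) ∧ (0 ≤ -1 + B2 - m12_2)) := by
    have h := C.f12_5
    clear C e0 e1 e2 e3 s1 s2 s3
    omega
  have d5 : ((0 ≤ 0 - m22_1 + m22_2 - n2) ∧ (0 ≤ 0 + m22_1 - m22_2 + n2)) ∨ ((0 ≤ 1 - A2 + m22_2) ∧ (0 ≤ -1 + A2 - m22_2)) := by
    have h := C.f22_5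
    clear C e0 e1 e2 e3 s1 s2 s3
    omega
  have d6 : ((0 ≤ 0 - B1)) ∨ ((0 ≤ 0 - A2)) ∨ ((0 ≤ -1 + 2 * A1 - m11_1 - m22_1)) ∨ ((0 ≤ -1 + 2 * A2 - m11_2 - m22_2)) ∨ ((0 ≤ -1 + 2 * A3 - m11_3 - m22_3)) := by
    have h := C.p11_22A
    clear C e0 e1 e2 e3 s1 s2 s3
    omega
  rcases d2 with ⟨g1, g2⟩ | ⟨g3, g4⟩
  · rcases d3 with ⟨g5, g6⟩ | ⟨g7, g8⟩
    · linarith only [C.b3, C.o0, g1, g5, C.f12_4]
    · rcases d5 with ⟨g9, g10⟩ | ⟨g11, g12⟩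
      · linarith only [C.f22_4, s1, C.b3, C.o0, C.o1, C.f11_0, g2, g9]
      · rcases d6 with g13 | g14 | g15 | g16 | g17
        · linarith only [g13, e0]
        · linarith only [g14, e3]
        · linarith only [g15, s1, g2]
        · linarith only [C.b3, s2, C.f11_0, C.f11_1, g8, g11, g16]
        · linarith only [C.a5, s3, C.b3, C.f11_0, C.f11_1, C.f11_2, g8, C.f12_6, g11, C.f22_6, g17]
  · linarith only [C.o1, s1, C.o0, C.f11_0, C.f12_0, g3, C.f22_1]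

theorem c1_11_12_32_k0 {n1 n2 n3 A1 A2 A3 B1 B2 B3 m11_1 m11_2 m11_3 m12_1 m12_2 m12_3 m22_1 m22_2 m22_3 m32_1 m32_2 m32_3 m33_1 m33_2 m33_3 : ℤ}
    (C : Ctx1 n1 n2 n3 A1 A2 A3 B1 B2 B3 m11_1 m11_2 m11_3 m12_1 m12_2 m12_3 m22_1 m22_2 m22_3 m32_1 m32_2 m32_3 m33_1 m33_2 m33_3)
    (e0 : 0 < B1)
    (e1 : 0 < A1)
    (e2 : 0 < B2)
    (e3 : 0 < A3)
    (s1 : 0 * A1 + 3 * B1 ≤ m11_1 + m12_1 + m32_1)
    (s2 : 0 * A2 + 3 * B2 ≤ m11_2 + m12_2 + m32_2)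
    (s3 : 0 * A3 + 3 * B3 ≤ m11_3 + m12_3 + m32_3) : False := by
  have d2 : ((0 ≤ 1 - A1 + m12_1) ∧ (0 ≤ -1 + A1 - m12_1)) ∨ ((0 ≤ 1 - B2 + m12_1) ∧ (0 ≤ -1 + B2 - m12_1)) := by
    have h := C.f12_2
    clear C e0 e1 e2 e3 s1 s2 s3
    omega
  have d3 : ((0 ≤ 0 - m12_1 + m12_2 - n2) ∧ (0 ≤ 0 + m12_1 - m12_2 + n2)) ∨ ((0 ≤ 1 - B2 + m12_2) ∧ (0 ≤ -1 + B2 - m12_2)) := by
    have h := C.f12_5
    clear C e0 e1 e2 e3 s1 s2 s3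
    omega
  have d4 : ((0 ≤ 0 + m32_1 - n1) ∧ (0 ≤ 0 - m32_1 + n1)) ∨ ((0 ≤ 1 - B2 + m32_1) ∧ (0 ≤ -1 + B2 - m32_1)) ∨ ((0 ≤ 1 - A3 + m32_1) ∧ (0 ≤ -1 + A3 - m32_1)) := by
    have h := C.f32_3
    clear C e0 e1 e2 e3 s1 s2 s3
    omega
  have d6 : ((0 ≤ 0 - m32_2 + m32_3 - n3) ∧ (0 ≤ 0 + m32_2 - m32_3 + n3)) ∨ ((0 ≤ 1 - A3 + m32_3) ∧ (0 ≤ -1 + A3 - m32_3)) := by
    have h := C.f32_10
    clear C e0 e1 e2 e3 s1 s2 s3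
    omega
  have d7 : ((0 ≤ 0 - B1)) ∨ ((0 ≤ 0 - B2)) ∨ ((0 ≤ 0 - A3)) ∨ ((0 ≤ -1 + 2 * B1 - m11_1 - m32_1)) ∨ ((0 ≤ -1 + 2 * B2 - m11_2 - m32_2)) ∨ ((0 ≤ -1 + 2 * B3 - m11_3 - m32_3)) := by
    have h := C.p11_32B
    clear C e0 e1 e2 e3 s1 s2 s3
    omega
  rcases d2 with ⟨g1, g2⟩ | ⟨g3, g4⟩
  · rcases d3 with ⟨g5, g6⟩ | ⟨g7, g8⟩
    · linarith only [C.o0, s2, C.f11_0, C.f11_1, g1, g5, C.f12_4, C.f32_5]
    · rcases d7 with g9 | g10 | g11 | g12 | g13 | g14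
      · linarith only [g9, e0]
      · linarith only [g10, e2]
      · linarith only [g11, e3]
      · rcases d4 with ⟨g15, g16⟩ | ⟨g17, g18⟩ | ⟨g19, g20⟩
        · linarith only [g12, s1, C.a1, C.f11_0, g2, g15]
        · linarith only [C.a2, s1, C.o1, C.f11_0, g2, g17, g12]
        · linarith only [g19, s1, C.a2, C.b4, C.o1, C.o2, C.f11_0, g2, g12]
      · linarith only [g13, s2, g8]
      · rcases d6 with ⟨g21, g22⟩ | ⟨g23, g24⟩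
        · linarith only [g21, s2, s3, C.f11_2, g8, C.f12_6, g14]
        · linarith only [g23, s2, s3, C.o2, C.f11_2, g8, C.f12_6, C.f32_5, g14]
  · linarith only [C.a2, C.o1, C.f12_0, g3]

theorem c1_11_12_32_k1 {n1 n2 n3 A1 A2 A3 B1 B2 B3 m11_1 m11_2 m11_3 m12_1 m12_2 m12_3 m22_1 m22_2 m22_3 m32_1 m32_2 m32_3 m33_1 m33_2 m33_3 : ℤ}
    (C : Ctx1 n1 n2 n3 A1 A2 A3 B1 B2 B3 m11_1 m11_2 m11_3 m12_1 m12_2 m12_3 m22_1 m22_2 m22_3 m32_1 m32_2 m32_3 m33_1 m33_2 m33_3)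
    (e0 : 0 < B1)
    (e1 : 0 < A1)
    (e2 : 0 < B2)
    (e3 : 0 < A3)
    (s1 : 1 * A1 + 2 * B1 ≤ m11_1 + m12_1 + m32_1)
    (s2 : 1 * A2 + 2 * B2 ≤ m11_2 + m12_2 + m32_2)
    (s3 : 1 * A3 + 2 * B3 ≤ m11_3 + m12_3 + m32_3) : False := by
  have d2 : ((0 ≤ 1 - A1 + m12_1) ∧ (0 ≤ -1 + A1 - m12_1)) ∨ ((0 ≤ 1 - B2 + m12_1) ∧ (0 ≤ -1 + B2 - m12_1)) := by
    have h := C.f12_2
    clear C e0 e1 e2 e3 s1 s2 s3
    omega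
  have d3 : ((0 ≤ 0 - m12_1 + m12_2 - n2) ∧ (0 ≤ 0 + m12_1 - m12_2 + n2)) ∨ ((0 ≤ 1 - B2 + m12_2) ∧ (0 ≤ -1 + B2 - m12_2)) := by
    have h := C.f12_5
    clear C e0 e1 e2 e3 s1 s2 s3
    omega
  have d6 : ((0 ≤ 0 - m32_2 + m32_3 - n3) ∧ (0 ≤ 0 + m32_2 - m32_3 + n3)) ∨ ((0 ≤ 1 - A3 + m32_3) ∧ (0 ≤ -1 + A3 - m32_3)) := by
    have h := C.f32_10
    clear C e0 e1 e2 e3 s1 s2 s3
    omega
  have d7 : ((0 ≤ 0 - B1)) ∨ ((0 ≤ 0 - B2)) ∨ ((0 ≤ 0 - A3)) ∨ ((0 ≤ -1 + 2 * B1 - m11_1 - m32_1)) ∨ ((0 ≤ -1 + 2 * B2 - m11_2 - m32_2)) ∨ ((0 ≤ -1 + 2 * B3 - m11_3 - m32_3)) := by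
    have h := C.p11_32B
    clear C e0 e1 e2 e3 s1 s2 s3
    omega
  have d9 : ((0 ≤ 0 - A1 + A2 - n2)) ∨ ((0 ≤ 1 + A2 - A3)) ∨ ((0 ≤ 0 + B1 - B2)) ∨ ((0 ≤ 1 - B2 + B3 - n3)) ∨ ((0 ≤ 1 + A2 - B2) ∧ (0 ≤ -1 + A3 - B3)) := by
    have h := C.tzmp
    clear C e0 e1 e2 e3 s1 s2 s3
    omega
  rcases d2 with ⟨g1, g2⟩ | ⟨g3, g4⟩
  · rcases d3 with ⟨g5, g6⟩ | ⟨g7, g8⟩
    · linarith only [C.b3, C.o0, g1, g5, C.f12_4]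
    · rcases d7 with g9 | g10 | g11 | g12 | g13 | g14
      · linarith only [g9, e0]
      · linarith only [g10, e2]
      · linarith only [g11, e3]
      · linarith only [g12, s1, g2]
      · rcases d9 with g15 | g16 | g17 | g18 | ⟨g19, g20⟩
        · linarith only [C.b3, s2, g15, C.o0, g8, g13]
        · linarith only [C.o2, s2, g16, C.b4, g8, g13]
        · linarith only [g17, s2, C.a2, C.o0, g8, g13]
        · linarith only [g18, s2, C.a5, C.o2, g8, g13]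
        · linarith only [g19, s2, g8, g13]
      · rcases d6 with ⟨g21, g22⟩ | ⟨g23, g24⟩
        · linarith only [C.a5, s2, s3, C.o2, C.f11_2, g8, C.f12_6, g21, g14]
        · linarith only [g23, s2, C.a5, C.o2, C.f11_2, g8, C.f32_5, g14]
  · linarith only [C.o1, C.a2, C.f12_0, g3]

theorem c1_11_12_32_k2 {n1 n2 n3 A1 A2 A3 B1 B2 B3 m11_1 m11_2 m11_3 m12_1 m12_2 m12_3 m22_1 m22_2 m22_3 m32_1 m32_2 m32_3 m33_1 m33_2 m33_3 : ℤ}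
    (C : Ctx1 n1 n2 n3 A1 A2 A3 B1 B2 B3 m11_1 m11_2 m11_3 m12_1 m12_2 m12_3 m22_1 m22_2 m22_3 m32_1 m32_2 m32_3 m33_1 m33_2 m33_3)
    (e0 : 0 < B1)
    (e1 : 0 < A1)
    (e2 : 0 < B2)
    (e3 : 0 < A3)
    (s1 : 2 * A1 + 1 * B1 ≤ m11_1 + m12_1 + m32_1)
    (s2 : 2 * A2 + 1 * B2 ≤ m11_2 + m12_2 + m32_2)
    (s3 : 2 * A3 + 1 * B3 ≤ m11_3 + m12_3 + m32_3) : False := by
  have d2 : ((0 ≤ 1 - A1 + m12_1) ∧ (0 ≤ -1 + A1 - m12_1)) ∨ ((0 ≤ 1 - B2 + m12_1) ∧ (0 ≤ -1 + B2 - m12_1)) := by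
    have h := C.f12_2
    clear C e0 e1 e2 e3 s1 s2 s3
    omega
  have d3 : ((0 ≤ 0 - m12_1 + m12_2 - n2) ∧ (0 ≤ 0 + m12_1 - m12_2 + n2)) ∨ ((0 ≤ 1 - B2 + m12_2) ∧ (0 ≤ -1 + B2 - m12_2)) := by
    have h := C.f12_5
    clear C e0 e1 e2 e3 s1 s2 s3
    omega
  have d5 : ((0 ≤ 0 - m32_1 + m32_2 - n2) ∧ (0 ≤ 0 + m32_1 - m32_2 + n2)) ∨ ((0 ≤ 1 - B2 + m32_2) ∧ (0 ≤ -1 + B2 - m32_2)) ∨ ((0 ≤ 1 - A3 + m32_2) ∧ (0 ≤ -1 + A3 - m32_2)) := by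
    have h := C.f32_7
    clear C e0 e1 e2 e3 s1 s2 s3
    omega
  have d6 : ((0 ≤ 0 - m32_2 + m32_3 - n3) ∧ (0 ≤ 0 + m32_2 - m32_3 + n3)) ∨ ((0 ≤ 1 - A3 + m32_3) ∧ (0 ≤ -1 + A3 - m32_3)) := by
    have h := C.f32_10
    clear C e0 e1 e2 e3 s1 s2 s3
    omega
  have d7 : ((0 ≤ 0 - B1)) ∨ ((0 ≤ 0 - B2)) ∨ ((0 ≤ 0 - A3)) ∨ ((0 ≤ -1 + 2 * A1 - m11_1 - m32_1)) ∨ ((0 ≤ -1 + 2 * A2 - m11_2 - m32_2)) ∨ ((0 ≤ -1 + 2 * A3 - m11_3 - m32_3)) := by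
    have h := C.p11_32A
    clear C e0 e1 e2 e3 s1 s2 s3
    omega
  have d8 : ((0 ≤ 0 - A1)) ∨ ((0 ≤ 0 - B2)) ∨ ((0 ≤ 0 - A3)) ∨ ((0 ≤ -1 + 2 * A1 - m12_1 - m32_1)) ∨ ((0 ≤ -1 + 2 * A2 - m12_2 - m32_2)) ∨ ((0 ≤ -1 + 2 * A3 - m12_3 - m32_3)) := by
    have h := C.p12_32A
    clear C e0 e1 e2 e3 s1 s2 s3
    omega
  have d9 : ((0 ≤ 0 + A1 - n1)) ∨ ((0 ≤ 0 + A1 - A2)) ∨ ((0 ≤ 0 + A2 - A3)) ∨ ((0 ≤ 0 - B1)) ∨ ((0 ≤ 0 - B1 + B2 - n2)) ∨ ((0 ≤ 0 - B2 + B3 - n3)) := by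
    have h := C.tmzp
    clear C e0 e1 e2 e3 s1 s2 s3
    omega
  rcases d2 with ⟨g1, g2⟩ | ⟨g3, g4⟩
  · rcases d3 with ⟨g5, g6⟩ | ⟨g7, g8⟩
    · linarith only [C.o0, C.b3, g1, g5, C.f12_4]
    · rcases d7 with g9 | g10 | g11 | g12 | g13 | g14
      · linarith only [g9, e0]
      · linarith only [g10, e2]
      · linarith only [g11, e3]
      · rcases d8 with g15 | g16 | g17 | g18 | g19 | g20
        · linarith only [g15, e1]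
        · linarith only [g16, e2]
        · linarith only [g17, e3]
        · linarith only [g18, s1, C.f11_0]
        · rcases d5 with ⟨g21, g22⟩ | ⟨g23, g24⟩ | ⟨g25, g26⟩
          · linarith only [C.f32_5, s1, C.b3, C.f11_0, g2, g21, g12]
          · linarith only [C.o1, g7, g23, g19]
          · linarith only [g25, C.b4, C.o1, C.o2, g7, g19]
        · rcases d9 with g27 | g28 | g29 | g30 | g31 | g32
          · linarith only [g27, s1, C.f11_0, g2, C.f32_0]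
          · rcases d6 with ⟨g33, g34⟩ | ⟨g35, g36⟩
            · rcases d5 with ⟨g37, g38⟩ | ⟨g39, g40⟩ | ⟨g41, g42⟩
              · linarith only [g37, s1, s2, g28, C.a5, C.f11_0, C.f11_1, g2, g7, C.f12_6, C.f32_1, g33, g12, g20]
              · linarith only [g39, s1, g28, C.a5, C.f11_0, g2, g7, C.f12_6, C.f32_1, g33, g20]
              · linarith only [g41, s1, g28, C.a5, C.b4, C.o2, C.f11_0, g2, g7, C.f12_6, C.f32_1, g33, g20]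
            · linarith only [g35, s1, g28, C.a5, C.f11_0, g2, g7, C.f12_6, C.f32_1, g20]
          · linarith only [C.o1, g29, C.b4, C.o2]
          · linarith only [g30, e0]
          · rcases d6 with ⟨g43, g44⟩ | ⟨g45, g46⟩
            · linarith only [C.a5, s2, g31, C.f11_0, C.f11_1, C.f12_6, g43, g20]
            · linarith only [g45, s2, C.a5, g31, C.f11_0, C.f11_1, g7, C.f12_6, C.f32_5, g20]
          · linarith only [C.o1, C.a5, g32, C.o2]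
      · linarith only [g13, s2, g8]
      · rcases d6 with ⟨g47, g48⟩ | ⟨g49, g50⟩
        · linarith only [C.a5, s2, C.f11_2, g8, g47, g14]
        · linarith only [g49, s2, C.a5, C.b3, C.f11_0, C.f11_1, C.f11_2, g8, C.f32_5, g14]
  · linarith only [g3, s1, C.f11_0, C.f12_0, C.f32_1]

theorem c1_11_12_32_k3 {n1 n2 n3 A1 A2 A3 B1 B2 B3 m11_1 m11_2 m11_3 m12_1 m12_2 m12_3 m22_1 m22_2 m22_3 m32_1 m32_2 m32_3 m33_1 m33_2 m33_3 : ℤ}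
    (C : Ctx1 n1 n2 n3 A1 A2 A3 B1 B2 B3 m11_1 m11_2 m11_3 m12_1 m12_2 m12_3 m22_1 m22_2 m22_3 m32_1 m32_2 m32_3 m33_1 m33_2 m33_3)
    (e0 : 0 < B1)
    (e1 : 0 < A1)
    (e2 : 0 < B2)
    (e3 : 0 < A3)
    (s1 : 3 * A1 + 0 * B1 ≤ m11_1 + m12_1 + m32_1)
    (s2 : 3 * A2 + 0 * B2 ≤ m11_2 + m12_2 + m32_2)
    (s3 : 3 * A3 + 0 * B3 ≤ m11_3 + m12_3 + m32_3) : False := by
  have d2 : ((0 ≤ 1 - A1 + m12_1) ∧ (0 ≤ -1 + A1 - m12_1)) ∨ ((0 ≤ 1 - B2 + m12_1) ∧ (0 ≤ -1 + B2 - m12_1)) := by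
    have h := C.f12_2
    clear C e0 e1 e2 e3 s1 s2 s3
    omega
  have d3 : ((0 ≤ 0 - m12_1 + m12_2 - n2) ∧ (0 ≤ 0 + m12_1 - m12_2 + n2)) ∨ ((0 ≤ 1 - B2 + m12_2) ∧ (0 ≤ -1 + B2 - m12_2)) := by
    have h := C.f12_5
    clear C e0 e1 e2 e3 s1 s2 s3
    omega
  have d5 : ((0 ≤ 0 - m32_1 + m32_2 - n2) ∧ (0 ≤ 0 + m32_1 - m32_2 + n2)) ∨ ((0 ≤ 1 - B2 + m32_2) ∧ (0 ≤ -1 + B2 - m32_2)) ∨ ((0 ≤ 1 - A3 + m32_2) ∧ (0 ≤ -1 + A3 - m32_2)) := by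
    have h := C.f32_7
    clear C e0 e1 e2 e3 s1 s2 s3
    omega
  have d6 : ((0 ≤ 0 - m32_2 + m32_3 - n3) ∧ (0 ≤ 0 + m32_2 - m32_3 + n3)) ∨ ((0 ≤ 1 - A3 + m32_3) ∧ (0 ≤ -1 + A3 - m32_3)) := by
    have h := C.f32_10
    clear C e0 e1 e2 e3 s1 s2 s3
    omega
  have d7 : ((0 ≤ 0 - B1)) ∨ ((0 ≤ 0 - B2)) ∨ ((0 ≤ 0 - A3)) ∨ ((0 ≤ -1 + 2 * A1 - m11_1 - m32_1)) ∨ ((0 ≤ -1 + 2 * A2 - m11_2 - m32_2)) ∨ ((0 ≤ -1 + 2 * A3 - m11_3 - m32_3)) := by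
    have h := C.p11_32A
    clear C e0 e1 e2 e3 s1 s2 s3
    omega
  rcases d2 with ⟨g1, g2⟩ | ⟨g3, g4⟩
  · rcases d3 with ⟨g5, g6⟩ | ⟨g7, g8⟩
    · linarith only [C.b3, C.o0, g1, g5, C.f12_4]
    · rcases d7 with g9 | g10 | g11 | g12 | g13 | g14
      · linarith only [g9, e0]
      · linarith only [g10, e2]
      · linarith only [g11, e3]
      · linarith only [g12, s1, g2]
      · rcases d5 with ⟨g15, g16⟩ | ⟨g17, g18⟩ | ⟨g19, g20⟩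
        · linarith only [C.a3, s1, C.f11_1, g2, g15, g13]
        · linarith only [g17, s2, C.b3, C.f11_0, C.f11_1, g8, g13]
        · linarith only [g19, s2, C.b3, C.b4, C.o2, C.f11_0, C.f11_1, g8, g13]
      · rcases d6 with ⟨g21, g22⟩ | ⟨g23, g24⟩
        · rcases d5 with ⟨g25, g26⟩ | ⟨g27, g28⟩ | ⟨g29, g30⟩
          · linarith only [C.a5, s1, C.a3, C.f11_1, C.f11_2, g2, g25, g21, g14]
          · linarith only [g27, s3, C.b3, C.f11_0, C.f11_1, C.f11_2, g8, C.f12_6, g21, g14]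
          · linarith only [g29, s3, C.b3, C.b4, C.o2, C.f11_0, C.f11_1, C.f11_2, g8, C.f12_6, g21, g14]
        · linarith only [s3, C.b3, C.f11_0, C.f11_1, C.f11_2, g8, C.f12_6, g23, g14]
  · linarith only [g3, s1, C.o0, C.f11_0, C.f12_0, C.f32_1]

theorem c1_11_12_33_k0 {n1 n2 n3 A1 A2 A3 B1 B2 B3 m11_1 m11_2 m11_3 m12_1 m12_2 m12_3 m22_1 m22_2 m22_3 m32_1 m32_2 m32_3 m33_1 m33_2 m33_3 : ℤ}
    (C : Ctx1 n1 n2 n3 A1 A2 A3 B1 B2 B3 m11_1 m11_2 m11_3 m12_1 m12_2 m12_3 m22_1 m22_2 m22_3 m32_1 m32_2 m32_3 m33_1 m33_2 m33_3)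
    (e0 : 0 < B1)
    (e1 : 0 < A1)
    (e2 : 0 < B2)
    (e3 : 0 < B3)
    (s1 : 0 * A1 + 3 * B1 ≤ m11_1 + m12_1 + m33_1)
    (s2 : 0 * A2 + 3 * B2 ≤ m11_2 + m12_2 + m33_2)
    (s3 : 0 * A3 + 3 * B3 ≤ m11_3 + m12_3 + m33_3) : False := by
  have d2 : ((0 ≤ 1 - A1 + m12_1) ∧ (0 ≤ -1 + A1 - m12_1)) ∨ ((0 ≤ 1 - B2 + m12_1) ∧ (0 ≤ -1 + B2 - m12_1)) := by
    have h := C.f12_2
    clear C e0 e1 e2 e3 s1 s2 s3
    omega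
  have d3 : ((0 ≤ 0 - m12_1 + m12_2 - n2) ∧ (0 ≤ 0 + m12_1 - m12_2 + n2)) ∨ ((0 ≤ 1 - B2 + m12_2) ∧ (0 ≤ -1 + B2 - m12_2)) := by
    have h := C.f12_5
    clear C e0 e1 e2 e3 s1 s2 s3
    omega
  have d4 : ((0 ≤ 0 + m33_1 - n1) ∧ (0 ≤ 0 - m33_1 + n1)) ∨ ((0 ≤ 1 - B3 + m33_1) ∧ (0 ≤ -1 + B3 - m33_1)) := by
    have h := C.f33_2
    clear C e0 e1 e2 e3 s1 s2 s3
    omega
  have d6 : ((0 ≤ 0 - m33_2 + m33_3 - n3) ∧ (0 ≤ 0 + m33_2 - m33_3 + n3)) ∨ ((0 ≤ 1 - B3 + m33_3) ∧ (0 ≤ -1 + B3 - m33_3)) := by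
    have h := C.f33_8
    clear C e0 e1 e2 e3 s1 s2 s3
    omega
  have d7 : ((0 ≤ 0 - B1)) ∨ ((0 ≤ 0 - B3)) ∨ ((0 ≤ -1 + 2 * B1 - m11_1 - m33_1)) ∨ ((0 ≤ -1 + 2 * B2 - m11_2 - m33_2)) ∨ ((0 ≤ -1 + 2 * B3 - m11_3 - m33_3)) := by
    have h := C.p11_33B
    clear C e0 e1 e2 e3 s1 s2 s3
    omega
  rcases d2 with ⟨g1, g2⟩ | ⟨g3, g4⟩
  · rcases d3 with ⟨g5, g6⟩ | ⟨g7, g8⟩
    · linarith only [C.b3, C.o0, g1, g5, C.f12_4]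
    · rcases d7 with g9 | g10 | g11 | g12 | g13
      · linarith only [g9, e0]
      · linarith only [g10, e3]
      · rcases d4 with ⟨g14, g15⟩ | ⟨g16, g17⟩
        · linarith only [g14, s1, C.a1, C.f11_0, g2, g11]
        · linarith only [C.b4, s1, C.a2, C.o1, C.f11_0, g2, g16, g11]
      · linarith only [g12, s2, g8]
      · rcases d6 with ⟨g18, g19⟩ | ⟨g20, g21⟩
        · linarith only [g18, s2, s3, C.f11_2, g8, C.f12_6, g13]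
        · linarith only [g20, s3, C.b3, C.f11_0, C.f11_1, C.f11_2, g8, C.f12_6, g13]
  · linarith only [g3, C.a2, C.o1, C.f12_0]

theorem c1_11_12_33_k1 {n1 n2 n3 A1 A2 A3 B1 B2 B3 m11_1 m11_2 m11_3 m12_1 m12_2 m12_3 m22_1 m22_2 m22_3 m32_1 m32_2 m32_3 m33_1 m33_2 m33_3 : ℤ}
    (C : Ctx1 n1 n2 n3 A1 A2 A3 B1 B2 B3 m11_1 m11_2 m11_3 m12_1 m12_2 m12_3 m22_1 m22_2 m22_3 m32_1 m32_2 m32_3 m33_1 m33_2 m33_3)
    (e0 : 0 < B1)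
    (e1 : 0 < A1)
    (e2 : 0 < B2)
    (e3 : 0 < B3)
    (s1 : 1 * A1 + 2 * B1 ≤ m11_1 + m12_1 + m33_1)
    (s2 : 1 * A2 + 2 * B2 ≤ m11_2 + m12_2 + m33_2)
    (s3 : 1 * A3 + 2 * B3 ≤ m11_3 + m12_3 + m33_3) : False := by
  have d2 : ((0 ≤ 1 - A1 + m12_1) ∧ (0 ≤ -1 + A1 - m12_1)) ∨ ((0 ≤ 1 - B2 + m12_1) ∧ (0 ≤ -1 + B2 - m12_1)) := by
    have h := C.f12_2
    clear C e0 e1 e2 e3 s1 s2 s3
    omega
  have d3 : ((0 ≤ 0 - m12_1 + m12_2 - n2) ∧ (0 ≤ 0 + m12_1 - m12_2 + n2)) ∨ ((0 ≤ 1 - B2 + m12_2) ∧ (0 ≤ -1 + B2 - m12_2)) := by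
    have h := C.f12_5
    clear C e0 e1 e2 e3 s1 s2 s3
    omega
  have d6 : ((0 ≤ 0 - m33_2 + m33_3 - n3) ∧ (0 ≤ 0 + m33_2 - m33_3 + n3)) ∨ ((0 ≤ 1 - B3 + m33_3) ∧ (0 ≤ -1 + B3 - m33_3)) := by
    have h := C.f33_8
    clear C e0 e1 e2 e3 s1 s2 s3
    omega
  have d7 : ((0 ≤ 0 - B1)) ∨ ((0 ≤ 0 - B3)) ∨ ((0 ≤ -1 + 2 * B1 - m11_1 - m33_1)) ∨ ((0 ≤ -1 + 2 * B2 - m11_2 - m33_2)) ∨ ((0 ≤ -1 + 2 * B3 - m11_3 - m33_3)) := by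
    have h := C.p11_33B
    clear C e0 e1 e2 e3 s1 s2 s3
    omega
  have d9 : ((0 ≤ 0 - A1 + A2 - n2)) ∨ ((0 ≤ 1 + A2 - A3)) ∨ ((0 ≤ 0 + B1 - B2)) ∨ ((0 ≤ 1 - B2 + B3 - n3)) ∨ ((0 ≤ 1 + A2 - B2) ∧ (0 ≤ -1 + A3 - B3)) := by
    have h := C.tzmp
    clear C e0 e1 e2 e3 s1 s2 s3
    omega
  rcases d2 with ⟨g1, g2⟩ | ⟨g3, g4⟩
  · rcases d3 with ⟨g5, g6⟩ | ⟨g7, g8⟩
    · linarith only [C.b3, C.o0, g1, g5, C.f12_4]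
    · rcases d7 with g9 | g10 | g11 | g12 | g13
      · linarith only [g9, e0]
      · linarith only [g10, e3]
      · linarith only [g11, s1, g2]
      · rcases d9 with g14 | g15 | g16 | g17 | ⟨g18, g19⟩
        · linarith only [C.b3, s2, g14, C.o0, g8, g12]
        · linarith only [C.o2, s2, g15, C.b4, g8, g12]
        · linarith only [g16, s2, C.a2, C.o0, g8, g12]
        · linarith only [g17, s2, C.a5, C.o2, g8, g12]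
        · linarith only [g18, s2, g8, g12]
      · rcases d6 with ⟨g20, g21⟩ | ⟨g22, g23⟩
        · linarith only [C.a5, s2, s3, C.o2, C.f11_2, g8, C.f12_6, g20, g13]
        · linarith only [g22, s3, C.b3, C.o2, C.f11_0, C.f11_1, C.f11_2, g8, C.f12_6, g13]
  · linarith only [g3, C.a2, C.o1, C.f12_0]

theorem c1_11_12_33_k2 {n1 n2 n3 A1 A2 A3 B1 B2 B3 m11_1 m11_2 m11_3 m12_1 m12_2 m12_3 m22_1 m22_2 m22_3 m32_1 m32_2 m32_3 m33_1 m33_2 m33_3 : ℤ}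
    (C : Ctx1 n1 n2 n3 A1 A2 A3 B1 B2 B3 m11_1 m11_2 m11_3 m12_1 m12_2 m12_3 m22_1 m22_2 m22_3 m32_1 m32_2 m32_3 m33_1 m33_2 m33_3)
    (e0 : 0 < B1)
    (e1 : 0 < A1)
    (e2 : 0 < B2)
    (e3 : 0 < B3)
    (s1 : 2 * A1 + 1 * B1 ≤ m11_1 + m12_1 + m33_1)
    (s2 : 2 * A2 + 1 * B2 ≤ m11_2 + m12_2 + m33_2)
    (s3 : 2 * A3 + 1 * B3 ≤ m11_3 + m12_3 + m33_3) : False := by
  have d1 : ((0 ≤ -1 - A1 + A2) ∧ (0 ≤ -1 + A2 - A3 + n3)) ∨ ((0 ≤ -1 - B1 + B2) ∧ (0 ≤ -1 + B2 - B3 + n3)) := by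
    have h := C.t23
    clear C e0 e1 e2 e3 s1 s2 s3
    omega
  have d2 : ((0 ≤ 1 - A1 + m12_1) ∧ (0 ≤ -1 + A1 - m12_1)) ∨ ((0 ≤ 1 - B2 + m12_1) ∧ (0 ≤ -1 + B2 - m12_1)) := by
    have h := C.f12_2
    clear C e0 e1 e2 e3 s1 s2 s3
    omega
  have d3 : ((0 ≤ 0 - m12_1 + m12_2 - n2) ∧ (0 ≤ 0 + m12_1 - m12_2 + n2)) ∨ ((0 ≤ 1 - B2 + m12_2) ∧ (0 ≤ -1 + B2 - m12_2)) := by
    have h := C.f12_5
    clear C e0 e1 e2 e3 s1 s2 s3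
    omega
  have d5 : ((0 ≤ 0 - m33_1 + m33_2 - n2) ∧ (0 ≤ 0 + m33_1 - m33_2 + n2)) ∨ ((0 ≤ 1 - B3 + m33_2) ∧ (0 ≤ -1 + B3 - m33_2)) := by
    have h := C.f33_5
    clear C e0 e1 e2 e3 s1 s2 s3
    omega
  have d6 : ((0 ≤ 0 - m33_2 + m33_3 - n3) ∧ (0 ≤ 0 + m33_2 - m33_3 + n3)) ∨ ((0 ≤ 1 - B3 + m33_3) ∧ (0 ≤ -1 + B3 - m33_3)) := by
    have h := C.f33_8
    clear C e0 e1 e2 e3 s1 s2 s3
    omega
  have d7 : ((0 ≤ 0 - B1)) ∨ ((0 ≤ 0 - B3)) ∨ ((0 ≤ -1 + 2 * B1 - m11_1 - m33_1)) ∨ ((0 ≤ -1 + 2 * B2 - m11_2 - m33_2)) ∨ ((0 ≤ -1 + 2 * B3 - m11_3 - m33_3)) := by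
    have h := C.p11_33B
    clear C e0 e1 e2 e3 s1 s2 s3
    omega
  have d8 : ((0 ≤ 0 - A1)) ∨ ((0 ≤ 0 - B2)) ∨ ((0 ≤ 0 - B3)) ∨ ((0 ≤ -1 + 2 * A1 - m12_1 - m33_1)) ∨ ((0 ≤ -1 + 2 * A2 - m12_2 - m33_2)) ∨ ((0 ≤ -1 + 2 * A3 - m12_3 - m33_3)) := by
    have h := C.p12_33A
    clear C e0 e1 e2 e3 s1 s2 s3
    omega
  have d9 : ((0 ≤ 0 + A1 - n1)) ∨ ((0 ≤ 0 + A1 - A2)) ∨ ((0 ≤ 0 + A2 - A3)) ∨ ((0 ≤ 0 - B1)) ∨ ((0 ≤ 0 - B1 + B2 - n2)) ∨ ((0 ≤ 0 - B2 + B3 - n3)) := by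
    have h := C.tmzp
    clear C e0 e1 e2 e3 s1 s2 s3
    omega
  have d10 : ((0 ≤ 0 - A1 + A2 - n2)) ∨ ((0 ≤ 1 + A2 - A3)) ∨ ((0 ≤ 0 + B1 - B2)) ∨ ((0 ≤ 1 - B2 + B3 - n3)) ∨ ((0 ≤ 1 + A2 - B2) ∧ (0 ≤ -1 + A3 - B3)) := by
    have h := C.tzmp
    clear C e0 e1 e2 e3 s1 s2 s3
    omega
  have d11 : ((0 ≤ 0 - A1)) ∨ ((0 ≤ 0 - A1 + A2 - n2)) ∨ ((0 ≤ 0 - A2 + A3 - n3)) ∨ ((0 ≤ 0 + B1 - n1)) ∨ ((0 ≤ 0 + B1 - B2)) ∨ ((0 ≤ 0 + B2 - B3)) := by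
    have h := C.tpzm
    clear C e0 e1 e2 e3 s1 s2 s3
    omega
  rcases d2 with ⟨g1, g2⟩ | ⟨g3, g4⟩
  · rcases d3 with ⟨g5, g6⟩ | ⟨g7, g8⟩
    · linarith only [C.b3, C.o0, g1, g5, C.f12_4]
    · rcases d8 with g9 | g10 | g11 | g12 | g13 | g14
      · linarith only [g9, e1]
      · linarith only [g10, e2]
      · linarith only [g11, e3]
      · linarith only [g12, s1, C.f11_0]
      · rcases d5 with ⟨g15, g16⟩ | ⟨g17, g18⟩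
        · linarith only [g15, s1, s2, C.o0, C.o1, C.f11_0, C.f11_1, g2, g7, g13]
        · linarith only [g17, C.b4, C.o1, g7, g13]
      · rcases d9 with g19 | g20 | g21 | g22 | g23 | g24
        · linarith only [g19, s1, C.f11_0, g2, C.f33_0]
        · rcases d1 with ⟨g25, g26⟩ | ⟨g27, g28⟩
          · linarith only [g25, g20]
          · rcases d7 with g29 | g30 | g31 | g32 | g33
            · linarith only [g29, e0]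
            · linarith only [g30, e3]
            · linarith only [g31, s1, C.o0, g2]
            · rcases d5 with ⟨g34, g35⟩ | ⟨g36, g37⟩
              · linarith only [g32, s1, C.b3, C.o0, C.f11_1, g2, g34]
              · rcases d10 with g38 | g39 | g40 | g41 | ⟨g42, g43⟩
                · linarith only [g38, s1, g20, C.b3, C.o0, C.f11_1, g2, C.f33_1, g36, g32]
                · linarith only [C.o2, s1, g20, g39, C.f11_0, g2, C.f33_1]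
                · linarith only [g40, g27]
                · linarith only [g41, s1, s3, g20, C.a5, C.o2, C.f11_0, C.f11_2, g2, C.f33_1, g36, g32, g14]
                · linarith only [g42, s1, g20, C.b3, C.f11_1, g2, C.f33_1, g36, g32]
            · rcases d6 with ⟨g44, g45⟩ | ⟨g46, g47⟩
              · linarith only [s2, C.a5, C.o2, C.f11_2, g8, g44, g33]
              · linarith only [s3, C.b3, C.o2, C.f11_0, C.f11_1, C.f11_2, g8, C.f12_6, g46, g33]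
        · linarith only [C.b4, g21, C.o1, C.o2]
        · linarith only [g22, e0]
        · rcases d10 with g48 | g49 | g50 | g51 | ⟨g52, g53⟩
          · linarith only [C.o1, g48, C.b3, C.o0]
          · linarith only [C.o2, s2, g49, g23, C.b4, C.f11_0, C.f11_1, g8, C.f33_4]
          · linarith only [C.o1, C.a2, g50, C.o0]
          · linarith only [g51, s3, g23, C.f11_0, C.f11_1, C.f11_2, g14]
          · rcases d11 with g54 | g55 | g56 | g57 | g58 | g59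
            · linarith only [g54, e1]
            · linarith only [g55, C.b3, C.o0, C.o1]
            · linarith only [C.f33_7, s3, g56, g23, g52, C.f11_0, C.f11_1, C.f11_2, g8, C.f12_6]
            · linarith only [g57, s1, C.o0, C.f11_0, g2, C.f33_0]
            · linarith only [C.a2, g58, C.o0, C.o1]
            · linarith only [s2, g23, g59, g52, C.f11_0, C.f11_1, g8, C.f33_4]
        · linarith only [C.a5, g24, C.o1, C.o2]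
  · linarith only [C.a2, C.o1, C.f12_0, g3]

theorem c1_11_12_33_k3 {n1 n2 n3 A1 A2 A3 B1 B2 B3 m11_1 m11_2 m11_3 m12_1 m12_2 m12_3 m22_1 m22_2 m22_3 m32_1 m32_2 m32_3 m33_1 m33_2 m33_3 : ℤ}
    (C : Ctx1 n1 n2 n3 A1 A2 A3 B1 B2 B3 m11_1 m11_2 m11_3 m12_1 m12_2 m12_3 m22_1 m22_2 m22_3 m32_1 m32_2 m32_3 m33_1 m33_2 m33_3)
    (e0 : 0 < B1)
    (e1 : 0 < A1)
    (e2 : 0 < B2)
    (e3 : 0 < B3)
    (s1 : 3 * A1 + 0 * B1 ≤ m11_1 + m12_1 + m33_1)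
    (s2 : 3 * A2 + 0 * B2 ≤ m11_2 + m12_2 + m33_2)
    (s3 : 3 * A3 + 0 * B3 ≤ m11_3 + m12_3 + m33_3) : False := by
  have d2 : ((0 ≤ 1 - A1 + m12_1) ∧ (0 ≤ -1 + A1 - m12_1)) ∨ ((0 ≤ 1 - B2 + m12_1) ∧ (0 ≤ -1 + B2 - m12_1)) := by
    have h := C.f12_2
    clear C e0 e1 e2 e3 s1 s2 s3
    omega
  have d3 : ((0 ≤ 0 - m12_1 + m12_2 - n2) ∧ (0 ≤ 0 + m12_1 - m12_2 + n2)) ∨ ((0 ≤ 1 - B2 + m12_2) ∧ (0 ≤ -1 + B2 - m12_2)) := by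
    have h := C.f12_5
    clear C e0 e1 e2 e3 s1 s2 s3
    omega
  have d4 : ((0 ≤ 0 + m32_1 - n1) ∧ (0 ≤ 0 - m32_1 + n1)) ∨ ((0 ≤ 1 - B2 + m32_1) ∧ (0 ≤ -1 + B2 - m32_1)) ∨ ((0 ≤ 1 - A3 + m32_1) ∧ (0 ≤ -1 + A3 - m32_1)) := by
    have h := C.f32_3
    clear C e0 e1 e2 e3 s1 s2 s3
    omega
  have d5 : ((0 ≤ 0 - m32_1 + m32_2 - n2) ∧ (0 ≤ 0 + m32_1 - m32_2 + n2)) ∨ ((0 ≤ 1 - B2 + m32_2) ∧ (0 ≤ -1 + B2 - m32_2)) ∨ ((0 ≤ 1 - A3 + m32_2) ∧ (0 ≤ -1 + A3 - m32_2)) := by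
    have h := C.f32_7
    clear C e0 e1 e2 e3 s1 s2 s3
    omega
  have d6 : ((0 ≤ 0 - m32_2 + m32_3 - n3) ∧ (0 ≤ 0 + m32_2 - m32_3 + n3)) ∨ ((0 ≤ 1 - A3 + m32_3) ∧ (0 ≤ -1 + A3 - m32_3)) := by
    have h := C.f32_10
    clear C e0 e1 e2 e3 s1 s2 s3
    omega
  have d8 : ((0 ≤ 0 - m33_1 + m33_2 - n2) ∧ (0 ≤ 0 + m33_1 - m33_2 + n2)) ∨ ((0 ≤ 1 - B3 + m33_2) ∧ (0 ≤ -1 + B3 - m33_2)) := by
    have h := C.f33_5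
    clear C e0 e1 e2 e3 s1 s2 s3
    omega
  have d9 : ((0 ≤ 0 - m33_2 + m33_3 - n3) ∧ (0 ≤ 0 + m33_2 - m33_3 + n3)) ∨ ((0 ≤ 1 - B3 + m33_3) ∧ (0 ≤ -1 + B3 - m33_3)) := by
    have h := C.f33_8
    clear C e0 e1 e2 e3 s1 s2 s3
    omega
  have d10 : ((0 ≤ 0 - B1)) ∨ ((0 ≤ 0 - B2)) ∨ ((0 ≤ 0 - A3)) ∨ ((0 ≤ -1 + 2 * A1 - m11_1 - m32_1)) ∨ ((0 ≤ -1 + 2 * A2 - m11_2 - m32_2)) ∨ ((0 ≤ -1 + 2 * A3 - m11_3 - m32_3)) := by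
    have h := C.p11_32A
    clear C e0 e1 e2 e3 s1 s2 s3
    omega
  have d11 : ((0 ≤ 0 - B1)) ∨ ((0 ≤ 0 - B3)) ∨ ((0 ≤ -1 + 2 * A1 - m11_1 - m33_1)) ∨ ((0 ≤ -1 + 2 * A2 - m11_2 - m33_2)) ∨ ((0 ≤ -1 + 2 * A3 - m11_3 - m33_3)) := by
    have h := C.p11_33A
    clear C e0 e1 e2 e3 s1 s2 s3
    omega
  have d12 : ((0 ≤ 0 - B1)) ∨ ((0 ≤ 0 - B3)) ∨ ((0 ≤ -1 + 2 * B1 - m11_1 - m33_1)) ∨ ((0 ≤ -1 + 2 * B2 - m11_2 - m33_2)) ∨ ((0 ≤ -1 + 2 * B3 - m11_3 - m33_3)) := by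
    have h := C.p11_33B
    clear C e0 e1 e2 e3 s1 s2 s3
    omega
  have d13 : ((0 ≤ 0 - A1 + A2 - n2)) ∨ ((0 ≤ 1 + A2 - A3)) ∨ ((0 ≤ 0 + B1 - B2)) ∨ ((0 ≤ 1 - B2 + B3 - n3)) ∨ ((0 ≤ 1 + A2 - B2) ∧ (0 ≤ -1 + A3 - B3)) := by
    have h := C.tzmp
    clear C e0 e1 e2 e3 s1 s2 s3
    omega
  rcases d2 with ⟨g1, g2⟩ | ⟨g3, g4⟩
  · rcases d3 with ⟨g5, g6⟩ | ⟨g7, g8⟩
    · linarith only [C.b3, C.o0, g1, g5, C.f12_4]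
    · rcases d11 with g9 | g10 | g11 | g12 | g13
      · linarith only [g9, e0]
      · linarith only [g10, e3]
      · linarith only [g11, s1, g2]
      · rcases d8 with ⟨g14, g15⟩ | ⟨g16, g17⟩
        · linarith only [g14, s1, s2, C.b3, C.o0, C.f11_1, g2, g8, g12]
        · linarith only [g16, s2, C.b3, C.b4, C.f11_0, C.f11_1, g8, g12]
      · rcases d12 with g18 | g19 | g20 | g21 | g22
        · linarith only [g18, e0]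
        · linarith only [g19, e3]
        · linarith only [g20, s1, C.o0, g2]
        · rcases d8 with ⟨g23, g24⟩ | ⟨g25, g26⟩
          · linarith only [g21, s1, C.b3, C.o0, C.f11_1, g2, g23]
          · rcases d9 with ⟨g27, g28⟩ | ⟨g29, g30⟩
            · linarith only [C.b3, s3, C.b4, C.f11_0, C.f11_1, C.f11_2, g8, C.f12_6, g25, g27, g13]
            · rcases d13 with g31 | g32 | g33 | g34 | ⟨g35, g36⟩
              · linarith only [C.o1, g31, C.b3, C.o0]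
              · linarith only [C.b4, s2, s3, g32, C.b3, C.f11_0, C.f11_1, C.f11_2, g8, C.f12_6, g26, g29, g13]
              · linarith only [C.o1, C.a2, g33, C.o0]
              · linarith only [g34, s3, C.b3, C.f11_0, C.f11_1, C.f11_2, g8, C.f12_6, g29, g13]
              · rcases d4 with ⟨g37, g38⟩ | ⟨g39, g40⟩ | ⟨g41, g42⟩
                · rcases d5 with ⟨g43, g44⟩ | ⟨g45, g46⟩ | ⟨g47, g48⟩
                  · linarith only [C.f32_5, s1, C.b3, C.o0, C.f11_0, g2, g37, g43, C.f33_0]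
                  · rcases d10 with g49 | g50 | g51 | g52 | g53 | g54
                    · linarith only [g49, e0]
                    · linarith only [g50, e2]
                    · linarith only [g51, e0, s1, s3, C.b3, C.o0, C.f11_1, C.f11_2, g2, g8, C.f12_6, C.f33_1, g29, g13]
                    · linarith only [g52, s1, g2, g37, C.f33_0]
                    · linarith only [g53, C.b3, C.o1, C.f11_0, C.f11_1, g45]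
                    · rcases d6 with ⟨g55, g56⟩ | ⟨g57, g58⟩
                      · linarith only [C.b3, s3, C.f11_0, C.f11_1, C.f11_2, g8, C.f12_6, g45, g55, g54, g13]
                      · linarith only [g57, s3, C.b3, C.f11_0, C.f11_1, C.f11_2, g8, C.f12_6, g54, g13]
                  · linarith only [s2, s3, g35, C.f11_2, g8, C.f12_6, C.f32_5, g47, g26, g29, g13]
                · rcases d5 with ⟨g59, g60⟩ | ⟨g61, g62⟩ | ⟨g63, g64⟩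
                  · linarith only [g39, C.a2, C.b3, C.o0, C.o1, g59, C.f32_5]
                  · rcases d10 with g65 | g66 | g67 | g68 | g69 | g70
                    · linarith only [g65, e0]
                    · linarith only [g66, e2]
                    · linarith only [g67, e0, s1, s3, C.b3, C.o0, C.f11_1, C.f11_2, g2, g8, C.f12_6, C.f33_1, g29, g13]
                    · linarith only [g68, s1, C.b3, C.f11_0, C.f11_1, g2, g39, C.f33_1, g25, g21]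
                    · linarith only [g69, C.b3, C.o1, C.f11_0, C.f11_1, g61]
                    · rcases d6 with ⟨g71, g72⟩ | ⟨g73, g74⟩
                      · linarith only [C.b3, s3, C.f11_0, C.f11_1, C.f11_2, g8, C.f12_6, g61, g71, g70, g13]
                      · linarith only [g73, s3, C.b3, C.f11_0, C.f11_1, C.f11_2, g8, C.f12_6, g70, g13]
                  · linarith only [s2, s3, g35, C.f11_2, g8, C.f12_6, C.f32_5, g63, g26, g29, g13]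
                · linarith only [s2, s3, g35, C.f11_2, g8, C.f12_6, C.f32_1, g41, g26, g29, g13]
        · rcases d9 with ⟨g75, g76⟩ | ⟨g77, g78⟩
          · rcases d8 with ⟨g79, g80⟩ | ⟨g81, g82⟩
            · linarith only [g79, s1, s3, C.b3, C.o0, C.o2, C.f11_1, C.f11_2, g2, g8, C.f12_6, g75, g22]
            · linarith only [g81, s3, C.b3, C.b4, C.o2, C.f11_0, C.f11_1, C.f11_2, g8, C.f12_6, g75, g22]
          · linarith only [s3, C.b3, C.f11_0, C.f11_1, C.f11_2, g8, C.f12_6, g77, g13, g22]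
  · linarith only [C.a2, C.o1, C.f12_0, g3]

end Pool.Agent.Helper89.TQ
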