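import Pool.Agent.Helper89.TQ.Ctx

set_option autoImplicit false
set_option linter.all false
set_option maxHeartbeats 4000000

namespace Pool.Agent.Helper89.TQ

theorem c1_11_22_22_k0 {n1 n2 n3 A1 A2 A3 B1 B2 B3 m11_1 m11_2 m11_3 m12_1 m12_2 m12_3 m22_1 m22_2 m22_3 m32_1 m32_2 m32_3 m33_1 m33_2 m33_3 : ℤ}
    (C : Ctx1 n1 n2 n3 A1 A2 A3 B1 B2 B3 m11_1 m11_2 m11_3 m12_1 m12_2 m12_3 m22_1 m22_2 m22_3 m32_1 m32_2 m32_3 m33_1 m33_2 m33_3)
    (e0 : 0 < B1)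
    (e1 : 0 < A2)
    (s1 : 0 * A1 + 3 * B1 ≤ m11_1 + m22_1 + m22_1)
    (s2 : 0 * A2 + 3 * B2 ≤ m11_2 + m22_2 + m22_2)
    (s3 : 0 * A3 + 3 * B3 ≤ m11_3 + m22_3 + m22_3) : False := by
  have d4 : ((0 ≤ 0 - B1)) ∨ ((0 ≤ 0 - A2)) ∨ ((0 ≤ -1 + 2 * B1 - m11_1 - m22_1)) ∨ ((0 ≤ -1 + 2 * B2 - m11_2 - m22_2)) ∨ ((0 ≤ -1 + 2 * B3 - m11_3 - m22_3)) := by
    have h := C.p11_22B
    clear C e0 e1 s1 s2 s3
    omega
  rcases d4 with g1 | g2 | g3 | g4 | g5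
  · linarith only [g1, e0]
  · linarith only [g2, e1]
  · linarith only [g3, s1, C.f11_0]
  · linarith only [g4, s2, C.o1, C.f22_4]
  · linarith only [s3, s2, C.o1, C.f11_2, C.f22_4, C.f22_6, g5]

theorem c1_11_22_22_k1 {n1 n2 n3 A1 A2 A3 B1 B2 B3 m11_1 m11_2 m11_3 m12_1 m12_2 m12_3 m22_1 m22_2 m22_3 m32_1 m32_2 m32_3 m33_1 m33_2 m33_3 : ℤ}
    (C : Ctx1 n1 n2 n3 A1 A2 A3 B1 B2 B3 m11_1 m11_2 m11_3 m12_1 m12_2 m12_3 m22_1 m22_2 m22_3 m32_1 m32_2 m32_3 m33_1 m33_2 m33_3)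
    (e0 : 0 < B1)
    (e1 : 0 < A2)
    (s1 : 1 * A1 + 2 * B1 ≤ m11_1 + m22_1 + m22_1)
    (s2 : 1 * A2 + 2 * B2 ≤ m11_2 + m22_2 + m22_2)
    (s3 : 1 * A3 + 2 * B3 ≤ m11_3 + m22_3 + m22_3) : False := by
  have d4 : ((0 ≤ 0 - B1)) ∨ ((0 ≤ 0 - A2)) ∨ ((0 ≤ -1 + 2 * B1 - m11_1 - m22_1)) ∨ ((0 ≤ -1 + 2 * B2 - m11_2 - m22_2)) ∨ ((0 ≤ -1 + 2 * B3 - m11_3 - m22_3)) := by
    have h := C.p11_22B
    clear C e0 e1 s1 s2 s3
    omega
  rcases d4 with g1 | g2 | g3 | g4 | g5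
  · linarith only [g1, e0]
  · linarith only [g2, e1]
  · linarith only [g3, s1, C.o0, C.f11_0]
  · linarith only [g4, s2, C.f22_4]
  · linarith only [s3, s2, C.o1, C.o2, C.f11_2, C.f22_4, C.f22_6, g5]

theorem c1_11_22_22_k2 {n1 n2 n3 A1 A2 A3 B1 B2 B3 m11_1 m11_2 m11_3 m12_1 m12_2 m12_3 m22_1 m22_2 m22_3 m32_1 m32_2 m32_3 m33_1 m33_2 m33_3 : ℤ}
    (C : Ctx1 n1 n2 n3 A1 A2 A3 B1 B2 B3 m11_1 m11_2 m11_3 m12_1 m12_2 m12_3 m22_1 m22_2 m22_3 m32_1 m32_2 m32_3 m33_1 m33_2 m33_3)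
    (e0 : 0 < B1)
    (e1 : 0 < A2)
    (s1 : 2 * A1 + 1 * B1 ≤ m11_1 + m22_1 + m22_1)
    (s2 : 2 * A2 + 1 * B2 ≤ m11_2 + m22_2 + m22_2)
    (s3 : 2 * A3 + 1 * B3 ≤ m11_3 + m22_3 + m22_3) : False := by
  have d5 : ((0 ≤ 0 + A1 - n1)) ∨ ((0 ≤ 0 + A1 - A2)) ∨ ((0 ≤ 0 + A2 - A3)) ∨ ((0 ≤ 0 - B1)) ∨ ((0 ≤ 0 - B1 + B2 - n2)) ∨ ((0 ≤ 0 - B2 + B3 - n3)) := by
    have h := C.tmzp
    clear C e0 e1 s1 s2 s3
    omega
  rcases d5 with g1 | g2 | g3 | g4 | g5 | g6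
  · linarith only [s1, g1, C.f11_0, C.f22_0]
  · linarith only [g2, s1, C.f11_0, C.f22_1]
  · linarith only [C.b4, g3, C.o1, C.o2]
  · linarith only [g4, e0]
  · linarith only [g5, s2, C.f11_0, C.f11_1, C.f22_4]
  · linarith only [g6, C.a5, C.o1, C.o2]

theorem c1_11_22_22_k3 {n1 n2 n3 A1 A2 A3 B1 B2 B3 m11_1 m11_2 m11_3 m12_1 m12_2 m12_3 m22_1 m22_2 m22_3 m32_1 m32_2 m32_3 m33_1 m33_2 m33_3 : ℤ}
    (C : Ctx1 n1 n2 n3 A1 A2 A3 B1 B2 B3 m11_1 m11_2 m11_3 m12_1 m12_2 m12_3 m22_1 m22_2 m22_3 m32_1 m32_2 m32_3 m33_1 m33_2 m33_3)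
    (e0 : 0 < B1)
    (e1 : 0 < A2)
    (s1 : 3 * A1 + 0 * B1 ≤ m11_1 + m22_1 + m22_1)
    (s2 : 3 * A2 + 0 * B2 ≤ m11_2 + m22_2 + m22_2)
    (s3 : 3 * A3 + 0 * B3 ≤ m11_3 + m22_3 + m22_3) : False := by
  have d4 : ((0 ≤ 0 + A1 - n1)) ∨ ((0 ≤ 0 + A1 - A2)) ∨ ((0 ≤ 0 + A2 - A3)) ∨ ((0 ≤ 0 - B1)) ∨ ((0 ≤ 0 - B1 + B2 - n2)) ∨ ((0 ≤ 0 - B2 + B3 - n3)) := by
    have h := C.tmzp
    clear C e0 e1 s1 s2 s3
    omega
  have d5 : ((0 ≤ 0 - A1 + A2 - n2)) ∨ ((0 ≤ 1 + A2 - A3)) ∨ ((0 ≤ 0 + B1 - B2)) ∨ ((0 ≤ 1 - B2 + B3 - n3)) ∨ ((0 ≤ 1 + A2 - B2) ∧ (0 ≤ -1 + A3 - B3)) := by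
    have h := C.tzmp
    clear C e0 e1 s1 s2 s3
    omega
  rcases d4 with g1 | g2 | g3 | g4 | g5 | g6
  · linarith only [g1, s1, C.o0, C.f11_0, C.f22_0]
  · linarith only [g2, s1, C.o0, C.f11_0, C.f22_1]
  · linarith only [g3, C.b4, C.o1, C.o2]
  · linarith only [g4, e0]
  · rcases d5 with g7 | g8 | g9 | g10 | ⟨g11, g12⟩
    · linarith only [g7, s2, C.o0, C.f11_0, C.f11_1, C.f22_4]
    · linarith only [C.o2, s2, g8, g5, C.b4, C.f11_0, C.f11_1, C.f22_4]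
    · linarith only [g9, s1, s2, g5, C.o0, C.f11_0, C.f11_1, C.f22_1, C.f22_4]
    · linarith only [s3, s2, g5, g10, C.o2, C.f11_0, C.f11_1, C.f11_2, C.f22_4, C.f22_6]
    · linarith only [g11, s2, g5, C.f11_0, C.f11_1, C.f22_4]
  · linarith only [C.a5, g6, C.o1, C.o2]

theorem c1_11_22_32_k0 {n1 n2 n3 A1 A2 A3 B1 B2 B3 m11_1 m11_2 m11_3 m12_1 m12_2 m12_3 m22_1 m22_2 m22_3 m32_1 m32_2 m32_3 m33_1 m33_2 m33_3 : ℤ}
    (C : Ctx1 n1 n2 n3 A1 A2 A3 B1 B2 B3 m11_1 m11_2 m11_3 m12_1 m12_2 m12_3 m22_1 m22_2 m22_3 m32_1 m32_2 m32_3 m33_1 m33_2 m33_3)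
    (e0 : 0 < B1)
    (e1 : 0 < A2)
    (e2 : 0 < B2)
    (e3 : 0 < A3)
    (s1 : 0 * A1 + 3 * B1 ≤ m11_1 + m22_1 + m32_1)
    (s2 : 0 * A2 + 3 * B2 ≤ m11_2 + m22_2 + m32_2)
    (s3 : 0 * A3 + 3 * B3 ≤ m11_3 + m22_3 + m32_3) : False := by
  have d4 : ((0 ≤ 0 + m32_1 - n1) ∧ (0 ≤ 0 - m32_1 + n1)) ∨ ((0 ≤ 1 - B2 + m32_1) ∧ (0 ≤ -1 + B2 - m32_1)) ∨ ((0 ≤ 1 - A3 + m32_1) ∧ (0 ≤ -1 + A3 - m32_1)) := by
    have h := C.f32_3
    clear C e0 e1 e2 e3 s1 s2 s3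
    omega
  have d6 : ((0 ≤ 0 - m32_2 + m32_3 - n3) ∧ (0 ≤ 0 + m32_2 - m32_3 + n3)) ∨ ((0 ≤ 1 - A3 + m32_3) ∧ (0 ≤ -1 + A3 - m32_3)) := by
    have h := C.f32_10
    clear C e0 e1 e2 e3 s1 s2 s3
    omega
  have d7 : ((0 ≤ 0 - B1)) ∨ ((0 ≤ 0 - B2)) ∨ ((0 ≤ 0 - A3)) ∨ ((0 ≤ -1 + 2 * B1 - m11_1 - m32_1)) ∨ ((0 ≤ -1 + 2 * B2 - m11_2 - m32_2)) ∨ ((0 ≤ -1 + 2 * B3 - m11_3 - m32_3)) := by
    have h := C.p11_32B
    clear C e0 e1 e2 e3 s1 s2 s3
    omega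
  rcases d7 with g1 | g2 | g3 | g4 | g5 | g6
  · linarith only [g1, e0]
  · linarith only [g2, e2]
  · linarith only [g3, e3]
  · rcases d4 with ⟨g7, g8⟩ | ⟨g9, g10⟩ | ⟨g11, g12⟩
    · linarith only [g7, C.a1, C.o0, C.f11_0, g4]
    · linarith only [g9, s1, C.o1, C.f11_0, C.f22_1, g4]
    · linarith only [g11, s1, C.b4, C.o1, C.o2, C.f11_0, C.f22_1, g4]
  · linarith only [g5, s2, C.o1, C.f22_4]
  · rcases d6 with ⟨g13, g14⟩ | ⟨g15, g16⟩
    · linarith only [g13, s2, s3, C.o1, C.f11_2, C.f22_4, C.f22_6, g6]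
    · linarith only [g15, s2, s3, C.o1, C.o2, C.f11_2, C.f22_4, C.f22_6, C.f32_5, g6]

theorem c1_11_22_32_k1 {n1 n2 n3 A1 A2 A3 B1 B2 B3 m11_1 m11_2 m11_3 m12_1 m12_2 m12_3 m22_1 m22_2 m22_3 m32_1 m32_2 m32_3 m33_1 m33_2 m33_3 : ℤ}
    (C : Ctx1 n1 n2 n3 A1 A2 A3 B1 B2 B3 m11_1 m11_2 m11_3 m12_1 m12_2 m12_3 m22_1 m22_2 m22_3 m32_1 m32_2 m32_3 m33_1 m33_2 m33_3)
    (e0 : 0 < B1)
    (e1 : 0 < A2)
    (e2 : 0 < B2)
    (e3 : 0 < A3)
    (s1 : 1 * A1 + 2 * B1 ≤ m11_1 + m22_1 + m32_1)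
    (s2 : 1 * A2 + 2 * B2 ≤ m11_2 + m22_2 + m32_2)
    (s3 : 1 * A3 + 2 * B3 ≤ m11_3 + m22_3 + m32_3) : False := by
  have d4 : ((0 ≤ 0 + m32_1 - n1) ∧ (0 ≤ 0 - m32_1 + n1)) ∨ ((0 ≤ 1 - B2 + m32_1) ∧ (0 ≤ -1 + B2 - m32_1)) ∨ ((0 ≤ 1 - A3 + m32_1) ∧ (0 ≤ -1 + A3 - m32_1)) := by
    have h := C.f32_3
    clear C e0 e1 e2 e3 s1 s2 s3
    omega
  have d6 : ((0 ≤ 0 - m32_2 + m32_3 - n3) ∧ (0 ≤ 0 + m32_2 - m32_3 + n3)) ∨ ((0 ≤ 1 - A3 + m32_3) ∧ (0 ≤ -1 + A3 - m32_3)) := by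
    have h := C.f32_10
    clear C e0 e1 e2 e3 s1 s2 s3
    omega
  have d7 : ((0 ≤ 0 - B1)) ∨ ((0 ≤ 0 - B2)) ∨ ((0 ≤ 0 - A3)) ∨ ((0 ≤ -1 + 2 * B1 - m11_1 - m32_1)) ∨ ((0 ≤ -1 + 2 * B2 - m11_2 - m32_2)) ∨ ((0 ≤ -1 + 2 * B3 - m11_3 - m32_3)) := by
    have h := C.p11_32B
    clear C e0 e1 e2 e3 s1 s2 s3
    omega
  rcases d7 with g1 | g2 | g3 | g4 | g5 | g6
  · linarith only [g1, e0]
  · linarith only [g2, e2]
  · linarith only [g3, e3]
  · rcases d4 with ⟨g7, g8⟩ | ⟨g9, g10⟩ | ⟨g11, g12⟩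
    · linarith only [g7, s1, C.o0, C.f11_0, C.f22_0, g4]
    · linarith only [g9, s1, C.o0, C.o1, C.f11_0, C.f22_1, g4]
    · linarith only [g11, s1, C.b4, C.o0, C.o1, C.o2, C.f11_0, C.f22_1, g4]
  · linarith only [g5, s2, C.f22_4]
  · rcases d6 with ⟨g13, g14⟩ | ⟨g15, g16⟩
    · linarith only [g13, s2, s3, C.o1, C.o2, C.f11_2, C.f22_4, C.f22_6, g6]
    · linarith only [g15, s2, s3, C.o1, C.o2, C.f11_2, C.f22_4, C.f22_6, C.f32_5, g6]

theorem c1_11_22_32_k2 {n1 n2 n3 A1 A2 A3 B1 B2 B3 m11_1 m11_2 m11_3 m12_1 m12_2 m12_3 m22_1 m22_2 m22_3 m32_1 m32_2 m32_3 m33_1 m33_2 m33_3 : ℤ}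
    (C : Ctx1 n1 n2 n3 A1 A2 A3 B1 B2 B3 m11_1 m11_2 m11_3 m12_1 m12_2 m12_3 m22_1 m22_2 m22_3 m32_1 m32_2 m32_3 m33_1 m33_2 m33_3)
    (e0 : 0 < B1)
    (e1 : 0 < A2)
    (e2 : 0 < B2)
    (e3 : 0 < A3)
    (s1 : 2 * A1 + 1 * B1 ≤ m11_1 + m22_1 + m32_1)
    (s2 : 2 * A2 + 1 * B2 ≤ m11_2 + m22_2 + m32_2)
    (s3 : 2 * A3 + 1 * B3 ≤ m11_3 + m22_3 + m32_3) : False := by
  have d0 : ((0 ≤ -1 + A1) ∧ (0 ≤ -1 + A1 - A2 + n2)) ∨ ((0 ≤ -1 + B1) ∧ (0 ≤ -1 + B1 - B2 + n2)) := by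
    have h := C.t12
    clear C e0 e1 e2 e3 s1 s2 s3
    omega
  have d1 : ((0 ≤ -1 - A1 + A2) ∧ (0 ≤ -1 + A2 - A3 + n3)) ∨ ((0 ≤ -1 - B1 + B2) ∧ (0 ≤ -1 + B2 - B3 + n3)) := by
    have h := C.t23
    clear C e0 e1 e2 e3 s1 s2 s3
    omega
  have d2 : ((0 ≤ 0 + m22_1 - n1) ∧ (0 ≤ 0 - m22_1 + n1)) ∨ ((0 ≤ 1 - A2 + m22_1) ∧ (0 ≤ -1 + A2 - m22_1)) := by
    have h := C.f22_2
    clear C e0 e1 e2 e3 s1 s2 s3
    omega
  have d3 : ((0 ≤ 0 - m22_1 + m22_2 - n2) ∧ (0 ≤ 0 + m22_1 - m22_2 + n2)) ∨ ((0 ≤ 1 - A2 + m22_2) ∧ (0 ≤ -1 + A2 - m22_2)) := by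
    have h := C.f22_5
    clear C e0 e1 e2 e3 s1 s2 s3
    omega
  have d4 : ((0 ≤ 0 + m32_1 - n1) ∧ (0 ≤ 0 - m32_1 + n1)) ∨ ((0 ≤ 1 - B2 + m32_1) ∧ (0 ≤ -1 + B2 - m32_1)) ∨ ((0 ≤ 1 - A3 + m32_1) ∧ (0 ≤ -1 + A3 - m32_1)) := by
    have h := C.f32_3
    clear C e0 e1 e2 e3 s1 s2 s3
    omega
  have d5 : ((0 ≤ 0 - m32_1 + m32_2 - n2) ∧ (0 ≤ 0 + m32_1 - m32_2 + n2)) ∨ ((0 ≤ 1 - B2 + m32_2) ∧ (0 ≤ -1 + B2 - m32_2)) ∨ ((0 ≤ 1 - A3 + m32_2) ∧ (0 ≤ -1 + A3 - m32_2)) := by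
    have h := C.f32_7
    clear C e0 e1 e2 e3 s1 s2 s3
    omega
  have d6 : ((0 ≤ 0 - m32_2 + m32_3 - n3) ∧ (0 ≤ 0 + m32_2 - m32_3 + n3)) ∨ ((0 ≤ 1 - A3 + m32_3) ∧ (0 ≤ -1 + A3 - m32_3)) := by
    have h := C.f32_10
    clear C e0 e1 e2 e3 s1 s2 s3
    omega
  have d7 : ((0 ≤ 0 - B1)) ∨ ((0 ≤ 0 - B2)) ∨ ((0 ≤ 0 - A3)) ∨ ((0 ≤ -1 + 2 * B1 - m11_1 - m32_1)) ∨ ((0 ≤ -1 + 2 * B2 - m11_2 - m32_2)) ∨ ((0 ≤ -1 + 2 * B3 - m11_3 - m32_3)) := by
    have h := C.p11_32B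
    clear C e0 e1 e2 e3 s1 s2 s3
    omega
  have d8 : ((0 ≤ 0 - A1 + A2 - n2)) ∨ ((0 ≤ 1 + A2 - A3)) ∨ ((0 ≤ 0 + B1 - B2)) ∨ ((0 ≤ 1 - B2 + B3 - n3)) ∨ ((0 ≤ 1 + A2 - B2) ∧ (0 ≤ -1 + A3 - B3)) := by
    have h := C.tzmp
    clear C e0 e1 e2 e3 s1 s2 s3
    omega
  rcases d0 with ⟨g1, g2⟩ | ⟨g3, g4⟩
  · rcases d1 with ⟨g5, g6⟩ | ⟨g7, g8⟩
    · rcases d8 with g9 | g10 | g11 | g12 | ⟨g13, g14⟩
      · linarith only [g9, g2]
      · rcases d7 with g15 | g16 | g17 | g18 | g19 | g20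
        · linarith only [g15, e0]
        · linarith only [g16, e2]
        · linarith only [g17, e3]
        · rcases d4 with ⟨g21, g22⟩ | ⟨g23, g24⟩ | ⟨g25, g26⟩
          · linarith only [g21, s1, C.o0, C.f11_0, C.f22_0, g18]
          · linarith only [g23, s1, C.o0, C.o1, C.f11_0, C.f22_1, g18]
          · linarith only [g25, s1, C.b4, C.o0, C.o1, C.o2, C.f11_0, C.f22_1, g18]
        · linarith only [g10, s2, C.b4, C.o2, C.f22_4, g19]
        · rcases d6 with ⟨g27, g28⟩ | ⟨g29, g30⟩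
          · linarith only [C.b5, s2, s3, C.o2, C.f11_2, C.f22_4, C.f22_6, g27, g20]
          · linarith only [g29, s2, s3, C.o2, C.f11_2, C.f22_4, C.f22_6, C.f32_5, g20]
      · linarith only [g5, g11, C.o0, C.o1]
      · linarith only [g6, g12, C.o1, C.o2]
      · rcases d7 with g31 | g32 | g33 | g34 | g35 | g36
        · linarith only [g31, e0]
        · linarith only [g32, e2]
        · linarith only [g33, e3]
        · rcases d4 with ⟨g37, g38⟩ | ⟨g39, g40⟩ | ⟨g41, g42⟩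
          · linarith only [g37, s1, C.o0, C.f11_0, C.f22_0, g34]
          · linarith only [g39, s1, C.o0, C.o1, C.f11_0, C.f22_1, g34]
          · linarith only [g41, s1, C.b4, C.o0, C.o1, g14, C.f11_0, C.f22_1, g34]
        · linarith only [g35, s2, g13, C.f22_4]
        · rcases d6 with ⟨g43, g44⟩ | ⟨g45, g46⟩
          · linarith only [g43, s2, s3, C.o1, g14, C.f11_2, C.f22_4, C.f22_6, g36]
          · linarith only [g45, s2, s3, g14, C.f11_2, C.f22_4, C.f22_6, C.f32_5, g36]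
    · rcases d2 with ⟨g47, g48⟩ | ⟨g49, g50⟩
      · rcases d4 with ⟨g51, g52⟩ | ⟨g53, g54⟩ | ⟨g55, g56⟩
        · rcases d3 with ⟨g57, g58⟩ | ⟨g59, g60⟩
          · linarith only [g57, s1, s2, C.o0, C.f11_0, C.f11_1, g47, C.f22_4, g52, C.f32_5]
          · rcases d7 with g61 | g62 | g63 | g64 | g65 | g66
            · linarith only [g61, e0]
            · linarith only [g62, e2]
            · linarith only [g63, e3]
            · linarith only [g64, s1, C.o0, C.f11_0, g48, g51]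
            · rcases d8 with g67 | g68 | g69 | g70 | ⟨g71, g72⟩
              · linarith only [g67, g2]
              · linarith only [g68, s2, C.b4, C.o2, g60, g65]
              · linarith only [g69, g7]
              · linarith only [g70, s2, C.a5, C.o2, g60, g65]
              · linarith only [g71, s2, g60, g65]
            · rcases d6 with ⟨g73, g74⟩ | ⟨g75, g76⟩
              · linarith only [g8, s2, s3, C.o2, C.f11_2, g60, C.f22_6, g73, g66]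
              · linarith only [g75, s2, s3, C.o2, C.f11_2, g60, C.f22_6, C.f32_5, g66]
        · linarith only [C.o1, g47, C.f22_1, C.f32_0, g53]
        · linarith only [C.o2, C.b4, C.o1, g47, C.f22_1, C.f32_0, g55]
      · rcases d3 with ⟨g77, g78⟩ | ⟨g79, g80⟩
        · linarith only [C.a2, s2, C.o0, C.f11_0, C.f11_1, g49, g77, C.f22_4, C.f32_5]
        · rcases d6 with ⟨g81, g82⟩ | ⟨g83, g84⟩
          · rcases d5 with ⟨g85, g86⟩ | ⟨g87, g88⟩ | ⟨g89, g90⟩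
            · rcases d4 with ⟨g91, g92⟩ | ⟨g93, g94⟩ | ⟨g95, g96⟩
              · linarith only [g91, s1, s2, C.a5, C.o0, C.o1, C.f11_0, C.f11_1, C.f22_0, g80, g85, g81, C.f32_9]
              · linarith only [g93, s1, s2, C.a5, C.o0, C.o1, C.f11_0, C.f11_1, g50, g80, g85, g81, C.f32_9]
              · linarith only [s3, s1, s2, C.a5, C.b4, C.o0, C.o1, C.f11_0, C.f11_1, C.f11_2, g50, g80, C.f22_6, g95, g85, g81, C.f32_9]
            · linarith only [g87, C.a5, C.o1, g81, C.f32_9]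
            · linarith only [g89, C.b4, g8, g81, C.f32_9]
          · rcases d7 with g97 | g98 | g99 | g100 | g101 | g102
            · linarith only [g97, e0]
            · linarith only [g98, e2]
            · linarith only [g99, e3]
            · rcases d4 with ⟨g103, g104⟩ | ⟨g105, g106⟩ | ⟨g107, g108⟩
              · linarith only [g100, s1, C.o0, C.f11_0, C.f22_0, g103]
              · linarith only [g100, s1, C.o0, C.o1, C.f11_0, g50, g105]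
              · linarith only [C.a4, s1, C.o0, C.f11_0, g50, g107, g100]
            · rcases d8 with g109 | g110 | g111 | g112 | ⟨g113, g114⟩
              · linarith only [g109, g2]
              · linarith only [g110, s2, C.b4, C.o2, g80, g101]
              · linarith only [g111, g7]
              · linarith only [C.a5, s2, g112, C.o2, g80, g101]
              · linarith only [g113, s2, g80, g101]
            · linarith only [g102, s2, s3, C.o2, C.f11_2, g80, C.f22_6, C.f32_5, g83]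
  · rcases d1 with ⟨g115, g116⟩ | ⟨g117, g118⟩
    · rcases d8 with g119 | g120 | g121 | g122 | ⟨g123, g124⟩
      · linarith only [C.o1, g119, g4, C.o0]
      · rcases d7 with g125 | g126 | g127 | g128 | g129 | g130
        · linarith only [g125, g3]
        · linarith only [g126, e2]
        · linarith only [g127, e3]
        · rcases d4 with ⟨g131, g132⟩ | ⟨g133, g134⟩ | ⟨g135, g136⟩
          · linarith only [g131, s1, C.o0, C.f11_0, C.f22_0, g128]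
          · linarith only [g133, s1, C.o0, C.o1, C.f11_0, C.f22_1, g128]
          · linarith only [g135, s1, C.b4, C.o0, C.o1, C.o2, C.f11_0, C.f22_1, g128]
        · linarith only [g120, s2, C.b4, C.o2, C.f22_4, g129]
        · rcases d6 with ⟨g137, g138⟩ | ⟨g139, g140⟩
          · linarith only [C.b5, s2, s3, C.o2, C.f11_2, C.f22_4, C.f22_6, g137, g130]
          · linarith only [g139, s2, s3, C.o2, C.f11_2, C.f22_4, C.f22_6, C.f32_5, g130]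
      · linarith only [g115, g121, C.o0, C.o1]
      · linarith only [g116, g122, C.o1, C.o2]
      · rcases d7 with g141 | g142 | g143 | g144 | g145 | g146
        · linarith only [g141, g3]
        · linarith only [g142, e2]
        · linarith only [g143, e3]
        · rcases d4 with ⟨g147, g148⟩ | ⟨g149, g150⟩ | ⟨g151, g152⟩
          · linarith only [g147, s1, C.o0, C.f11_0, C.f22_0, g144]
          · linarith only [g149, s1, C.o0, C.o1, C.f11_0, C.f22_1, g144]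
          · linarith only [g151, s1, C.b4, C.o0, C.o1, g124, C.f11_0, C.f22_1, g144]
        · linarith only [g145, s2, g123, C.f22_4]
        · rcases d6 with ⟨g153, g154⟩ | ⟨g155, g156⟩
          · linarith only [g153, s2, s3, C.o1, g124, C.f11_2, C.f22_4, C.f22_6, g146]
          · linarith only [g155, s2, s3, g124, C.f11_2, C.f22_4, C.f22_6, C.f32_5, g146]
    · rcases d2 with ⟨g157, g158⟩ | ⟨g159, g160⟩
      · rcases d4 with ⟨g161, g162⟩ | ⟨g163, g164⟩ | ⟨g165, g166⟩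
        · rcases d3 with ⟨g167, g168⟩ | ⟨g169, g170⟩
          · linarith only [g167, s1, s2, C.o0, C.f11_0, C.f11_1, g157, C.f22_4, g162, C.f32_5]
          · rcases d7 with g171 | g172 | g173 | g174 | g175 | g176
            · linarith only [g171, g3]
            · linarith only [g172, e2]
            · linarith only [g173, e3]
            · linarith only [g174, s1, C.o0, C.f11_0, g158, g161]
            · rcases d8 with g177 | g178 | g179 | g180 | ⟨g181, g182⟩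
              · linarith only [g4, s2, g177, C.o0, g170, g175]
              · linarith only [g178, s2, C.b4, C.o2, g170, g175]
              · linarith only [g179, g117]
              · linarith only [C.a5, s2, g180, C.o2, g170, g175]
              · linarith only [g181, s2, g170, g175]
            · rcases d6 with ⟨g183, g184⟩ | ⟨g185, g186⟩
              · linarith only [g183, s2, s3, C.o1, C.o2, C.f11_2, g170, C.f22_6, g176]
              · linarith only [g185, s2, s3, C.o2, C.f11_2, g170, C.f22_6, C.f32_5, g176]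
        · linarith only [C.o1, g157, C.f22_1, C.f32_0, g163]
        · linarith only [C.o2, C.b4, C.o1, g157, C.f22_1, C.f32_0, g165]
      · rcases d3 with ⟨g187, g188⟩ | ⟨g189, g190⟩
        · linarith only [C.a2, s2, C.o0, C.f11_0, C.f11_1, g159, g187, C.f22_4, C.f32_5]
        · rcases d6 with ⟨g191, g192⟩ | ⟨g193, g194⟩
          · rcases d5 with ⟨g195, g196⟩ | ⟨g197, g198⟩ | ⟨g199, g200⟩
            · rcases d4 with ⟨g201, g202⟩ | ⟨g203, g204⟩ | ⟨g205, g206⟩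
              · linarith only [g201, s1, s2, C.a5, C.o0, C.o1, C.f11_0, C.f11_1, C.f22_0, g190, g195, g191, C.f32_9]
              · linarith only [g203, s1, s2, C.a5, C.o0, C.o1, C.f11_0, C.f11_1, g160, g190, g195, g191, C.f32_9]
              · linarith only [s3, s1, s2, C.a5, C.b4, C.o0, C.o1, C.f11_0, C.f11_1, C.f11_2, g160, g190, C.f22_6, g205, g195, g191, C.f32_9]
            · linarith only [g197, C.a5, C.o1, g191, C.f32_9]
            · linarith only [g199, C.b4, g118, g191, C.f32_9]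
          · rcases d7 with g207 | g208 | g209 | g210 | g211 | g212
            · linarith only [g207, g3]
            · linarith only [g208, e2]
            · linarith only [g209, e3]
            · rcases d4 with ⟨g213, g214⟩ | ⟨g215, g216⟩ | ⟨g217, g218⟩
              · linarith only [g210, s1, C.o0, C.f11_0, C.f22_0, g213]
              · linarith only [g210, s1, C.o0, C.o1, C.f11_0, g160, g215]
              · linarith only [C.a4, s1, C.o0, C.f11_0, g160, g217, g210]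
            · rcases d8 with g219 | g220 | g221 | g222 | ⟨g223, g224⟩
              · linarith only [g219, s2, C.o0, C.f11_0, C.f11_1, g190, C.f32_5]
              · linarith only [g220, s2, C.b4, C.o2, g190, g211]
              · linarith only [g221, g117]
              · linarith only [C.a5, s2, g222, C.o2, g190, g211]
              · linarith only [g223, s2, g190, g211]
            · linarith only [g212, s2, s3, C.o2, C.f11_2, g190, C.f22_6, C.f32_5, g193]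

theorem c1_11_22_32_k3 {n1 n2 n3 A1 A2 A3 B1 B2 B3 m11_1 m11_2 m11_3 m12_1 m12_2 m12_3 m22_1 m22_2 m22_3 m32_1 m32_2 m32_3 m33_1 m33_2 m33_3 : ℤ}
    (C : Ctx1 n1 n2 n3 A1 A2 A3 B1 B2 B3 m11_1 m11_2 m11_3 m12_1 m12_2 m12_3 m22_1 m22_2 m22_3 m32_1 m32_2 m32_3 m33_1 m33_2 m33_3)
    (e0 : 0 < B1)
    (e1 : 0 < A2)
    (e2 : 0 < B2)
    (e3 : 0 < A3)
    (s1 : 3 * A1 + 0 * B1 ≤ m11_1 + m22_1 + m32_1)
    (s2 : 3 * A2 + 0 * B2 ≤ m11_2 + m22_2 + m32_2)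
    (s3 : 3 * A3 + 0 * B3 ≤ m11_3 + m22_3 + m32_3) : False := by
  have d6 : ((0 ≤ 0 - m32_2 + m32_3 - n3) ∧ (0 ≤ 0 + m32_2 - m32_3 + n3)) ∨ ((0 ≤ 1 - A3 + m32_3) ∧ (0 ≤ -1 + A3 - m32_3)) := by
    have h := C.f32_10
    clear C e0 e1 e2 e3 s1 s2 s3
    omega
  have d7 : ((0 ≤ 0 - B1)) ∨ ((0 ≤ 0 - B2)) ∨ ((0 ≤ 0 - A3)) ∨ ((0 ≤ -1 + 2 * A1 - m11_1 - m32_1)) ∨ ((0 ≤ -1 + 2 * A2 - m11_2 - m32_2)) ∨ ((0 ≤ -1 + 2 * A3 - m11_3 - m32_3)) := by
    have h := C.p11_32A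
    clear C e0 e1 e2 e3 s1 s2 s3
    omega
  have d8 : ((0 ≤ 0 + A1 - n1)) ∨ ((0 ≤ 0 + A1 - A2)) ∨ ((0 ≤ 0 + A2 - A3)) ∨ ((0 ≤ 0 - B1)) ∨ ((0 ≤ 0 - B1 + B2 - n2)) ∨ ((0 ≤ 0 - B2 + B3 - n3)) := by
    have h := C.tmzp
    clear C e0 e1 e2 e3 s1 s2 s3
    omega
  have d9 : ((0 ≤ 0 - A1 + A2 - n2)) ∨ ((0 ≤ 1 + A2 - A3)) ∨ ((0 ≤ 0 + B1 - B2)) ∨ ((0 ≤ 1 - B2 + B3 - n3)) ∨ ((0 ≤ 1 + A2 - B2) ∧ (0 ≤ -1 + A3 - B3)) := by
    have h := C.tzmp
    clear C e0 e1 e2 e3 s1 s2 s3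
    omega
  rcases d7 with g1 | g2 | g3 | g4 | g5 | g6
  · linarith only [g1, e0]
  · linarith only [g2, e2]
  · linarith only [g3, e3]
  · rcases d8 with g7 | g8 | g9 | g10 | g11 | g12
    · linarith only [C.f32_0, s1, g7, C.o0, C.f11_0, C.f22_0]
    · linarith only [g4, s1, g8, C.f22_1]
    · linarith only [C.o1, g9, C.b4, C.o2]
    · linarith only [g10, e0]
    · rcases d9 with g13 | g14 | g15 | g16 | ⟨g17, g18⟩
      · linarith only [C.o1, g13, C.b3, C.o0]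
      · linarith only [g14, s2, g11, C.b4, C.o2, C.f11_0, C.f11_1, C.f22_4, C.f32_5]
      · linarith only [C.a2, s2, g15, g11, C.o0, C.f11_0, C.f11_1, C.f22_4, C.f32_5]
      · linarith only [g16, s2, s3, g11, C.o2, C.f11_0, C.f11_1, C.f11_2, C.f22_4, C.f22_6, C.f32_5, C.f32_9]
      · linarith only [g17, s2, g11, C.f11_0, C.f11_1, C.f22_4, C.f32_5]
    · linarith only [C.o1, C.a5, g12, C.o2]
  · linarith only [s2, C.f22_4, g5]
  · rcases d6 with ⟨g19, g20⟩ | ⟨g21, g22⟩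
    · linarith only [g19, s2, s3, C.f11_2, C.f22_4, C.f22_6, g6]
    · linarith only [g21, s2, s3, C.b3, C.f11_0, C.f11_1, C.f11_2, C.f22_4, C.f22_6, C.f32_5, g6]

theorem c1_11_22_33_k0 {n1 n2 n3 A1 A2 A3 B1 B2 B3 m11_1 m11_2 m11_3 m12_1 m12_2 m12_3 m22_1 m22_2 m22_3 m32_1 m32_2 m32_3 m33_1 m33_2 m33_3 : ℤ}
    (C : Ctx1 n1 n2 n3 A1 A2 A3 B1 B2 B3 m11_1 m11_2 m11_3 m12_1 m12_2 m12_3 m22_1 m22_2 m22_3 m32_1 m32_2 m32_3 m33_1 m33_2 m33_3)
    (e0 : 0 < B1)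
    (e1 : 0 < A2)
    (e2 : 0 < B3)
    (s1 : 0 * A1 + 3 * B1 ≤ m11_1 + m22_1 + m33_1)
    (s2 : 0 * A2 + 3 * B2 ≤ m11_2 + m22_2 + m33_2)
    (s3 : 0 * A3 + 3 * B3 ≤ m11_3 + m22_3 + m33_3) : False := by
  have d4 : ((0 ≤ 0 + m33_1 - n1) ∧ (0 ≤ 0 - m33_1 + n1)) ∨ ((0 ≤ 1 - B3 + m33_1) ∧ (0 ≤ -1 + B3 - m33_1)) := by
    have h := C.f33_2
    clear C e0 e1 e2 s1 s2 s3
    omega
  have d6 : ((0 ≤ 0 - m33_2 + m33_3 - n3) ∧ (0 ≤ 0 + m33_2 - m33_3 + n3)) ∨ ((0 ≤ 1 - B3 + m33_3) ∧ (0 ≤ -1 + B3 - m33_3)) := by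
    have h := C.f33_8
    clear C e0 e1 e2 s1 s2 s3
    omega
  have d7 : ((0 ≤ 0 - B1)) ∨ ((0 ≤ 0 - B3)) ∨ ((0 ≤ -1 + 2 * B1 - m11_1 - m33_1)) ∨ ((0 ≤ -1 + 2 * B2 - m11_2 - m33_2)) ∨ ((0 ≤ -1 + 2 * B3 - m11_3 - m33_3)) := by
    have h := C.p11_33B
    clear C e0 e1 e2 s1 s2 s3
    omega
  rcases d7 with g1 | g2 | g3 | g4 | g5
  · linarith only [g1, e0]
  · linarith only [g2, e2]
  · rcases d4 with ⟨g6, g7⟩ | ⟨g8, g9⟩
    · linarith only [g6, C.a1, C.o0, C.f11_0, g3]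
    · linarith only [C.b4, s1, C.o1, C.f11_0, C.f22_1, g8, g3]
  · linarith only [g4, s2, C.o1, C.f22_4]
  · rcases d6 with ⟨g10, g11⟩ | ⟨g12, g13⟩
    · linarith only [g10, s2, s3, C.o1, C.f11_2, C.f22_4, C.f22_6, g5]
    · linarith only [g12, s3, C.b3, C.o1, C.f11_0, C.f11_1, C.f11_2, C.f22_4, C.f22_6, g5]

theorem c1_11_22_33_k1 {n1 n2 n3 A1 A2 A3 B1 B2 B3 m11_1 m11_2 m11_3 m12_1 m12_2 m12_3 m22_1 m22_2 m22_3 m32_1 m32_2 m32_3 m33_1 m33_2 m33_3 : ℤ}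
    (C : Ctx1 n1 n2 n3 A1 A2 A3 B1 B2 B3 m11_1 m11_2 m11_3 m12_1 m12_2 m12_3 m22_1 m22_2 m22_3 m32_1 m32_2 m32_3 m33_1 m33_2 m33_3)
    (e0 : 0 < B1)
    (e1 : 0 < A2)
    (e2 : 0 < B3)
    (s1 : 1 * A1 + 2 * B1 ≤ m11_1 + m22_1 + m33_1)
    (s2 : 1 * A2 + 2 * B2 ≤ m11_2 + m22_2 + m33_2)
    (s3 : 1 * A3 + 2 * B3 ≤ m11_3 + m22_3 + m33_3) : False := by
  have d4 : ((0 ≤ 0 + m33_1 - n1) ∧ (0 ≤ 0 - m33_1 + n1)) ∨ ((0 ≤ 1 - B3 + m33_1) ∧ (0 ≤ -1 + B3 - m33_1)) := by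
    have h := C.f33_2
    clear C e0 e1 e2 s1 s2 s3
    omega
  have d6 : ((0 ≤ 0 - m33_2 + m33_3 - n3) ∧ (0 ≤ 0 + m33_2 - m33_3 + n3)) ∨ ((0 ≤ 1 - B3 + m33_3) ∧ (0 ≤ -1 + B3 - m33_3)) := by
    have h := C.f33_8
    clear C e0 e1 e2 s1 s2 s3
    omega
  have d7 : ((0 ≤ 0 - B1)) ∨ ((0 ≤ 0 - B3)) ∨ ((0 ≤ -1 + 2 * B1 - m11_1 - m33_1)) ∨ ((0 ≤ -1 + 2 * B2 - m11_2 - m33_2)) ∨ ((0 ≤ -1 + 2 * B3 - m11_3 - m33_3)) := by
    have h := C.p11_33B
    clear C e0 e1 e2 s1 s2 s3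
    omega
  rcases d7 with g1 | g2 | g3 | g4 | g5
  · linarith only [g1, e0]
  · linarith only [g2, e2]
  · rcases d4 with ⟨g6, g7⟩ | ⟨g8, g9⟩
    · linarith only [g6, s1, C.o0, C.f11_0, C.f22_0, g3]
    · linarith only [C.b4, s1, C.o0, C.o1, C.f11_0, C.f22_1, g8, g3]
  · linarith only [g4, s2, C.f22_4]
  · rcases d6 with ⟨g10, g11⟩ | ⟨g12, g13⟩
    · linarith only [s2, s3, C.o1, C.o2, C.f11_2, C.f22_4, C.f22_6, g10, g5]
    · linarith only [g12, s3, C.b3, C.o1, C.o2, C.f11_0, C.f11_1, C.f11_2, C.f22_4, C.f22_6, g5]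

theorem c1_11_22_33_k2 {n1 n2 n3 A1 A2 A3 B1 B2 B3 m11_1 m11_2 m11_3 m12_1 m12_2 m12_3 m22_1 m22_2 m22_3 m32_1 m32_2 m32_3 m33_1 m33_2 m33_3 : ℤ}
    (C : Ctx1 n1 n2 n3 A1 A2 A3 B1 B2 B3 m11_1 m11_2 m11_3 m12_1 m12_2 m12_3 m22_1 m22_2 m22_3 m32_1 m32_2 m32_3 m33_1 m33_2 m33_3)
    (e0 : 0 < B1)
    (e1 : 0 < A2)
    (e2 : 0 < B3)
    (s1 : 2 * A1 + 1 * B1 ≤ m11_1 + m22_1 + m33_1)
    (s2 : 2 * A2 + 1 * B2 ≤ m11_2 + m22_2 + m33_2)
    (s3 : 2 * A3 + 1 * B3 ≤ m11_3 + m22_3 + m33_3) : False := by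
  have d0 : ((0 ≤ -1 + A1) ∧ (0 ≤ -1 + A1 - A2 + n2)) ∨ ((0 ≤ -1 + B1) ∧ (0 ≤ -1 + B1 - B2 + n2)) := by
    have h := C.t12
    clear C e0 e1 e2 s1 s2 s3
    omega
  have d1 : ((0 ≤ -1 - A1 + A2) ∧ (0 ≤ -1 + A2 - A3 + n3)) ∨ ((0 ≤ -1 - B1 + B2) ∧ (0 ≤ -1 + B2 - B3 + n3)) := by
    have h := C.t23
    clear C e0 e1 e2 s1 s2 s3
    omega
  have d2 : ((0 ≤ 0 + m22_1 - n1) ∧ (0 ≤ 0 - m22_1 + n1)) ∨ ((0 ≤ 1 - A2 + m22_1) ∧ (0 ≤ -1 + A2 - m22_1)) := by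
    have h := C.f22_2
    clear C e0 e1 e2 s1 s2 s3
    omega
  have d3 : ((0 ≤ 0 - m22_1 + m22_2 - n2) ∧ (0 ≤ 0 + m22_1 - m22_2 + n2)) ∨ ((0 ≤ 1 - A2 + m22_2) ∧ (0 ≤ -1 + A2 - m22_2)) := by
    have h := C.f22_5
    clear C e0 e1 e2 s1 s2 s3
    omega
  have d4 : ((0 ≤ 0 + m33_1 - n1) ∧ (0 ≤ 0 - m33_1 + n1)) ∨ ((0 ≤ 1 - B3 + m33_1) ∧ (0 ≤ -1 + B3 - m33_1)) := by
    have h := C.f33_2
    clear C e0 e1 e2 s1 s2 s3
    omega
  have d5 : ((0 ≤ 0 - m33_1 + m33_2 - n2) ∧ (0 ≤ 0 + m33_1 - m33_2 + n2)) ∨ ((0 ≤ 1 - B3 + m33_2) ∧ (0 ≤ -1 + B3 - m33_2)) := by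
    have h := C.f33_5
    clear C e0 e1 e2 s1 s2 s3
    omega
  have d6 : ((0 ≤ 0 - m33_2 + m33_3 - n3) ∧ (0 ≤ 0 + m33_2 - m33_3 + n3)) ∨ ((0 ≤ 1 - B3 + m33_3) ∧ (0 ≤ -1 + B3 - m33_3)) := by
    have h := C.f33_8
    clear C e0 e1 e2 s1 s2 s3
    omega
  have d7 : ((0 ≤ 0 - B1)) ∨ ((0 ≤ 0 - B3)) ∨ ((0 ≤ -1 + 2 * B1 - m11_1 - m33_1)) ∨ ((0 ≤ -1 + 2 * B2 - m11_2 - m33_2)) ∨ ((0 ≤ -1 + 2 * B3 - m11_3 - m33_3)) := by
    have h := C.p11_33B
    clear C e0 e1 e2 s1 s2 s3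
    omega
  have d8 : ((0 ≤ 0 - A1 + A2 - n2)) ∨ ((0 ≤ 1 + A2 - A3)) ∨ ((0 ≤ 0 + B1 - B2)) ∨ ((0 ≤ 1 - B2 + B3 - n3)) ∨ ((0 ≤ 1 + A2 - B2) ∧ (0 ≤ -1 + A3 - B3)) := by
    have h := C.tzmp
    clear C e0 e1 e2 s1 s2 s3
    omega
  rcases d0 with ⟨g1, g2⟩ | ⟨g3, g4⟩
  · rcases d1 with ⟨g5, g6⟩ | ⟨g7, g8⟩
    · rcases d8 with g9 | g10 | g11 | g12 | ⟨g13, g14⟩
      · linarith only [g9, g2]
      · rcases d7 with g15 | g16 | g17 | g18 | g19
        · linarith only [g15, e0]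
        · linarith only [g16, e2]
        · rcases d4 with ⟨g20, g21⟩ | ⟨g22, g23⟩
          · linarith only [g20, s1, C.o0, C.f11_0, C.f22_0, g17]
          · linarith only [g22, s1, C.b4, C.o0, C.o1, C.f11_0, C.f22_1, g17]
        · linarith only [g10, s2, C.b4, C.o2, C.f22_4, g18]
        · rcases d6 with ⟨g24, g25⟩ | ⟨g26, g27⟩
          · linarith only [g24, s2, s3, C.o1, C.o2, C.f11_2, C.f22_4, C.f22_6, g19]
          · linarith only [g26, s2, s3, g10, C.o1, C.o2, C.f11_2, C.f22_4, C.f22_6, C.f33_4, g19]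
      · linarith only [g5, g11, C.o0, C.o1]
      · linarith only [g6, g12, C.o1, C.o2]
      · rcases d7 with g28 | g29 | g30 | g31 | g32
        · linarith only [g28, e0]
        · linarith only [g29, e2]
        · rcases d4 with ⟨g33, g34⟩ | ⟨g35, g36⟩
          · linarith only [g33, s1, C.o0, C.f11_0, C.f22_0, g30]
          · linarith only [C.b4, s1, C.o0, C.o1, C.f11_0, C.f22_1, g35, g30]
        · linarith only [g31, s2, g13, C.f22_4]
        · rcases d6 with ⟨g37, g38⟩ | ⟨g39, g40⟩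
          · linarith only [s2, s3, C.o1, g14, C.f11_2, C.f22_4, C.f22_6, g37, g32]
          · linarith only [g39, s3, C.b3, C.o1, g14, C.f11_0, C.f11_1, C.f11_2, C.f22_4, C.f22_6, g32]
    · rcases d2 with ⟨g41, g42⟩ | ⟨g43, g44⟩
      · rcases d3 with ⟨g45, g46⟩ | ⟨g47, g48⟩
        · linarith only [g2, C.a1, g41, g45, C.f22_4]
        · rcases d4 with ⟨g49, g50⟩ | ⟨g51, g52⟩
          · rcases d7 with g53 | g54 | g55 | g56 | g57
            · linarith only [g53, e0]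
            · linarith only [g54, e2]
            · linarith only [g55, s1, C.o0, C.f11_0, g42, g49]
            · rcases d8 with g58 | g59 | g60 | g61 | ⟨g62, g63⟩
              · linarith only [g58, g2]
              · linarith only [g59, s2, C.b4, C.o2, g48, g56]
              · linarith only [g60, g7]
              · linarith only [g61, s2, C.a5, C.o2, g48, g56]
              · linarith only [g62, s2, g48, g56]
            · rcases d6 with ⟨g64, g65⟩ | ⟨g66, g67⟩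
              · linarith only [s2, s3, C.o1, C.o2, C.f11_2, g48, C.f22_6, g64, g57]
              · linarith only [g66, s3, C.b3, C.o1, C.o2, C.f11_0, C.f11_1, C.f11_2, g48, C.f22_6, g57]
          · linarith only [C.b4, C.o1, g41, C.f22_1, C.f33_0, g51]
      · rcases d3 with ⟨g68, g69⟩ | ⟨g70, g71⟩
        · linarith only [C.a2, C.b3, C.o0, C.o1, g43, g68, C.f22_4]
        · rcases d4 with ⟨g72, g73⟩ | ⟨g74, g75⟩
          · rcases d7 with g76 | g77 | g78 | g79 | g80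
            · linarith only [g76, e0]
            · linarith only [g77, e2]
            · linarith only [g78, s1, C.o0, C.f11_0, C.f22_0, g72]
            · rcases d8 with g81 | g82 | g83 | g84 | ⟨g85, g86⟩
              · linarith only [g81, g2]
              · linarith only [g82, s2, C.b4, C.o2, g71, g79]
              · linarith only [g83, g7]
              · linarith only [g84, s2, C.a5, C.o2, g71, g79]
              · linarith only [g85, s2, g71, g79]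
            · rcases d6 with ⟨g87, g88⟩ | ⟨g89, g90⟩
              · linarith only [s2, s3, C.o1, C.o2, C.f11_2, g71, C.f22_6, g87, g80]
              · linarith only [g89, s3, C.b3, C.o1, C.o2, C.f11_0, C.f11_1, C.f11_2, g71, C.f22_6, g80]
          · rcases d5 with ⟨g91, g92⟩ | ⟨g93, g94⟩
            · linarith only [g2, C.a2, g74, g91, C.f33_4]
            · rcases d6 with ⟨g95, g96⟩ | ⟨g97, g98⟩
              · linarith only [g8, C.b4, g93, g95, C.f33_7]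
              · rcases d7 with g99 | g100 | g101 | g102 | g103
                · linarith only [g99, e0]
                · linarith only [g100, e2]
                · linarith only [g101, s1, C.b4, C.o0, C.o1, C.f11_0, g44, g74]
                · rcases d8 with g104 | g105 | g106 | g107 | ⟨g108, g109⟩
                  · linarith only [g104, g2]
                  · linarith only [C.o2, s2, g105, C.b4, g71, g102]
                  · linarith only [g106, g7]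
                  · linarith only [g107, s2, C.a5, C.o2, g71, g102]
                  · linarith only [g108, s2, g71, g102]
                · linarith only [C.o1, s3, C.b3, C.o2, C.f11_0, C.f11_1, C.f11_2, g71, C.f22_6, g97, g103]
  · rcases d1 with ⟨g110, g111⟩ | ⟨g112, g113⟩
    · rcases d8 with g114 | g115 | g116 | g117 | ⟨g118, g119⟩
      · linarith only [C.o1, g114, g4, C.o0]
      · rcases d7 with g120 | g121 | g122 | g123 | g124
        · linarith only [g120, g3]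
        · linarith only [g121, e2]
        · rcases d4 with ⟨g125, g126⟩ | ⟨g127, g128⟩
          · linarith only [g125, s1, C.o0, C.f11_0, C.f22_0, g122]
          · linarith only [g127, s1, C.b4, C.o0, C.o1, C.f11_0, C.f22_1, g122]
        · linarith only [g115, s2, C.b4, C.o2, C.f22_4, g123]
        · rcases d6 with ⟨g129, g130⟩ | ⟨g131, g132⟩
          · linarith only [g129, s2, s3, C.o1, C.o2, C.f11_2, C.f22_4, C.f22_6, g124]
          · linarith only [g131, s2, s3, g115, C.o1, C.o2, C.f11_2, C.f22_4, C.f22_6, C.f33_4, g124]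
      · linarith only [g110, g116, C.o0, C.o1]
      · linarith only [g111, g117, C.o1, C.o2]
      · rcases d7 with g133 | g134 | g135 | g136 | g137
        · linarith only [g133, g3]
        · linarith only [g134, e2]
        · rcases d4 with ⟨g138, g139⟩ | ⟨g140, g141⟩
          · linarith only [g138, s1, C.o0, C.f11_0, C.f22_0, g135]
          · linarith only [C.b4, s1, C.o0, C.o1, C.f11_0, C.f22_1, g140, g135]
        · linarith only [g136, s2, g118, C.f22_4]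
        · rcases d6 with ⟨g142, g143⟩ | ⟨g144, g145⟩
          · linarith only [s2, s3, C.o1, g119, C.f11_2, C.f22_4, C.f22_6, g142, g137]
          · linarith only [g144, s3, g4, C.o1, g119, C.f11_0, C.f11_1, C.f11_2, C.f22_4, C.f22_6, g137]
    · rcases d2 with ⟨g146, g147⟩ | ⟨g148, g149⟩
      · rcases d3 with ⟨g150, g151⟩ | ⟨g152, g153⟩
        · linarith only [C.a3, C.a1, g146, g150, C.f22_4]
        · rcases d4 with ⟨g154, g155⟩ | ⟨g156, g157⟩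
          · rcases d7 with g158 | g159 | g160 | g161 | g162
            · linarith only [g158, g3]
            · linarith only [g159, e2]
            · linarith only [g160, s1, C.o0, C.f11_0, g147, g154]
            · rcases d8 with g163 | g164 | g165 | g166 | ⟨g167, g168⟩
              · linarith only [g4, s2, g163, C.o0, g153, g161]
              · linarith only [g164, s2, C.b4, C.o2, g153, g161]
              · linarith only [g165, g112]
              · linarith only [C.a5, s2, g166, C.o2, g153, g161]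
              · linarith only [g167, s2, g153, g161]
            · rcases d6 with ⟨g169, g170⟩ | ⟨g171, g172⟩
              · linarith only [s2, s3, C.o1, C.o2, C.f11_2, g153, C.f22_6, g169, g162]
              · linarith only [g171, s3, g4, C.o1, C.o2, C.f11_0, C.f11_1, C.f11_2, g153, C.f22_6, g162]
          · linarith only [C.b4, C.o1, g146, C.f22_1, C.f33_0, g156]
      · rcases d3 with ⟨g173, g174⟩ | ⟨g175, g176⟩
        · linarith only [C.a2, g4, C.o0, C.o1, g148, g173, C.f22_4]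
        · rcases d4 with ⟨g177, g178⟩ | ⟨g179, g180⟩
          · rcases d7 with g181 | g182 | g183 | g184 | g185
            · linarith only [g181, g3]
            · linarith only [g182, e2]
            · linarith only [g183, s1, C.o0, C.f11_0, C.f22_0, g177]
            · rcases d8 with g186 | g187 | g188 | g189 | ⟨g190, g191⟩
              · linarith only [g4, s2, g186, C.o0, g176, g184]
              · linarith only [g187, s2, C.b4, C.o2, g176, g184]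
              · linarith only [g188, g112]
              · linarith only [C.a5, s2, g189, C.o2, g176, g184]
              · linarith only [g190, s2, g176, g184]
            · rcases d6 with ⟨g192, g193⟩ | ⟨g194, g195⟩
              · linarith only [s2, s3, C.o1, C.o2, C.f11_2, g176, C.f22_6, g192, g185]
              · linarith only [g194, s3, g4, C.o1, C.o2, C.f11_0, C.f11_1, C.f11_2, g176, C.f22_6, g185]
          · rcases d5 with ⟨g196, g197⟩ | ⟨g198, g199⟩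
            · linarith only [g4, C.a2, C.o0, C.o1, g179, g196, C.f33_4]
            · rcases d6 with ⟨g200, g201⟩ | ⟨g202, g203⟩
              · linarith only [g113, C.b4, g198, g200, C.f33_7]
              · rcases d7 with g204 | g205 | g206 | g207 | g208
                · linarith only [g204, g3]
                · linarith only [g205, e2]
                · linarith only [g206, s1, C.b4, C.o0, C.o1, C.f11_0, g149, g179]
                · rcases d8 with g209 | g210 | g211 | g212 | ⟨g213, g214⟩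
                  · linarith only [g4, s2, g209, C.o0, g176, g207]
                  · linarith only [C.o2, s2, g210, C.b4, g176, g207]
                  · linarith only [g211, g112]
                  · linarith only [g212, s2, C.a5, C.o2, g176, g207]
                  · linarith only [g213, s2, g176, g207]
                · linarith only [g113, g4, C.f11_0, C.f11_1, C.f11_2, g202, g208]

theorem c1_11_22_33_k3 {n1 n2 n3 A1 A2 A3 B1 B2 B3 m11_1 m11_2 m11_3 m12_1 m12_2 m12_3 m22_1 m22_2 m22_3 m32_1 m32_2 m32_3 m33_1 m33_2 m33_3 : ℤ}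
    (C : Ctx1 n1 n2 n3 A1 A2 A3 B1 B2 B3 m11_1 m11_2 m11_3 m12_1 m12_2 m12_3 m22_1 m22_2 m22_3 m32_1 m32_2 m32_3 m33_1 m33_2 m33_3)
    (e0 : 0 < B1)
    (e1 : 0 < A2)
    (e2 : 0 < B3)
    (s1 : 3 * A1 + 0 * B1 ≤ m11_1 + m22_1 + m33_1)
    (s2 : 3 * A2 + 0 * B2 ≤ m11_2 + m22_2 + m33_2)
    (s3 : 3 * A3 + 0 * B3 ≤ m11_3 + m22_3 + m33_3) : False := by
  have d7 : ((0 ≤ 0 - B1)) ∨ ((0 ≤ 0 - B3)) ∨ ((0 ≤ -1 + 2 * A1 - m11_1 - m33_1)) ∨ ((0 ≤ -1 + 2 * A2 - m11_2 - m33_2)) ∨ ((0 ≤ -1 + 2 * A3 - m11_3 - m33_3)) := by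
    have h := C.p11_33A
    clear C e0 e1 e2 s1 s2 s3
    omega
  have d9 : ((0 ≤ 0 + A1 - n1)) ∨ ((0 ≤ 0 + A1 - A2)) ∨ ((0 ≤ 0 + A2 - A3)) ∨ ((0 ≤ 0 - B1)) ∨ ((0 ≤ 0 - B1 + B2 - n2)) ∨ ((0 ≤ 0 - B2 + B3 - n3)) := by
    have h := C.tmzp
    clear C e0 e1 e2 s1 s2 s3
    omega
  have d10 : ((0 ≤ 0 - A1 + A2 - n2)) ∨ ((0 ≤ 1 + A2 - A3)) ∨ ((0 ≤ 0 + B1 - B2)) ∨ ((0 ≤ 1 - B2 + B3 - n3)) ∨ ((0 ≤ 1 + A2 - B2) ∧ (0 ≤ -1 + A3 - B3)) := by
    have h := C.tzmp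
    clear C e0 e1 e2 s1 s2 s3
    omega
  have d11 : ((0 ≤ 0 - A1)) ∨ ((0 ≤ 0 - A1 + A2 - n2)) ∨ ((0 ≤ 0 - A2 + A3 - n3)) ∨ ((0 ≤ 0 + B1 - n1)) ∨ ((0 ≤ 0 + B1 - B2)) ∨ ((0 ≤ 0 + B2 - B3)) := by
    have h := C.tpzm
    clear C e0 e1 e2 s1 s2 s3
    omega
  rcases d9 with g1 | g2 | g3 | g4 | g5 | g6
  · linarith only [C.f33_0, s1, g1, C.o0, C.f11_0, C.f22_0]
  · rcases d7 with g7 | g8 | g9 | g10 | g11
    · linarith only [g7, e0]
    · linarith only [g8, e2]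
    · linarith only [g9, s1, g2, C.f22_1]
    · linarith only [g10, s2, C.f22_4]
    · rcases d11 with g12 | g13 | g14 | g15 | g16 | g17
      · linarith only [g12, e0, C.o0]
      · linarith only [g13, C.b3, C.o0, C.o1]
      · linarith only [g14, s3, C.f22_4, C.f22_6, g11]
      · linarith only [g15, s1, g2, C.o0, C.f11_0, C.f22_1, C.f33_0]
      · linarith only [g16, C.a2, C.o0, C.o1]
      · rcases d10 with g18 | g19 | g20 | g21 | ⟨g22, g23⟩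
        · linarith only [g18, s1, g2, C.b3, g17, C.o0, C.f11_0, C.f22_1, C.f33_1]
        · linarith only [C.o2, s1, g2, g19, C.o0, C.f11_0, C.f22_1, C.f33_1]
        · linarith only [g20, s1, g2, g17, C.o0, C.f11_0, C.f22_1, C.f33_1]
        · linarith only [C.a4, s3, g17, g21, C.f22_4, C.f22_6, g11]
        · linarith only [g22, s1, g2, g17, C.o0, C.f11_0, C.f22_1, C.f33_1]
  · linarith only [C.o2, g3, C.b4, C.o1]
  · linarith only [g4, e0]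
  · rcases d10 with g24 | g25 | g26 | g27 | ⟨g28, g29⟩
    · linarith only [g24, C.b3, C.o0, C.o1]
    · linarith only [C.o2, s2, g25, g5, C.b4, C.f11_0, C.f11_1, C.f22_4, C.f33_4]
    · linarith only [C.o1, C.a2, g26, C.o0]
    · linarith only [C.f33_7, s3, g5, g27, C.o1, C.o2, C.f11_0, C.f11_1, C.f11_2, C.f22_4, C.f22_6]
    · rcases d11 with g30 | g31 | g32 | g33 | g34 | g35
      · linarith only [g30, e0, C.o0]
      · linarith only [g31, C.b3, C.o0, C.o1]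
      · linarith only [C.f33_7, s3, g32, g5, g28, g29, C.f11_0, C.f11_1, C.f11_2, C.f22_4, C.f22_6]
      · linarith only [C.a1, g33, C.o0]
      · linarith only [C.a2, g34, C.o0, C.o1]
      · linarith only [s2, g5, g35, g28, C.f11_0, C.f11_1, C.f22_4, C.f33_4]
  · linarith only [C.a5, g6, C.o1, C.o2]

end Pool.Agent.Helper89.TQ
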