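import Pool.Agent.Helper89.TQ.Ctx

set_option autoImplicit false
set_option linter.all false
set_option maxHeartbeats 4000000

namespace Pool.Agent.Helper89.TQ

theorem c1_11_32_32_k0 {n1 n2 n3 A1 A2 A3 B1 B2 B3 m11_1 m11_2 m11_3 m12_1 m12_2 m12_3 m22_1 m22_2 m22_3 m32_1 m32_2 m32_3 m33_1 m33_2 m33_3 : ℤ}
    (C : Ctx1 n1 n2 n3 A1 A2 A3 B1 B2 B3 m11_1 m11_2 m11_3 m12_1 m12_2 m12_3 m22_1 m22_2 m22_3 m32_1 m32_2 m32_3 m33_1 m33_2 m33_3)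
    (e0 : 0 < B1)
    (e1 : 0 < B2)
    (e2 : 0 < A3)
    (s1 : 0 * A1 + 3 * B1 ≤ m11_1 + m32_1 + m32_1)
    (s2 : 0 * A2 + 3 * B2 ≤ m11_2 + m32_2 + m32_2)
    (s3 : 0 * A3 + 3 * B3 ≤ m11_3 + m32_3 + m32_3) : False := by
  have d5 : ((0 ≤ 0 - B1)) ∨ ((0 ≤ 0 - B2)) ∨ ((0 ≤ 0 - A3)) ∨ ((0 ≤ -1 + 2 * B1 - m11_1 - m32_1)) ∨ ((0 ≤ -1 + 2 * B2 - m11_2 - m32_2)) ∨ ((0 ≤ -1 + 2 * B3 - m11_3 - m32_3)) := by
    have h := C.p11_32B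
    clear C e0 e1 e2 s1 s2 s3
    omega
  rcases d5 with g1 | g2 | g3 | g4 | g5 | g6
  · linarith only [g1, e0]
  · linarith only [g2, e1]
  · linarith only [g3, e2]
  · linarith only [s1, C.f11_0, g4]
  · linarith only [C.b3, s2, C.f11_0, C.f11_1, g5]
  · linarith only [s3, s2, C.a5, C.o1, C.o2, C.f11_2, C.f32_5, g6]

theorem c1_11_32_32_k1 {n1 n2 n3 A1 A2 A3 B1 B2 B3 m11_1 m11_2 m11_3 m12_1 m12_2 m12_3 m22_1 m22_2 m22_3 m32_1 m32_2 m32_3 m33_1 m33_2 m33_3 : ℤ}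
    (C : Ctx1 n1 n2 n3 A1 A2 A3 B1 B2 B3 m11_1 m11_2 m11_3 m12_1 m12_2 m12_3 m22_1 m22_2 m22_3 m32_1 m32_2 m32_3 m33_1 m33_2 m33_3)
    (e0 : 0 < B1)
    (e1 : 0 < B2)
    (e2 : 0 < A3)
    (s1 : 1 * A1 + 2 * B1 ≤ m11_1 + m32_1 + m32_1)
    (s2 : 1 * A2 + 2 * B2 ≤ m11_2 + m32_2 + m32_2)
    (s3 : 1 * A3 + 2 * B3 ≤ m11_3 + m32_3 + m32_3) : False := by
  have d5 : ((0 ≤ 0 - B1)) ∨ ((0 ≤ 0 - B2)) ∨ ((0 ≤ 0 - A3)) ∨ ((0 ≤ -1 + 2 * B1 - m11_1 - m32_1)) ∨ ((0 ≤ -1 + 2 * B2 - m11_2 - m32_2)) ∨ ((0 ≤ -1 + 2 * B3 - m11_3 - m32_3)) := by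
    have h := C.p11_32B
    clear C e0 e1 e2 s1 s2 s3
    omega
  have d6 : ((0 ≤ 0 - A1 + A2 - n2)) ∨ ((0 ≤ 1 + A2 - A3)) ∨ ((0 ≤ 0 + B1 - B2)) ∨ ((0 ≤ 1 - B2 + B3 - n3)) ∨ ((0 ≤ 1 + A2 - B2) ∧ (0 ≤ -1 + A3 - B3)) := by
    have h := C.tzmp
    clear C e0 e1 e2 s1 s2 s3
    omega
  rcases d5 with g1 | g2 | g3 | g4 | g5 | g6
  · linarith only [g1, e0]
  · linarith only [g2, e1]
  · linarith only [g3, e2]
  · linarith only [g4, s1, C.o0, C.f11_0]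
  · rcases d6 with g7 | g8 | g9 | g10 | ⟨g11, g12⟩
    · linarith only [g7, s2, C.o0, C.f11_0, C.f11_1, C.f32_5]
    · linarith only [g8, s2, C.b4, C.o2, C.f32_5, g5]
    · linarith only [g9, s2, C.a2, C.o0, C.f32_5, g5]
    · linarith only [C.a5, s2, s3, g10, C.f11_2, C.f32_9, g5]
    · linarith only [g11, s2, C.f32_5, g5]
  · linarith only [g6, s3, C.f32_9]

theorem c1_11_32_32_k2 {n1 n2 n3 A1 A2 A3 B1 B2 B3 m11_1 m11_2 m11_3 m12_1 m12_2 m12_3 m22_1 m22_2 m22_3 m32_1 m32_2 m32_3 m33_1 m33_2 m33_3 : ℤ}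
    (C : Ctx1 n1 n2 n3 A1 A2 A3 B1 B2 B3 m11_1 m11_2 m11_3 m12_1 m12_2 m12_3 m22_1 m22_2 m22_3 m32_1 m32_2 m32_3 m33_1 m33_2 m33_3)
    (e0 : 0 < B1)
    (e1 : 0 < B2)
    (e2 : 0 < A3)
    (s1 : 2 * A1 + 1 * B1 ≤ m11_1 + m32_1 + m32_1)
    (s2 : 2 * A2 + 1 * B2 ≤ m11_2 + m32_2 + m32_2)
    (s3 : 2 * A3 + 1 * B3 ≤ m11_3 + m32_3 + m32_3) : False := by
  have d5 : ((0 ≤ 0 - B1)) ∨ ((0 ≤ 0 - B2)) ∨ ((0 ≤ 0 - A3)) ∨ ((0 ≤ -1 + 2 * B1 - m11_1 - m32_1)) ∨ ((0 ≤ -1 + 2 * B2 - m11_2 - m32_2)) ∨ ((0 ≤ -1 + 2 * B3 - m11_3 - m32_3)) := by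
    have h := C.p11_32B
    clear C e0 e1 e2 s1 s2 s3
    omega
  have d6 : ((0 ≤ 0 + A1 - n1)) ∨ ((0 ≤ 0 + A1 - A2)) ∨ ((0 ≤ 0 + A2 - A3)) ∨ ((0 ≤ 0 - B1)) ∨ ((0 ≤ 0 - B1 + B2 - n2)) ∨ ((0 ≤ 0 - B2 + B3 - n3)) := by
    have h := C.tmzp
    clear C e0 e1 e2 s1 s2 s3
    omega
  have d7 : ((0 ≤ 0 - A1 + A2 - n2)) ∨ ((0 ≤ 1 + A2 - A3)) ∨ ((0 ≤ 0 + B1 - B2)) ∨ ((0 ≤ 1 - B2 + B3 - n3)) ∨ ((0 ≤ 1 + A2 - B2) ∧ (0 ≤ -1 + A3 - B3)) := by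
    have h := C.tzmp
    clear C e0 e1 e2 s1 s2 s3
    omega
  rcases d5 with g1 | g2 | g3 | g4 | g5 | g6
  · linarith only [g1, e0]
  · linarith only [g2, e1]
  · linarith only [g3, e2]
  · linarith only [g4, s1, C.o0, C.f11_0]
  · rcases d6 with g7 | g8 | g9 | g10 | g11 | g12
    · linarith only [s1, g7, C.f11_0, C.f32_0]
    · rcases d7 with g13 | g14 | g15 | g16 | ⟨g17, g18⟩
      · linarith only [C.b3, s1, g8, g13, C.o0, C.f11_0, C.f32_1]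
      · linarith only [g14, s1, g8, C.f11_0, C.f32_2]
      · linarith only [g15, s1, C.o0, C.f11_0, C.f32_1]
      · linarith only [C.o2, s1, g8, C.a5, g16, C.f11_0, C.f32_1]
      · linarith only [g17, s1, g8, C.f11_0, C.f32_1]
    · linarith only [C.b3, s2, g9, C.b4, C.o2, C.f11_0, C.f11_1, g5]
    · linarith only [g10, e0]
    · rcases d7 with g19 | g20 | g21 | g22 | ⟨g23, g24⟩
      · linarith only [g19, s2, C.b3, C.o0, C.f11_0, C.f11_1, C.f32_5]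
      · linarith only [C.o2, s2, g20, g11, C.b4, C.f11_0, C.f11_1, C.f32_5]
      · linarith only [g21, s1, C.o0, C.f11_0, C.f32_1]
      · linarith only [g22, s3, g11, C.f11_0, C.f11_1, C.f11_2, C.f32_9]
      · linarith only [g23, s2, g11, C.f11_0, C.f11_1, C.f32_5]
    · linarith only [C.a5, g12, C.o1, C.o2]
  · linarith only [s3, C.o2, C.f32_9, g6]

theorem c1_11_32_32_k3 {n1 n2 n3 A1 A2 A3 B1 B2 B3 m11_1 m11_2 m11_3 m12_1 m12_2 m12_3 m22_1 m22_2 m22_3 m32_1 m32_2 m32_3 m33_1 m33_2 m33_3 : ℤ}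
    (C : Ctx1 n1 n2 n3 A1 A2 A3 B1 B2 B3 m11_1 m11_2 m11_3 m12_1 m12_2 m12_3 m22_1 m22_2 m22_3 m32_1 m32_2 m32_3 m33_1 m33_2 m33_3)
    (e0 : 0 < B1)
    (e1 : 0 < B2)
    (e2 : 0 < A3)
    (s1 : 3 * A1 + 0 * B1 ≤ m11_1 + m32_1 + m32_1)
    (s2 : 3 * A2 + 0 * B2 ≤ m11_2 + m32_2 + m32_2)
    (s3 : 3 * A3 + 0 * B3 ≤ m11_3 + m32_3 + m32_3) : False := by
  have d2 : ((0 ≤ 1 - A1 + m12_1) ∧ (0 ≤ -1 + A1 - m12_1)) ∨ ((0 ≤ 1 - B2 + m12_1) ∧ (0 ≤ -1 + B2 - m12_1)) := by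
    have h := C.f12_2
    clear C e0 e1 e2 s1 s2 s3
    omega
  have d3 : ((0 ≤ 0 - m12_1 + m12_2 - n2) ∧ (0 ≤ 0 + m12_1 - m12_2 + n2)) ∨ ((0 ≤ 1 - B2 + m12_2) ∧ (0 ≤ -1 + B2 - m12_2)) := by
    have h := C.f12_5
    clear C e0 e1 e2 s1 s2 s3
    omega
  have d5 : ((0 ≤ 0 - m32_1 + m32_2 - n2) ∧ (0 ≤ 0 + m32_1 - m32_2 + n2)) ∨ ((0 ≤ 1 - B2 + m32_2) ∧ (0 ≤ -1 + B2 - m32_2)) ∨ ((0 ≤ 1 - A3 + m32_2) ∧ (0 ≤ -1 + A3 - m32_2)) := by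
    have h := C.f32_7
    clear C e0 e1 e2 s1 s2 s3
    omega
  have d7 : ((0 ≤ 0 - B1)) ∨ ((0 ≤ 0 - B2)) ∨ ((0 ≤ 0 - A3)) ∨ ((0 ≤ -1 + 2 * A1 - m11_1 - m32_1)) ∨ ((0 ≤ -1 + 2 * A2 - m11_2 - m32_2)) ∨ ((0 ≤ -1 + 2 * A3 - m11_3 - m32_3)) := by
    have h := C.p11_32A
    clear C e0 e1 e2 s1 s2 s3
    omega
  have d8 : ((0 ≤ 0 - B1)) ∨ ((0 ≤ 0 - B2)) ∨ ((0 ≤ 0 - A3)) ∨ ((0 ≤ -1 + 2 * B1 - m11_1 - m32_1)) ∨ ((0 ≤ -1 + 2 * B2 - m11_2 - m32_2)) ∨ ((0 ≤ -1 + 2 * B3 - m11_3 - m32_3)) := by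
    have h := C.p11_32B
    clear C e0 e1 e2 s1 s2 s3
    omega
  have d9 : ((0 ≤ 0 - A1)) ∨ ((0 ≤ 0 - B2)) ∨ ((0 ≤ 0 - A3)) ∨ ((0 ≤ -1 + 2 * A1 - m12_1 - m32_1)) ∨ ((0 ≤ -1 + 2 * A2 - m12_2 - m32_2)) ∨ ((0 ≤ -1 + 2 * A3 - m12_3 - m32_3)) := by
    have h := C.p12_32A
    clear C e0 e1 e2 s1 s2 s3
    omega
  rcases d7 with g1 | g2 | g3 | g4 | g5 | g6
  · linarith only [g1, e0]
  · linarith only [g2, e1]
  · linarith only [g3, e2]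
  · rcases d8 with g7 | g8 | g9 | g10 | g11 | g12
    · linarith only [g7, e0]
    · linarith only [g8, e1]
    · linarith only [g9, e2]
    · linarith only [g10, s1, C.o0, C.f11_0]
    · rcases d2 with ⟨g13, g14⟩ | ⟨g15, g16⟩
      · rcases d3 with ⟨g17, g18⟩ | ⟨g19, g20⟩
        · linarith only [C.f12_4, s1, C.b3, C.f11_0, g13, g17, g4]
        · rcases d9 with g21 | g22 | g23 | g24 | g25 | g26
          · linarith only [g21, e0, s1, C.f11_0, g4]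
          · linarith only [g22, e1]
          · linarith only [g23, e2]
          · linarith only [g24, s1, g13, g4]
          · rcases d5 with ⟨g27, g28⟩ | ⟨g29, g30⟩ | ⟨g31, g32⟩
            · linarith only [g27, s1, s2, C.o1, C.f11_1, g19, g4, g25]
            · linarith only [g29, C.o1, g19, g25]
            · linarith only [C.o2, C.b4, C.o1, g19, g31, g25]
          · rcases d5 with ⟨g33, g34⟩ | ⟨g35, g36⟩ | ⟨g37, g38⟩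
            · linarith only [C.a5, s1, s2, s3, C.f11_1, C.f11_2, g19, C.f12_6, g33, g4, g11, g26]
            · linarith only [g35, s2, s3, C.a5, C.f11_2, g19, C.f12_6, g11, g26]
            · linarith only [g37, s2, s3, C.a5, C.b4, C.o2, C.f11_2, g19, C.f12_6, g11, g26]
      · linarith only [g15, s1, C.f12_0, C.f32_1, g4]
    · linarith only [C.o2, s3, C.f32_9, g12]
  · linarith only [C.b3, s2, C.o1, C.f11_0, C.f11_1, g5]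
  · linarith only [g6, s3, C.f32_9]

theorem c1_11_32_33_k0 {n1 n2 n3 A1 A2 A3 B1 B2 B3 m11_1 m11_2 m11_3 m12_1 m12_2 m12_3 m22_1 m22_2 m22_3 m32_1 m32_2 m32_3 m33_1 m33_2 m33_3 : ℤ}
    (C : Ctx1 n1 n2 n3 A1 A2 A3 B1 B2 B3 m11_1 m11_2 m11_3 m12_1 m12_2 m12_3 m22_1 m22_2 m22_3 m32_1 m32_2 m32_3 m33_1 m33_2 m33_3)
    (e0 : 0 < B1)
    (e1 : 0 < B2)
    (e2 : 0 < A3)
    (e3 : 0 < B3)
    (s1 : 0 * A1 + 3 * B1 ≤ m11_1 + m32_1 + m33_1)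
    (s2 : 0 * A2 + 3 * B2 ≤ m11_2 + m32_2 + m33_2)
    (s3 : 0 * A3 + 3 * B3 ≤ m11_3 + m32_3 + m33_3) : False := by
  have d5 : ((0 ≤ 0 + m33_1 - n1) ∧ (0 ≤ 0 - m33_1 + n1)) ∨ ((0 ≤ 1 - B3 + m33_1) ∧ (0 ≤ -1 + B3 - m33_1)) := by
    have h := C.f33_2
    clear C e0 e1 e2 e3 s1 s2 s3
    omega
  have d7 : ((0 ≤ 0 - m33_2 + m33_3 - n3) ∧ (0 ≤ 0 + m33_2 - m33_3 + n3)) ∨ ((0 ≤ 1 - B3 + m33_3) ∧ (0 ≤ -1 + B3 - m33_3)) := by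
    have h := C.f33_8
    clear C e0 e1 e2 e3 s1 s2 s3
    omega
  have d8 : ((0 ≤ 0 - B1)) ∨ ((0 ≤ 0 - B3)) ∨ ((0 ≤ -1 + 2 * B1 - m11_1 - m33_1)) ∨ ((0 ≤ -1 + 2 * B2 - m11_2 - m33_2)) ∨ ((0 ≤ -1 + 2 * B3 - m11_3 - m33_3)) := by
    have h := C.p11_33B
    clear C e0 e1 e2 e3 s1 s2 s3
    omega
  rcases d8 with g1 | g2 | g3 | g4 | g5
  · linarith only [g1, e0]
  · linarith only [g2, e3]
  · rcases d5 with ⟨g6, g7⟩ | ⟨g8, g9⟩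
    · linarith only [g6, s1, C.f11_0, C.f32_0, g3]
    · linarith only [C.b4, s1, C.f11_0, C.f32_1, g8, g3]
  · linarith only [g4, s2, C.f32_5]
  · rcases d7 with ⟨g10, g11⟩ | ⟨g12, g13⟩
    · linarith only [C.f32_5, s2, s3, C.a5, C.o1, C.f11_2, C.f32_9, g10, g5]
    · linarith only [g12, s3, C.a5, C.b3, C.o1, C.f11_0, C.f11_1, C.f11_2, C.f32_9, g5]

theorem c1_11_32_33_k1 {n1 n2 n3 A1 A2 A3 B1 B2 B3 m11_1 m11_2 m11_3 m12_1 m12_2 m12_3 m22_1 m22_2 m22_3 m32_1 m32_2 m32_3 m33_1 m33_2 m33_3 : ℤ}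
    (C : Ctx1 n1 n2 n3 A1 A2 A3 B1 B2 B3 m11_1 m11_2 m11_3 m12_1 m12_2 m12_3 m22_1 m22_2 m22_3 m32_1 m32_2 m32_3 m33_1 m33_2 m33_3)
    (e0 : 0 < B1)
    (e1 : 0 < B2)
    (e2 : 0 < A3)
    (e3 : 0 < B3)
    (s1 : 1 * A1 + 2 * B1 ≤ m11_1 + m32_1 + m33_1)
    (s2 : 1 * A2 + 2 * B2 ≤ m11_2 + m32_2 + m33_2)
    (s3 : 1 * A3 + 2 * B3 ≤ m11_3 + m32_3 + m33_3) : False := by
  have d5 : ((0 ≤ 0 + m33_1 - n1) ∧ (0 ≤ 0 - m33_1 + n1)) ∨ ((0 ≤ 1 - B3 + m33_1) ∧ (0 ≤ -1 + B3 - m33_1)) := by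
    have h := C.f33_2
    clear C e0 e1 e2 e3 s1 s2 s3
    omega
  have d8 : ((0 ≤ 0 - B1)) ∨ ((0 ≤ 0 - B3)) ∨ ((0 ≤ -1 + 2 * B1 - m11_1 - m33_1)) ∨ ((0 ≤ -1 + 2 * B2 - m11_2 - m33_2)) ∨ ((0 ≤ -1 + 2 * B3 - m11_3 - m33_3)) := by
    have h := C.p11_33B
    clear C e0 e1 e2 e3 s1 s2 s3
    omega
  have d9 : ((0 ≤ 0 - A1 + A2 - n2)) ∨ ((0 ≤ 1 + A2 - A3)) ∨ ((0 ≤ 0 + B1 - B2)) ∨ ((0 ≤ 1 - B2 + B3 - n3)) ∨ ((0 ≤ 1 + A2 - B2) ∧ (0 ≤ -1 + A3 - B3)) := by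
    have h := C.tzmp
    clear C e0 e1 e2 e3 s1 s2 s3
    omega
  rcases d8 with g1 | g2 | g3 | g4 | g5
  · linarith only [g1, e0]
  · linarith only [g2, e3]
  · rcases d5 with ⟨g6, g7⟩ | ⟨g8, g9⟩
    · linarith only [g6, s1, C.o0, C.f11_0, C.f32_0, g3]
    · linarith only [g8, s1, C.b4, C.o0, C.f11_0, C.f32_1, g3]
  · rcases d9 with g10 | g11 | g12 | g13 | ⟨g14, g15⟩
    · linarith only [C.b3, s2, g10, C.o0, C.f32_5, g4]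
    · linarith only [g11, s2, C.b4, C.o2, C.f32_5, g4]
    · linarith only [g12, s2, C.a2, C.o0, C.f32_5, g4]
    · linarith only [s2, C.a5, g13, C.o2, C.f32_5, g4]
    · linarith only [g14, s2, C.f32_5, g4]
  · linarith only [s3, C.f32_9, g5]

theorem c1_11_32_33_k2 {n1 n2 n3 A1 A2 A3 B1 B2 B3 m11_1 m11_2 m11_3 m12_1 m12_2 m12_3 m22_1 m22_2 m22_3 m32_1 m32_2 m32_3 m33_1 m33_2 m33_3 : ℤ}
    (C : Ctx1 n1 n2 n3 A1 A2 A3 B1 B2 B3 m11_1 m11_2 m11_3 m12_1 m12_2 m12_3 m22_1 m22_2 m22_3 m32_1 m32_2 m32_3 m33_1 m33_2 m33_3)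
    (e0 : 0 < B1)
    (e1 : 0 < B2)
    (e2 : 0 < A3)
    (e3 : 0 < B3)
    (s1 : 2 * A1 + 1 * B1 ≤ m11_1 + m32_1 + m33_1)
    (s2 : 2 * A2 + 1 * B2 ≤ m11_2 + m32_2 + m33_2)
    (s3 : 2 * A3 + 1 * B3 ≤ m11_3 + m32_3 + m33_3) : False := by
  have d6 : ((0 ≤ 0 - m33_1 + m33_2 - n2) ∧ (0 ≤ 0 + m33_1 - m33_2 + n2)) ∨ ((0 ≤ 1 - B3 + m33_2) ∧ (0 ≤ -1 + B3 - m33_2)) := by
    have h := C.f33_5
    clear C e0 e1 e2 e3 s1 s2 s3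
    omega
  have d7 : ((0 ≤ 0 - m33_2 + m33_3 - n3) ∧ (0 ≤ 0 + m33_2 - m33_3 + n3)) ∨ ((0 ≤ 1 - B3 + m33_3) ∧ (0 ≤ -1 + B3 - m33_3)) := by
    have h := C.f33_8
    clear C e0 e1 e2 e3 s1 s2 s3
    omega
  have d8 : ((0 ≤ 0 - B1)) ∨ ((0 ≤ 0 - B2)) ∨ ((0 ≤ 0 - A3)) ∨ ((0 ≤ -1 + 2 * A1 - m11_1 - m32_1)) ∨ ((0 ≤ -1 + 2 * A2 - m11_2 - m32_2)) ∨ ((0 ≤ -1 + 2 * A3 - m11_3 - m32_3)) := by
    have h := C.p11_32A
    clear C e0 e1 e2 e3 s1 s2 s3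
    omega
  have d9 : ((0 ≤ 0 - B1)) ∨ ((0 ≤ 0 - B3)) ∨ ((0 ≤ -1 + 2 * B1 - m11_1 - m33_1)) ∨ ((0 ≤ -1 + 2 * B2 - m11_2 - m33_2)) ∨ ((0 ≤ -1 + 2 * B3 - m11_3 - m33_3)) := by
    have h := C.p11_33B
    clear C e0 e1 e2 e3 s1 s2 s3
    omega
  have d10 : ((0 ≤ 0 + A1 - n1)) ∨ ((0 ≤ 0 + A1 - A2)) ∨ ((0 ≤ 0 + A2 - A3)) ∨ ((0 ≤ 0 - B1)) ∨ ((0 ≤ 0 - B1 + B2 - n2)) ∨ ((0 ≤ 0 - B2 + B3 - n3)) := by
    have h := C.tmzp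
    clear C e0 e1 e2 e3 s1 s2 s3
    omega
  have d11 : ((0 ≤ 0 - A1 + A2 - n2)) ∨ ((0 ≤ 1 + A2 - A3)) ∨ ((0 ≤ 0 + B1 - B2)) ∨ ((0 ≤ 1 - B2 + B3 - n3)) ∨ ((0 ≤ 1 + A2 - B2) ∧ (0 ≤ -1 + A3 - B3)) := by
    have h := C.tzmp
    clear C e0 e1 e2 e3 s1 s2 s3
    omega
  have d12 : ((0 ≤ 0 - A1)) ∨ ((0 ≤ 0 - A1 + A2 - n2)) ∨ ((0 ≤ 0 - A2 + A3 - n3)) ∨ ((0 ≤ 0 + B1 - n1)) ∨ ((0 ≤ 0 + B1 - B2)) ∨ ((0 ≤ 0 + B2 - B3)) := by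
    have h := C.tpzm
    clear C e0 e1 e2 e3 s1 s2 s3
    omega
  rcases d8 with g1 | g2 | g3 | g4 | g5 | g6
  · linarith only [g1, e0]
  · linarith only [g2, e1]
  · linarith only [g3, e2]
  · rcases d9 with g7 | g8 | g9 | g10 | g11
    · linarith only [g7, e0]
    · linarith only [g8, e3]
    · linarith only [g9, s1, C.f11_0, g4]
    · rcases d6 with ⟨g12, g13⟩ | ⟨g14, g15⟩
      · linarith only [g4, s1, C.b3, C.f11_0, C.f11_1, g12, g10]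
      · rcases d7 with ⟨g16, g17⟩ | ⟨g18, g19⟩
        · linarith only [g16, s3, C.b4, C.o2, C.f11_2, C.f32_9, g14, C.f33_7, g10]
        · rcases d10 with g20 | g21 | g22 | g23 | g24 | g25
          · linarith only [C.f32_0, s1, g20, C.f11_0, C.f33_0]
          · rcases d11 with g26 | g27 | g28 | g29 | ⟨g30, g31⟩
            · linarith only [C.o1, g26, C.b3, C.o0]
            · linarith only [C.b4, s1, g21, g27, C.o2, C.f11_0, C.f32_1, C.f33_1]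
            · linarith only [C.a3, s1, C.a2, g28, C.o0, C.f11_1, C.f32_1, C.f33_1, g14, g10]
            · linarith only [C.a5, s1, s3, g21, g29, C.o2, C.f11_0, C.f11_2, C.f32_1, C.f32_9, C.f33_1, g14, g19, g10]
            · rcases d12 with g32 | g33 | g34 | g35 | g36 | g37
              · linarith only [g32, e0, C.o0]
              · linarith only [C.b3, g33, C.o0, C.o1]
              · linarith only [s1, s3, g21, g34, g30, C.f11_0, C.f11_2, C.f32_1, C.f32_9, C.f33_1, g14, g19, g10]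
              · linarith only [g35, s1, g21, C.o0, g30, C.f11_0, C.f32_1, C.f33_0]
              · linarith only [g36, C.a2, C.o0, C.o1]
              · linarith only [g37, s1, g21, g30, C.f11_0, C.f32_1, C.f33_1]
          · linarith only [C.o1, g22, C.b4, C.o2]
          · linarith only [g23, e0]
          · rcases d11 with g38 | g39 | g40 | g41 | ⟨g42, g43⟩
            · linarith only [C.o1, g38, C.b3, C.o0]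
            · linarith only [C.f32_5, s2, g39, g24, C.b4, C.o2, C.f11_0, C.f11_1, g15]
            · linarith only [C.a2, g40, C.o0, C.o1]
            · linarith only [g41, s3, g24, C.o2, C.f11_0, C.f11_1, C.f11_2, C.f32_9, g19]
            · rcases d12 with g44 | g45 | g46 | g47 | g48 | g49
              · linarith only [g44, e0, C.o0]
              · linarith only [g45, C.b3, C.o0, C.o1]
              · linarith only [g46, s3, g24, g42, C.f11_0, C.f11_1, C.f11_2, C.f32_9, g19]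
              · linarith only [C.a1, g47, C.o0]
              · linarith only [g48, C.a2, C.o0, C.o1]
              · linarith only [s2, g24, g49, g42, C.f11_0, C.f11_1, C.f32_5, g15]
          · linarith only [C.a5, s3, C.a4, g25, C.o2, C.f11_2, C.f32_9, g14, g19, g10]
    · linarith only [g11, s3, C.o2, C.f32_9]
  · rcases d12 with g50 | g51 | g52 | g53 | g54 | g55
    · linarith only [g50, e0, C.o0]
    · linarith only [C.b3, g51, C.o0, C.o1]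
    · linarith only [C.f32_8, s3, g52, C.f11_2, C.f33_7, g5]
    · linarith only [C.a1, g53, C.o0]
    · linarith only [C.a2, g54, C.o0, C.o1]
    · linarith only [s2, g55, C.f33_4, g5]
  · linarith only [g6, s3, C.f33_7]

theorem c1_11_32_33_k3 {n1 n2 n3 A1 A2 A3 B1 B2 B3 m11_1 m11_2 m11_3 m12_1 m12_2 m12_3 m22_1 m22_2 m22_3 m32_1 m32_2 m32_3 m33_1 m33_2 m33_3 : ℤ}
    (C : Ctx1 n1 n2 n3 A1 A2 A3 B1 B2 B3 m11_1 m11_2 m11_3 m12_1 m12_2 m12_3 m22_1 m22_2 m22_3 m32_1 m32_2 m32_3 m33_1 m33_2 m33_3)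
    (e0 : 0 < B1)
    (e1 : 0 < B2)
    (e2 : 0 < A3)
    (e3 : 0 < B3)
    (s1 : 3 * A1 + 0 * B1 ≤ m11_1 + m32_1 + m33_1)
    (s2 : 3 * A2 + 0 * B2 ≤ m11_2 + m32_2 + m33_2)
    (s3 : 3 * A3 + 0 * B3 ≤ m11_3 + m32_3 + m33_3) : False := by
  have d2 : ((0 ≤ 1 - A1 + m12_1) ∧ (0 ≤ -1 + A1 - m12_1)) ∨ ((0 ≤ 1 - B2 + m12_1) ∧ (0 ≤ -1 + B2 - m12_1)) := by
    have h := C.f12_2
    clear C e0 e1 e2 e3 s1 s2 s3
    omega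
  have d3 : ((0 ≤ 0 - m12_1 + m12_2 - n2) ∧ (0 ≤ 0 + m12_1 - m12_2 + n2)) ∨ ((0 ≤ 1 - B2 + m12_2) ∧ (0 ≤ -1 + B2 - m12_2)) := by
    have h := C.f12_5
    clear C e0 e1 e2 e3 s1 s2 s3
    omega
  have d5 : ((0 ≤ 0 - m32_1 + m32_2 - n2) ∧ (0 ≤ 0 + m32_1 - m32_2 + n2)) ∨ ((0 ≤ 1 - B2 + m32_2) ∧ (0 ≤ -1 + B2 - m32_2)) ∨ ((0 ≤ 1 - A3 + m32_2) ∧ (0 ≤ -1 + A3 - m32_2)) := by
    have h := C.f32_7
    clear C e0 e1 e2 e3 s1 s2 s3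
    omega
  have d7 : ((0 ≤ 0 + m33_1 - n1) ∧ (0 ≤ 0 - m33_1 + n1)) ∨ ((0 ≤ 1 - B3 + m33_1) ∧ (0 ≤ -1 + B3 - m33_1)) := by
    have h := C.f33_2
    clear C e0 e1 e2 e3 s1 s2 s3
    omega
  have d8 : ((0 ≤ 0 - m33_1 + m33_2 - n2) ∧ (0 ≤ 0 + m33_1 - m33_2 + n2)) ∨ ((0 ≤ 1 - B3 + m33_2) ∧ (0 ≤ -1 + B3 - m33_2)) := by
    have h := C.f33_5
    clear C e0 e1 e2 e3 s1 s2 s3
    omega
  have d10 : ((0 ≤ 0 - B1)) ∨ ((0 ≤ 0 - B3)) ∨ ((0 ≤ -1 + 2 * A1 - m11_1 - m33_1)) ∨ ((0 ≤ -1 + 2 * A2 - m11_2 - m33_2)) ∨ ((0 ≤ -1 + 2 * A3 - m11_3 - m33_3)) := by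
    have h := C.p11_33A
    clear C e0 e1 e2 e3 s1 s2 s3
    omega
  have d11 : ((0 ≤ 0 - B1)) ∨ ((0 ≤ 0 - B3)) ∨ ((0 ≤ -1 + 2 * B1 - m11_1 - m33_1)) ∨ ((0 ≤ -1 + 2 * B2 - m11_2 - m33_2)) ∨ ((0 ≤ -1 + 2 * B3 - m11_3 - m33_3)) := by
    have h := C.p11_33B
    clear C e0 e1 e2 e3 s1 s2 s3
    omega
  have d12 : ((0 ≤ 0 - A1)) ∨ ((0 ≤ 0 - B2)) ∨ ((0 ≤ 0 - A3)) ∨ ((0 ≤ -1 + 2 * A1 - m12_1 - m32_1)) ∨ ((0 ≤ -1 + 2 * A2 - m12_2 - m32_2)) ∨ ((0 ≤ -1 + 2 * A3 - m12_3 - m32_3)) := by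
    have h := C.p12_32A
    clear C e0 e1 e2 e3 s1 s2 s3
    omega
  have d13 : ((0 ≤ 0 - A1 + A2 - n2)) ∨ ((0 ≤ 1 + A2 - A3)) ∨ ((0 ≤ 0 + B1 - B2)) ∨ ((0 ≤ 1 - B2 + B3 - n3)) ∨ ((0 ≤ 1 + A2 - B2) ∧ (0 ≤ -1 + A3 - B3)) := by
    have h := C.tzmp
    clear C e0 e1 e2 e3 s1 s2 s3
    omega
  rcases d2 with ⟨g1, g2⟩ | ⟨g3, g4⟩
  · rcases d3 with ⟨g5, g6⟩ | ⟨g7, g8⟩
    · linarith only [C.b3, C.o0, g1, g5, C.f12_4]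
    · rcases d10 with g9 | g10 | g11 | g12 | g13
      · linarith only [g9, e0]
      · linarith only [g10, e3]
      · rcases d12 with g14 | g15 | g16 | g17 | g18 | g19
        · linarith only [g14, e0, C.o0]
        · linarith only [g15, e1]
        · linarith only [g16, e2]
        · linarith only [g11, s1, g1, g17]
        · rcases d5 with ⟨g20, g21⟩ | ⟨g22, g23⟩ | ⟨g24, g25⟩
          · linarith only [C.a3, s1, C.o1, g7, g20, g11, g18]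
          · linarith only [g22, C.o1, g7, g18]
          · linarith only [C.b4, C.o1, C.o2, g7, g24, g18]
        · rcases d11 with g26 | g27 | g28 | g29 | g30
          · linarith only [g26, e0]
          · linarith only [g27, e3]
          · rcases d7 with ⟨g31, g32⟩ | ⟨g33, g34⟩
            · linarith only [g31, s1, C.o0, C.f11_0, C.f32_0, g28]
            · linarith only [C.b4, s1, C.o0, C.f11_0, C.f32_1, g33, g28]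
          · rcases d8 with ⟨g35, g36⟩ | ⟨g37, g38⟩
            · rcases d7 with ⟨g39, g40⟩ | ⟨g41, g42⟩
              · linarith only [g39, s1, s3, C.o0, C.o2, C.f11_0, C.f11_1, C.f11_2, g7, C.f12_6, C.f32_0, g35, C.f33_7, g29, g19]
              · linarith only [g41, s1, s3, C.b4, C.o0, C.o2, C.f11_0, C.f11_1, C.f11_2, g7, C.f12_6, C.f32_1, g35, C.f33_7, g29, g19]
            · linarith only [g37, s3, C.b4, C.o2, C.f11_2, g7, C.f12_6, C.f33_7, g29, g19]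
          · linarith only [g30, s3, C.a5, C.o1, C.o2, g7, C.f12_6, g19]
      · rcases d13 with g43 | g44 | g45 | g46 | ⟨g47, g48⟩
        · linarith only [C.b3, s2, g43, C.o0, C.f32_5, g12]
        · linarith only [g44, s2, C.b4, C.o2, C.f32_5, g12]
        · linarith only [C.a2, s2, g45, C.o0, C.f32_5, g12]
        · linarith only [g46, s2, C.a5, C.o2, C.f32_5, g12]
        · linarith only [g47, s2, C.f32_5, g12]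
      · linarith only [g13, s3, C.f32_9]
  · linarith only [C.a2, C.o1, C.f12_0, g3]

end Pool.Agent.Helper89.TQ
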