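import Pool.Agent.Helper89.TQ.Ctx

set_option autoImplicit false
set_option linter.all false
set_option maxHeartbeats 4000000

namespace Pool.Agent.Helper89.TQ

theorem c1_11_33_33_k0 {n1 n2 n3 A1 A2 A3 B1 B2 B3 m11_1 m11_2 m11_3 m12_1 m12_2 m12_3 m22_1 m22_2 m22_3 m32_1 m32_2 m32_3 m33_1 m33_2 m33_3 : ℤ}
    (C : Ctx1 n1 n2 n3 A1 A2 A3 B1 B2 B3 m11_1 m11_2 m11_3 m12_1 m12_2 m12_3 m22_1 m22_2 m22_3 m32_1 m32_2 m32_3 m33_1 m33_2 m33_3)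
    (e0 : 0 < B1)
    (e1 : 0 < B3)
    (s1 : 0 * A1 + 3 * B1 ≤ m11_1 + m33_1 + m33_1)
    (s2 : 0 * A2 + 3 * B2 ≤ m11_2 + m33_2 + m33_2)
    (s3 : 0 * A3 + 3 * B3 ≤ m11_3 + m33_3 + m33_3) : False := by
  have d5 : ((0 ≤ 0 - B1)) ∨ ((0 ≤ 0 - B3)) ∨ ((0 ≤ -1 + 2 * B1 - m11_1 - m33_1)) ∨ ((0 ≤ -1 + 2 * B2 - m11_2 - m33_2)) ∨ ((0 ≤ -1 + 2 * B3 - m11_3 - m33_3)) := by
    have h := C.p11_33B
    clear C e0 e1 s1 s2 s3
    omega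
  rcases d5 with g1 | g2 | g3 | g4 | g5
  · linarith only [g1, e0]
  · linarith only [g2, e1]
  · linarith only [g3, s1, C.f11_0]
  · linarith only [C.b3, s2, C.f11_0, C.f11_1, g4]
  · linarith only [s3, C.f33_7, g5]

theorem c1_11_33_33_k1 {n1 n2 n3 A1 A2 A3 B1 B2 B3 m11_1 m11_2 m11_3 m12_1 m12_2 m12_3 m22_1 m22_2 m22_3 m32_1 m32_2 m32_3 m33_1 m33_2 m33_3 : ℤ}
    (C : Ctx1 n1 n2 n3 A1 A2 A3 B1 B2 B3 m11_1 m11_2 m11_3 m12_1 m12_2 m12_3 m22_1 m22_2 m22_3 m32_1 m32_2 m32_3 m33_1 m33_2 m33_3)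
    (e0 : 0 < B1)
    (e1 : 0 < B3)
    (s1 : 1 * A1 + 2 * B1 ≤ m11_1 + m33_1 + m33_1)
    (s2 : 1 * A2 + 2 * B2 ≤ m11_2 + m33_2 + m33_2)
    (s3 : 1 * A3 + 2 * B3 ≤ m11_3 + m33_3 + m33_3) : False := by
  have d5 : ((0 ≤ 0 - B1)) ∨ ((0 ≤ 0 - B3)) ∨ ((0 ≤ -1 + 2 * B1 - m11_1 - m33_1)) ∨ ((0 ≤ -1 + 2 * B2 - m11_2 - m33_2)) ∨ ((0 ≤ -1 + 2 * B3 - m11_3 - m33_3)) := by
    have h := C.p11_33B
    clear C e0 e1 s1 s2 s3
    omega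
  have d6 : ((0 ≤ 0 - A1 + A2 - n2)) ∨ ((0 ≤ 1 + A2 - A3)) ∨ ((0 ≤ 0 + B1 - B2)) ∨ ((0 ≤ 1 - B2 + B3 - n3)) ∨ ((0 ≤ 1 + A2 - B2) ∧ (0 ≤ -1 + A3 - B3)) := by
    have h := C.tzmp
    clear C e0 e1 s1 s2 s3
    omega
  have d7 : ((0 ≤ 0 - A1)) ∨ ((0 ≤ 0 - A1 + A2 - n2)) ∨ ((0 ≤ 0 - A2 + A3 - n3)) ∨ ((0 ≤ 0 + B1 - n1)) ∨ ((0 ≤ 0 + B1 - B2)) ∨ ((0 ≤ 0 + B2 - B3)) := by
    have h := C.tpzm
    clear C e0 e1 s1 s2 s3
    omega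
  rcases d5 with g1 | g2 | g3 | g4 | g5
  · linarith only [g1, e0]
  · linarith only [g2, e1]
  · linarith only [g3, s1, C.o0, C.f11_0]
  · rcases d6 with g6 | g7 | g8 | g9 | ⟨g10, g11⟩
    · linarith only [C.b3, s2, g6, C.o0, C.f11_0, C.f11_1, g4]
    · linarith only [g7, s2, C.o2, C.f33_4, g4]
    · linarith only [g8, s2, C.a2, C.a3, C.o0, C.f11_0, C.f11_1, g4]
    · linarith only [C.a5, s2, s3, g9, C.o2, C.f11_2, C.f33_7, g4]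
    · rcases d7 with g12 | g13 | g14 | g15 | g16 | g17
      · linarith only [g12, e0, C.o0]
      · linarith only [C.b3, g13, C.o0, C.o1]
      · linarith only [s2, s3, g14, g10, C.f11_2, C.f33_7, g4]
      · linarith only [s1, g15, C.o0, C.f11_0, C.f33_0]
      · linarith only [g16, C.a2, C.o0, C.o1]
      · linarith only [g17, s2, g10, C.f33_4, g4]
  · linarith only [g5, s3, C.o2, C.f33_7]

theorem c1_11_33_33_k2 {n1 n2 n3 A1 A2 A3 B1 B2 B3 m11_1 m11_2 m11_3 m12_1 m12_2 m12_3 m22_1 m22_2 m22_3 m32_1 m32_2 m32_3 m33_1 m33_2 m33_3 : ℤ}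
    (C : Ctx1 n1 n2 n3 A1 A2 A3 B1 B2 B3 m11_1 m11_2 m11_3 m12_1 m12_2 m12_3 m22_1 m22_2 m22_3 m32_1 m32_2 m32_3 m33_1 m33_2 m33_3)
    (e0 : 0 < B1)
    (e1 : 0 < B3)
    (s1 : 2 * A1 + 1 * B1 ≤ m11_1 + m33_1 + m33_1)
    (s2 : 2 * A2 + 1 * B2 ≤ m11_2 + m33_2 + m33_2)
    (s3 : 2 * A3 + 1 * B3 ≤ m11_3 + m33_3 + m33_3) : False := by
  have d3 : ((0 ≤ 0 - m33_1 + m33_2 - n2) ∧ (0 ≤ 0 + m33_1 - m33_2 + n2)) ∨ ((0 ≤ 1 - B3 + m33_2) ∧ (0 ≤ -1 + B3 - m33_2)) := by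
    have h := C.f33_5
    clear C e0 e1 s1 s2 s3
    omega
  have d4 : ((0 ≤ 0 - m33_2 + m33_3 - n3) ∧ (0 ≤ 0 + m33_2 - m33_3 + n3)) ∨ ((0 ≤ 1 - B3 + m33_3) ∧ (0 ≤ -1 + B3 - m33_3)) := by
    have h := C.f33_8
    clear C e0 e1 s1 s2 s3
    omega
  have d5 : ((0 ≤ 0 - B1)) ∨ ((0 ≤ 0 - B3)) ∨ ((0 ≤ -1 + 2 * A1 - m11_1 - m33_1)) ∨ ((0 ≤ -1 + 2 * A2 - m11_2 - m33_2)) ∨ ((0 ≤ -1 + 2 * A3 - m11_3 - m33_3)) := by
    have h := C.p11_33A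
    clear C e0 e1 s1 s2 s3
    omega
  have d6 : ((0 ≤ 0 - B1)) ∨ ((0 ≤ 0 - B3)) ∨ ((0 ≤ -1 + 2 * B1 - m11_1 - m33_1)) ∨ ((0 ≤ -1 + 2 * B2 - m11_2 - m33_2)) ∨ ((0 ≤ -1 + 2 * B3 - m11_3 - m33_3)) := by
    have h := C.p11_33B
    clear C e0 e1 s1 s2 s3
    omega
  have d7 : ((0 ≤ 0 + A1 - n1)) ∨ ((0 ≤ 0 + A1 - A2)) ∨ ((0 ≤ 0 + A2 - A3)) ∨ ((0 ≤ 0 - B1)) ∨ ((0 ≤ 0 - B1 + B2 - n2)) ∨ ((0 ≤ 0 - B2 + B3 - n3)) := by
    have h := C.tmzp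
    clear C e0 e1 s1 s2 s3
    omega
  have d8 : ((0 ≤ 0 - A1 + A2 - n2)) ∨ ((0 ≤ 1 + A2 - A3)) ∨ ((0 ≤ 0 + B1 - B2)) ∨ ((0 ≤ 1 - B2 + B3 - n3)) ∨ ((0 ≤ 1 + A2 - B2) ∧ (0 ≤ -1 + A3 - B3)) := by
    have h := C.tzmp
    clear C e0 e1 s1 s2 s3
    omega
  have d9 : ((0 ≤ 0 - A1)) ∨ ((0 ≤ 0 - A1 + A2 - n2)) ∨ ((0 ≤ 0 - A2 + A3 - n3)) ∨ ((0 ≤ 0 + B1 - n1)) ∨ ((0 ≤ 0 + B1 - B2)) ∨ ((0 ≤ 0 + B2 - B3)) := by
    have h := C.tpzm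
    clear C e0 e1 s1 s2 s3
    omega
  rcases d5 with g1 | g2 | g3 | g4 | g5
  · linarith only [g1, e0]
  · linarith only [g2, e1]
  · rcases d6 with g6 | g7 | g8 | g9 | g10
    · linarith only [g6, e0]
    · linarith only [g7, e1]
    · linarith only [g8, s1, C.o0, C.f11_0]
    · rcases d3 with ⟨g11, g12⟩ | ⟨g13, g14⟩
      · linarith only [s1, C.b3, C.o0, C.f11_0, C.f11_1, g11, g9]
      · rcases d4 with ⟨g15, g16⟩ | ⟨g17, g18⟩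
        · linarith only [C.o2, s3, C.b4, C.f11_2, g13, g15, C.f33_7, g9]
        · rcases d7 with g19 | g20 | g21 | g22 | g23 | g24
          · linarith only [s1, g19, C.f11_0, C.f33_0]
          · rcases d8 with g25 | g26 | g27 | g28 | ⟨g29, g30⟩
            · linarith only [s1, g20, g25, C.b3, C.o0, C.f11_0, C.f11_1, C.f33_1, g13, g9]
            · linarith only [s1, g20, g26, C.o2, C.f11_0, C.f33_1]
            · linarith only [g27, C.a2, C.o0, C.o1]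
            · linarith only [C.a5, s1, s3, g20, g28, C.o2, C.f11_0, C.f11_2, C.f33_1, g13, g18, g9]
            · rcases d9 with g31 | g32 | g33 | g34 | g35 | g36
              · linarith only [g31, e0, C.o0]
              · linarith only [C.b3, g32, C.o0, C.o1]
              · linarith only [s1, s3, g20, g33, g29, g30, C.f11_0, C.f11_2, C.f33_1, g13, g18, g9]
              · linarith only [g34, s1, C.o0, C.f11_0, C.f33_0]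
              · linarith only [g35, C.a2, C.o0, C.o1]
              · linarith only [g36, s1, g20, g29, C.f11_0, C.f33_1]
          · linarith only [C.o2, s2, g21, C.b4, g14, g9]
          · linarith only [g22, e0]
          · rcases d8 with g37 | g38 | g39 | g40 | ⟨g41, g42⟩
            · linarith only [s1, g37, C.b3, C.o1, C.f11_0, g3]
            · linarith only [s2, g38, g23, C.o2, C.f11_0, C.f11_1, g14]
            · linarith only [C.a2, s1, g39, C.o1, C.f11_0, g3]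
            · linarith only [g40, s3, g23, C.o2, C.f11_0, C.f11_1, C.f11_2, g18]
            · rcases d9 with g43 | g44 | g45 | g46 | g47 | g48
              · linarith only [s1, e0, g43, C.f11_0, g3]
              · linarith only [g44, s1, C.b3, C.o1, C.f11_0, g3]
              · linarith only [g45, s3, g23, g41, g42, C.f11_0, C.f11_1, C.f11_2, g18]
              · linarith only [g46, s1, C.f33_0, g3]
              · linarith only [g47, s1, C.a2, C.o1, C.f11_0, g3]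
              · linarith only [g48, s2, g23, g41, C.f11_0, C.f11_1, g14]
          · linarith only [C.a5, s2, s3, g24, C.o2, C.f11_2, g18, g9]
    · linarith only [s3, C.o2, C.f33_7, g10]
  · linarith only [C.b3, s2, C.o1, C.f11_0, C.f11_1, g4]
  · linarith only [g5, s3, C.f33_7]

theorem c1_11_33_33_k3 {n1 n2 n3 A1 A2 A3 B1 B2 B3 m11_1 m11_2 m11_3 m12_1 m12_2 m12_3 m22_1 m22_2 m22_3 m32_1 m32_2 m32_3 m33_1 m33_2 m33_3 : ℤ}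
    (C : Ctx1 n1 n2 n3 A1 A2 A3 B1 B2 B3 m11_1 m11_2 m11_3 m12_1 m12_2 m12_3 m22_1 m22_2 m22_3 m32_1 m32_2 m32_3 m33_1 m33_2 m33_3)
    (e0 : 0 < B1)
    (e1 : 0 < B3)
    (s1 : 3 * A1 + 0 * B1 ≤ m11_1 + m33_1 + m33_1)
    (s2 : 3 * A2 + 0 * B2 ≤ m11_2 + m33_2 + m33_2)
    (s3 : 3 * A3 + 0 * B3 ≤ m11_3 + m33_3 + m33_3) : False := by
  have d2 : ((0 ≤ 1 - A1 + m12_1) ∧ (0 ≤ -1 + A1 - m12_1)) ∨ ((0 ≤ 1 - B2 + m12_1) ∧ (0 ≤ -1 + B2 - m12_1)) := by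
    have h := C.f12_2
    clear C e0 e1 s1 s2 s3
    omega
  have d3 : ((0 ≤ 0 - m12_1 + m12_2 - n2) ∧ (0 ≤ 0 + m12_1 - m12_2 + n2)) ∨ ((0 ≤ 1 - B2 + m12_2) ∧ (0 ≤ -1 + B2 - m12_2)) := by
    have h := C.f12_5
    clear C e0 e1 s1 s2 s3
    omega
  have d5 : ((0 ≤ 0 - m33_1 + m33_2 - n2) ∧ (0 ≤ 0 + m33_1 - m33_2 + n2)) ∨ ((0 ≤ 1 - B3 + m33_2) ∧ (0 ≤ -1 + B3 - m33_2)) := by
    have h := C.f33_5
    clear C e0 e1 s1 s2 s3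
    omega
  have d8 : ((0 ≤ 0 - B1)) ∨ ((0 ≤ 0 - B3)) ∨ ((0 ≤ -1 + 2 * B1 - m11_1 - m33_1)) ∨ ((0 ≤ -1 + 2 * B2 - m11_2 - m33_2)) ∨ ((0 ≤ -1 + 2 * B3 - m11_3 - m33_3)) := by
    have h := C.p11_33B
    clear C e0 e1 s1 s2 s3
    omega
  have d9 : ((0 ≤ 0 - A1)) ∨ ((0 ≤ 0 - B2)) ∨ ((0 ≤ 0 - B3)) ∨ ((0 ≤ -1 + 2 * A1 - m12_1 - m33_1)) ∨ ((0 ≤ -1 + 2 * A2 - m12_2 - m33_2)) ∨ ((0 ≤ -1 + 2 * A3 - m12_3 - m33_3)) := by
    have h := C.p12_33A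
    clear C e0 e1 s1 s2 s3
    omega
  rcases d8 with g1 | g2 | g3 | g4 | g5
  · linarith only [g1, e0]
  · linarith only [g2, e1]
  · linarith only [g3, s1, C.o0, C.f11_0]
  · rcases d2 with ⟨g6, g7⟩ | ⟨g8, g9⟩
    · rcases d3 with ⟨g10, g11⟩ | ⟨g12, g13⟩
      · linarith only [C.f12_4, C.b3, C.o0, g6, g10]
      · rcases d5 with ⟨g14, g15⟩ | ⟨g16, g17⟩
        · linarith only [C.b3, s1, C.o0, C.f11_0, C.f11_1, g14, g4]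
        · rcases d9 with g18 | g19 | g20 | g21 | g22 | g23
          · linarith only [g18, e0, C.o0]
          · linarith only [C.a2, e0, C.o0, C.o1, g19]
          · linarith only [g20, e1]
          · linarith only [g21, s1, C.o0, C.f11_0, g6]
          · linarith only [C.b4, C.o1, g12, g16, g22]
          · linarith only [g23, s3, C.b4, C.o2, C.f11_2, g12, C.f12_6, g16, C.f33_7, g4]
    · linarith only [C.a2, C.o1, C.f12_0, g8]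
  · linarith only [s3, C.o2, C.f33_7, g5]

end Pool.Agent.Helper89.TQ
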