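import Pool.Agent.Helper89.TQ.Ctx

set_option autoImplicit false
set_option linter.all false
set_option maxHeartbeats 4000000

namespace Pool.Agent.Helper89.TQ

theorem c1_12_12_12_k0 {n1 n2 n3 A1 A2 A3 B1 B2 B3 m11_1 m11_2 m11_3 m12_1 m12_2 m12_3 m22_1 m22_2 m22_3 m32_1 m32_2 m32_3 m33_1 m33_2 m33_3 : ℤ}
    (C : Ctx1 n1 n2 n3 A1 A2 A3 B1 B2 B3 m11_1 m11_2 m11_3 m12_1 m12_2 m12_3 m22_1 m22_2 m22_3 m32_1 m32_2 m32_3 m33_1 m33_2 m33_3)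
    (e0 : 0 < A1)
    (e1 : 0 < B2)
    (s1 : 0 * A1 + 3 * B1 ≤ m12_1 + m12_1 + m12_1)
    (s2 : 0 * A2 + 3 * B2 ≤ m12_2 + m12_2 + m12_2)
    (s3 : 0 * A3 + 3 * B3 ≤ m12_3 + m12_3 + m12_3) : False := by
  linarith only [C.f12_4, s2]

theorem c1_12_12_12_k1 {n1 n2 n3 A1 A2 A3 B1 B2 B3 m11_1 m11_2 m11_3 m12_1 m12_2 m12_3 m22_1 m22_2 m22_3 m32_1 m32_2 m32_3 m33_1 m33_2 m33_3 : ℤ}
    (C : Ctx1 n1 n2 n3 A1 A2 A3 B1 B2 B3 m11_1 m11_2 m11_3 m12_1 m12_2 m12_3 m22_1 m22_2 m22_3 m32_1 m32_2 m32_3 m33_1 m33_2 m33_3)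
    (e0 : 0 < A1)
    (e1 : 0 < B2)
    (s1 : 1 * A1 + 2 * B1 ≤ m12_1 + m12_1 + m12_1)
    (s2 : 1 * A2 + 2 * B2 ≤ m12_2 + m12_2 + m12_2)
    (s3 : 1 * A3 + 2 * B3 ≤ m12_3 + m12_3 + m12_3) : False := by
  have d4 : ((0 ≤ 0 - A1 + A2 - n2)) ∨ ((0 ≤ 1 + A2 - A3)) ∨ ((0 ≤ 0 + B1 - B2)) ∨ ((0 ≤ 1 - B2 + B3 - n3)) ∨ ((0 ≤ 1 + A2 - B2) ∧ (0 ≤ -1 + A3 - B3)) := by
    have h := C.tzmp
    clear C e0 e1 s1 s2 s3
    omega
  rcases d4 with g1 | g2 | g3 | g4 | ⟨g5, g6⟩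
  · linarith only [g1, s1, s2, C.b3, C.f12_0, C.f12_4]
  · linarith only [g2, s2, C.b4, C.o2, C.f12_4]
  · linarith only [g3, s1, s2, C.a2, C.f12_0, C.f12_4]
  · linarith only [C.a5, s2, g4, C.o2, C.f12_4]
  · linarith only [g5, s2, C.f12_4]

theorem c1_12_12_12_k2 {n1 n2 n3 A1 A2 A3 B1 B2 B3 m11_1 m11_2 m11_3 m12_1 m12_2 m12_3 m22_1 m22_2 m22_3 m32_1 m32_2 m32_3 m33_1 m33_2 m33_3 : ℤ}
    (C : Ctx1 n1 n2 n3 A1 A2 A3 B1 B2 B3 m11_1 m11_2 m11_3 m12_1 m12_2 m12_3 m22_1 m22_2 m22_3 m32_1 m32_2 m32_3 m33_1 m33_2 m33_3)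
    (e0 : 0 < A1)
    (e1 : 0 < B2)
    (s1 : 2 * A1 + 1 * B1 ≤ m12_1 + m12_1 + m12_1)
    (s2 : 2 * A2 + 1 * B2 ≤ m12_2 + m12_2 + m12_2)
    (s3 : 2 * A3 + 1 * B3 ≤ m12_3 + m12_3 + m12_3) : False := by
  have d4 : ((0 ≤ 0 - A1 + A2 - n2)) ∨ ((0 ≤ 1 + A2 - A3)) ∨ ((0 ≤ 0 + B1 - B2)) ∨ ((0 ≤ 1 - B2 + B3 - n3)) ∨ ((0 ≤ 1 + A2 - B2) ∧ (0 ≤ -1 + A3 - B3)) := by
    have h := C.tzmp
    clear C e0 e1 s1 s2 s3
    omega
  rcases d4 with g1 | g2 | g3 | g4 | ⟨g5, g6⟩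
  · linarith only [g1, s1, s2, C.b3, C.f12_0, C.f12_4]
  · linarith only [g2, s2, C.b4, C.o2, C.f12_4]
  · linarith only [g3, s1, s2, C.a2, C.f12_0, C.f12_4]
  · linarith only [C.a5, s2, g4, C.o2, C.f12_4]
  · linarith only [g5, s2, C.f12_4]

theorem c1_12_12_12_k3 {n1 n2 n3 A1 A2 A3 B1 B2 B3 m11_1 m11_2 m11_3 m12_1 m12_2 m12_3 m22_1 m22_2 m22_3 m32_1 m32_2 m32_3 m33_1 m33_2 m33_3 : ℤ}
    (C : Ctx1 n1 n2 n3 A1 A2 A3 B1 B2 B3 m11_1 m11_2 m11_3 m12_1 m12_2 m12_3 m22_1 m22_2 m22_3 m32_1 m32_2 m32_3 m33_1 m33_2 m33_3)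
    (e0 : 0 < A1)
    (e1 : 0 < B2)
    (s1 : 3 * A1 + 0 * B1 ≤ m12_1 + m12_1 + m12_1)
    (s2 : 3 * A2 + 0 * B2 ≤ m12_2 + m12_2 + m12_2)
    (s3 : 3 * A3 + 0 * B3 ≤ m12_3 + m12_3 + m12_3) : False := by
  linarith only [C.f12_0, s1]

theorem c1_12_12_22_k0 {n1 n2 n3 A1 A2 A3 B1 B2 B3 m11_1 m11_2 m11_3 m12_1 m12_2 m12_3 m22_1 m22_2 m22_3 m32_1 m32_2 m32_3 m33_1 m33_2 m33_3 : ℤ}
    (C : Ctx1 n1 n2 n3 A1 A2 A3 B1 B2 B3 m11_1 m11_2 m11_3 m12_1 m12_2 m12_3 m22_1 m22_2 m22_3 m32_1 m32_2 m32_3 m33_1 m33_2 m33_3)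
    (e0 : 0 < A1)
    (e1 : 0 < B2)
    (e2 : 0 < A2)
    (s1 : 0 * A1 + 3 * B1 ≤ m12_1 + m12_1 + m22_1)
    (s2 : 0 * A2 + 3 * B2 ≤ m12_2 + m12_2 + m22_2)
    (s3 : 0 * A3 + 3 * B3 ≤ m12_3 + m12_3 + m22_3) : False := by
  linarith only [C.f22_4, s2, C.o1, C.f12_4]

theorem c1_12_12_22_k1 {n1 n2 n3 A1 A2 A3 B1 B2 B3 m11_1 m11_2 m11_3 m12_1 m12_2 m12_3 m22_1 m22_2 m22_3 m32_1 m32_2 m32_3 m33_1 m33_2 m33_3 : ℤ}
    (C : Ctx1 n1 n2 n3 A1 A2 A3 B1 B2 B3 m11_1 m11_2 m11_3 m12_1 m12_2 m12_3 m22_1 m22_2 m22_3 m32_1 m32_2 m32_3 m33_1 m33_2 m33_3)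
    (e0 : 0 < A1)
    (e1 : 0 < B2)
    (e2 : 0 < A2)
    (s1 : 1 * A1 + 2 * B1 ≤ m12_1 + m12_1 + m22_1)
    (s2 : 1 * A2 + 2 * B2 ≤ m12_2 + m12_2 + m22_2)
    (s3 : 1 * A3 + 2 * B3 ≤ m12_3 + m12_3 + m22_3) : False := by
  linarith only [C.f22_4, s2, C.f12_4]

theorem c1_12_12_22_k2 {n1 n2 n3 A1 A2 A3 B1 B2 B3 m11_1 m11_2 m11_3 m12_1 m12_2 m12_3 m22_1 m22_2 m22_3 m32_1 m32_2 m32_3 m33_1 m33_2 m33_3 : ℤ}
    (C : Ctx1 n1 n2 n3 A1 A2 A3 B1 B2 B3 m11_1 m11_2 m11_3 m12_1 m12_2 m12_3 m22_1 m22_2 m22_3 m32_1 m32_2 m32_3 m33_1 m33_2 m33_3)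
    (e0 : 0 < A1)
    (e1 : 0 < B2)
    (e2 : 0 < A2)
    (s1 : 2 * A1 + 1 * B1 ≤ m12_1 + m12_1 + m22_1)
    (s2 : 2 * A2 + 1 * B2 ≤ m12_2 + m12_2 + m22_2)
    (s3 : 2 * A3 + 1 * B3 ≤ m12_3 + m12_3 + m22_3) : False := by
  have d6 : ((0 ≤ 0 - A1 + A2 - n2)) ∨ ((0 ≤ 1 + A2 - A3)) ∨ ((0 ≤ 0 + B1 - B2)) ∨ ((0 ≤ 1 - B2 + B3 - n3)) ∨ ((0 ≤ 1 + A2 - B2) ∧ (0 ≤ -1 + A3 - B3)) := by
    have h := C.tzmp
    clear C e0 e1 e2 s1 s2 s3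
    omega
  rcases d6 with g1 | g2 | g3 | g4 | ⟨g5, g6⟩
  · linarith only [g1, s2, C.b3, C.o0, C.f12_4, C.f22_4]
  · linarith only [g2, s2, C.b4, C.o2, C.f12_4, C.f22_4]
  · linarith only [g3, s1, s2, C.f12_0, C.f12_4, C.f22_1, C.f22_4]
  · linarith only [s3, s2, g4, C.o2, C.f12_4, C.f12_6, C.f22_4, C.f22_6]
  · linarith only [g5, s2, C.f12_4, C.f22_4]

theorem c1_12_12_22_k3 {n1 n2 n3 A1 A2 A3 B1 B2 B3 m11_1 m11_2 m11_3 m12_1 m12_2 m12_3 m22_1 m22_2 m22_3 m32_1 m32_2 m32_3 m33_1 m33_2 m33_3 : ℤ}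
    (C : Ctx1 n1 n2 n3 A1 A2 A3 B1 B2 B3 m11_1 m11_2 m11_3 m12_1 m12_2 m12_3 m22_1 m22_2 m22_3 m32_1 m32_2 m32_3 m33_1 m33_2 m33_3)
    (e0 : 0 < A1)
    (e1 : 0 < B2)
    (e2 : 0 < A2)
    (s1 : 3 * A1 + 0 * B1 ≤ m12_1 + m12_1 + m22_1)
    (s2 : 3 * A2 + 0 * B2 ≤ m12_2 + m12_2 + m22_2)
    (s3 : 3 * A3 + 0 * B3 ≤ m12_3 + m12_3 + m22_3) : False := by
  have d2 : ((0 ≤ 1 - A1 + m12_1) ∧ (0 ≤ -1 + A1 - m12_1)) ∨ ((0 ≤ 1 - B2 + m12_1) ∧ (0 ≤ -1 + B2 - m12_1)) := by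
    have h := C.f12_2
    clear C e0 e1 e2 s1 s2 s3
    omega
  have d5 : ((0 ≤ 0 - m22_1 + m22_2 - n2) ∧ (0 ≤ 0 + m22_1 - m22_2 + n2)) ∨ ((0 ≤ 1 - A2 + m22_2) ∧ (0 ≤ -1 + A2 - m22_2)) := by
    have h := C.f22_5
    clear C e0 e1 e2 s1 s2 s3
    omega
  have d6 : ((0 ≤ 0 - A1)) ∨ ((0 ≤ 0 - B2)) ∨ ((0 ≤ 0 - A2)) ∨ ((0 ≤ -1 + 2 * A1 - m12_1 - m22_1)) ∨ ((0 ≤ -1 + 2 * A2 - m12_2 - m22_2)) ∨ ((0 ≤ -1 + 2 * A3 - m12_3 - m22_3)) := by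
    have h := C.p12_22A
    clear C e0 e1 e2 s1 s2 s3
    omega
  rcases d2 with ⟨g1, g2⟩ | ⟨g3, g4⟩
  · rcases d5 with ⟨g5, g6⟩ | ⟨g7, g8⟩
    · linarith only [C.f22_4, s1, C.b3, C.o0, C.o1, g2, g5]
    · rcases d6 with g9 | g10 | g11 | g12 | g13 | g14
      · linarith only [g9, e0]
      · linarith only [g10, e1]
      · linarith only [g11, e2]
      · linarith only [g12, s1, g2]
      · linarith only [g13, s2, g7]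
      · linarith only [C.a5, s3, g7, C.f22_6, g14]
  · linarith only [g3, s1, s2, C.f12_0, C.f12_4, C.f22_1, C.f22_4]

theorem c1_12_12_32_k0 {n1 n2 n3 A1 A2 A3 B1 B2 B3 m11_1 m11_2 m11_3 m12_1 m12_2 m12_3 m22_1 m22_2 m22_3 m32_1 m32_2 m32_3 m33_1 m33_2 m33_3 : ℤ}
    (C : Ctx1 n1 n2 n3 A1 A2 A3 B1 B2 B3 m11_1 m11_2 m11_3 m12_1 m12_2 m12_3 m22_1 m22_2 m22_3 m32_1 m32_2 m32_3 m33_1 m33_2 m33_3)
    (e0 : 0 < A1)
    (e1 : 0 < B2)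
    (e2 : 0 < A3)
    (s1 : 0 * A1 + 3 * B1 ≤ m12_1 + m12_1 + m32_1)
    (s2 : 0 * A2 + 3 * B2 ≤ m12_2 + m12_2 + m32_2)
    (s3 : 0 * A3 + 3 * B3 ≤ m12_3 + m12_3 + m32_3) : False := by
  linarith only [C.f32_5, s2, C.f12_4]

theorem c1_12_12_32_k1 {n1 n2 n3 A1 A2 A3 B1 B2 B3 m11_1 m11_2 m11_3 m12_1 m12_2 m12_3 m22_1 m22_2 m22_3 m32_1 m32_2 m32_3 m33_1 m33_2 m33_3 : ℤ}
    (C : Ctx1 n1 n2 n3 A1 A2 A3 B1 B2 B3 m11_1 m11_2 m11_3 m12_1 m12_2 m12_3 m22_1 m22_2 m22_3 m32_1 m32_2 m32_3 m33_1 m33_2 m33_3)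
    (e0 : 0 < A1)
    (e1 : 0 < B2)
    (e2 : 0 < A3)
    (s1 : 1 * A1 + 2 * B1 ≤ m12_1 + m12_1 + m32_1)
    (s2 : 1 * A2 + 2 * B2 ≤ m12_2 + m12_2 + m32_2)
    (s3 : 1 * A3 + 2 * B3 ≤ m12_3 + m12_3 + m32_3) : False := by
  have d8 : ((0 ≤ 0 - A1 + A2 - n2)) ∨ ((0 ≤ 1 + A2 - A3)) ∨ ((0 ≤ 0 + B1 - B2)) ∨ ((0 ≤ 1 - B2 + B3 - n3)) ∨ ((0 ≤ 1 + A2 - B2) ∧ (0 ≤ -1 + A3 - B3)) := by
    have h := C.tzmp
    clear C e0 e1 e2 s1 s2 s3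
    omega
  rcases d8 with g1 | g2 | g3 | g4 | ⟨g5, g6⟩
  · linarith only [C.o0, s2, g1, C.b3, C.f12_4, C.f32_5]
  · linarith only [g2, s2, C.b4, C.o2, C.f12_4, C.f32_5]
  · linarith only [g3, s2, C.a2, C.o0, C.f12_4, C.f32_5]
  · linarith only [g4, s2, C.a5, C.o2, C.f12_4, C.f32_5]
  · linarith only [g5, s2, C.f12_4, C.f32_5]

theorem c1_12_12_32_k2 {n1 n2 n3 A1 A2 A3 B1 B2 B3 m11_1 m11_2 m11_3 m12_1 m12_2 m12_3 m22_1 m22_2 m22_3 m32_1 m32_2 m32_3 m33_1 m33_2 m33_3 : ℤ}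
    (C : Ctx1 n1 n2 n3 A1 A2 A3 B1 B2 B3 m11_1 m11_2 m11_3 m12_1 m12_2 m12_3 m22_1 m22_2 m22_3 m32_1 m32_2 m32_3 m33_1 m33_2 m33_3)
    (e0 : 0 < A1)
    (e1 : 0 < B2)
    (e2 : 0 < A3)
    (s1 : 2 * A1 + 1 * B1 ≤ m12_1 + m12_1 + m32_1)
    (s2 : 2 * A2 + 1 * B2 ≤ m12_2 + m12_2 + m32_2)
    (s3 : 2 * A3 + 1 * B3 ≤ m12_3 + m12_3 + m32_3) : False := by
  have d8 : ((0 ≤ 0 - A1 + A2 - n2)) ∨ ((0 ≤ 1 + A2 - A3)) ∨ ((0 ≤ 0 + B1 - B2)) ∨ ((0 ≤ 1 - B2 + B3 - n3)) ∨ ((0 ≤ 1 + A2 - B2) ∧ (0 ≤ -1 + A3 - B3)) := by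
    have h := C.tzmp
    clear C e0 e1 e2 s1 s2 s3
    omega
  rcases d8 with g1 | g2 | g3 | g4 | ⟨g5, g6⟩
  · linarith only [C.o0, s2, g1, C.b3, C.f12_4, C.f32_5]
  · linarith only [C.o2, s2, g2, C.b4, C.f12_4, C.f32_5]
  · linarith only [g3, s2, C.a2, C.o0, C.f12_4, C.f32_5]
  · linarith only [C.a5, s2, g4, C.o2, C.f12_4, C.f32_5]
  · linarith only [g5, s2, C.f12_4, C.f32_5]

theorem c1_12_12_32_k3 {n1 n2 n3 A1 A2 A3 B1 B2 B3 m11_1 m11_2 m11_3 m12_1 m12_2 m12_3 m22_1 m22_2 m22_3 m32_1 m32_2 m32_3 m33_1 m33_2 m33_3 : ℤ}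
    (C : Ctx1 n1 n2 n3 A1 A2 A3 B1 B2 B3 m11_1 m11_2 m11_3 m12_1 m12_2 m12_3 m22_1 m22_2 m22_3 m32_1 m32_2 m32_3 m33_1 m33_2 m33_3)
    (e0 : 0 < A1)
    (e1 : 0 < B2)
    (e2 : 0 < A3)
    (s1 : 3 * A1 + 0 * B1 ≤ m12_1 + m12_1 + m32_1)
    (s2 : 3 * A2 + 0 * B2 ≤ m12_2 + m12_2 + m32_2)
    (s3 : 3 * A3 + 0 * B3 ≤ m12_3 + m12_3 + m32_3) : False := by
  have d2 : ((0 ≤ 1 - A1 + m12_1) ∧ (0 ≤ -1 + A1 - m12_1)) ∨ ((0 ≤ 1 - B2 + m12_1) ∧ (0 ≤ -1 + B2 - m12_1)) := by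
    have h := C.f12_2
    clear C e0 e1 e2 s1 s2 s3
    omega
  have d3 : ((0 ≤ 0 - m12_1 + m12_2 - n2) ∧ (0 ≤ 0 + m12_1 - m12_2 + n2)) ∨ ((0 ≤ 1 - B2 + m12_2) ∧ (0 ≤ -1 + B2 - m12_2)) := by
    have h := C.f12_5
    clear C e0 e1 e2 s1 s2 s3
    omega
  have d5 : ((0 ≤ 0 - m32_1 + m32_2 - n2) ∧ (0 ≤ 0 + m32_1 - m32_2 + n2)) ∨ ((0 ≤ 1 - B2 + m32_2) ∧ (0 ≤ -1 + B2 - m32_2)) ∨ ((0 ≤ 1 - A3 + m32_2) ∧ (0 ≤ -1 + A3 - m32_2)) := by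
    have h := C.f32_7
    clear C e0 e1 e2 s1 s2 s3
    omega
  have d6 : ((0 ≤ 0 - m32_2 + m32_3 - n3) ∧ (0 ≤ 0 + m32_2 - m32_3 + n3)) ∨ ((0 ≤ 1 - A3 + m32_3) ∧ (0 ≤ -1 + A3 - m32_3)) := by
    have h := C.f32_10
    clear C e0 e1 e2 s1 s2 s3
    omega
  have d7 : ((0 ≤ 0 - A1)) ∨ ((0 ≤ 0 - B2)) ∨ ((0 ≤ 0 - A3)) ∨ ((0 ≤ -1 + 2 * A1 - m12_1 - m32_1)) ∨ ((0 ≤ -1 + 2 * A2 - m12_2 - m32_2)) ∨ ((0 ≤ -1 + 2 * A3 - m12_3 - m32_3)) := by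
    have h := C.p12_32A
    clear C e0 e1 e2 s1 s2 s3
    omega
  rcases d2 with ⟨g1, g2⟩ | ⟨g3, g4⟩
  · rcases d3 with ⟨g5, g6⟩ | ⟨g7, g8⟩
    · linarith only [C.b3, C.o0, g1, g5, C.f12_4]
    · rcases d7 with g9 | g10 | g11 | g12 | g13 | g14
      · linarith only [g9, e0]
      · linarith only [g10, e1]
      · linarith only [g11, e2]
      · linarith only [g12, s1, g2]
      · rcases d5 with ⟨g15, g16⟩ | ⟨g17, g18⟩ | ⟨g19, g20⟩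
        · linarith only [C.a3, s1, s2, g2, g15, g13]
        · linarith only [g17, s2, g8, g13]
        · linarith only [g19, s2, C.b4, C.o2, g8, g13]
      · rcases d6 with ⟨g21, g22⟩ | ⟨g23, g24⟩
        · rcases d5 with ⟨g25, g26⟩ | ⟨g27, g28⟩ | ⟨g29, g30⟩
          · linarith only [C.a5, s1, s3, C.a3, g2, g25, g21, g14]
          · linarith only [s2, C.a5, g8, C.f12_6, g27, g21, g14]
          · linarith only [g29, s2, C.a5, C.b4, C.o2, g8, C.f12_6, g21, g14]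
        · linarith only [s3, g23, g14]
  · linarith only [g3, s1, C.f12_0, C.f32_1]

theorem c1_12_12_33_k0 {n1 n2 n3 A1 A2 A3 B1 B2 B3 m11_1 m11_2 m11_3 m12_1 m12_2 m12_3 m22_1 m22_2 m22_3 m32_1 m32_2 m32_3 m33_1 m33_2 m33_3 : ℤ}
    (C : Ctx1 n1 n2 n3 A1 A2 A3 B1 B2 B3 m11_1 m11_2 m11_3 m12_1 m12_2 m12_3 m22_1 m22_2 m22_3 m32_1 m32_2 m32_3 m33_1 m33_2 m33_3)
    (e0 : 0 < A1)
    (e1 : 0 < B2)
    (e2 : 0 < B3)
    (s1 : 0 * A1 + 3 * B1 ≤ m12_1 + m12_1 + m33_1)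
    (s2 : 0 * A2 + 3 * B2 ≤ m12_2 + m12_2 + m33_2)
    (s3 : 0 * A3 + 3 * B3 ≤ m12_3 + m12_3 + m33_3) : False := by
  have d2 : ((0 ≤ 1 - A1 + m12_1) ∧ (0 ≤ -1 + A1 - m12_1)) ∨ ((0 ≤ 1 - B2 + m12_1) ∧ (0 ≤ -1 + B2 - m12_1)) := by
    have h := C.f12_2
    clear C e0 e1 e2 s1 s2 s3
    omega
  have d3 : ((0 ≤ 0 - m12_1 + m12_2 - n2) ∧ (0 ≤ 0 + m12_1 - m12_2 + n2)) ∨ ((0 ≤ 1 - B2 + m12_2) ∧ (0 ≤ -1 + B2 - m12_2)) := by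
    have h := C.f12_5
    clear C e0 e1 e2 s1 s2 s3
    omega
  have d4 : ((0 ≤ 0 + m33_1 - n1) ∧ (0 ≤ 0 - m33_1 + n1)) ∨ ((0 ≤ 1 - B3 + m33_1) ∧ (0 ≤ -1 + B3 - m33_1)) := by
    have h := C.f33_2
    clear C e0 e1 e2 s1 s2 s3
    omega
  have d6 : ((0 ≤ 0 - m33_2 + m33_3 - n3) ∧ (0 ≤ 0 + m33_2 - m33_3 + n3)) ∨ ((0 ≤ 1 - B3 + m33_3) ∧ (0 ≤ -1 + B3 - m33_3)) := by
    have h := C.f33_8
    clear C e0 e1 e2 s1 s2 s3
    omega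
  have d7 : ((0 ≤ 0 - A1)) ∨ ((0 ≤ 0 - B2)) ∨ ((0 ≤ 0 - B3)) ∨ ((0 ≤ -1 + 2 * B1 - m12_1 - m33_1)) ∨ ((0 ≤ -1 + 2 * B2 - m12_2 - m33_2)) ∨ ((0 ≤ -1 + 2 * B3 - m12_3 - m33_3)) := by
    have h := C.p12_33B
    clear C e0 e1 e2 s1 s2 s3
    omega
  rcases d2 with ⟨g1, g2⟩ | ⟨g3, g4⟩
  · rcases d3 with ⟨g5, g6⟩ | ⟨g7, g8⟩
    · linarith only [C.b3, C.o0, g1, g5, C.f12_4]
    · rcases d6 with ⟨g9, g10⟩ | ⟨g11, g12⟩
      · linarith only [C.f33_7, s2, C.a5, C.o1, C.o2, g8, g9]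
      · rcases d7 with g13 | g14 | g15 | g16 | g17 | g18
        · linarith only [g13, e0]
        · linarith only [g14, e1]
        · linarith only [g15, e2]
        · rcases d4 with ⟨g19, g20⟩ | ⟨g21, g22⟩
          · linarith only [g19, s1, C.a1, g2, g16]
          · linarith only [C.a2, s1, s2, C.o1, g2, g8, g21, C.f33_4, g16]
        · linarith only [g17, s2, g8]
        · linarith only [s3, g11, g18]
  · linarith only [C.a2, C.o1, C.f12_0, g3]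

theorem c1_12_12_33_k1 {n1 n2 n3 A1 A2 A3 B1 B2 B3 m11_1 m11_2 m11_3 m12_1 m12_2 m12_3 m22_1 m22_2 m22_3 m32_1 m32_2 m32_3 m33_1 m33_2 m33_3 : ℤ}
    (C : Ctx1 n1 n2 n3 A1 A2 A3 B1 B2 B3 m11_1 m11_2 m11_3 m12_1 m12_2 m12_3 m22_1 m22_2 m22_3 m32_1 m32_2 m32_3 m33_1 m33_2 m33_3)
    (e0 : 0 < A1)
    (e1 : 0 < B2)
    (e2 : 0 < B3)
    (s1 : 1 * A1 + 2 * B1 ≤ m12_1 + m12_1 + m33_1)
    (s2 : 1 * A2 + 2 * B2 ≤ m12_2 + m12_2 + m33_2)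
    (s3 : 1 * A3 + 2 * B3 ≤ m12_3 + m12_3 + m33_3) : False := by
  have d6 : ((0 ≤ 0 - m33_2 + m33_3 - n3) ∧ (0 ≤ 0 + m33_2 - m33_3 + n3)) ∨ ((0 ≤ 1 - B3 + m33_3) ∧ (0 ≤ -1 + B3 - m33_3)) := by
    have h := C.f33_8
    clear C e0 e1 e2 s1 s2 s3
    omega
  have d7 : ((0 ≤ 0 - A1)) ∨ ((0 ≤ 0 - B2)) ∨ ((0 ≤ 0 - B3)) ∨ ((0 ≤ -1 + 2 * B1 - m12_1 - m33_1)) ∨ ((0 ≤ -1 + 2 * B2 - m12_2 - m33_2)) ∨ ((0 ≤ -1 + 2 * B3 - m12_3 - m33_3)) := by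
    have h := C.p12_33B
    clear C e0 e1 e2 s1 s2 s3
    omega
  have d8 : ((0 ≤ 0 - A1 + A2 - n2)) ∨ ((0 ≤ 1 + A2 - A3)) ∨ ((0 ≤ 0 + B1 - B2)) ∨ ((0 ≤ 1 - B2 + B3 - n3)) ∨ ((0 ≤ 1 + A2 - B2) ∧ (0 ≤ -1 + A3 - B3)) := by
    have h := C.tzmp
    clear C e0 e1 e2 s1 s2 s3
    omega
  rcases d8 with g1 | g2 | g3 | g4 | ⟨g5, g6⟩
  · linarith only [C.o1, g1, C.b3, C.o0]
  · linarith only [g2, s2, C.o2, C.f12_4, C.f33_4]
  · linarith only [g3, C.a2, C.o0, C.o1]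
  · linarith only [C.f33_7, s3, g4, C.o2, C.f12_4, C.f12_6]
  · rcases d7 with g7 | g8 | g9 | g10 | g11 | g12
    · linarith only [g7, e0]
    · linarith only [g8, e1]
    · linarith only [g9, e2]
    · linarith only [C.f12_0, s1, g10]
    · linarith only [g11, s2, g5, C.f12_4]
    · rcases d6 with ⟨g13, g14⟩ | ⟨g15, g16⟩
      · linarith only [s2, s3, g5, g6, C.f12_4, C.f12_6, g13, g12]
      · linarith only [g15, s3, g6, g12]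

theorem c1_12_12_33_k2 {n1 n2 n3 A1 A2 A3 B1 B2 B3 m11_1 m11_2 m11_3 m12_1 m12_2 m12_3 m22_1 m22_2 m22_3 m32_1 m32_2 m32_3 m33_1 m33_2 m33_3 : ℤ}
    (C : Ctx1 n1 n2 n3 A1 A2 A3 B1 B2 B3 m11_1 m11_2 m11_3 m12_1 m12_2 m12_3 m22_1 m22_2 m22_3 m32_1 m32_2 m32_3 m33_1 m33_2 m33_3)
    (e0 : 0 < A1)
    (e1 : 0 < B2)
    (e2 : 0 < B3)
    (s1 : 2 * A1 + 1 * B1 ≤ m12_1 + m12_1 + m33_1)
    (s2 : 2 * A2 + 1 * B2 ≤ m12_2 + m12_2 + m33_2)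
    (s3 : 2 * A3 + 1 * B3 ≤ m12_3 + m12_3 + m33_3) : False := by
  have d9 : ((0 ≤ 0 - A1 + A2 - n2)) ∨ ((0 ≤ 1 + A2 - A3)) ∨ ((0 ≤ 0 + B1 - B2)) ∨ ((0 ≤ 1 - B2 + B3 - n3)) ∨ ((0 ≤ 1 + A2 - B2) ∧ (0 ≤ -1 + A3 - B3)) := by
    have h := C.tzmp
    clear C e0 e1 e2 s1 s2 s3
    omega
  have d10 : ((0 ≤ 0 - A1)) ∨ ((0 ≤ 0 - A1 + A2 - n2)) ∨ ((0 ≤ 0 - A2 + A3 - n3)) ∨ ((0 ≤ 0 + B1 - n1)) ∨ ((0 ≤ 0 + B1 - B2)) ∨ ((0 ≤ 0 + B2 - B3)) := by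
    have h := C.tpzm
    clear C e0 e1 e2 s1 s2 s3
    omega
  rcases d9 with g1 | g2 | g3 | g4 | ⟨g5, g6⟩
  · linarith only [C.o1, g1, C.b3, C.o0]
  · linarith only [C.o2, s2, g2, C.b4, C.f12_4, C.f33_4]
  · linarith only [C.o1, C.a2, g3, C.o0]
  · linarith only [C.f33_7, s3, g4, C.o2, C.f12_4, C.f12_6]
  · rcases d10 with g7 | g8 | g9 | g10 | g11 | g12
    · linarith only [g7, e0]
    · linarith only [g8, C.b3, C.o0, C.o1]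
    · linarith only [C.f33_7, s3, g9, g5, C.f12_4, C.f12_6]
    · linarith only [g10, s1, C.f12_0, C.f33_0]
    · linarith only [g11, C.a2, C.o0, C.o1]
    · linarith only [g12, s2, g5, C.f12_4, C.f33_4]

theorem c1_12_12_33_k3 {n1 n2 n3 A1 A2 A3 B1 B2 B3 m11_1 m11_2 m11_3 m12_1 m12_2 m12_3 m22_1 m22_2 m22_3 m32_1 m32_2 m32_3 m33_1 m33_2 m33_3 : ℤ}
    (C : Ctx1 n1 n2 n3 A1 A2 A3 B1 B2 B3 m11_1 m11_2 m11_3 m12_1 m12_2 m12_3 m22_1 m22_2 m22_3 m32_1 m32_2 m32_3 m33_1 m33_2 m33_3)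
    (e0 : 0 < A1)
    (e1 : 0 < B2)
    (e2 : 0 < B3)
    (s1 : 3 * A1 + 0 * B1 ≤ m12_1 + m12_1 + m33_1)
    (s2 : 3 * A2 + 0 * B2 ≤ m12_2 + m12_2 + m33_2)
    (s3 : 3 * A3 + 0 * B3 ≤ m12_3 + m12_3 + m33_3) : False := by
  have d0 : ((0 ≤ -1 + A1) ∧ (0 ≤ -1 + A1 - A2 + n2)) ∨ ((0 ≤ -1 + B1) ∧ (0 ≤ -1 + B1 - B2 + n2)) := by
    have h := C.t12
    clear C e0 e1 e2 s1 s2 s3
    omega
  have d2 : ((0 ≤ 1 - A1 + m12_1) ∧ (0 ≤ -1 + A1 - m12_1)) ∨ ((0 ≤ 1 - B2 + m12_1) ∧ (0 ≤ -1 + B2 - m12_1)) := by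
    have h := C.f12_2
    clear C e0 e1 e2 s1 s2 s3
    omega
  have d3 : ((0 ≤ 0 - m12_1 + m12_2 - n2) ∧ (0 ≤ 0 + m12_1 - m12_2 + n2)) ∨ ((0 ≤ 1 - B2 + m12_2) ∧ (0 ≤ -1 + B2 - m12_2)) := by
    have h := C.f12_5
    clear C e0 e1 e2 s1 s2 s3
    omega
  have d4 : ((0 ≤ 0 + m32_1 - n1) ∧ (0 ≤ 0 - m32_1 + n1)) ∨ ((0 ≤ 1 - B2 + m32_1) ∧ (0 ≤ -1 + B2 - m32_1)) ∨ ((0 ≤ 1 - A3 + m32_1) ∧ (0 ≤ -1 + A3 - m32_1)) := by
    have h := C.f32_3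
    clear C e0 e1 e2 s1 s2 s3
    omega
  have d5 : ((0 ≤ 0 - m32_1 + m32_2 - n2) ∧ (0 ≤ 0 + m32_1 - m32_2 + n2)) ∨ ((0 ≤ 1 - B2 + m32_2) ∧ (0 ≤ -1 + B2 - m32_2)) ∨ ((0 ≤ 1 - A3 + m32_2) ∧ (0 ≤ -1 + A3 - m32_2)) := by
    have h := C.f32_7
    clear C e0 e1 e2 s1 s2 s3
    omega
  have d6 : ((0 ≤ 0 - m32_2 + m32_3 - n3) ∧ (0 ≤ 0 + m32_2 - m32_3 + n3)) ∨ ((0 ≤ 1 - A3 + m32_3) ∧ (0 ≤ -1 + A3 - m32_3)) := by
    have h := C.f32_10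
    clear C e0 e1 e2 s1 s2 s3
    omega
  have d8 : ((0 ≤ 0 - m33_1 + m33_2 - n2) ∧ (0 ≤ 0 + m33_1 - m33_2 + n2)) ∨ ((0 ≤ 1 - B3 + m33_2) ∧ (0 ≤ -1 + B3 - m33_2)) := by
    have h := C.f33_5
    clear C e0 e1 e2 s1 s2 s3
    omega
  have d9 : ((0 ≤ 0 - m33_2 + m33_3 - n3) ∧ (0 ≤ 0 + m33_2 - m33_3 + n3)) ∨ ((0 ≤ 1 - B3 + m33_3) ∧ (0 ≤ -1 + B3 - m33_3)) := by
    have h := C.f33_8
    clear C e0 e1 e2 s1 s2 s3
    omega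
  have d10 : ((0 ≤ 0 - A1)) ∨ ((0 ≤ 0 - B2)) ∨ ((0 ≤ 0 - A3)) ∨ ((0 ≤ -1 + 2 * A1 - m12_1 - m32_1)) ∨ ((0 ≤ -1 + 2 * A2 - m12_2 - m32_2)) ∨ ((0 ≤ -1 + 2 * A3 - m12_3 - m32_3)) := by
    have h := C.p12_32A
    clear C e0 e1 e2 s1 s2 s3
    omega
  have d11 : ((0 ≤ 0 - A1)) ∨ ((0 ≤ 0 - B2)) ∨ ((0 ≤ 0 - B3)) ∨ ((0 ≤ -1 + 2 * A1 - m12_1 - m33_1)) ∨ ((0 ≤ -1 + 2 * A2 - m12_2 - m33_2)) ∨ ((0 ≤ -1 + 2 * A3 - m12_3 - m33_3)) := by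
    have h := C.p12_33A
    clear C e0 e1 e2 s1 s2 s3
    omega
  have d12 : ((0 ≤ 0 - A1)) ∨ ((0 ≤ 0 - B2)) ∨ ((0 ≤ 0 - B3)) ∨ ((0 ≤ -1 + 2 * B1 - m12_1 - m33_1)) ∨ ((0 ≤ -1 + 2 * B2 - m12_2 - m33_2)) ∨ ((0 ≤ -1 + 2 * B3 - m12_3 - m33_3)) := by
    have h := C.p12_33B
    clear C e0 e1 e2 s1 s2 s3
    omega
  have d13 : ((0 ≤ 0 + A1 - n1)) ∨ ((0 ≤ 0 + A1 - A2)) ∨ ((0 ≤ 0 + A2 - A3)) ∨ ((0 ≤ 0 - B1)) ∨ ((0 ≤ 0 - B1 + B2 - n2)) ∨ ((0 ≤ 0 - B2 + B3 - n3)) := by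
    have h := C.tmzp
    clear C e0 e1 e2 s1 s2 s3
    omega
  have d14 : ((0 ≤ 0 - A1 + A2 - n2)) ∨ ((0 ≤ 1 + A2 - A3)) ∨ ((0 ≤ 0 + B1 - B2)) ∨ ((0 ≤ 1 - B2 + B3 - n3)) ∨ ((0 ≤ 1 + A2 - B2) ∧ (0 ≤ -1 + A3 - B3)) := by
    have h := C.tzmp
    clear C e0 e1 e2 s1 s2 s3
    omega
  have d15 : ((0 ≤ 0 - A1)) ∨ ((0 ≤ 0 - A1 + A2 - n2)) ∨ ((0 ≤ 0 - A2 + A3 - n3)) ∨ ((0 ≤ 0 + B1 - n1)) ∨ ((0 ≤ 0 + B1 - B2)) ∨ ((0 ≤ 0 + B2 - B3)) := by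
    have h := C.tpzm
    clear C e0 e1 e2 s1 s2 s3
    omega
  rcases d2 with ⟨g1, g2⟩ | ⟨g3, g4⟩
  · rcases d3 with ⟨g5, g6⟩ | ⟨g7, g8⟩
    · linarith only [C.b3, C.o0, g1, g5, C.f12_4]
    · rcases d11 with g9 | g10 | g11 | g12 | g13 | g14
      · linarith only [g9, e0]
      · linarith only [g10, e1]
      · linarith only [g11, e2]
      · linarith only [g12, s1, g2]
      · rcases d8 with ⟨g15, g16⟩ | ⟨g17, g18⟩
        · linarith only [g15, s1, s2, C.b3, C.o0, g2, g8, g13]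
        · linarith only [g17, s2, C.b4, g8, g13]
      · rcases d12 with g19 | g20 | g21 | g22 | g23 | g24
        · linarith only [g19, e0]
        · linarith only [g20, e1]
        · linarith only [g21, e2]
        · linarith only [g22, s1, C.o0, g2]
        · rcases d8 with ⟨g25, g26⟩ | ⟨g27, g28⟩
          · linarith only [g23, s1, C.b3, C.o0, g2, g7, g25]
          · rcases d9 with ⟨g29, g30⟩ | ⟨g31, g32⟩
            · linarith only [C.b4, s3, g8, C.f12_6, g27, g29, g14]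
            · rcases d14 with g33 | g34 | g35 | g36 | ⟨g37, g38⟩
              · linarith only [C.o1, g33, C.b3, C.o0]
              · linarith only [C.b4, s2, s3, g34, g8, g28, g31, g14]
              · linarith only [C.o1, C.a2, g35, C.o0]
              · linarith only [g36, s3, g8, C.f12_6, g31, g14]
              · rcases d15 with g39 | g40 | g41 | g42 | g43 | g44
                · linarith only [g39, e0]
                · linarith only [g40, C.b3, C.o0, C.o1]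
                · linarith only [g41, s3, g37, g8, C.f12_6, g14]
                · linarith only [g42, s1, C.o0, g2, C.f33_0]
                · linarith only [C.a2, g43, C.o0, C.o1]
                · rcases d13 with g45 | g46 | g47 | g48 | g49 | g50
                  · linarith only [g45, s1, g2, C.f33_0]
                  · linarith only [g46, s1, g44, g37, g2, C.f33_1]
                  · linarith only [g47, s3, C.b4, C.o1, g31, g14]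
                  · rcases d0 with ⟨g51, g52⟩ | ⟨g53, g54⟩
                    · rcases d4 with ⟨g55, g56⟩ | ⟨g57, g58⟩ | ⟨g59, g60⟩
                      · rcases d5 with ⟨g61, g62⟩ | ⟨g63, g64⟩ | ⟨g65, g66⟩
                        · linarith only [C.f32_5, s1, C.b3, C.o0, g2, g55, g61, C.f33_0]
                        · rcases d10 with g67 | g68 | g69 | g70 | g71 | g72
                          · linarith only [g67, g51]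
                          · linarith only [g68, e1]
                          · linarith only [g69, g51, s1, s3, g2, C.f33_1, g31, g14]
                          · linarith only [g70, s1, g2, g55, C.f33_0]
                          · linarith only [g71, C.o1, g7, g63]
                          · rcases d6 with ⟨g73, g74⟩ | ⟨g75, g76⟩
                            · linarith only [g73, s3, g8, C.f12_6, g63, g72, g14]
                            · linarith only [g75, s3, g72, g14]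
                        · linarith only [g65, s3, C.b4, C.f32_5, g31, g14]
                      · rcases d5 with ⟨g77, g78⟩ | ⟨g79, g80⟩ | ⟨g81, g82⟩
                        · linarith only [g57, s1, C.b3, g44, C.o0, g2, g77, C.f32_5, C.f33_1]
                        · rcases d10 with g83 | g84 | g85 | g86 | g87 | g88
                          · linarith only [g83, g51]
                          · linarith only [g84, e1]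
                          · linarith only [g85, g51, s1, s3, g2, C.f33_1, g31, g14]
                          · linarith only [g86, s1, g44, g2, g57, C.f33_1]
                          · linarith only [g87, C.o1, g7, g79]
                          · rcases d6 with ⟨g89, g90⟩ | ⟨g91, g92⟩
                            · linarith only [g89, s3, g8, C.f12_6, g79, g88, g14]
                            · linarith only [g91, s3, g88, g14]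
                        · linarith only [g81, s3, C.b4, C.f32_5, g31, g14]
                      · linarith only [C.f32_1, s3, C.b4, g59, g31, g14]
                    · linarith only [g53, g48]
                  · rcases d0 with ⟨g93, g94⟩ | ⟨g95, g96⟩
                    · rcases d4 with ⟨g97, g98⟩ | ⟨g99, g100⟩ | ⟨g101, g102⟩
                      · rcases d5 with ⟨g103, g104⟩ | ⟨g105, g106⟩ | ⟨g107, g108⟩
                        · linarith only [C.f32_5, s1, C.b3, C.o0, g2, g97, g103, C.f33_0]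
                        · rcases d10 with g109 | g110 | g111 | g112 | g113 | g114
                          · linarith only [g109, g93]
                          · linarith only [g110, e1]
                          · linarith only [g111, g93, s1, s3, g2, C.f33_1, g31, g14]
                          · linarith only [g112, s1, g2, g97, C.f33_0]
                          · linarith only [g113, C.o1, g7, g105]
                          · rcases d6 with ⟨g115, g116⟩ | ⟨g117, g118⟩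
                            · linarith only [g115, s3, g8, C.f12_6, g105, g114, g14]
                            · linarith only [g117, s3, g114, g14]
                        · linarith only [g107, s3, C.b4, C.f32_5, g31, g14]
                      · rcases d5 with ⟨g119, g120⟩ | ⟨g121, g122⟩ | ⟨g123, g124⟩
                        · linarith only [g99, s1, C.b3, g44, C.o0, g2, g119, C.f32_5, C.f33_1]
                        · rcases d10 with g125 | g126 | g127 | g128 | g129 | g130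
                          · linarith only [g125, g93]
                          · linarith only [g126, e1]
                          · linarith only [g127, g93, s1, s3, g2, C.f33_1, g31, g14]
                          · linarith only [g128, s1, g44, g2, g99, C.f33_1]
                          · linarith only [g129, C.o1, g7, g121]
                          · rcases d6 with ⟨g131, g132⟩ | ⟨g133, g134⟩
                            · linarith only [g131, s3, g8, C.f12_6, g121, g130, g14]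
                            · linarith only [g133, s3, g130, g14]
                        · linarith only [g123, s3, C.b4, C.f32_5, g31, g14]
                      · linarith only [C.f32_1, s3, C.b4, g101, g31, g14]
                    · linarith only [g96, g49]
                  · linarith only [g50, s3, g8, C.f12_6, g31, g14]
        · rcases d9 with ⟨g135, g136⟩ | ⟨g137, g138⟩
          · rcases d8 with ⟨g139, g140⟩ | ⟨g141, g142⟩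
            · linarith only [g139, s1, s2, C.a5, C.b3, C.o0, C.o2, g2, g8, C.f12_6, g135, g24]
            · linarith only [g141, s2, C.a5, C.b4, C.o2, g8, C.f12_6, g135, g24]
          · linarith only [s3, g137, g14, g24]
  · linarith only [C.a2, C.o1, C.f12_0, g3]

end Pool.Agent.Helper89.TQ
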