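import Pool.Agent.Helper89.TQ.Ctx

set_option autoImplicit false
set_option linter.all false
set_option maxHeartbeats 4000000

namespace Pool.Agent.Helper89.TQ

theorem c1_12_33_33_k0 {n1 n2 n3 A1 A2 A3 B1 B2 B3 m11_1 m11_2 m11_3 m12_1 m12_2 m12_3 m22_1 m22_2 m22_3 m32_1 m32_2 m32_3 m33_1 m33_2 m33_3 : ℤ}
    (C : Ctx1 n1 n2 n3 A1 A2 A3 B1 B2 B3 m11_1 m11_2 m11_3 m12_1 m12_2 m12_3 m22_1 m22_2 m22_3 m32_1 m32_2 m32_3 m33_1 m33_2 m33_3)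
    (e0 : 0 < A1)
    (e1 : 0 < B2)
    (e2 : 0 < B3)
    (s1 : 0 * A1 + 3 * B1 ≤ m12_1 + m33_1 + m33_1)
    (s2 : 0 * A2 + 3 * B2 ≤ m12_2 + m33_2 + m33_2)
    (s3 : 0 * A3 + 3 * B3 ≤ m12_3 + m33_3 + m33_3) : False := by
  have d2 : ((0 ≤ 1 - A1 + m12_1) ∧ (0 ≤ -1 + A1 - m12_1)) ∨ ((0 ≤ 1 - B2 + m12_1) ∧ (0 ≤ -1 + B2 - m12_1)) := by
    have h := C.f12_2
    clear C e0 e1 e2 s1 s2 s3
    omega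
  have d3 : ((0 ≤ 0 - m12_1 + m12_2 - n2) ∧ (0 ≤ 0 + m12_1 - m12_2 + n2)) ∨ ((0 ≤ 1 - B2 + m12_2) ∧ (0 ≤ -1 + B2 - m12_2)) := by
    have h := C.f12_5
    clear C e0 e1 e2 s1 s2 s3
    omega
  have d7 : ((0 ≤ 0 - A1)) ∨ ((0 ≤ 0 - B2)) ∨ ((0 ≤ 0 - B3)) ∨ ((0 ≤ -1 + 2 * B1 - m12_1 - m33_1)) ∨ ((0 ≤ -1 + 2 * B2 - m12_2 - m33_2)) ∨ ((0 ≤ -1 + 2 * B3 - m12_3 - m33_3)) := by
    have h := C.p12_33B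
    clear C e0 e1 e2 s1 s2 s3
    omega
  rcases d2 with ⟨g1, g2⟩ | ⟨g3, g4⟩
  · rcases d7 with g5 | g6 | g7 | g8 | g9 | g10
    · linarith only [g5, e0]
    · linarith only [g6, e1]
    · linarith only [g7, e2]
    · linarith only [s1, C.o0, g1, g8]
    · rcases d3 with ⟨g11, g12⟩ | ⟨g13, g14⟩
      · linarith only [C.b3, s2, C.o0, g1, g11, g9]
      · linarith only [g13, s2, g9]
    · linarith only [g10, s3, C.f33_7]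
  · linarith only [C.a2, C.o1, C.f12_0, g3]

theorem c1_12_33_33_k1 {n1 n2 n3 A1 A2 A3 B1 B2 B3 m11_1 m11_2 m11_3 m12_1 m12_2 m12_3 m22_1 m22_2 m22_3 m32_1 m32_2 m32_3 m33_1 m33_2 m33_3 : ℤ}
    (C : Ctx1 n1 n2 n3 A1 A2 A3 B1 B2 B3 m11_1 m11_2 m11_3 m12_1 m12_2 m12_3 m22_1 m22_2 m22_3 m32_1 m32_2 m32_3 m33_1 m33_2 m33_3)
    (e0 : 0 < A1)
    (e1 : 0 < B2)
    (e2 : 0 < B3)
    (s1 : 1 * A1 + 2 * B1 ≤ m12_1 + m33_1 + m33_1)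
    (s2 : 1 * A2 + 2 * B2 ≤ m12_2 + m33_2 + m33_2)
    (s3 : 1 * A3 + 2 * B3 ≤ m12_3 + m33_3 + m33_3) : False := by
  have d9 : ((0 ≤ 0 - A1 + A2 - n2)) ∨ ((0 ≤ 1 + A2 - A3)) ∨ ((0 ≤ 0 + B1 - B2)) ∨ ((0 ≤ 1 - B2 + B3 - n3)) ∨ ((0 ≤ 1 + A2 - B2) ∧ (0 ≤ -1 + A3 - B3)) := by
    have h := C.tzmp
    clear C e0 e1 e2 s1 s2 s3
    omega
  have d10 : ((0 ≤ 0 - A1)) ∨ ((0 ≤ 0 - A1 + A2 - n2)) ∨ ((0 ≤ 0 - A2 + A3 - n3)) ∨ ((0 ≤ 0 + B1 - n1)) ∨ ((0 ≤ 0 + B1 - B2)) ∨ ((0 ≤ 0 + B2 - B3)) := by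
    have h := C.tpzm
    clear C e0 e1 e2 s1 s2 s3
    omega
  rcases d9 with g1 | g2 | g3 | g4 | ⟨g5, g6⟩
  · linarith only [C.b3, g1, C.o0, C.o1]
  · linarith only [C.f12_4, s2, g2, C.o1, C.o2, C.f33_4]
  · linarith only [g3, C.a2, C.o0, C.o1]
  · linarith only [g4, s3, C.o2, C.f12_4, C.f12_6, C.f33_7]
  · rcases d10 with g7 | g8 | g9 | g10 | g11 | g12
    · linarith only [g7, e0]
    · linarith only [g8, C.b3, C.o0, C.o1]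
    · linarith only [C.f12_4, s3, g9, g5, C.f12_6, C.f33_7]
    · linarith only [g10, C.a1, C.o0]
    · linarith only [g11, C.a2, C.o0, C.o1]
    · linarith only [C.f12_4, s2, g12, g5, C.f33_4]

theorem c1_12_33_33_k2 {n1 n2 n3 A1 A2 A3 B1 B2 B3 m11_1 m11_2 m11_3 m12_1 m12_2 m12_3 m22_1 m22_2 m22_3 m32_1 m32_2 m32_3 m33_1 m33_2 m33_3 : ℤ}
    (C : Ctx1 n1 n2 n3 A1 A2 A3 B1 B2 B3 m11_1 m11_2 m11_3 m12_1 m12_2 m12_3 m22_1 m22_2 m22_3 m32_1 m32_2 m32_3 m33_1 m33_2 m33_3)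
    (e0 : 0 < A1)
    (e1 : 0 < B2)
    (e2 : 0 < B3)
    (s1 : 2 * A1 + 1 * B1 ≤ m12_1 + m33_1 + m33_1)
    (s2 : 2 * A2 + 1 * B2 ≤ m12_2 + m33_2 + m33_2)
    (s3 : 2 * A3 + 1 * B3 ≤ m12_3 + m33_3 + m33_3) : False := by
  have d9 : ((0 ≤ 0 - A1 + A2 - n2)) ∨ ((0 ≤ 1 + A2 - A3)) ∨ ((0 ≤ 0 + B1 - B2)) ∨ ((0 ≤ 1 - B2 + B3 - n3)) ∨ ((0 ≤ 1 + A2 - B2) ∧ (0 ≤ -1 + A3 - B3)) := by
    have h := C.tzmp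
    clear C e0 e1 e2 s1 s2 s3
    omega
  have d10 : ((0 ≤ 0 - A1)) ∨ ((0 ≤ 0 - A1 + A2 - n2)) ∨ ((0 ≤ 0 - A2 + A3 - n3)) ∨ ((0 ≤ 0 + B1 - n1)) ∨ ((0 ≤ 0 + B1 - B2)) ∨ ((0 ≤ 0 + B2 - B3)) := by
    have h := C.tpzm
    clear C e0 e1 e2 s1 s2 s3
    omega
  rcases d9 with g1 | g2 | g3 | g4 | ⟨g5, g6⟩
  · linarith only [g1, C.b3, C.o0, C.o1]
  · linarith only [C.f12_4, s2, g2, C.o2, C.f33_4]
  · linarith only [g3, C.a2, C.o0, C.o1]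
  · linarith only [C.f12_4, s3, g4, C.o2, C.f12_6, C.f33_7]
  · rcases d10 with g7 | g8 | g9 | g10 | g11 | g12
    · linarith only [g7, e0]
    · linarith only [g8, C.b3, C.o0, C.o1]
    · linarith only [C.f12_4, s3, g9, g5, g6, C.f12_6, C.f33_7]
    · linarith only [C.a1, g10, C.o0]
    · linarith only [g11, C.a2, C.o0, C.o1]
    · linarith only [s2, g12, g5, C.f12_4, C.f33_4]

theorem c1_12_33_33_k3 {n1 n2 n3 A1 A2 A3 B1 B2 B3 m11_1 m11_2 m11_3 m12_1 m12_2 m12_3 m22_1 m22_2 m22_3 m32_1 m32_2 m32_3 m33_1 m33_2 m33_3 : ℤ}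
    (C : Ctx1 n1 n2 n3 A1 A2 A3 B1 B2 B3 m11_1 m11_2 m11_3 m12_1 m12_2 m12_3 m22_1 m22_2 m22_3 m32_1 m32_2 m32_3 m33_1 m33_2 m33_3)
    (e0 : 0 < A1)
    (e1 : 0 < B2)
    (e2 : 0 < B3)
    (s1 : 3 * A1 + 0 * B1 ≤ m12_1 + m33_1 + m33_1)
    (s2 : 3 * A2 + 0 * B2 ≤ m12_2 + m33_2 + m33_2)
    (s3 : 3 * A3 + 0 * B3 ≤ m12_3 + m33_3 + m33_3) : False := by
  have d2 : ((0 ≤ 1 - A1 + m12_1) ∧ (0 ≤ -1 + A1 - m12_1)) ∨ ((0 ≤ 1 - B2 + m12_1) ∧ (0 ≤ -1 + B2 - m12_1)) := by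
    have h := C.f12_2
    clear C e0 e1 e2 s1 s2 s3
    omega
  have d3 : ((0 ≤ 0 - m12_1 + m12_2 - n2) ∧ (0 ≤ 0 + m12_1 - m12_2 + n2)) ∨ ((0 ≤ 1 - B2 + m12_2) ∧ (0 ≤ -1 + B2 - m12_2)) := by
    have h := C.f12_5
    clear C e0 e1 e2 s1 s2 s3
    omega
  have d7 : ((0 ≤ 0 - A1)) ∨ ((0 ≤ 0 - B2)) ∨ ((0 ≤ 0 - B3)) ∨ ((0 ≤ -1 + 2 * A1 - m12_1 - m33_1)) ∨ ((0 ≤ -1 + 2 * A2 - m12_2 - m33_2)) ∨ ((0 ≤ -1 + 2 * A3 - m12_3 - m33_3)) := by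
    have h := C.p12_33A
    clear C e0 e1 e2 s1 s2 s3
    omega
  rcases d2 with ⟨g1, g2⟩ | ⟨g3, g4⟩
  · rcases d7 with g5 | g6 | g7 | g8 | g9 | g10
    · linarith only [g5, e0]
    · linarith only [g6, e1]
    · linarith only [g7, e2]
    · linarith only [g8, s1, g1]
    · rcases d3 with ⟨g11, g12⟩ | ⟨g13, g14⟩
      · linarith only [C.a3, s2, g1, g11, g9]
      · linarith only [g13, s2, C.o1, g9]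
    · linarith only [g10, s3, C.o2, C.f33_7]
  · linarith only [C.a2, C.o1, C.f12_0, g3]

end Pool.Agent.Helper89.TQ
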