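import Pool.Agent.Helper89.TQ.P1_11_11
import Pool.Agent.Helper89.TQ.P1_11_12
import Pool.Agent.Helper89.TQ.P1_11_22
import Pool.Agent.Helper89.TQ.P1_11_32
import Pool.Agent.Helper89.TQ.P1_11_33
import Pool.Agent.Helper89.TQ.P1_12_12
import Pool.Agent.Helper89.TQ.P1_12_22
import Pool.Agent.Helper89.TQ.P1_12_32
import Pool.Agent.Helper89.TQ.P1_12_33
import Pool.Agent.Helper89.TQ.P1_22_22
import Pool.Agent.Helper89.TQ.P1_22_32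
import Pool.Agent.Helper89.TQ.P1_22_33
import Pool.Agent.Helper89.TQ.P1_32_32
import Pool.Agent.Helper89.TQ.P1_32_33
import Pool.Agent.Helper89.TQ.P1_33_33
import Pool.Agent.Helper89.TQ.Prep1

set_option autoImplicit false
set_option linter.all false
set_option maxHeartbeats 4000000

namespace Pool.Agent.Helper89.TQ

theorem tri1_11_11_11 {n1 n2 n3 A1 A2 A3 B1 B2 B3 m11_1 m11_2 m11_3 m12_1 m12_2 m12_3 m22_1 m22_2 m22_3 m32_1 m32_2 m32_3 m33_1 m33_2 m33_3 : ℤ}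
    (C : Ctx1 n1 n2 n3 A1 A2 A3 B1 B2 B3 m11_1 m11_2 m11_3 m12_1 m12_2 m12_3 m22_1 m22_2 m22_3 m32_1 m32_2 m32_3 m33_1 m33_2 m33_3)
    (e0 : 0 < B1)
    (h : SG A1 A2 A3 B1 B2 B3 (m11_1 + m11_1 + m11_1) (m11_2 + m11_2 + m11_2) (m11_3 + m11_3 + m11_3)) :
    F1 n1 n2 n3 A1 A2 A3 B1 B2 B3 ∨ F2 n1 n2 n3 A1 A2 A3 B1 B2 B3 := by
  rcases h with ⟨s1, s2, s3⟩ | ⟨s1, s2, s3⟩ | ⟨s1, s2, s3⟩ | ⟨s1, s2, s3⟩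
  · exact (c1_11_11_11_k0 C e0 s1 s2 s3).elim
  · exact (c1_11_11_11_k1 C e0 s1 s2 s3).elim
  · exact (c1_11_11_11_k2 C e0 s1 s2 s3).elim
  · exact (c1_11_11_11_k3 C e0 s1 s2 s3).elim

theorem tri1_11_11_12 {n1 n2 n3 A1 A2 A3 B1 B2 B3 m11_1 m11_2 m11_3 m12_1 m12_2 m12_3 m22_1 m22_2 m22_3 m32_1 m32_2 m32_3 m33_1 m33_2 m33_3 : ℤ}
    (C : Ctx1 n1 n2 n3 A1 A2 A3 B1 B2 B3 m11_1 m11_2 m11_3 m12_1 m12_2 m12_3 m22_1 m22_2 m22_3 m32_1 m32_2 m32_3 m33_1 m33_2 m33_3)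
    (e0 : 0 < B1)
    (e1 : 0 < A1)
    (e2 : 0 < B2)
    (h : SG A1 A2 A3 B1 B2 B3 (m11_1 + m11_1 + m12_1) (m11_2 + m11_2 + m12_2) (m11_3 + m11_3 + m12_3)) :
    F1 n1 n2 n3 A1 A2 A3 B1 B2 B3 ∨ F2 n1 n2 n3 A1 A2 A3 B1 B2 B3 := by
  rcases h with ⟨s1, s2, s3⟩ | ⟨s1, s2, s3⟩ | ⟨s1, s2, s3⟩ | ⟨s1, s2, s3⟩
  · exact (c1_11_11_12_k0 C e0 e1 e2 s1 s2 s3).elim
  · exact (c1_11_11_12_k1 C e0 e1 e2 s1 s2 s3).elim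
  · exact (c1_11_11_12_k2 C e0 e1 e2 s1 s2 s3).elim
  · exact (c1_11_11_12_k3 C e0 e1 e2 s1 s2 s3).elim

theorem tri1_11_11_22 {n1 n2 n3 A1 A2 A3 B1 B2 B3 m11_1 m11_2 m11_3 m12_1 m12_2 m12_3 m22_1 m22_2 m22_3 m32_1 m32_2 m32_3 m33_1 m33_2 m33_3 : ℤ}
    (C : Ctx1 n1 n2 n3 A1 A2 A3 B1 B2 B3 m11_1 m11_2 m11_3 m12_1 m12_2 m12_3 m22_1 m22_2 m22_3 m32_1 m32_2 m32_3 m33_1 m33_2 m33_3)
    (e0 : 0 < B1)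
    (e1 : 0 < A2)
    (h : SG A1 A2 A3 B1 B2 B3 (m11_1 + m11_1 + m22_1) (m11_2 + m11_2 + m22_2) (m11_3 + m11_3 + m22_3)) :
    F1 n1 n2 n3 A1 A2 A3 B1 B2 B3 ∨ F2 n1 n2 n3 A1 A2 A3 B1 B2 B3 := by
  rcases h with ⟨s1, s2, s3⟩ | ⟨s1, s2, s3⟩ | ⟨s1, s2, s3⟩ | ⟨s1, s2, s3⟩
  · exact (c1_11_11_22_k0 C e0 e1 s1 s2 s3).elim
  · exact (c1_11_11_22_k1 C e0 e1 s1 s2 s3).elim
  · exact (c1_11_11_22_k2 C e0 e1 s1 s2 s3).elim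
  · exact (c1_11_11_22_k3 C e0 e1 s1 s2 s3).elim

theorem tri1_11_11_32 {n1 n2 n3 A1 A2 A3 B1 B2 B3 m11_1 m11_2 m11_3 m12_1 m12_2 m12_3 m22_1 m22_2 m22_3 m32_1 m32_2 m32_3 m33_1 m33_2 m33_3 : ℤ}
    (C : Ctx1 n1 n2 n3 A1 A2 A3 B1 B2 B3 m11_1 m11_2 m11_3 m12_1 m12_2 m12_3 m22_1 m22_2 m22_3 m32_1 m32_2 m32_3 m33_1 m33_2 m33_3)
    (e0 : 0 < B1)
    (e1 : 0 < B2)
    (e2 : 0 < A3)
    (h : SG A1 A2 A3 B1 B2 B3 (m11_1 + m11_1 + m32_1) (m11_2 + m11_2 + m32_2) (m11_3 + m11_3 + m32_3)) :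
    F1 n1 n2 n3 A1 A2 A3 B1 B2 B3 ∨ F2 n1 n2 n3 A1 A2 A3 B1 B2 B3 := by
  rcases h with ⟨s1, s2, s3⟩ | ⟨s1, s2, s3⟩ | ⟨s1, s2, s3⟩ | ⟨s1, s2, s3⟩
  · exact (c1_11_11_32_k0 C e0 e1 e2 s1 s2 s3).elim
  · exact (c1_11_11_32_k1 C e0 e1 e2 s1 s2 s3).elim
  · exact (c1_11_11_32_k2 C e0 e1 e2 s1 s2 s3).elim
  · exact (c1_11_11_32_k3 C e0 e1 e2 s1 s2 s3).elim

theorem tri1_11_11_33 {n1 n2 n3 A1 A2 A3 B1 B2 B3 m11_1 m11_2 m11_3 m12_1 m12_2 m12_3 m22_1 m22_2 m22_3 m32_1 m32_2 m32_3 m33_1 m33_2 m33_3 : ℤ}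
    (C : Ctx1 n1 n2 n3 A1 A2 A3 B1 B2 B3 m11_1 m11_2 m11_3 m12_1 m12_2 m12_3 m22_1 m22_2 m22_3 m32_1 m32_2 m32_3 m33_1 m33_2 m33_3)
    (e0 : 0 < B1)
    (e1 : 0 < B3)
    (h : SG A1 A2 A3 B1 B2 B3 (m11_1 + m11_1 + m33_1) (m11_2 + m11_2 + m33_2) (m11_3 + m11_3 + m33_3)) :
    F1 n1 n2 n3 A1 A2 A3 B1 B2 B3 ∨ F2 n1 n2 n3 A1 A2 A3 B1 B2 B3 := by
  rcases h with ⟨s1, s2, s3⟩ | ⟨s1, s2, s3⟩ | ⟨s1, s2, s3⟩ | ⟨s1, s2, s3⟩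
  · exact (c1_11_11_33_k0 C e0 e1 s1 s2 s3).elim
  · exact (c1_11_11_33_k1 C e0 e1 s1 s2 s3).elim
  · exact (c1_11_11_33_k2 C e0 e1 s1 s2 s3).elim
  · exact (c1_11_11_33_k3 C e0 e1 s1 s2 s3).elim

theorem tri1_11_12_12 {n1 n2 n3 A1 A2 A3 B1 B2 B3 m11_1 m11_2 m11_3 m12_1 m12_2 m12_3 m22_1 m22_2 m22_3 m32_1 m32_2 m32_3 m33_1 m33_2 m33_3 : ℤ}
    (C : Ctx1 n1 n2 n3 A1 A2 A3 B1 B2 B3 m11_1 m11_2 m11_3 m12_1 m12_2 m12_3 m22_1 m22_2 m22_3 m32_1 m32_2 m32_3 m33_1 m33_2 m33_3)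
    (e0 : 0 < B1)
    (e1 : 0 < A1)
    (e2 : 0 < B2)
    (h : SG A1 A2 A3 B1 B2 B3 (m11_1 + m12_1 + m12_1) (m11_2 + m12_2 + m12_2) (m11_3 + m12_3 + m12_3)) :
    F1 n1 n2 n3 A1 A2 A3 B1 B2 B3 ∨ F2 n1 n2 n3 A1 A2 A3 B1 B2 B3 := by
  rcases h with ⟨s1, s2, s3⟩ | ⟨s1, s2, s3⟩ | ⟨s1, s2, s3⟩ | ⟨s1, s2, s3⟩
  · exact (c1_11_12_12_k0 C e0 e1 e2 s1 s2 s3).elim
  · exact (c1_11_12_12_k1 C e0 e1 e2 s1 s2 s3).elim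
  · exact (c1_11_12_12_k2 C e0 e1 e2 s1 s2 s3).elim
  · exact (c1_11_12_12_k3 C e0 e1 e2 s1 s2 s3).elim

theorem tri1_11_12_22 {n1 n2 n3 A1 A2 A3 B1 B2 B3 m11_1 m11_2 m11_3 m12_1 m12_2 m12_3 m22_1 m22_2 m22_3 m32_1 m32_2 m32_3 m33_1 m33_2 m33_3 : ℤ}
    (C : Ctx1 n1 n2 n3 A1 A2 A3 B1 B2 B3 m11_1 m11_2 m11_3 m12_1 m12_2 m12_3 m22_1 m22_2 m22_3 m32_1 m32_2 m32_3 m33_1 m33_2 m33_3)
    (e0 : 0 < B1)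
    (e1 : 0 < A1)
    (e2 : 0 < B2)
    (e3 : 0 < A2)
    (h : SG A1 A2 A3 B1 B2 B3 (m11_1 + m12_1 + m22_1) (m11_2 + m12_2 + m22_2) (m11_3 + m12_3 + m22_3)) :
    F1 n1 n2 n3 A1 A2 A3 B1 B2 B3 ∨ F2 n1 n2 n3 A1 A2 A3 B1 B2 B3 := by
  rcases h with ⟨s1, s2, s3⟩ | ⟨s1, s2, s3⟩ | ⟨s1, s2, s3⟩ | ⟨s1, s2, s3⟩
  · exact (c1_11_12_22_k0 C e0 e1 e2 e3 s1 s2 s3).elim
  · exact (c1_11_12_22_k1 C e0 e1 e2 e3 s1 s2 s3).elim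
  · exact (c1_11_12_22_k2 C e0 e1 e2 e3 s1 s2 s3).elim
  · exact (c1_11_12_22_k3 C e0 e1 e2 e3 s1 s2 s3).elim

theorem tri1_11_12_32 {n1 n2 n3 A1 A2 A3 B1 B2 B3 m11_1 m11_2 m11_3 m12_1 m12_2 m12_3 m22_1 m22_2 m22_3 m32_1 m32_2 m32_3 m33_1 m33_2 m33_3 : ℤ}
    (C : Ctx1 n1 n2 n3 A1 A2 A3 B1 B2 B3 m11_1 m11_2 m11_3 m12_1 m12_2 m12_3 m22_1 m22_2 m22_3 m32_1 m32_2 m32_3 m33_1 m33_2 m33_3)
    (e0 : 0 < B1)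
    (e1 : 0 < A1)
    (e2 : 0 < B2)
    (e3 : 0 < A3)
    (h : SG A1 A2 A3 B1 B2 B3 (m11_1 + m12_1 + m32_1) (m11_2 + m12_2 + m32_2) (m11_3 + m12_3 + m32_3)) :
    F1 n1 n2 n3 A1 A2 A3 B1 B2 B3 ∨ F2 n1 n2 n3 A1 A2 A3 B1 B2 B3 := by
  rcases h with ⟨s1, s2, s3⟩ | ⟨s1, s2, s3⟩ | ⟨s1, s2, s3⟩ | ⟨s1, s2, s3⟩
  · exact (c1_11_12_32_k0 C e0 e1 e2 e3 s1 s2 s3).elim
  · exact (c1_11_12_32_k1 C e0 e1 e2 e3 s1 s2 s3).elim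
  · exact (c1_11_12_32_k2 C e0 e1 e2 e3 s1 s2 s3).elim
  · exact (c1_11_12_32_k3 C e0 e1 e2 e3 s1 s2 s3).elim

theorem tri1_11_12_33 {n1 n2 n3 A1 A2 A3 B1 B2 B3 m11_1 m11_2 m11_3 m12_1 m12_2 m12_3 m22_1 m22_2 m22_3 m32_1 m32_2 m32_3 m33_1 m33_2 m33_3 : ℤ}
    (C : Ctx1 n1 n2 n3 A1 A2 A3 B1 B2 B3 m11_1 m11_2 m11_3 m12_1 m12_2 m12_3 m22_1 m22_2 m22_3 m32_1 m32_2 m32_3 m33_1 m33_2 m33_3)
    (e0 : 0 < B1)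
    (e1 : 0 < A1)
    (e2 : 0 < B2)
    (e3 : 0 < B3)
    (h : SG A1 A2 A3 B1 B2 B3 (m11_1 + m12_1 + m33_1) (m11_2 + m12_2 + m33_2) (m11_3 + m12_3 + m33_3)) :
    F1 n1 n2 n3 A1 A2 A3 B1 B2 B3 ∨ F2 n1 n2 n3 A1 A2 A3 B1 B2 B3 := by
  rcases h with ⟨s1, s2, s3⟩ | ⟨s1, s2, s3⟩ | ⟨s1, s2, s3⟩ | ⟨s1, s2, s3⟩
  · exact (c1_11_12_33_k0 C e0 e1 e2 e3 s1 s2 s3).elim
  · exact (c1_11_12_33_k1 C e0 e1 e2 e3 s1 s2 s3).elim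
  · exact (c1_11_12_33_k2 C e0 e1 e2 e3 s1 s2 s3).elim
  · exact (c1_11_12_33_k3 C e0 e1 e2 e3 s1 s2 s3).elim

theorem tri1_11_22_22 {n1 n2 n3 A1 A2 A3 B1 B2 B3 m11_1 m11_2 m11_3 m12_1 m12_2 m12_3 m22_1 m22_2 m22_3 m32_1 m32_2 m32_3 m33_1 m33_2 m33_3 : ℤ}
    (C : Ctx1 n1 n2 n3 A1 A2 A3 B1 B2 B3 m11_1 m11_2 m11_3 m12_1 m12_2 m12_3 m22_1 m22_2 m22_3 m32_1 m32_2 m32_3 m33_1 m33_2 m33_3)
    (e0 : 0 < B1)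
    (e1 : 0 < A2)
    (h : SG A1 A2 A3 B1 B2 B3 (m11_1 + m22_1 + m22_1) (m11_2 + m22_2 + m22_2) (m11_3 + m22_3 + m22_3)) :
    F1 n1 n2 n3 A1 A2 A3 B1 B2 B3 ∨ F2 n1 n2 n3 A1 A2 A3 B1 B2 B3 := by
  rcases h with ⟨s1, s2, s3⟩ | ⟨s1, s2, s3⟩ | ⟨s1, s2, s3⟩ | ⟨s1, s2, s3⟩
  · exact (c1_11_22_22_k0 C e0 e1 s1 s2 s3).elim
  · exact (c1_11_22_22_k1 C e0 e1 s1 s2 s3).elim
  · exact (c1_11_22_22_k2 C e0 e1 s1 s2 s3).elim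
  · exact (c1_11_22_22_k3 C e0 e1 s1 s2 s3).elim

theorem tri1_11_22_32 {n1 n2 n3 A1 A2 A3 B1 B2 B3 m11_1 m11_2 m11_3 m12_1 m12_2 m12_3 m22_1 m22_2 m22_3 m32_1 m32_2 m32_3 m33_1 m33_2 m33_3 : ℤ}
    (C : Ctx1 n1 n2 n3 A1 A2 A3 B1 B2 B3 m11_1 m11_2 m11_3 m12_1 m12_2 m12_3 m22_1 m22_2 m22_3 m32_1 m32_2 m32_3 m33_1 m33_2 m33_3)
    (e0 : 0 < B1)
    (e1 : 0 < A2)
    (e2 : 0 < B2)
    (e3 : 0 < A3)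
    (h : SG A1 A2 A3 B1 B2 B3 (m11_1 + m22_1 + m32_1) (m11_2 + m22_2 + m32_2) (m11_3 + m22_3 + m32_3)) :
    F1 n1 n2 n3 A1 A2 A3 B1 B2 B3 ∨ F2 n1 n2 n3 A1 A2 A3 B1 B2 B3 := by
  rcases h with ⟨s1, s2, s3⟩ | ⟨s1, s2, s3⟩ | ⟨s1, s2, s3⟩ | ⟨s1, s2, s3⟩
  · exact (c1_11_22_32_k0 C e0 e1 e2 e3 s1 s2 s3).elim
  · exact (c1_11_22_32_k1 C e0 e1 e2 e3 s1 s2 s3).elim
  · exact (c1_11_22_32_k2 C e0 e1 e2 e3 s1 s2 s3).elim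
  · exact (c1_11_22_32_k3 C e0 e1 e2 e3 s1 s2 s3).elim

theorem tri1_11_22_33 {n1 n2 n3 A1 A2 A3 B1 B2 B3 m11_1 m11_2 m11_3 m12_1 m12_2 m12_3 m22_1 m22_2 m22_3 m32_1 m32_2 m32_3 m33_1 m33_2 m33_3 : ℤ}
    (C : Ctx1 n1 n2 n3 A1 A2 A3 B1 B2 B3 m11_1 m11_2 m11_3 m12_1 m12_2 m12_3 m22_1 m22_2 m22_3 m32_1 m32_2 m32_3 m33_1 m33_2 m33_3)
    (e0 : 0 < B1)
    (e1 : 0 < A2)
    (e2 : 0 < B3)
    (h : SG A1 A2 A3 B1 B2 B3 (m11_1 + m22_1 + m33_1) (m11_2 + m22_2 + m33_2) (m11_3 + m22_3 + m33_3)) :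
    F1 n1 n2 n3 A1 A2 A3 B1 B2 B3 ∨ F2 n1 n2 n3 A1 A2 A3 B1 B2 B3 := by
  rcases h with ⟨s1, s2, s3⟩ | ⟨s1, s2, s3⟩ | ⟨s1, s2, s3⟩ | ⟨s1, s2, s3⟩
  · exact (c1_11_22_33_k0 C e0 e1 e2 s1 s2 s3).elim
  · exact (c1_11_22_33_k1 C e0 e1 e2 s1 s2 s3).elim
  · exact (c1_11_22_33_k2 C e0 e1 e2 s1 s2 s3).elim
  · exact (c1_11_22_33_k3 C e0 e1 e2 s1 s2 s3).elim

theorem tri1_11_32_32 {n1 n2 n3 A1 A2 A3 B1 B2 B3 m11_1 m11_2 m11_3 m12_1 m12_2 m12_3 m22_1 m22_2 m22_3 m32_1 m32_2 m32_3 m33_1 m33_2 m33_3 : ℤ}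
    (C : Ctx1 n1 n2 n3 A1 A2 A3 B1 B2 B3 m11_1 m11_2 m11_3 m12_1 m12_2 m12_3 m22_1 m22_2 m22_3 m32_1 m32_2 m32_3 m33_1 m33_2 m33_3)
    (e0 : 0 < B1)
    (e1 : 0 < B2)
    (e2 : 0 < A3)
    (h : SG A1 A2 A3 B1 B2 B3 (m11_1 + m32_1 + m32_1) (m11_2 + m32_2 + m32_2) (m11_3 + m32_3 + m32_3)) :
    F1 n1 n2 n3 A1 A2 A3 B1 B2 B3 ∨ F2 n1 n2 n3 A1 A2 A3 B1 B2 B3 := by
  rcases h with ⟨s1, s2, s3⟩ | ⟨s1, s2, s3⟩ | ⟨s1, s2, s3⟩ | ⟨s1, s2, s3⟩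
  · exact (c1_11_32_32_k0 C e0 e1 e2 s1 s2 s3).elim
  · exact (c1_11_32_32_k1 C e0 e1 e2 s1 s2 s3).elim
  · exact (c1_11_32_32_k2 C e0 e1 e2 s1 s2 s3).elim
  · exact (c1_11_32_32_k3 C e0 e1 e2 s1 s2 s3).elim

theorem tri1_11_32_33 {n1 n2 n3 A1 A2 A3 B1 B2 B3 m11_1 m11_2 m11_3 m12_1 m12_2 m12_3 m22_1 m22_2 m22_3 m32_1 m32_2 m32_3 m33_1 m33_2 m33_3 : ℤ}
    (C : Ctx1 n1 n2 n3 A1 A2 A3 B1 B2 B3 m11_1 m11_2 m11_3 m12_1 m12_2 m12_3 m22_1 m22_2 m22_3 m32_1 m32_2 m32_3 m33_1 m33_2 m33_3)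
    (e0 : 0 < B1)
    (e1 : 0 < B2)
    (e2 : 0 < A3)
    (e3 : 0 < B3)
    (h : SG A1 A2 A3 B1 B2 B3 (m11_1 + m32_1 + m33_1) (m11_2 + m32_2 + m33_2) (m11_3 + m32_3 + m33_3)) :
    F1 n1 n2 n3 A1 A2 A3 B1 B2 B3 ∨ F2 n1 n2 n3 A1 A2 A3 B1 B2 B3 := by
  rcases h with ⟨s1, s2, s3⟩ | ⟨s1, s2, s3⟩ | ⟨s1, s2, s3⟩ | ⟨s1, s2, s3⟩
  · exact (c1_11_32_33_k0 C e0 e1 e2 e3 s1 s2 s3).elim
  · exact (c1_11_32_33_k1 C e0 e1 e2 e3 s1 s2 s3).elim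
  · exact (c1_11_32_33_k2 C e0 e1 e2 e3 s1 s2 s3).elim
  · exact (c1_11_32_33_k3 C e0 e1 e2 e3 s1 s2 s3).elim

theorem tri1_11_33_33 {n1 n2 n3 A1 A2 A3 B1 B2 B3 m11_1 m11_2 m11_3 m12_1 m12_2 m12_3 m22_1 m22_2 m22_3 m32_1 m32_2 m32_3 m33_1 m33_2 m33_3 : ℤ}
    (C : Ctx1 n1 n2 n3 A1 A2 A3 B1 B2 B3 m11_1 m11_2 m11_3 m12_1 m12_2 m12_3 m22_1 m22_2 m22_3 m32_1 m32_2 m32_3 m33_1 m33_2 m33_3)
    (e0 : 0 < B1)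
    (e1 : 0 < B3)
    (h : SG A1 A2 A3 B1 B2 B3 (m11_1 + m33_1 + m33_1) (m11_2 + m33_2 + m33_2) (m11_3 + m33_3 + m33_3)) :
    F1 n1 n2 n3 A1 A2 A3 B1 B2 B3 ∨ F2 n1 n2 n3 A1 A2 A3 B1 B2 B3 := by
  rcases h with ⟨s1, s2, s3⟩ | ⟨s1, s2, s3⟩ | ⟨s1, s2, s3⟩ | ⟨s1, s2, s3⟩
  · exact (c1_11_33_33_k0 C e0 e1 s1 s2 s3).elim
  · exact (c1_11_33_33_k1 C e0 e1 s1 s2 s3).elim
  · exact (c1_11_33_33_k2 C e0 e1 s1 s2 s3).elim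
  · exact (c1_11_33_33_k3 C e0 e1 s1 s2 s3).elim

theorem tri1_12_12_12 {n1 n2 n3 A1 A2 A3 B1 B2 B3 m11_1 m11_2 m11_3 m12_1 m12_2 m12_3 m22_1 m22_2 m22_3 m32_1 m32_2 m32_3 m33_1 m33_2 m33_3 : ℤ}
    (C : Ctx1 n1 n2 n3 A1 A2 A3 B1 B2 B3 m11_1 m11_2 m11_3 m12_1 m12_2 m12_3 m22_1 m22_2 m22_3 m32_1 m32_2 m32_3 m33_1 m33_2 m33_3)
    (e0 : 0 < A1)
    (e1 : 0 < B2)
    (h : SG A1 A2 A3 B1 B2 B3 (m12_1 + m12_1 + m12_1) (m12_2 + m12_2 + m12_2) (m12_3 + m12_3 + m12_3)) :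
    F1 n1 n2 n3 A1 A2 A3 B1 B2 B3 ∨ F2 n1 n2 n3 A1 A2 A3 B1 B2 B3 := by
  rcases h with ⟨s1, s2, s3⟩ | ⟨s1, s2, s3⟩ | ⟨s1, s2, s3⟩ | ⟨s1, s2, s3⟩
  · exact (c1_12_12_12_k0 C e0 e1 s1 s2 s3).elim
  · exact (c1_12_12_12_k1 C e0 e1 s1 s2 s3).elim
  · exact (c1_12_12_12_k2 C e0 e1 s1 s2 s3).elim
  · exact (c1_12_12_12_k3 C e0 e1 s1 s2 s3).elim

theorem tri1_12_12_22 {n1 n2 n3 A1 A2 A3 B1 B2 B3 m11_1 m11_2 m11_3 m12_1 m12_2 m12_3 m22_1 m22_2 m22_3 m32_1 m32_2 m32_3 m33_1 m33_2 m33_3 : ℤ}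
    (C : Ctx1 n1 n2 n3 A1 A2 A3 B1 B2 B3 m11_1 m11_2 m11_3 m12_1 m12_2 m12_3 m22_1 m22_2 m22_3 m32_1 m32_2 m32_3 m33_1 m33_2 m33_3)
    (e0 : 0 < A1)
    (e1 : 0 < B2)
    (e2 : 0 < A2)
    (h : SG A1 A2 A3 B1 B2 B3 (m12_1 + m12_1 + m22_1) (m12_2 + m12_2 + m22_2) (m12_3 + m12_3 + m22_3)) :
    F1 n1 n2 n3 A1 A2 A3 B1 B2 B3 ∨ F2 n1 n2 n3 A1 A2 A3 B1 B2 B3 := by
  rcases h with ⟨s1, s2, s3⟩ | ⟨s1, s2, s3⟩ | ⟨s1, s2, s3⟩ | ⟨s1, s2, s3⟩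
  · exact (c1_12_12_22_k0 C e0 e1 e2 s1 s2 s3).elim
  · exact (c1_12_12_22_k1 C e0 e1 e2 s1 s2 s3).elim
  · exact (c1_12_12_22_k2 C e0 e1 e2 s1 s2 s3).elim
  · exact (c1_12_12_22_k3 C e0 e1 e2 s1 s2 s3).elim

theorem tri1_12_12_32 {n1 n2 n3 A1 A2 A3 B1 B2 B3 m11_1 m11_2 m11_3 m12_1 m12_2 m12_3 m22_1 m22_2 m22_3 m32_1 m32_2 m32_3 m33_1 m33_2 m33_3 : ℤ}
    (C : Ctx1 n1 n2 n3 A1 A2 A3 B1 B2 B3 m11_1 m11_2 m11_3 m12_1 m12_2 m12_3 m22_1 m22_2 m22_3 m32_1 m32_2 m32_3 m33_1 m33_2 m33_3)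
    (e0 : 0 < A1)
    (e1 : 0 < B2)
    (e2 : 0 < A3)
    (h : SG A1 A2 A3 B1 B2 B3 (m12_1 + m12_1 + m32_1) (m12_2 + m12_2 + m32_2) (m12_3 + m12_3 + m32_3)) :
    F1 n1 n2 n3 A1 A2 A3 B1 B2 B3 ∨ F2 n1 n2 n3 A1 A2 A3 B1 B2 B3 := by
  rcases h with ⟨s1, s2, s3⟩ | ⟨s1, s2, s3⟩ | ⟨s1, s2, s3⟩ | ⟨s1, s2, s3⟩
  · exact (c1_12_12_32_k0 C e0 e1 e2 s1 s2 s3).elim
  · exact (c1_12_12_32_k1 C e0 e1 e2 s1 s2 s3).elim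
  · exact (c1_12_12_32_k2 C e0 e1 e2 s1 s2 s3).elim
  · exact (c1_12_12_32_k3 C e0 e1 e2 s1 s2 s3).elim

theorem tri1_12_12_33 {n1 n2 n3 A1 A2 A3 B1 B2 B3 m11_1 m11_2 m11_3 m12_1 m12_2 m12_3 m22_1 m22_2 m22_3 m32_1 m32_2 m32_3 m33_1 m33_2 m33_3 : ℤ}
    (C : Ctx1 n1 n2 n3 A1 A2 A3 B1 B2 B3 m11_1 m11_2 m11_3 m12_1 m12_2 m12_3 m22_1 m22_2 m22_3 m32_1 m32_2 m32_3 m33_1 m33_2 m33_3)
    (e0 : 0 < A1)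
    (e1 : 0 < B2)
    (e2 : 0 < B3)
    (h : SG A1 A2 A3 B1 B2 B3 (m12_1 + m12_1 + m33_1) (m12_2 + m12_2 + m33_2) (m12_3 + m12_3 + m33_3)) :
    F1 n1 n2 n3 A1 A2 A3 B1 B2 B3 ∨ F2 n1 n2 n3 A1 A2 A3 B1 B2 B3 := by
  rcases h with ⟨s1, s2, s3⟩ | ⟨s1, s2, s3⟩ | ⟨s1, s2, s3⟩ | ⟨s1, s2, s3⟩
  · exact (c1_12_12_33_k0 C e0 e1 e2 s1 s2 s3).elim
  · exact (c1_12_12_33_k1 C e0 e1 e2 s1 s2 s3).elim
  · exact (c1_12_12_33_k2 C e0 e1 e2 s1 s2 s3).elim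
  · exact (c1_12_12_33_k3 C e0 e1 e2 s1 s2 s3).elim

theorem tri1_12_22_22 {n1 n2 n3 A1 A2 A3 B1 B2 B3 m11_1 m11_2 m11_3 m12_1 m12_2 m12_3 m22_1 m22_2 m22_3 m32_1 m32_2 m32_3 m33_1 m33_2 m33_3 : ℤ}
    (C : Ctx1 n1 n2 n3 A1 A2 A3 B1 B2 B3 m11_1 m11_2 m11_3 m12_1 m12_2 m12_3 m22_1 m22_2 m22_3 m32_1 m32_2 m32_3 m33_1 m33_2 m33_3)
    (e0 : 0 < A1)
    (e1 : 0 < B2)
    (e2 : 0 < A2)
    (h : SG A1 A2 A3 B1 B2 B3 (m12_1 + m22_1 + m22_1) (m12_2 + m22_2 + m22_2) (m12_3 + m22_3 + m22_3)) :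
    F1 n1 n2 n3 A1 A2 A3 B1 B2 B3 ∨ F2 n1 n2 n3 A1 A2 A3 B1 B2 B3 := by
  rcases h with ⟨s1, s2, s3⟩ | ⟨s1, s2, s3⟩ | ⟨s1, s2, s3⟩ | ⟨s1, s2, s3⟩
  · exact (c1_12_22_22_k0 C e0 e1 e2 s1 s2 s3).elim
  · exact (c1_12_22_22_k1 C e0 e1 e2 s1 s2 s3).elim
  · exact (c1_12_22_22_k2 C e0 e1 e2 s1 s2 s3).elim
  · exact (c1_12_22_22_k3 C e0 e1 e2 s1 s2 s3).elim

theorem tri1_12_22_32 {n1 n2 n3 A1 A2 A3 B1 B2 B3 m11_1 m11_2 m11_3 m12_1 m12_2 m12_3 m22_1 m22_2 m22_3 m32_1 m32_2 m32_3 m33_1 m33_2 m33_3 : ℤ}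
    (C : Ctx1 n1 n2 n3 A1 A2 A3 B1 B2 B3 m11_1 m11_2 m11_3 m12_1 m12_2 m12_3 m22_1 m22_2 m22_3 m32_1 m32_2 m32_3 m33_1 m33_2 m33_3)
    (e0 : 0 < A1)
    (e1 : 0 < B2)
    (e2 : 0 < A2)
    (e3 : 0 < A3)
    (h : SG A1 A2 A3 B1 B2 B3 (m12_1 + m22_1 + m32_1) (m12_2 + m22_2 + m32_2) (m12_3 + m22_3 + m32_3)) :
    F1 n1 n2 n3 A1 A2 A3 B1 B2 B3 ∨ F2 n1 n2 n3 A1 A2 A3 B1 B2 B3 := by
  rcases h with ⟨s1, s2, s3⟩ | ⟨s1, s2, s3⟩ | ⟨s1, s2, s3⟩ | ⟨s1, s2, s3⟩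
  · exact (c1_12_22_32_k0 C e0 e1 e2 e3 s1 s2 s3).elim
  · exact (c1_12_22_32_k1 C e0 e1 e2 e3 s1 s2 s3).elim
  · exact (c1_12_22_32_k2 C e0 e1 e2 e3 s1 s2 s3).elim
  · exact (c1_12_22_32_k3 C e0 e1 e2 e3 s1 s2 s3).elim

theorem tri1_12_22_33 {n1 n2 n3 A1 A2 A3 B1 B2 B3 m11_1 m11_2 m11_3 m12_1 m12_2 m12_3 m22_1 m22_2 m22_3 m32_1 m32_2 m32_3 m33_1 m33_2 m33_3 : ℤ}
    (C : Ctx1 n1 n2 n3 A1 A2 A3 B1 B2 B3 m11_1 m11_2 m11_3 m12_1 m12_2 m12_3 m22_1 m22_2 m22_3 m32_1 m32_2 m32_3 m33_1 m33_2 m33_3)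
    (e0 : 0 < A1)
    (e1 : 0 < B2)
    (e2 : 0 < A2)
    (e3 : 0 < B3)
    (h : SG A1 A2 A3 B1 B2 B3 (m12_1 + m22_1 + m33_1) (m12_2 + m22_2 + m33_2) (m12_3 + m22_3 + m33_3)) :
    F1 n1 n2 n3 A1 A2 A3 B1 B2 B3 ∨ F2 n1 n2 n3 A1 A2 A3 B1 B2 B3 := by
  rcases h with ⟨s1, s2, s3⟩ | ⟨s1, s2, s3⟩ | ⟨s1, s2, s3⟩ | ⟨s1, s2, s3⟩
  · exact (c1_12_22_33_k0 C e0 e1 e2 e3 s1 s2 s3).elim
  · exact (c1_12_22_33_k1 C e0 e1 e2 e3 s1 s2 s3).elim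
  · exact (c1_12_22_33_k2 C e0 e1 e2 e3 s1 s2 s3).elim
  · exact (c1_12_22_33_k3 C e0 e1 e2 e3 s1 s2 s3).elim

theorem tri1_12_32_32 {n1 n2 n3 A1 A2 A3 B1 B2 B3 m11_1 m11_2 m11_3 m12_1 m12_2 m12_3 m22_1 m22_2 m22_3 m32_1 m32_2 m32_3 m33_1 m33_2 m33_3 : ℤ}
    (C : Ctx1 n1 n2 n3 A1 A2 A3 B1 B2 B3 m11_1 m11_2 m11_3 m12_1 m12_2 m12_3 m22_1 m22_2 m22_3 m32_1 m32_2 m32_3 m33_1 m33_2 m33_3)
    (e0 : 0 < A1)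
    (e1 : 0 < B2)
    (e2 : 0 < A3)
    (h : SG A1 A2 A3 B1 B2 B3 (m12_1 + m32_1 + m32_1) (m12_2 + m32_2 + m32_2) (m12_3 + m32_3 + m32_3)) :
    F1 n1 n2 n3 A1 A2 A3 B1 B2 B3 ∨ F2 n1 n2 n3 A1 A2 A3 B1 B2 B3 := by
  rcases h with ⟨s1, s2, s3⟩ | ⟨s1, s2, s3⟩ | ⟨s1, s2, s3⟩ | ⟨s1, s2, s3⟩
  · exact (c1_12_32_32_k0 C e0 e1 e2 s1 s2 s3).elim
  · exact (c1_12_32_32_k1 C e0 e1 e2 s1 s2 s3).elim
  · exact (c1_12_32_32_k2 C e0 e1 e2 s1 s2 s3).elim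
  · exact (c1_12_32_32_k3 C e0 e1 e2 s1 s2 s3).elim

theorem tri1_12_32_33 {n1 n2 n3 A1 A2 A3 B1 B2 B3 m11_1 m11_2 m11_3 m12_1 m12_2 m12_3 m22_1 m22_2 m22_3 m32_1 m32_2 m32_3 m33_1 m33_2 m33_3 : ℤ}
    (C : Ctx1 n1 n2 n3 A1 A2 A3 B1 B2 B3 m11_1 m11_2 m11_3 m12_1 m12_2 m12_3 m22_1 m22_2 m22_3 m32_1 m32_2 m32_3 m33_1 m33_2 m33_3)
    (e0 : 0 < A1)
    (e1 : 0 < B2)
    (e2 : 0 < A3)
    (e3 : 0 < B3)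
    (h : SG A1 A2 A3 B1 B2 B3 (m12_1 + m32_1 + m33_1) (m12_2 + m32_2 + m33_2) (m12_3 + m32_3 + m33_3)) :
    F1 n1 n2 n3 A1 A2 A3 B1 B2 B3 ∨ F2 n1 n2 n3 A1 A2 A3 B1 B2 B3 := by
  rcases h with ⟨s1, s2, s3⟩ | ⟨s1, s2, s3⟩ | ⟨s1, s2, s3⟩ | ⟨s1, s2, s3⟩
  · exact (c1_12_32_33_k0 C e0 e1 e2 e3 s1 s2 s3).elim
  · exact (c1_12_32_33_k1 C e0 e1 e2 e3 s1 s2 s3).elim
  · exact (c1_12_32_33_k2 C e0 e1 e2 e3 s1 s2 s3).elim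
  · exact (c1_12_32_33_k3 C e0 e1 e2 e3 s1 s2 s3).elim

theorem tri1_12_33_33 {n1 n2 n3 A1 A2 A3 B1 B2 B3 m11_1 m11_2 m11_3 m12_1 m12_2 m12_3 m22_1 m22_2 m22_3 m32_1 m32_2 m32_3 m33_1 m33_2 m33_3 : ℤ}
    (C : Ctx1 n1 n2 n3 A1 A2 A3 B1 B2 B3 m11_1 m11_2 m11_3 m12_1 m12_2 m12_3 m22_1 m22_2 m22_3 m32_1 m32_2 m32_3 m33_1 m33_2 m33_3)
    (e0 : 0 < A1)
    (e1 : 0 < B2)
    (e2 : 0 < B3)
    (h : SG A1 A2 A3 B1 B2 B3 (m12_1 + m33_1 + m33_1) (m12_2 + m33_2 + m33_2) (m12_3 + m33_3 + m33_3)) :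
    F1 n1 n2 n3 A1 A2 A3 B1 B2 B3 ∨ F2 n1 n2 n3 A1 A2 A3 B1 B2 B3 := by
  rcases h with ⟨s1, s2, s3⟩ | ⟨s1, s2, s3⟩ | ⟨s1, s2, s3⟩ | ⟨s1, s2, s3⟩
  · exact (c1_12_33_33_k0 C e0 e1 e2 s1 s2 s3).elim
  · exact (c1_12_33_33_k1 C e0 e1 e2 s1 s2 s3).elim
  · exact (c1_12_33_33_k2 C e0 e1 e2 s1 s2 s3).elim
  · exact (c1_12_33_33_k3 C e0 e1 e2 s1 s2 s3).elim

theorem tri1_22_22_22 {n1 n2 n3 A1 A2 A3 B1 B2 B3 m11_1 m11_2 m11_3 m12_1 m12_2 m12_3 m22_1 m22_2 m22_3 m32_1 m32_2 m32_3 m33_1 m33_2 m33_3 : ℤ}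
    (C : Ctx1 n1 n2 n3 A1 A2 A3 B1 B2 B3 m11_1 m11_2 m11_3 m12_1 m12_2 m12_3 m22_1 m22_2 m22_3 m32_1 m32_2 m32_3 m33_1 m33_2 m33_3)
    (e0 : 0 < A2)
    (h : SG A1 A2 A3 B1 B2 B3 (m22_1 + m22_1 + m22_1) (m22_2 + m22_2 + m22_2) (m22_3 + m22_3 + m22_3)) :
    F1 n1 n2 n3 A1 A2 A3 B1 B2 B3 ∨ F2 n1 n2 n3 A1 A2 A3 B1 B2 B3 := by
  rcases h with ⟨s1, s2, s3⟩ | ⟨s1, s2, s3⟩ | ⟨s1, s2, s3⟩ | ⟨s1, s2, s3⟩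
  · exact (c1_22_22_22_k0 C e0 s1 s2 s3).elim
  · exact (c1_22_22_22_k1 C e0 s1 s2 s3).elim
  · exact (c1_22_22_22_k2 C e0 s1 s2 s3).elim
  · exact (c1_22_22_22_k3 C e0 s1 s2 s3).elim

theorem tri1_22_22_32 {n1 n2 n3 A1 A2 A3 B1 B2 B3 m11_1 m11_2 m11_3 m12_1 m12_2 m12_3 m22_1 m22_2 m22_3 m32_1 m32_2 m32_3 m33_1 m33_2 m33_3 : ℤ}
    (C : Ctx1 n1 n2 n3 A1 A2 A3 B1 B2 B3 m11_1 m11_2 m11_3 m12_1 m12_2 m12_3 m22_1 m22_2 m22_3 m32_1 m32_2 m32_3 m33_1 m33_2 m33_3)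
    (e0 : 0 < A2)
    (e1 : 0 < B2)
    (e2 : 0 < A3)
    (h : SG A1 A2 A3 B1 B2 B3 (m22_1 + m22_1 + m32_1) (m22_2 + m22_2 + m32_2) (m22_3 + m22_3 + m32_3)) :
    F1 n1 n2 n3 A1 A2 A3 B1 B2 B3 ∨ F2 n1 n2 n3 A1 A2 A3 B1 B2 B3 := by
  rcases h with ⟨s1, s2, s3⟩ | ⟨s1, s2, s3⟩ | ⟨s1, s2, s3⟩ | ⟨s1, s2, s3⟩
  · exact (c1_22_22_32_k0 C e0 e1 e2 s1 s2 s3).elim
  · exact (c1_22_22_32_k1 C e0 e1 e2 s1 s2 s3).elim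
  · exact (c1_22_22_32_k2 C e0 e1 e2 s1 s2 s3).elim
  · exact (c1_22_22_32_k3 C e0 e1 e2 s1 s2 s3).elim

theorem tri1_22_22_33 {n1 n2 n3 A1 A2 A3 B1 B2 B3 m11_1 m11_2 m11_3 m12_1 m12_2 m12_3 m22_1 m22_2 m22_3 m32_1 m32_2 m32_3 m33_1 m33_2 m33_3 : ℤ}
    (C : Ctx1 n1 n2 n3 A1 A2 A3 B1 B2 B3 m11_1 m11_2 m11_3 m12_1 m12_2 m12_3 m22_1 m22_2 m22_3 m32_1 m32_2 m32_3 m33_1 m33_2 m33_3)
    (e0 : 0 < A2)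
    (e1 : 0 < B3)
    (h : SG A1 A2 A3 B1 B2 B3 (m22_1 + m22_1 + m33_1) (m22_2 + m22_2 + m33_2) (m22_3 + m22_3 + m33_3)) :
    F1 n1 n2 n3 A1 A2 A3 B1 B2 B3 ∨ F2 n1 n2 n3 A1 A2 A3 B1 B2 B3 := by
  rcases h with ⟨s1, s2, s3⟩ | ⟨s1, s2, s3⟩ | ⟨s1, s2, s3⟩ | ⟨s1, s2, s3⟩
  · exact (c1_22_22_33_k0 C e0 e1 s1 s2 s3).elim
  · exact (c1_22_22_33_k1 C e0 e1 s1 s2 s3).elim
  · exact (c1_22_22_33_k2 C e0 e1 s1 s2 s3).elim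
  · exact (c1_22_22_33_k3 C e0 e1 s1 s2 s3).elim

theorem tri1_22_32_32 {n1 n2 n3 A1 A2 A3 B1 B2 B3 m11_1 m11_2 m11_3 m12_1 m12_2 m12_3 m22_1 m22_2 m22_3 m32_1 m32_2 m32_3 m33_1 m33_2 m33_3 : ℤ}
    (C : Ctx1 n1 n2 n3 A1 A2 A3 B1 B2 B3 m11_1 m11_2 m11_3 m12_1 m12_2 m12_3 m22_1 m22_2 m22_3 m32_1 m32_2 m32_3 m33_1 m33_2 m33_3)
    (e0 : 0 < A2)
    (e1 : 0 < B2)
    (e2 : 0 < A3)
    (h : SG A1 A2 A3 B1 B2 B3 (m22_1 + m32_1 + m32_1) (m22_2 + m32_2 + m32_2) (m22_3 + m32_3 + m32_3)) :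
    F1 n1 n2 n3 A1 A2 A3 B1 B2 B3 ∨ F2 n1 n2 n3 A1 A2 A3 B1 B2 B3 := by
  rcases h with ⟨s1, s2, s3⟩ | ⟨s1, s2, s3⟩ | ⟨s1, s2, s3⟩ | ⟨s1, s2, s3⟩
  · exact (c1_22_32_32_k0 C e0 e1 e2 s1 s2 s3).elim
  · exact (c1_22_32_32_k1 C e0 e1 e2 s1 s2 s3).elim
  · exact (c1_22_32_32_k2 C e0 e1 e2 s1 s2 s3).elim
  · exact (c1_22_32_32_k3 C e0 e1 e2 s1 s2 s3).elim

theorem tri1_22_32_33 {n1 n2 n3 A1 A2 A3 B1 B2 B3 m11_1 m11_2 m11_3 m12_1 m12_2 m12_3 m22_1 m22_2 m22_3 m32_1 m32_2 m32_3 m33_1 m33_2 m33_3 : ℤ}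
    (C : Ctx1 n1 n2 n3 A1 A2 A3 B1 B2 B3 m11_1 m11_2 m11_3 m12_1 m12_2 m12_3 m22_1 m22_2 m22_3 m32_1 m32_2 m32_3 m33_1 m33_2 m33_3)
    (e0 : 0 < A2)
    (e1 : 0 < B2)
    (e2 : 0 < A3)
    (e3 : 0 < B3)
    (h : SG A1 A2 A3 B1 B2 B3 (m22_1 + m32_1 + m33_1) (m22_2 + m32_2 + m33_2) (m22_3 + m32_3 + m33_3)) :
    F1 n1 n2 n3 A1 A2 A3 B1 B2 B3 ∨ F2 n1 n2 n3 A1 A2 A3 B1 B2 B3 := by
  rcases h with ⟨s1, s2, s3⟩ | ⟨s1, s2, s3⟩ | ⟨s1, s2, s3⟩ | ⟨s1, s2, s3⟩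
  · exact (c1_22_32_33_k0 C e0 e1 e2 e3 s1 s2 s3).elim
  · exact (c1_22_32_33_k1 C e0 e1 e2 e3 s1 s2 s3).elim
  · exact (c1_22_32_33_k2 C e0 e1 e2 e3 s1 s2 s3).elim
  · exact (c1_22_32_33_k3 C e0 e1 e2 e3 s1 s2 s3).elim

theorem tri1_22_33_33 {n1 n2 n3 A1 A2 A3 B1 B2 B3 m11_1 m11_2 m11_3 m12_1 m12_2 m12_3 m22_1 m22_2 m22_3 m32_1 m32_2 m32_3 m33_1 m33_2 m33_3 : ℤ}
    (C : Ctx1 n1 n2 n3 A1 A2 A3 B1 B2 B3 m11_1 m11_2 m11_3 m12_1 m12_2 m12_3 m22_1 m22_2 m22_3 m32_1 m32_2 m32_3 m33_1 m33_2 m33_3)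
    (e0 : 0 < A2)
    (e1 : 0 < B3)
    (h : SG A1 A2 A3 B1 B2 B3 (m22_1 + m33_1 + m33_1) (m22_2 + m33_2 + m33_2) (m22_3 + m33_3 + m33_3)) :
    F1 n1 n2 n3 A1 A2 A3 B1 B2 B3 ∨ F2 n1 n2 n3 A1 A2 A3 B1 B2 B3 := by
  rcases h with ⟨s1, s2, s3⟩ | ⟨s1, s2, s3⟩ | ⟨s1, s2, s3⟩ | ⟨s1, s2, s3⟩
  · exact (c1_22_33_33_k0 C e0 e1 s1 s2 s3).elim
  · exact (c1_22_33_33_k1 C e0 e1 s1 s2 s3).elim
  · exact (c1_22_33_33_k2 C e0 e1 s1 s2 s3).elim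
  · exact (c1_22_33_33_k3 C e0 e1 s1 s2 s3).elim

theorem tri1_32_32_32 {n1 n2 n3 A1 A2 A3 B1 B2 B3 m11_1 m11_2 m11_3 m12_1 m12_2 m12_3 m22_1 m22_2 m22_3 m32_1 m32_2 m32_3 m33_1 m33_2 m33_3 : ℤ}
    (C : Ctx1 n1 n2 n3 A1 A2 A3 B1 B2 B3 m11_1 m11_2 m11_3 m12_1 m12_2 m12_3 m22_1 m22_2 m22_3 m32_1 m32_2 m32_3 m33_1 m33_2 m33_3)
    (e0 : 0 < B2)
    (e1 : 0 < A3)
    (h : SG A1 A2 A3 B1 B2 B3 (m32_1 + m32_1 + m32_1) (m32_2 + m32_2 + m32_2) (m32_3 + m32_3 + m32_3)) :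
    F1 n1 n2 n3 A1 A2 A3 B1 B2 B3 ∨ F2 n1 n2 n3 A1 A2 A3 B1 B2 B3 := by
  rcases h with ⟨s1, s2, s3⟩ | ⟨s1, s2, s3⟩ | ⟨s1, s2, s3⟩ | ⟨s1, s2, s3⟩
  · exact (c1_32_32_32_k0 C e0 e1 s1 s2 s3).elim
  · exact (c1_32_32_32_k1 C e0 e1 s1 s2 s3).elim
  · exact (c1_32_32_32_k2 C e0 e1 s1 s2 s3).elim
  · exact (c1_32_32_32_k3 C e0 e1 s1 s2 s3).elim

theorem tri1_32_32_33 {n1 n2 n3 A1 A2 A3 B1 B2 B3 m11_1 m11_2 m11_3 m12_1 m12_2 m12_3 m22_1 m22_2 m22_3 m32_1 m32_2 m32_3 m33_1 m33_2 m33_3 : ℤ}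
    (C : Ctx1 n1 n2 n3 A1 A2 A3 B1 B2 B3 m11_1 m11_2 m11_3 m12_1 m12_2 m12_3 m22_1 m22_2 m22_3 m32_1 m32_2 m32_3 m33_1 m33_2 m33_3)
    (e0 : 0 < B2)
    (e1 : 0 < A3)
    (e2 : 0 < B3)
    (h : SG A1 A2 A3 B1 B2 B3 (m32_1 + m32_1 + m33_1) (m32_2 + m32_2 + m33_2) (m32_3 + m32_3 + m33_3)) :
    F1 n1 n2 n3 A1 A2 A3 B1 B2 B3 ∨ F2 n1 n2 n3 A1 A2 A3 B1 B2 B3 := by
  rcases h with ⟨s1, s2, s3⟩ | ⟨s1, s2, s3⟩ | ⟨s1, s2, s3⟩ | ⟨s1, s2, s3⟩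
  · exact (c1_32_32_33_k0 C e0 e1 e2 s1 s2 s3).elim
  · exact (c1_32_32_33_k1 C e0 e1 e2 s1 s2 s3).elim
  · exact (c1_32_32_33_k2 C e0 e1 e2 s1 s2 s3).elim
  · exact (c1_32_32_33_k3 C e0 e1 e2 s1 s2 s3).elim

theorem tri1_32_33_33 {n1 n2 n3 A1 A2 A3 B1 B2 B3 m11_1 m11_2 m11_3 m12_1 m12_2 m12_3 m22_1 m22_2 m22_3 m32_1 m32_2 m32_3 m33_1 m33_2 m33_3 : ℤ}
    (C : Ctx1 n1 n2 n3 A1 A2 A3 B1 B2 B3 m11_1 m11_2 m11_3 m12_1 m12_2 m12_3 m22_1 m22_2 m22_3 m32_1 m32_2 m32_3 m33_1 m33_2 m33_3)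
    (e0 : 0 < B2)
    (e1 : 0 < A3)
    (e2 : 0 < B3)
    (h : SG A1 A2 A3 B1 B2 B3 (m32_1 + m33_1 + m33_1) (m32_2 + m33_2 + m33_2) (m32_3 + m33_3 + m33_3)) :
    F1 n1 n2 n3 A1 A2 A3 B1 B2 B3 ∨ F2 n1 n2 n3 A1 A2 A3 B1 B2 B3 := by
  rcases h with ⟨s1, s2, s3⟩ | ⟨s1, s2, s3⟩ | ⟨s1, s2, s3⟩ | ⟨s1, s2, s3⟩
  · exact (c1_32_33_33_k0 C e0 e1 e2 s1 s2 s3).elim
  · exact (c1_32_33_33_k1 C e0 e1 e2 s1 s2 s3).elim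
  · exact (c1_32_33_33_k2 C e0 e1 e2 s1 s2 s3).elim
  · exact (c1_32_33_33_k3 C e0 e1 e2 s1 s2 s3).elim

theorem tri1_33_33_33 {n1 n2 n3 A1 A2 A3 B1 B2 B3 m11_1 m11_2 m11_3 m12_1 m12_2 m12_3 m22_1 m22_2 m22_3 m32_1 m32_2 m32_3 m33_1 m33_2 m33_3 : ℤ}
    (C : Ctx1 n1 n2 n3 A1 A2 A3 B1 B2 B3 m11_1 m11_2 m11_3 m12_1 m12_2 m12_3 m22_1 m22_2 m22_3 m32_1 m32_2 m32_3 m33_1 m33_2 m33_3)
    (e0 : 0 < B3)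
    (h : SG A1 A2 A3 B1 B2 B3 (m33_1 + m33_1 + m33_1) (m33_2 + m33_2 + m33_2) (m33_3 + m33_3 + m33_3)) :
    F1 n1 n2 n3 A1 A2 A3 B1 B2 B3 ∨ F2 n1 n2 n3 A1 A2 A3 B1 B2 B3 := by
  rcases h with ⟨s1, s2, s3⟩ | ⟨s1, s2, s3⟩ | ⟨s1, s2, s3⟩ | ⟨s1, s2, s3⟩
  · exact (c1_33_33_33_k0 C e0 s1 s2 s3).elim
  · exact (c1_33_33_33_k1 C e0 s1 s2 s3).elim
  · exact (c1_33_33_33_k2 C e0 s1 s2 s3).elim
  · exact (c1_33_33_33_k3 C e0 s1 s2 s3).elim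

theorem case1 {n1 n2 n3 A1 A2 A3 B1 B2 B3 y1 y2 y3 z1 z2 z3 w1 w2 w3 : ℤ}
    (h0 : 0 ≤ A1)
    (h1 : A1 ≤ n1)
    (h2 : A1 ≤ A2)
    (h3 : A2 ≤ A1 + n2)
    (h4 : A2 ≤ A3)
    (h5 : A3 ≤ A2 + n3)
    (h6 : 0 ≤ B1)
    (h7 : B1 ≤ n1)
    (h8 : B1 ≤ B2)
    (h9 : B2 ≤ B1 + n2)
    (h10 : B2 ≤ B3)
    (h11 : B3 ≤ B2 + n3)
    (h12 : A1 > B1)
    (h13 : A2 < B2)
    (h14 : A3 ≥ B3)
    (h15 : (0 < A1 ∧ A2 < A1 + n2) ∨ (0 < B1 ∧ B2 < B1 + n2))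
    (h16 : (A1 < A2 ∧ A3 < A2 + n3) ∨ (B1 < B2 ∧ B3 < B2 + n3))
    (hN : NT n1 n2 n3 A1 A2 A3 B1 B2 B3)
    (by_ : Bx n1 n2 n3 y1 y2 y3) (ly : Ls A1 A2 A3 B1 B2 B3 y1 y2 y3)
    (bz : Bx n1 n2 n3 z1 z2 z3) (lz : Ls A1 A2 A3 B1 B2 B3 z1 z2 z3)
    (bw : Bx n1 n2 n3 w1 w2 w3) (lw : Ls A1 A2 A3 B1 B2 B3 w1 w2 w3)
    (hS : SG A1 A2 A3 B1 B2 B3 (y1 + z1 + w1) (y2 + z2 + w2) (y3 + z3 + w3)) :
    F1 n1 n2 n3 A1 A2 A3 B1 B2 B3 ∨ F2 n1 n2 n3 A1 A2 A3 B1 B2 B3 := by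
  obtain ⟨m11_1, m11_2, m11_3, m12_1, m12_2, m12_3, m22_1, m22_2, m22_3, m32_1, m32_2, m32_3, m33_1, m33_2, m33_3, C⟩ := exctx1 h0 h1 h2 h3 h4 h5 h6 h7 h8 h9 h10 h11 h12 h13 h14 h15 h16 hN
  rcases cl1 C by_ ly with ⟨ey11_0, qy11_1, qy11_2, qy11_3⟩ | ⟨ey12_0, ey12_1, qy12_1, qy12_2, qy12_3⟩ | ⟨ey22_0, qy22_1, qy22_2, qy22_3⟩ | ⟨ey32_0, ey32_1, qy32_1, qy32_2, qy32_3⟩ | ⟨ey33_0, qy33_1, qy33_2, qy33_3⟩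
  · rcases cl1 C bz lz with ⟨ez11_0, qz11_1, qz11_2, qz11_3⟩ | ⟨ez12_0, ez12_1, qz12_1, qz12_2, qz12_3⟩ | ⟨ez22_0, qz22_1, qz22_2, qz22_3⟩ | ⟨ez32_0, ez32_1, qz32_1, qz32_2, qz32_3⟩ | ⟨ez33_0, qz33_1, qz33_2, qz33_3⟩
    · rcases cl1 C bw lw with ⟨ew11_0, qw11_1, qw11_2, qw11_3⟩ | ⟨ew12_0, ew12_1, qw12_1, qw12_2, qw12_3⟩ | ⟨ew22_0, qw22_1, qw22_2, qw22_3⟩ | ⟨ew32_0, ew32_1, qw32_1, qw32_2, qw32_3⟩ | ⟨ew33_0, qw33_1, qw33_2, qw33_3⟩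
      · exact tri1_11_11_11 C ew11_0 (hS.mono (by linarith) (by linarith) (by linarith))
      · exact tri1_11_11_12 C ey11_0 ew12_0 ew12_1 (hS.mono (by linarith) (by linarith) (by linarith))
      · exact tri1_11_11_22 C ey11_0 ew22_0 (hS.mono (by linarith) (by linarith) (by linarith))
      · exact tri1_11_11_32 C ey11_0 ew32_0 ew32_1 (hS.mono (by linarith) (by linarith) (by linarith))
      · exact tri1_11_11_33 C ey11_0 ew33_0 (hS.mono (by linarith) (by linarith) (by linarith))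
    · rcases cl1 C bw lw with ⟨ew11_0, qw11_1, qw11_2, qw11_3⟩ | ⟨ew12_0, ew12_1, qw12_1, qw12_2, qw12_3⟩ | ⟨ew22_0, qw22_1, qw22_2, qw22_3⟩ | ⟨ew32_0, ew32_1, qw32_1, qw32_2, qw32_3⟩ | ⟨ew33_0, qw33_1, qw33_2, qw33_3⟩
      · exact tri1_11_11_12 C ew11_0 ez12_0 ez12_1 (hS.mono (by linarith) (by linarith) (by linarith))
      · exact tri1_11_12_12 C ey11_0 ew12_0 ew12_1 (hS.mono (by linarith) (by linarith) (by linarith))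
      · exact tri1_11_12_22 C ey11_0 ez12_0 ez12_1 ew22_0 (hS.mono (by linarith) (by linarith) (by linarith))
      · exact tri1_11_12_32 C ey11_0 ez12_0 ez12_1 ew32_1 (hS.mono (by linarith) (by linarith) (by linarith))
      · exact tri1_11_12_33 C ey11_0 ez12_0 ez12_1 ew33_0 (hS.mono (by linarith) (by linarith) (by linarith))
    · rcases cl1 C bw lw with ⟨ew11_0, qw11_1, qw11_2, qw11_3⟩ | ⟨ew12_0, ew12_1, qw12_1, qw12_2, qw12_3⟩ | ⟨ew22_0, qw22_1, qw22_2, qw22_3⟩ | ⟨ew32_0, ew32_1, qw32_1, qw32_2, qw32_3⟩ | ⟨ew33_0, qw33_1, qw33_2, qw33_3⟩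
      · exact tri1_11_11_22 C ew11_0 ez22_0 (hS.mono (by linarith) (by linarith) (by linarith))
      · exact tri1_11_12_22 C ey11_0 ew12_0 ew12_1 ez22_0 (hS.mono (by linarith) (by linarith) (by linarith))
      · exact tri1_11_22_22 C ey11_0 ew22_0 (hS.mono (by linarith) (by linarith) (by linarith))
      · exact tri1_11_22_32 C ey11_0 ez22_0 ew32_0 ew32_1 (hS.mono (by linarith) (by linarith) (by linarith))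
      · exact tri1_11_22_33 C ey11_0 ez22_0 ew33_0 (hS.mono (by linarith) (by linarith) (by linarith))
    · rcases cl1 C bw lw with ⟨ew11_0, qw11_1, qw11_2, qw11_3⟩ | ⟨ew12_0, ew12_1, qw12_1, qw12_2, qw12_3⟩ | ⟨ew22_0, qw22_1, qw22_2, qw22_3⟩ | ⟨ew32_0, ew32_1, qw32_1, qw32_2, qw32_3⟩ | ⟨ew33_0, qw33_1, qw33_2, qw33_3⟩
      · exact tri1_11_11_32 C ew11_0 ez32_0 ez32_1 (hS.mono (by linarith) (by linarith) (by linarith))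
      · exact tri1_11_12_32 C ey11_0 ew12_0 ew12_1 ez32_1 (hS.mono (by linarith) (by linarith) (by linarith))
      · exact tri1_11_22_32 C ey11_0 ew22_0 ez32_0 ez32_1 (hS.mono (by linarith) (by linarith) (by linarith))
      · exact tri1_11_32_32 C ey11_0 ew32_0 ew32_1 (hS.mono (by linarith) (by linarith) (by linarith))
      · exact tri1_11_32_33 C ey11_0 ez32_0 ez32_1 ew33_0 (hS.mono (by linarith) (by linarith) (by linarith))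
    · rcases cl1 C bw lw with ⟨ew11_0, qw11_1, qw11_2, qw11_3⟩ | ⟨ew12_0, ew12_1, qw12_1, qw12_2, qw12_3⟩ | ⟨ew22_0, qw22_1, qw22_2, qw22_3⟩ | ⟨ew32_0, ew32_1, qw32_1, qw32_2, qw32_3⟩ | ⟨ew33_0, qw33_1, qw33_2, qw33_3⟩
      · exact tri1_11_11_33 C ew11_0 ez33_0 (hS.mono (by linarith) (by linarith) (by linarith))
      · exact tri1_11_12_33 C ey11_0 ew12_0 ew12_1 ez33_0 (hS.mono (by linarith) (by linarith) (by linarith))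
      · exact tri1_11_22_33 C ey11_0 ew22_0 ez33_0 (hS.mono (by linarith) (by linarith) (by linarith))
      · exact tri1_11_32_33 C ey11_0 ew32_0 ew32_1 ez33_0 (hS.mono (by linarith) (by linarith) (by linarith))
      · exact tri1_11_33_33 C ey11_0 ew33_0 (hS.mono (by linarith) (by linarith) (by linarith))
  · rcases cl1 C bz lz with ⟨ez11_0, qz11_1, qz11_2, qz11_3⟩ | ⟨ez12_0, ez12_1, qz12_1, qz12_2, qz12_3⟩ | ⟨ez22_0, qz22_1, qz22_2, qz22_3⟩ | ⟨ez32_0, ez32_1, qz32_1, qz32_2, qz32_3⟩ | ⟨ez33_0, qz33_1, qz33_2, qz33_3⟩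
    · rcases cl1 C bw lw with ⟨ew11_0, qw11_1, qw11_2, qw11_3⟩ | ⟨ew12_0, ew12_1, qw12_1, qw12_2, qw12_3⟩ | ⟨ew22_0, qw22_1, qw22_2, qw22_3⟩ | ⟨ew32_0, ew32_1, qw32_1, qw32_2, qw32_3⟩ | ⟨ew33_0, qw33_1, qw33_2, qw33_3⟩
      · exact tri1_11_11_12 C ew11_0 ey12_0 ey12_1 (hS.mono (by linarith) (by linarith) (by linarith))
      · exact tri1_11_12_12 C ez11_0 ew12_0 ew12_1 (hS.mono (by linarith) (by linarith) (by linarith))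
      · exact tri1_11_12_22 C ez11_0 ey12_0 ey12_1 ew22_0 (hS.mono (by linarith) (by linarith) (by linarith))
      · exact tri1_11_12_32 C ez11_0 ey12_0 ey12_1 ew32_1 (hS.mono (by linarith) (by linarith) (by linarith))
      · exact tri1_11_12_33 C ez11_0 ey12_0 ey12_1 ew33_0 (hS.mono (by linarith) (by linarith) (by linarith))
    · rcases cl1 C bw lw with ⟨ew11_0, qw11_1, qw11_2, qw11_3⟩ | ⟨ew12_0, ew12_1, qw12_1, qw12_2, qw12_3⟩ | ⟨ew22_0, qw22_1, qw22_2, qw22_3⟩ | ⟨ew32_0, ew32_1, qw32_1, qw32_2, qw32_3⟩ | ⟨ew33_0, qw33_1, qw33_2, qw33_3⟩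
      · exact tri1_11_12_12 C ew11_0 ey12_0 ey12_1 (hS.mono (by linarith) (by linarith) (by linarith))
      · exact tri1_12_12_12 C ew12_0 ew12_1 (hS.mono (by linarith) (by linarith) (by linarith))
      · exact tri1_12_12_22 C ey12_0 ey12_1 ew22_0 (hS.mono (by linarith) (by linarith) (by linarith))
      · exact tri1_12_12_32 C ey12_0 ey12_1 ew32_1 (hS.mono (by linarith) (by linarith) (by linarith))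
      · exact tri1_12_12_33 C ey12_0 ey12_1 ew33_0 (hS.mono (by linarith) (by linarith) (by linarith))
    · rcases cl1 C bw lw with ⟨ew11_0, qw11_1, qw11_2, qw11_3⟩ | ⟨ew12_0, ew12_1, qw12_1, qw12_2, qw12_3⟩ | ⟨ew22_0, qw22_1, qw22_2, qw22_3⟩ | ⟨ew32_0, ew32_1, qw32_1, qw32_2, qw32_3⟩ | ⟨ew33_0, qw33_1, qw33_2, qw33_3⟩
      · exact tri1_11_12_22 C ew11_0 ey12_0 ey12_1 ez22_0 (hS.mono (by linarith) (by linarith) (by linarith))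
      · exact tri1_12_12_22 C ew12_0 ew12_1 ez22_0 (hS.mono (by linarith) (by linarith) (by linarith))
      · exact tri1_12_22_22 C ey12_0 ey12_1 ew22_0 (hS.mono (by linarith) (by linarith) (by linarith))
      · exact tri1_12_22_32 C ey12_0 ey12_1 ez22_0 ew32_1 (hS.mono (by linarith) (by linarith) (by linarith))
      · exact tri1_12_22_33 C ey12_0 ey12_1 ez22_0 ew33_0 (hS.mono (by linarith) (by linarith) (by linarith))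
    · rcases cl1 C bw lw with ⟨ew11_0, qw11_1, qw11_2, qw11_3⟩ | ⟨ew12_0, ew12_1, qw12_1, qw12_2, qw12_3⟩ | ⟨ew22_0, qw22_1, qw22_2, qw22_3⟩ | ⟨ew32_0, ew32_1, qw32_1, qw32_2, qw32_3⟩ | ⟨ew33_0, qw33_1, qw33_2, qw33_3⟩
      · exact tri1_11_12_32 C ew11_0 ey12_0 ey12_1 ez32_1 (hS.mono (by linarith) (by linarith) (by linarith))
      · exact tri1_12_12_32 C ew12_0 ew12_1 ez32_1 (hS.mono (by linarith) (by linarith) (by linarith))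
      · exact tri1_12_22_32 C ey12_0 ey12_1 ew22_0 ez32_1 (hS.mono (by linarith) (by linarith) (by linarith))
      · exact tri1_12_32_32 C ey12_0 ey12_1 ew32_1 (hS.mono (by linarith) (by linarith) (by linarith))
      · exact tri1_12_32_33 C ey12_0 ey12_1 ez32_1 ew33_0 (hS.mono (by linarith) (by linarith) (by linarith))
    · rcases cl1 C bw lw with ⟨ew11_0, qw11_1, qw11_2, qw11_3⟩ | ⟨ew12_0, ew12_1, qw12_1, qw12_2, qw12_3⟩ | ⟨ew22_0, qw22_1, qw22_2, qw22_3⟩ | ⟨ew32_0, ew32_1, qw32_1, qw32_2, qw32_3⟩ | ⟨ew33_0, qw33_1, qw33_2, qw33_3⟩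
      · exact tri1_11_12_33 C ew11_0 ey12_0 ey12_1 ez33_0 (hS.mono (by linarith) (by linarith) (by linarith))
      · exact tri1_12_12_33 C ew12_0 ew12_1 ez33_0 (hS.mono (by linarith) (by linarith) (by linarith))
      · exact tri1_12_22_33 C ey12_0 ey12_1 ew22_0 ez33_0 (hS.mono (by linarith) (by linarith) (by linarith))
      · exact tri1_12_32_33 C ey12_0 ey12_1 ew32_1 ez33_0 (hS.mono (by linarith) (by linarith) (by linarith))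
      · exact tri1_12_33_33 C ey12_0 ey12_1 ew33_0 (hS.mono (by linarith) (by linarith) (by linarith))
  · rcases cl1 C bz lz with ⟨ez11_0, qz11_1, qz11_2, qz11_3⟩ | ⟨ez12_0, ez12_1, qz12_1, qz12_2, qz12_3⟩ | ⟨ez22_0, qz22_1, qz22_2, qz22_3⟩ | ⟨ez32_0, ez32_1, qz32_1, qz32_2, qz32_3⟩ | ⟨ez33_0, qz33_1, qz33_2, qz33_3⟩
    · rcases cl1 C bw lw with ⟨ew11_0, qw11_1, qw11_2, qw11_3⟩ | ⟨ew12_0, ew12_1, qw12_1, qw12_2, qw12_3⟩ | ⟨ew22_0, qw22_1, qw22_2, qw22_3⟩ | ⟨ew32_0, ew32_1, qw32_1, qw32_2, qw32_3⟩ | ⟨ew33_0, qw33_1, qw33_2, qw33_3⟩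
      · exact tri1_11_11_22 C ew11_0 ey22_0 (hS.mono (by linarith) (by linarith) (by linarith))
      · exact tri1_11_12_22 C ez11_0 ew12_0 ew12_1 ey22_0 (hS.mono (by linarith) (by linarith) (by linarith))
      · exact tri1_11_22_22 C ez11_0 ew22_0 (hS.mono (by linarith) (by linarith) (by linarith))
      · exact tri1_11_22_32 C ez11_0 ey22_0 ew32_0 ew32_1 (hS.mono (by linarith) (by linarith) (by linarith))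
      · exact tri1_11_22_33 C ez11_0 ey22_0 ew33_0 (hS.mono (by linarith) (by linarith) (by linarith))
    · rcases cl1 C bw lw with ⟨ew11_0, qw11_1, qw11_2, qw11_3⟩ | ⟨ew12_0, ew12_1, qw12_1, qw12_2, qw12_3⟩ | ⟨ew22_0, qw22_1, qw22_2, qw22_3⟩ | ⟨ew32_0, ew32_1, qw32_1, qw32_2, qw32_3⟩ | ⟨ew33_0, qw33_1, qw33_2, qw33_3⟩
      · exact tri1_11_12_22 C ew11_0 ez12_0 ez12_1 ey22_0 (hS.mono (by linarith) (by linarith) (by linarith))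
      · exact tri1_12_12_22 C ew12_0 ew12_1 ey22_0 (hS.mono (by linarith) (by linarith) (by linarith))
      · exact tri1_12_22_22 C ez12_0 ez12_1 ew22_0 (hS.mono (by linarith) (by linarith) (by linarith))
      · exact tri1_12_22_32 C ez12_0 ez12_1 ey22_0 ew32_1 (hS.mono (by linarith) (by linarith) (by linarith))
      · exact tri1_12_22_33 C ez12_0 ez12_1 ey22_0 ew33_0 (hS.mono (by linarith) (by linarith) (by linarith))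
    · rcases cl1 C bw lw with ⟨ew11_0, qw11_1, qw11_2, qw11_3⟩ | ⟨ew12_0, ew12_1, qw12_1, qw12_2, qw12_3⟩ | ⟨ew22_0, qw22_1, qw22_2, qw22_3⟩ | ⟨ew32_0, ew32_1, qw32_1, qw32_2, qw32_3⟩ | ⟨ew33_0, qw33_1, qw33_2, qw33_3⟩
      · exact tri1_11_22_22 C ew11_0 ey22_0 (hS.mono (by linarith) (by linarith) (by linarith))
      · exact tri1_12_22_22 C ew12_0 ew12_1 ey22_0 (hS.mono (by linarith) (by linarith) (by linarith))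
      · exact tri1_22_22_22 C ew22_0 (hS.mono (by linarith) (by linarith) (by linarith))
      · exact tri1_22_22_32 C ey22_0 ew32_0 ew32_1 (hS.mono (by linarith) (by linarith) (by linarith))
      · exact tri1_22_22_33 C ey22_0 ew33_0 (hS.mono (by linarith) (by linarith) (by linarith))
    · rcases cl1 C bw lw with ⟨ew11_0, qw11_1, qw11_2, qw11_3⟩ | ⟨ew12_0, ew12_1, qw12_1, qw12_2, qw12_3⟩ | ⟨ew22_0, qw22_1, qw22_2, qw22_3⟩ | ⟨ew32_0, ew32_1, qw32_1, qw32_2, qw32_3⟩ | ⟨ew33_0, qw33_1, qw33_2, qw33_3⟩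
      · exact tri1_11_22_32 C ew11_0 ey22_0 ez32_0 ez32_1 (hS.mono (by linarith) (by linarith) (by linarith))
      · exact tri1_12_22_32 C ew12_0 ew12_1 ey22_0 ez32_1 (hS.mono (by linarith) (by linarith) (by linarith))
      · exact tri1_22_22_32 C ew22_0 ez32_0 ez32_1 (hS.mono (by linarith) (by linarith) (by linarith))
      · exact tri1_22_32_32 C ey22_0 ew32_0 ew32_1 (hS.mono (by linarith) (by linarith) (by linarith))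
      · exact tri1_22_32_33 C ey22_0 ez32_0 ez32_1 ew33_0 (hS.mono (by linarith) (by linarith) (by linarith))
    · rcases cl1 C bw lw with ⟨ew11_0, qw11_1, qw11_2, qw11_3⟩ | ⟨ew12_0, ew12_1, qw12_1, qw12_2, qw12_3⟩ | ⟨ew22_0, qw22_1, qw22_2, qw22_3⟩ | ⟨ew32_0, ew32_1, qw32_1, qw32_2, qw32_3⟩ | ⟨ew33_0, qw33_1, qw33_2, qw33_3⟩
      · exact tri1_11_22_33 C ew11_0 ey22_0 ez33_0 (hS.mono (by linarith) (by linarith) (by linarith))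
      · exact tri1_12_22_33 C ew12_0 ew12_1 ey22_0 ez33_0 (hS.mono (by linarith) (by linarith) (by linarith))
      · exact tri1_22_22_33 C ew22_0 ez33_0 (hS.mono (by linarith) (by linarith) (by linarith))
      · exact tri1_22_32_33 C ey22_0 ew32_0 ew32_1 ez33_0 (hS.mono (by linarith) (by linarith) (by linarith))
      · exact tri1_22_33_33 C ey22_0 ew33_0 (hS.mono (by linarith) (by linarith) (by linarith))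
  · rcases cl1 C bz lz with ⟨ez11_0, qz11_1, qz11_2, qz11_3⟩ | ⟨ez12_0, ez12_1, qz12_1, qz12_2, qz12_3⟩ | ⟨ez22_0, qz22_1, qz22_2, qz22_3⟩ | ⟨ez32_0, ez32_1, qz32_1, qz32_2, qz32_3⟩ | ⟨ez33_0, qz33_1, qz33_2, qz33_3⟩
    · rcases cl1 C bw lw with ⟨ew11_0, qw11_1, qw11_2, qw11_3⟩ | ⟨ew12_0, ew12_1, qw12_1, qw12_2, qw12_3⟩ | ⟨ew22_0, qw22_1, qw22_2, qw22_3⟩ | ⟨ew32_0, ew32_1, qw32_1, qw32_2, qw32_3⟩ | ⟨ew33_0, qw33_1, qw33_2, qw33_3⟩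
      · exact tri1_11_11_32 C ew11_0 ey32_0 ey32_1 (hS.mono (by linarith) (by linarith) (by linarith))
      · exact tri1_11_12_32 C ez11_0 ew12_0 ew12_1 ey32_1 (hS.mono (by linarith) (by linarith) (by linarith))
      · exact tri1_11_22_32 C ez11_0 ew22_0 ey32_0 ey32_1 (hS.mono (by linarith) (by linarith) (by linarith))
      · exact tri1_11_32_32 C ez11_0 ew32_0 ew32_1 (hS.mono (by linarith) (by linarith) (by linarith))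
      · exact tri1_11_32_33 C ez11_0 ey32_0 ey32_1 ew33_0 (hS.mono (by linarith) (by linarith) (by linarith))
    · rcases cl1 C bw lw with ⟨ew11_0, qw11_1, qw11_2, qw11_3⟩ | ⟨ew12_0, ew12_1, qw12_1, qw12_2, qw12_3⟩ | ⟨ew22_0, qw22_1, qw22_2, qw22_3⟩ | ⟨ew32_0, ew32_1, qw32_1, qw32_2, qw32_3⟩ | ⟨ew33_0, qw33_1, qw33_2, qw33_3⟩
      · exact tri1_11_12_32 C ew11_0 ez12_0 ez12_1 ey32_1 (hS.mono (by linarith) (by linarith) (by linarith))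
      · exact tri1_12_12_32 C ew12_0 ew12_1 ey32_1 (hS.mono (by linarith) (by linarith) (by linarith))
      · exact tri1_12_22_32 C ez12_0 ez12_1 ew22_0 ey32_1 (hS.mono (by linarith) (by linarith) (by linarith))
      · exact tri1_12_32_32 C ez12_0 ez12_1 ew32_1 (hS.mono (by linarith) (by linarith) (by linarith))
      · exact tri1_12_32_33 C ez12_0 ez12_1 ey32_1 ew33_0 (hS.mono (by linarith) (by linarith) (by linarith))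
    · rcases cl1 C bw lw with ⟨ew11_0, qw11_1, qw11_2, qw11_3⟩ | ⟨ew12_0, ew12_1, qw12_1, qw12_2, qw12_3⟩ | ⟨ew22_0, qw22_1, qw22_2, qw22_3⟩ | ⟨ew32_0, ew32_1, qw32_1, qw32_2, qw32_3⟩ | ⟨ew33_0, qw33_1, qw33_2, qw33_3⟩
      · exact tri1_11_22_32 C ew11_0 ez22_0 ey32_0 ey32_1 (hS.mono (by linarith) (by linarith) (by linarith))
      · exact tri1_12_22_32 C ew12_0 ew12_1 ez22_0 ey32_1 (hS.mono (by linarith) (by linarith) (by linarith))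
      · exact tri1_22_22_32 C ew22_0 ey32_0 ey32_1 (hS.mono (by linarith) (by linarith) (by linarith))
      · exact tri1_22_32_32 C ez22_0 ew32_0 ew32_1 (hS.mono (by linarith) (by linarith) (by linarith))
      · exact tri1_22_32_33 C ez22_0 ey32_0 ey32_1 ew33_0 (hS.mono (by linarith) (by linarith) (by linarith))
    · rcases cl1 C bw lw with ⟨ew11_0, qw11_1, qw11_2, qw11_3⟩ | ⟨ew12_0, ew12_1, qw12_1, qw12_2, qw12_3⟩ | ⟨ew22_0, qw22_1, qw22_2, qw22_3⟩ | ⟨ew32_0, ew32_1, qw32_1, qw32_2, qw32_3⟩ | ⟨ew33_0, qw33_1, qw33_2, qw33_3⟩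
      · exact tri1_11_32_32 C ew11_0 ey32_0 ey32_1 (hS.mono (by linarith) (by linarith) (by linarith))
      · exact tri1_12_32_32 C ew12_0 ew12_1 ey32_1 (hS.mono (by linarith) (by linarith) (by linarith))
      · exact tri1_22_32_32 C ew22_0 ey32_0 ey32_1 (hS.mono (by linarith) (by linarith) (by linarith))
      · exact tri1_32_32_32 C ew32_0 ew32_1 (hS.mono (by linarith) (by linarith) (by linarith))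
      · exact tri1_32_32_33 C ey32_0 ey32_1 ew33_0 (hS.mono (by linarith) (by linarith) (by linarith))
    · rcases cl1 C bw lw with ⟨ew11_0, qw11_1, qw11_2, qw11_3⟩ | ⟨ew12_0, ew12_1, qw12_1, qw12_2, qw12_3⟩ | ⟨ew22_0, qw22_1, qw22_2, qw22_3⟩ | ⟨ew32_0, ew32_1, qw32_1, qw32_2, qw32_3⟩ | ⟨ew33_0, qw33_1, qw33_2, qw33_3⟩
      · exact tri1_11_32_33 C ew11_0 ey32_0 ey32_1 ez33_0 (hS.mono (by linarith) (by linarith) (by linarith))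
      · exact tri1_12_32_33 C ew12_0 ew12_1 ey32_1 ez33_0 (hS.mono (by linarith) (by linarith) (by linarith))
      · exact tri1_22_32_33 C ew22_0 ey32_0 ey32_1 ez33_0 (hS.mono (by linarith) (by linarith) (by linarith))
      · exact tri1_32_32_33 C ew32_0 ew32_1 ez33_0 (hS.mono (by linarith) (by linarith) (by linarith))
      · exact tri1_32_33_33 C ey32_0 ey32_1 ew33_0 (hS.mono (by linarith) (by linarith) (by linarith))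
  · rcases cl1 C bz lz with ⟨ez11_0, qz11_1, qz11_2, qz11_3⟩ | ⟨ez12_0, ez12_1, qz12_1, qz12_2, qz12_3⟩ | ⟨ez22_0, qz22_1, qz22_2, qz22_3⟩ | ⟨ez32_0, ez32_1, qz32_1, qz32_2, qz32_3⟩ | ⟨ez33_0, qz33_1, qz33_2, qz33_3⟩
    · rcases cl1 C bw lw with ⟨ew11_0, qw11_1, qw11_2, qw11_3⟩ | ⟨ew12_0, ew12_1, qw12_1, qw12_2, qw12_3⟩ | ⟨ew22_0, qw22_1, qw22_2, qw22_3⟩ | ⟨ew32_0, ew32_1, qw32_1, qw32_2, qw32_3⟩ | ⟨ew33_0, qw33_1, qw33_2, qw33_3⟩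
      · exact tri1_11_11_33 C ew11_0 ey33_0 (hS.mono (by linarith) (by linarith) (by linarith))
      · exact tri1_11_12_33 C ez11_0 ew12_0 ew12_1 ey33_0 (hS.mono (by linarith) (by linarith) (by linarith))
      · exact tri1_11_22_33 C ez11_0 ew22_0 ey33_0 (hS.mono (by linarith) (by linarith) (by linarith))
      · exact tri1_11_32_33 C ez11_0 ew32_0 ew32_1 ey33_0 (hS.mono (by linarith) (by linarith) (by linarith))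
      · exact tri1_11_33_33 C ez11_0 ew33_0 (hS.mono (by linarith) (by linarith) (by linarith))
    · rcases cl1 C bw lw with ⟨ew11_0, qw11_1, qw11_2, qw11_3⟩ | ⟨ew12_0, ew12_1, qw12_1, qw12_2, qw12_3⟩ | ⟨ew22_0, qw22_1, qw22_2, qw22_3⟩ | ⟨ew32_0, ew32_1, qw32_1, qw32_2, qw32_3⟩ | ⟨ew33_0, qw33_1, qw33_2, qw33_3⟩
      · exact tri1_11_12_33 C ew11_0 ez12_0 ez12_1 ey33_0 (hS.mono (by linarith) (by linarith) (by linarith))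
      · exact tri1_12_12_33 C ew12_0 ew12_1 ey33_0 (hS.mono (by linarith) (by linarith) (by linarith))
      · exact tri1_12_22_33 C ez12_0 ez12_1 ew22_0 ey33_0 (hS.mono (by linarith) (by linarith) (by linarith))
      · exact tri1_12_32_33 C ez12_0 ez12_1 ew32_1 ey33_0 (hS.mono (by linarith) (by linarith) (by linarith))
      · exact tri1_12_33_33 C ez12_0 ez12_1 ew33_0 (hS.mono (by linarith) (by linarith) (by linarith))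
    · rcases cl1 C bw lw with ⟨ew11_0, qw11_1, qw11_2, qw11_3⟩ | ⟨ew12_0, ew12_1, qw12_1, qw12_2, qw12_3⟩ | ⟨ew22_0, qw22_1, qw22_2, qw22_3⟩ | ⟨ew32_0, ew32_1, qw32_1, qw32_2, qw32_3⟩ | ⟨ew33_0, qw33_1, qw33_2, qw33_3⟩
      · exact tri1_11_22_33 C ew11_0 ez22_0 ey33_0 (hS.mono (by linarith) (by linarith) (by linarith))
      · exact tri1_12_22_33 C ew12_0 ew12_1 ez22_0 ey33_0 (hS.mono (by linarith) (by linarith) (by linarith))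
      · exact tri1_22_22_33 C ew22_0 ey33_0 (hS.mono (by linarith) (by linarith) (by linarith))
      · exact tri1_22_32_33 C ez22_0 ew32_0 ew32_1 ey33_0 (hS.mono (by linarith) (by linarith) (by linarith))
      · exact tri1_22_33_33 C ez22_0 ew33_0 (hS.mono (by linarith) (by linarith) (by linarith))
    · rcases cl1 C bw lw with ⟨ew11_0, qw11_1, qw11_2, qw11_3⟩ | ⟨ew12_0, ew12_1, qw12_1, qw12_2, qw12_3⟩ | ⟨ew22_0, qw22_1, qw22_2, qw22_3⟩ | ⟨ew32_0, ew32_1, qw32_1, qw32_2, qw32_3⟩ | ⟨ew33_0, qw33_1, qw33_2, qw33_3⟩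
      · exact tri1_11_32_33 C ew11_0 ez32_0 ez32_1 ey33_0 (hS.mono (by linarith) (by linarith) (by linarith))
      · exact tri1_12_32_33 C ew12_0 ew12_1 ez32_1 ey33_0 (hS.mono (by linarith) (by linarith) (by linarith))
      · exact tri1_22_32_33 C ew22_0 ez32_0 ez32_1 ey33_0 (hS.mono (by linarith) (by linarith) (by linarith))
      · exact tri1_32_32_33 C ew32_0 ew32_1 ey33_0 (hS.mono (by linarith) (by linarith) (by linarith))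
      · exact tri1_32_33_33 C ez32_0 ez32_1 ew33_0 (hS.mono (by linarith) (by linarith) (by linarith))
    · rcases cl1 C bw lw with ⟨ew11_0, qw11_1, qw11_2, qw11_3⟩ | ⟨ew12_0, ew12_1, qw12_1, qw12_2, qw12_3⟩ | ⟨ew22_0, qw22_1, qw22_2, qw22_3⟩ | ⟨ew32_0, ew32_1, qw32_1, qw32_2, qw32_3⟩ | ⟨ew33_0, qw33_1, qw33_2, qw33_3⟩
      · exact tri1_11_33_33 C ew11_0 ey33_0 (hS.mono (by linarith) (by linarith) (by linarith))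
      · exact tri1_12_33_33 C ew12_0 ew12_1 ey33_0 (hS.mono (by linarith) (by linarith) (by linarith))
      · exact tri1_22_33_33 C ew22_0 ey33_0 (hS.mono (by linarith) (by linarith) (by linarith))
      · exact tri1_32_33_33 C ew32_0 ew32_1 ey33_0 (hS.mono (by linarith) (by linarith) (by linarith))
      · exact tri1_33_33_33 C ew33_0 (hS.mono (by linarith) (by linarith) (by linarith))

end Pool.Agent.Helper89.TQ
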