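import Pool.Agent.Helper89.TQ.Ctx

set_option autoImplicit false
set_option linter.all false
set_option maxHeartbeats 4000000

namespace Pool.Agent.Helper89.TQ

theorem c2_11_12_12_k0 {n1 n2 n3 A1 A2 A3 B1 B2 B3 m11_1 m11_2 m11_3 m12_1 m12_2 m12_3 m13_1 m13_2 m13_3 m22_1 m22_2 m22_3 m33_1 m33_2 m33_3 : ℤ}
    (C : Ctx2 n1 n2 n3 A1 A2 A3 B1 B2 B3 m11_1 m11_2 m11_3 m12_1 m12_2 m12_3 m13_1 m13_2 m13_3 m22_1 m22_2 m22_3 m33_1 m33_2 m33_3)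
    (e0 : 0 < B1)
    (e1 : 0 < A1)
    (e2 : 0 < B2)
    (s1 : 0 * A1 + 3 * B1 ≤ m11_1 + m12_1 + m12_1)
    (s2 : 0 * A2 + 3 * B2 ≤ m11_2 + m12_2 + m12_2)
    (s3 : 0 * A3 + 3 * B3 ≤ m11_3 + m12_3 + m12_3) : False := by
  have d4 : ((0 ≤ 0 - B1)) ∨ ((0 ≤ 0 - A1)) ∨ ((0 ≤ 0 - B2)) ∨ ((0 ≤ -1 + 2 * B1 - m11_1 - m12_1)) ∨ ((0 ≤ -1 + 2 * B2 - m11_2 - m12_2)) ∨ ((0 ≤ -1 + 2 * B3 - m11_3 - m12_3)) := by
    have h := C.p11_12B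
    clear C e0 e1 e2 s1 s2 s3
    omega
  rcases d4 with g1 | g2 | g3 | g4 | g5 | g6
  · linarith only [g1, e0]
  · linarith only [g2, e1]
  · linarith only [g3, e2]
  · linarith only [g4, s1, C.f11_0]
  · linarith only [g5, s2, C.f12_4]
  · linarith only [s3, s2, C.f11_2, C.f12_4, C.f12_6, g6]

theorem c2_11_12_12_k1 {n1 n2 n3 A1 A2 A3 B1 B2 B3 m11_1 m11_2 m11_3 m12_1 m12_2 m12_3 m13_1 m13_2 m13_3 m22_1 m22_2 m22_3 m33_1 m33_2 m33_3 : ℤ}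
    (C : Ctx2 n1 n2 n3 A1 A2 A3 B1 B2 B3 m11_1 m11_2 m11_3 m12_1 m12_2 m12_3 m13_1 m13_2 m13_3 m22_1 m22_2 m22_3 m33_1 m33_2 m33_3)
    (e0 : 0 < B1)
    (e1 : 0 < A1)
    (e2 : 0 < B2)
    (s1 : 1 * A1 + 2 * B1 ≤ m11_1 + m12_1 + m12_1)
    (s2 : 1 * A2 + 2 * B2 ≤ m11_2 + m12_2 + m12_2)
    (s3 : 1 * A3 + 2 * B3 ≤ m11_3 + m12_3 + m12_3) : False := by
  have d4 : ((0 ≤ 0 - B1)) ∨ ((0 ≤ 0 - A1)) ∨ ((0 ≤ 0 - B2)) ∨ ((0 ≤ -1 + 2 * B1 - m11_1 - m12_1)) ∨ ((0 ≤ -1 + 2 * B2 - m11_2 - m12_2)) ∨ ((0 ≤ -1 + 2 * B3 - m11_3 - m12_3)) := by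
    have h := C.p11_12B
    clear C e0 e1 e2 s1 s2 s3
    omega
  have d5 : ((0 ≤ 0 - A1)) ∨ ((0 ≤ 1 - A1 + A2 - n2)) ∨ ((0 ≤ 0 + B1 - n1)) ∨ ((0 ≤ 1 + B1 - B2)) ∨ ((0 ≤ 1 + A2 - B2) ∧ (0 ≤ 1 + A3 - B3)) ∨ ((0 ≤ 1 - A1 + B1)) := by
    have h := C.tpmm
    clear C e0 e1 e2 s1 s2 s3
    omega
  rcases d5 with g1 | g2 | g3 | g4 | ⟨g5, g6⟩ | g7
  · linarith only [g1, e1]
  · linarith only [g2, s1, s2, C.f11_0, C.f11_1, C.f12_0, C.f12_4]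
  · linarith only [g3, s1, C.a1, C.f11_0, C.f12_0]
  · linarith only [C.o1, s1, C.a2, g4, C.f11_0, C.f12_0]
  · rcases d4 with g8 | g9 | g10 | g11 | g12 | g13
    · linarith only [g8, e0]
    · linarith only [g9, e1]
    · linarith only [g10, e2]
    · linarith only [g11, s1, C.f12_0]
    · linarith only [g12, s2, g5, C.f12_4]
    · linarith only [s3, s2, g5, g6, C.f11_2, C.f12_4, C.f12_6, g13]
  · linarith only [g7, s1, C.f11_0, C.f12_0]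

theorem c2_11_12_12_k2 {n1 n2 n3 A1 A2 A3 B1 B2 B3 m11_1 m11_2 m11_3 m12_1 m12_2 m12_3 m13_1 m13_2 m13_3 m22_1 m22_2 m22_3 m33_1 m33_2 m33_3 : ℤ}
    (C : Ctx2 n1 n2 n3 A1 A2 A3 B1 B2 B3 m11_1 m11_2 m11_3 m12_1 m12_2 m12_3 m13_1 m13_2 m13_3 m22_1 m22_2 m22_3 m33_1 m33_2 m33_3)
    (e0 : 0 < B1)
    (e1 : 0 < A1)
    (e2 : 0 < B2)
    (s1 : 2 * A1 + 1 * B1 ≤ m11_1 + m12_1 + m12_1)
    (s2 : 2 * A2 + 1 * B2 ≤ m11_2 + m12_2 + m12_2)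
    (s3 : 2 * A3 + 1 * B3 ≤ m11_3 + m12_3 + m12_3) : False := by
  linarith only [C.f12_0, s1, C.f11_0]

theorem c2_11_12_12_k3 {n1 n2 n3 A1 A2 A3 B1 B2 B3 m11_1 m11_2 m11_3 m12_1 m12_2 m12_3 m13_1 m13_2 m13_3 m22_1 m22_2 m22_3 m33_1 m33_2 m33_3 : ℤ}
    (C : Ctx2 n1 n2 n3 A1 A2 A3 B1 B2 B3 m11_1 m11_2 m11_3 m12_1 m12_2 m12_3 m13_1 m13_2 m13_3 m22_1 m22_2 m22_3 m33_1 m33_2 m33_3)
    (e0 : 0 < B1)
    (e1 : 0 < A1)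
    (e2 : 0 < B2)
    (s1 : 3 * A1 + 0 * B1 ≤ m11_1 + m12_1 + m12_1)
    (s2 : 3 * A2 + 0 * B2 ≤ m11_2 + m12_2 + m12_2)
    (s3 : 3 * A3 + 0 * B3 ≤ m11_3 + m12_3 + m12_3) : False := by
  linarith only [C.f12_0, s1, C.o0, C.f11_0]

theorem c2_11_12_13_k0 {n1 n2 n3 A1 A2 A3 B1 B2 B3 m11_1 m11_2 m11_3 m12_1 m12_2 m12_3 m13_1 m13_2 m13_3 m22_1 m22_2 m22_3 m33_1 m33_2 m33_3 : ℤ}
    (C : Ctx2 n1 n2 n3 A1 A2 A3 B1 B2 B3 m11_1 m11_2 m11_3 m12_1 m12_2 m12_3 m13_1 m13_2 m13_3 m22_1 m22_2 m22_3 m33_1 m33_2 m33_3)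
    (e0 : 0 < B1)
    (e1 : 0 < A1)
    (e2 : 0 < B2)
    (e3 : 0 < B3)
    (s1 : 0 * A1 + 3 * B1 ≤ m11_1 + m12_1 + m13_1)
    (s2 : 0 * A2 + 3 * B2 ≤ m11_2 + m12_2 + m13_2)
    (s3 : 0 * A3 + 3 * B3 ≤ m11_3 + m12_3 + m13_3) : False := by
  have d2 : ((0 ≤ 1 - A1 + m12_1) ∧ (0 ≤ -1 + A1 - m12_1)) ∨ ((0 ≤ 1 - B2 + m12_1) ∧ (0 ≤ -1 + B2 - m12_1)) := by
    have h := C.f12_2
    clear C e0 e1 e2 e3 s1 s2 s3
    omega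
  have d3 : ((0 ≤ 0 - m12_1 + m12_2 - n2) ∧ (0 ≤ 0 + m12_1 - m12_2 + n2)) ∨ ((0 ≤ 1 - B2 + m12_2) ∧ (0 ≤ -1 + B2 - m12_2)) := by
    have h := C.f12_5
    clear C e0 e1 e2 e3 s1 s2 s3
    omega
  have d4 : ((0 ≤ 1 - A1 + m13_1) ∧ (0 ≤ -1 + A1 - m13_1)) ∨ ((0 ≤ 1 - B3 + m13_1) ∧ (0 ≤ -1 + B3 - m13_1)) := by
    have h := C.f13_2
    clear C e0 e1 e2 e3 s1 s2 s3
    omega
  have d6 : ((0 ≤ 0 - m13_2 + m13_3 - n3) ∧ (0 ≤ 0 + m13_2 - m13_3 + n3)) ∨ ((0 ≤ 1 - B3 + m13_3) ∧ (0 ≤ -1 + B3 - m13_3)) := by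
    have h := C.f13_8
    clear C e0 e1 e2 e3 s1 s2 s3
    omega
  have d7 : ((0 ≤ 0 - B1)) ∨ ((0 ≤ 0 - A1)) ∨ ((0 ≤ 0 - B3)) ∨ ((0 ≤ -1 + 2 * B1 - m11_1 - m13_1)) ∨ ((0 ≤ -1 + 2 * B2 - m11_2 - m13_2)) ∨ ((0 ≤ -1 + 2 * B3 - m11_3 - m13_3)) := by
    have h := C.p11_13B
    clear C e0 e1 e2 e3 s1 s2 s3
    omega
  rcases d2 with ⟨g1, g2⟩ | ⟨g3, g4⟩
  · rcases d3 with ⟨g5, g6⟩ | ⟨g7, g8⟩
    · linarith only [s2, s1, C.f11_0, C.f11_1, g1, g5, C.f12_4, C.f13_0, C.f13_3]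
    · rcases d4 with ⟨g9, g10⟩ | ⟨g11, g12⟩
      · rcases d7 with g13 | g14 | g15 | g16 | g17 | g18
        · linarith only [g13, e0]
        · linarith only [g14, e1]
        · linarith only [g15, e3]
        · linarith only [g16, s1, C.f11_0, g2, g9]
        · linarith only [g17, s2, g8]
        · rcases d6 with ⟨g19, g20⟩ | ⟨g21, g22⟩
          · linarith only [s2, s3, C.f11_2, g8, C.f12_6, g19, g18]
          · linarith only [C.b3, s3, C.f11_0, C.f11_1, C.f11_2, g8, C.f12_6, g21, g18]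
      · linarith only [C.a4, C.a2, C.o2, C.f13_0, g11]
  · linarith only [C.a2, C.o1, C.f12_0, g3]

theorem c2_11_12_13_k1 {n1 n2 n3 A1 A2 A3 B1 B2 B3 m11_1 m11_2 m11_3 m12_1 m12_2 m12_3 m13_1 m13_2 m13_3 m22_1 m22_2 m22_3 m33_1 m33_2 m33_3 : ℤ}
    (C : Ctx2 n1 n2 n3 A1 A2 A3 B1 B2 B3 m11_1 m11_2 m11_3 m12_1 m12_2 m12_3 m13_1 m13_2 m13_3 m22_1 m22_2 m22_3 m33_1 m33_2 m33_3)
    (e0 : 0 < B1)
    (e1 : 0 < A1)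
    (e2 : 0 < B2)
    (e3 : 0 < B3)
    (s1 : 1 * A1 + 2 * B1 ≤ m11_1 + m12_1 + m13_1)
    (s2 : 1 * A2 + 2 * B2 ≤ m11_2 + m12_2 + m13_2)
    (s3 : 1 * A3 + 2 * B3 ≤ m11_3 + m12_3 + m13_3) : False := by
  have d6 : ((0 ≤ 0 - m13_2 + m13_3 - n3) ∧ (0 ≤ 0 + m13_2 - m13_3 + n3)) ∨ ((0 ≤ 1 - B3 + m13_3) ∧ (0 ≤ -1 + B3 - m13_3)) := by
    have h := C.f13_8
    clear C e0 e1 e2 e3 s1 s2 s3
    omega
  have d7 : ((0 ≤ 0 - B1)) ∨ ((0 ≤ 0 - A1)) ∨ ((0 ≤ 0 - B3)) ∨ ((0 ≤ -1 + 2 * B1 - m11_1 - m13_1)) ∨ ((0 ≤ -1 + 2 * B2 - m11_2 - m13_2)) ∨ ((0 ≤ -1 + 2 * B3 - m11_3 - m13_3)) := by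
    have h := C.p11_13B
    clear C e0 e1 e2 e3 s1 s2 s3
    omega
  have d8 : ((0 ≤ 0 - A1)) ∨ ((0 ≤ 1 - A1 + A2 - n2)) ∨ ((0 ≤ 0 + B1 - n1)) ∨ ((0 ≤ 1 + B1 - B2)) ∨ ((0 ≤ 1 + A2 - B2) ∧ (0 ≤ 1 + A3 - B3)) ∨ ((0 ≤ 1 - A1 + B1)) := by
    have h := C.tpmm
    clear C e0 e1 e2 e3 s1 s2 s3
    omega
  have d9 : ((0 ≤ 0 - A1)) ∨ ((0 ≤ 1 - A1 + A2 - n2)) ∨ ((0 ≤ 0 + A2 - A3)) ∨ ((0 ≤ 0 + B1 - n1)) ∨ ((0 ≤ 1 + B1 - B2)) ∨ ((0 ≤ 0 - B2 + B3 - n3)) ∨ ((0 ≤ 1 - A1 + B1)) := by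
    have h := C.tpmz
    clear C e0 e1 e2 e3 s1 s2 s3
    omega
  rcases d8 with g1 | g2 | g3 | g4 | ⟨g5, g6⟩ | g7
  · linarith only [g1, e1]
  · linarith only [C.o1, s1, g2, C.b3, C.f11_0, C.f12_0, C.f13_0]
  · linarith only [g3, s1, C.a1, C.f11_0, C.f12_0, C.f13_0]
  · linarith only [g4, s1, C.a2, C.o1, C.f11_0, C.f12_0, C.f13_0]
  · rcases d7 with g8 | g9 | g10 | g11 | g12 | g13
    · linarith only [g8, e0]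
    · linarith only [g9, e1]
    · linarith only [g10, e3]
    · linarith only [g11, s1, C.f12_0]
    · linarith only [g12, s2, g5, C.f12_4]
    · rcases d9 with g14 | g15 | g16 | g17 | g18 | g19 | g20
      · linarith only [g14, e1]
      · linarith only [g15, s1, C.b3, C.o1, C.f11_0, C.f12_0, C.f13_0]
      · rcases d6 with ⟨g21, g22⟩ | ⟨g23, g24⟩
        · linarith only [g21, s2, s3, g5, g6, C.f11_2, C.f12_4, C.f12_6, g13]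
        · linarith only [g23, s2, s3, g16, g6, C.f11_2, C.f12_4, C.f12_6, C.f13_4, g13]
      · linarith only [g17, s1, C.a1, C.f11_0, C.f12_0, C.f13_0]
      · linarith only [g18, s1, C.a2, C.o1, C.f11_0, C.f12_0, C.f13_0]
      · linarith only [g19, s3, g6, C.f12_4, C.f12_6, g13]
      · linarith only [g20, s1, C.f11_0, C.f12_0, C.f13_0]
  · linarith only [g7, s1, C.f11_0, C.f12_0, C.f13_0]

theorem c2_11_12_13_k2 {n1 n2 n3 A1 A2 A3 B1 B2 B3 m11_1 m11_2 m11_3 m12_1 m12_2 m12_3 m13_1 m13_2 m13_3 m22_1 m22_2 m22_3 m33_1 m33_2 m33_3 : ℤ}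
    (C : Ctx2 n1 n2 n3 A1 A2 A3 B1 B2 B3 m11_1 m11_2 m11_3 m12_1 m12_2 m12_3 m13_1 m13_2 m13_3 m22_1 m22_2 m22_3 m33_1 m33_2 m33_3)
    (e0 : 0 < B1)
    (e1 : 0 < A1)
    (e2 : 0 < B2)
    (e3 : 0 < B3)
    (s1 : 2 * A1 + 1 * B1 ≤ m11_1 + m12_1 + m13_1)
    (s2 : 2 * A2 + 1 * B2 ≤ m11_2 + m12_2 + m13_2)
    (s3 : 2 * A3 + 1 * B3 ≤ m11_3 + m12_3 + m13_3) : False := by
  linarith only [C.f12_0, s1, C.f11_0, C.f13_0]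

theorem c2_11_12_13_k3 {n1 n2 n3 A1 A2 A3 B1 B2 B3 m11_1 m11_2 m11_3 m12_1 m12_2 m12_3 m13_1 m13_2 m13_3 m22_1 m22_2 m22_3 m33_1 m33_2 m33_3 : ℤ}
    (C : Ctx2 n1 n2 n3 A1 A2 A3 B1 B2 B3 m11_1 m11_2 m11_3 m12_1 m12_2 m12_3 m13_1 m13_2 m13_3 m22_1 m22_2 m22_3 m33_1 m33_2 m33_3)
    (e0 : 0 < B1)
    (e1 : 0 < A1)
    (e2 : 0 < B2)
    (e3 : 0 < B3)
    (s1 : 3 * A1 + 0 * B1 ≤ m11_1 + m12_1 + m13_1)
    (s2 : 3 * A2 + 0 * B2 ≤ m11_2 + m12_2 + m13_2)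
    (s3 : 3 * A3 + 0 * B3 ≤ m11_3 + m12_3 + m13_3) : False := by
  linarith only [C.f12_0, s1, C.o0, C.f11_0, C.f13_0]

theorem c2_11_12_22_k0 {n1 n2 n3 A1 A2 A3 B1 B2 B3 m11_1 m11_2 m11_3 m12_1 m12_2 m12_3 m13_1 m13_2 m13_3 m22_1 m22_2 m22_3 m33_1 m33_2 m33_3 : ℤ}
    (C : Ctx2 n1 n2 n3 A1 A2 A3 B1 B2 B3 m11_1 m11_2 m11_3 m12_1 m12_2 m12_3 m13_1 m13_2 m13_3 m22_1 m22_2 m22_3 m33_1 m33_2 m33_3)
    (e0 : 0 < B1)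
    (e1 : 0 < A1)
    (e2 : 0 < B2)
    (e3 : 0 < A2)
    (s1 : 0 * A1 + 3 * B1 ≤ m11_1 + m12_1 + m22_1)
    (s2 : 0 * A2 + 3 * B2 ≤ m11_2 + m12_2 + m22_2)
    (s3 : 0 * A3 + 3 * B3 ≤ m11_3 + m12_3 + m22_3) : False := by
  have d4 : ((0 ≤ 0 + m22_1 - n1) ∧ (0 ≤ 0 - m22_1 + n1)) ∨ ((0 ≤ 1 - A2 + m22_1) ∧ (0 ≤ -1 + A2 - m22_1)) := by
    have h := C.f22_2
    clear C e0 e1 e2 e3 s1 s2 s3
    omega
  have d6 : ((0 ≤ 0 - B1)) ∨ ((0 ≤ 0 - A2)) ∨ ((0 ≤ -1 + 2 * B1 - m11_1 - m22_1)) ∨ ((0 ≤ -1 + 2 * B2 - m11_2 - m22_2)) ∨ ((0 ≤ -1 + 2 * B3 - m11_3 - m22_3)) := by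
    have h := C.p11_22B
    clear C e0 e1 e2 e3 s1 s2 s3
    omega
  rcases d6 with g1 | g2 | g3 | g4 | g5
  · linarith only [g1, e0]
  · linarith only [g2, e3]
  · rcases d4 with ⟨g6, g7⟩ | ⟨g8, g9⟩
    · linarith only [g6, s1, C.a1, C.f11_0, C.f12_0, g3]
    · linarith only [g8, s1, C.a2, C.f11_0, C.f12_0, g3]
  · linarith only [g4, s2, C.f12_4]
  · linarith only [s3, s2, C.f11_2, C.f12_4, C.f12_6, C.f22_6, g5]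

theorem c2_11_12_22_k1 {n1 n2 n3 A1 A2 A3 B1 B2 B3 m11_1 m11_2 m11_3 m12_1 m12_2 m12_3 m13_1 m13_2 m13_3 m22_1 m22_2 m22_3 m33_1 m33_2 m33_3 : ℤ}
    (C : Ctx2 n1 n2 n3 A1 A2 A3 B1 B2 B3 m11_1 m11_2 m11_3 m12_1 m12_2 m12_3 m13_1 m13_2 m13_3 m22_1 m22_2 m22_3 m33_1 m33_2 m33_3)
    (e0 : 0 < B1)
    (e1 : 0 < A1)
    (e2 : 0 < B2)
    (e3 : 0 < A2)
    (s1 : 1 * A1 + 2 * B1 ≤ m11_1 + m12_1 + m22_1)
    (s2 : 1 * A2 + 2 * B2 ≤ m11_2 + m12_2 + m22_2)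
    (s3 : 1 * A3 + 2 * B3 ≤ m11_3 + m12_3 + m22_3) : False := by
  have d1 : ((0 ≤ -1 - A1 + A2) ∧ (0 ≤ -1 + A2 - A3 + n3)) ∨ ((0 ≤ -1 - B1 + B2) ∧ (0 ≤ -1 + B2 - B3 + n3)) := by
    have h := C.t23
    clear C e0 e1 e2 e3 s1 s2 s3
    omega
  have d2 : ((0 ≤ 1 - A1 + m12_1) ∧ (0 ≤ -1 + A1 - m12_1)) ∨ ((0 ≤ 1 - B2 + m12_1) ∧ (0 ≤ -1 + B2 - m12_1)) := by
    have h := C.f12_2
    clear C e0 e1 e2 e3 s1 s2 s3
    omega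
  have d3 : ((0 ≤ 0 - m12_1 + m12_2 - n2) ∧ (0 ≤ 0 + m12_1 - m12_2 + n2)) ∨ ((0 ≤ 1 - B2 + m12_2) ∧ (0 ≤ -1 + B2 - m12_2)) := by
    have h := C.f12_5
    clear C e0 e1 e2 e3 s1 s2 s3
    omega
  have d5 : ((0 ≤ 0 - m22_1 + m22_2 - n2) ∧ (0 ≤ 0 + m22_1 - m22_2 + n2)) ∨ ((0 ≤ 1 - A2 + m22_2) ∧ (0 ≤ -1 + A2 - m22_2)) := by
    have h := C.f22_5
    clear C e0 e1 e2 e3 s1 s2 s3
    omega
  have d6 : ((0 ≤ 0 - B1)) ∨ ((0 ≤ 0 - A1)) ∨ ((0 ≤ 0 - B2)) ∨ ((0 ≤ -1 + 2 * B1 - m11_1 - m12_1)) ∨ ((0 ≤ -1 + 2 * B2 - m11_2 - m12_2)) ∨ ((0 ≤ -1 + 2 * B3 - m11_3 - m12_3)) := by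
    have h := C.p11_12B
    clear C e0 e1 e2 e3 s1 s2 s3
    omega
  have d7 : ((0 ≤ 0 - B1)) ∨ ((0 ≤ 0 - A2)) ∨ ((0 ≤ -1 + 2 * B1 - m11_1 - m22_1)) ∨ ((0 ≤ -1 + 2 * B2 - m11_2 - m22_2)) ∨ ((0 ≤ -1 + 2 * B3 - m11_3 - m22_3)) := by
    have h := C.p11_22B
    clear C e0 e1 e2 e3 s1 s2 s3
    omega
  have d8 : ((0 ≤ 0 - A1)) ∨ ((0 ≤ 0 - B2)) ∨ ((0 ≤ 0 - A2)) ∨ ((0 ≤ -1 + 2 * A1 - m12_1 - m22_1)) ∨ ((0 ≤ -1 + 2 * A2 - m12_2 - m22_2)) ∨ ((0 ≤ -1 + 2 * A3 - m12_3 - m22_3)) := by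
    have h := C.p12_22A
    clear C e0 e1 e2 e3 s1 s2 s3
    omega
  rcases d6 with g1 | g2 | g3 | g4 | g5 | g6
  · linarith only [g1, e0]
  · linarith only [g2, e1]
  · linarith only [g3, e2]
  · rcases d2 with ⟨g7, g8⟩ | ⟨g9, g10⟩
    · rcases d3 with ⟨g11, g12⟩ | ⟨g13, g14⟩
      · linarith only [C.b3, C.o0, g7, g11, C.f12_4]
      · rcases d5 with ⟨g15, g16⟩ | ⟨g17, g18⟩
        · linarith only [C.f22_4, s1, C.b3, C.o1, C.f11_0, g8, g15]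
        · rcases d8 with g19 | g20 | g21 | g22 | g23 | g24
          · linarith only [g19, e1]
          · linarith only [g20, e2]
          · linarith only [g21, e3]
          · linarith only [g22, s1, g7, g4]
          · rcases d7 with g25 | g26 | g27 | g28 | g29
            · linarith only [g25, e0]
            · linarith only [g26, e3]
            · linarith only [g27, s1, g8]
            · linarith only [g23, s2, g17, g28]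
            · linarith only [C.b5, s2, C.f11_2, g17, C.f22_6, g29, g23]
          · rcases d1 with ⟨g30, g31⟩ | ⟨g32, g33⟩
            · linarith only [C.o1, g31, g13, C.f12_6, g17, C.f22_6, g24]
            · linarith only [C.a5, g33, C.o2, g13, C.f12_6, g17, C.f22_6, g24]
    · linarith only [C.o1, s1, C.f12_0, g9, C.f22_1, g4]
  · linarith only [g5, s2, C.f22_4]
  · linarith only [C.b5, s2, C.f11_2, C.f12_6, C.f22_4, g6]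

theorem c2_11_12_22_k2 {n1 n2 n3 A1 A2 A3 B1 B2 B3 m11_1 m11_2 m11_3 m12_1 m12_2 m12_3 m13_1 m13_2 m13_3 m22_1 m22_2 m22_3 m33_1 m33_2 m33_3 : ℤ}
    (C : Ctx2 n1 n2 n3 A1 A2 A3 B1 B2 B3 m11_1 m11_2 m11_3 m12_1 m12_2 m12_3 m13_1 m13_2 m13_3 m22_1 m22_2 m22_3 m33_1 m33_2 m33_3)
    (e0 : 0 < B1)
    (e1 : 0 < A1)
    (e2 : 0 < B2)
    (e3 : 0 < A2)
    (s1 : 2 * A1 + 1 * B1 ≤ m11_1 + m12_1 + m22_1)
    (s2 : 2 * A2 + 1 * B2 ≤ m11_2 + m12_2 + m22_2)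
    (s3 : 2 * A3 + 1 * B3 ≤ m11_3 + m12_3 + m22_3) : False := by
  have d3 : ((0 ≤ 0 - m12_1 + m12_2 - n2) ∧ (0 ≤ 0 + m12_1 - m12_2 + n2)) ∨ ((0 ≤ 1 - B2 + m12_2) ∧ (0 ≤ -1 + B2 - m12_2)) := by
    have h := C.f12_5
    clear C e0 e1 e2 e3 s1 s2 s3
    omega
  have d6 : ((0 ≤ 0 - B1)) ∨ ((0 ≤ 0 - A1)) ∨ ((0 ≤ 0 - B2)) ∨ ((0 ≤ -1 + 2 * B1 - m11_1 - m12_1)) ∨ ((0 ≤ -1 + 2 * B2 - m11_2 - m12_2)) ∨ ((0 ≤ -1 + 2 * B3 - m11_3 - m12_3)) := by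
    have h := C.p11_12B
    clear C e0 e1 e2 e3 s1 s2 s3
    omega
  have d7 : ((0 ≤ 0 - B1)) ∨ ((0 ≤ 0 - A2)) ∨ ((0 ≤ -1 + 2 * A1 - m11_1 - m22_1)) ∨ ((0 ≤ -1 + 2 * A2 - m11_2 - m22_2)) ∨ ((0 ≤ -1 + 2 * A3 - m11_3 - m22_3)) := by
    have h := C.p11_22A
    clear C e0 e1 e2 e3 s1 s2 s3
    omega
  have d8 : ((0 ≤ 0 - A1)) ∨ ((0 ≤ 0 - B2)) ∨ ((0 ≤ 0 - A2)) ∨ ((0 ≤ -1 + 2 * A1 - m12_1 - m22_1)) ∨ ((0 ≤ -1 + 2 * A2 - m12_2 - m22_2)) ∨ ((0 ≤ -1 + 2 * A3 - m12_3 - m22_3)) := by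
    have h := C.p12_22A
    clear C e0 e1 e2 e3 s1 s2 s3
    omega
  rcases d7 with g1 | g2 | g3 | g4 | g5
  · linarith only [g1, e0]
  · linarith only [g2, e3]
  · rcases d3 with ⟨g6, g7⟩ | ⟨g8, g9⟩
    · linarith only [C.b3, s1, g6, C.f12_4, g3]
    · rcases d6 with g10 | g11 | g12 | g13 | g14 | g15
      · linarith only [g10, e0]
      · linarith only [g11, e1]
      · linarith only [g12, e2]
      · linarith only [g13, s1, C.f11_0, g3]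
      · rcases d8 with g16 | g17 | g18 | g19 | g20 | g21
        · linarith only [g16, e1]
        · linarith only [g17, e2]
        · linarith only [g18, e3]
        · linarith only [g19, s1, C.f11_0]
        · linarith only [g20, s2, g8, g14]
        · linarith only [C.a5, s2, g8, C.f12_6, C.f22_6, g14, g21]
      · rcases d8 with g22 | g23 | g24 | g25 | g26 | g27
        · linarith only [g22, e1]
        · linarith only [g23, e2]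
        · linarith only [g24, e3]
        · linarith only [g25, s1, C.f11_0]
        · linarith only [C.b5, s2, C.f11_2, g8, C.f12_6, g15, g26]
        · linarith only [s3, C.b5, g8, C.f12_6, g15, g27]
  · linarith only [g4, s2, C.f12_4]
  · linarith only [C.a5, s2, C.f11_2, C.f12_4, C.f22_6, g5]

theorem c2_11_12_22_k3 {n1 n2 n3 A1 A2 A3 B1 B2 B3 m11_1 m11_2 m11_3 m12_1 m12_2 m12_3 m13_1 m13_2 m13_3 m22_1 m22_2 m22_3 m33_1 m33_2 m33_3 : ℤ}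
    (C : Ctx2 n1 n2 n3 A1 A2 A3 B1 B2 B3 m11_1 m11_2 m11_3 m12_1 m12_2 m12_3 m13_1 m13_2 m13_3 m22_1 m22_2 m22_3 m33_1 m33_2 m33_3)
    (e0 : 0 < B1)
    (e1 : 0 < A1)
    (e2 : 0 < B2)
    (e3 : 0 < A2)
    (s1 : 3 * A1 + 0 * B1 ≤ m11_1 + m12_1 + m22_1)
    (s2 : 3 * A2 + 0 * B2 ≤ m11_2 + m12_2 + m22_2)
    (s3 : 3 * A3 + 0 * B3 ≤ m11_3 + m12_3 + m22_3) : False := by
  have d2 : ((0 ≤ 1 - A1 + m12_1) ∧ (0 ≤ -1 + A1 - m12_1)) ∨ ((0 ≤ 1 - B2 + m12_1) ∧ (0 ≤ -1 + B2 - m12_1)) := by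
    have h := C.f12_2
    clear C e0 e1 e2 e3 s1 s2 s3
    omega
  have d3 : ((0 ≤ 0 - m12_1 + m12_2 - n2) ∧ (0 ≤ 0 + m12_1 - m12_2 + n2)) ∨ ((0 ≤ 1 - B2 + m12_2) ∧ (0 ≤ -1 + B2 - m12_2)) := by
    have h := C.f12_5
    clear C e0 e1 e2 e3 s1 s2 s3
    omega
  have d5 : ((0 ≤ 0 - m22_1 + m22_2 - n2) ∧ (0 ≤ 0 + m22_1 - m22_2 + n2)) ∨ ((0 ≤ 1 - A2 + m22_2) ∧ (0 ≤ -1 + A2 - m22_2)) := by
    have h := C.f22_5
    clear C e0 e1 e2 e3 s1 s2 s3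
    omega
  have d6 : ((0 ≤ 0 - B1)) ∨ ((0 ≤ 0 - A2)) ∨ ((0 ≤ -1 + 2 * A1 - m11_1 - m22_1)) ∨ ((0 ≤ -1 + 2 * A2 - m11_2 - m22_2)) ∨ ((0 ≤ -1 + 2 * A3 - m11_3 - m22_3)) := by
    have h := C.p11_22A
    clear C e0 e1 e2 e3 s1 s2 s3
    omega
  rcases d2 with ⟨g1, g2⟩ | ⟨g3, g4⟩
  · rcases d3 with ⟨g5, g6⟩ | ⟨g7, g8⟩
    · linarith only [C.b3, C.o0, g1, g5, C.f12_4]
    · rcases d5 with ⟨g9, g10⟩ | ⟨g11, g12⟩
      · linarith only [C.f22_4, s1, C.b3, C.o0, C.o1, C.f11_0, g2, g9]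
      · rcases d6 with g13 | g14 | g15 | g16 | g17
        · linarith only [g13, e0]
        · linarith only [g14, e3]
        · linarith only [g15, s1, g2]
        · linarith only [C.b3, s2, C.f11_0, C.f11_1, g8, g11, g16]
        · linarith only [C.a5, s3, C.b3, C.f11_0, C.f11_1, C.f11_2, g8, C.f12_6, g11, C.f22_6, g17]
  · linarith only [C.o1, s1, C.o0, C.f11_0, C.f12_0, g3, C.f22_1]

theorem c2_11_12_33_k0 {n1 n2 n3 A1 A2 A3 B1 B2 B3 m11_1 m11_2 m11_3 m12_1 m12_2 m12_3 m13_1 m13_2 m13_3 m22_1 m22_2 m22_3 m33_1 m33_2 m33_3 : ℤ}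
    (C : Ctx2 n1 n2 n3 A1 A2 A3 B1 B2 B3 m11_1 m11_2 m11_3 m12_1 m12_2 m12_3 m13_1 m13_2 m13_3 m22_1 m22_2 m22_3 m33_1 m33_2 m33_3)
    (e0 : 0 < B1)
    (e1 : 0 < A1)
    (e2 : 0 < B2)
    (e3 : 0 < A3)
    (s1 : 0 * A1 + 3 * B1 ≤ m11_1 + m12_1 + m33_1)
    (s2 : 0 * A2 + 3 * B2 ≤ m11_2 + m12_2 + m33_2)
    (s3 : 0 * A3 + 3 * B3 ≤ m11_3 + m12_3 + m33_3) : False := by
  have d2 : ((0 ≤ 1 - A1 + m12_1) ∧ (0 ≤ -1 + A1 - m12_1)) ∨ ((0 ≤ 1 - B2 + m12_1) ∧ (0 ≤ -1 + B2 - m12_1)) := by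
    have h := C.f12_2
    clear C e0 e1 e2 e3 s1 s2 s3
    omega
  have d3 : ((0 ≤ 0 - m12_1 + m12_2 - n2) ∧ (0 ≤ 0 + m12_1 - m12_2 + n2)) ∨ ((0 ≤ 1 - B2 + m12_2) ∧ (0 ≤ -1 + B2 - m12_2)) := by
    have h := C.f12_5
    clear C e0 e1 e2 e3 s1 s2 s3
    omega
  have d4 : ((0 ≤ 1 - A1 + m13_1) ∧ (0 ≤ -1 + A1 - m13_1)) ∨ ((0 ≤ 1 - B3 + m13_1) ∧ (0 ≤ -1 + B3 - m13_1)) := by
    have h := C.f13_2
    clear C e0 e1 e2 e3 s1 s2 s3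
    omega
  have d5 : ((0 ≤ 0 - m13_1 + m13_2 - n2) ∧ (0 ≤ 0 + m13_1 - m13_2 + n2)) ∨ ((0 ≤ 1 - B3 + m13_2) ∧ (0 ≤ -1 + B3 - m13_2)) := by
    have h := C.f13_5
    clear C e0 e1 e2 e3 s1 s2 s3
    omega
  have d6 : ((0 ≤ 0 - m13_2 + m13_3 - n3) ∧ (0 ≤ 0 + m13_2 - m13_3 + n3)) ∨ ((0 ≤ 1 - B3 + m13_3) ∧ (0 ≤ -1 + B3 - m13_3)) := by
    have h := C.f13_8
    clear C e0 e1 e2 e3 s1 s2 s3
    omega
  have d8 : ((0 ≤ 0 - m33_1 + m33_2 - n2) ∧ (0 ≤ 0 + m33_1 - m33_2 + n2)) ∨ ((0 ≤ 1 - A3 + m33_2) ∧ (0 ≤ -1 + A3 - m33_2)) := by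
    have h := C.f33_5
    clear C e0 e1 e2 e3 s1 s2 s3
    omega
  have d9 : ((0 ≤ 0 - m33_2 + m33_3 - n3) ∧ (0 ≤ 0 + m33_2 - m33_3 + n3)) ∨ ((0 ≤ 1 - A3 + m33_3) ∧ (0 ≤ -1 + A3 - m33_3)) := by
    have h := C.f33_8
    clear C e0 e1 e2 e3 s1 s2 s3
    omega
  have d10 : ((0 ≤ 0 - B1)) ∨ ((0 ≤ 0 - A1)) ∨ ((0 ≤ 0 - B2)) ∨ ((0 ≤ -1 + 2 * B1 - m11_1 - m12_1)) ∨ ((0 ≤ -1 + 2 * B2 - m11_2 - m12_2)) ∨ ((0 ≤ -1 + 2 * B3 - m11_3 - m12_3)) := by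
    have h := C.p11_12B
    clear C e0 e1 e2 e3 s1 s2 s3
    omega
  have d11 : ((0 ≤ 0 - B1)) ∨ ((0 ≤ 0 - A3)) ∨ ((0 ≤ -1 + 2 * B1 - m11_1 - m33_1)) ∨ ((0 ≤ -1 + 2 * B2 - m11_2 - m33_2)) ∨ ((0 ≤ -1 + 2 * B3 - m11_3 - m33_3)) := by
    have h := C.p11_33B
    clear C e0 e1 e2 e3 s1 s2 s3
    omega
  have d12 : ((0 ≤ 0 - A1)) ∨ ((0 ≤ 0 - B2)) ∨ ((0 ≤ 0 - B3)) ∨ ((0 ≤ -1 + 2 * B1 - m12_1 - m13_1)) ∨ ((0 ≤ -1 + 2 * B2 - m12_2 - m13_2)) ∨ ((0 ≤ -1 + 2 * B3 - m12_3 - m13_3)) := by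
    have h := C.p12_13B
    clear C e0 e1 e2 e3 s1 s2 s3
    omega
  have d14 : ((0 ≤ 0 - A1 + A2 - n2)) ∨ ((0 ≤ 1 + A2 - A3)) ∨ ((0 ≤ 0 + B1 - B2)) ∨ ((0 ≤ 1 - B2 + B3 - n3)) := by
    have h := C.tzmp
    clear C e0 e1 e2 e3 s1 s2 s3
    omega
  have d15 : ((0 ≤ 0 + A1 - A2)) ∨ ((0 ≤ 1 - A2 + A3 - n3)) ∨ ((0 ≤ 0 - B1 + B2 - n2)) ∨ ((0 ≤ 1 + B2 - B3)) := by
    have h := C.tzpm
    clear C e0 e1 e2 e3 s1 s2 s3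
    omega
  rcases d2 with ⟨g1, g2⟩ | ⟨g3, g4⟩
  · rcases d3 with ⟨g5, g6⟩ | ⟨g7, g8⟩
    · linarith only [C.b3, C.o0, g1, g5, C.f12_4]
    · rcases d4 with ⟨g9, g10⟩ | ⟨g11, g12⟩
      · rcases d10 with g13 | g14 | g15 | g16 | g17 | g18
        · linarith only [g13, e0]
        · linarith only [g14, e1]
        · linarith only [g15, e2]
        · rcases d11 with g19 | g20 | g21 | g22 | g23
          · linarith only [g19, e0]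
          · linarith only [g20, e3]
          · linarith only [g21, s1, C.f11_0, g16]
          · linarith only [g22, s2, g8]
          · rcases d14 with g24 | g25 | g26 | g27
            · linarith only [C.b3, g24, C.o0, C.o1]
            · rcases d8 with ⟨g28, g29⟩ | ⟨g30, g31⟩
              · linarith only [g16, s1, s2, g25, C.o1, C.f11_0, C.f11_1, g8, g28, C.f33_4]
              · rcases d9 with ⟨g32, g33⟩ | ⟨g34, g35⟩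
                · linarith only [g32, s2, s3, C.f11_2, g8, C.f12_6, g23]
                · rcases d15 with g36 | g37 | g38 | g39
                  · rcases d12 with g40 | g41 | g42 | g43 | g44 | g45
                    · linarith only [g40, e1]
                    · linarith only [g41, e2]
                    · linarith only [g42, e0, s1, s2, s3, C.a2, g25, C.o1, C.f11_0, C.f11_2, g2, g8, C.f12_6, C.f33_1, g31, g34, g23]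
                    · linarith only [g43, s1, g36, g25, C.f11_0, g9, C.f33_1]
                    · rcases d5 with ⟨g46, g47⟩ | ⟨g48, g49⟩
                      · linarith only [g44, s1, s2, g36, g25, C.o1, C.f11_0, C.f11_1, g2, g9, g46, C.f33_1, g31]
                      · linarith only [g48, s2, s3, C.f11_2, g8, C.f12_6, g31, g34, g23, g44]
                    · rcases d6 with ⟨g50, g51⟩ | ⟨g52, g53⟩
                      · rcases d5 with ⟨g54, g55⟩ | ⟨g56, g57⟩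
                        · linarith only [g54, s1, s2, s3, g36, g25, C.o1, C.f11_0, C.f11_1, g2, g8, C.f12_6, g9, g50, C.f33_1, g31, g23, g45]
                        · linarith only [g56, s2, s3, C.f11_2, g8, C.f12_6, g50, g31, g34, g23, g45]
                      · linarith only [g52, s3, g23, g45]
                  · linarith only [g37, s2, s3, g25, C.f11_2, g8, C.f12_6, g31, g34, g23]
                  · linarith only [g38, s2, g25, C.o1, C.f11_0, C.f11_1, g8, g31]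
                  · linarith only [g39, s2, s3, C.f11_2, g8, C.f12_6, g31, g34, g23]
            · linarith only [g26, C.a2, C.o0, C.o1]
            · linarith only [g27, s3, g8, C.f12_6, g23]
        · rcases d14 with g58 | g59 | g60 | g61
          · linarith only [C.b3, g58, C.o0, C.o1]
          · linarith only [g17, s2, g59, C.o1, C.f33_4]
          · linarith only [g60, C.a2, C.o0, C.o1]
          · linarith only [C.f33_7, s3, g61, C.o2, C.f11_2, C.f12_6, g17]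
        · linarith only [g18, s3, C.o2, C.f33_7]
      · linarith only [C.a4, C.a2, C.o2, C.f13_0, g11]
  · linarith only [g3, C.a2, C.o1, C.f12_0]

theorem c2_11_12_33_k1 {n1 n2 n3 A1 A2 A3 B1 B2 B3 m11_1 m11_2 m11_3 m12_1 m12_2 m12_3 m13_1 m13_2 m13_3 m22_1 m22_2 m22_3 m33_1 m33_2 m33_3 : ℤ}
    (C : Ctx2 n1 n2 n3 A1 A2 A3 B1 B2 B3 m11_1 m11_2 m11_3 m12_1 m12_2 m12_3 m13_1 m13_2 m13_3 m22_1 m22_2 m22_3 m33_1 m33_2 m33_3)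
    (e0 : 0 < B1)
    (e1 : 0 < A1)
    (e2 : 0 < B2)
    (e3 : 0 < A3)
    (s1 : 1 * A1 + 2 * B1 ≤ m11_1 + m12_1 + m33_1)
    (s2 : 1 * A2 + 2 * B2 ≤ m11_2 + m12_2 + m33_2)
    (s3 : 1 * A3 + 2 * B3 ≤ m11_3 + m12_3 + m33_3) : False := by
  have d2 : ((0 ≤ 1 - A1 + m12_1) ∧ (0 ≤ -1 + A1 - m12_1)) ∨ ((0 ≤ 1 - B2 + m12_1) ∧ (0 ≤ -1 + B2 - m12_1)) := by
    have h := C.f12_2
    clear C e0 e1 e2 e3 s1 s2 s3
    omega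
  have d3 : ((0 ≤ 0 - m12_1 + m12_2 - n2) ∧ (0 ≤ 0 + m12_1 - m12_2 + n2)) ∨ ((0 ≤ 1 - B2 + m12_2) ∧ (0 ≤ -1 + B2 - m12_2)) := by
    have h := C.f12_5
    clear C e0 e1 e2 e3 s1 s2 s3
    omega
  have d5 : ((0 ≤ 0 - m33_1 + m33_2 - n2) ∧ (0 ≤ 0 + m33_1 - m33_2 + n2)) ∨ ((0 ≤ 1 - A3 + m33_2) ∧ (0 ≤ -1 + A3 - m33_2)) := by
    have h := C.f33_5
    clear C e0 e1 e2 e3 s1 s2 s3
    omega
  have d6 : ((0 ≤ 0 - m33_2 + m33_3 - n3) ∧ (0 ≤ 0 + m33_2 - m33_3 + n3)) ∨ ((0 ≤ 1 - A3 + m33_3) ∧ (0 ≤ -1 + A3 - m33_3)) := by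
    have h := C.f33_8
    clear C e0 e1 e2 e3 s1 s2 s3
    omega
  have d7 : ((0 ≤ 0 - B1)) ∨ ((0 ≤ 0 - A1)) ∨ ((0 ≤ 0 - B2)) ∨ ((0 ≤ -1 + 2 * B1 - m11_1 - m12_1)) ∨ ((0 ≤ -1 + 2 * B2 - m11_2 - m12_2)) ∨ ((0 ≤ -1 + 2 * B3 - m11_3 - m12_3)) := by
    have h := C.p11_12B
    clear C e0 e1 e2 e3 s1 s2 s3
    omega
  have d8 : ((0 ≤ 0 - B1)) ∨ ((0 ≤ 0 - A3)) ∨ ((0 ≤ -1 + 2 * B1 - m11_1 - m33_1)) ∨ ((0 ≤ -1 + 2 * B2 - m11_2 - m33_2)) ∨ ((0 ≤ -1 + 2 * B3 - m11_3 - m33_3)) := by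
    have h := C.p11_33B
    clear C e0 e1 e2 e3 s1 s2 s3
    omega
  have d9 : ((0 ≤ 0 - A1)) ∨ ((0 ≤ 0 - B2)) ∨ ((0 ≤ 0 - A3)) ∨ ((0 ≤ -1 + 2 * A1 - m12_1 - m33_1)) ∨ ((0 ≤ -1 + 2 * A2 - m12_2 - m33_2)) ∨ ((0 ≤ -1 + 2 * A3 - m12_3 - m33_3)) := by
    have h := C.p12_33A
    clear C e0 e1 e2 e3 s1 s2 s3
    omega
  have d10 : ((0 ≤ 0 + A1 - n1)) ∨ ((0 ≤ 1 + A1 - A2)) ∨ ((0 ≤ 0 - B1)) ∨ ((0 ≤ 1 - B1 + B2 - n2)) := by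
    have h := C.tmpp
    clear C e0 e1 e2 e3 s1 s2 s3
    omega
  have d11 : ((0 ≤ 0 - A1)) ∨ ((0 ≤ 1 - A1 + A2 - n2)) ∨ ((0 ≤ 0 + A2 - A3)) ∨ ((0 ≤ 0 + B1 - n1)) ∨ ((0 ≤ 1 + B1 - B2)) ∨ ((0 ≤ 0 - B2 + B3 - n3)) ∨ ((0 ≤ 1 - A1 + B1)) := by
    have h := C.tpmz
    clear C e0 e1 e2 e3 s1 s2 s3
    omega
  rcases d2 with ⟨g1, g2⟩ | ⟨g3, g4⟩
  · rcases d3 with ⟨g5, g6⟩ | ⟨g7, g8⟩
    · linarith only [C.b3, C.o0, g1, g5, C.f12_4]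
    · rcases d7 with g9 | g10 | g11 | g12 | g13 | g14
      · linarith only [g9, e0]
      · linarith only [g10, e1]
      · linarith only [g11, e2]
      · rcases d9 with g15 | g16 | g17 | g18 | g19 | g20
        · linarith only [g15, e1]
        · linarith only [g16, e2]
        · linarith only [g17, e3]
        · linarith only [g12, s1, g1, g18]
        · rcases d10 with g21 | g22 | g23 | g24
          · linarith only [g12, s1, g21, C.f33_0]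
          · rcases d5 with ⟨g25, g26⟩ | ⟨g27, g28⟩
            · linarith only [g25, s1, s2, C.o1, C.f11_0, C.f11_1, g2, g7, g19]
            · linarith only [g12, s1, g22, C.o1, g7, C.f33_1, g27, g19]
          · linarith only [g23, e0]
          · linarith only [C.o1, s2, g24, C.f11_0, C.f11_1, g19]
        · rcases d8 with g29 | g30 | g31 | g32 | g33
          · linarith only [g29, e0]
          · linarith only [g30, e3]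
          · linarith only [g31, s1, g2]
          · rcases d5 with ⟨g34, g35⟩ | ⟨g36, g37⟩
            · linarith only [s1, C.b3, C.f11_1, g2, g34, g32]
            · rcases d6 with ⟨g38, g39⟩ | ⟨g40, g41⟩
              · linarith only [C.a5, s2, s3, C.b4, C.f11_2, C.f12_6, g36, g38, g32, g20]
              · linarith only [s2, C.a5, C.f12_6, g40, g32, g20]
          · rcases d6 with ⟨g42, g43⟩ | ⟨g44, g45⟩
            · rcases d5 with ⟨g46, g47⟩ | ⟨g48, g49⟩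
              · linarith only [C.a5, s1, s2, s3, C.f11_0, C.f11_1, g2, g8, C.f12_6, g46, g42, g33, g20]
              · linarith only [g48, s3, C.a4, C.a5, g42, g33, g20]
            · linarith only [g44, s3, g33, g20]
      · rcases d11 with g50 | g51 | g52 | g53 | g54 | g55 | g56
        · linarith only [g50, e1]
        · linarith only [C.o0, g51, C.b3, C.o1]
        · linarith only [g13, s2, g52, C.f33_4]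
        · linarith only [g53, s1, C.f11_0, g2, C.f33_0]
        · linarith only [C.a2, g54, C.o0, C.o1]
        · linarith only [C.f33_7, s3, g55, C.f11_2, C.f12_6, g13]
        · rcases d9 with g57 | g58 | g59 | g60 | g61 | g62
          · linarith only [g57, e1]
          · linarith only [g58, e2]
          · linarith only [g59, e3]
          · linarith only [g60, s1, g56, C.f11_0]
          · linarith only [C.o1, s2, g7, g13, g61]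
          · rcases d6 with ⟨g63, g64⟩ | ⟨g65, g66⟩
            · linarith only [C.a5, s2, s3, C.o2, C.f11_2, g7, C.f12_6, g63, g13, g62]
            · linarith only [g65, s3, C.o2, C.f11_2, g7, C.f12_6, g13, g62]
      · linarith only [C.f33_7, s3, g14]
  · linarith only [g3, C.a2, C.o1, C.f12_0]

theorem c2_11_12_33_k2 {n1 n2 n3 A1 A2 A3 B1 B2 B3 m11_1 m11_2 m11_3 m12_1 m12_2 m12_3 m13_1 m13_2 m13_3 m22_1 m22_2 m22_3 m33_1 m33_2 m33_3 : ℤ}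
    (C : Ctx2 n1 n2 n3 A1 A2 A3 B1 B2 B3 m11_1 m11_2 m11_3 m12_1 m12_2 m12_3 m13_1 m13_2 m13_3 m22_1 m22_2 m22_3 m33_1 m33_2 m33_3)
    (e0 : 0 < B1)
    (e1 : 0 < A1)
    (e2 : 0 < B2)
    (e3 : 0 < A3)
    (s1 : 2 * A1 + 1 * B1 ≤ m11_1 + m12_1 + m33_1)
    (s2 : 2 * A2 + 1 * B2 ≤ m11_2 + m12_2 + m33_2)
    (s3 : 2 * A3 + 1 * B3 ≤ m11_3 + m12_3 + m33_3) : False := by
  have d1 : ((0 ≤ -1 - A1 + A2) ∧ (0 ≤ -1 + A2 - A3 + n3)) ∨ ((0 ≤ -1 - B1 + B2) ∧ (0 ≤ -1 + B2 - B3 + n3)) := by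
    have h := C.t23
    clear C e0 e1 e2 e3 s1 s2 s3
    omega
  have d2 : ((0 ≤ 1 - A1 + m12_1) ∧ (0 ≤ -1 + A1 - m12_1)) ∨ ((0 ≤ 1 - B2 + m12_1) ∧ (0 ≤ -1 + B2 - m12_1)) := by
    have h := C.f12_2
    clear C e0 e1 e2 e3 s1 s2 s3
    omega
  have d3 : ((0 ≤ 0 - m12_1 + m12_2 - n2) ∧ (0 ≤ 0 + m12_1 - m12_2 + n2)) ∨ ((0 ≤ 1 - B2 + m12_2) ∧ (0 ≤ -1 + B2 - m12_2)) := by
    have h := C.f12_5
    clear C e0 e1 e2 e3 s1 s2 s3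
    omega
  have d5 : ((0 ≤ 0 - m33_1 + m33_2 - n2) ∧ (0 ≤ 0 + m33_1 - m33_2 + n2)) ∨ ((0 ≤ 1 - A3 + m33_2) ∧ (0 ≤ -1 + A3 - m33_2)) := by
    have h := C.f33_5
    clear C e0 e1 e2 e3 s1 s2 s3
    omega
  have d6 : ((0 ≤ 0 - m33_2 + m33_3 - n3) ∧ (0 ≤ 0 + m33_2 - m33_3 + n3)) ∨ ((0 ≤ 1 - A3 + m33_3) ∧ (0 ≤ -1 + A3 - m33_3)) := by
    have h := C.f33_8
    clear C e0 e1 e2 e3 s1 s2 s3
    omega
  have d7 : ((0 ≤ 0 - A1)) ∨ ((0 ≤ 0 - B2)) ∨ ((0 ≤ 0 - A3)) ∨ ((0 ≤ -1 + 2 * A1 - m12_1 - m33_1)) ∨ ((0 ≤ -1 + 2 * A2 - m12_2 - m33_2)) ∨ ((0 ≤ -1 + 2 * A3 - m12_3 - m33_3)) := by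
    have h := C.p12_33A
    clear C e0 e1 e2 e3 s1 s2 s3
    omega
  have d8 : ((0 ≤ 0 + A1 - n1)) ∨ ((0 ≤ 1 + A1 - A2)) ∨ ((0 ≤ 0 - B1)) ∨ ((0 ≤ 1 - B1 + B2 - n2)) := by
    have h := C.tmpp
    clear C e0 e1 e2 e3 s1 s2 s3
    omega
  rcases d2 with ⟨g1, g2⟩ | ⟨g3, g4⟩
  · rcases d3 with ⟨g5, g6⟩ | ⟨g7, g8⟩
    · linarith only [C.b3, C.o0, g1, g5, C.f12_4]
    · rcases d7 with g9 | g10 | g11 | g12 | g13 | g14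
      · linarith only [g9, e1]
      · linarith only [g10, e2]
      · linarith only [g11, e3]
      · linarith only [g12, s1, C.f11_0]
      · rcases d8 with g15 | g16 | g17 | g18
        · linarith only [g15, s1, C.f11_0, g2, C.f33_0]
        · rcases d5 with ⟨g19, g20⟩ | ⟨g21, g22⟩
          · linarith only [g19, s1, s2, C.o0, C.o1, C.f11_0, C.f11_1, g2, g7, g13]
          · linarith only [g21, s1, g16, C.o1, C.f11_0, g2, g7, C.f33_1, g13]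
        · linarith only [g17, e0]
        · linarith only [g18, s2, C.f11_0, C.f11_1, g13]
      · rcases d8 with g23 | g24 | g25 | g26
        · linarith only [g23, s1, C.f11_0, g2, C.f33_0]
        · rcases d1 with ⟨g27, g28⟩ | ⟨g29, g30⟩
          · rcases d6 with ⟨g31, g32⟩ | ⟨g33, g34⟩
            · rcases d5 with ⟨g35, g36⟩ | ⟨g37, g38⟩
              · linarith only [g35, s1, s2, g28, C.o0, C.o1, C.f11_0, C.f11_1, g2, g7, C.f12_6, g31, g14]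
              · linarith only [g37, s1, g24, g28, C.o1, C.f11_0, g2, g7, C.f12_6, C.f33_1, g31, g14]
            · linarith only [g33, g28, C.o1, g7, C.f12_6, g14]
          · rcases d6 with ⟨g39, g40⟩ | ⟨g41, g42⟩
            · rcases d5 with ⟨g43, g44⟩ | ⟨g45, g46⟩
              · linarith only [g43, s1, s2, C.a5, g30, C.o0, C.o2, C.f11_0, C.f11_1, g2, g7, C.f12_6, g39, g14]
              · linarith only [g45, s1, g24, C.a5, g30, C.o2, C.f11_0, g2, g7, C.f12_6, C.f33_1, g39, g14]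
            · linarith only [g41, g30, C.o2, g7, C.f12_6, g14]
        · linarith only [g25, e0]
        · rcases d6 with ⟨g47, g48⟩ | ⟨g49, g50⟩
          · linarith only [s2, C.a5, g26, C.f11_0, C.f11_1, C.f12_6, g47, g14]
          · linarith only [s3, g26, C.o2, C.f11_0, C.f11_1, C.f11_2, g7, C.f12_6, g49, g14]
  · linarith only [C.a2, C.o1, C.f12_0, g3]

theorem c2_11_12_33_k3 {n1 n2 n3 A1 A2 A3 B1 B2 B3 m11_1 m11_2 m11_3 m12_1 m12_2 m12_3 m13_1 m13_2 m13_3 m22_1 m22_2 m22_3 m33_1 m33_2 m33_3 : ℤ}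
    (C : Ctx2 n1 n2 n3 A1 A2 A3 B1 B2 B3 m11_1 m11_2 m11_3 m12_1 m12_2 m12_3 m13_1 m13_2 m13_3 m22_1 m22_2 m22_3 m33_1 m33_2 m33_3)
    (e0 : 0 < B1)
    (e1 : 0 < A1)
    (e2 : 0 < B2)
    (e3 : 0 < A3)
    (s1 : 3 * A1 + 0 * B1 ≤ m11_1 + m12_1 + m33_1)
    (s2 : 3 * A2 + 0 * B2 ≤ m11_2 + m12_2 + m33_2)
    (s3 : 3 * A3 + 0 * B3 ≤ m11_3 + m12_3 + m33_3) : False := by
  have d2 : ((0 ≤ 1 - A1 + m12_1) ∧ (0 ≤ -1 + A1 - m12_1)) ∨ ((0 ≤ 1 - B2 + m12_1) ∧ (0 ≤ -1 + B2 - m12_1)) := by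
    have h := C.f12_2
    clear C e0 e1 e2 e3 s1 s2 s3
    omega
  have d3 : ((0 ≤ 0 - m12_1 + m12_2 - n2) ∧ (0 ≤ 0 + m12_1 - m12_2 + n2)) ∨ ((0 ≤ 1 - B2 + m12_2) ∧ (0 ≤ -1 + B2 - m12_2)) := by
    have h := C.f12_5
    clear C e0 e1 e2 e3 s1 s2 s3
    omega
  have d5 : ((0 ≤ 0 - m33_1 + m33_2 - n2) ∧ (0 ≤ 0 + m33_1 - m33_2 + n2)) ∨ ((0 ≤ 1 - A3 + m33_2) ∧ (0 ≤ -1 + A3 - m33_2)) := by
    have h := C.f33_5
    clear C e0 e1 e2 e3 s1 s2 s3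
    omega
  have d6 : ((0 ≤ 0 - m33_2 + m33_3 - n3) ∧ (0 ≤ 0 + m33_2 - m33_3 + n3)) ∨ ((0 ≤ 1 - A3 + m33_3) ∧ (0 ≤ -1 + A3 - m33_3)) := by
    have h := C.f33_8
    clear C e0 e1 e2 e3 s1 s2 s3
    omega
  have d7 : ((0 ≤ 0 - B1)) ∨ ((0 ≤ 0 - A3)) ∨ ((0 ≤ -1 + 2 * A1 - m11_1 - m33_1)) ∨ ((0 ≤ -1 + 2 * A2 - m11_2 - m33_2)) ∨ ((0 ≤ -1 + 2 * A3 - m11_3 - m33_3)) := by
    have h := C.p11_33A
    clear C e0 e1 e2 e3 s1 s2 s3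
    omega
  rcases d2 with ⟨g1, g2⟩ | ⟨g3, g4⟩
  · rcases d3 with ⟨g5, g6⟩ | ⟨g7, g8⟩
    · linarith only [C.b3, C.o0, g1, g5, C.f12_4]
    · rcases d7 with g9 | g10 | g11 | g12 | g13
      · linarith only [g9, e0]
      · linarith only [g10, e3]
      · linarith only [g11, s1, g2]
      · rcases d5 with ⟨g14, g15⟩ | ⟨g16, g17⟩
        · linarith only [C.a3, s1, C.f11_1, g2, g14, g12]
        · linarith only [C.a4, s2, C.b3, C.f11_0, C.f11_1, g8, g16, g12]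
      · rcases d6 with ⟨g18, g19⟩ | ⟨g20, g21⟩
        · rcases d5 with ⟨g22, g23⟩ | ⟨g24, g25⟩
          · linarith only [C.a5, s1, C.a3, C.f11_1, C.f11_2, g2, g22, g18, g13]
          · linarith only [C.a4, s3, C.a5, C.b3, C.f11_0, C.f11_1, C.f11_2, g8, C.f12_6, g24, g18, g13]
        · linarith only [s3, C.b3, C.f11_0, C.f11_1, C.f11_2, g8, C.f12_6, g20, g13]
  · linarith only [C.a2, C.o1, C.f12_0, g3]

end Pool.Agent.Helper89.TQ
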