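import Pool.Agent.Helper89.TQ.Ctx

set_option autoImplicit false
set_option linter.all false
set_option maxHeartbeats 4000000

namespace Pool.Agent.Helper89.TQ

theorem c2_11_13_13_k0 {n1 n2 n3 A1 A2 A3 B1 B2 B3 m11_1 m11_2 m11_3 m12_1 m12_2 m12_3 m13_1 m13_2 m13_3 m22_1 m22_2 m22_3 m33_1 m33_2 m33_3 : ℤ}
    (C : Ctx2 n1 n2 n3 A1 A2 A3 B1 B2 B3 m11_1 m11_2 m11_3 m12_1 m12_2 m12_3 m13_1 m13_2 m13_3 m22_1 m22_2 m22_3 m33_1 m33_2 m33_3)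
    (e0 : 0 < B1)
    (e1 : 0 < A1)
    (e2 : 0 < B3)
    (s1 : 0 * A1 + 3 * B1 ≤ m11_1 + m13_1 + m13_1)
    (s2 : 0 * A2 + 3 * B2 ≤ m11_2 + m13_2 + m13_2)
    (s3 : 0 * A3 + 3 * B3 ≤ m11_3 + m13_3 + m13_3) : False := by
  have d5 : ((0 ≤ 0 - B1)) ∨ ((0 ≤ 0 - A1)) ∨ ((0 ≤ 0 - B3)) ∨ ((0 ≤ -1 + 2 * B1 - m11_1 - m13_1)) ∨ ((0 ≤ -1 + 2 * B2 - m11_2 - m13_2)) ∨ ((0 ≤ -1 + 2 * B3 - m11_3 - m13_3)) := by
    have h := C.p11_13B
    clear C e0 e1 e2 s1 s2 s3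
    omega
  rcases d5 with g1 | g2 | g3 | g4 | g5 | g6
  · linarith only [g1, e0]
  · linarith only [g2, e1]
  · linarith only [g3, e2]
  · linarith only [g4, s1, C.f11_0]
  · linarith only [C.b3, s2, C.f11_0, C.f11_1, g5]
  · linarith only [g6, s3, C.f13_7]

theorem c2_11_13_13_k1 {n1 n2 n3 A1 A2 A3 B1 B2 B3 m11_1 m11_2 m11_3 m12_1 m12_2 m12_3 m13_1 m13_2 m13_3 m22_1 m22_2 m22_3 m33_1 m33_2 m33_3 : ℤ}
    (C : Ctx2 n1 n2 n3 A1 A2 A3 B1 B2 B3 m11_1 m11_2 m11_3 m12_1 m12_2 m12_3 m13_1 m13_2 m13_3 m22_1 m22_2 m22_3 m33_1 m33_2 m33_3)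
    (e0 : 0 < B1)
    (e1 : 0 < A1)
    (e2 : 0 < B3)
    (s1 : 1 * A1 + 2 * B1 ≤ m11_1 + m13_1 + m13_1)
    (s2 : 1 * A2 + 2 * B2 ≤ m11_2 + m13_2 + m13_2)
    (s3 : 1 * A3 + 2 * B3 ≤ m11_3 + m13_3 + m13_3) : False := by
  have d5 : ((0 ≤ 0 - B1)) ∨ ((0 ≤ 0 - A1)) ∨ ((0 ≤ 0 - B3)) ∨ ((0 ≤ -1 + 2 * B1 - m11_1 - m13_1)) ∨ ((0 ≤ -1 + 2 * B2 - m11_2 - m13_2)) ∨ ((0 ≤ -1 + 2 * B3 - m11_3 - m13_3)) := by
    have h := C.p11_13B
    clear C e0 e1 e2 s1 s2 s3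
    omega
  have d6 : ((0 ≤ 0 - A1)) ∨ ((0 ≤ 1 - A1 + A2 - n2)) ∨ ((0 ≤ 0 + B1 - n1)) ∨ ((0 ≤ 1 + B1 - B2)) ∨ ((0 ≤ 1 + A2 - B2) ∧ (0 ≤ 1 + A3 - B3)) ∨ ((0 ≤ 1 - A1 + B1)) := by
    have h := C.tpmm
    clear C e0 e1 e2 s1 s2 s3
    omega
  have d7 : ((0 ≤ 0 - A1)) ∨ ((0 ≤ 1 - A1 + A2 - n2)) ∨ ((0 ≤ 0 + A2 - A3)) ∨ ((0 ≤ 0 + B1 - n1)) ∨ ((0 ≤ 1 + B1 - B2)) ∨ ((0 ≤ 0 - B2 + B3 - n3)) ∨ ((0 ≤ 1 - A1 + B1)) := by
    have h := C.tpmz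
    clear C e0 e1 e2 s1 s2 s3
    omega
  rcases d6 with g1 | g2 | g3 | g4 | ⟨g5, g6⟩ | g7
  · linarith only [g1, e1]
  · linarith only [C.o1, s1, g2, C.b3, C.f11_0, C.f13_0]
  · linarith only [g3, s1, C.a1, C.f11_0, C.f13_0]
  · linarith only [g4, s1, C.a2, C.o1, C.f11_0, C.f13_0]
  · rcases d5 with g8 | g9 | g10 | g11 | g12 | g13
    · linarith only [g8, e0]
    · linarith only [g9, e1]
    · linarith only [g10, e2]
    · linarith only [g11, s1, C.f13_0]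
    · rcases d7 with g14 | g15 | g16 | g17 | g18 | g19 | g20
      · linarith only [g14, e1]
      · linarith only [C.b3, s1, g15, C.o1, C.f11_0, C.f13_0]
      · linarith only [s2, g16, g6, C.f13_4, g12]
      · linarith only [g17, s1, C.a1, C.f11_0, C.f13_0]
      · linarith only [g18, s1, C.a2, C.o1, C.f11_0, C.f13_0]
      · linarith only [g19, s2, s3, g5, g6, C.f11_2, C.f13_7, g12]
      · linarith only [g20, s1, C.f11_0, C.f13_0]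
    · linarith only [g13, s3, g6, C.f13_7]
  · linarith only [g7, s1, C.f11_0, C.f13_0]

theorem c2_11_13_13_k2 {n1 n2 n3 A1 A2 A3 B1 B2 B3 m11_1 m11_2 m11_3 m12_1 m12_2 m12_3 m13_1 m13_2 m13_3 m22_1 m22_2 m22_3 m33_1 m33_2 m33_3 : ℤ}
    (C : Ctx2 n1 n2 n3 A1 A2 A3 B1 B2 B3 m11_1 m11_2 m11_3 m12_1 m12_2 m12_3 m13_1 m13_2 m13_3 m22_1 m22_2 m22_3 m33_1 m33_2 m33_3)
    (e0 : 0 < B1)
    (e1 : 0 < A1)
    (e2 : 0 < B3)
    (s1 : 2 * A1 + 1 * B1 ≤ m11_1 + m13_1 + m13_1)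
    (s2 : 2 * A2 + 1 * B2 ≤ m11_2 + m13_2 + m13_2)
    (s3 : 2 * A3 + 1 * B3 ≤ m11_3 + m13_3 + m13_3) : False := by
  linarith only [C.f13_0, s1, C.f11_0]

theorem c2_11_13_13_k3 {n1 n2 n3 A1 A2 A3 B1 B2 B3 m11_1 m11_2 m11_3 m12_1 m12_2 m12_3 m13_1 m13_2 m13_3 m22_1 m22_2 m22_3 m33_1 m33_2 m33_3 : ℤ}
    (C : Ctx2 n1 n2 n3 A1 A2 A3 B1 B2 B3 m11_1 m11_2 m11_3 m12_1 m12_2 m12_3 m13_1 m13_2 m13_3 m22_1 m22_2 m22_3 m33_1 m33_2 m33_3)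
    (e0 : 0 < B1)
    (e1 : 0 < A1)
    (e2 : 0 < B3)
    (s1 : 3 * A1 + 0 * B1 ≤ m11_1 + m13_1 + m13_1)
    (s2 : 3 * A2 + 0 * B2 ≤ m11_2 + m13_2 + m13_2)
    (s3 : 3 * A3 + 0 * B3 ≤ m11_3 + m13_3 + m13_3) : False := by
  linarith only [C.f13_0, s1, C.o0, C.f11_0]

theorem c2_11_13_22_k1 {n1 n2 n3 A1 A2 A3 B1 B2 B3 m11_1 m11_2 m11_3 m12_1 m12_2 m12_3 m13_1 m13_2 m13_3 m22_1 m22_2 m22_3 m33_1 m33_2 m33_3 : ℤ}
    (C : Ctx2 n1 n2 n3 A1 A2 A3 B1 B2 B3 m11_1 m11_2 m11_3 m12_1 m12_2 m12_3 m13_1 m13_2 m13_3 m22_1 m22_2 m22_3 m33_1 m33_2 m33_3)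
    (e0 : 0 < B1)
    (e1 : 0 < A1)
    (e2 : 0 < B3)
    (e3 : 0 < A2)
    (s1 : 1 * A1 + 2 * B1 ≤ m11_1 + m13_1 + m22_1)
    (s2 : 1 * A2 + 2 * B2 ≤ m11_2 + m13_2 + m22_2)
    (s3 : 1 * A3 + 2 * B3 ≤ m11_3 + m13_3 + m22_3) : False := by
  have d2 : ((0 ≤ 1 - A1 + m13_1) ∧ (0 ≤ -1 + A1 - m13_1)) ∨ ((0 ≤ 1 - B3 + m13_1) ∧ (0 ≤ -1 + B3 - m13_1)) := by
    have h := C.f13_2
    clear C e0 e1 e2 e3 s1 s2 s3
    omega
  have d4 : ((0 ≤ 0 - m13_2 + m13_3 - n3) ∧ (0 ≤ 0 + m13_2 - m13_3 + n3)) ∨ ((0 ≤ 1 - B3 + m13_3) ∧ (0 ≤ -1 + B3 - m13_3)) := by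
    have h := C.f13_8
    clear C e0 e1 e2 e3 s1 s2 s3
    omega
  have d6 : ((0 ≤ 0 - m22_1 + m22_2 - n2) ∧ (0 ≤ 0 + m22_1 - m22_2 + n2)) ∨ ((0 ≤ 1 - A2 + m22_2) ∧ (0 ≤ -1 + A2 - m22_2)) := by
    have h := C.f22_5
    clear C e0 e1 e2 e3 s1 s2 s3
    omega
  have d7 : ((0 ≤ 0 - B1)) ∨ ((0 ≤ 0 - A1)) ∨ ((0 ≤ 0 - B3)) ∨ ((0 ≤ -1 + 2 * B1 - m11_1 - m13_1)) ∨ ((0 ≤ -1 + 2 * B2 - m11_2 - m13_2)) ∨ ((0 ≤ -1 + 2 * B3 - m11_3 - m13_3)) := by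
    have h := C.p11_13B
    clear C e0 e1 e2 e3 s1 s2 s3
    omega
  have d8 : ((0 ≤ 0 - B1)) ∨ ((0 ≤ 0 - A2)) ∨ ((0 ≤ -1 + 2 * B1 - m11_1 - m22_1)) ∨ ((0 ≤ -1 + 2 * B2 - m11_2 - m22_2)) ∨ ((0 ≤ -1 + 2 * B3 - m11_3 - m22_3)) := by
    have h := C.p11_22B
    clear C e0 e1 e2 e3 s1 s2 s3
    omega
  have d9 : ((0 ≤ 0 - A1)) ∨ ((0 ≤ 0 - B3)) ∨ ((0 ≤ 0 - A2)) ∨ ((0 ≤ -1 + 2 * A1 - m13_1 - m22_1)) ∨ ((0 ≤ -1 + 2 * A2 - m13_2 - m22_2)) ∨ ((0 ≤ -1 + 2 * A3 - m13_3 - m22_3)) := by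
    have h := C.p13_22A
    clear C e0 e1 e2 e3 s1 s2 s3
    omega
  have d10 : ((0 ≤ 0 + A1 - n1)) ∨ ((0 ≤ 0 + A1 - A2)) ∨ ((0 ≤ 0 + A2 - A3)) ∨ ((0 ≤ 0 - B1)) ∨ ((0 ≤ 0 - B1 + B2 - n2)) ∨ ((0 ≤ 0 - B2 + B3 - n3)) := by
    have h := C.tmzp
    clear C e0 e1 e2 e3 s1 s2 s3
    omega
  have d11 : ((0 ≤ 0 - A1)) ∨ ((0 ≤ 1 - A1 + A2 - n2)) ∨ ((0 ≤ 0 + B1 - n1)) ∨ ((0 ≤ 1 + B1 - B2)) ∨ ((0 ≤ 1 + A2 - B2) ∧ (0 ≤ 1 + A3 - B3)) ∨ ((0 ≤ 1 - A1 + B1)) := by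
    have h := C.tpmm
    clear C e0 e1 e2 e3 s1 s2 s3
    omega
  rcases d2 with ⟨g1, g2⟩ | ⟨g3, g4⟩
  · rcases d6 with ⟨g5, g6⟩ | ⟨g7, g8⟩
    · linarith only [C.b3, s1, C.o1, C.f11_0, g2, g5, C.f22_4]
    · rcases d7 with g9 | g10 | g11 | g12 | g13 | g14
      · linarith only [g9, e0]
      · linarith only [g10, e1]
      · linarith only [g11, e2]
      · rcases d9 with g15 | g16 | g17 | g18 | g19 | g20
        · linarith only [g15, e1]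
        · linarith only [g16, e2]
        · linarith only [g17, e3]
        · linarith only [g12, s1, g1, g18]
        · rcases d8 with g21 | g22 | g23 | g24 | g25
          · linarith only [g21, e0]
          · linarith only [g22, e3]
          · linarith only [g23, s1, g2]
          · linarith only [g24, s2, g7, g19]
          · linarith only [C.b5, s2, C.f11_2, g7, C.f22_6, g25, g19]
        · rcases d8 with g26 | g27 | g28 | g29 | g30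
          · linarith only [g26, e0]
          · linarith only [g27, e3]
          · linarith only [g28, s1, g2]
          · rcases d10 with g31 | g32 | g33 | g34 | g35 | g36
            · linarith only [g12, s1, g31, C.f22_0]
            · linarith only [g12, s1, g32, C.f22_1]
            · rcases d4 with ⟨g37, g38⟩ | ⟨g39, g40⟩
              · linarith only [C.a5, s2, g37, g7, C.f22_6, g29, g20]
              · linarith only [g39, s2, s3, g33, C.b4, C.f11_2, C.f13_4, g7, C.f22_6, g29, g20]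
            · linarith only [g34, e0]
            · linarith only [C.f13_3, s2, g35, C.f11_1, g8, g12]
            · linarith only [g29, s3, C.a5, g36, C.f11_2, g7, g20]
          · linarith only [g30, s3, C.a5, g7, C.f22_6, g20]
      · linarith only [g13, s2, g8]
      · rcases d4 with ⟨g41, g42⟩ | ⟨g43, g44⟩
        · linarith only [C.b5, s2, C.f11_2, g41, g8, g14]
        · rcases d9 with g45 | g46 | g47 | g48 | g49 | g50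
          · linarith only [g45, e1]
          · linarith only [g46, e2]
          · linarith only [g47, e3]
          · rcases d11 with g51 | g52 | g53 | g54 | ⟨g55, g56⟩ | g57
            · linarith only [g51, e1]
            · linarith only [s2, g52, C.b5, C.o1, C.f11_2, g2, C.f13_3, g43, g8, g14]
            · linarith only [g53, s2, C.a1, C.b5, C.f11_0, C.f11_1, C.f11_2, g2, C.f13_3, g43, g8, g14]
            · linarith only [g54, s1, C.o1, C.f11_0, g2, C.f22_1]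
            · linarith only [C.b3, s3, C.o1, g56, C.f11_0, C.f11_1, C.f11_2, g43, g8, C.f22_6, g14]
            · linarith only [g48, s1, g57, C.f11_0]
          · linarith only [C.b5, s2, C.o1, C.f11_2, g43, g14, g49]
          · linarith only [C.b3, s3, C.o1, C.f11_0, C.f11_1, C.f11_2, g43, g8, C.f22_6, g14, g50]
  · linarith only [C.a2, C.b4, C.o1, C.f13_0, g3]

theorem c2_11_13_22_k2 {n1 n2 n3 A1 A2 A3 B1 B2 B3 m11_1 m11_2 m11_3 m12_1 m12_2 m12_3 m13_1 m13_2 m13_3 m22_1 m22_2 m22_3 m33_1 m33_2 m33_3 : ℤ}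
    (C : Ctx2 n1 n2 n3 A1 A2 A3 B1 B2 B3 m11_1 m11_2 m11_3 m12_1 m12_2 m12_3 m13_1 m13_2 m13_3 m22_1 m22_2 m22_3 m33_1 m33_2 m33_3)
    (e0 : 0 < B1)
    (e1 : 0 < A1)
    (e2 : 0 < B3)
    (e3 : 0 < A2)
    (s1 : 2 * A1 + 1 * B1 ≤ m11_1 + m13_1 + m22_1)
    (s2 : 2 * A2 + 1 * B2 ≤ m11_2 + m13_2 + m22_2)
    (s3 : 2 * A3 + 1 * B3 ≤ m11_3 + m13_3 + m22_3) : False := by
  have d2 : ((0 ≤ 1 - A1 + m13_1) ∧ (0 ≤ -1 + A1 - m13_1)) ∨ ((0 ≤ 1 - B3 + m13_1) ∧ (0 ≤ -1 + B3 - m13_1)) := by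
    have h := C.f13_2
    clear C e0 e1 e2 e3 s1 s2 s3
    omega
  have d4 : ((0 ≤ 0 - m13_2 + m13_3 - n3) ∧ (0 ≤ 0 + m13_2 - m13_3 + n3)) ∨ ((0 ≤ 1 - B3 + m13_3) ∧ (0 ≤ -1 + B3 - m13_3)) := by
    have h := C.f13_8
    clear C e0 e1 e2 e3 s1 s2 s3
    omega
  have d6 : ((0 ≤ 0 - m22_1 + m22_2 - n2) ∧ (0 ≤ 0 + m22_1 - m22_2 + n2)) ∨ ((0 ≤ 1 - A2 + m22_2) ∧ (0 ≤ -1 + A2 - m22_2)) := by
    have h := C.f22_5
    clear C e0 e1 e2 e3 s1 s2 s3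
    omega
  have d7 : ((0 ≤ 0 - B1)) ∨ ((0 ≤ 0 - A1)) ∨ ((0 ≤ 0 - B3)) ∨ ((0 ≤ -1 + 2 * B1 - m11_1 - m13_1)) ∨ ((0 ≤ -1 + 2 * B2 - m11_2 - m13_2)) ∨ ((0 ≤ -1 + 2 * B3 - m11_3 - m13_3)) := by
    have h := C.p11_13B
    clear C e0 e1 e2 e3 s1 s2 s3
    omega
  have d8 : ((0 ≤ 0 - B1)) ∨ ((0 ≤ 0 - A2)) ∨ ((0 ≤ -1 + 2 * A1 - m11_1 - m22_1)) ∨ ((0 ≤ -1 + 2 * A2 - m11_2 - m22_2)) ∨ ((0 ≤ -1 + 2 * A3 - m11_3 - m22_3)) := by
    have h := C.p11_22A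
    clear C e0 e1 e2 e3 s1 s2 s3
    omega
  have d9 : ((0 ≤ 0 - A1)) ∨ ((0 ≤ 0 - B3)) ∨ ((0 ≤ 0 - A2)) ∨ ((0 ≤ -1 + 2 * A1 - m13_1 - m22_1)) ∨ ((0 ≤ -1 + 2 * A2 - m13_2 - m22_2)) ∨ ((0 ≤ -1 + 2 * A3 - m13_3 - m22_3)) := by
    have h := C.p13_22A
    clear C e0 e1 e2 e3 s1 s2 s3
    omega
  have d10 : ((0 ≤ 0 - A1)) ∨ ((0 ≤ 1 - A1 + A2 - n2)) ∨ ((0 ≤ 0 + B1 - n1)) ∨ ((0 ≤ 1 + B1 - B2)) ∨ ((0 ≤ 1 + A2 - B2) ∧ (0 ≤ 1 + A3 - B3)) ∨ ((0 ≤ 1 - A1 + B1)) := by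
    have h := C.tpmm
    clear C e0 e1 e2 e3 s1 s2 s3
    omega
  rcases d2 with ⟨g1, g2⟩ | ⟨g3, g4⟩
  · rcases d6 with ⟨g5, g6⟩ | ⟨g7, g8⟩
    · linarith only [C.a3, s1, C.f11_0, g2, g5, C.f22_4]
    · rcases d9 with g9 | g10 | g11 | g12 | g13 | g14
      · linarith only [g9, e1]
      · linarith only [g10, e2]
      · linarith only [g11, e3]
      · linarith only [g12, s1, C.f11_0]
      · rcases d8 with g15 | g16 | g17 | g18 | g19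
        · linarith only [g15, e0]
        · linarith only [g16, e3]
        · rcases d10 with g20 | g21 | g22 | g23 | ⟨g24, g25⟩ | g26
          · linarith only [g20, e1]
          · linarith only [C.o1, s1, s2, g21, C.f11_0, C.f11_1, g2, g17, g13]
          · linarith only [g22, s1, C.f11_0, g2, C.f22_0, g17]
          · linarith only [C.o1, s1, g23, C.f11_0, g2, C.f22_1, g17]
          · rcases d7 with g27 | g28 | g29 | g30 | g31 | g32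
            · linarith only [g27, e0]
            · linarith only [g28, e1]
            · linarith only [g29, e2]
            · linarith only [g30, s1, C.f11_0, g17]
            · linarith only [g31, s2, g24, g8]
            · rcases d4 with ⟨g33, g34⟩ | ⟨g35, g36⟩
              · linarith only [g33, s2, s3, C.o1, g25, C.f11_2, g8, C.f22_6, g32]
              · linarith only [g35, s2, s3, C.o1, g25, C.f11_2, g8, C.f22_6, g32, g13]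
          · linarith only [g26, s1, g2, g17]
        · linarith only [C.o1, s2, g7, g18, g13]
        · linarith only [C.a5, s2, C.o1, C.f11_2, g7, C.f22_6, g19, g13]
      · rcases d10 with g37 | g38 | g39 | g40 | ⟨g41, g42⟩ | g43
        · linarith only [g37, e1]
        · linarith only [C.o1, g38, C.b3, C.o0]
        · linarith only [g39, s1, C.o0, C.f11_0, g2, C.f22_0]
        · linarith only [C.o1, s1, g40, C.o0, C.f11_0, g2, C.f22_1]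
        · rcases d7 with g44 | g45 | g46 | g47 | g48 | g49
          · linarith only [g44, e0]
          · linarith only [g45, e1]
          · linarith only [g46, e2]
          · rcases d8 with g50 | g51 | g52 | g53 | g54
            · linarith only [g50, e0]
            · linarith only [g51, e3]
            · linarith only [g52, s1, C.f11_0, g47]
            · linarith only [C.f13_3, s2, C.o1, C.f11_0, C.f11_1, g7, g47, g53]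
            · linarith only [C.a5, s3, C.o2, g7, C.f22_6, g54, g14]
          · linarith only [s2, g41, g8, g48]
          · rcases d4 with ⟨g55, g56⟩ | ⟨g57, g58⟩
            · linarith only [s2, s3, C.o1, g42, C.f11_2, g55, g8, C.f22_6, g49]
            · linarith only [g57, s3, g49, g14]
        · rcases d8 with g59 | g60 | g61 | g62 | g63
          · linarith only [g59, e0]
          · linarith only [g60, e3]
          · linarith only [g43, s1, g2, g61]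
          · linarith only [C.o1, s2, g43, C.f11_0, C.f11_1, g2, C.f13_3, g7, g62]
          · linarith only [C.a5, s3, C.o2, g7, C.f22_6, g63, g14]
  · linarith only [C.b4, s1, C.o1, C.f11_0, C.f13_0, g3, C.f22_1]

theorem c2_11_13_22_k3 {n1 n2 n3 A1 A2 A3 B1 B2 B3 m11_1 m11_2 m11_3 m12_1 m12_2 m12_3 m13_1 m13_2 m13_3 m22_1 m22_2 m22_3 m33_1 m33_2 m33_3 : ℤ}
    (C : Ctx2 n1 n2 n3 A1 A2 A3 B1 B2 B3 m11_1 m11_2 m11_3 m12_1 m12_2 m12_3 m13_1 m13_2 m13_3 m22_1 m22_2 m22_3 m33_1 m33_2 m33_3)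
    (e0 : 0 < B1)
    (e1 : 0 < A1)
    (e2 : 0 < B3)
    (e3 : 0 < A2)
    (s1 : 3 * A1 + 0 * B1 ≤ m11_1 + m13_1 + m22_1)
    (s2 : 3 * A2 + 0 * B2 ≤ m11_2 + m13_2 + m22_2)
    (s3 : 3 * A3 + 0 * B3 ≤ m11_3 + m13_3 + m22_3) : False := by
  have d2 : ((0 ≤ 1 - A1 + m13_1) ∧ (0 ≤ -1 + A1 - m13_1)) ∨ ((0 ≤ 1 - B3 + m13_1) ∧ (0 ≤ -1 + B3 - m13_1)) := by
    have h := C.f13_2
    clear C e0 e1 e2 e3 s1 s2 s3
    omega
  have d4 : ((0 ≤ 0 - m13_2 + m13_3 - n3) ∧ (0 ≤ 0 + m13_2 - m13_3 + n3)) ∨ ((0 ≤ 1 - B3 + m13_3) ∧ (0 ≤ -1 + B3 - m13_3)) := by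
    have h := C.f13_8
    clear C e0 e1 e2 e3 s1 s2 s3
    omega
  have d6 : ((0 ≤ 0 - m22_1 + m22_2 - n2) ∧ (0 ≤ 0 + m22_1 - m22_2 + n2)) ∨ ((0 ≤ 1 - A2 + m22_2) ∧ (0 ≤ -1 + A2 - m22_2)) := by
    have h := C.f22_5
    clear C e0 e1 e2 e3 s1 s2 s3
    omega
  have d7 : ((0 ≤ 0 - B1)) ∨ ((0 ≤ 0 - A2)) ∨ ((0 ≤ -1 + 2 * A1 - m11_1 - m22_1)) ∨ ((0 ≤ -1 + 2 * A2 - m11_2 - m22_2)) ∨ ((0 ≤ -1 + 2 * A3 - m11_3 - m22_3)) := by
    have h := C.p11_22A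
    clear C e0 e1 e2 e3 s1 s2 s3
    omega
  have d8 : ((0 ≤ 0 - A1)) ∨ ((0 ≤ 0 - B3)) ∨ ((0 ≤ 0 - A2)) ∨ ((0 ≤ -1 + 2 * A1 - m13_1 - m22_1)) ∨ ((0 ≤ -1 + 2 * A2 - m13_2 - m22_2)) ∨ ((0 ≤ -1 + 2 * A3 - m13_3 - m22_3)) := by
    have h := C.p13_22A
    clear C e0 e1 e2 e3 s1 s2 s3
    omega
  rcases d2 with ⟨g1, g2⟩ | ⟨g3, g4⟩
  · rcases d6 with ⟨g5, g6⟩ | ⟨g7, g8⟩
    · linarith only [C.f22_4, s1, C.b3, C.o0, C.o1, C.f11_0, g2, g5]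
    · rcases d7 with g9 | g10 | g11 | g12 | g13
      · linarith only [g9, e0]
      · linarith only [g10, e3]
      · linarith only [g11, s1, g2]
      · rcases d8 with g14 | g15 | g16 | g17 | g18 | g19
        · linarith only [g14, e1]
        · linarith only [g15, e2]
        · linarith only [g16, e3]
        · linarith only [g17, s1, C.o0, C.f11_0]
        · linarith only [g18, s2, g7, g12]
        · rcases d4 with ⟨g20, g21⟩ | ⟨g22, g23⟩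
          · linarith only [g20, s2, s3, C.f11_2, g7, C.f22_6, g12, g19]
          · linarith only [g22, s3, C.o2, C.f11_2, g7, C.f22_6, g12, g19]
      · linarith only [C.a5, s3, C.b3, C.b5, C.f11_0, C.f11_1, C.f11_2, C.f13_7, g7, C.f22_6, g13]
  · linarith only [C.b4, s1, C.o0, C.o1, C.f11_0, C.f13_0, g3, C.f22_1]

theorem c2_11_13_33_k0 {n1 n2 n3 A1 A2 A3 B1 B2 B3 m11_1 m11_2 m11_3 m12_1 m12_2 m12_3 m13_1 m13_2 m13_3 m22_1 m22_2 m22_3 m33_1 m33_2 m33_3 : ℤ}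
    (C : Ctx2 n1 n2 n3 A1 A2 A3 B1 B2 B3 m11_1 m11_2 m11_3 m12_1 m12_2 m12_3 m13_1 m13_2 m13_3 m22_1 m22_2 m22_3 m33_1 m33_2 m33_3)
    (e0 : 0 < B1)
    (e1 : 0 < A1)
    (e2 : 0 < B3)
    (e3 : 0 < A3)
    (s1 : 0 * A1 + 3 * B1 ≤ m11_1 + m13_1 + m33_1)
    (s2 : 0 * A2 + 3 * B2 ≤ m11_2 + m13_2 + m33_2)
    (s3 : 0 * A3 + 3 * B3 ≤ m11_3 + m13_3 + m33_3) : False := by
  have d2 : ((0 ≤ 1 - A1 + m12_1) ∧ (0 ≤ -1 + A1 - m12_1)) ∨ ((0 ≤ 1 - B2 + m12_1) ∧ (0 ≤ -1 + B2 - m12_1)) := by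
    have h := C.f12_2
    clear C e0 e1 e2 e3 s1 s2 s3
    omega
  have d3 : ((0 ≤ 0 - m12_1 + m12_2 - n2) ∧ (0 ≤ 0 + m12_1 - m12_2 + n2)) ∨ ((0 ≤ 1 - B2 + m12_2) ∧ (0 ≤ -1 + B2 - m12_2)) := by
    have h := C.f12_5
    clear C e0 e1 e2 e3 s1 s2 s3
    omega
  have d4 : ((0 ≤ 1 - A1 + m13_1) ∧ (0 ≤ -1 + A1 - m13_1)) ∨ ((0 ≤ 1 - B3 + m13_1) ∧ (0 ≤ -1 + B3 - m13_1)) := by
    have h := C.f13_2
    clear C e0 e1 e2 e3 s1 s2 s3
    omega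
  have d8 : ((0 ≤ 0 - m33_1 + m33_2 - n2) ∧ (0 ≤ 0 + m33_1 - m33_2 + n2)) ∨ ((0 ≤ 1 - A3 + m33_2) ∧ (0 ≤ -1 + A3 - m33_2)) := by
    have h := C.f33_5
    clear C e0 e1 e2 e3 s1 s2 s3
    omega
  have d10 : ((0 ≤ 0 - B1)) ∨ ((0 ≤ 0 - A1)) ∨ ((0 ≤ 0 - B3)) ∨ ((0 ≤ -1 + 2 * B1 - m11_1 - m13_1)) ∨ ((0 ≤ -1 + 2 * B2 - m11_2 - m13_2)) ∨ ((0 ≤ -1 + 2 * B3 - m11_3 - m13_3)) := by
    have h := C.p11_13B
    clear C e0 e1 e2 e3 s1 s2 s3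
    omega
  have d11 : ((0 ≤ 0 - B1)) ∨ ((0 ≤ 0 - A3)) ∨ ((0 ≤ -1 + 2 * B1 - m11_1 - m33_1)) ∨ ((0 ≤ -1 + 2 * B2 - m11_2 - m33_2)) ∨ ((0 ≤ -1 + 2 * B3 - m11_3 - m33_3)) := by
    have h := C.p11_33B
    clear C e0 e1 e2 e3 s1 s2 s3
    omega
  have d12 : ((0 ≤ 0 - A1)) ∨ ((0 ≤ 0 - B2)) ∨ ((0 ≤ 0 - B3)) ∨ ((0 ≤ -1 + 2 * B1 - m12_1 - m13_1)) ∨ ((0 ≤ -1 + 2 * B2 - m12_2 - m13_2)) ∨ ((0 ≤ -1 + 2 * B3 - m12_3 - m13_3)) := by
    have h := C.p12_13B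
    clear C e0 e1 e2 e3 s1 s2 s3
    omega
  have d14 : ((0 ≤ 0 - A1 + A2 - n2)) ∨ ((0 ≤ 1 + A2 - A3)) ∨ ((0 ≤ 0 + B1 - B2)) ∨ ((0 ≤ 1 - B2 + B3 - n3)) := by
    have h := C.tzmp
    clear C e0 e1 e2 e3 s1 s2 s3
    omega
  rcases d2 with ⟨g1, g2⟩ | ⟨g3, g4⟩
  · rcases d3 with ⟨g5, g6⟩ | ⟨g7, g8⟩
    · linarith only [C.b3, C.o0, g1, g5, C.f12_4]
    · rcases d4 with ⟨g9, g10⟩ | ⟨g11, g12⟩
      · rcases d10 with g13 | g14 | g15 | g16 | g17 | g18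
        · linarith only [g13, e0]
        · linarith only [g14, e1]
        · linarith only [g15, e2]
        · rcases d11 with g19 | g20 | g21 | g22 | g23
          · linarith only [g19, e0]
          · linarith only [g20, e3]
          · linarith only [g21, s1, C.f11_0, g16]
          · rcases d12 with g24 | g25 | g26 | g27 | g28 | g29
            · linarith only [g24, e1]
            · linarith only [e1, C.a2, C.o1, g25]
            · linarith only [g26, e2]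
            · linarith only [g27, C.o0, g1, g9]
            · linarith only [s2, g7, g22, g28]
            · rcases d8 with ⟨g30, g31⟩ | ⟨g32, g33⟩
              · linarith only [g16, s1, s3, C.o2, C.f11_0, C.f11_1, C.f11_2, g7, C.f12_6, g30, C.f33_7, g22, g29]
              · linarith only [g32, s2, s3, C.f11_2, g7, C.f12_6, C.f13_4, C.f33_7, g22, g29]
          · linarith only [C.f13_7, s3, g23]
        · rcases d14 with g34 | g35 | g36 | g37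
          · linarith only [C.b3, g34, C.o0, C.o1]
          · linarith only [g35, s2, C.o1, C.f33_4, g17]
          · linarith only [g36, C.a2, C.o0, C.o1]
          · linarith only [C.f13_6, s3, g37, C.o2, C.f11_2, C.f33_7, g17]
        · linarith only [g18, s3, C.o2, C.f33_7]
      · linarith only [C.a4, C.a2, C.o2, C.f13_0, g11]
  · linarith only [C.a2, C.o1, C.f12_0, g3]

theorem c2_11_13_33_k1 {n1 n2 n3 A1 A2 A3 B1 B2 B3 m11_1 m11_2 m11_3 m12_1 m12_2 m12_3 m13_1 m13_2 m13_3 m22_1 m22_2 m22_3 m33_1 m33_2 m33_3 : ℤ}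
    (C : Ctx2 n1 n2 n3 A1 A2 A3 B1 B2 B3 m11_1 m11_2 m11_3 m12_1 m12_2 m12_3 m13_1 m13_2 m13_3 m22_1 m22_2 m22_3 m33_1 m33_2 m33_3)
    (e0 : 0 < B1)
    (e1 : 0 < A1)
    (e2 : 0 < B3)
    (e3 : 0 < A3)
    (s1 : 1 * A1 + 2 * B1 ≤ m11_1 + m13_1 + m33_1)
    (s2 : 1 * A2 + 2 * B2 ≤ m11_2 + m13_2 + m33_2)
    (s3 : 1 * A3 + 2 * B3 ≤ m11_3 + m13_3 + m33_3) : False := by
  have d2 : ((0 ≤ 1 - A1 + m13_1) ∧ (0 ≤ -1 + A1 - m13_1)) ∨ ((0 ≤ 1 - B3 + m13_1) ∧ (0 ≤ -1 + B3 - m13_1)) := by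
    have h := C.f13_2
    clear C e0 e1 e2 e3 s1 s2 s3
    omega
  have d3 : ((0 ≤ 0 - m13_1 + m13_2 - n2) ∧ (0 ≤ 0 + m13_1 - m13_2 + n2)) ∨ ((0 ≤ 1 - B3 + m13_2) ∧ (0 ≤ -1 + B3 - m13_2)) := by
    have h := C.f13_5
    clear C e0 e1 e2 e3 s1 s2 s3
    omega
  have d4 : ((0 ≤ 0 - m13_2 + m13_3 - n3) ∧ (0 ≤ 0 + m13_2 - m13_3 + n3)) ∨ ((0 ≤ 1 - B3 + m13_3) ∧ (0 ≤ -1 + B3 - m13_3)) := by
    have h := C.f13_8
    clear C e0 e1 e2 e3 s1 s2 s3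
    omega
  have d6 : ((0 ≤ 0 - m33_1 + m33_2 - n2) ∧ (0 ≤ 0 + m33_1 - m33_2 + n2)) ∨ ((0 ≤ 1 - A3 + m33_2) ∧ (0 ≤ -1 + A3 - m33_2)) := by
    have h := C.f33_5
    clear C e0 e1 e2 e3 s1 s2 s3
    omega
  have d7 : ((0 ≤ 0 - m33_2 + m33_3 - n3) ∧ (0 ≤ 0 + m33_2 - m33_3 + n3)) ∨ ((0 ≤ 1 - A3 + m33_3) ∧ (0 ≤ -1 + A3 - m33_3)) := by
    have h := C.f33_8
    clear C e0 e1 e2 e3 s1 s2 s3
    omega
  have d8 : ((0 ≤ 0 - B1)) ∨ ((0 ≤ 0 - A1)) ∨ ((0 ≤ 0 - B3)) ∨ ((0 ≤ -1 + 2 * B1 - m11_1 - m13_1)) ∨ ((0 ≤ -1 + 2 * B2 - m11_2 - m13_2)) ∨ ((0 ≤ -1 + 2 * B3 - m11_3 - m13_3)) := by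
    have h := C.p11_13B
    clear C e0 e1 e2 e3 s1 s2 s3
    omega
  have d9 : ((0 ≤ 0 - B1)) ∨ ((0 ≤ 0 - A3)) ∨ ((0 ≤ -1 + 2 * B1 - m11_1 - m33_1)) ∨ ((0 ≤ -1 + 2 * B2 - m11_2 - m33_2)) ∨ ((0 ≤ -1 + 2 * B3 - m11_3 - m33_3)) := by
    have h := C.p11_33B
    clear C e0 e1 e2 e3 s1 s2 s3
    omega
  have d10 : ((0 ≤ 0 - A1)) ∨ ((0 ≤ 0 - B3)) ∨ ((0 ≤ 0 - A3)) ∨ ((0 ≤ -1 + 2 * A1 - m13_1 - m33_1)) ∨ ((0 ≤ -1 + 2 * A2 - m13_2 - m33_2)) ∨ ((0 ≤ -1 + 2 * A3 - m13_3 - m33_3)) := by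
    have h := C.p13_33A
    clear C e0 e1 e2 e3 s1 s2 s3
    omega
  have d11 : ((0 ≤ 0 + A1 - n1)) ∨ ((0 ≤ 0 + A1 - A2)) ∨ ((0 ≤ 0 + A2 - A3)) ∨ ((0 ≤ 0 - B1)) ∨ ((0 ≤ 0 - B1 + B2 - n2)) ∨ ((0 ≤ 0 - B2 + B3 - n3)) := by
    have h := C.tmzp
    clear C e0 e1 e2 e3 s1 s2 s3
    omega
  have d12 : ((0 ≤ 0 - A1 + A2 - n2)) ∨ ((0 ≤ 1 + A2 - A3)) ∨ ((0 ≤ 0 + B1 - B2)) ∨ ((0 ≤ 1 - B2 + B3 - n3)) := by
    have h := C.tzmp
    clear C e0 e1 e2 e3 s1 s2 s3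
    omega
  rcases d2 with ⟨g1, g2⟩ | ⟨g3, g4⟩
  · rcases d8 with g5 | g6 | g7 | g8 | g9 | g10
    · linarith only [g5, e0]
    · linarith only [g6, e1]
    · linarith only [g7, e2]
    · rcases d10 with g11 | g12 | g13 | g14 | g15 | g16
      · linarith only [g11, e1]
      · linarith only [g12, e2]
      · linarith only [g13, e3]
      · linarith only [g8, s1, g1, g14]
      · rcases d9 with g17 | g18 | g19 | g20 | g21
        · linarith only [g17, e0]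
        · linarith only [g18, e3]
        · linarith only [g19, s1, g2]
        · rcases d6 with ⟨g22, g23⟩ | ⟨g24, g25⟩
          · linarith only [g20, s1, s2, C.o1, C.f11_0, C.f11_1, g2, g22, g15]
          · linarith only [C.a4, s2, g24, g20, g15]
        · rcases d12 with g26 | g27 | g28 | g29
          · linarith only [C.o0, s2, g26, C.o1, C.f11_0, C.f11_1, g15]
          · rcases d6 with ⟨g30, g31⟩ | ⟨g32, g33⟩
            · linarith only [g27, s1, s2, C.o1, C.f11_0, C.f11_1, g2, g30, C.f33_4, g15]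
            · rcases d3 with ⟨g34, g35⟩ | ⟨g36, g37⟩
              · linarith only [C.o0, s2, C.a4, C.o1, C.f11_0, C.f11_1, g1, g34, g32, g15]
              · linarith only [s3, C.a4, g36, C.f13_7, g32, g21, g15]
          · linarith only [C.a2, g28, C.o0, C.o1]
          · rcases d6 with ⟨g38, g39⟩ | ⟨g40, g41⟩
            · linarith only [s3, s1, g29, C.o1, C.f11_0, C.f11_1, C.f11_2, g2, C.f13_6, g38, C.f33_7, g15]
            · rcases d3 with ⟨g42, g43⟩ | ⟨g44, g45⟩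
              · linarith only [C.o0, s2, C.a4, C.o1, C.f11_0, C.f11_1, g1, g42, g40, g15]
              · linarith only [s3, C.a4, g44, C.f13_7, g40, g21, g15]
      · rcases d9 with g46 | g47 | g48 | g49 | g50
        · linarith only [g46, e0]
        · linarith only [g47, e3]
        · linarith only [g48, s1, g2]
        · rcases d6 with ⟨g51, g52⟩ | ⟨g53, g54⟩
          · linarith only [C.b3, s1, C.f11_1, g2, g51, g49]
          · rcases d7 with ⟨g55, g56⟩ | ⟨g57, g58⟩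
            · linarith only [C.f33_7, s3, C.b4, C.f11_2, g53, g55, g49, g16]
            · rcases d4 with ⟨g59, g60⟩ | ⟨g61, g62⟩
              · linarith only [s2, C.a5, g59, g57, g49, g16]
              · rcases d11 with g63 | g64 | g65 | g66 | g67 | g68
                · linarith only [s1, g63, C.f33_0, g8]
                · rcases d12 with g69 | g70 | g71 | g72
                  · linarith only [s2, g69, g2, C.f13_3, g49]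
                  · linarith only [g8, s1, g64, g70, C.f33_1]
                  · linarith only [C.a3, s1, C.a2, g71, C.f11_1, g2, C.f33_1, g53, g49]
                  · linarith only [C.a5, s1, s3, g64, g72, C.f11_2, C.f33_1, g53, g8, g49, g16]
                · linarith only [s2, g65, C.f13_4, g61, g57, g49, g16]
                · linarith only [g66, e0]
                · rcases d12 with g73 | g74 | g75 | g76
                  · linarith only [C.o0, g73, C.b3, C.o1]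
                  · linarith only [C.f13_4, s2, g74, g67, C.o1, C.f11_0, C.f11_1, g61, g54, g57, g16]
                  · linarith only [C.a2, g75, C.o0, C.o1]
                  · linarith only [g76, s3, g67, C.f11_0, C.f11_1, C.f11_2, g62, g58]
                · linarith only [C.a5, s3, C.a4, g68, C.f11_2, g53, g49, g16]
        · rcases d7 with ⟨g77, g78⟩ | ⟨g79, g80⟩
          · rcases d6 with ⟨g81, g82⟩ | ⟨g83, g84⟩
            · linarith only [g81, s1, s3, C.f11_0, C.f11_1, C.f11_2, g2, C.f13_7, g77, g50, g16]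
            · linarith only [C.a5, s3, C.a4, g83, g77, g50, g16]
          · linarith only [g79, s3, g50, g16]
    · rcases d12 with g85 | g86 | g87 | g88
      · linarith only [C.o0, g85, C.b3, C.o1]
      · linarith only [g86, s2, C.f33_4, g9]
      · linarith only [g87, C.a2, C.o0, C.o1]
      · rcases d3 with ⟨g89, g90⟩ | ⟨g91, g92⟩
        · linarith only [g88, s3, C.o0, C.f11_0, C.f11_1, C.f11_2, g1, g89, C.f13_7, C.f33_7, g9]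
        · linarith only [C.a5, s2, s3, g88, C.f11_2, g91, C.f13_7, C.f33_4, C.f33_7, g9]
    · linarith only [g10, s3, C.f33_7]
  · linarith only [C.a4, C.a2, C.o2, C.f13_0, g3]

theorem c2_11_13_33_k2 {n1 n2 n3 A1 A2 A3 B1 B2 B3 m11_1 m11_2 m11_3 m12_1 m12_2 m12_3 m13_1 m13_2 m13_3 m22_1 m22_2 m22_3 m33_1 m33_2 m33_3 : ℤ}
    (C : Ctx2 n1 n2 n3 A1 A2 A3 B1 B2 B3 m11_1 m11_2 m11_3 m12_1 m12_2 m12_3 m13_1 m13_2 m13_3 m22_1 m22_2 m22_3 m33_1 m33_2 m33_3)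
    (e0 : 0 < B1)
    (e1 : 0 < A1)
    (e2 : 0 < B3)
    (e3 : 0 < A3)
    (s1 : 2 * A1 + 1 * B1 ≤ m11_1 + m13_1 + m33_1)
    (s2 : 2 * A2 + 1 * B2 ≤ m11_2 + m13_2 + m33_2)
    (s3 : 2 * A3 + 1 * B3 ≤ m11_3 + m13_3 + m33_3) : False := by
  have d2 : ((0 ≤ 1 - A1 + m13_1) ∧ (0 ≤ -1 + A1 - m13_1)) ∨ ((0 ≤ 1 - B3 + m13_1) ∧ (0 ≤ -1 + B3 - m13_1)) := by
    have h := C.f13_2
    clear C e0 e1 e2 e3 s1 s2 s3
    omega
  have d6 : ((0 ≤ 0 - m33_1 + m33_2 - n2) ∧ (0 ≤ 0 + m33_1 - m33_2 + n2)) ∨ ((0 ≤ 1 - A3 + m33_2) ∧ (0 ≤ -1 + A3 - m33_2)) := by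
    have h := C.f33_5
    clear C e0 e1 e2 e3 s1 s2 s3
    omega
  have d8 : ((0 ≤ 0 - B1)) ∨ ((0 ≤ 0 - A1)) ∨ ((0 ≤ 0 - B3)) ∨ ((0 ≤ -1 + 2 * B1 - m11_1 - m13_1)) ∨ ((0 ≤ -1 + 2 * B2 - m11_2 - m13_2)) ∨ ((0 ≤ -1 + 2 * B3 - m11_3 - m13_3)) := by
    have h := C.p11_13B
    clear C e0 e1 e2 e3 s1 s2 s3
    omega
  have d9 : ((0 ≤ 0 - B1)) ∨ ((0 ≤ 0 - A3)) ∨ ((0 ≤ -1 + 2 * A1 - m11_1 - m33_1)) ∨ ((0 ≤ -1 + 2 * A2 - m11_2 - m33_2)) ∨ ((0 ≤ -1 + 2 * A3 - m11_3 - m33_3)) := by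
    have h := C.p11_33A
    clear C e0 e1 e2 e3 s1 s2 s3
    omega
  have d10 : ((0 ≤ 0 - A1)) ∨ ((0 ≤ 1 - A1 + A2 - n2)) ∨ ((0 ≤ 0 + B1 - n1)) ∨ ((0 ≤ 1 + B1 - B2)) ∨ ((0 ≤ 1 + A2 - B2) ∧ (0 ≤ 1 + A3 - B3)) ∨ ((0 ≤ 1 - A1 + B1)) := by
    have h := C.tpmm
    clear C e0 e1 e2 e3 s1 s2 s3
    omega
  have d11 : ((0 ≤ 0 - A1)) ∨ ((0 ≤ 1 - A1 + A2 - n2)) ∨ ((0 ≤ 0 + A2 - A3)) ∨ ((0 ≤ 0 + B1 - n1)) ∨ ((0 ≤ 1 + B1 - B2)) ∨ ((0 ≤ 0 - B2 + B3 - n3)) ∨ ((0 ≤ 1 - A1 + B1)) := by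
    have h := C.tpmz
    clear C e0 e1 e2 e3 s1 s2 s3
    omega
  rcases d2 with ⟨g1, g2⟩ | ⟨g3, g4⟩
  · rcases d10 with g5 | g6 | g7 | g8 | ⟨g9, g10⟩ | g11
    · linarith only [g5, e1]
    · linarith only [C.o0, g6, C.b3, C.o1]
    · linarith only [C.o0, s1, g7, C.f11_0, g2, C.f33_0]
    · linarith only [C.a2, g8, C.o0, C.o1]
    · rcases d8 with g12 | g13 | g14 | g15 | g16 | g17
      · linarith only [g12, e0]
      · linarith only [g13, e1]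
      · linarith only [g14, e2]
      · rcases d9 with g18 | g19 | g20 | g21 | g22
        · linarith only [g18, e0]
        · linarith only [g19, e3]
        · linarith only [g15, s1, C.f11_0, g20]
        · rcases d6 with ⟨g23, g24⟩ | ⟨g25, g26⟩
          · linarith only [C.b3, s1, C.a3, C.o1, C.f11_1, g2, g23, g21]
          · linarith only [C.b3, s2, C.o1, g10, C.f11_0, C.f11_1, C.f13_4, g25, g21]
        · linarith only [g22, s3, C.f13_7]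
      · rcases d11 with g27 | g28 | g29 | g30 | g31 | g32 | g33
        · linarith only [g27, e1]
        · linarith only [C.o0, g28, C.b3, C.o1]
        · linarith only [g29, s2, g9, C.f33_4, g16]
        · linarith only [C.o0, s1, g30, C.f11_0, g2, C.f33_0]
        · linarith only [C.a2, g31, C.o0, C.o1]
        · linarith only [C.f13_6, s3, g32, g10, C.f11_2, C.f33_7, g16]
        · rcases d9 with g34 | g35 | g36 | g37 | g38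
          · linarith only [g34, e0]
          · linarith only [g35, e3]
          · linarith only [g36, s1, g33, g2]
          · linarith only [C.b3, s2, C.f11_0, C.f11_1, g16, g37]
          · linarith only [g38, s3, C.f13_7]
      · linarith only [g17, s3, g10, C.f33_7]
    · rcases d9 with g39 | g40 | g41 | g42 | g43
      · linarith only [g39, e0]
      · linarith only [g40, e3]
      · linarith only [g41, s1, g11, g2]
      · rcases d6 with ⟨g44, g45⟩ | ⟨g46, g47⟩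
        · linarith only [g44, s1, s2, g11, C.o1, C.f11_1, g2, C.f13_3, g42]
        · linarith only [g46, s2, C.a4, g11, C.o1, C.f11_0, C.f11_1, g2, C.f13_3, g42]
      · linarith only [s3, C.f13_7, g43]
  · linarith only [C.b4, C.a2, C.o1, C.f13_0, g3]

theorem c2_11_13_33_k3 {n1 n2 n3 A1 A2 A3 B1 B2 B3 m11_1 m11_2 m11_3 m12_1 m12_2 m12_3 m13_1 m13_2 m13_3 m22_1 m22_2 m22_3 m33_1 m33_2 m33_3 : ℤ}
    (C : Ctx2 n1 n2 n3 A1 A2 A3 B1 B2 B3 m11_1 m11_2 m11_3 m12_1 m12_2 m12_3 m13_1 m13_2 m13_3 m22_1 m22_2 m22_3 m33_1 m33_2 m33_3)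
    (e0 : 0 < B1)
    (e1 : 0 < A1)
    (e2 : 0 < B3)
    (e3 : 0 < A3)
    (s1 : 3 * A1 + 0 * B1 ≤ m11_1 + m13_1 + m33_1)
    (s2 : 3 * A2 + 0 * B2 ≤ m11_2 + m13_2 + m33_2)
    (s3 : 3 * A3 + 0 * B3 ≤ m11_3 + m13_3 + m33_3) : False := by
  have d2 : ((0 ≤ 1 - A1 + m13_1) ∧ (0 ≤ -1 + A1 - m13_1)) ∨ ((0 ≤ 1 - B3 + m13_1) ∧ (0 ≤ -1 + B3 - m13_1)) := by
    have h := C.f13_2
    clear C e0 e1 e2 e3 s1 s2 s3
    omega
  have d4 : ((0 ≤ 0 - m13_2 + m13_3 - n3) ∧ (0 ≤ 0 + m13_2 - m13_3 + n3)) ∨ ((0 ≤ 1 - B3 + m13_3) ∧ (0 ≤ -1 + B3 - m13_3)) := by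
    have h := C.f13_8
    clear C e0 e1 e2 e3 s1 s2 s3
    omega
  have d6 : ((0 ≤ 0 - m33_1 + m33_2 - n2) ∧ (0 ≤ 0 + m33_1 - m33_2 + n2)) ∨ ((0 ≤ 1 - A3 + m33_2) ∧ (0 ≤ -1 + A3 - m33_2)) := by
    have h := C.f33_5
    clear C e0 e1 e2 e3 s1 s2 s3
    omega
  have d7 : ((0 ≤ 0 - m33_2 + m33_3 - n3) ∧ (0 ≤ 0 + m33_2 - m33_3 + n3)) ∨ ((0 ≤ 1 - A3 + m33_3) ∧ (0 ≤ -1 + A3 - m33_3)) := by
    have h := C.f33_8
    clear C e0 e1 e2 e3 s1 s2 s3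
    omega
  have d8 : ((0 ≤ 0 - B1)) ∨ ((0 ≤ 0 - A3)) ∨ ((0 ≤ -1 + 2 * A1 - m11_1 - m33_1)) ∨ ((0 ≤ -1 + 2 * A2 - m11_2 - m33_2)) ∨ ((0 ≤ -1 + 2 * A3 - m11_3 - m33_3)) := by
    have h := C.p11_33A
    clear C e0 e1 e2 e3 s1 s2 s3
    omega
  have d9 : ((0 ≤ 0 - A1)) ∨ ((0 ≤ 0 - B3)) ∨ ((0 ≤ 0 - A3)) ∨ ((0 ≤ -1 + 2 * A1 - m13_1 - m33_1)) ∨ ((0 ≤ -1 + 2 * A2 - m13_2 - m33_2)) ∨ ((0 ≤ -1 + 2 * A3 - m13_3 - m33_3)) := by
    have h := C.p13_33A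
    clear C e0 e1 e2 e3 s1 s2 s3
    omega
  rcases d2 with ⟨g1, g2⟩ | ⟨g3, g4⟩
  · rcases d9 with g5 | g6 | g7 | g8 | g9 | g10
    · linarith only [g5, e1]
    · linarith only [g6, e2]
    · linarith only [g7, e3]
    · linarith only [g8, s1, C.o0, C.f11_0]
    · rcases d8 with g11 | g12 | g13 | g14 | g15
      · linarith only [g11, e0]
      · linarith only [g12, e3]
      · linarith only [g13, s1, g2]
      · rcases d6 with ⟨g16, g17⟩ | ⟨g18, g19⟩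
        · linarith only [g14, s1, s2, C.o0, C.f11_0, C.f11_1, g2, g16, g9]
        · linarith only [C.a4, s2, g18, g14, g9]
      · rcases d7 with ⟨g20, g21⟩ | ⟨g22, g23⟩
        · rcases d6 with ⟨g24, g25⟩ | ⟨g26, g27⟩
          · linarith only [s3, s1, s2, C.o0, C.f11_0, C.f11_1, C.f11_2, g2, C.f13_6, g24, g20, g15, g9]
          · linarith only [C.a4, s2, s3, C.f11_2, C.f13_6, g26, g20, g15, g9]
        · linarith only [g22, s2, s3, C.f11_2, C.f13_6, C.f33_6, g15, g9]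
    · rcases d8 with g28 | g29 | g30 | g31 | g32
      · linarith only [g28, e0]
      · linarith only [g29, e3]
      · linarith only [g30, s1, g2]
      · rcases d6 with ⟨g33, g34⟩ | ⟨g35, g36⟩
        · linarith only [C.a3, s1, C.f11_1, g2, g33, g31]
        · rcases d4 with ⟨g37, g38⟩ | ⟨g39, g40⟩
          · linarith only [C.b3, s2, C.a4, C.b5, C.f11_0, C.f11_1, g37, C.f13_7, g35, g31]
          · rcases d7 with ⟨g41, g42⟩ | ⟨g43, g44⟩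
            · linarith only [C.a4, s2, s3, C.f11_2, C.f13_4, g39, g35, g41, g31, g10]
            · linarith only [C.b3, s2, C.o1, C.f11_0, C.f11_1, C.f13_4, g39, g35, g43, g31, g10]
      · rcases d7 with ⟨g45, g46⟩ | ⟨g47, g48⟩
        · rcases d6 with ⟨g49, g50⟩ | ⟨g51, g52⟩
          · linarith only [s3, s1, C.b3, C.b5, C.o0, C.f11_1, C.f11_2, g2, C.f13_7, g49, g45, g32]
          · linarith only [g51, s3, C.b3, C.b5, C.f11_0, C.f11_1, C.f11_2, C.f13_4, C.f13_6, g45, g32]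
        · linarith only [g47, s3, C.b3, C.b5, C.f11_0, C.f11_1, C.f11_2, C.f13_7, g32]
  · linarith only [C.b4, C.a2, C.o1, C.f13_0, g3]

end Pool.Agent.Helper89.TQ
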