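import Pool.Agent.Helper89.TQ.Ctx

set_option autoImplicit false
set_option linter.all false
set_option maxHeartbeats 4000000

namespace Pool.Agent.Helper89.TQ

theorem c2_11_22_22_k0 {n1 n2 n3 A1 A2 A3 B1 B2 B3 m11_1 m11_2 m11_3 m12_1 m12_2 m12_3 m13_1 m13_2 m13_3 m22_1 m22_2 m22_3 m33_1 m33_2 m33_3 : ℤ}
    (C : Ctx2 n1 n2 n3 A1 A2 A3 B1 B2 B3 m11_1 m11_2 m11_3 m12_1 m12_2 m12_3 m13_1 m13_2 m13_3 m22_1 m22_2 m22_3 m33_1 m33_2 m33_3)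
    (e0 : 0 < B1)
    (e1 : 0 < A2)
    (s1 : 0 * A1 + 3 * B1 ≤ m11_1 + m22_1 + m22_1)
    (s2 : 0 * A2 + 3 * B2 ≤ m11_2 + m22_2 + m22_2)
    (s3 : 0 * A3 + 3 * B3 ≤ m11_3 + m22_3 + m22_3) : False := by
  have d4 : ((0 ≤ 0 - B1)) ∨ ((0 ≤ 0 - A2)) ∨ ((0 ≤ -1 + 2 * B1 - m11_1 - m22_1)) ∨ ((0 ≤ -1 + 2 * B2 - m11_2 - m22_2)) ∨ ((0 ≤ -1 + 2 * B3 - m11_3 - m22_3)) := by
    have h := C.p11_22B
    clear C e0 e1 s1 s2 s3
    omega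
  rcases d4 with g1 | g2 | g3 | g4 | g5
  · linarith only [g1, e0]
  · linarith only [g2, e1]
  · linarith only [g3, s1, C.f11_0]
  · linarith only [g4, s2, C.o1, C.f22_4]
  · linarith only [s3, s2, C.o1, C.f11_2, C.f22_4, C.f22_6, g5]

theorem c2_11_22_22_k1 {n1 n2 n3 A1 A2 A3 B1 B2 B3 m11_1 m11_2 m11_3 m12_1 m12_2 m12_3 m13_1 m13_2 m13_3 m22_1 m22_2 m22_3 m33_1 m33_2 m33_3 : ℤ}
    (C : Ctx2 n1 n2 n3 A1 A2 A3 B1 B2 B3 m11_1 m11_2 m11_3 m12_1 m12_2 m12_3 m13_1 m13_2 m13_3 m22_1 m22_2 m22_3 m33_1 m33_2 m33_3)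
    (e0 : 0 < B1)
    (e1 : 0 < A2)
    (s1 : 1 * A1 + 2 * B1 ≤ m11_1 + m22_1 + m22_1)
    (s2 : 1 * A2 + 2 * B2 ≤ m11_2 + m22_2 + m22_2)
    (s3 : 1 * A3 + 2 * B3 ≤ m11_3 + m22_3 + m22_3) : False := by
  have d4 : ((0 ≤ 0 - B1)) ∨ ((0 ≤ 0 - A2)) ∨ ((0 ≤ -1 + 2 * B1 - m11_1 - m22_1)) ∨ ((0 ≤ -1 + 2 * B2 - m11_2 - m22_2)) ∨ ((0 ≤ -1 + 2 * B3 - m11_3 - m22_3)) := by
    have h := C.p11_22B
    clear C e0 e1 s1 s2 s3
    omega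
  rcases d4 with g1 | g2 | g3 | g4 | g5
  · linarith only [g1, e0]
  · linarith only [g2, e1]
  · linarith only [g3, s1, C.o0, C.f11_0]
  · linarith only [g4, s2, C.f22_4]
  · linarith only [C.b5, s2, C.f11_2, C.f22_4, C.f22_6, g5]

theorem c2_11_22_22_k2 {n1 n2 n3 A1 A2 A3 B1 B2 B3 m11_1 m11_2 m11_3 m12_1 m12_2 m12_3 m13_1 m13_2 m13_3 m22_1 m22_2 m22_3 m33_1 m33_2 m33_3 : ℤ}
    (C : Ctx2 n1 n2 n3 A1 A2 A3 B1 B2 B3 m11_1 m11_2 m11_3 m12_1 m12_2 m12_3 m13_1 m13_2 m13_3 m22_1 m22_2 m22_3 m33_1 m33_2 m33_3)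
    (e0 : 0 < B1)
    (e1 : 0 < A2)
    (s1 : 2 * A1 + 1 * B1 ≤ m11_1 + m22_1 + m22_1)
    (s2 : 2 * A2 + 1 * B2 ≤ m11_2 + m22_2 + m22_2)
    (s3 : 2 * A3 + 1 * B3 ≤ m11_3 + m22_3 + m22_3) : False := by
  have d4 : ((0 ≤ 0 + A1 - n1)) ∨ ((0 ≤ 1 + A1 - A2)) ∨ ((0 ≤ 0 - B1)) ∨ ((0 ≤ 1 - B1 + B2 - n2)) := by
    have h := C.tmpp
    clear C e0 e1 s1 s2 s3
    omega
  rcases d4 with g1 | g2 | g3 | g4
  · linarith only [g1, s1, C.f11_0, C.f22_0]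
  · linarith only [g2, s1, C.f11_0, C.f22_1]
  · linarith only [g3, e0]
  · linarith only [g4, s2, C.f11_0, C.f11_1, C.f22_4]

theorem c2_11_22_22_k3 {n1 n2 n3 A1 A2 A3 B1 B2 B3 m11_1 m11_2 m11_3 m12_1 m12_2 m12_3 m13_1 m13_2 m13_3 m22_1 m22_2 m22_3 m33_1 m33_2 m33_3 : ℤ}
    (C : Ctx2 n1 n2 n3 A1 A2 A3 B1 B2 B3 m11_1 m11_2 m11_3 m12_1 m12_2 m12_3 m13_1 m13_2 m13_3 m22_1 m22_2 m22_3 m33_1 m33_2 m33_3)
    (e0 : 0 < B1)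
    (e1 : 0 < A2)
    (s1 : 3 * A1 + 0 * B1 ≤ m11_1 + m22_1 + m22_1)
    (s2 : 3 * A2 + 0 * B2 ≤ m11_2 + m22_2 + m22_2)
    (s3 : 3 * A3 + 0 * B3 ≤ m11_3 + m22_3 + m22_3) : False := by
  have d2 : ((0 ≤ 1 - A1 + m12_1) ∧ (0 ≤ -1 + A1 - m12_1)) ∨ ((0 ≤ 1 - B2 + m12_1) ∧ (0 ≤ -1 + B2 - m12_1)) := by
    have h := C.f12_2
    clear C e0 e1 s1 s2 s3
    omega
  have d3 : ((0 ≤ 0 - m12_1 + m12_2 - n2) ∧ (0 ≤ 0 + m12_1 - m12_2 + n2)) ∨ ((0 ≤ 1 - B2 + m12_2) ∧ (0 ≤ -1 + B2 - m12_2)) := by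
    have h := C.f12_5
    clear C e0 e1 s1 s2 s3
    omega
  have d6 : ((0 ≤ 0 - A1)) ∨ ((0 ≤ 0 - B2)) ∨ ((0 ≤ 0 - A2)) ∨ ((0 ≤ -1 + 2 * A1 - m12_1 - m22_1)) ∨ ((0 ≤ -1 + 2 * A2 - m12_2 - m22_2)) ∨ ((0 ≤ -1 + 2 * A3 - m12_3 - m22_3)) := by
    have h := C.p12_22A
    clear C e0 e1 s1 s2 s3
    omega
  have d8 : ((0 ≤ 0 + A1 - n1)) ∨ ((0 ≤ 1 + A1 - A2)) ∨ ((0 ≤ 0 - B1)) ∨ ((0 ≤ 1 - B1 + B2 - n2)) := by
    have h := C.tmpp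
    clear C e0 e1 s1 s2 s3
    omega
  rcases d8 with g1 | g2 | g3 | g4
  · linarith only [g1, s1, C.o0, C.f11_0, C.f22_0]
  · linarith only [g2, s1, C.o0, C.f11_0, C.f22_1]
  · linarith only [g3, e0]
  · rcases d2 with ⟨g5, g6⟩ | ⟨g7, g8⟩
    · rcases d3 with ⟨g9, g10⟩ | ⟨g11, g12⟩
      · linarith only [C.b3, C.o0, g5, g9, C.f12_4]
      · rcases d6 with g13 | g14 | g15 | g16 | g17 | g18
        · linarith only [g13, e0, C.o0]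
        · linarith only [g14, e0, s1, s2, g4, C.o0, C.f11_0, C.f11_1, C.f22_1, C.f22_4]
        · linarith only [g15, e1]
        · linarith only [g16, s1, C.o0, C.f11_0, g5]
        · linarith only [g17, s2, g4, C.f11_0, C.f11_1, g11, C.f22_4]
        · linarith only [s3, s2, g4, C.f11_0, C.f11_1, C.f11_2, g11, C.f12_6, C.f22_4, C.f22_6, g18]
    · linarith only [g7, s1, s2, g4, C.o0, C.f11_0, C.f11_1, C.f12_0, C.f22_1, C.f22_4]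

theorem c2_11_22_33_k1 {n1 n2 n3 A1 A2 A3 B1 B2 B3 m11_1 m11_2 m11_3 m12_1 m12_2 m12_3 m13_1 m13_2 m13_3 m22_1 m22_2 m22_3 m33_1 m33_2 m33_3 : ℤ}
    (C : Ctx2 n1 n2 n3 A1 A2 A3 B1 B2 B3 m11_1 m11_2 m11_3 m12_1 m12_2 m12_3 m13_1 m13_2 m13_3 m22_1 m22_2 m22_3 m33_1 m33_2 m33_3)
    (e0 : 0 < B1)
    (e1 : 0 < A2)
    (e2 : 0 < A3)
    (s1 : 1 * A1 + 2 * B1 ≤ m11_1 + m22_1 + m33_1)
    (s2 : 1 * A2 + 2 * B2 ≤ m11_2 + m22_2 + m33_2)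
    (s3 : 1 * A3 + 2 * B3 ≤ m11_3 + m22_3 + m33_3) : False := by
  have d1 : ((0 ≤ -1 - A1 + A2) ∧ (0 ≤ -1 + A2 - A3 + n3)) ∨ ((0 ≤ -1 - B1 + B2) ∧ (0 ≤ -1 + B2 - B3 + n3)) := by
    have h := C.t23
    clear C e0 e1 e2 s1 s2 s3
    omega
  have d2 : ((0 ≤ 0 + m22_1 - n1) ∧ (0 ≤ 0 - m22_1 + n1)) ∨ ((0 ≤ 1 - A2 + m22_1) ∧ (0 ≤ -1 + A2 - m22_1)) := by
    have h := C.f22_2
    clear C e0 e1 e2 s1 s2 s3
    omega
  have d3 : ((0 ≤ 0 - m22_1 + m22_2 - n2) ∧ (0 ≤ 0 + m22_1 - m22_2 + n2)) ∨ ((0 ≤ 1 - A2 + m22_2) ∧ (0 ≤ -1 + A2 - m22_2)) := by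
    have h := C.f22_5
    clear C e0 e1 e2 s1 s2 s3
    omega
  have d4 : ((0 ≤ 0 + m33_1 - n1) ∧ (0 ≤ 0 - m33_1 + n1)) ∨ ((0 ≤ 1 - A3 + m33_1) ∧ (0 ≤ -1 + A3 - m33_1)) := by
    have h := C.f33_2
    clear C e0 e1 e2 s1 s2 s3
    omega
  have d5 : ((0 ≤ 0 - m33_1 + m33_2 - n2) ∧ (0 ≤ 0 + m33_1 - m33_2 + n2)) ∨ ((0 ≤ 1 - A3 + m33_2) ∧ (0 ≤ -1 + A3 - m33_2)) := by
    have h := C.f33_5
    clear C e0 e1 e2 s1 s2 s3
    omega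
  have d6 : ((0 ≤ 0 - m33_2 + m33_3 - n3) ∧ (0 ≤ 0 + m33_2 - m33_3 + n3)) ∨ ((0 ≤ 1 - A3 + m33_3) ∧ (0 ≤ -1 + A3 - m33_3)) := by
    have h := C.f33_8
    clear C e0 e1 e2 s1 s2 s3
    omega
  have d7 : ((0 ≤ 0 - B1)) ∨ ((0 ≤ 0 - A2)) ∨ ((0 ≤ -1 + 2 * B1 - m11_1 - m22_1)) ∨ ((0 ≤ -1 + 2 * B2 - m11_2 - m22_2)) ∨ ((0 ≤ -1 + 2 * B3 - m11_3 - m22_3)) := by
    have h := C.p11_22B
    clear C e0 e1 e2 s1 s2 s3
    omega
  have d8 : ((0 ≤ 0 - B1)) ∨ ((0 ≤ 0 - A3)) ∨ ((0 ≤ -1 + 2 * B1 - m11_1 - m33_1)) ∨ ((0 ≤ -1 + 2 * B2 - m11_2 - m33_2)) ∨ ((0 ≤ -1 + 2 * B3 - m11_3 - m33_3)) := by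
    have h := C.p11_33B
    clear C e0 e1 e2 s1 s2 s3
    omega
  have d9 : ((0 ≤ 0 - A2)) ∨ ((0 ≤ 0 - A3)) ∨ ((0 ≤ -1 + 2 * A1 - m22_1 - m33_1)) ∨ ((0 ≤ -1 + 2 * A2 - m22_2 - m33_2)) ∨ ((0 ≤ -1 + 2 * A3 - m22_3 - m33_3)) := by
    have h := C.p22_33A
    clear C e0 e1 e2 s1 s2 s3
    omega
  have d10 : ((0 ≤ 0 - A1)) ∨ ((0 ≤ 1 - A1 + A2 - n2)) ∨ ((0 ≤ 0 + A2 - A3)) ∨ ((0 ≤ 0 + B1 - n1)) ∨ ((0 ≤ 1 + B1 - B2)) ∨ ((0 ≤ 0 - B2 + B3 - n3)) ∨ ((0 ≤ 1 - A1 + B1)) := by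
    have h := C.tpmz
    clear C e0 e1 e2 s1 s2 s3
    omega
  rcases d7 with g1 | g2 | g3 | g4 | g5
  · linarith only [g1, e0]
  · linarith only [g2, e1]
  · rcases d8 with g6 | g7 | g8 | g9 | g10
    · linarith only [g6, e0]
    · linarith only [g7, e2]
    · linarith only [g8, s1, C.o0, C.f11_0, g3]
    · linarith only [g9, s2, C.f22_4]
    · rcases d2 with ⟨g11, g12⟩ | ⟨g13, g14⟩
      · linarith only [g11, s1, C.o0, C.f11_0, C.f33_0, g3]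
      · rcases d1 with ⟨g15, g16⟩ | ⟨g17, g18⟩
        · linarith only [g13, g15, C.o0, C.f11_0, g3]
        · rcases d10 with g19 | g20 | g21 | g22 | g23 | g24 | g25
          · linarith only [g19, e0, C.o0]
          · linarith only [C.b3, g20, C.o0, C.o1]
          · linarith only [C.f33_1, s1, g21, C.o0, C.f11_0, g13, g3]
          · linarith only [g22, s1, C.o0, C.f33_0, g3]
          · linarith only [C.a2, g23, C.o0, C.o1]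
          · linarith only [g24, g18]
          · rcases d3 with ⟨g26, g27⟩ | ⟨g28, g29⟩
            · linarith only [C.a2, C.b3, C.o0, C.o1, g13, g26, C.f22_4]
            · rcases d6 with ⟨g30, g31⟩ | ⟨g32, g33⟩
              · linarith only [g18, s2, C.f11_2, g29, g30, g10]
              · rcases d9 with g34 | g35 | g36 | g37 | g38
                · linarith only [g34, e1]
                · linarith only [g35, e2]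
                · linarith only [s1, g25, C.f11_0, g36]
                · rcases d5 with ⟨g39, g40⟩ | ⟨g41, g42⟩
                  · linarith only [g39, s1, s2, C.o0, C.o1, C.f11_0, C.f11_1, g28, g3, g37]
                  · linarith only [g41, s1, C.o0, C.f11_0, g13, g28, C.f33_1, g3, g37]
                · linarith only [s3, g32, g10, g38]
  · rcases d10 with g43 | g44 | g45 | g46 | g47 | g48 | g49
    · linarith only [C.o0, e0, g43]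
    · linarith only [C.b3, g44, C.o0, C.o1]
    · linarith only [g45, s2, C.f33_4, g4]
    · linarith only [C.a1, g46, C.o0]
    · linarith only [C.a2, g47, C.o0, C.o1]
    · linarith only [C.f33_7, s3, g48, C.f11_2, C.f22_6, g4]
    · rcases d6 with ⟨g50, g51⟩ | ⟨g52, g53⟩
      · linarith only [C.a5, s2, g50, C.f33_7, g4]
      · rcases d8 with g54 | g55 | g56 | g57 | g58
        · linarith only [g54, e0]
        · linarith only [g55, e2]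
        · rcases d4 with ⟨g59, g60⟩ | ⟨g61, g62⟩
          · linarith only [g59, s1, C.o0, C.f11_0, C.f22_0, g56]
          · linarith only [C.a4, s1, C.o0, C.f11_0, C.f22_1, g61, g56]
        · linarith only [s2, C.f22_4, g57]
        · rcases d9 with g63 | g64 | g65 | g66 | g67
          · linarith only [g63, e1]
          · linarith only [g64, e2]
          · linarith only [g65, s1, g49, C.f11_0]
          · rcases d3 with ⟨g68, g69⟩ | ⟨g70, g71⟩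
            · rcases d2 with ⟨g72, g73⟩ | ⟨g74, g75⟩
              · linarith only [g72, s1, s2, C.o0, C.o1, C.f11_0, C.f11_1, g68, C.f33_0, g4, g66]
              · linarith only [C.a2, s2, C.o0, C.o1, C.f11_0, C.f11_1, g74, g68, g4, g66]
            · linarith only [g70, s2, g4, g66]
          · linarith only [g67, s3, g52, g58]
  · linarith only [g5, s3, C.f33_7]

end Pool.Agent.Helper89.TQ
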