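import Pool.Agent.Helper89.TQ.Ctx

set_option autoImplicit false
set_option linter.all false
set_option maxHeartbeats 4000000

namespace Pool.Agent.Helper89.TQ

theorem c2_22_22_22_k0 {n1 n2 n3 A1 A2 A3 B1 B2 B3 m11_1 m11_2 m11_3 m12_1 m12_2 m12_3 m13_1 m13_2 m13_3 m22_1 m22_2 m22_3 m33_1 m33_2 m33_3 : ℤ}
    (C : Ctx2 n1 n2 n3 A1 A2 A3 B1 B2 B3 m11_1 m11_2 m11_3 m12_1 m12_2 m12_3 m13_1 m13_2 m13_3 m22_1 m22_2 m22_3 m33_1 m33_2 m33_3)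
    (e0 : 0 < A2)
    (s1 : 0 * A1 + 3 * B1 ≤ m22_1 + m22_1 + m22_1)
    (s2 : 0 * A2 + 3 * B2 ≤ m22_2 + m22_2 + m22_2)
    (s3 : 0 * A3 + 3 * B3 ≤ m22_3 + m22_3 + m22_3) : False := by
  linarith only [C.f22_4, s2, C.o1]

theorem c2_22_22_22_k1 {n1 n2 n3 A1 A2 A3 B1 B2 B3 m11_1 m11_2 m11_3 m12_1 m12_2 m12_3 m13_1 m13_2 m13_3 m22_1 m22_2 m22_3 m33_1 m33_2 m33_3 : ℤ}
    (C : Ctx2 n1 n2 n3 A1 A2 A3 B1 B2 B3 m11_1 m11_2 m11_3 m12_1 m12_2 m12_3 m13_1 m13_2 m13_3 m22_1 m22_2 m22_3 m33_1 m33_2 m33_3)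
    (e0 : 0 < A2)
    (s1 : 1 * A1 + 2 * B1 ≤ m22_1 + m22_1 + m22_1)
    (s2 : 1 * A2 + 2 * B2 ≤ m22_2 + m22_2 + m22_2)
    (s3 : 1 * A3 + 2 * B3 ≤ m22_3 + m22_3 + m22_3) : False := by
  linarith only [C.f22_4, s2, C.o1]

theorem c2_22_22_22_k2 {n1 n2 n3 A1 A2 A3 B1 B2 B3 m11_1 m11_2 m11_3 m12_1 m12_2 m12_3 m13_1 m13_2 m13_3 m22_1 m22_2 m22_3 m33_1 m33_2 m33_3 : ℤ}
    (C : Ctx2 n1 n2 n3 A1 A2 A3 B1 B2 B3 m11_1 m11_2 m11_3 m12_1 m12_2 m12_3 m13_1 m13_2 m13_3 m22_1 m22_2 m22_3 m33_1 m33_2 m33_3)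
    (e0 : 0 < A2)
    (s1 : 2 * A1 + 1 * B1 ≤ m22_1 + m22_1 + m22_1)
    (s2 : 2 * A2 + 1 * B2 ≤ m22_2 + m22_2 + m22_2)
    (s3 : 2 * A3 + 1 * B3 ≤ m22_3 + m22_3 + m22_3) : False := by
  linarith only [C.f22_4, s2, C.o1]

theorem c2_22_22_22_k3 {n1 n2 n3 A1 A2 A3 B1 B2 B3 m11_1 m11_2 m11_3 m12_1 m12_2 m12_3 m13_1 m13_2 m13_3 m22_1 m22_2 m22_3 m33_1 m33_2 m33_3 : ℤ}
    (C : Ctx2 n1 n2 n3 A1 A2 A3 B1 B2 B3 m11_1 m11_2 m11_3 m12_1 m12_2 m12_3 m13_1 m13_2 m13_3 m22_1 m22_2 m22_3 m33_1 m33_2 m33_3)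
    (e0 : 0 < A2)
    (s1 : 3 * A1 + 0 * B1 ≤ m22_1 + m22_1 + m22_1)
    (s2 : 3 * A2 + 0 * B2 ≤ m22_2 + m22_2 + m22_2)
    (s3 : 3 * A3 + 0 * B3 ≤ m22_3 + m22_3 + m22_3) : False := by
  linarith only [C.f22_4, s2]

theorem c2_22_22_33_k0 {n1 n2 n3 A1 A2 A3 B1 B2 B3 m11_1 m11_2 m11_3 m12_1 m12_2 m12_3 m13_1 m13_2 m13_3 m22_1 m22_2 m22_3 m33_1 m33_2 m33_3 : ℤ}
    (C : Ctx2 n1 n2 n3 A1 A2 A3 B1 B2 B3 m11_1 m11_2 m11_3 m12_1 m12_2 m12_3 m13_1 m13_2 m13_3 m22_1 m22_2 m22_3 m33_1 m33_2 m33_3)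
    (e0 : 0 < A2)
    (e1 : 0 < A3)
    (s1 : 0 * A1 + 3 * B1 ≤ m22_1 + m22_1 + m33_1)
    (s2 : 0 * A2 + 3 * B2 ≤ m22_2 + m22_2 + m33_2)
    (s3 : 0 * A3 + 3 * B3 ≤ m22_3 + m22_3 + m33_3) : False := by
  have d8 : ((0 ≤ 0 - A1 + A2 - n2)) ∨ ((0 ≤ 1 + A2 - A3)) ∨ ((0 ≤ 0 + B1 - B2)) ∨ ((0 ≤ 1 - B2 + B3 - n3)) := by
    have h := C.tzmp
    clear C e0 e1 s1 s2 s3
    omega
  rcases d8 with g1 | g2 | g3 | g4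
  · linarith only [C.o0, g1, C.b3, C.o1]
  · linarith only [g2, s2, C.o1, C.f22_4, C.f33_4]
  · linarith only [C.a2, g3, C.o0, C.o1]
  · linarith only [C.f33_7, s3, g4, C.o1, C.o2, C.f22_4, C.f22_6]

theorem c2_22_22_33_k1 {n1 n2 n3 A1 A2 A3 B1 B2 B3 m11_1 m11_2 m11_3 m12_1 m12_2 m12_3 m13_1 m13_2 m13_3 m22_1 m22_2 m22_3 m33_1 m33_2 m33_3 : ℤ}
    (C : Ctx2 n1 n2 n3 A1 A2 A3 B1 B2 B3 m11_1 m11_2 m11_3 m12_1 m12_2 m12_3 m13_1 m13_2 m13_3 m22_1 m22_2 m22_3 m33_1 m33_2 m33_3)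
    (e0 : 0 < A2)
    (e1 : 0 < A3)
    (s1 : 1 * A1 + 2 * B1 ≤ m22_1 + m22_1 + m33_1)
    (s2 : 1 * A2 + 2 * B2 ≤ m22_2 + m22_2 + m33_2)
    (s3 : 1 * A3 + 2 * B3 ≤ m22_3 + m22_3 + m33_3) : False := by
  have d8 : ((0 ≤ 0 - A1 + A2 - n2)) ∨ ((0 ≤ 1 + A2 - A3)) ∨ ((0 ≤ 0 + B1 - B2)) ∨ ((0 ≤ 1 - B2 + B3 - n3)) := by
    have h := C.tzmp
    clear C e0 e1 s1 s2 s3
    omega
  rcases d8 with g1 | g2 | g3 | g4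
  · linarith only [C.o0, g1, C.b3, C.o1]
  · linarith only [g2, s2, C.o1, C.f22_4, C.f33_4]
  · linarith only [C.a2, g3, C.o0, C.o1]
  · linarith only [C.f33_7, s3, g4, C.o1, C.f22_4, C.f22_6]

theorem c2_22_22_33_k2 {n1 n2 n3 A1 A2 A3 B1 B2 B3 m11_1 m11_2 m11_3 m12_1 m12_2 m12_3 m13_1 m13_2 m13_3 m22_1 m22_2 m22_3 m33_1 m33_2 m33_3 : ℤ}
    (C : Ctx2 n1 n2 n3 A1 A2 A3 B1 B2 B3 m11_1 m11_2 m11_3 m12_1 m12_2 m12_3 m13_1 m13_2 m13_3 m22_1 m22_2 m22_3 m33_1 m33_2 m33_3)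
    (e0 : 0 < A2)
    (e1 : 0 < A3)
    (s1 : 2 * A1 + 1 * B1 ≤ m22_1 + m22_1 + m33_1)
    (s2 : 2 * A2 + 1 * B2 ≤ m22_2 + m22_2 + m33_2)
    (s3 : 2 * A3 + 1 * B3 ≤ m22_3 + m22_3 + m33_3) : False := by
  have d1 : ((0 ≤ -1 - A1 + A2) ∧ (0 ≤ -1 + A2 - A3 + n3)) ∨ ((0 ≤ -1 - B1 + B2) ∧ (0 ≤ -1 + B2 - B3 + n3)) := by
    have h := C.t23
    clear C e0 e1 s1 s2 s3
    omega
  have d2 : ((0 ≤ 0 + m22_1 - n1) ∧ (0 ≤ 0 - m22_1 + n1)) ∨ ((0 ≤ 1 - A2 + m22_1) ∧ (0 ≤ -1 + A2 - m22_1)) := by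
    have h := C.f22_2
    clear C e0 e1 s1 s2 s3
    omega
  have d3 : ((0 ≤ 0 - m22_1 + m22_2 - n2) ∧ (0 ≤ 0 + m22_1 - m22_2 + n2)) ∨ ((0 ≤ 1 - A2 + m22_2) ∧ (0 ≤ -1 + A2 - m22_2)) := by
    have h := C.f22_5
    clear C e0 e1 s1 s2 s3
    omega
  have d4 : ((0 ≤ 0 + m33_1 - n1) ∧ (0 ≤ 0 - m33_1 + n1)) ∨ ((0 ≤ 1 - A3 + m33_1) ∧ (0 ≤ -1 + A3 - m33_1)) := by
    have h := C.f33_2
    clear C e0 e1 s1 s2 s3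
    omega
  have d6 : ((0 ≤ 0 - m33_2 + m33_3 - n3) ∧ (0 ≤ 0 + m33_2 - m33_3 + n3)) ∨ ((0 ≤ 1 - A3 + m33_3) ∧ (0 ≤ -1 + A3 - m33_3)) := by
    have h := C.f33_8
    clear C e0 e1 s1 s2 s3
    omega
  have d7 : ((0 ≤ 0 - A2)) ∨ ((0 ≤ 0 - A3)) ∨ ((0 ≤ -1 + 2 * A1 - m22_1 - m33_1)) ∨ ((0 ≤ -1 + 2 * A2 - m22_2 - m33_2)) ∨ ((0 ≤ -1 + 2 * A3 - m22_3 - m33_3)) := by
    have h := C.p22_33A
    clear C e0 e1 s1 s2 s3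
    omega
  have d8 : ((0 ≤ 0 - A1)) ∨ ((0 ≤ 1 - A1 + A2 - n2)) ∨ ((0 ≤ 0 + A2 - A3)) ∨ ((0 ≤ 0 + B1 - n1)) ∨ ((0 ≤ 1 + B1 - B2)) ∨ ((0 ≤ 0 - B2 + B3 - n3)) ∨ ((0 ≤ 1 - A1 + B1)) := by
    have h := C.tpmz
    clear C e0 e1 s1 s2 s3
    omega
  rcases d6 with ⟨g1, g2⟩ | ⟨g3, g4⟩
  · linarith only [s2, C.a5, C.o1, C.f22_4, g1, C.f33_7]
  · rcases d7 with g5 | g6 | g7 | g8 | g9
    · linarith only [g5, e0]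
    · linarith only [g6, e1]
    · rcases d3 with ⟨g10, g11⟩ | ⟨g12, g13⟩
      · linarith only [C.b3, s1, C.o1, g10, C.f22_4, g7]
      · rcases d8 with g14 | g15 | g16 | g17 | g18 | g19 | g20
        · linarith only [C.o0, g14, C.b0]
        · linarith only [C.b3, s1, s2, g15, C.o1, g13, C.f33_3, g7]
        · linarith only [g16, s2, C.o1, g13, C.f33_4]
        · linarith only [C.o0, C.a1, g17]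
        · linarith only [C.a2, g18, C.o0, C.o1]
        · rcases d1 with ⟨g21, g22⟩ | ⟨g23, g24⟩
          · rcases d2 with ⟨g25, g26⟩ | ⟨g27, g28⟩
            · rcases d4 with ⟨g29, g30⟩ | ⟨g31, g32⟩
              · linarith only [g29, C.a1, g25, g7]
              · linarith only [g31, s2, C.a1, g21, C.o1, g25, g13, C.f33_4, g7]
            · rcases d4 with ⟨g33, g34⟩ | ⟨g35, g36⟩
              · linarith only [g27, C.a1, g21, g33, g7]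
              · linarith only [g35, s2, g21, C.o1, g27, g13, C.f33_4, g7]
          · linarith only [g24, g19]
        · rcases d4 with ⟨g37, g38⟩ | ⟨g39, g40⟩
          · linarith only [g37, s1, C.a1, g20, g7]
          · linarith only [g39, s1, s2, g20, C.o1, C.f22_1, g13, C.f33_4, g7]
    · linarith only [g8, s2, C.o1, C.f22_4]
    · linarith only [C.o2, s3, g3, g9]

theorem c2_22_22_33_k3 {n1 n2 n3 A1 A2 A3 B1 B2 B3 m11_1 m11_2 m11_3 m12_1 m12_2 m12_3 m13_1 m13_2 m13_3 m22_1 m22_2 m22_3 m33_1 m33_2 m33_3 : ℤ}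
    (C : Ctx2 n1 n2 n3 A1 A2 A3 B1 B2 B3 m11_1 m11_2 m11_3 m12_1 m12_2 m12_3 m13_1 m13_2 m13_3 m22_1 m22_2 m22_3 m33_1 m33_2 m33_3)
    (e0 : 0 < A2)
    (e1 : 0 < A3)
    (s1 : 3 * A1 + 0 * B1 ≤ m22_1 + m22_1 + m33_1)
    (s2 : 3 * A2 + 0 * B2 ≤ m22_2 + m22_2 + m33_2)
    (s3 : 3 * A3 + 0 * B3 ≤ m22_3 + m22_3 + m33_3) : False := by
  have d4 : ((0 ≤ 0 + m33_1 - n1) ∧ (0 ≤ 0 - m33_1 + n1)) ∨ ((0 ≤ 1 - A3 + m33_1) ∧ (0 ≤ -1 + A3 - m33_1)) := by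
    have h := C.f33_2
    clear C e0 e1 s1 s2 s3
    omega
  have d6 : ((0 ≤ 0 - m33_2 + m33_3 - n3) ∧ (0 ≤ 0 + m33_2 - m33_3 + n3)) ∨ ((0 ≤ 1 - A3 + m33_3) ∧ (0 ≤ -1 + A3 - m33_3)) := by
    have h := C.f33_8
    clear C e0 e1 s1 s2 s3
    omega
  have d7 : ((0 ≤ 0 - A2)) ∨ ((0 ≤ 0 - A3)) ∨ ((0 ≤ -1 + 2 * A1 - m22_1 - m33_1)) ∨ ((0 ≤ -1 + 2 * A2 - m22_2 - m33_2)) ∨ ((0 ≤ -1 + 2 * A3 - m22_3 - m33_3)) := by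
    have h := C.p22_33A
    clear C e0 e1 s1 s2 s3
    omega
  rcases d6 with ⟨g1, g2⟩ | ⟨g3, g4⟩
  · linarith only [s2, C.a5, C.f22_4, g1, C.f33_7]
  · rcases d7 with g5 | g6 | g7 | g8 | g9
    · linarith only [g5, e0]
    · linarith only [g6, e1]
    · rcases d4 with ⟨g10, g11⟩ | ⟨g12, g13⟩
      · linarith only [g10, s1, C.f22_0, g7]
      · linarith only [g12, s1, s2, C.f22_1, C.f22_4, C.f33_4, g7]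
    · linarith only [g8, s2, C.f22_4]
    · linarith only [g9, s3, g3]

end Pool.Agent.Helper89.TQ
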