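import Pool.Agent.Helper89.TQ.Ctx

set_option autoImplicit false
set_option linter.all false
set_option maxHeartbeats 4000000

namespace Pool.Agent.Helper89.TQ

theorem c3_11_22_22_k0 {n1 n2 n3 A1 A2 A3 B1 B2 B3 m11_1 m11_2 m11_3 m22_1 m22_2 m22_3 m23_1 m23_2 m23_3 m33_1 m33_2 m33_3 : ℤ}
    (C : Ctx3 n1 n2 n3 A1 A2 A3 B1 B2 B3 m11_1 m11_2 m11_3 m22_1 m22_2 m22_3 m23_1 m23_2 m23_3 m33_1 m33_2 m33_3)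
    (e0 : 0 < B1)
    (e1 : 0 < B2)
    (s1 : 0 * A1 + 3 * B1 ≤ m11_1 + m22_1 + m22_1)
    (s2 : 0 * A2 + 3 * B2 ≤ m11_2 + m22_2 + m22_2)
    (s3 : 0 * A3 + 3 * B3 ≤ m11_3 + m22_3 + m22_3) : False := by
  have d4 : ((0 ≤ 0 - B1)) ∨ ((0 ≤ 0 - B2)) ∨ ((0 ≤ -1 + 2 * B1 - m11_1 - m22_1)) ∨ ((0 ≤ -1 + 2 * B2 - m11_2 - m22_2)) ∨ ((0 ≤ -1 + 2 * B3 - m11_3 - m22_3)) := by
    have h := C.p11_22B
    clear C e0 e1 s1 s2 s3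
    omega
  rcases d4 with g1 | g2 | g3 | g4 | g5
  · linarith only [g1, e0]
  · linarith only [g2, e1]
  · linarith only [g3, s1, C.f11_0]
  · linarith only [g4, s2, C.f22_4]
  · linarith only [s3, s2, C.f11_2, C.f22_4, C.f22_6, g5]

theorem c3_11_22_22_k1 {n1 n2 n3 A1 A2 A3 B1 B2 B3 m11_1 m11_2 m11_3 m22_1 m22_2 m22_3 m23_1 m23_2 m23_3 m33_1 m33_2 m33_3 : ℤ}
    (C : Ctx3 n1 n2 n3 A1 A2 A3 B1 B2 B3 m11_1 m11_2 m11_3 m22_1 m22_2 m22_3 m23_1 m23_2 m23_3 m33_1 m33_2 m33_3)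
    (e0 : 0 < B1)
    (e1 : 0 < B2)
    (s1 : 1 * A1 + 2 * B1 ≤ m11_1 + m22_1 + m22_1)
    (s2 : 1 * A2 + 2 * B2 ≤ m11_2 + m22_2 + m22_2)
    (s3 : 1 * A3 + 2 * B3 ≤ m11_3 + m22_3 + m22_3) : False := by
  have d4 : ((0 ≤ 0 - B1)) ∨ ((0 ≤ 0 - B2)) ∨ ((0 ≤ -1 + 2 * B1 - m11_1 - m22_1)) ∨ ((0 ≤ -1 + 2 * B2 - m11_2 - m22_2)) ∨ ((0 ≤ -1 + 2 * B3 - m11_3 - m22_3)) := by
    have h := C.p11_22B
    clear C e0 e1 s1 s2 s3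
    omega
  rcases d4 with g1 | g2 | g3 | g4 | g5
  · linarith only [g1, e0]
  · linarith only [g2, e1]
  · linarith only [g3, s1, C.o0, C.f11_0]
  · linarith only [g4, s2, C.o1, C.f22_4]
  · linarith only [C.b5, s2, C.o1, C.f11_2, C.f22_4, C.f22_6, g5]

theorem c3_11_22_22_k2 {n1 n2 n3 A1 A2 A3 B1 B2 B3 m11_1 m11_2 m11_3 m22_1 m22_2 m22_3 m23_1 m23_2 m23_3 m33_1 m33_2 m33_3 : ℤ}
    (C : Ctx3 n1 n2 n3 A1 A2 A3 B1 B2 B3 m11_1 m11_2 m11_3 m22_1 m22_2 m22_3 m23_1 m23_2 m23_3 m33_1 m33_2 m33_3)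
    (e0 : 0 < B1)
    (e1 : 0 < B2)
    (s1 : 2 * A1 + 1 * B1 ≤ m11_1 + m22_1 + m22_1)
    (s2 : 2 * A2 + 1 * B2 ≤ m11_2 + m22_2 + m22_2)
    (s3 : 2 * A3 + 1 * B3 ≤ m11_3 + m22_3 + m22_3) : False := by
  have d4 : ((0 ≤ 0 - B1)) ∨ ((0 ≤ 0 - B2)) ∨ ((0 ≤ -1 + 2 * A1 - m11_1 - m22_1)) ∨ ((0 ≤ -1 + 2 * A2 - m11_2 - m22_2)) ∨ ((0 ≤ -1 + 2 * A3 - m11_3 - m22_3)) := by
    have h := C.p11_22A
    clear C e0 e1 s1 s2 s3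
    omega
  rcases d4 with g1 | g2 | g3 | g4 | g5
  · linarith only [g1, e0]
  · linarith only [g2, e1]
  · linarith only [g3, s1, C.o0, C.f11_0]
  · linarith only [g4, s2, C.f22_4]
  · linarith only [s3, s2, C.o1, C.o2, C.f11_2, C.f22_4, C.f22_6, g5]

theorem c3_11_22_22_k3 {n1 n2 n3 A1 A2 A3 B1 B2 B3 m11_1 m11_2 m11_3 m22_1 m22_2 m22_3 m23_1 m23_2 m23_3 m33_1 m33_2 m33_3 : ℤ}
    (C : Ctx3 n1 n2 n3 A1 A2 A3 B1 B2 B3 m11_1 m11_2 m11_3 m22_1 m22_2 m22_3 m23_1 m23_2 m23_3 m33_1 m33_2 m33_3)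
    (e0 : 0 < B1)
    (e1 : 0 < B2)
    (s1 : 3 * A1 + 0 * B1 ≤ m11_1 + m22_1 + m22_1)
    (s2 : 3 * A2 + 0 * B2 ≤ m11_2 + m22_2 + m22_2)
    (s3 : 3 * A3 + 0 * B3 ≤ m11_3 + m22_3 + m22_3) : False := by
  have d4 : ((0 ≤ 0 - B1)) ∨ ((0 ≤ 0 - B2)) ∨ ((0 ≤ -1 + 2 * A1 - m11_1 - m22_1)) ∨ ((0 ≤ -1 + 2 * A2 - m11_2 - m22_2)) ∨ ((0 ≤ -1 + 2 * A3 - m11_3 - m22_3)) := by
    have h := C.p11_22A
    clear C e0 e1 s1 s2 s3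
    omega
  rcases d4 with g1 | g2 | g3 | g4 | g5
  · linarith only [g1, e0]
  · linarith only [g2, e1]
  · linarith only [g3, s1, C.o0, C.f11_0]
  · linarith only [g4, s2, C.o1, C.f22_4]
  · linarith only [s3, s2, C.o1, C.f11_2, C.f22_4, C.f22_6, g5]

theorem c3_11_22_23_k0 {n1 n2 n3 A1 A2 A3 B1 B2 B3 m11_1 m11_2 m11_3 m22_1 m22_2 m22_3 m23_1 m23_2 m23_3 m33_1 m33_2 m33_3 : ℤ}
    (C : Ctx3 n1 n2 n3 A1 A2 A3 B1 B2 B3 m11_1 m11_2 m11_3 m22_1 m22_2 m22_3 m23_1 m23_2 m23_3 m33_1 m33_2 m33_3)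
    (e0 : 0 < B1)
    (e1 : 0 < B2)
    (e2 : 0 < A2)
    (e3 : 0 < B3)
    (s1 : 0 * A1 + 3 * B1 ≤ m11_1 + m22_1 + m23_1)
    (s2 : 0 * A2 + 3 * B2 ≤ m11_2 + m22_2 + m23_2)
    (s3 : 0 * A3 + 3 * B3 ≤ m11_3 + m22_3 + m23_3) : False := by
  have d4 : ((0 ≤ 0 + m23_1 - n1) ∧ (0 ≤ 0 - m23_1 + n1)) ∨ ((0 ≤ 1 - A2 + m23_1) ∧ (0 ≤ -1 + A2 - m23_1)) ∨ ((0 ≤ 1 - B3 + m23_1) ∧ (0 ≤ -1 + B3 - m23_1)) := by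
    have h := C.f23_3
    clear C e0 e1 e2 e3 s1 s2 s3
    omega
  have d6 : ((0 ≤ 0 - m23_2 + m23_3 - n3) ∧ (0 ≤ 0 + m23_2 - m23_3 + n3)) ∨ ((0 ≤ 1 - B3 + m23_3) ∧ (0 ≤ -1 + B3 - m23_3)) := by
    have h := C.f23_10
    clear C e0 e1 e2 e3 s1 s2 s3
    omega
  have d7 : ((0 ≤ 0 - B1)) ∨ ((0 ≤ 0 - A2)) ∨ ((0 ≤ 0 - B3)) ∨ ((0 ≤ -1 + 2 * B1 - m11_1 - m23_1)) ∨ ((0 ≤ -1 + 2 * B2 - m11_2 - m23_2)) ∨ ((0 ≤ -1 + 2 * B3 - m11_3 - m23_3)) := by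
    have h := C.p11_23B
    clear C e0 e1 e2 e3 s1 s2 s3
    omega
  rcases d7 with g1 | g2 | g3 | g4 | g5 | g6
  · linarith only [g1, e0]
  · linarith only [g2, e2]
  · linarith only [g3, e3]
  · rcases d4 with ⟨g7, g8⟩ | ⟨g9, g10⟩ | ⟨g11, g12⟩
    · linarith only [g7, s1, C.f11_0, C.f22_0, g4]
    · linarith only [g9, s1, C.o1, C.f11_0, C.f22_1, g4]
    · linarith only [g11, s1, C.a4, C.o1, C.o2, C.f11_0, C.f22_1, g4]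
  · linarith only [s2, C.f22_4, g5]
  · rcases d6 with ⟨g13, g14⟩ | ⟨g15, g16⟩
    · linarith only [g13, s2, s3, C.f11_2, C.f22_4, C.f22_6, g6]
    · linarith only [g15, s2, s3, C.a3, C.o0, C.f11_0, C.f11_1, C.f11_2, C.f22_4, C.f22_6, C.f23_5, g6]

theorem c3_11_22_23_k1 {n1 n2 n3 A1 A2 A3 B1 B2 B3 m11_1 m11_2 m11_3 m22_1 m22_2 m22_3 m23_1 m23_2 m23_3 m33_1 m33_2 m33_3 : ℤ}
    (C : Ctx3 n1 n2 n3 A1 A2 A3 B1 B2 B3 m11_1 m11_2 m11_3 m22_1 m22_2 m22_3 m23_1 m23_2 m23_3 m33_1 m33_2 m33_3)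
    (e0 : 0 < B1)
    (e1 : 0 < B2)
    (e2 : 0 < A2)
    (e3 : 0 < B3)
    (s1 : 1 * A1 + 2 * B1 ≤ m11_1 + m22_1 + m23_1)
    (s2 : 1 * A2 + 2 * B2 ≤ m11_2 + m22_2 + m23_2)
    (s3 : 1 * A3 + 2 * B3 ≤ m11_3 + m22_3 + m23_3) : False := by
  have d4 : ((0 ≤ 0 + m23_1 - n1) ∧ (0 ≤ 0 - m23_1 + n1)) ∨ ((0 ≤ 1 - A2 + m23_1) ∧ (0 ≤ -1 + A2 - m23_1)) ∨ ((0 ≤ 1 - B3 + m23_1) ∧ (0 ≤ -1 + B3 - m23_1)) := by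
    have h := C.f23_3
    clear C e0 e1 e2 e3 s1 s2 s3
    omega
  have d6 : ((0 ≤ 0 - m23_2 + m23_3 - n3) ∧ (0 ≤ 0 + m23_2 - m23_3 + n3)) ∨ ((0 ≤ 1 - B3 + m23_3) ∧ (0 ≤ -1 + B3 - m23_3)) := by
    have h := C.f23_10
    clear C e0 e1 e2 e3 s1 s2 s3
    omega
  have d7 : ((0 ≤ 0 - B1)) ∨ ((0 ≤ 0 - A2)) ∨ ((0 ≤ 0 - B3)) ∨ ((0 ≤ -1 + 2 * B1 - m11_1 - m23_1)) ∨ ((0 ≤ -1 + 2 * B2 - m11_2 - m23_2)) ∨ ((0 ≤ -1 + 2 * B3 - m11_3 - m23_3)) := by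
    have h := C.p11_23B
    clear C e0 e1 e2 e3 s1 s2 s3
    omega
  rcases d7 with g1 | g2 | g3 | g4 | g5 | g6
  · linarith only [g1, e0]
  · linarith only [g2, e2]
  · linarith only [g3, e3]
  · rcases d4 with ⟨g7, g8⟩ | ⟨g9, g10⟩ | ⟨g11, g12⟩
    · linarith only [g7, s1, C.o0, C.f11_0, C.f22_0, g4]
    · linarith only [g9, s1, C.o0, C.o1, C.f11_0, C.f22_1, g4]
    · linarith only [C.b4, s1, C.o0, C.f11_0, C.f22_1, g11, g4]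
  · linarith only [g5, s2, C.o1, C.f22_4]
  · rcases d6 with ⟨g13, g14⟩ | ⟨g15, g16⟩
    · linarith only [C.b5, s2, C.o1, C.f11_2, C.f22_4, g13, g6]
    · linarith only [g15, s2, C.b5, C.f11_2, C.f22_4, C.f23_5, g6]

theorem c3_11_22_23_k2 {n1 n2 n3 A1 A2 A3 B1 B2 B3 m11_1 m11_2 m11_3 m22_1 m22_2 m22_3 m23_1 m23_2 m23_3 m33_1 m33_2 m33_3 : ℤ}
    (C : Ctx3 n1 n2 n3 A1 A2 A3 B1 B2 B3 m11_1 m11_2 m11_3 m22_1 m22_2 m22_3 m23_1 m23_2 m23_3 m33_1 m33_2 m33_3)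
    (e0 : 0 < B1)
    (e1 : 0 < B2)
    (e2 : 0 < A2)
    (e3 : 0 < B3)
    (s1 : 2 * A1 + 1 * B1 ≤ m11_1 + m22_1 + m23_1)
    (s2 : 2 * A2 + 1 * B2 ≤ m11_2 + m22_2 + m23_2)
    (s3 : 2 * A3 + 1 * B3 ≤ m11_3 + m22_3 + m23_3) : False := by
  have d4 : ((0 ≤ 0 + m23_1 - n1) ∧ (0 ≤ 0 - m23_1 + n1)) ∨ ((0 ≤ 1 - A2 + m23_1) ∧ (0 ≤ -1 + A2 - m23_1)) ∨ ((0 ≤ 1 - B3 + m23_1) ∧ (0 ≤ -1 + B3 - m23_1)) := by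
    have h := C.f23_3
    clear C e0 e1 e2 e3 s1 s2 s3
    omega
  have d6 : ((0 ≤ 0 - m23_2 + m23_3 - n3) ∧ (0 ≤ 0 + m23_2 - m23_3 + n3)) ∨ ((0 ≤ 1 - B3 + m23_3) ∧ (0 ≤ -1 + B3 - m23_3)) := by
    have h := C.f23_10
    clear C e0 e1 e2 e3 s1 s2 s3
    omega
  have d7 : ((0 ≤ 0 - B1)) ∨ ((0 ≤ 0 - A2)) ∨ ((0 ≤ 0 - B3)) ∨ ((0 ≤ -1 + 2 * A1 - m11_1 - m23_1)) ∨ ((0 ≤ -1 + 2 * A2 - m11_2 - m23_2)) ∨ ((0 ≤ -1 + 2 * A3 - m11_3 - m23_3)) := by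
    have h := C.p11_23A
    clear C e0 e1 e2 e3 s1 s2 s3
    omega
  rcases d7 with g1 | g2 | g3 | g4 | g5 | g6
  · linarith only [g1, e0]
  · linarith only [g2, e2]
  · linarith only [g3, e3]
  · rcases d4 with ⟨g7, g8⟩ | ⟨g9, g10⟩ | ⟨g11, g12⟩
    · linarith only [g7, s1, C.o0, C.f11_0, C.f22_0, g4]
    · linarith only [g9, s1, C.o0, C.o1, C.f11_0, C.f22_1, g4]
    · linarith only [g11, s1, C.a4, C.o0, C.o1, C.o2, C.f11_0, C.f22_1, g4]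
  · linarith only [g5, s2, C.f22_4]
  · rcases d6 with ⟨g13, g14⟩ | ⟨g15, g16⟩
    · linarith only [g13, s2, s3, C.o1, C.o2, C.f11_2, C.f22_4, C.f22_6, g6]
    · linarith only [g15, s2, s3, C.o1, C.o2, C.f11_2, C.f22_4, C.f22_6, C.f23_5, g6]

theorem c3_11_22_23_k3 {n1 n2 n3 A1 A2 A3 B1 B2 B3 m11_1 m11_2 m11_3 m22_1 m22_2 m22_3 m23_1 m23_2 m23_3 m33_1 m33_2 m33_3 : ℤ}
    (C : Ctx3 n1 n2 n3 A1 A2 A3 B1 B2 B3 m11_1 m11_2 m11_3 m22_1 m22_2 m22_3 m23_1 m23_2 m23_3 m33_1 m33_2 m33_3)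
    (e0 : 0 < B1)
    (e1 : 0 < B2)
    (e2 : 0 < A2)
    (e3 : 0 < B3)
    (s1 : 3 * A1 + 0 * B1 ≤ m11_1 + m22_1 + m23_1)
    (s2 : 3 * A2 + 0 * B2 ≤ m11_2 + m22_2 + m23_2)
    (s3 : 3 * A3 + 0 * B3 ≤ m11_3 + m22_3 + m23_3) : False := by
  have d4 : ((0 ≤ 0 + m23_1 - n1) ∧ (0 ≤ 0 - m23_1 + n1)) ∨ ((0 ≤ 1 - A2 + m23_1) ∧ (0 ≤ -1 + A2 - m23_1)) ∨ ((0 ≤ 1 - B3 + m23_1) ∧ (0 ≤ -1 + B3 - m23_1)) := by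
    have h := C.f23_3
    clear C e0 e1 e2 e3 s1 s2 s3
    omega
  have d6 : ((0 ≤ 0 - m23_2 + m23_3 - n3) ∧ (0 ≤ 0 + m23_2 - m23_3 + n3)) ∨ ((0 ≤ 1 - B3 + m23_3) ∧ (0 ≤ -1 + B3 - m23_3)) := by
    have h := C.f23_10
    clear C e0 e1 e2 e3 s1 s2 s3
    omega
  have d7 : ((0 ≤ 0 - B1)) ∨ ((0 ≤ 0 - A2)) ∨ ((0 ≤ 0 - B3)) ∨ ((0 ≤ -1 + 2 * A1 - m11_1 - m23_1)) ∨ ((0 ≤ -1 + 2 * A2 - m11_2 - m23_2)) ∨ ((0 ≤ -1 + 2 * A3 - m11_3 - m23_3)) := by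
    have h := C.p11_23A
    clear C e0 e1 e2 e3 s1 s2 s3
    omega
  rcases d7 with g1 | g2 | g3 | g4 | g5 | g6
  · linarith only [g1, e0]
  · linarith only [g2, e2]
  · linarith only [g3, e3]
  · rcases d4 with ⟨g7, g8⟩ | ⟨g9, g10⟩ | ⟨g11, g12⟩
    · linarith only [g7, s1, C.o0, C.f11_0, C.f22_0, g4]
    · linarith only [g9, s1, C.o0, C.o1, C.f11_0, C.f22_1, g4]
    · linarith only [g11, s1, C.a4, C.o0, C.o1, C.o2, C.f11_0, C.f22_1, g4]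
  · linarith only [g5, s2, C.o1, C.f22_4]
  · rcases d6 with ⟨g13, g14⟩ | ⟨g15, g16⟩
    · linarith only [g13, s2, s3, C.o1, C.f11_2, C.f22_4, C.f22_6, g6]
    · linarith only [g15, s2, s3, C.o1, C.o2, C.f11_2, C.f22_4, C.f22_6, C.f23_5, g6]

theorem c3_11_22_33_k0 {n1 n2 n3 A1 A2 A3 B1 B2 B3 m11_1 m11_2 m11_3 m22_1 m22_2 m22_3 m23_1 m23_2 m23_3 m33_1 m33_2 m33_3 : ℤ}
    (C : Ctx3 n1 n2 n3 A1 A2 A3 B1 B2 B3 m11_1 m11_2 m11_3 m22_1 m22_2 m22_3 m23_1 m23_2 m23_3 m33_1 m33_2 m33_3)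
    (e0 : 0 < B1)
    (e1 : 0 < B2)
    (e2 : 0 < A3)
    (s1 : 0 * A1 + 3 * B1 ≤ m11_1 + m22_1 + m33_1)
    (s2 : 0 * A2 + 3 * B2 ≤ m11_2 + m22_2 + m33_2)
    (s3 : 0 * A3 + 3 * B3 ≤ m11_3 + m22_3 + m33_3) : False := by
  have d4 : ((0 ≤ 0 + m33_1 - n1) ∧ (0 ≤ 0 - m33_1 + n1)) ∨ ((0 ≤ 1 - A3 + m33_1) ∧ (0 ≤ -1 + A3 - m33_1)) := by
    have h := C.f33_2
    clear C e0 e1 e2 s1 s2 s3
    omega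
  have d8 : ((0 ≤ 0 - B1)) ∨ ((0 ≤ 0 - A3)) ∨ ((0 ≤ -1 + 2 * B1 - m11_1 - m33_1)) ∨ ((0 ≤ -1 + 2 * B2 - m11_2 - m33_2)) ∨ ((0 ≤ -1 + 2 * B3 - m11_3 - m33_3)) := by
    have h := C.p11_33B
    clear C e0 e1 e2 s1 s2 s3
    omega
  have d9 : ((0 ≤ 0 + A1 - n1)) ∨ ((0 ≤ 0 + A1 - A2)) ∨ ((0 ≤ 0 + A2 - A3)) ∨ ((0 ≤ 0 - B1)) ∨ ((0 ≤ 0 - B1 + B2 - n2)) ∨ ((0 ≤ 0 - B2 + B3 - n3)) := by
    have h := C.tmzp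
    clear C e0 e1 e2 s1 s2 s3
    omega
  have d10 : ((0 ≤ 0 + A1 - n1)) ∨ ((0 ≤ 1 + A1 - A2)) ∨ ((0 ≤ 0 - B1)) ∨ ((0 ≤ 1 - B1 + B2 - n2)) := by
    have h := C.tmpp
    clear C e0 e1 e2 s1 s2 s3
    omega
  rcases d9 with g1 | g2 | g3 | g4 | g5 | g6
  · linarith only [C.f33_0, s1, g1, C.o0, C.f11_0, C.f22_0]
  · linarith only [C.b2, g2, C.o0, C.o1]
  · rcases d10 with g7 | g8 | g9 | g10
    · linarith only [C.f33_0, s1, g7, C.o0, C.f11_0, C.f22_0]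
    · linarith only [C.f33_1, s1, g8, g3, C.o0, C.o1, C.f11_0, C.f22_1]
    · linarith only [g9, e0]
    · linarith only [C.a3, s2, g3, g10, C.o0, C.f11_0, C.f11_1, C.f22_4, C.f33_4]
  · linarith only [g4, e0]
  · linarith only [C.a3, g5, C.o0, C.o1]
  · rcases d8 with g11 | g12 | g13 | g14 | g15
    · linarith only [g11, e0]
    · linarith only [g12, e2]
    · rcases d4 with ⟨g16, g17⟩ | ⟨g18, g19⟩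
      · linarith only [g16, s1, C.f11_0, C.f22_0, g13]
      · linarith only [g18, s1, C.a4, C.o1, C.f11_0, C.f22_1, g13]
    · linarith only [g14, s3, g6, C.f11_2, C.f22_4, C.f22_6, C.f33_6]
    · linarith only [g15, s3, g6, C.f22_4, C.f22_6]

theorem c3_11_22_33_k1 {n1 n2 n3 A1 A2 A3 B1 B2 B3 m11_1 m11_2 m11_3 m22_1 m22_2 m22_3 m23_1 m23_2 m23_3 m33_1 m33_2 m33_3 : ℤ}
    (C : Ctx3 n1 n2 n3 A1 A2 A3 B1 B2 B3 m11_1 m11_2 m11_3 m22_1 m22_2 m22_3 m23_1 m23_2 m23_3 m33_1 m33_2 m33_3)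
    (e0 : 0 < B1)
    (e1 : 0 < B2)
    (e2 : 0 < A3)
    (s1 : 1 * A1 + 2 * B1 ≤ m11_1 + m22_1 + m33_1)
    (s2 : 1 * A2 + 2 * B2 ≤ m11_2 + m22_2 + m33_2)
    (s3 : 1 * A3 + 2 * B3 ≤ m11_3 + m22_3 + m33_3) : False := by
  have d4 : ((0 ≤ 0 + m33_1 - n1) ∧ (0 ≤ 0 - m33_1 + n1)) ∨ ((0 ≤ 1 - A3 + m33_1) ∧ (0 ≤ -1 + A3 - m33_1)) := by
    have h := C.f33_2
    clear C e0 e1 e2 s1 s2 s3
    omega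
  have d6 : ((0 ≤ 0 - m33_2 + m33_3 - n3) ∧ (0 ≤ 0 + m33_2 - m33_3 + n3)) ∨ ((0 ≤ 1 - A3 + m33_3) ∧ (0 ≤ -1 + A3 - m33_3)) := by
    have h := C.f33_8
    clear C e0 e1 e2 s1 s2 s3
    omega
  have d7 : ((0 ≤ 0 - B1)) ∨ ((0 ≤ 0 - A3)) ∨ ((0 ≤ -1 + 2 * A1 - m11_1 - m33_1)) ∨ ((0 ≤ -1 + 2 * A2 - m11_2 - m33_2)) ∨ ((0 ≤ -1 + 2 * A3 - m11_3 - m33_3)) := by
    have h := C.p11_33A
    clear C e0 e1 e2 s1 s2 s3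
    omega
  have d8 : ((0 ≤ 0 - B1)) ∨ ((0 ≤ 0 - A3)) ∨ ((0 ≤ -1 + 2 * B1 - m11_1 - m33_1)) ∨ ((0 ≤ -1 + 2 * B2 - m11_2 - m33_2)) ∨ ((0 ≤ -1 + 2 * B3 - m11_3 - m33_3)) := by
    have h := C.p11_33B
    clear C e0 e1 e2 s1 s2 s3
    omega
  have d9 : ((0 ≤ 0 + A1 - n1)) ∨ ((0 ≤ 1 + A1 - A2)) ∨ ((0 ≤ 0 - B1)) ∨ ((0 ≤ 1 - B1 + B2 - n2)) := by
    have h := C.tmpp
    clear C e0 e1 e2 s1 s2 s3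
    omega
  rcases d8 with g1 | g2 | g3 | g4 | g5
  · linarith only [g1, e0]
  · linarith only [g2, e2]
  · rcases d4 with ⟨g6, g7⟩ | ⟨g8, g9⟩
    · linarith only [g6, s1, C.o0, C.f11_0, C.f22_0, g3]
    · linarith only [C.a4, s1, C.o0, C.o1, C.f11_0, C.f22_1, g8, g3]
  · linarith only [C.o1, s2, C.f22_4, g4]
  · rcases d6 with ⟨g10, g11⟩ | ⟨g12, g13⟩
    · linarith only [g5, s2, C.b5, C.o1, C.f11_2, C.f22_4, g10]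
    · rcases d7 with g14 | g15 | g16 | g17 | g18
      · linarith only [g14, e0]
      · linarith only [g15, e2]
      · rcases d4 with ⟨g19, g20⟩ | ⟨g21, g22⟩
        · linarith only [g19, s1, C.o0, C.f11_0, C.f22_0, g16]
        · linarith only [C.a4, s1, C.o0, C.o1, C.f11_0, C.f22_1, g21, g16]
      · rcases d9 with g23 | g24 | g25 | g26
        · linarith only [C.f33_0, s1, g23, C.o0, C.f11_0, C.f22_0]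
        · linarith only [C.b2, s2, g24, C.o0, C.f22_4, g17]
        · linarith only [g25, e0]
        · linarith only [g26, s2, C.a3, C.o0, C.f22_4, g17]
      · linarith only [C.b3, s3, C.f11_0, C.f11_1, C.f11_2, C.f22_4, C.f22_6, g12, g18, g5]

theorem c3_11_22_33_k2 {n1 n2 n3 A1 A2 A3 B1 B2 B3 m11_1 m11_2 m11_3 m22_1 m22_2 m22_3 m23_1 m23_2 m23_3 m33_1 m33_2 m33_3 : ℤ}
    (C : Ctx3 n1 n2 n3 A1 A2 A3 B1 B2 B3 m11_1 m11_2 m11_3 m22_1 m22_2 m22_3 m23_1 m23_2 m23_3 m33_1 m33_2 m33_3)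
    (e0 : 0 < B1)
    (e1 : 0 < B2)
    (e2 : 0 < A3)
    (s1 : 2 * A1 + 1 * B1 ≤ m11_1 + m22_1 + m33_1)
    (s2 : 2 * A2 + 1 * B2 ≤ m11_2 + m22_2 + m33_2)
    (s3 : 2 * A3 + 1 * B3 ≤ m11_3 + m22_3 + m33_3) : False := by
  have d4 : ((0 ≤ 0 + m33_1 - n1) ∧ (0 ≤ 0 - m33_1 + n1)) ∨ ((0 ≤ 1 - A3 + m33_1) ∧ (0 ≤ -1 + A3 - m33_1)) := by
    have h := C.f33_2
    clear C e0 e1 e2 s1 s2 s3
    omega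
  have d6 : ((0 ≤ 0 - m33_2 + m33_3 - n3) ∧ (0 ≤ 0 + m33_2 - m33_3 + n3)) ∨ ((0 ≤ 1 - A3 + m33_3) ∧ (0 ≤ -1 + A3 - m33_3)) := by
    have h := C.f33_8
    clear C e0 e1 e2 s1 s2 s3
    omega
  have d7 : ((0 ≤ 0 - B1)) ∨ ((0 ≤ 0 - A3)) ∨ ((0 ≤ -1 + 2 * A1 - m11_1 - m33_1)) ∨ ((0 ≤ -1 + 2 * A2 - m11_2 - m33_2)) ∨ ((0 ≤ -1 + 2 * A3 - m11_3 - m33_3)) := by
    have h := C.p11_33A
    clear C e0 e1 e2 s1 s2 s3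
    omega
  rcases d7 with g1 | g2 | g3 | g4 | g5
  · linarith only [g1, e0]
  · linarith only [g2, e2]
  · rcases d4 with ⟨g6, g7⟩ | ⟨g8, g9⟩
    · linarith only [g6, s1, C.o0, C.f11_0, C.f22_0, g3]
    · linarith only [C.a4, s1, C.o0, C.o1, C.f11_0, C.f22_1, g8, g3]
  · linarith only [g4, s2, C.f22_4]
  · rcases d6 with ⟨g10, g11⟩ | ⟨g12, g13⟩
    · linarith only [s2, s3, C.o1, C.o2, C.f11_2, C.f22_4, C.f22_6, g10, g5]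
    · linarith only [g12, s3, C.a3, C.o0, C.o1, C.o2, C.f11_0, C.f11_1, C.f11_2, C.f22_4, C.f22_6, g5]

theorem c3_11_22_33_k3 {n1 n2 n3 A1 A2 A3 B1 B2 B3 m11_1 m11_2 m11_3 m22_1 m22_2 m22_3 m23_1 m23_2 m23_3 m33_1 m33_2 m33_3 : ℤ}
    (C : Ctx3 n1 n2 n3 A1 A2 A3 B1 B2 B3 m11_1 m11_2 m11_3 m22_1 m22_2 m22_3 m23_1 m23_2 m23_3 m33_1 m33_2 m33_3)
    (e0 : 0 < B1)
    (e1 : 0 < B2)
    (e2 : 0 < A3)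
    (s1 : 3 * A1 + 0 * B1 ≤ m11_1 + m22_1 + m33_1)
    (s2 : 3 * A2 + 0 * B2 ≤ m11_2 + m22_2 + m33_2)
    (s3 : 3 * A3 + 0 * B3 ≤ m11_3 + m22_3 + m33_3) : False := by
  have d4 : ((0 ≤ 0 + m33_1 - n1) ∧ (0 ≤ 0 - m33_1 + n1)) ∨ ((0 ≤ 1 - A3 + m33_1) ∧ (0 ≤ -1 + A3 - m33_1)) := by
    have h := C.f33_2
    clear C e0 e1 e2 s1 s2 s3
    omega
  have d6 : ((0 ≤ 0 - m33_2 + m33_3 - n3) ∧ (0 ≤ 0 + m33_2 - m33_3 + n3)) ∨ ((0 ≤ 1 - A3 + m33_3) ∧ (0 ≤ -1 + A3 - m33_3)) := by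
    have h := C.f33_8
    clear C e0 e1 e2 s1 s2 s3
    omega
  have d7 : ((0 ≤ 0 - B1)) ∨ ((0 ≤ 0 - A3)) ∨ ((0 ≤ -1 + 2 * A1 - m11_1 - m33_1)) ∨ ((0 ≤ -1 + 2 * A2 - m11_2 - m33_2)) ∨ ((0 ≤ -1 + 2 * A3 - m11_3 - m33_3)) := by
    have h := C.p11_33A
    clear C e0 e1 e2 s1 s2 s3
    omega
  rcases d7 with g1 | g2 | g3 | g4 | g5
  · linarith only [g1, e0]
  · linarith only [g2, e2]
  · rcases d4 with ⟨g6, g7⟩ | ⟨g8, g9⟩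
    · linarith only [g6, s1, C.o0, C.f11_0, C.f22_0, g3]
    · linarith only [C.a4, s1, C.o0, C.o1, C.f11_0, C.f22_1, g8, g3]
  · linarith only [g4, s2, C.o1, C.f22_4]
  · rcases d6 with ⟨g10, g11⟩ | ⟨g12, g13⟩
    · linarith only [g10, s2, s3, C.o1, C.f11_2, C.f22_4, C.f22_6, g5]
    · linarith only [g12, s3, C.a3, C.o0, C.o1, C.f11_0, C.f11_1, C.f11_2, C.f22_4, C.f22_6, g5]

end Pool.Agent.Helper89.TQ
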