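import Pool.Agent.Helper89.TQ.Spec
import Pool.Agent.Helper89.TQ.Base

/-!
From the integer statements to the classification.
-/

set_option autoImplicit false

namespace Pool.Agent.Helper89.TQ

open Finset Pool.Agent.R6.Trade

/-- the integer statement -/
def CoreZ : Prop := ∀ n1 n2 n3 A1 A2 A3 B1 B2 B3 : ℤ, Bx n1 n2 n3 A1 A2 A3 →
  Bx n1 n2 n3 B1 B2 B3 → (B1 < A1 ∨ (A1 = B1 ∧ B2 < A2)) → ¬ (B1 ≤ A1 ∧ B2 ≤ A2 ∧ B3 ≤ A3) →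
  ((0 < A1 ∧ A2 < A1 + n2) ∨ (0 < B1 ∧ B2 < B1 + n2)) →
  ((A1 < A2 ∧ A3 < A2 + n3) ∨ (B1 < B2 ∧ B3 < B2 + n3)) → NT n1 n2 n3 A1 A2 A3 B1 B2 B3 →
  ∀ y1 y2 y3 z1 z2 z3 w1 w2 w3 : ℤ, Bx n1 n2 n3 y1 y2 y3 → Ls A1 A2 A3 B1 B2 B3 y1 y2 y3 →
  Bx n1 n2 n3 z1 z2 z3 → Ls A1 A2 A3 B1 B2 B3 z1 z2 z3 →
  Bx n1 n2 n3 w1 w2 w3 → Ls A1 A2 A3 B1 B2 B3 w1 w2 w3 →
  SG A1 A2 A3 B1 B2 B3 (y1 + z1 + w1) (y2 + z2 + w2) (y3 + z3 + w3) →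
  F1 n1 n2 n3 A1 A2 A3 B1 B2 B3 ∨ F2 n1 n2 n3 A1 A2 A3 B1 B2 B3

theorem exists_vec {n : Fin 3 → ℕ} {x1 x2 x3 : ℤ} (h : Bx (n 0) (n 1) (n 2) x1 x2 x3) :
    ∃ v : Fin 3 → ℕ, ((v 0 : ℤ) = x1 ∧ (v 0 : ℤ) + v 1 = x2 ∧ (v 0 : ℤ) + v 1 + v 2 = x3) ∧
      ∀ i, v i ≤ n i := by
  obtain ⟨h1, h2, h3, h4, h5, h6⟩ := h
  refine ⟨![x1.toNat, (x2 - x1).toNat, (x3 - x2).toNat], ⟨?_, ?_, ?_⟩, ?_⟩
  · show ((x1.toNat : ℕ) : ℤ) = x1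
    omega
  · show ((x1.toNat : ℕ) : ℤ) + ((x2 - x1).toNat : ℕ) = x2
    omega
  · show ((x1.toNat : ℕ) : ℤ) + ((x2 - x1).toNat : ℕ) + ((x3 - x2).toNat : ℕ) = x3
    omega
  · intro i
    fin_cases i
    · show x1.toNat ≤ n 0
      omega
    · show (x2 - x1).toNat ≤ n 1
      omega
    · show (x3 - x2).toNat ≤ n 2
      omega

theorem bx_vec {n v : Fin 3 → ℕ} (h : ∀ i, v i ≤ n i) :
    Bx (n 0) (n 1) (n 2) (v 0) ((v 0 : ℤ) + v 1) ((v 0 : ℤ) + v 1 + v 2) := by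
  have h0 := h 0
  have h1 := h 1
  have h2 := h 2
  unfold Bx
  omega

theorem core (hZ : CoreZ) (n a b : Fin 3 → ℕ) (ha : ∀ i, a i ≤ n i) (hb : ∀ i, b i ≤ n i)
    (hab : ¬ GE a b) (hor : b 0 < a 0 ∨ (a 0 = b 0 ∧ b 0 + b 1 < a 0 + a 1))
    (t12 : (0 < a 0 ∧ a 1 < n 1) ∨ (0 < b 0 ∧ b 1 < n 1))
    (t23 : (0 < a 1 ∧ a 2 < n 2) ∨ (0 < b 1 ∧ b 2 < n 2))
    (h2 : ∀ x x' y y' : Fin 3 → ℕ, (∀ i, x i ≤ n i) → (∀ i, x' i ≤ n i) → (∀ i, y i ≤ n i) →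
      (∀ i, y' i ≤ n i) → (∀ i, x i + x' i = y i + y' i) → Win a b x → Win a b x' →
      Win a b y ∨ Win a b y')
    (x y : Fin 3 → Fin 3 → ℕ) (hy : ∀ k i, y k i ≤ n i)
    (hx' : ∀ k, Win a b (x k)) (hy' : ∀ k, ¬ Win a b (y k))
    (hs : ∀ i, x 0 i + x 1 i + x 2 i = y 0 i + y 1 i + y 2 i) : Member n a b := by
  have hls : ∀ v : Fin 3 → ℕ, Ls (a 0) ((a 0 : ℤ) + a 1) ((a 0 : ℤ) + a 1 + a 2) (b 0)
      ((b 0 : ℤ) + b 1) ((b 0 : ℤ) + b 1 + b 2) (v 0) ((v 0 : ℤ) + v 1) ((v 0 : ℤ) + v 1 + v 2) ↔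
      ¬ Win a b v := by
    intro v
    unfold Ls Win GE
    omega
  have hNT : NT (n 0) (n 1) (n 2) (a 0) ((a 0 : ℤ) + a 1) ((a 0 : ℤ) + a 1 + a 2) (b 0)
      ((b 0 : ℤ) + b 1) ((b 0 : ℤ) + b 1 + b 2) := by
    intro x1 x2 x3 y1 y2 y3 z1 z2 z3 w1 w2 w3 bx by_ bz bw lx ly lz lw e1 e2 e3
    obtain ⟨x, ⟨hx1, hx2, hx3⟩, hxn⟩ := exists_vec bx
    obtain ⟨y, ⟨hy1, hy2, hy3⟩, hyn⟩ := exists_vec by_
    obtain ⟨z, ⟨hz1, hz2, hz3⟩, hzn⟩ := exists_vec bz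
    obtain ⟨w, ⟨hw1, hw2, hw3⟩, hwn⟩ := exists_vec bw
    rw [← hx1, ← hx2, ← hx3, hls, not_not] at lx
    rw [← hy1, ← hy2, ← hy3, hls, not_not] at ly
    rw [← hz1, ← hz2, ← hz3, hls] at lz
    rw [← hw1, ← hw2, ← hw3, hls] at lw
    rcases h2 x y z w hxn hyn hzn hwn (by
      intro i
      fin_cases i
      · show x 0 + y 0 = z 0 + w 0
        omega
      · show x 1 + y 1 = z 1 + w 1
        omega
      · show x 2 + y 2 = z 2 + w 2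
        omega) lx ly with h | h
    · exact lz h
    · exact lw h
  have hSG : SG (a 0) ((a 0 : ℤ) + a 1) ((a 0 : ℤ) + a 1 + a 2) (b 0)
      ((b 0 : ℤ) + b 1) ((b 0 : ℤ) + b 1 + b 2) ((y 0 0 : ℤ) + y 1 0 + y 2 0)
      (((y 0 0 : ℤ) + y 0 1) + ((y 1 0 : ℤ) + y 1 1) + ((y 2 0 : ℤ) + y 2 1))
      (((y 0 0 : ℤ) + y 0 1 + y 0 2) + ((y 1 0 : ℤ) + y 1 1 + y 1 2) +
        ((y 2 0 : ℤ) + y 2 1 + y 2 2)) := by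
    have s0 := hs 0
    have s1 := hs 1
    have s2 := hs 2
    unfold SG
    rcases hx' 0 with ⟨u1, u2, u3⟩ | ⟨u1, u2, u3⟩ <;> rcases hx' 1 with ⟨v1, v2, v3⟩ | ⟨v1, v2, v3⟩ <;>
      rcases hx' 2 with ⟨w1, w2, w3⟩ | ⟨w1, w2, w3⟩
    · exact Or.inr (Or.inr (Or.inr ⟨by omega, by omega, by omega⟩))
    · exact Or.inr (Or.inr (Or.inl ⟨by omega, by omega, by omega⟩))
    · exact Or.inr (Or.inr (Or.inl ⟨by omega, by omega, by omega⟩))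
    · exact Or.inr (Or.inl ⟨by omega, by omega, by omega⟩)
    · exact Or.inr (Or.inr (Or.inl ⟨by omega, by omega, by omega⟩))
    · exact Or.inr (Or.inl ⟨by omega, by omega, by omega⟩)
    · exact Or.inr (Or.inl ⟨by omega, by omega, by omega⟩)
    · exact Or.inl ⟨by omega, by omega, by omega⟩
  have hab' := hab
  unfold GE at hab'
  have h := hZ (n 0) (n 1) (n 2) (a 0) ((a 0 : ℤ) + a 1) ((a 0 : ℤ) + a 1 + a 2) (b 0)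
      ((b 0 : ℤ) + b 1) ((b 0 : ℤ) + b 1 + b 2) (bx_vec ha) (bx_vec hb) (by omega) (by omega)
      (by omega) (by omega) hNT _ _ _ _ _ _ _ _ _ (bx_vec (hy 0)) ((hls _).2 (hy' 0))
      (bx_vec (hy 1)) ((hls _).2 (hy' 1)) (bx_vec (hy 2)) ((hls _).2 (hy' 2)) hSG
  have hvec : ∀ (u : Fin 3 → ℕ) (p q r : ℕ), u 0 = p → u 1 = q → u 2 = r → u = ![p, q, r] := by
    intro u p q r h0 h1 h2
    funext i
    fin_cases i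
    · exact h0
    · exact h1
    · exact h2
  rcases h with h | h
  · unfold F1 at h
    refine ⟨n 0 - (2 * (n 0 - a 0 - 1) + 3), n 1 - 3, n 2 - (2 * (n 0 - a 0 - 1) + 5),
      n 0 - a 0 - 1, Or.inl ⟨?_, ?_, ?_⟩⟩
    · apply hvec <;> omega
    · apply hvec <;> omega
    · apply hvec <;> omega
  · unfold F2 at h
    refine ⟨n 0 - (2 * (a 0 - 1) + 3), n 1 - 3, 0, a 0 - 1, Or.inr ⟨?_, ?_, ?_⟩⟩
    · apply hvec <;> omega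
    · apply hvec <;> omega
    · apply hvec <;> omega

theorem win_comm (a b x : Fin 3 → ℕ) : Win a b x ↔ Win b a x := or_comm

theorem core' (hZ : CoreZ) (n a b : Fin 3 → ℕ) (ha : ∀ i, a i ≤ n i) (hb : ∀ i, b i ≤ n i)
    (hab : ¬ GE a b) (hba : ¬ GE b a)
    (t12 : (0 < a 0 ∧ a 1 < n 1) ∨ (0 < b 0 ∧ b 1 < n 1))
    (t23 : (0 < a 1 ∧ a 2 < n 2) ∨ (0 < b 1 ∧ b 2 < n 2))
    (h2 : ∀ x x' y y' : Fin 3 → ℕ, (∀ i, x i ≤ n i) → (∀ i, x' i ≤ n i) → (∀ i, y i ≤ n i) →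
      (∀ i, y' i ≤ n i) → (∀ i, x i + x' i = y i + y' i) → Win a b x → Win a b x' →
      Win a b y ∨ Win a b y')
    (x y : Fin 3 → Fin 3 → ℕ) (hy : ∀ k i, y k i ≤ n i)
    (hx' : ∀ k, Win a b (x k)) (hy' : ∀ k, ¬ Win a b (y k))
    (hs : ∀ i, x 0 i + x 1 i + x 2 i = y 0 i + y 1 i + y 2 i) : Member n a b ∨ Member n b a := by
  by_cases hor : b 0 < a 0 ∨ (a 0 = b 0 ∧ b 0 + b 1 < a 0 + a 1)
  · exact Or.inl (core hZ n a b ha hb hab hor t12 t23 h2 x y hy hx' hy' hs)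
  · refine Or.inr (core hZ n b a hb ha hba ?_ t12.symm t23.symm ?_ x y hy
      (fun k => (win_comm _ _ _).1 (hx' k)) (fun k h => hy' k ((win_comm _ _ _).1 h)) hs)
    · unfold GE at hab hba
      omega
    · intro x x' y y' h3 h4 h5 h6 h7 h8 h9
      rw [win_comm b a y, win_comm b a y']
      exact h2 x x' y y' h3 h4 h5 h6 h7 ((win_comm _ _ _).1 h8) ((win_comm _ _ _).1 h9)

end Pool.Agent.Helper89.TQ
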