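import Pool.Agent.Helper89.TQ.Case0
import Pool.Agent.Helper89.TQ.Case1
import Pool.Agent.Helper89.TQ.Case2
import Pool.Agent.Helper89.TQ.Case3
import Pool.Agent.Helper89.TQ.Fin

/-!
The integer statement.
-/

set_option autoImplicit false
set_option linter.all false

namespace Pool.Agent.Helper89.TQ

theorem coreZ : CoreZ := by
  intro n1 n2 n3 A1 A2 A3 B1 B2 B3 hA hB hor hinc t12 t23 hN y1 y2 y3 z1 z2 z3 w1 w2 w3
    by_ ly bz lz bw lw hS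
  obtain ⟨a0, a1, a2, a3, a4, a5⟩ := hA
  obtain ⟨b0, b1, b2, b3, b4, b5⟩ := hB
  rcases hor with h | ⟨h, h'⟩
  · by_cases h2 : A2 ≥ B2
    · exact case0 a0 a1 a2 a3 a4 a5 b0 b1 b2 b3 b4 b5 h h2 (by omega) t12 t23 hN by_ ly bz lz bw lw hS
    · by_cases h3 : A3 ≥ B3
      · exact case1 a0 a1 a2 a3 a4 a5 b0 b1 b2 b3 b4 b5 h (by omega) h3 t12 t23 hN by_ ly bz lz bw lw hS
      · exact case2 a0 a1 a2 a3 a4 a5 b0 b1 b2 b3 b4 b5 h (by omega) (by omega) t12 t23 hN by_ ly bz lz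
          bw lw hS
  · exact case3 a0 a1 a2 a3 a4 a5 b0 b1 b2 b3 b4 b5 h h' (by omega) t12 t23 hN by_ ly bz lz bw lw hS

end Pool.Agent.Helper89.TQ
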