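import Pool.Agent.Helper89.TQ.Ctx

set_option autoImplicit false
set_option linter.all false

namespace Pool.Agent.Helper89.TQ

theorem c0_11_11_33_k0 {n1 n2 n3 A1 A2 A3 B1 B2 B3 m11_1 m11_2 m11_3 m13_1 m13_2 m13_3 m22_1 m22_2 m22_3 m23_1 m23_2 m23_3 m33_1 m33_2 m33_3 : ℤ}
    (C : Ctx0 n1 n2 n3 A1 A2 A3 B1 B2 B3 m11_1 m11_2 m11_3 m13_1 m13_2 m13_3 m22_1 m22_2 m22_3 m23_1 m23_2 m23_3 m33_1 m33_2 m33_3)
    (e0 : 0 < B1)
    (e1 : 0 < A3)
    (s1 : 0 * A1 + 3 * B1 ≤ m11_1 + m11_1 + m33_1)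
    (s2 : 0 * A2 + 3 * B2 ≤ m11_2 + m11_2 + m33_2)
    (s3 : 0 * A3 + 3 * B3 ≤ m11_3 + m11_3 + m33_3) : False := by
  have h0 := C.a0
  have h1 := C.a1
  have h2 := C.a2
  have h3 := C.a3
  have h4 := C.a4
  have h5 := C.a5
  have h6 := C.b0
  have h7 := C.b1
  have h8 := C.b2
  have h9 := C.b3
  have h10 := C.b4
  have h11 := C.b5
  have h12 := C.o0
  have h13 := C.o1
  have h14 := C.o2
  have h15 := C.t12
  have h16 := C.t23
  have h17 := C.f11_0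
  have h18 := C.f11_1
  have h19 := C.f11_2
  have h20 := C.f33_0
  have h21 := C.f33_1
  have h22 := C.f33_2
  have h23 := C.f33_3
  have h24 := C.f33_4
  have h25 := C.f33_5
  have h26 := C.f33_6
  have h27 := C.f33_7
  have h28 := C.f33_8
  have h29 := C.f23_0
  have h30 := C.f23_1
  have h31 := C.f23_2
  have h32 := C.f23_3
  have h33 := C.f23_4
  have h34 := C.f23_5
  have h35 := C.f23_6
  have h36 := C.f23_7
  have h37 := C.f23_8
  have h38 := C.f23_9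
  have h39 := C.f23_10
  have h40 := C.f22_0
  have h41 := C.f22_1
  have h42 := C.f22_2
  have h43 := C.f22_3
  have h44 := C.f22_4
  have h45 := C.f22_5
  have h46 := C.f22_6
  have h47 := C.p11_33B
  have h48 := C.tzpm
  have h49 := C.tpmz
  have h50 := C.p11_33A
  have h51 := C.tpzm
  have h52 := C.tmpp
  have h53 := C.tzmp
  have h54 := C.p11_23B
  have h55 := C.p11_22B
  have h56 := C.p22_33A
  clear C
  sorry -- omega

theorem c0_11_11_33_k1 {n1 n2 n3 A1 A2 A3 B1 B2 B3 m11_1 m11_2 m11_3 m13_1 m13_2 m13_3 m22_1 m22_2 m22_3 m23_1 m23_2 m23_3 m33_1 m33_2 m33_3 : ℤ}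
    (C : Ctx0 n1 n2 n3 A1 A2 A3 B1 B2 B3 m11_1 m11_2 m11_3 m13_1 m13_2 m13_3 m22_1 m22_2 m22_3 m23_1 m23_2 m23_3 m33_1 m33_2 m33_3)
    (e0 : 0 < B1)
    (e1 : 0 < A3)
    (s1 : 1 * A1 + 2 * B1 ≤ m11_1 + m11_1 + m33_1)
    (s2 : 1 * A2 + 2 * B2 ≤ m11_2 + m11_2 + m33_2)
    (s3 : 1 * A3 + 2 * B3 ≤ m11_3 + m11_3 + m33_3) : False := by
  have h0 := C.a0
  have h1 := C.a1
  have h2 := C.a2
  have h3 := C.a3
  have h4 := C.a4
  have h5 := C.a5
  have h6 := C.b0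
  have h7 := C.b1
  have h8 := C.b2
  have h9 := C.b3
  have h10 := C.b4
  have h11 := C.b5
  have h12 := C.o0
  have h13 := C.o1
  have h14 := C.o2
  have h15 := C.t12
  have h16 := C.t23
  have h17 := C.f11_0
  have h18 := C.f11_1
  have h19 := C.f11_2
  have h20 := C.f33_0
  have h21 := C.f33_1
  have h22 := C.f33_2
  have h23 := C.f33_3
  have h24 := C.f33_4
  have h25 := C.f33_5
  have h26 := C.f33_6
  have h27 := C.f33_7
  have h28 := C.f33_8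
  have h29 := C.f13_0
  have h30 := C.f13_1
  have h31 := C.f13_2
  have h32 := C.f13_3
  have h33 := C.f13_4
  have h34 := C.f13_5
  have h35 := C.f13_6
  have h36 := C.f13_7
  have h37 := C.f13_8
  have h38 := C.p11_33B
  have h39 := C.p11_33A
  have h40 := C.tzpm
  have h41 := C.tpmz
  have h42 := C.p11_13B
  have h43 := C.tmpp
  have h44 := C.tmzp
  clear C
  sorry -- omega

theorem c0_11_13_23_k0 {n1 n2 n3 A1 A2 A3 B1 B2 B3 m11_1 m11_2 m11_3 m13_1 m13_2 m13_3 m22_1 m22_2 m22_3 m23_1 m23_2 m23_3 m33_1 m33_2 m33_3 : ℤ}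
    (C : Ctx0 n1 n2 n3 A1 A2 A3 B1 B2 B3 m11_1 m11_2 m11_3 m13_1 m13_2 m13_3 m22_1 m22_2 m22_3 m23_1 m23_2 m23_3 m33_1 m33_2 m33_3)
    (e0 : 0 < B1)
    (e1 : 0 < A1)
    (e2 : 0 < B3)
    (e3 : 0 < A2)
    (s1 : 0 * A1 + 3 * B1 ≤ m11_1 + m13_1 + m23_1)
    (s2 : 0 * A2 + 3 * B2 ≤ m11_2 + m13_2 + m23_2)
    (s3 : 0 * A3 + 3 * B3 ≤ m11_3 + m13_3 + m23_3) : False := by
  have h0 := C.a0
  have h1 := C.a1
  have h2 := C.a2
  have h3 := C.a3
  have h4 := C.a4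
  have h5 := C.a5
  have h6 := C.b0
  have h7 := C.b1
  have h8 := C.b2
  have h9 := C.b3
  have h10 := C.b4
  have h11 := C.b5
  have h12 := C.o0
  have h13 := C.o1
  have h14 := C.o2
  have h15 := C.t12
  have h16 := C.t23
  have h17 := C.f11_0
  have h18 := C.f11_1
  have h19 := C.f11_2
  have h20 := C.f13_0
  have h21 := C.f13_1
  have h22 := C.f13_2
  have h23 := C.f13_3
  have h24 := C.f13_4
  have h25 := C.f13_5
  have h26 := C.f13_6
  have h27 := C.f13_7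
  have h28 := C.f13_8
  have h29 := C.f23_0
  have h30 := C.f23_1
  have h31 := C.f23_2
  have h32 := C.f23_3
  have h33 := C.f23_4
  have h34 := C.f23_5
  have h35 := C.f23_6
  have h36 := C.f23_7
  have h37 := C.f23_8
  have h38 := C.f23_9
  have h39 := C.f23_10
  have h40 := C.p11_23B
  have h41 := C.p11_13B
  clear C
  sorry -- omega

theorem c0_11_13_23_k3 {n1 n2 n3 A1 A2 A3 B1 B2 B3 m11_1 m11_2 m11_3 m13_1 m13_2 m13_3 m22_1 m22_2 m22_3 m23_1 m23_2 m23_3 m33_1 m33_2 m33_3 : ℤ}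
    (C : Ctx0 n1 n2 n3 A1 A2 A3 B1 B2 B3 m11_1 m11_2 m11_3 m13_1 m13_2 m13_3 m22_1 m22_2 m22_3 m23_1 m23_2 m23_3 m33_1 m33_2 m33_3)
    (e0 : 0 < B1)
    (e1 : 0 < A1)
    (e2 : 0 < B3)
    (e3 : 0 < A2)
    (s1 : 3 * A1 + 0 * B1 ≤ m11_1 + m13_1 + m23_1)
    (s2 : 3 * A2 + 0 * B2 ≤ m11_2 + m13_2 + m23_2)
    (s3 : 3 * A3 + 0 * B3 ≤ m11_3 + m13_3 + m23_3) : False := by
  have h0 := C.a0
  have h1 := C.a1
  have h2 := C.a2
  have h3 := C.a3
  have h4 := C.a4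
  have h5 := C.a5
  have h6 := C.b0
  have h7 := C.b1
  have h8 := C.b2
  have h9 := C.b3
  have h10 := C.b4
  have h11 := C.b5
  have h12 := C.o0
  have h13 := C.o1
  have h14 := C.o2
  have h15 := C.t12
  have h16 := C.t23
  have h17 := C.f11_0
  have h18 := C.f11_1
  have h19 := C.f11_2
  have h20 := C.f13_0
  have h21 := C.f13_1
  have h22 := C.f13_2
  have h23 := C.f13_3
  have h24 := C.f13_4
  have h25 := C.f13_5
  have h26 := C.f13_6
  have h27 := C.f13_7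
  have h28 := C.f13_8
  have h29 := C.f23_0
  have h30 := C.f23_1
  have h31 := C.f23_2
  have h32 := C.f23_3
  have h33 := C.f23_4
  have h34 := C.f23_5
  have h35 := C.f23_6
  have h36 := C.f23_7
  have h37 := C.f23_8
  have h38 := C.f23_9
  have h39 := C.f23_10
  have h40 := C.p11_23B
  clear C
  sorry -- omega

theorem c0_11_13_33_k2 {n1 n2 n3 A1 A2 A3 B1 B2 B3 m11_1 m11_2 m11_3 m13_1 m13_2 m13_3 m22_1 m22_2 m22_3 m23_1 m23_2 m23_3 m33_1 m33_2 m33_3 : ℤ}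
    (C : Ctx0 n1 n2 n3 A1 A2 A3 B1 B2 B3 m11_1 m11_2 m11_3 m13_1 m13_2 m13_3 m22_1 m22_2 m22_3 m23_1 m23_2 m23_3 m33_1 m33_2 m33_3)
    (e0 : 0 < B1)
    (e1 : 0 < A1)
    (e2 : 0 < B3)
    (e3 : 0 < A3)
    (s1 : 2 * A1 + 1 * B1 ≤ m11_1 + m13_1 + m33_1)
    (s2 : 2 * A2 + 1 * B2 ≤ m11_2 + m13_2 + m33_2)
    (s3 : 2 * A3 + 1 * B3 ≤ m11_3 + m13_3 + m33_3) : False := by
  have h0 := C.a0
  have h1 := C.a1
  have h2 := C.a2
  have h3 := C.a3
  have h4 := C.a4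
  have h5 := C.a5
  have h6 := C.b0
  have h7 := C.b1
  have h8 := C.b2
  have h9 := C.b3
  have h10 := C.b4
  have h11 := C.b5
  have h12 := C.o0
  have h13 := C.o1
  have h14 := C.o2
  have h15 := C.t12
  have h16 := C.t23
  have h17 := C.f11_0
  have h18 := C.f11_1
  have h19 := C.f11_2
  have h20 := C.f13_0
  have h21 := C.f13_1
  have h22 := C.f13_2
  have h23 := C.f13_3
  have h24 := C.f13_4
  have h25 := C.f13_5
  have h26 := C.f13_6
  have h27 := C.f13_7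
  have h28 := C.f13_8
  have h29 := C.f33_0
  have h30 := C.f33_1
  have h31 := C.f33_2
  have h32 := C.f33_3
  have h33 := C.f33_4
  have h34 := C.f33_5
  have h35 := C.f33_6
  have h36 := C.f33_7
  have h37 := C.f33_8
  have h38 := C.p11_33B
  have h39 := C.p13_33A
  have h40 := C.p11_13B
  have h41 := C.p11_33A
  have h42 := C.tmpp
  have h43 := C.tmzp
  clear C
  sorry -- omega

theorem c0_11_22_23_k3 {n1 n2 n3 A1 A2 A3 B1 B2 B3 m11_1 m11_2 m11_3 m13_1 m13_2 m13_3 m22_1 m22_2 m22_3 m23_1 m23_2 m23_3 m33_1 m33_2 m33_3 : ℤ}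
    (C : Ctx0 n1 n2 n3 A1 A2 A3 B1 B2 B3 m11_1 m11_2 m11_3 m13_1 m13_2 m13_3 m22_1 m22_2 m22_3 m23_1 m23_2 m23_3 m33_1 m33_2 m33_3)
    (e0 : 0 < B1)
    (e1 : 0 < B2)
    (e2 : 0 < A2)
    (e3 : 0 < B3)
    (s1 : 3 * A1 + 0 * B1 ≤ m11_1 + m22_1 + m23_1)
    (s2 : 3 * A2 + 0 * B2 ≤ m11_2 + m22_2 + m23_2)
    (s3 : 3 * A3 + 0 * B3 ≤ m11_3 + m22_3 + m23_3) : False := by
  have h0 := C.a0
  have h1 := C.a1
  have h2 := C.a2
  have h3 := C.a3
  have h4 := C.a4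
  have h5 := C.a5
  have h6 := C.b0
  have h7 := C.b1
  have h8 := C.b2
  have h9 := C.b3
  have h10 := C.b4
  have h11 := C.b5
  have h12 := C.o0
  have h13 := C.o1
  have h14 := C.o2
  have h15 := C.t12
  have h16 := C.t23
  have h17 := C.f11_0
  have h18 := C.f11_1
  have h19 := C.f11_2
  have h20 := C.f22_0
  have h21 := C.f22_1
  have h22 := C.f22_2
  have h23 := C.f22_3
  have h24 := C.f22_4
  have h25 := C.f22_5
  have h26 := C.f22_6
  have h27 := C.f23_0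
  have h28 := C.f23_1
  have h29 := C.f23_2
  have h30 := C.f23_3
  have h31 := C.f23_4
  have h32 := C.f23_5
  have h33 := C.f23_6
  have h34 := C.f23_7
  have h35 := C.f23_8
  have h36 := C.f23_9
  have h37 := C.f23_10
  have h38 := C.p11_22B
  clear C
  sorry -- omega

theorem c0_11_22_33_k0 {n1 n2 n3 A1 A2 A3 B1 B2 B3 m11_1 m11_2 m11_3 m13_1 m13_2 m13_3 m22_1 m22_2 m22_3 m23_1 m23_2 m23_3 m33_1 m33_2 m33_3 : ℤ}
    (C : Ctx0 n1 n2 n3 A1 A2 A3 B1 B2 B3 m11_1 m11_2 m11_3 m13_1 m13_2 m13_3 m22_1 m22_2 m22_3 m23_1 m23_2 m23_3 m33_1 m33_2 m33_3)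
    (e0 : 0 < B1)
    (e1 : 0 < B2)
    (e2 : 0 < A3)
    (s1 : 0 * A1 + 3 * B1 ≤ m11_1 + m22_1 + m33_1)
    (s2 : 0 * A2 + 3 * B2 ≤ m11_2 + m22_2 + m33_2)
    (s3 : 0 * A3 + 3 * B3 ≤ m11_3 + m22_3 + m33_3) : False := by
  have h0 := C.a0
  have h1 := C.a1
  have h2 := C.a2
  have h3 := C.a3
  have h4 := C.a4
  have h5 := C.a5
  have h6 := C.b0
  have h7 := C.b1
  have h8 := C.b2
  have h9 := C.b3
  have h10 := C.b4
  have h11 := C.b5
  have h12 := C.o0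
  have h13 := C.o1
  have h14 := C.o2
  have h15 := C.t12
  have h16 := C.t23
  have h17 := C.f11_0
  have h18 := C.f11_1
  have h19 := C.f11_2
  have h20 := C.f22_0
  have h21 := C.f22_1
  have h22 := C.f22_2
  have h23 := C.f22_3
  have h24 := C.f22_4
  have h25 := C.f22_5
  have h26 := C.f22_6
  have h27 := C.f33_0
  have h28 := C.f33_1
  have h29 := C.f33_2
  have h30 := C.f33_3
  have h31 := C.f33_4
  have h32 := C.f33_5
  have h33 := C.f33_6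
  have h34 := C.f33_7
  have h35 := C.f33_8
  have h36 := C.f13_0
  have h37 := C.f13_1
  have h38 := C.f13_2
  have h39 := C.f13_3
  have h40 := C.f13_4
  have h41 := C.f13_5
  have h42 := C.f13_6
  have h43 := C.f13_7
  have h44 := C.f13_8
  have h45 := C.p11_33B
  have h46 := C.tzpm
  have h47 := C.tzmp
  have h48 := C.tpzm
  have h49 := C.tpmz
  have h50 := C.p13_22B
  clear C
  sorry -- omega

theorem c0_11_22_33_k1 {n1 n2 n3 A1 A2 A3 B1 B2 B3 m11_1 m11_2 m11_3 m13_1 m13_2 m13_3 m22_1 m22_2 m22_3 m23_1 m23_2 m23_3 m33_1 m33_2 m33_3 : ℤ}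
    (C : Ctx0 n1 n2 n3 A1 A2 A3 B1 B2 B3 m11_1 m11_2 m11_3 m13_1 m13_2 m13_3 m22_1 m22_2 m22_3 m23_1 m23_2 m23_3 m33_1 m33_2 m33_3)
    (e0 : 0 < B1)
    (e1 : 0 < B2)
    (e2 : 0 < A3)
    (s1 : 1 * A1 + 2 * B1 ≤ m11_1 + m22_1 + m33_1)
    (s2 : 1 * A2 + 2 * B2 ≤ m11_2 + m22_2 + m33_2)
    (s3 : 1 * A3 + 2 * B3 ≤ m11_3 + m22_3 + m33_3) : False := by
  have h0 := C.a0
  have h1 := C.a1
  have h2 := C.a2
  have h3 := C.a3
  have h4 := C.a4
  have h5 := C.a5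
  have h6 := C.b0
  have h7 := C.b1
  have h8 := C.b2
  have h9 := C.b3
  have h10 := C.b4
  have h11 := C.b5
  have h12 := C.o0
  have h13 := C.o1
  have h14 := C.o2
  have h15 := C.t12
  have h16 := C.t23
  have h17 := C.f11_0
  have h18 := C.f11_1
  have h19 := C.f11_2
  have h20 := C.f22_0
  have h21 := C.f22_1
  have h22 := C.f22_2
  have h23 := C.f22_3
  have h24 := C.f22_4
  have h25 := C.f22_5
  have h26 := C.f22_6
  have h27 := C.f33_0
  have h28 := C.f33_1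
  have h29 := C.f33_2
  have h30 := C.f33_3
  have h31 := C.f33_4
  have h32 := C.f33_5
  have h33 := C.f33_6
  have h34 := C.f33_7
  have h35 := C.f33_8
  have h36 := C.f23_0
  have h37 := C.f23_1
  have h38 := C.f23_2
  have h39 := C.f23_3
  have h40 := C.f23_4
  have h41 := C.f23_5
  have h42 := C.f23_6
  have h43 := C.f23_7
  have h44 := C.f23_8
  have h45 := C.f23_9
  have h46 := C.f23_10
  have h47 := C.p11_33B
  have h48 := C.tzpm
  have h49 := C.p22_33A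
  have h50 := C.tpmz
  have h51 := C.tpzm
  have h52 := C.tmzp
  have h53 := C.tzmp
  have h54 := C.p11_23B
  clear C
  sorry -- omega

theorem c0_11_22_33_k3 {n1 n2 n3 A1 A2 A3 B1 B2 B3 m11_1 m11_2 m11_3 m13_1 m13_2 m13_3 m22_1 m22_2 m22_3 m23_1 m23_2 m23_3 m33_1 m33_2 m33_3 : ℤ}
    (C : Ctx0 n1 n2 n3 A1 A2 A3 B1 B2 B3 m11_1 m11_2 m11_3 m13_1 m13_2 m13_3 m22_1 m22_2 m22_3 m23_1 m23_2 m23_3 m33_1 m33_2 m33_3)
    (e0 : 0 < B1)
    (e1 : 0 < B2)
    (e2 : 0 < A3)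
    (s1 : 3 * A1 + 0 * B1 ≤ m11_1 + m22_1 + m33_1)
    (s2 : 3 * A2 + 0 * B2 ≤ m11_2 + m22_2 + m33_2)
    (s3 : 3 * A3 + 0 * B3 ≤ m11_3 + m22_3 + m33_3) : False := by
  have h0 := C.a0
  have h1 := C.a1
  have h2 := C.a2
  have h3 := C.a3
  have h4 := C.a4
  have h5 := C.a5
  have h6 := C.b0
  have h7 := C.b1
  have h8 := C.b2
  have h9 := C.b3
  have h10 := C.b4
  have h11 := C.b5
  have h12 := C.o0
  have h13 := C.o1
  have h14 := C.o2
  have h15 := C.t12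
  have h16 := C.t23
  have h17 := C.f11_0
  have h18 := C.f11_1
  have h19 := C.f11_2
  have h20 := C.f22_0
  have h21 := C.f22_1
  have h22 := C.f22_2
  have h23 := C.f22_3
  have h24 := C.f22_4
  have h25 := C.f22_5
  have h26 := C.f22_6
  have h27 := C.f33_0
  have h28 := C.f33_1
  have h29 := C.f33_2
  have h30 := C.f33_3
  have h31 := C.f33_4
  have h32 := C.f33_5
  have h33 := C.f33_6
  have h34 := C.f33_7
  have h35 := C.f33_8
  have h36 := C.f13_0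
  have h37 := C.f13_1
  have h38 := C.f13_2
  have h39 := C.f13_3
  have h40 := C.f13_4
  have h41 := C.f13_5
  have h42 := C.f13_6
  have h43 := C.f13_7
  have h44 := C.f13_8
  have h45 := C.f23_0
  have h46 := C.f23_1
  have h47 := C.f23_2
  have h48 := C.f23_3
  have h49 := C.f23_4
  have h50 := C.f23_5
  have h51 := C.f23_6
  have h52 := C.f23_7
  have h53 := C.f23_8
  have h54 := C.f23_9
  have h55 := C.f23_10
  have h56 := C.p11_33A
  have h57 := C.p11_22B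
  have h58 := C.p22_33A
  have h59 := C.p13_22A
  have h60 := C.p13_23A
  clear C
  sorry -- omega

theorem c0_11_23_33_k1 {n1 n2 n3 A1 A2 A3 B1 B2 B3 m11_1 m11_2 m11_3 m13_1 m13_2 m13_3 m22_1 m22_2 m22_3 m23_1 m23_2 m23_3 m33_1 m33_2 m33_3 : ℤ}
    (C : Ctx0 n1 n2 n3 A1 A2 A3 B1 B2 B3 m11_1 m11_2 m11_3 m13_1 m13_2 m13_3 m22_1 m22_2 m22_3 m23_1 m23_2 m23_3 m33_1 m33_2 m33_3)
    (e0 : 0 < B1)
    (e1 : 0 < A2)
    (e2 : 0 < B3)
    (e3 : 0 < A3)
    (s1 : 1 * A1 + 2 * B1 ≤ m11_1 + m23_1 + m33_1)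
    (s2 : 1 * A2 + 2 * B2 ≤ m11_2 + m23_2 + m33_2)
    (s3 : 1 * A3 + 2 * B3 ≤ m11_3 + m23_3 + m33_3) : False := by
  have h0 := C.a0
  have h1 := C.a1
  have h2 := C.a2
  have h3 := C.a3
  have h4 := C.a4
  have h5 := C.a5
  have h6 := C.b0
  have h7 := C.b1
  have h8 := C.b2
  have h9 := C.b3
  have h10 := C.b4
  have h11 := C.b5
  have h12 := C.o0
  have h13 := C.o1
  have h14 := C.o2
  have h15 := C.t12
  have h16 := C.t23
  have h17 := C.f11_0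
  have h18 := C.f11_1
  have h19 := C.f11_2
  have h20 := C.f23_0
  have h21 := C.f23_1
  have h22 := C.f23_2
  have h23 := C.f23_3
  have h24 := C.f23_4
  have h25 := C.f23_5
  have h26 := C.f23_6
  have h27 := C.f23_7
  have h28 := C.f23_8
  have h29 := C.f23_9
  have h30 := C.f23_10
  have h31 := C.f33_0
  have h32 := C.f33_1
  have h33 := C.f33_2
  have h34 := C.f33_3
  have h35 := C.f33_4
  have h36 := C.f33_5
  have h37 := C.f33_6
  have h38 := C.f33_7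
  have h39 := C.f33_8
  have h40 := C.p11_23B
  have h41 := C.tzmp
  clear C
  sorry -- omega

theorem c0_11_23_33_k2 {n1 n2 n3 A1 A2 A3 B1 B2 B3 m11_1 m11_2 m11_3 m13_1 m13_2 m13_3 m22_1 m22_2 m22_3 m23_1 m23_2 m23_3 m33_1 m33_2 m33_3 : ℤ}
    (C : Ctx0 n1 n2 n3 A1 A2 A3 B1 B2 B3 m11_1 m11_2 m11_3 m13_1 m13_2 m13_3 m22_1 m22_2 m22_3 m23_1 m23_2 m23_3 m33_1 m33_2 m33_3)
    (e0 : 0 < B1)
    (e1 : 0 < A2)
    (e2 : 0 < B3)
    (e3 : 0 < A3)
    (s1 : 2 * A1 + 1 * B1 ≤ m11_1 + m23_1 + m33_1)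
    (s2 : 2 * A2 + 1 * B2 ≤ m11_2 + m23_2 + m33_2)
    (s3 : 2 * A3 + 1 * B3 ≤ m11_3 + m23_3 + m33_3) : False := by
  have h0 := C.a0
  have h1 := C.a1
  have h2 := C.a2
  have h3 := C.a3
  have h4 := C.a4
  have h5 := C.a5
  have h6 := C.b0
  have h7 := C.b1
  have h8 := C.b2
  have h9 := C.b3
  have h10 := C.b4
  have h11 := C.b5
  have h12 := C.o0
  have h13 := C.o1
  have h14 := C.o2
  have h15 := C.t12
  have h16 := C.t23
  have h17 := C.f11_0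
  have h18 := C.f11_1
  have h19 := C.f11_2
  have h20 := C.f23_0
  have h21 := C.f23_1
  have h22 := C.f23_2
  have h23 := C.f23_3
  have h24 := C.f23_4
  have h25 := C.f23_5
  have h26 := C.f23_6
  have h27 := C.f23_7
  have h28 := C.f23_8
  have h29 := C.f23_9
  have h30 := C.f23_10
  have h31 := C.f33_0
  have h32 := C.f33_1
  have h33 := C.f33_2
  have h34 := C.f33_3
  have h35 := C.f33_4
  have h36 := C.f33_5
  have h37 := C.f33_6
  have h38 := C.f33_7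
  have h39 := C.f33_8
  have h40 := C.p11_23B
  have h41 := C.p23_33A
  have h42 := C.tzmp
  clear C
  sorry -- omega

theorem c0_11_23_33_k3 {n1 n2 n3 A1 A2 A3 B1 B2 B3 m11_1 m11_2 m11_3 m13_1 m13_2 m13_3 m22_1 m22_2 m22_3 m23_1 m23_2 m23_3 m33_1 m33_2 m33_3 : ℤ}
    (C : Ctx0 n1 n2 n3 A1 A2 A3 B1 B2 B3 m11_1 m11_2 m11_3 m13_1 m13_2 m13_3 m22_1 m22_2 m22_3 m23_1 m23_2 m23_3 m33_1 m33_2 m33_3)
    (e0 : 0 < B1)
    (e1 : 0 < A2)
    (e2 : 0 < B3)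
    (e3 : 0 < A3)
    (s1 : 3 * A1 + 0 * B1 ≤ m11_1 + m23_1 + m33_1)
    (s2 : 3 * A2 + 0 * B2 ≤ m11_2 + m23_2 + m33_2)
    (s3 : 3 * A3 + 0 * B3 ≤ m11_3 + m23_3 + m33_3) : F1 n1 n2 n3 A1 A2 A3 B1 B2 B3 ∨ F2 n1 n2 n3 A1 A2 A3 B1 B2 B3 := by
  have h0 := C.a0
  have h1 := C.a1
  have h2 := C.a2
  have h3 := C.a3
  have h4 := C.a4
  have h5 := C.a5
  have h6 := C.b0
  have h7 := C.b1
  have h8 := C.b2
  have h9 := C.b3
  have h10 := C.b4
  have h11 := C.b5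
  have h12 := C.o0
  have h13 := C.o1
  have h14 := C.o2
  have h15 := C.t12
  have h16 := C.t23
  have h17 := C.f11_0
  have h18 := C.f11_1
  have h19 := C.f11_2
  have h20 := C.f23_0
  have h21 := C.f23_1
  have h22 := C.f23_2
  have h23 := C.f23_3
  have h24 := C.f23_4
  have h25 := C.f23_5
  have h26 := C.f23_6
  have h27 := C.f23_7
  have h28 := C.f23_8
  have h29 := C.f23_9
  have h30 := C.f23_10
  have h31 := C.f33_0
  have h32 := C.f33_1
  have h33 := C.f33_2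
  have h34 := C.f33_3
  have h35 := C.f33_4
  have h36 := C.f33_5
  have h37 := C.f33_6
  have h38 := C.f33_7
  have h39 := C.f33_8
  have h40 := C.f13_0
  have h41 := C.f13_1
  have h42 := C.f13_2
  have h43 := C.f13_3
  have h44 := C.f13_4
  have h45 := C.f13_5
  have h46 := C.f13_6
  have h47 := C.f13_7
  have h48 := C.f13_8
  have h49 := C.f22_0
  have h50 := C.f22_1
  have h51 := C.f22_2
  have h52 := C.f22_3
  have h53 := C.f22_4
  have h54 := C.f22_5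
  have h55 := C.f22_6
  have h56 := C.p11_23B
  have h57 := C.p11_33A
  have h58 := C.p23_33A
  have h59 := C.tzmp
  have h60 := C.tpmz
  have h61 := C.p13_23A
  have h62 := C.p22_33A
  clear C
  unfold F1 F2
  sorry -- omega

theorem c0_11_33_33_k2 {n1 n2 n3 A1 A2 A3 B1 B2 B3 m11_1 m11_2 m11_3 m13_1 m13_2 m13_3 m22_1 m22_2 m22_3 m23_1 m23_2 m23_3 m33_1 m33_2 m33_3 : ℤ}
    (C : Ctx0 n1 n2 n3 A1 A2 A3 B1 B2 B3 m11_1 m11_2 m11_3 m13_1 m13_2 m13_3 m22_1 m22_2 m22_3 m23_1 m23_2 m23_3 m33_1 m33_2 m33_3)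
    (e0 : 0 < B1)
    (e1 : 0 < A3)
    (s1 : 2 * A1 + 1 * B1 ≤ m11_1 + m33_1 + m33_1)
    (s2 : 2 * A2 + 1 * B2 ≤ m11_2 + m33_2 + m33_2)
    (s3 : 2 * A3 + 1 * B3 ≤ m11_3 + m33_3 + m33_3) : False := by
  have h0 := C.a0
  have h1 := C.a1
  have h2 := C.a2
  have h3 := C.a3
  have h4 := C.a4
  have h5 := C.a5
  have h6 := C.b0
  have h7 := C.b1
  have h8 := C.b2
  have h9 := C.b3
  have h10 := C.b4
  have h11 := C.b5
  have h12 := C.o0
  have h13 := C.o1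
  have h14 := C.o2
  have h15 := C.t12
  have h16 := C.t23
  have h17 := C.f11_0
  have h18 := C.f11_1
  have h19 := C.f11_2
  have h20 := C.f33_0
  have h21 := C.f33_1
  have h22 := C.f33_2
  have h23 := C.f33_3
  have h24 := C.f33_4
  have h25 := C.f33_5
  have h26 := C.f33_6
  have h27 := C.f33_7
  have h28 := C.f33_8
  have h29 := C.f13_0
  have h30 := C.f13_1
  have h31 := C.f13_2
  have h32 := C.f13_3
  have h33 := C.f13_4
  have h34 := C.f13_5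
  have h35 := C.f13_6
  have h36 := C.f13_7
  have h37 := C.f13_8
  have h38 := C.p11_33B
  have h39 := C.tzpm
  have h40 := C.tpzm
  have h41 := C.p11_33A
  have h42 := C.tzmp
  have h43 := C.p13_33A
  clear C
  sorry -- omega

theorem c0_11_33_33_k3 {n1 n2 n3 A1 A2 A3 B1 B2 B3 m11_1 m11_2 m11_3 m13_1 m13_2 m13_3 m22_1 m22_2 m22_3 m23_1 m23_2 m23_3 m33_1 m33_2 m33_3 : ℤ}
    (C : Ctx0 n1 n2 n3 A1 A2 A3 B1 B2 B3 m11_1 m11_2 m11_3 m13_1 m13_2 m13_3 m22_1 m22_2 m22_3 m23_1 m23_2 m23_3 m33_1 m33_2 m33_3)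
    (e0 : 0 < B1)
    (e1 : 0 < A3)
    (s1 : 3 * A1 + 0 * B1 ≤ m11_1 + m33_1 + m33_1)
    (s2 : 3 * A2 + 0 * B2 ≤ m11_2 + m33_2 + m33_2)
    (s3 : 3 * A3 + 0 * B3 ≤ m11_3 + m33_3 + m33_3) : False := by
  have h0 := C.a0
  have h1 := C.a1
  have h2 := C.a2
  have h3 := C.a3
  have h4 := C.a4
  have h5 := C.a5
  have h6 := C.b0
  have h7 := C.b1
  have h8 := C.b2
  have h9 := C.b3
  have h10 := C.b4
  have h11 := C.b5
  have h12 := C.o0
  have h13 := C.o1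
  have h14 := C.o2
  have h15 := C.t12
  have h16 := C.t23
  have h17 := C.f11_0
  have h18 := C.f11_1
  have h19 := C.f11_2
  have h20 := C.f33_0
  have h21 := C.f33_1
  have h22 := C.f33_2
  have h23 := C.f33_3
  have h24 := C.f33_4
  have h25 := C.f33_5
  have h26 := C.f33_6
  have h27 := C.f33_7
  have h28 := C.f33_8
  have h29 := C.f13_0
  have h30 := C.f13_1
  have h31 := C.f13_2
  have h32 := C.f13_3
  have h33 := C.f13_4
  have h34 := C.f13_5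
  have h35 := C.f13_6
  have h36 := C.f13_7
  have h37 := C.f13_8
  have h38 := C.f22_0
  have h39 := C.f22_1
  have h40 := C.f22_2
  have h41 := C.f22_3
  have h42 := C.f22_4
  have h43 := C.f22_5
  have h44 := C.f22_6
  have h45 := C.f23_0
  have h46 := C.f23_1
  have h47 := C.f23_2
  have h48 := C.f23_3
  have h49 := C.f23_4
  have h50 := C.f23_5
  have h51 := C.f23_6
  have h52 := C.f23_7
  have h53 := C.f23_8
  have h54 := C.f23_9
  have h55 := C.f23_10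
  have h56 := C.p11_33B
  have h57 := C.p11_33A
  have h58 := C.tzpm
  have h59 := C.tpmz
  have h60 := C.tpzm
  have h61 := C.tmpp
  have h62 := C.tzmp
  have h63 := C.tmzp
  have h64 := C.p11_13B
  have h65 := C.p22_33A
  have h66 := C.p11_22B
  have h67 := C.p11_23B
  clear C
  sorry -- omega

theorem c0_13_22_33_k2 {n1 n2 n3 A1 A2 A3 B1 B2 B3 m11_1 m11_2 m11_3 m13_1 m13_2 m13_3 m22_1 m22_2 m22_3 m23_1 m23_2 m23_3 m33_1 m33_2 m33_3 : ℤ}
    (C : Ctx0 n1 n2 n3 A1 A2 A3 B1 B2 B3 m11_1 m11_2 m11_3 m13_1 m13_2 m13_3 m22_1 m22_2 m22_3 m23_1 m23_2 m23_3 m33_1 m33_2 m33_3)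
    (e0 : 0 < A1)
    (e1 : 0 < B3)
    (e2 : 0 < B2)
    (e3 : 0 < A3)
    (s1 : 2 * A1 + 1 * B1 ≤ m13_1 + m22_1 + m33_1)
    (s2 : 2 * A2 + 1 * B2 ≤ m13_2 + m22_2 + m33_2)
    (s3 : 2 * A3 + 1 * B3 ≤ m13_3 + m22_3 + m33_3) : False := by
  have h0 := C.a0
  have h1 := C.a1
  have h2 := C.a2
  have h3 := C.a3
  have h4 := C.a4
  have h5 := C.a5
  have h6 := C.b0
  have h7 := C.b1
  have h8 := C.b2
  have h9 := C.b3
  have h10 := C.b4
  have h11 := C.b5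
  have h12 := C.o0
  have h13 := C.o1
  have h14 := C.o2
  have h15 := C.t12
  have h16 := C.t23
  have h17 := C.f13_0
  have h18 := C.f13_1
  have h19 := C.f13_2
  have h20 := C.f13_3
  have h21 := C.f13_4
  have h22 := C.f13_5
  have h23 := C.f13_6
  have h24 := C.f13_7
  have h25 := C.f13_8
  have h26 := C.f22_0
  have h27 := C.f22_1
  have h28 := C.f22_2
  have h29 := C.f22_3
  have h30 := C.f22_4
  have h31 := C.f22_5
  have h32 := C.f22_6
  have h33 := C.f33_0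
  have h34 := C.f33_1
  have h35 := C.f33_2
  have h36 := C.f33_3
  have h37 := C.f33_4
  have h38 := C.f33_5
  have h39 := C.f33_6
  have h40 := C.f33_7
  have h41 := C.f33_8
  have h42 := C.p13_22B
  have h43 := C.p13_33A
  have h44 := C.tpmm
  have h45 := C.p22_33A
  have h46 := C.tmzp
  have h47 := C.tpzm
  clear C
  sorry -- omega

theorem c0_13_22_33_k3 {n1 n2 n3 A1 A2 A3 B1 B2 B3 m11_1 m11_2 m11_3 m13_1 m13_2 m13_3 m22_1 m22_2 m22_3 m23_1 m23_2 m23_3 m33_1 m33_2 m33_3 : ℤ}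
    (C : Ctx0 n1 n2 n3 A1 A2 A3 B1 B2 B3 m11_1 m11_2 m11_3 m13_1 m13_2 m13_3 m22_1 m22_2 m22_3 m23_1 m23_2 m23_3 m33_1 m33_2 m33_3)
    (e0 : 0 < A1)
    (e1 : 0 < B3)
    (e2 : 0 < B2)
    (e3 : 0 < A3)
    (s1 : 3 * A1 + 0 * B1 ≤ m13_1 + m22_1 + m33_1)
    (s2 : 3 * A2 + 0 * B2 ≤ m13_2 + m22_2 + m33_2)
    (s3 : 3 * A3 + 0 * B3 ≤ m13_3 + m22_3 + m33_3) : F1 n1 n2 n3 A1 A2 A3 B1 B2 B3 ∨ F2 n1 n2 n3 A1 A2 A3 B1 B2 B3 := by
  have h0 := C.a0
  have h1 := C.a1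
  have h2 := C.a2
  have h3 := C.a3
  have h4 := C.a4
  have h5 := C.a5
  have h6 := C.b0
  have h7 := C.b1
  have h8 := C.b2
  have h9 := C.b3
  have h10 := C.b4
  have h11 := C.b5
  have h12 := C.o0
  have h13 := C.o1
  have h14 := C.o2
  have h15 := C.t12
  have h16 := C.t23
  have h17 := C.f13_0
  have h18 := C.f13_1
  have h19 := C.f13_2
  have h20 := C.f13_3
  have h21 := C.f13_4
  have h22 := C.f13_5
  have h23 := C.f13_6
  have h24 := C.f13_7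
  have h25 := C.f13_8
  have h26 := C.f22_0
  have h27 := C.f22_1
  have h28 := C.f22_2
  have h29 := C.f22_3
  have h30 := C.f22_4
  have h31 := C.f22_5
  have h32 := C.f22_6
  have h33 := C.f33_0
  have h34 := C.f33_1
  have h35 := C.f33_2
  have h36 := C.f33_3
  have h37 := C.f33_4
  have h38 := C.f33_5
  have h39 := C.f33_6
  have h40 := C.f33_7
  have h41 := C.f33_8
  have h42 := C.f23_0
  have h43 := C.f23_1
  have h44 := C.f23_2
  have h45 := C.f23_3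
  have h46 := C.f23_4
  have h47 := C.f23_5
  have h48 := C.f23_6
  have h49 := C.f23_7
  have h50 := C.f23_8
  have h51 := C.f23_9
  have h52 := C.f23_10
  have h53 := C.p13_33A
  have h54 := C.p13_22B
  have h55 := C.p22_33A
  have h56 := C.tmzp
  have h57 := C.tpmz
  have h58 := C.p13_23A
  clear C
  unfold F1 F2
  sorry -- omega

theorem c0_13_23_33_k2 {n1 n2 n3 A1 A2 A3 B1 B2 B3 m11_1 m11_2 m11_3 m13_1 m13_2 m13_3 m22_1 m22_2 m22_3 m23_1 m23_2 m23_3 m33_1 m33_2 m33_3 : ℤ}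
    (C : Ctx0 n1 n2 n3 A1 A2 A3 B1 B2 B3 m11_1 m11_2 m11_3 m13_1 m13_2 m13_3 m22_1 m22_2 m22_3 m23_1 m23_2 m23_3 m33_1 m33_2 m33_3)
    (e0 : 0 < A1)
    (e1 : 0 < B3)
    (e2 : 0 < A2)
    (e3 : 0 < A3)
    (s1 : 2 * A1 + 1 * B1 ≤ m13_1 + m23_1 + m33_1)
    (s2 : 2 * A2 + 1 * B2 ≤ m13_2 + m23_2 + m33_2)
    (s3 : 2 * A3 + 1 * B3 ≤ m13_3 + m23_3 + m33_3) : False := by
  have h0 := C.a0
  have h1 := C.a1
  have h2 := C.a2
  have h3 := C.a3
  have h4 := C.a4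
  have h5 := C.a5
  have h6 := C.b0
  have h7 := C.b1
  have h8 := C.b2
  have h9 := C.b3
  have h10 := C.b4
  have h11 := C.b5
  have h12 := C.o0
  have h13 := C.o1
  have h14 := C.o2
  have h15 := C.t12
  have h16 := C.t23
  have h17 := C.f13_0
  have h18 := C.f13_1
  have h19 := C.f13_2
  have h20 := C.f13_3
  have h21 := C.f13_4
  have h22 := C.f13_5
  have h23 := C.f13_6
  have h24 := C.f13_7
  have h25 := C.f13_8
  have h26 := C.f23_0
  have h27 := C.f23_1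
  have h28 := C.f23_2
  have h29 := C.f23_3
  have h30 := C.f23_4
  have h31 := C.f23_5
  have h32 := C.f23_6
  have h33 := C.f23_7
  have h34 := C.f23_8
  have h35 := C.f23_9
  have h36 := C.f23_10
  have h37 := C.f33_0
  have h38 := C.f33_1
  have h39 := C.f33_2
  have h40 := C.f33_3
  have h41 := C.f33_4
  have h42 := C.f33_5
  have h43 := C.f33_6
  have h44 := C.f33_7
  have h45 := C.f33_8
  have h46 := C.p13_33A
  have h47 := C.tpzm
  have h48 := C.tzpm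
  clear C
  sorry -- omega

theorem c0_22_23_33_k3 {n1 n2 n3 A1 A2 A3 B1 B2 B3 m11_1 m11_2 m11_3 m13_1 m13_2 m13_3 m22_1 m22_2 m22_3 m23_1 m23_2 m23_3 m33_1 m33_2 m33_3 : ℤ}
    (C : Ctx0 n1 n2 n3 A1 A2 A3 B1 B2 B3 m11_1 m11_2 m11_3 m13_1 m13_2 m13_3 m22_1 m22_2 m22_3 m23_1 m23_2 m23_3 m33_1 m33_2 m33_3)
    (e0 : 0 < B2)
    (e1 : 0 < A2)
    (e2 : 0 < B3)
    (e3 : 0 < A3)
    (s1 : 3 * A1 + 0 * B1 ≤ m22_1 + m23_1 + m33_1)
    (s2 : 3 * A2 + 0 * B2 ≤ m22_2 + m23_2 + m33_2)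
    (s3 : 3 * A3 + 0 * B3 ≤ m22_3 + m23_3 + m33_3) : False := by
  have h0 := C.a0
  have h1 := C.a1
  have h2 := C.a2
  have h3 := C.a3
  have h4 := C.a4
  have h5 := C.a5
  have h6 := C.b0
  have h7 := C.b1
  have h8 := C.b2
  have h9 := C.b3
  have h10 := C.b4
  have h11 := C.b5
  have h12 := C.o0
  have h13 := C.o1
  have h14 := C.o2
  have h15 := C.t12
  have h16 := C.t23
  have h17 := C.f22_0
  have h18 := C.f22_1
  have h19 := C.f22_2
  have h20 := C.f22_3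
  have h21 := C.f22_4
  have h22 := C.f22_5
  have h23 := C.f22_6
  have h24 := C.f23_0
  have h25 := C.f23_1
  have h26 := C.f23_2
  have h27 := C.f23_3
  have h28 := C.f23_4
  have h29 := C.f23_5
  have h30 := C.f23_6
  have h31 := C.f23_7
  have h32 := C.f23_8
  have h33 := C.f23_9
  have h34 := C.f23_10
  have h35 := C.f33_0
  have h36 := C.f33_1
  have h37 := C.f33_2
  have h38 := C.f33_3
  have h39 := C.f33_4
  have h40 := C.f33_5
  have h41 := C.f33_6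
  have h42 := C.f33_7
  have h43 := C.f33_8
  have h44 := C.f13_0
  have h45 := C.f13_1
  have h46 := C.f13_2
  have h47 := C.f13_3
  have h48 := C.f13_4
  have h49 := C.f13_5
  have h50 := C.f13_6
  have h51 := C.f13_7
  have h52 := C.f13_8
  have h53 := C.p22_33A
  have h54 := C.p23_33A
  have h55 := C.tmzp
  have h56 := C.p13_23A
  clear C
  sorry -- omega

theorem c2_11_11_33_k0 {n1 n2 n3 A1 A2 A3 B1 B2 B3 m11_1 m11_2 m11_3 m12_1 m12_2 m12_3 m13_1 m13_2 m13_3 m22_1 m22_2 m22_3 m33_1 m33_2 m33_3 : ℤ}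
    (C : Ctx2 n1 n2 n3 A1 A2 A3 B1 B2 B3 m11_1 m11_2 m11_3 m12_1 m12_2 m12_3 m13_1 m13_2 m13_3 m22_1 m22_2 m22_3 m33_1 m33_2 m33_3)
    (e0 : 0 < B1)
    (e1 : 0 < A3)
    (s1 : 0 * A1 + 3 * B1 ≤ m11_1 + m11_1 + m33_1)
    (s2 : 0 * A2 + 3 * B2 ≤ m11_2 + m11_2 + m33_2)
    (s3 : 0 * A3 + 3 * B3 ≤ m11_3 + m11_3 + m33_3) : False := by
  have h0 := C.a0
  have h1 := C.a1
  have h2 := C.a2
  have h3 := C.a3
  have h4 := C.a4
  have h5 := C.a5
  have h6 := C.b0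
  have h7 := C.b1
  have h8 := C.b2
  have h9 := C.b3
  have h10 := C.b4
  have h11 := C.b5
  have h12 := C.o0
  have h13 := C.o1
  have h14 := C.o2
  have h15 := C.t12
  have h16 := C.t23
  have h17 := C.f11_0
  have h18 := C.f11_1
  have h19 := C.f11_2
  have h20 := C.f33_0
  have h21 := C.f33_1
  have h22 := C.f33_2
  have h23 := C.f33_3
  have h24 := C.f33_4
  have h25 := C.f33_5
  have h26 := C.f33_6
  have h27 := C.f33_7
  have h28 := C.f33_8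
  have h29 := C.f12_0
  have h30 := C.f12_1
  have h31 := C.f12_2
  have h32 := C.f12_3
  have h33 := C.f12_4
  have h34 := C.f12_5
  have h35 := C.f12_6
  have h36 := C.p11_33B
  have h37 := C.p11_33A
  have h38 := C.tpmm
  have h39 := C.tmzp
  have h40 := C.tmpp
  have h41 := C.tzmp
  have h42 := C.p12_33A
  have h43 := C.tpmz
  have h44 := C.p11_12B
  clear C
  sorry -- omega

theorem c2_11_13_22_k0 {n1 n2 n3 A1 A2 A3 B1 B2 B3 m11_1 m11_2 m11_3 m12_1 m12_2 m12_3 m13_1 m13_2 m13_3 m22_1 m22_2 m22_3 m33_1 m33_2 m33_3 : ℤ}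
    (C : Ctx2 n1 n2 n3 A1 A2 A3 B1 B2 B3 m11_1 m11_2 m11_3 m12_1 m12_2 m12_3 m13_1 m13_2 m13_3 m22_1 m22_2 m22_3 m33_1 m33_2 m33_3)
    (e0 : 0 < B1)
    (e1 : 0 < A1)
    (e2 : 0 < B3)
    (e3 : 0 < A2)
    (s1 : 0 * A1 + 3 * B1 ≤ m11_1 + m13_1 + m22_1)
    (s2 : 0 * A2 + 3 * B2 ≤ m11_2 + m13_2 + m22_2)
    (s3 : 0 * A3 + 3 * B3 ≤ m11_3 + m13_3 + m22_3) : False := by
  have h0 := C.a0
  have h1 := C.a1
  have h2 := C.a2
  have h3 := C.a3
  have h4 := C.a4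
  have h5 := C.a5
  have h6 := C.b0
  have h7 := C.b1
  have h8 := C.b2
  have h9 := C.b3
  have h10 := C.b4
  have h11 := C.b5
  have h12 := C.o0
  have h13 := C.o1
  have h14 := C.o2
  have h15 := C.t12
  have h16 := C.t23
  have h17 := C.f11_0
  have h18 := C.f11_1
  have h19 := C.f11_2
  have h20 := C.f13_0
  have h21 := C.f13_1
  have h22 := C.f13_2
  have h23 := C.f13_3
  have h24 := C.f13_4
  have h25 := C.f13_5
  have h26 := C.f13_6
  have h27 := C.f13_7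
  have h28 := C.f13_8
  have h29 := C.f22_0
  have h30 := C.f22_1
  have h31 := C.f22_2
  have h32 := C.f22_3
  have h33 := C.f22_4
  have h34 := C.f22_5
  have h35 := C.f22_6
  have h36 := C.f33_0
  have h37 := C.f33_1
  have h38 := C.f33_2
  have h39 := C.f33_3
  have h40 := C.f33_4
  have h41 := C.f33_5
  have h42 := C.f33_6
  have h43 := C.f33_7
  have h44 := C.f33_8
  have h45 := C.p11_13B
  have h46 := C.p13_22A
  have h47 := C.p11_22B
  have h48 := C.tmzp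
  have h49 := C.tzpm
  have h50 := C.tzmp
  have h51 := C.p11_33B
  clear C
  sorry -- omega

theorem c2_11_22_33_k0 {n1 n2 n3 A1 A2 A3 B1 B2 B3 m11_1 m11_2 m11_3 m12_1 m12_2 m12_3 m13_1 m13_2 m13_3 m22_1 m22_2 m22_3 m33_1 m33_2 m33_3 : ℤ}
    (C : Ctx2 n1 n2 n3 A1 A2 A3 B1 B2 B3 m11_1 m11_2 m11_3 m12_1 m12_2 m12_3 m13_1 m13_2 m13_3 m22_1 m22_2 m22_3 m33_1 m33_2 m33_3)
    (e0 : 0 < B1)
    (e1 : 0 < A2)
    (e2 : 0 < A3)
    (s1 : 0 * A1 + 3 * B1 ≤ m11_1 + m22_1 + m33_1)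
    (s2 : 0 * A2 + 3 * B2 ≤ m11_2 + m22_2 + m33_2)
    (s3 : 0 * A3 + 3 * B3 ≤ m11_3 + m22_3 + m33_3) : False := by
  have h0 := C.a0
  have h1 := C.a1
  have h2 := C.a2
  have h3 := C.a3
  have h4 := C.a4
  have h5 := C.a5
  have h6 := C.b0
  have h7 := C.b1
  have h8 := C.b2
  have h9 := C.b3
  have h10 := C.b4
  have h11 := C.b5
  have h12 := C.o0
  have h13 := C.o1
  have h14 := C.o2
  have h15 := C.t12
  have h16 := C.t23
  have h17 := C.f11_0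
  have h18 := C.f11_1
  have h19 := C.f11_2
  have h20 := C.f22_0
  have h21 := C.f22_1
  have h22 := C.f22_2
  have h23 := C.f22_3
  have h24 := C.f22_4
  have h25 := C.f22_5
  have h26 := C.f22_6
  have h27 := C.f33_0
  have h28 := C.f33_1
  have h29 := C.f33_2
  have h30 := C.f33_3
  have h31 := C.f33_4
  have h32 := C.f33_5
  have h33 := C.f33_6
  have h34 := C.f33_7
  have h35 := C.f33_8
  have h36 := C.f12_0
  have h37 := C.f12_1
  have h38 := C.f12_2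
  have h39 := C.f12_3
  have h40 := C.f12_4
  have h41 := C.f12_5
  have h42 := C.f12_6
  have h43 := C.f13_0
  have h44 := C.f13_1
  have h45 := C.f13_2
  have h46 := C.f13_3
  have h47 := C.f13_4
  have h48 := C.f13_5
  have h49 := C.f13_6
  have h50 := C.f13_7
  have h51 := C.f13_8
  have h52 := C.p11_33B
  have h53 := C.p22_33A
  have h54 := C.p11_22B
  have h55 := C.tzmp
  have h56 := C.p12_13B
  clear C
  sorry -- omega

theorem c2_11_22_33_k2 {n1 n2 n3 A1 A2 A3 B1 B2 B3 m11_1 m11_2 m11_3 m12_1 m12_2 m12_3 m13_1 m13_2 m13_3 m22_1 m22_2 m22_3 m33_1 m33_2 m33_3 : ℤ}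
    (C : Ctx2 n1 n2 n3 A1 A2 A3 B1 B2 B3 m11_1 m11_2 m11_3 m12_1 m12_2 m12_3 m13_1 m13_2 m13_3 m22_1 m22_2 m22_3 m33_1 m33_2 m33_3)
    (e0 : 0 < B1)
    (e1 : 0 < A2)
    (e2 : 0 < A3)
    (s1 : 2 * A1 + 1 * B1 ≤ m11_1 + m22_1 + m33_1)
    (s2 : 2 * A2 + 1 * B2 ≤ m11_2 + m22_2 + m33_2)
    (s3 : 2 * A3 + 1 * B3 ≤ m11_3 + m22_3 + m33_3) : False := by
  have h0 := C.a0
  have h1 := C.a1
  have h2 := C.a2
  have h3 := C.a3
  have h4 := C.a4
  have h5 := C.a5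
  have h6 := C.b0
  have h7 := C.b1
  have h8 := C.b2
  have h9 := C.b3
  have h10 := C.b4
  have h11 := C.b5
  have h12 := C.o0
  have h13 := C.o1
  have h14 := C.o2
  have h15 := C.t12
  have h16 := C.t23
  have h17 := C.f11_0
  have h18 := C.f11_1
  have h19 := C.f11_2
  have h20 := C.f22_0
  have h21 := C.f22_1
  have h22 := C.f22_2
  have h23 := C.f22_3
  have h24 := C.f22_4
  have h25 := C.f22_5
  have h26 := C.f22_6
  have h27 := C.f33_0
  have h28 := C.f33_1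
  have h29 := C.f33_2
  have h30 := C.f33_3
  have h31 := C.f33_4
  have h32 := C.f33_5
  have h33 := C.f33_6
  have h34 := C.f33_7
  have h35 := C.f33_8
  have h36 := C.f12_0
  have h37 := C.f12_1
  have h38 := C.f12_2
  have h39 := C.f12_3
  have h40 := C.f12_4
  have h41 := C.f12_5
  have h42 := C.f12_6
  have h43 := C.p11_33B
  have h44 := C.p11_33A
  have h45 := C.p22_33A
  have h46 := C.tpmm
  have h47 := C.tmzp
  have h48 := C.p11_22B
  have h49 := C.p12_33A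
  clear C
  sorry -- omega

theorem c2_11_22_33_k3 {n1 n2 n3 A1 A2 A3 B1 B2 B3 m11_1 m11_2 m11_3 m12_1 m12_2 m12_3 m13_1 m13_2 m13_3 m22_1 m22_2 m22_3 m33_1 m33_2 m33_3 : ℤ}
    (C : Ctx2 n1 n2 n3 A1 A2 A3 B1 B2 B3 m11_1 m11_2 m11_3 m12_1 m12_2 m12_3 m13_1 m13_2 m13_3 m22_1 m22_2 m22_3 m33_1 m33_2 m33_3)
    (e0 : 0 < B1)
    (e1 : 0 < A2)
    (e2 : 0 < A3)
    (s1 : 3 * A1 + 0 * B1 ≤ m11_1 + m22_1 + m33_1)
    (s2 : 3 * A2 + 0 * B2 ≤ m11_2 + m22_2 + m33_2)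
    (s3 : 3 * A3 + 0 * B3 ≤ m11_3 + m22_3 + m33_3) : False := by
  have h0 := C.a0
  have h1 := C.a1
  have h2 := C.a2
  have h3 := C.a3
  have h4 := C.a4
  have h5 := C.a5
  have h6 := C.b0
  have h7 := C.b1
  have h8 := C.b2
  have h9 := C.b3
  have h10 := C.b4
  have h11 := C.b5
  have h12 := C.o0
  have h13 := C.o1
  have h14 := C.o2
  have h15 := C.t12
  have h16 := C.t23
  have h17 := C.f11_0
  have h18 := C.f11_1
  have h19 := C.f11_2
  have h20 := C.f22_0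
  have h21 := C.f22_1
  have h22 := C.f22_2
  have h23 := C.f22_3
  have h24 := C.f22_4
  have h25 := C.f22_5
  have h26 := C.f22_6
  have h27 := C.f33_0
  have h28 := C.f33_1
  have h29 := C.f33_2
  have h30 := C.f33_3
  have h31 := C.f33_4
  have h32 := C.f33_5
  have h33 := C.f33_6
  have h34 := C.f33_7
  have h35 := C.f33_8
  have h36 := C.f12_0
  have h37 := C.f12_1
  have h38 := C.f12_2
  have h39 := C.f12_3
  have h40 := C.f12_4
  have h41 := C.f12_5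
  have h42 := C.f12_6
  have h43 := C.p11_33A
  have h44 := C.p11_33B
  have h45 := C.tpmm
  have h46 := C.tmpp
  have h47 := C.p22_33A
  have h48 := C.tmzp
  have h49 := C.p12_33A
  clear C
  sorry -- omega

theorem c2_11_33_33_k3 {n1 n2 n3 A1 A2 A3 B1 B2 B3 m11_1 m11_2 m11_3 m12_1 m12_2 m12_3 m13_1 m13_2 m13_3 m22_1 m22_2 m22_3 m33_1 m33_2 m33_3 : ℤ}
    (C : Ctx2 n1 n2 n3 A1 A2 A3 B1 B2 B3 m11_1 m11_2 m11_3 m12_1 m12_2 m12_3 m13_1 m13_2 m13_3 m22_1 m22_2 m22_3 m33_1 m33_2 m33_3)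
    (e0 : 0 < B1)
    (e1 : 0 < A3)
    (s1 : 3 * A1 + 0 * B1 ≤ m11_1 + m33_1 + m33_1)
    (s2 : 3 * A2 + 0 * B2 ≤ m11_2 + m33_2 + m33_2)
    (s3 : 3 * A3 + 0 * B3 ≤ m11_3 + m33_3 + m33_3) : False := by
  have h0 := C.a0
  have h1 := C.a1
  have h2 := C.a2
  have h3 := C.a3
  have h4 := C.a4
  have h5 := C.a5
  have h6 := C.b0
  have h7 := C.b1
  have h8 := C.b2
  have h9 := C.b3
  have h10 := C.b4
  have h11 := C.b5
  have h12 := C.o0
  have h13 := C.o1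
  have h14 := C.o2
  have h15 := C.t12
  have h16 := C.t23
  have h17 := C.f11_0
  have h18 := C.f11_1
  have h19 := C.f11_2
  have h20 := C.f33_0
  have h21 := C.f33_1
  have h22 := C.f33_2
  have h23 := C.f33_3
  have h24 := C.f33_4
  have h25 := C.f33_5
  have h26 := C.f33_6
  have h27 := C.f33_7
  have h28 := C.f33_8
  have h29 := C.f12_0
  have h30 := C.f12_1
  have h31 := C.f12_2
  have h32 := C.f12_3
  have h33 := C.f12_4
  have h34 := C.f12_5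
  have h35 := C.f12_6
  have h36 := C.p11_33A
  have h37 := C.p11_33B
  have h38 := C.tpmm
  have h39 := C.tmzp
  have h40 := C.tzpm
  have h41 := C.tzmp
  have h42 := C.tmpp
  have h43 := C.p12_33A
  clear C
  sorry -- omega

theorem c2_13_22_33_k3 {n1 n2 n3 A1 A2 A3 B1 B2 B3 m11_1 m11_2 m11_3 m12_1 m12_2 m12_3 m13_1 m13_2 m13_3 m22_1 m22_2 m22_3 m33_1 m33_2 m33_3 : ℤ}
    (C : Ctx2 n1 n2 n3 A1 A2 A3 B1 B2 B3 m11_1 m11_2 m11_3 m12_1 m12_2 m12_3 m13_1 m13_2 m13_3 m22_1 m22_2 m22_3 m33_1 m33_2 m33_3)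
    (e0 : 0 < A1)
    (e1 : 0 < B3)
    (e2 : 0 < A2)
    (e3 : 0 < A3)
    (s1 : 3 * A1 + 0 * B1 ≤ m13_1 + m22_1 + m33_1)
    (s2 : 3 * A2 + 0 * B2 ≤ m13_2 + m22_2 + m33_2)
    (s3 : 3 * A3 + 0 * B3 ≤ m13_3 + m22_3 + m33_3) : False := by
  have h0 := C.a0
  have h1 := C.a1
  have h2 := C.a2
  have h3 := C.a3
  have h4 := C.a4
  have h5 := C.a5
  have h6 := C.b0
  have h7 := C.b1
  have h8 := C.b2
  have h9 := C.b3
  have h10 := C.b4
  have h11 := C.b5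
  have h12 := C.o0
  have h13 := C.o1
  have h14 := C.o2
  have h15 := C.t12
  have h16 := C.t23
  have h17 := C.f13_0
  have h18 := C.f13_1
  have h19 := C.f13_2
  have h20 := C.f13_3
  have h21 := C.f13_4
  have h22 := C.f13_5
  have h23 := C.f13_6
  have h24 := C.f13_7
  have h25 := C.f13_8
  have h26 := C.f22_0
  have h27 := C.f22_1
  have h28 := C.f22_2
  have h29 := C.f22_3
  have h30 := C.f22_4
  have h31 := C.f22_5
  have h32 := C.f22_6
  have h33 := C.f33_0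
  have h34 := C.f33_1
  have h35 := C.f33_2
  have h36 := C.f33_3
  have h37 := C.f33_4
  have h38 := C.f33_5
  have h39 := C.f33_6
  have h40 := C.f33_7
  have h41 := C.f33_8
  have h42 := C.f12_0
  have h43 := C.f12_1
  have h44 := C.f12_2
  have h45 := C.f12_3
  have h46 := C.f12_4
  have h47 := C.f12_5
  have h48 := C.f12_6
  have h49 := C.p13_33A
  have h50 := C.p22_33A
  have h51 := C.p13_22A
  have h52 := C.tmzp
  have h53 := C.tpmz
  have h54 := C.p12_33A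
  clear C
  sorry -- omega

theorem c3_22_22_33_k0 {n1 n2 n3 A1 A2 A3 B1 B2 B3 m11_1 m11_2 m11_3 m22_1 m22_2 m22_3 m23_1 m23_2 m23_3 m33_1 m33_2 m33_3 : ℤ}
    (C : Ctx3 n1 n2 n3 A1 A2 A3 B1 B2 B3 m11_1 m11_2 m11_3 m22_1 m22_2 m22_3 m23_1 m23_2 m23_3 m33_1 m33_2 m33_3)
    (e0 : 0 < B2)
    (e1 : 0 < A3)
    (s1 : 0 * A1 + 3 * B1 ≤ m22_1 + m22_1 + m33_1)
    (s2 : 0 * A2 + 3 * B2 ≤ m22_2 + m22_2 + m33_2)
    (s3 : 0 * A3 + 3 * B3 ≤ m22_3 + m22_3 + m33_3) : False := by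
  have h0 := C.a0
  have h1 := C.a1
  have h2 := C.a2
  have h3 := C.a3
  have h4 := C.a4
  have h5 := C.a5
  have h6 := C.b0
  have h7 := C.b1
  have h8 := C.b2
  have h9 := C.b3
  have h10 := C.b4
  have h11 := C.b5
  have h12 := C.o0
  have h13 := C.o1
  have h14 := C.o2
  have h15 := C.t12
  have h16 := C.t23
  have h17 := C.f22_0
  have h18 := C.f22_1
  have h19 := C.f22_2
  have h20 := C.f22_3
  have h21 := C.f22_4
  have h22 := C.f22_5
  have h23 := C.f22_6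
  have h24 := C.f33_0
  have h25 := C.f33_1
  have h26 := C.f33_2
  have h27 := C.f33_3
  have h28 := C.f33_4
  have h29 := C.f33_5
  have h30 := C.f33_6
  have h31 := C.f33_7
  have h32 := C.f33_8
  have h33 := C.f23_0
  have h34 := C.f23_1
  have h35 := C.f23_2
  have h36 := C.f23_3
  have h37 := C.f23_4
  have h38 := C.f23_5
  have h39 := C.f23_6
  have h40 := C.f23_7
  have h41 := C.f23_8
  have h42 := C.f23_9
  have h43 := C.f23_10
  have h44 := C.tmpp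
  have h45 := C.p22_33A
  have h46 := C.p22_33B
  have h47 := C.tmzp
  have h48 := C.tzmp
  have h49 := C.tzpm
  have h50 := C.p22_23B
  clear C
  sorry -- omega

theorem c3_22_33_33_k3 {n1 n2 n3 A1 A2 A3 B1 B2 B3 m11_1 m11_2 m11_3 m22_1 m22_2 m22_3 m23_1 m23_2 m23_3 m33_1 m33_2 m33_3 : ℤ}
    (C : Ctx3 n1 n2 n3 A1 A2 A3 B1 B2 B3 m11_1 m11_2 m11_3 m22_1 m22_2 m22_3 m23_1 m23_2 m23_3 m33_1 m33_2 m33_3)
    (e0 : 0 < B2)
    (e1 : 0 < A3)
    (s1 : 3 * A1 + 0 * B1 ≤ m22_1 + m33_1 + m33_1)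
    (s2 : 3 * A2 + 0 * B2 ≤ m22_2 + m33_2 + m33_2)
    (s3 : 3 * A3 + 0 * B3 ≤ m22_3 + m33_3 + m33_3) : False := by
  have h0 := C.a0
  have h1 := C.a1
  have h2 := C.a2
  have h3 := C.a3
  have h4 := C.a4
  have h5 := C.a5
  have h6 := C.b0
  have h7 := C.b1
  have h8 := C.b2
  have h9 := C.b3
  have h10 := C.b4
  have h11 := C.b5
  have h12 := C.o0
  have h13 := C.o1
  have h14 := C.o2
  have h15 := C.t12
  have h16 := C.t23
  have h17 := C.f22_0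
  have h18 := C.f22_1
  have h19 := C.f22_2
  have h20 := C.f22_3
  have h21 := C.f22_4
  have h22 := C.f22_5
  have h23 := C.f22_6
  have h24 := C.f33_0
  have h25 := C.f33_1
  have h26 := C.f33_2
  have h27 := C.f33_3
  have h28 := C.f33_4
  have h29 := C.f33_5
  have h30 := C.f33_6
  have h31 := C.f33_7
  have h32 := C.f33_8
  have h33 := C.f23_0
  have h34 := C.f23_1
  have h35 := C.f23_2
  have h36 := C.f23_3
  have h37 := C.f23_4
  have h38 := C.f23_5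
  have h39 := C.f23_6
  have h40 := C.f23_7
  have h41 := C.f23_8
  have h42 := C.f23_9
  have h43 := C.f23_10
  have h44 := C.tmpp
  have h45 := C.p22_33A
  have h46 := C.p22_33B
  have h47 := C.tmzp
  have h48 := C.tzmp
  have h49 := C.p23_33A
  clear C
  sorry -- omega

end Pool.Agent.Helper89.TQ
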