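import Pool.Agent.Helper89.TQ.Ctx

set_option autoImplicit false
set_option linter.all false
set_option maxHeartbeats 4000000

namespace Pool.Agent.Helper89.TQ

theorem c1_11_11_11_k0 {n1 n2 n3 A1 A2 A3 B1 B2 B3 m11_1 m11_2 m11_3 m12_1 m12_2 m12_3 m22_1 m22_2 m22_3 m32_1 m32_2 m32_3 m33_1 m33_2 m33_3 : ℤ}
    (C : Ctx1 n1 n2 n3 A1 A2 A3 B1 B2 B3 m11_1 m11_2 m11_3 m12_1 m12_2 m12_3 m22_1 m22_2 m22_3 m32_1 m32_2 m32_3 m33_1 m33_2 m33_3)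
    (e0 : 0 < B1)
    (s1 : 0 * A1 + 3 * B1 ≤ m11_1 + m11_1 + m11_1)
    (s2 : 0 * A2 + 3 * B2 ≤ m11_2 + m11_2 + m11_2)
    (s3 : 0 * A3 + 3 * B3 ≤ m11_3 + m11_3 + m11_3) : False := by
  linarith only [C.f11_0, s1]

theorem c1_11_11_11_k1 {n1 n2 n3 A1 A2 A3 B1 B2 B3 m11_1 m11_2 m11_3 m12_1 m12_2 m12_3 m22_1 m22_2 m22_3 m32_1 m32_2 m32_3 m33_1 m33_2 m33_3 : ℤ}
    (C : Ctx1 n1 n2 n3 A1 A2 A3 B1 B2 B3 m11_1 m11_2 m11_3 m12_1 m12_2 m12_3 m22_1 m22_2 m22_3 m32_1 m32_2 m32_3 m33_1 m33_2 m33_3)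
    (e0 : 0 < B1)
    (s1 : 1 * A1 + 2 * B1 ≤ m11_1 + m11_1 + m11_1)
    (s2 : 1 * A2 + 2 * B2 ≤ m11_2 + m11_2 + m11_2)
    (s3 : 1 * A3 + 2 * B3 ≤ m11_3 + m11_3 + m11_3) : False := by
  linarith only [C.f11_0, s1, C.o0]

theorem c1_11_11_11_k2 {n1 n2 n3 A1 A2 A3 B1 B2 B3 m11_1 m11_2 m11_3 m12_1 m12_2 m12_3 m22_1 m22_2 m22_3 m32_1 m32_2 m32_3 m33_1 m33_2 m33_3 : ℤ}
    (C : Ctx1 n1 n2 n3 A1 A2 A3 B1 B2 B3 m11_1 m11_2 m11_3 m12_1 m12_2 m12_3 m22_1 m22_2 m22_3 m32_1 m32_2 m32_3 m33_1 m33_2 m33_3)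
    (e0 : 0 < B1)
    (s1 : 2 * A1 + 1 * B1 ≤ m11_1 + m11_1 + m11_1)
    (s2 : 2 * A2 + 1 * B2 ≤ m11_2 + m11_2 + m11_2)
    (s3 : 2 * A3 + 1 * B3 ≤ m11_3 + m11_3 + m11_3) : False := by
  linarith only [C.f11_0, s1, C.o0]

theorem c1_11_11_11_k3 {n1 n2 n3 A1 A2 A3 B1 B2 B3 m11_1 m11_2 m11_3 m12_1 m12_2 m12_3 m22_1 m22_2 m22_3 m32_1 m32_2 m32_3 m33_1 m33_2 m33_3 : ℤ}
    (C : Ctx1 n1 n2 n3 A1 A2 A3 B1 B2 B3 m11_1 m11_2 m11_3 m12_1 m12_2 m12_3 m22_1 m22_2 m22_3 m32_1 m32_2 m32_3 m33_1 m33_2 m33_3)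
    (e0 : 0 < B1)
    (s1 : 3 * A1 + 0 * B1 ≤ m11_1 + m11_1 + m11_1)
    (s2 : 3 * A2 + 0 * B2 ≤ m11_2 + m11_2 + m11_2)
    (s3 : 3 * A3 + 0 * B3 ≤ m11_3 + m11_3 + m11_3) : False := by
  linarith only [C.f11_0, s1, C.o0]

theorem c1_11_11_12_k0 {n1 n2 n3 A1 A2 A3 B1 B2 B3 m11_1 m11_2 m11_3 m12_1 m12_2 m12_3 m22_1 m22_2 m22_3 m32_1 m32_2 m32_3 m33_1 m33_2 m33_3 : ℤ}
    (C : Ctx1 n1 n2 n3 A1 A2 A3 B1 B2 B3 m11_1 m11_2 m11_3 m12_1 m12_2 m12_3 m22_1 m22_2 m22_3 m32_1 m32_2 m32_3 m33_1 m33_2 m33_3)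
    (e0 : 0 < B1)
    (e1 : 0 < A1)
    (e2 : 0 < B2)
    (s1 : 0 * A1 + 3 * B1 ≤ m11_1 + m11_1 + m12_1)
    (s2 : 0 * A2 + 3 * B2 ≤ m11_2 + m11_2 + m12_2)
    (s3 : 0 * A3 + 3 * B3 ≤ m11_3 + m11_3 + m12_3) : False := by
  have d3 : ((0 ≤ 0 - m12_1 + m12_2 - n2) ∧ (0 ≤ 0 + m12_1 - m12_2 + n2)) ∨ ((0 ≤ 1 - B2 + m12_2) ∧ (0 ≤ -1 + B2 - m12_2)) := by
    have h := C.f12_5
    clear C e0 e1 e2 s1 s2 s3
    omega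
  have d4 : ((0 ≤ 0 - B1)) ∨ ((0 ≤ 0 - A1)) ∨ ((0 ≤ 0 - B2)) ∨ ((0 ≤ -1 + 2 * B1 - m11_1 - m12_1)) ∨ ((0 ≤ -1 + 2 * B2 - m11_2 - m12_2)) ∨ ((0 ≤ -1 + 2 * B3 - m11_3 - m12_3)) := by
    have h := C.p11_12B
    clear C e0 e1 e2 s1 s2 s3
    omega
  rcases d3 with ⟨g1, g2⟩ | ⟨g3, g4⟩
  · linarith only [C.f12_4, s1, s2, C.f11_0, C.f11_1, g1]
  · rcases d4 with g5 | g6 | g7 | g8 | g9 | g10
    · linarith only [g5, e0]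
    · linarith only [g6, e1]
    · linarith only [g7, e2]
    · linarith only [g8, s1, C.f11_0]
    · linarith only [g9, s2, g3]
    · linarith only [C.a5, s3, C.o1, C.o2, g3, C.f12_6, g10]

theorem c1_11_11_12_k1 {n1 n2 n3 A1 A2 A3 B1 B2 B3 m11_1 m11_2 m11_3 m12_1 m12_2 m12_3 m22_1 m22_2 m22_3 m32_1 m32_2 m32_3 m33_1 m33_2 m33_3 : ℤ}
    (C : Ctx1 n1 n2 n3 A1 A2 A3 B1 B2 B3 m11_1 m11_2 m11_3 m12_1 m12_2 m12_3 m22_1 m22_2 m22_3 m32_1 m32_2 m32_3 m33_1 m33_2 m33_3)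
    (e0 : 0 < B1)
    (e1 : 0 < A1)
    (e2 : 0 < B2)
    (s1 : 1 * A1 + 2 * B1 ≤ m11_1 + m11_1 + m12_1)
    (s2 : 1 * A2 + 2 * B2 ≤ m11_2 + m11_2 + m12_2)
    (s3 : 1 * A3 + 2 * B3 ≤ m11_3 + m11_3 + m12_3) : False := by
  linarith only [C.f12_0, s1, C.f11_0]

theorem c1_11_11_12_k2 {n1 n2 n3 A1 A2 A3 B1 B2 B3 m11_1 m11_2 m11_3 m12_1 m12_2 m12_3 m22_1 m22_2 m22_3 m32_1 m32_2 m32_3 m33_1 m33_2 m33_3 : ℤ}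
    (C : Ctx1 n1 n2 n3 A1 A2 A3 B1 B2 B3 m11_1 m11_2 m11_3 m12_1 m12_2 m12_3 m22_1 m22_2 m22_3 m32_1 m32_2 m32_3 m33_1 m33_2 m33_3)
    (e0 : 0 < B1)
    (e1 : 0 < A1)
    (e2 : 0 < B2)
    (s1 : 2 * A1 + 1 * B1 ≤ m11_1 + m11_1 + m12_1)
    (s2 : 2 * A2 + 1 * B2 ≤ m11_2 + m11_2 + m12_2)
    (s3 : 2 * A3 + 1 * B3 ≤ m11_3 + m11_3 + m12_3) : False := by
  linarith only [C.f12_0, s1, C.o0, C.f11_0]

theorem c1_11_11_12_k3 {n1 n2 n3 A1 A2 A3 B1 B2 B3 m11_1 m11_2 m11_3 m12_1 m12_2 m12_3 m22_1 m22_2 m22_3 m32_1 m32_2 m32_3 m33_1 m33_2 m33_3 : ℤ}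
    (C : Ctx1 n1 n2 n3 A1 A2 A3 B1 B2 B3 m11_1 m11_2 m11_3 m12_1 m12_2 m12_3 m22_1 m22_2 m22_3 m32_1 m32_2 m32_3 m33_1 m33_2 m33_3)
    (e0 : 0 < B1)
    (e1 : 0 < A1)
    (e2 : 0 < B2)
    (s1 : 3 * A1 + 0 * B1 ≤ m11_1 + m11_1 + m12_1)
    (s2 : 3 * A2 + 0 * B2 ≤ m11_2 + m11_2 + m12_2)
    (s3 : 3 * A3 + 0 * B3 ≤ m11_3 + m11_3 + m12_3) : False := by
  linarith only [C.f12_0, s1, C.o0, C.f11_0]

theorem c1_11_11_22_k0 {n1 n2 n3 A1 A2 A3 B1 B2 B3 m11_1 m11_2 m11_3 m12_1 m12_2 m12_3 m22_1 m22_2 m22_3 m32_1 m32_2 m32_3 m33_1 m33_2 m33_3 : ℤ}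
    (C : Ctx1 n1 n2 n3 A1 A2 A3 B1 B2 B3 m11_1 m11_2 m11_3 m12_1 m12_2 m12_3 m22_1 m22_2 m22_3 m32_1 m32_2 m32_3 m33_1 m33_2 m33_3)
    (e0 : 0 < B1)
    (e1 : 0 < A2)
    (s1 : 0 * A1 + 3 * B1 ≤ m11_1 + m11_1 + m22_1)
    (s2 : 0 * A2 + 3 * B2 ≤ m11_2 + m11_2 + m22_2)
    (s3 : 0 * A3 + 3 * B3 ≤ m11_3 + m11_3 + m22_3) : False := by
  have d2 : ((0 ≤ 1 - A1 + m12_1) ∧ (0 ≤ -1 + A1 - m12_1)) ∨ ((0 ≤ 1 - B2 + m12_1) ∧ (0 ≤ -1 + B2 - m12_1)) := by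
    have h := C.f12_2
    clear C e0 e1 s1 s2 s3
    omega
  have d3 : ((0 ≤ 0 - m12_1 + m12_2 - n2) ∧ (0 ≤ 0 + m12_1 - m12_2 + n2)) ∨ ((0 ≤ 1 - B2 + m12_2) ∧ (0 ≤ -1 + B2 - m12_2)) := by
    have h := C.f12_5
    clear C e0 e1 s1 s2 s3
    omega
  have d6 : ((0 ≤ 0 - B1)) ∨ ((0 ≤ 0 - A1)) ∨ ((0 ≤ 0 - B2)) ∨ ((0 ≤ -1 + 2 * B1 - m11_1 - m12_1)) ∨ ((0 ≤ -1 + 2 * B2 - m11_2 - m12_2)) ∨ ((0 ≤ -1 + 2 * B3 - m11_3 - m12_3)) := by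
    have h := C.p11_12B
    clear C e0 e1 s1 s2 s3
    omega
  have d8 : ((0 ≤ 0 + A1 - n1)) ∨ ((0 ≤ 0 + A1 - A2)) ∨ ((0 ≤ 0 + A2 - A3)) ∨ ((0 ≤ 0 - B1)) ∨ ((0 ≤ 0 - B1 + B2 - n2)) ∨ ((0 ≤ 0 - B2 + B3 - n3)) := by
    have h := C.tmzp
    clear C e0 e1 s1 s2 s3
    omega
  rcases d2 with ⟨g1, g2⟩ | ⟨g3, g4⟩
  · rcases d3 with ⟨g5, g6⟩ | ⟨g7, g8⟩
    · linarith only [C.f12_4, s2, C.o0, C.o1, C.f11_0, C.f11_1, g1, g5, C.f22_4]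
    · rcases d6 with g9 | g10 | g11 | g12 | g13 | g14
      · linarith only [g9, e0]
      · linarith only [g10, e0, C.o0]
      · linarith only [g11, e0, s1, C.o1, C.f11_0, C.f22_1]
      · rcases d8 with g15 | g16 | g17 | g18 | g19 | g20
        · linarith only [g12, s1, g15, C.f11_0, g1, C.f22_0]
        · linarith only [g12, s1, g16, C.f11_0, g1, C.f22_1]
        · linarith only [g17, C.b4, C.o1, C.o2]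
        · linarith only [g18, e0]
        · linarith only [C.f22_4, s2, g19, C.o1, C.f11_0, C.f11_1]
        · linarith only [g20, C.a5, C.o1, C.o2]
      · linarith only [g13, s2, C.o1, g7, C.f22_4]
      · linarith only [C.a5, s3, C.o1, C.o2, g7, C.f12_6, C.f22_4, C.f22_6, g14]
  · linarith only [C.a2, C.o1, C.f12_0, g3]

theorem c1_11_11_22_k1 {n1 n2 n3 A1 A2 A3 B1 B2 B3 m11_1 m11_2 m11_3 m12_1 m12_2 m12_3 m22_1 m22_2 m22_3 m32_1 m32_2 m32_3 m33_1 m33_2 m33_3 : ℤ}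
    (C : Ctx1 n1 n2 n3 A1 A2 A3 B1 B2 B3 m11_1 m11_2 m11_3 m12_1 m12_2 m12_3 m22_1 m22_2 m22_3 m32_1 m32_2 m32_3 m33_1 m33_2 m33_3)
    (e0 : 0 < B1)
    (e1 : 0 < A2)
    (s1 : 1 * A1 + 2 * B1 ≤ m11_1 + m11_1 + m22_1)
    (s2 : 1 * A2 + 2 * B2 ≤ m11_2 + m11_2 + m22_2)
    (s3 : 1 * A3 + 2 * B3 ≤ m11_3 + m11_3 + m22_3) : False := by
  have d5 : ((0 ≤ 0 + A1 - n1)) ∨ ((0 ≤ 0 + A1 - A2)) ∨ ((0 ≤ 0 + A2 - A3)) ∨ ((0 ≤ 0 - B1)) ∨ ((0 ≤ 0 - B1 + B2 - n2)) ∨ ((0 ≤ 0 - B2 + B3 - n3)) := by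
    have h := C.tmzp
    clear C e0 e1 s1 s2 s3
    omega
  rcases d5 with g1 | g2 | g3 | g4 | g5 | g6
  · linarith only [g1, s1, C.f11_0, C.f22_0]
  · linarith only [g2, s1, C.f11_0, C.f22_1]
  · linarith only [g3, C.b4, C.o1, C.o2]
  · linarith only [g4, e0]
  · linarith only [C.f22_4, s2, g5, C.f11_0, C.f11_1]
  · linarith only [g6, C.a5, C.o1, C.o2]

theorem c1_11_11_22_k2 {n1 n2 n3 A1 A2 A3 B1 B2 B3 m11_1 m11_2 m11_3 m12_1 m12_2 m12_3 m22_1 m22_2 m22_3 m32_1 m32_2 m32_3 m33_1 m33_2 m33_3 : ℤ}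
    (C : Ctx1 n1 n2 n3 A1 A2 A3 B1 B2 B3 m11_1 m11_2 m11_3 m12_1 m12_2 m12_3 m22_1 m22_2 m22_3 m32_1 m32_2 m32_3 m33_1 m33_2 m33_3)
    (e0 : 0 < B1)
    (e1 : 0 < A2)
    (s1 : 2 * A1 + 1 * B1 ≤ m11_1 + m11_1 + m22_1)
    (s2 : 2 * A2 + 1 * B2 ≤ m11_2 + m11_2 + m22_2)
    (s3 : 2 * A3 + 1 * B3 ≤ m11_3 + m11_3 + m22_3) : False := by
  have d3 : ((0 ≤ 0 - m22_1 + m22_2 - n2) ∧ (0 ≤ 0 + m22_1 - m22_2 + n2)) ∨ ((0 ≤ 1 - A2 + m22_2) ∧ (0 ≤ -1 + A2 - m22_2)) := by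
    have h := C.f22_5
    clear C e0 e1 s1 s2 s3
    omega
  have d4 : ((0 ≤ 0 - B1)) ∨ ((0 ≤ 0 - A2)) ∨ ((0 ≤ -1 + 2 * A1 - m11_1 - m22_1)) ∨ ((0 ≤ -1 + 2 * A2 - m11_2 - m22_2)) ∨ ((0 ≤ -1 + 2 * A3 - m11_3 - m22_3)) := by
    have h := C.p11_22A
    clear C e0 e1 s1 s2 s3
    omega
  rcases d3 with ⟨g1, g2⟩ | ⟨g3, g4⟩
  · linarith only [g1, s1, s2, C.o0, C.o1, C.f11_0, C.f11_1, C.f22_4]
  · rcases d4 with g5 | g6 | g7 | g8 | g9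
    · linarith only [g5, e0]
    · linarith only [g6, e1]
    · linarith only [g7, s1, C.f11_0]
    · linarith only [g8, s2, C.o1, g3]
    · linarith only [s2, C.a5, C.o1, C.f11_2, g3, C.f22_6, g9]

theorem c1_11_11_22_k3 {n1 n2 n3 A1 A2 A3 B1 B2 B3 m11_1 m11_2 m11_3 m12_1 m12_2 m12_3 m22_1 m22_2 m22_3 m32_1 m32_2 m32_3 m33_1 m33_2 m33_3 : ℤ}
    (C : Ctx1 n1 n2 n3 A1 A2 A3 B1 B2 B3 m11_1 m11_2 m11_3 m12_1 m12_2 m12_3 m22_1 m22_2 m22_3 m32_1 m32_2 m32_3 m33_1 m33_2 m33_3)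
    (e0 : 0 < B1)
    (e1 : 0 < A2)
    (s1 : 3 * A1 + 0 * B1 ≤ m11_1 + m11_1 + m22_1)
    (s2 : 3 * A2 + 0 * B2 ≤ m11_2 + m11_2 + m22_2)
    (s3 : 3 * A3 + 0 * B3 ≤ m11_3 + m11_3 + m22_3) : False := by
  have d3 : ((0 ≤ 0 - m22_1 + m22_2 - n2) ∧ (0 ≤ 0 + m22_1 - m22_2 + n2)) ∨ ((0 ≤ 1 - A2 + m22_2) ∧ (0 ≤ -1 + A2 - m22_2)) := by
    have h := C.f22_5
    clear C e0 e1 s1 s2 s3
    omega
  have d4 : ((0 ≤ 0 - B1)) ∨ ((0 ≤ 0 - A2)) ∨ ((0 ≤ -1 + 2 * A1 - m11_1 - m22_1)) ∨ ((0 ≤ -1 + 2 * A2 - m11_2 - m22_2)) ∨ ((0 ≤ -1 + 2 * A3 - m11_3 - m22_3)) := by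
    have h := C.p11_22A
    clear C e0 e1 s1 s2 s3
    omega
  rcases d3 with ⟨g1, g2⟩ | ⟨g3, g4⟩
  · linarith only [s2, s1, C.o0, C.f11_0, C.f11_1, g1, C.f22_4]
  · rcases d4 with g5 | g6 | g7 | g8 | g9
    · linarith only [g5, e0]
    · linarith only [g6, e1]
    · linarith only [g7, s1, C.o0, C.f11_0]
    · linarith only [s2, g3, g8]
    · linarith only [C.a5, s3, g3, C.f22_6, g9]

theorem c1_11_11_32_k0 {n1 n2 n3 A1 A2 A3 B1 B2 B3 m11_1 m11_2 m11_3 m12_1 m12_2 m12_3 m22_1 m22_2 m22_3 m32_1 m32_2 m32_3 m33_1 m33_2 m33_3 : ℤ}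
    (C : Ctx1 n1 n2 n3 A1 A2 A3 B1 B2 B3 m11_1 m11_2 m11_3 m12_1 m12_2 m12_3 m22_1 m22_2 m22_3 m32_1 m32_2 m32_3 m33_1 m33_2 m33_3)
    (e0 : 0 < B1)
    (e1 : 0 < B2)
    (e2 : 0 < A3)
    (s1 : 0 * A1 + 3 * B1 ≤ m11_1 + m11_1 + m32_1)
    (s2 : 0 * A2 + 3 * B2 ≤ m11_2 + m11_2 + m32_2)
    (s3 : 0 * A3 + 3 * B3 ≤ m11_3 + m11_3 + m32_3) : False := by
  have d3 : ((0 ≤ 0 - m32_1 + m32_2 - n2) ∧ (0 ≤ 0 + m32_1 - m32_2 + n2)) ∨ ((0 ≤ 1 - B2 + m32_2) ∧ (0 ≤ -1 + B2 - m32_2)) ∨ ((0 ≤ 1 - A3 + m32_2) ∧ (0 ≤ -1 + A3 - m32_2)) := by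
    have h := C.f32_7
    clear C e0 e1 e2 s1 s2 s3
    omega
  have d4 : ((0 ≤ 0 - m32_2 + m32_3 - n3) ∧ (0 ≤ 0 + m32_2 - m32_3 + n3)) ∨ ((0 ≤ 1 - A3 + m32_3) ∧ (0 ≤ -1 + A3 - m32_3)) := by
    have h := C.f32_10
    clear C e0 e1 e2 s1 s2 s3
    omega
  have d5 : ((0 ≤ 0 - B1)) ∨ ((0 ≤ 0 - B2)) ∨ ((0 ≤ 0 - A3)) ∨ ((0 ≤ -1 + 2 * B1 - m11_1 - m32_1)) ∨ ((0 ≤ -1 + 2 * B2 - m11_2 - m32_2)) ∨ ((0 ≤ -1 + 2 * B3 - m11_3 - m32_3)) := by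
    have h := C.p11_32B
    clear C e0 e1 e2 s1 s2 s3
    omega
  rcases d5 with g1 | g2 | g3 | g4 | g5 | g6
  · linarith only [g1, e0]
  · linarith only [g2, e1]
  · linarith only [g3, e2]
  · linarith only [g4, s1, C.f11_0]
  · rcases d3 with ⟨g7, g8⟩ | ⟨g9, g10⟩ | ⟨g11, g12⟩
    · linarith only [g7, s1, s2, C.f11_0, C.f11_1, g5]
    · linarith only [g9, s2, g5]
    · linarith only [g11, s2, C.b4, C.o2, g5]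
  · rcases d4 with ⟨g13, g14⟩ | ⟨g15, g16⟩
    · rcases d3 with ⟨g17, g18⟩ | ⟨g19, g20⟩ | ⟨g21, g22⟩
      · linarith only [s3, s1, C.f11_0, C.f11_1, C.f11_2, g17, g13, g6]
      · linarith only [g19, s2, C.a5, C.o1, C.o2, C.f11_2, g13, g6]
      · linarith only [g21, s2, C.a5, C.b4, C.o1, C.o2, C.f11_2, g13, g6]
    · linarith only [s3, C.o2, g15, g6]

theorem c1_11_11_32_k1 {n1 n2 n3 A1 A2 A3 B1 B2 B3 m11_1 m11_2 m11_3 m12_1 m12_2 m12_3 m22_1 m22_2 m22_3 m32_1 m32_2 m32_3 m33_1 m33_2 m33_3 : ℤ}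
    (C : Ctx1 n1 n2 n3 A1 A2 A3 B1 B2 B3 m11_1 m11_2 m11_3 m12_1 m12_2 m12_3 m22_1 m22_2 m22_3 m32_1 m32_2 m32_3 m33_1 m33_2 m33_3)
    (e0 : 0 < B1)
    (e1 : 0 < B2)
    (e2 : 0 < A3)
    (s1 : 1 * A1 + 2 * B1 ≤ m11_1 + m11_1 + m32_1)
    (s2 : 1 * A2 + 2 * B2 ≤ m11_2 + m11_2 + m32_2)
    (s3 : 1 * A3 + 2 * B3 ≤ m11_3 + m11_3 + m32_3) : False := by
  have d6 : ((0 ≤ 0 + A1 - n1)) ∨ ((0 ≤ 0 + A1 - A2)) ∨ ((0 ≤ 0 + A2 - A3)) ∨ ((0 ≤ 0 - B1)) ∨ ((0 ≤ 0 - B1 + B2 - n2)) ∨ ((0 ≤ 0 - B2 + B3 - n3)) := by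
    have h := C.tmzp
    clear C e0 e1 e2 s1 s2 s3
    omega
  have d7 : ((0 ≤ 0 - A1 + A2 - n2)) ∨ ((0 ≤ 1 + A2 - A3)) ∨ ((0 ≤ 0 + B1 - B2)) ∨ ((0 ≤ 1 - B2 + B3 - n3)) ∨ ((0 ≤ 1 + A2 - B2) ∧ (0 ≤ -1 + A3 - B3)) := by
    have h := C.tzmp
    clear C e0 e1 e2 s1 s2 s3
    omega
  rcases d6 with g1 | g2 | g3 | g4 | g5 | g6
  · linarith only [g1, s1, C.f11_0, C.f32_0]
  · rcases d7 with g7 | g8 | g9 | g10 | ⟨g11, g12⟩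
    · linarith only [C.b3, s1, g2, g7, C.o0, C.f11_0, C.f32_1]
    · linarith only [g8, s1, g2, C.f11_0, C.f32_2]
    · linarith only [g9, s1, C.o0, C.f11_0, C.f32_1]
    · linarith only [C.o2, s1, g2, C.a5, g10, C.f11_0, C.f32_1]
    · linarith only [g11, s1, g2, C.f11_0, C.f32_1]
  · linarith only [C.o1, g3, C.b4, C.o2]
  · linarith only [g4, e0]
  · rcases d7 with g13 | g14 | g15 | g16 | ⟨g17, g18⟩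
    · linarith only [C.o0, s2, g13, g5, C.f11_0, C.f11_1, C.f32_5]
    · linarith only [g14, s2, g5, C.b4, C.o2, C.f11_0, C.f11_1, C.f32_5]
    · linarith only [s1, g15, C.o0, C.f11_0, C.f32_1]
    · linarith only [g16, s2, C.a5, g5, C.o2, C.f11_0, C.f11_1, C.f32_5]
    · linarith only [g17, s2, g5, C.f11_0, C.f11_1, C.f32_5]
  · linarith only [C.o1, C.a5, g6, C.o2]

theorem c1_11_11_32_k2 {n1 n2 n3 A1 A2 A3 B1 B2 B3 m11_1 m11_2 m11_3 m12_1 m12_2 m12_3 m22_1 m22_2 m22_3 m32_1 m32_2 m32_3 m33_1 m33_2 m33_3 : ℤ}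
    (C : Ctx1 n1 n2 n3 A1 A2 A3 B1 B2 B3 m11_1 m11_2 m11_3 m12_1 m12_2 m12_3 m22_1 m22_2 m22_3 m32_1 m32_2 m32_3 m33_1 m33_2 m33_3)
    (e0 : 0 < B1)
    (e1 : 0 < B2)
    (e2 : 0 < A3)
    (s1 : 2 * A1 + 1 * B1 ≤ m11_1 + m11_1 + m32_1)
    (s2 : 2 * A2 + 1 * B2 ≤ m11_2 + m11_2 + m32_2)
    (s3 : 2 * A3 + 1 * B3 ≤ m11_3 + m11_3 + m32_3) : False := by
  have d3 : ((0 ≤ 0 - m32_1 + m32_2 - n2) ∧ (0 ≤ 0 + m32_1 - m32_2 + n2)) ∨ ((0 ≤ 1 - B2 + m32_2) ∧ (0 ≤ -1 + B2 - m32_2)) ∨ ((0 ≤ 1 - A3 + m32_2) ∧ (0 ≤ -1 + A3 - m32_2)) := by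
    have h := C.f32_7
    clear C e0 e1 e2 s1 s2 s3
    omega
  have d4 : ((0 ≤ 0 - m32_2 + m32_3 - n3) ∧ (0 ≤ 0 + m32_2 - m32_3 + n3)) ∨ ((0 ≤ 1 - A3 + m32_3) ∧ (0 ≤ -1 + A3 - m32_3)) := by
    have h := C.f32_10
    clear C e0 e1 e2 s1 s2 s3
    omega
  have d5 : ((0 ≤ 0 - B1)) ∨ ((0 ≤ 0 - B2)) ∨ ((0 ≤ 0 - A3)) ∨ ((0 ≤ -1 + 2 * A1 - m11_1 - m32_1)) ∨ ((0 ≤ -1 + 2 * A2 - m11_2 - m32_2)) ∨ ((0 ≤ -1 + 2 * A3 - m11_3 - m32_3)) := by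
    have h := C.p11_32A
    clear C e0 e1 e2 s1 s2 s3
    omega
  rcases d5 with g1 | g2 | g3 | g4 | g5 | g6
  · linarith only [g1, e0]
  · linarith only [g2, e1]
  · linarith only [g3, e2]
  · linarith only [g4, s1, C.f11_0]
  · rcases d3 with ⟨g7, g8⟩ | ⟨g9, g10⟩ | ⟨g11, g12⟩
    · linarith only [g7, s1, s2, C.o0, C.o1, C.f11_0, C.f11_1, g5]
    · linarith only [g9, s2, C.o1, g5]
    · linarith only [g11, s2, C.b4, C.o1, C.o2, g5]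
  · rcases d4 with ⟨g13, g14⟩ | ⟨g15, g16⟩
    · rcases d3 with ⟨g17, g18⟩ | ⟨g19, g20⟩ | ⟨g21, g22⟩
      · linarith only [C.a5, s1, s2, C.o0, C.o1, C.f11_0, C.f11_1, C.f11_2, g17, g13, g6]
      · linarith only [g19, s2, C.a5, C.o1, C.f11_2, g13, g6]
      · linarith only [g21, s2, C.a5, C.b4, C.o1, C.o2, C.f11_2, g13, g6]
    · linarith only [C.f32_5, s2, C.a5, C.f11_2, g15, g6]

theorem c1_11_11_32_k3 {n1 n2 n3 A1 A2 A3 B1 B2 B3 m11_1 m11_2 m11_3 m12_1 m12_2 m12_3 m22_1 m22_2 m22_3 m32_1 m32_2 m32_3 m33_1 m33_2 m33_3 : ℤ}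
    (C : Ctx1 n1 n2 n3 A1 A2 A3 B1 B2 B3 m11_1 m11_2 m11_3 m12_1 m12_2 m12_3 m22_1 m22_2 m22_3 m32_1 m32_2 m32_3 m33_1 m33_2 m33_3)
    (e0 : 0 < B1)
    (e1 : 0 < B2)
    (e2 : 0 < A3)
    (s1 : 3 * A1 + 0 * B1 ≤ m11_1 + m11_1 + m32_1)
    (s2 : 3 * A2 + 0 * B2 ≤ m11_2 + m11_2 + m32_2)
    (s3 : 3 * A3 + 0 * B3 ≤ m11_3 + m11_3 + m32_3) : False := by
  have d3 : ((0 ≤ 0 - m32_1 + m32_2 - n2) ∧ (0 ≤ 0 + m32_1 - m32_2 + n2)) ∨ ((0 ≤ 1 - B2 + m32_2) ∧ (0 ≤ -1 + B2 - m32_2)) ∨ ((0 ≤ 1 - A3 + m32_2) ∧ (0 ≤ -1 + A3 - m32_2)) := by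
    have h := C.f32_7
    clear C e0 e1 e2 s1 s2 s3
    omega
  have d4 : ((0 ≤ 0 - m32_2 + m32_3 - n3) ∧ (0 ≤ 0 + m32_2 - m32_3 + n3)) ∨ ((0 ≤ 1 - A3 + m32_3) ∧ (0 ≤ -1 + A3 - m32_3)) := by
    have h := C.f32_10
    clear C e0 e1 e2 s1 s2 s3
    omega
  have d5 : ((0 ≤ 0 - B1)) ∨ ((0 ≤ 0 - B2)) ∨ ((0 ≤ 0 - A3)) ∨ ((0 ≤ -1 + 2 * A1 - m11_1 - m32_1)) ∨ ((0 ≤ -1 + 2 * A2 - m11_2 - m32_2)) ∨ ((0 ≤ -1 + 2 * A3 - m11_3 - m32_3)) := by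
    have h := C.p11_32A
    clear C e0 e1 e2 s1 s2 s3
    omega
  rcases d5 with g1 | g2 | g3 | g4 | g5 | g6
  · linarith only [g1, e0]
  · linarith only [g2, e1]
  · linarith only [g3, e2]
  · linarith only [g4, s1, C.o0, C.f11_0]
  · rcases d3 with ⟨g7, g8⟩ | ⟨g9, g10⟩ | ⟨g11, g12⟩
    · linarith only [g7, s1, s2, C.o0, C.f11_0, C.f11_1, g5]
    · linarith only [g9, s2, C.o1, g5]
    · linarith only [g11, s2, C.b4, C.o1, C.o2, g5]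
  · rcases d4 with ⟨g13, g14⟩ | ⟨g15, g16⟩
    · rcases d3 with ⟨g17, g18⟩ | ⟨g19, g20⟩ | ⟨g21, g22⟩
      · linarith only [s3, s1, C.o0, C.f11_0, C.f11_1, C.f11_2, g17, g13, g6]
      · linarith only [C.a5, s3, C.o1, g19, g13, g6]
      · linarith only [g21, s3, C.a5, C.b4, C.o1, C.o2, g13, g6]
    · linarith only [g15, s3, g6]

theorem c1_11_11_33_k0 {n1 n2 n3 A1 A2 A3 B1 B2 B3 m11_1 m11_2 m11_3 m12_1 m12_2 m12_3 m22_1 m22_2 m22_3 m32_1 m32_2 m32_3 m33_1 m33_2 m33_3 : ℤ}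
    (C : Ctx1 n1 n2 n3 A1 A2 A3 B1 B2 B3 m11_1 m11_2 m11_3 m12_1 m12_2 m12_3 m22_1 m22_2 m22_3 m32_1 m32_2 m32_3 m33_1 m33_2 m33_3)
    (e0 : 0 < B1)
    (e1 : 0 < B3)
    (s1 : 0 * A1 + 3 * B1 ≤ m11_1 + m11_1 + m33_1)
    (s2 : 0 * A2 + 3 * B2 ≤ m11_2 + m11_2 + m33_2)
    (s3 : 0 * A3 + 3 * B3 ≤ m11_3 + m11_3 + m33_3) : False := by
  have d3 : ((0 ≤ 0 - m33_1 + m33_2 - n2) ∧ (0 ≤ 0 + m33_1 - m33_2 + n2)) ∨ ((0 ≤ 1 - B3 + m33_2) ∧ (0 ≤ -1 + B3 - m33_2)) := by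
    have h := C.f33_5
    clear C e0 e1 s1 s2 s3
    omega
  have d4 : ((0 ≤ 0 - m33_2 + m33_3 - n3) ∧ (0 ≤ 0 + m33_2 - m33_3 + n3)) ∨ ((0 ≤ 1 - B3 + m33_3) ∧ (0 ≤ -1 + B3 - m33_3)) := by
    have h := C.f33_8
    clear C e0 e1 s1 s2 s3
    omega
  have d5 : ((0 ≤ 0 - B1)) ∨ ((0 ≤ 0 - B3)) ∨ ((0 ≤ -1 + 2 * B1 - m11_1 - m33_1)) ∨ ((0 ≤ -1 + 2 * B2 - m11_2 - m33_2)) ∨ ((0 ≤ -1 + 2 * B3 - m11_3 - m33_3)) := by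
    have h := C.p11_33B
    clear C e0 e1 s1 s2 s3
    omega
  rcases d5 with g1 | g2 | g3 | g4 | g5
  · linarith only [g1, e0]
  · linarith only [g2, e1]
  · linarith only [g3, s1, C.f11_0]
  · rcases d3 with ⟨g6, g7⟩ | ⟨g8, g9⟩
    · linarith only [g6, s1, s2, C.f11_0, C.f11_1, g4]
    · linarith only [g8, s2, C.b4, g4]
  · rcases d4 with ⟨g10, g11⟩ | ⟨g12, g13⟩
    · rcases d3 with ⟨g14, g15⟩ | ⟨g16, g17⟩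
      · linarith only [s3, s1, C.f11_0, C.f11_1, C.f11_2, g14, g10, g5]
      · linarith only [g16, s2, C.a5, C.b4, C.o1, C.o2, C.f11_2, g10, g5]
    · linarith only [s3, g12, g5]

theorem c1_11_11_33_k1 {n1 n2 n3 A1 A2 A3 B1 B2 B3 m11_1 m11_2 m11_3 m12_1 m12_2 m12_3 m22_1 m22_2 m22_3 m32_1 m32_2 m32_3 m33_1 m33_2 m33_3 : ℤ}
    (C : Ctx1 n1 n2 n3 A1 A2 A3 B1 B2 B3 m11_1 m11_2 m11_3 m12_1 m12_2 m12_3 m22_1 m22_2 m22_3 m32_1 m32_2 m32_3 m33_1 m33_2 m33_3)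
    (e0 : 0 < B1)
    (e1 : 0 < B3)
    (s1 : 1 * A1 + 2 * B1 ≤ m11_1 + m11_1 + m33_1)
    (s2 : 1 * A2 + 2 * B2 ≤ m11_2 + m11_2 + m33_2)
    (s3 : 1 * A3 + 2 * B3 ≤ m11_3 + m11_3 + m33_3) : False := by
  have d1 : ((0 ≤ -1 - A1 + A2) ∧ (0 ≤ -1 + A2 - A3 + n3)) ∨ ((0 ≤ -1 - B1 + B2) ∧ (0 ≤ -1 + B2 - B3 + n3)) := by
    have h := C.t23
    clear C e0 e1 s1 s2 s3
    omega
  have d3 : ((0 ≤ 0 - m33_1 + m33_2 - n2) ∧ (0 ≤ 0 + m33_1 - m33_2 + n2)) ∨ ((0 ≤ 1 - B3 + m33_2) ∧ (0 ≤ -1 + B3 - m33_2)) := by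
    have h := C.f33_5
    clear C e0 e1 s1 s2 s3
    omega
  have d4 : ((0 ≤ 0 - m33_2 + m33_3 - n3) ∧ (0 ≤ 0 + m33_2 - m33_3 + n3)) ∨ ((0 ≤ 1 - B3 + m33_3) ∧ (0 ≤ -1 + B3 - m33_3)) := by
    have h := C.f33_8
    clear C e0 e1 s1 s2 s3
    omega
  have d6 : ((0 ≤ 0 - B1)) ∨ ((0 ≤ 0 - B3)) ∨ ((0 ≤ -1 + 2 * B1 - m11_1 - m33_1)) ∨ ((0 ≤ -1 + 2 * B2 - m11_2 - m33_2)) ∨ ((0 ≤ -1 + 2 * B3 - m11_3 - m33_3)) := by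
    have h := C.p11_33B
    clear C e0 e1 s1 s2 s3
    omega
  have d7 : ((0 ≤ 0 + A1 - n1)) ∨ ((0 ≤ 0 + A1 - A2)) ∨ ((0 ≤ 0 + A2 - A3)) ∨ ((0 ≤ 0 - B1)) ∨ ((0 ≤ 0 - B1 + B2 - n2)) ∨ ((0 ≤ 0 - B2 + B3 - n3)) := by
    have h := C.tmzp
    clear C e0 e1 s1 s2 s3
    omega
  have d8 : ((0 ≤ 0 - A1 + A2 - n2)) ∨ ((0 ≤ 1 + A2 - A3)) ∨ ((0 ≤ 0 + B1 - B2)) ∨ ((0 ≤ 1 - B2 + B3 - n3)) ∨ ((0 ≤ 1 + A2 - B2) ∧ (0 ≤ -1 + A3 - B3)) := by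
    have h := C.tzmp
    clear C e0 e1 s1 s2 s3
    omega
  rcases d7 with g1 | g2 | g3 | g4 | g5 | g6
  · linarith only [g1, s1, C.f11_0, C.f33_0]
  · rcases d1 with ⟨g7, g8⟩ | ⟨g9, g10⟩
    · linarith only [g7, g2]
    · rcases d6 with g11 | g12 | g13 | g14 | g15
      · linarith only [g11, e0]
      · linarith only [g12, e1]
      · linarith only [C.o0, s1, C.f11_0, g13]
      · rcases d3 with ⟨g16, g17⟩ | ⟨g18, g19⟩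
        · linarith only [g14, s1, C.b3, C.o0, C.f11_0, C.f11_1, g16]
        · rcases d8 with g20 | g21 | g22 | g23 | ⟨g24, g25⟩
          · linarith only [C.b3, g2, g20, g9]
          · linarith only [C.o2, s1, g2, g21, C.f11_0, C.f33_1]
          · linarith only [g22, g9]
          · linarith only [s2, s1, g2, C.a5, g23, C.o2, C.f11_0, C.f33_1, g18, g14]
          · linarith only [g24, s1, s2, g2, C.f11_0, C.f33_1, g18, g14]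
      · rcases d4 with ⟨g26, g27⟩ | ⟨g28, g29⟩
        · rcases d3 with ⟨g30, g31⟩ | ⟨g32, g33⟩
          · linarith only [C.o0, s1, C.b3, g10, C.f11_0, C.f11_1, C.f11_2, g30, g26, g15]
          · linarith only [g32, s1, s2, g2, C.a5, g10, C.o2, C.f11_0, C.f11_2, C.f33_1, g26, g15]
        · linarith only [s3, C.o2, g28, g15]
  · linarith only [C.o2, g3, C.b4, C.o1]
  · linarith only [g4, e0]
  · rcases d8 with g34 | g35 | g36 | g37 | ⟨g38, g39⟩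
    · linarith only [C.o1, g34, C.b3, C.o0]
    · linarith only [C.o2, s2, g35, g5, C.f11_0, C.f11_1, C.f33_4]
    · linarith only [g36, C.a2, C.o0, C.o1]
    · linarith only [C.f33_7, s3, g5, g37, C.o2, C.f11_0, C.f11_1, C.f11_2]
    · rcases d6 with g40 | g41 | g42 | g43 | g44
      · linarith only [g40, e0]
      · linarith only [g41, e1]
      · linarith only [C.a3, s1, g5, g38, C.f11_0, g42]
      · linarith only [g43, s2, g5, g38, C.f11_0, C.f11_1]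
      · rcases d4 with ⟨g45, g46⟩ | ⟨g47, g48⟩
        · linarith only [s2, s3, g5, g38, g39, C.f11_0, C.f11_1, C.f11_2, g45, g44]
        · linarith only [g47, s3, g39, g44]
  · linarith only [C.o1, C.a5, g6, C.o2]

theorem c1_11_11_33_k2 {n1 n2 n3 A1 A2 A3 B1 B2 B3 m11_1 m11_2 m11_3 m12_1 m12_2 m12_3 m22_1 m22_2 m22_3 m32_1 m32_2 m32_3 m33_1 m33_2 m33_3 : ℤ}
    (C : Ctx1 n1 n2 n3 A1 A2 A3 B1 B2 B3 m11_1 m11_2 m11_3 m12_1 m12_2 m12_3 m22_1 m22_2 m22_3 m32_1 m32_2 m32_3 m33_1 m33_2 m33_3)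
    (e0 : 0 < B1)
    (e1 : 0 < B3)
    (s1 : 2 * A1 + 1 * B1 ≤ m11_1 + m11_1 + m33_1)
    (s2 : 2 * A2 + 1 * B2 ≤ m11_2 + m11_2 + m33_2)
    (s3 : 2 * A3 + 1 * B3 ≤ m11_3 + m11_3 + m33_3) : False := by
  have d1 : ((0 ≤ -1 - A1 + A2) ∧ (0 ≤ -1 + A2 - A3 + n3)) ∨ ((0 ≤ -1 - B1 + B2) ∧ (0 ≤ -1 + B2 - B3 + n3)) := by
    have h := C.t23
    clear C e0 e1 s1 s2 s3
    omega
  have d3 : ((0 ≤ 0 - m33_1 + m33_2 - n2) ∧ (0 ≤ 0 + m33_1 - m33_2 + n2)) ∨ ((0 ≤ 1 - B3 + m33_2) ∧ (0 ≤ -1 + B3 - m33_2)) := by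
    have h := C.f33_5
    clear C e0 e1 s1 s2 s3
    omega
  have d4 : ((0 ≤ 0 - m33_2 + m33_3 - n3) ∧ (0 ≤ 0 + m33_2 - m33_3 + n3)) ∨ ((0 ≤ 1 - B3 + m33_3) ∧ (0 ≤ -1 + B3 - m33_3)) := by
    have h := C.f33_8
    clear C e0 e1 s1 s2 s3
    omega
  have d5 : ((0 ≤ 0 - B1)) ∨ ((0 ≤ 0 - B3)) ∨ ((0 ≤ -1 + 2 * A1 - m11_1 - m33_1)) ∨ ((0 ≤ -1 + 2 * A2 - m11_2 - m33_2)) ∨ ((0 ≤ -1 + 2 * A3 - m11_3 - m33_3)) := by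
    have h := C.p11_33A
    clear C e0 e1 s1 s2 s3
    omega
  have d6 : ((0 ≤ 0 - B1)) ∨ ((0 ≤ 0 - B3)) ∨ ((0 ≤ -1 + 2 * B1 - m11_1 - m33_1)) ∨ ((0 ≤ -1 + 2 * B2 - m11_2 - m33_2)) ∨ ((0 ≤ -1 + 2 * B3 - m11_3 - m33_3)) := by
    have h := C.p11_33B
    clear C e0 e1 s1 s2 s3
    omega
  have d7 : ((0 ≤ 0 + A1 - n1)) ∨ ((0 ≤ 0 + A1 - A2)) ∨ ((0 ≤ 0 + A2 - A3)) ∨ ((0 ≤ 0 - B1)) ∨ ((0 ≤ 0 - B1 + B2 - n2)) ∨ ((0 ≤ 0 - B2 + B3 - n3)) := by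
    have h := C.tmzp
    clear C e0 e1 s1 s2 s3
    omega
  have d8 : ((0 ≤ 0 - A1 + A2 - n2)) ∨ ((0 ≤ 1 + A2 - A3)) ∨ ((0 ≤ 0 + B1 - B2)) ∨ ((0 ≤ 1 - B2 + B3 - n3)) ∨ ((0 ≤ 1 + A2 - B2) ∧ (0 ≤ -1 + A3 - B3)) := by
    have h := C.tzmp
    clear C e0 e1 s1 s2 s3
    omega
  have d9 : ((0 ≤ 0 - A1)) ∨ ((0 ≤ 0 - A1 + A2 - n2)) ∨ ((0 ≤ 0 - A2 + A3 - n3)) ∨ ((0 ≤ 0 + B1 - n1)) ∨ ((0 ≤ 0 + B1 - B2)) ∨ ((0 ≤ 0 + B2 - B3)) := by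
    have h := C.tpzm
    clear C e0 e1 s1 s2 s3
    omega
  rcases d7 with g1 | g2 | g3 | g4 | g5 | g6
  · linarith only [g1, s1, C.o0, C.f11_0, C.f33_0]
  · rcases d1 with ⟨g7, g8⟩ | ⟨g9, g10⟩
    · linarith only [g7, g2]
    · rcases d5 with g11 | g12 | g13 | g14 | g15
      · linarith only [g11, e0]
      · linarith only [g12, e1]
      · linarith only [g13, s1, C.f11_0]
      · rcases d3 with ⟨g16, g17⟩ | ⟨g18, g19⟩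
        · linarith only [C.a3, s1, C.f11_0, C.f11_1, g16, g14]
        · linarith only [C.o1, s2, C.b4, g18, g14]
      · rcases d6 with g20 | g21 | g22 | g23 | g24
        · linarith only [g20, e0]
        · linarith only [g21, e1]
        · linarith only [g22, s1, C.o0, C.f11_0]
        · rcases d3 with ⟨g25, g26⟩ | ⟨g27, g28⟩
          · linarith only [C.b3, s1, C.o0, C.f11_0, C.f11_1, g25, g23]
          · rcases d8 with g29 | g30 | g31 | g32 | ⟨g33, g34⟩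
            · linarith only [g29, s1, g2, C.b3, C.o0, C.f11_0, C.f11_1, C.f33_1, g27, g23]
            · linarith only [C.o2, s1, g2, g30, C.o0, C.f11_0, C.f33_1]
            · linarith only [g31, g9]
            · linarith only [g32, s1, g2, C.a5, C.b3, C.o0, C.o2, C.f11_0, C.f11_1, C.f33_1, g27, g23]
            · linarith only [g33, s1, g2, C.b3, C.o0, C.f11_0, C.f11_1, C.f33_1, g27, g23]
        · rcases d4 with ⟨g35, g36⟩ | ⟨g37, g38⟩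
          · rcases d3 with ⟨g39, g40⟩ | ⟨g41, g42⟩
            · linarith only [g10, s1, C.b3, C.o0, C.f11_0, C.f11_1, C.f11_2, g39, g35, g24]
            · linarith only [C.b4, C.b3, g10, C.f11_0, C.f11_1, C.f11_2, g41, g35, g24]
          · linarith only [s3, g37, g15, g24]
  · linarith only [C.o2, g3, C.b4, C.o1]
  · linarith only [g4, e0]
  · rcases d5 with g43 | g44 | g45 | g46 | g47
    · linarith only [g43, e0]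
    · linarith only [g44, e1]
    · linarith only [g45, s1, C.f11_0]
    · linarith only [g46, s2, g5, C.f11_0, C.f11_1]
    · rcases d8 with g48 | g49 | g50 | g51 | ⟨g52, g53⟩
      · linarith only [C.o1, g48, C.b3, C.o0]
      · linarith only [C.o2, s2, g49, g5, C.b4, C.f11_0, C.f11_1, C.f33_4]
      · linarith only [C.a2, g50, C.o0, C.o1]
      · linarith only [g51, s3, g5, C.f11_0, C.f11_1, C.f11_2, g47]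
      · rcases d9 with g54 | g55 | g56 | g57 | g58 | g59
        · linarith only [g54, e0, C.o0]
        · linarith only [g55, C.b3, C.o0, C.o1]
        · linarith only [C.f33_7, s3, g56, g5, g52, C.f11_0, C.f11_1, C.f11_2]
        · linarith only [g57, s1, C.o0, C.f11_0, C.f33_0]
        · linarith only [C.a2, g58, C.o0, C.o1]
        · linarith only [s2, g5, g59, g52, C.f11_0, C.f11_1, C.f33_4]
  · linarith only [C.o1, C.a5, g6, C.o2]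

theorem c1_11_11_33_k3 {n1 n2 n3 A1 A2 A3 B1 B2 B3 m11_1 m11_2 m11_3 m12_1 m12_2 m12_3 m22_1 m22_2 m22_3 m32_1 m32_2 m32_3 m33_1 m33_2 m33_3 : ℤ}
    (C : Ctx1 n1 n2 n3 A1 A2 A3 B1 B2 B3 m11_1 m11_2 m11_3 m12_1 m12_2 m12_3 m22_1 m22_2 m22_3 m32_1 m32_2 m32_3 m33_1 m33_2 m33_3)
    (e0 : 0 < B1)
    (e1 : 0 < B3)
    (s1 : 3 * A1 + 0 * B1 ≤ m11_1 + m11_1 + m33_1)
    (s2 : 3 * A2 + 0 * B2 ≤ m11_2 + m11_2 + m33_2)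
    (s3 : 3 * A3 + 0 * B3 ≤ m11_3 + m11_3 + m33_3) : False := by
  have d2 : ((0 ≤ 0 + m32_1 - n1) ∧ (0 ≤ 0 - m32_1 + n1)) ∨ ((0 ≤ 1 - B2 + m32_1) ∧ (0 ≤ -1 + B2 - m32_1)) ∨ ((0 ≤ 1 - A3 + m32_1) ∧ (0 ≤ -1 + A3 - m32_1)) := by
    have h := C.f32_3
    clear C e0 e1 s1 s2 s3
    omega
  have d3 : ((0 ≤ 0 - m32_1 + m32_2 - n2) ∧ (0 ≤ 0 + m32_1 - m32_2 + n2)) ∨ ((0 ≤ 1 - B2 + m32_2) ∧ (0 ≤ -1 + B2 - m32_2)) ∨ ((0 ≤ 1 - A3 + m32_2) ∧ (0 ≤ -1 + A3 - m32_2)) := by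
    have h := C.f32_7
    clear C e0 e1 s1 s2 s3
    omega
  have d4 : ((0 ≤ 0 - m32_2 + m32_3 - n3) ∧ (0 ≤ 0 + m32_2 - m32_3 + n3)) ∨ ((0 ≤ 1 - A3 + m32_3) ∧ (0 ≤ -1 + A3 - m32_3)) := by
    have h := C.f32_10
    clear C e0 e1 s1 s2 s3
    omega
  have d6 : ((0 ≤ 0 - m33_1 + m33_2 - n2) ∧ (0 ≤ 0 + m33_1 - m33_2 + n2)) ∨ ((0 ≤ 1 - B3 + m33_2) ∧ (0 ≤ -1 + B3 - m33_2)) := by
    have h := C.f33_5
    clear C e0 e1 s1 s2 s3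
    omega
  have d7 : ((0 ≤ 0 - m33_2 + m33_3 - n3) ∧ (0 ≤ 0 + m33_2 - m33_3 + n3)) ∨ ((0 ≤ 1 - B3 + m33_3) ∧ (0 ≤ -1 + B3 - m33_3)) := by
    have h := C.f33_8
    clear C e0 e1 s1 s2 s3
    omega
  have d8 : ((0 ≤ 0 - B1)) ∨ ((0 ≤ 0 - B2)) ∨ ((0 ≤ 0 - A3)) ∨ ((0 ≤ -1 + 2 * A1 - m11_1 - m32_1)) ∨ ((0 ≤ -1 + 2 * A2 - m11_2 - m32_2)) ∨ ((0 ≤ -1 + 2 * A3 - m11_3 - m32_3)) := by
    have h := C.p11_32A
    clear C e0 e1 s1 s2 s3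
    omega
  have d9 : ((0 ≤ 0 - B1)) ∨ ((0 ≤ 0 - B3)) ∨ ((0 ≤ -1 + 2 * A1 - m11_1 - m33_1)) ∨ ((0 ≤ -1 + 2 * A2 - m11_2 - m33_2)) ∨ ((0 ≤ -1 + 2 * A3 - m11_3 - m33_3)) := by
    have h := C.p11_33A
    clear C e0 e1 s1 s2 s3
    omega
  have d10 : ((0 ≤ 0 - B1)) ∨ ((0 ≤ 0 - B3)) ∨ ((0 ≤ -1 + 2 * B1 - m11_1 - m33_1)) ∨ ((0 ≤ -1 + 2 * B2 - m11_2 - m33_2)) ∨ ((0 ≤ -1 + 2 * B3 - m11_3 - m33_3)) := by
    have h := C.p11_33B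
    clear C e0 e1 s1 s2 s3
    omega
  rcases d9 with g1 | g2 | g3 | g4 | g5
  · linarith only [g1, e0]
  · linarith only [g2, e1]
  · linarith only [g3, s1, C.o0, C.f11_0]
  · rcases d6 with ⟨g6, g7⟩ | ⟨g8, g9⟩
    · linarith only [s2, s1, C.o0, C.f11_0, C.f11_1, g6, g4]
    · linarith only [g8, s2, C.b4, C.o1, g4]
  · rcases d10 with g10 | g11 | g12 | g13 | g14
    · linarith only [g10, e0]
    · linarith only [g11, e1]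
    · linarith only [g12, s1, C.o0, C.f11_0]
    · rcases d6 with ⟨g15, g16⟩ | ⟨g17, g18⟩
      · linarith only [g13, s1, C.b3, C.o0, C.f11_0, C.f11_1, g15]
      · rcases d7 with ⟨g19, g20⟩ | ⟨g21, g22⟩
        · linarith only [g19, s3, C.a5, C.b4, C.o1, g17, g5]
        · rcases d2 with ⟨g23, g24⟩ | ⟨g25, g26⟩ | ⟨g27, g28⟩
          · rcases d3 with ⟨g29, g30⟩ | ⟨g31, g32⟩ | ⟨g33, g34⟩
            · linarith only [C.f32_5, s1, C.b3, C.o0, C.f11_0, g23, g29, C.f33_0]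
            · rcases d8 with g35 | g36 | g37 | g38 | g39 | g40
              · linarith only [g35, e0]
              · linarith only [g36, e0, s1, C.o0, C.f11_0, g23, C.f32_1, C.f33_0]
              · linarith only [g37, e0, s1, s3, C.b4, C.o0, C.f11_0, g23, C.f32_1, C.f33_0, g21, g5]
              · linarith only [g38, s1, C.o0, C.f11_0, g23, C.f33_0]
              · linarith only [C.b3, C.o1, C.f11_0, C.f11_1, g31, g39]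
              · rcases d4 with ⟨g41, g42⟩ | ⟨g43, g44⟩
                · linarith only [C.a5, s3, C.o1, g31, g41, g40, g5]
                · linarith only [g43, s3, g40, g5]
            · linarith only [C.b4, s3, C.f32_5, g33, g21, g5]
          · rcases d3 with ⟨g45, g46⟩ | ⟨g47, g48⟩ | ⟨g49, g50⟩
            · linarith only [C.a2, C.b3, C.o0, C.o1, g25, g45, C.f32_5]
            · rcases d8 with g51 | g52 | g53 | g54 | g55 | g56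
              · linarith only [g51, e0]
              · linarith only [C.a2, e0, s1, s2, C.o0, C.f11_0, C.f33_1, g17, g52, g13]
              · linarith only [s2, e0, s1, C.a5, C.b3, C.o0, C.f11_0, C.f11_1, C.f11_2, C.f33_1, g21, g53, g5, g13]
              · linarith only [g54, s1, C.b3, C.o0, C.f11_1, g25, C.f33_1, g17, g13]
              · linarith only [s2, C.b3, C.f11_0, C.f11_1, g47, g55, g13]
              · rcases d4 with ⟨g57, g58⟩ | ⟨g59, g60⟩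
                · linarith only [C.a5, s3, C.o1, g47, g57, g56, g5]
                · linarith only [g59, s3, g56, g5]
            · linarith only [C.b4, s3, C.f32_5, g49, g21, g5]
          · linarith only [C.b4, s3, C.f32_1, g27, g21, g5]
    · rcases d7 with ⟨g61, g62⟩ | ⟨g63, g64⟩
      · rcases d6 with ⟨g65, g66⟩ | ⟨g67, g68⟩
        · linarith only [g65, s1, s3, C.o0, C.f11_0, C.f11_1, C.f11_2, g61, g5]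
        · linarith only [g67, s3, C.a5, C.b4, C.o1, g61, g5]
      · linarith only [g63, s3, g5, g14]

end Pool.Agent.Helper89.TQ
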