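import Pool.Agent.Helper89.TQ.Ctx

set_option autoImplicit false
set_option linter.all false
set_option maxHeartbeats 4000000

namespace Pool.Agent.Helper89.TQ

theorem c1_22_32_32_k0 {n1 n2 n3 A1 A2 A3 B1 B2 B3 m11_1 m11_2 m11_3 m12_1 m12_2 m12_3 m22_1 m22_2 m22_3 m32_1 m32_2 m32_3 m33_1 m33_2 m33_3 : ℤ}
    (C : Ctx1 n1 n2 n3 A1 A2 A3 B1 B2 B3 m11_1 m11_2 m11_3 m12_1 m12_2 m12_3 m22_1 m22_2 m22_3 m32_1 m32_2 m32_3 m33_1 m33_2 m33_3)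
    (e0 : 0 < A2)
    (e1 : 0 < B2)
    (e2 : 0 < A3)
    (s1 : 0 * A1 + 3 * B1 ≤ m22_1 + m32_1 + m32_1)
    (s2 : 0 * A2 + 3 * B2 ≤ m22_2 + m32_2 + m32_2)
    (s3 : 0 * A3 + 3 * B3 ≤ m22_3 + m32_3 + m32_3) : False := by
  linarith only [C.f32_5, s2, C.o1, C.f22_4]

theorem c1_22_32_32_k1 {n1 n2 n3 A1 A2 A3 B1 B2 B3 m11_1 m11_2 m11_3 m12_1 m12_2 m12_3 m22_1 m22_2 m22_3 m32_1 m32_2 m32_3 m33_1 m33_2 m33_3 : ℤ}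
    (C : Ctx1 n1 n2 n3 A1 A2 A3 B1 B2 B3 m11_1 m11_2 m11_3 m12_1 m12_2 m12_3 m22_1 m22_2 m22_3 m32_1 m32_2 m32_3 m33_1 m33_2 m33_3)
    (e0 : 0 < A2)
    (e1 : 0 < B2)
    (e2 : 0 < A3)
    (s1 : 1 * A1 + 2 * B1 ≤ m22_1 + m32_1 + m32_1)
    (s2 : 1 * A2 + 2 * B2 ≤ m22_2 + m32_2 + m32_2)
    (s3 : 1 * A3 + 2 * B3 ≤ m22_3 + m32_3 + m32_3) : False := by
  linarith only [C.f32_5, s2, C.f22_4]

theorem c1_22_32_32_k2 {n1 n2 n3 A1 A2 A3 B1 B2 B3 m11_1 m11_2 m11_3 m12_1 m12_2 m12_3 m22_1 m22_2 m22_3 m32_1 m32_2 m32_3 m33_1 m33_2 m33_3 : ℤ}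
    (C : Ctx1 n1 n2 n3 A1 A2 A3 B1 B2 B3 m11_1 m11_2 m11_3 m12_1 m12_2 m12_3 m22_1 m22_2 m22_3 m32_1 m32_2 m32_3 m33_1 m33_2 m33_3)
    (e0 : 0 < A2)
    (e1 : 0 < B2)
    (e2 : 0 < A3)
    (s1 : 2 * A1 + 1 * B1 ≤ m22_1 + m32_1 + m32_1)
    (s2 : 2 * A2 + 1 * B2 ≤ m22_2 + m32_2 + m32_2)
    (s3 : 2 * A3 + 1 * B3 ≤ m22_3 + m32_3 + m32_3) : False := by
  have d7 : ((0 ≤ 0 - A1 + A2 - n2)) ∨ ((0 ≤ 1 + A2 - A3)) ∨ ((0 ≤ 0 + B1 - B2)) ∨ ((0 ≤ 1 - B2 + B3 - n3)) ∨ ((0 ≤ 1 + A2 - B2) ∧ (0 ≤ -1 + A3 - B3)) := by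
    have h := C.tzmp
    clear C e0 e1 e2 s1 s2 s3
    omega
  rcases d7 with g1 | g2 | g3 | g4 | ⟨g5, g6⟩
  · linarith only [g1, s2, C.b3, C.o0, C.f22_4, C.f32_5]
  · linarith only [C.o2, s2, g2, C.b4, C.f22_4, C.f32_5]
  · linarith only [C.a2, s2, g3, C.o0, C.f22_4, C.f32_5]
  · linarith only [g4, s2, s3, C.f22_4, C.f22_6, C.f32_5, C.f32_9]
  · linarith only [g5, s2, C.f22_4, C.f32_5]

theorem c1_22_32_32_k3 {n1 n2 n3 A1 A2 A3 B1 B2 B3 m11_1 m11_2 m11_3 m12_1 m12_2 m12_3 m22_1 m22_2 m22_3 m32_1 m32_2 m32_3 m33_1 m33_2 m33_3 : ℤ}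
    (C : Ctx1 n1 n2 n3 A1 A2 A3 B1 B2 B3 m11_1 m11_2 m11_3 m12_1 m12_2 m12_3 m22_1 m22_2 m22_3 m32_1 m32_2 m32_3 m33_1 m33_2 m33_3)
    (e0 : 0 < A2)
    (e1 : 0 < B2)
    (e2 : 0 < A3)
    (s1 : 3 * A1 + 0 * B1 ≤ m22_1 + m32_1 + m32_1)
    (s2 : 3 * A2 + 0 * B2 ≤ m22_2 + m32_2 + m32_2)
    (s3 : 3 * A3 + 0 * B3 ≤ m22_3 + m32_3 + m32_3) : False := by
  have d2 : ((0 ≤ 0 + m22_1 - n1) ∧ (0 ≤ 0 - m22_1 + n1)) ∨ ((0 ≤ 1 - A2 + m22_1) ∧ (0 ≤ -1 + A2 - m22_1)) := by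
    have h := C.f22_2
    clear C e0 e1 e2 s1 s2 s3
    omega
  have d3 : ((0 ≤ 0 - m22_1 + m22_2 - n2) ∧ (0 ≤ 0 + m22_1 - m22_2 + n2)) ∨ ((0 ≤ 1 - A2 + m22_2) ∧ (0 ≤ -1 + A2 - m22_2)) := by
    have h := C.f22_5
    clear C e0 e1 e2 s1 s2 s3
    omega
  have d6 : ((0 ≤ 0 - m32_2 + m32_3 - n3) ∧ (0 ≤ 0 + m32_2 - m32_3 + n3)) ∨ ((0 ≤ 1 - A3 + m32_3) ∧ (0 ≤ -1 + A3 - m32_3)) := by
    have h := C.f32_10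
    clear C e0 e1 e2 s1 s2 s3
    omega
  have d7 : ((0 ≤ 0 - A2)) ∨ ((0 ≤ 0 - B2)) ∨ ((0 ≤ 0 - A3)) ∨ ((0 ≤ -1 + 2 * A1 - m22_1 - m32_1)) ∨ ((0 ≤ -1 + 2 * A2 - m22_2 - m32_2)) ∨ ((0 ≤ -1 + 2 * A3 - m22_3 - m32_3)) := by
    have h := C.p22_32A
    clear C e0 e1 e2 s1 s2 s3
    omega
  rcases d6 with ⟨g1, g2⟩ | ⟨g3, g4⟩
  · linarith only [g1, s2, s3, C.f22_4, C.f22_6, C.f32_9]
  · rcases d7 with g5 | g6 | g7 | g8 | g9 | g10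
    · linarith only [g5, e0]
    · linarith only [g6, e1]
    · linarith only [g7, e2]
    · rcases d2 with ⟨g11, g12⟩ | ⟨g13, g14⟩
      · linarith only [s1, g11, C.f32_0, g8]
      · linarith only [C.a2, s1, g13, g8]
    · rcases d3 with ⟨g15, g16⟩ | ⟨g17, g18⟩
      · rcases d2 with ⟨g19, g20⟩ | ⟨g21, g22⟩
        · linarith only [s1, s2, C.a3, g19, g15, C.f32_0, g9]
        · linarith only [g21, s2, C.a2, C.b3, C.o0, g15, C.f32_5, g9]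
      · linarith only [g17, s2, g9]
    · linarith only [g10, s3, g4]

theorem c1_22_32_33_k0 {n1 n2 n3 A1 A2 A3 B1 B2 B3 m11_1 m11_2 m11_3 m12_1 m12_2 m12_3 m22_1 m22_2 m22_3 m32_1 m32_2 m32_3 m33_1 m33_2 m33_3 : ℤ}
    (C : Ctx1 n1 n2 n3 A1 A2 A3 B1 B2 B3 m11_1 m11_2 m11_3 m12_1 m12_2 m12_3 m22_1 m22_2 m22_3 m32_1 m32_2 m32_3 m33_1 m33_2 m33_3)
    (e0 : 0 < A2)
    (e1 : 0 < B2)
    (e2 : 0 < A3)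
    (e3 : 0 < B3)
    (s1 : 0 * A1 + 3 * B1 ≤ m22_1 + m32_1 + m33_1)
    (s2 : 0 * A2 + 3 * B2 ≤ m22_2 + m32_2 + m33_2)
    (s3 : 0 * A3 + 3 * B3 ≤ m22_3 + m32_3 + m33_3) : False := by
  have d2 : ((0 ≤ 0 + m22_1 - n1) ∧ (0 ≤ 0 - m22_1 + n1)) ∨ ((0 ≤ 1 - A2 + m22_1) ∧ (0 ≤ -1 + A2 - m22_1)) := by
    have h := C.f22_2
    clear C e0 e1 e2 e3 s1 s2 s3
    omega
  have d3 : ((0 ≤ 0 - m22_1 + m22_2 - n2) ∧ (0 ≤ 0 + m22_1 - m22_2 + n2)) ∨ ((0 ≤ 1 - A2 + m22_2) ∧ (0 ≤ -1 + A2 - m22_2)) := by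
    have h := C.f22_5
    clear C e0 e1 e2 e3 s1 s2 s3
    omega
  have d4 : ((0 ≤ 0 + m32_1 - n1) ∧ (0 ≤ 0 - m32_1 + n1)) ∨ ((0 ≤ 1 - B2 + m32_1) ∧ (0 ≤ -1 + B2 - m32_1)) ∨ ((0 ≤ 1 - A3 + m32_1) ∧ (0 ≤ -1 + A3 - m32_1)) := by
    have h := C.f32_3
    clear C e0 e1 e2 e3 s1 s2 s3
    omega
  have d5 : ((0 ≤ 0 - m32_1 + m32_2 - n2) ∧ (0 ≤ 0 + m32_1 - m32_2 + n2)) ∨ ((0 ≤ 1 - B2 + m32_2) ∧ (0 ≤ -1 + B2 - m32_2)) ∨ ((0 ≤ 1 - A3 + m32_2) ∧ (0 ≤ -1 + A3 - m32_2)) := by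
    have h := C.f32_7
    clear C e0 e1 e2 e3 s1 s2 s3
    omega
  have d7 : ((0 ≤ 0 + m33_1 - n1) ∧ (0 ≤ 0 - m33_1 + n1)) ∨ ((0 ≤ 1 - B3 + m33_1) ∧ (0 ≤ -1 + B3 - m33_1)) := by
    have h := C.f33_2
    clear C e0 e1 e2 e3 s1 s2 s3
    omega
  have d9 : ((0 ≤ 0 - m33_2 + m33_3 - n3) ∧ (0 ≤ 0 + m33_2 - m33_3 + n3)) ∨ ((0 ≤ 1 - B3 + m33_3) ∧ (0 ≤ -1 + B3 - m33_3)) := by
    have h := C.f33_8
    clear C e0 e1 e2 e3 s1 s2 s3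
    omega
  have d10 : ((0 ≤ 0 - A2)) ∨ ((0 ≤ 0 - B3)) ∨ ((0 ≤ -1 + 2 * B1 - m22_1 - m33_1)) ∨ ((0 ≤ -1 + 2 * B2 - m22_2 - m33_2)) ∨ ((0 ≤ -1 + 2 * B3 - m22_3 - m33_3)) := by
    have h := C.p22_33B
    clear C e0 e1 e2 e3 s1 s2 s3
    omega
  rcases d9 with ⟨g1, g2⟩ | ⟨g3, g4⟩
  · linarith only [C.f32_5, s2, s3, C.a5, C.o1, C.f22_4, C.f22_6, C.f32_9, g1, C.f33_7]
  · rcases d10 with g5 | g6 | g7 | g8 | g9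
    · linarith only [g5, e0]
    · linarith only [g6, e3]
    · rcases d5 with ⟨g10, g11⟩ | ⟨g12, g13⟩ | ⟨g14, g15⟩
      · linarith only [s1, s2, C.f22_3, g10, C.f32_5, C.f33_3, g7]
      · rcases d4 with ⟨g16, g17⟩ | ⟨g18, g19⟩ | ⟨g20, g21⟩
        · rcases d7 with ⟨g22, g23⟩ | ⟨g24, g25⟩
          · rcases d2 with ⟨g26, g27⟩ | ⟨g28, g29⟩
            · linarith only [s1, g26, g17, g22, g7]
            · linarith only [C.a2, s1, C.o0, g28, g17, g22, g7]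
          · linarith only [g24, s2, C.o1, C.f22_4, g16, C.f32_1, g13, C.f33_0, C.f33_4]
        · rcases d2 with ⟨g30, g31⟩ | ⟨g32, g33⟩
          · linarith only [C.f22_1, C.o1, g30, C.f32_0, g18]
          · rcases d7 with ⟨g34, g35⟩ | ⟨g36, g37⟩
            · linarith only [C.a2, s1, C.o0, g32, C.f32_0, g34, g7]
            · linarith only [g36, s1, s2, g32, C.f22_4, g19, g13, C.f33_4, g7]
        · linarith only [C.o2, s2, C.o1, C.f22_4, C.f32_1, g20, g13, C.f33_4]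
      · linarith only [g14, s2, C.o1, C.o2, C.f22_4, C.f32_5, C.f33_4]
    · linarith only [C.f32_5, s2, g8]
    · rcases d3 with ⟨g38, g39⟩ | ⟨g40, g41⟩
      · rcases d2 with ⟨g42, g43⟩ | ⟨g44, g45⟩
        · linarith only [C.a3, s3, C.a1, C.a5, g42, g38, C.f22_6, C.f32_9, g3, g9]
        · linarith only [C.a2, s3, C.a5, C.b3, C.o0, C.o1, g44, g38, C.f22_6, C.f32_9, g3, g9]
      · linarith only [g40, s3, C.a5, C.f22_6, C.f32_9, g3, g9]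

theorem c1_22_32_33_k1 {n1 n2 n3 A1 A2 A3 B1 B2 B3 m11_1 m11_2 m11_3 m12_1 m12_2 m12_3 m22_1 m22_2 m22_3 m32_1 m32_2 m32_3 m33_1 m33_2 m33_3 : ℤ}
    (C : Ctx1 n1 n2 n3 A1 A2 A3 B1 B2 B3 m11_1 m11_2 m11_3 m12_1 m12_2 m12_3 m22_1 m22_2 m22_3 m32_1 m32_2 m32_3 m33_1 m33_2 m33_3)
    (e0 : 0 < A2)
    (e1 : 0 < B2)
    (e2 : 0 < A3)
    (e3 : 0 < B3)
    (s1 : 1 * A1 + 2 * B1 ≤ m22_1 + m32_1 + m33_1)
    (s2 : 1 * A2 + 2 * B2 ≤ m22_2 + m32_2 + m33_2)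
    (s3 : 1 * A3 + 2 * B3 ≤ m22_3 + m32_3 + m33_3) : False := by
  have d2 : ((0 ≤ 0 + m22_1 - n1) ∧ (0 ≤ 0 - m22_1 + n1)) ∨ ((0 ≤ 1 - A2 + m22_1) ∧ (0 ≤ -1 + A2 - m22_1)) := by
    have h := C.f22_2
    clear C e0 e1 e2 e3 s1 s2 s3
    omega
  have d4 : ((0 ≤ 0 + m32_1 - n1) ∧ (0 ≤ 0 - m32_1 + n1)) ∨ ((0 ≤ 1 - B2 + m32_1) ∧ (0 ≤ -1 + B2 - m32_1)) ∨ ((0 ≤ 1 - A3 + m32_1) ∧ (0 ≤ -1 + A3 - m32_1)) := by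
    have h := C.f32_3
    clear C e0 e1 e2 e3 s1 s2 s3
    omega
  have d5 : ((0 ≤ 0 - m32_1 + m32_2 - n2) ∧ (0 ≤ 0 + m32_1 - m32_2 + n2)) ∨ ((0 ≤ 1 - B2 + m32_2) ∧ (0 ≤ -1 + B2 - m32_2)) ∨ ((0 ≤ 1 - A3 + m32_2) ∧ (0 ≤ -1 + A3 - m32_2)) := by
    have h := C.f32_7
    clear C e0 e1 e2 e3 s1 s2 s3
    omega
  have d7 : ((0 ≤ 0 + m33_1 - n1) ∧ (0 ≤ 0 - m33_1 + n1)) ∨ ((0 ≤ 1 - B3 + m33_1) ∧ (0 ≤ -1 + B3 - m33_1)) := by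
    have h := C.f33_2
    clear C e0 e1 e2 e3 s1 s2 s3
    omega
  have d10 : ((0 ≤ 0 - A2)) ∨ ((0 ≤ 0 - B3)) ∨ ((0 ≤ -1 + 2 * B1 - m22_1 - m33_1)) ∨ ((0 ≤ -1 + 2 * B2 - m22_2 - m33_2)) ∨ ((0 ≤ -1 + 2 * B3 - m22_3 - m33_3)) := by
    have h := C.p22_33B
    clear C e0 e1 e2 e3 s1 s2 s3
    omega
  have d11 : ((0 ≤ 0 - A1 + A2 - n2)) ∨ ((0 ≤ 1 + A2 - A3)) ∨ ((0 ≤ 0 + B1 - B2)) ∨ ((0 ≤ 1 - B2 + B3 - n3)) ∨ ((0 ≤ 1 + A2 - B2) ∧ (0 ≤ -1 + A3 - B3)) := by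
    have h := C.tzmp
    clear C e0 e1 e2 e3 s1 s2 s3
    omega
  rcases d11 with g1 | g2 | g3 | g4 | ⟨g5, g6⟩
  · linarith only [C.o1, g1, C.b3, C.o0]
  · linarith only [s2, g2, C.o1, C.o2, C.f22_4, C.f32_5, C.f33_4]
  · linarith only [C.a2, g3, C.o0, C.o1]
  · linarith only [g4, s3, C.o1, C.f22_4, C.f22_6, C.f32_9, C.f33_7]
  · rcases d10 with g7 | g8 | g9 | g10 | g11
    · linarith only [g7, e0]
    · linarith only [g8, e3]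
    · rcases d5 with ⟨g12, g13⟩ | ⟨g14, g15⟩ | ⟨g16, g17⟩
      · linarith only [g12, s1, s2, C.o0, g5, C.f22_3, C.f32_5, C.f33_3, g9]
      · rcases d4 with ⟨g18, g19⟩ | ⟨g20, g21⟩ | ⟨g22, g23⟩
        · rcases d7 with ⟨g24, g25⟩ | ⟨g26, g27⟩
          · rcases d2 with ⟨g28, g29⟩ | ⟨g30, g31⟩
            · linarith only [g28, s1, C.o0, g19, g24, g9]
            · linarith only [g30, s1, C.o0, g5, g19, C.f32_1, g24, g9]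
          · linarith only [C.f22_4, s2, g18, C.f32_1, g15, C.f33_0, g26, C.f33_4]
        · rcases d2 with ⟨g32, g33⟩ | ⟨g34, g35⟩
          · linarith only [C.f22_1, C.o1, g32, C.f32_0, g20]
          · rcases d7 with ⟨g36, g37⟩ | ⟨g38, g39⟩
            · linarith only [g36, s1, C.o0, g5, g34, C.f32_0, g21, g9]
            · linarith only [g38, s1, s2, C.o0, g5, g34, C.f22_4, g21, g15, C.f33_4, g9]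
        · linarith only [g22, s2, g6, C.f22_4, C.f32_1, g15, C.f33_4]
      · linarith only [g16, s2, g6, C.f22_4, C.f32_5, C.f33_4]
    · linarith only [s2, g5, C.f32_5, g10]
    · linarith only [g11, s3, C.f32_9]

theorem c1_22_32_33_k2 {n1 n2 n3 A1 A2 A3 B1 B2 B3 m11_1 m11_2 m11_3 m12_1 m12_2 m12_3 m22_1 m22_2 m22_3 m32_1 m32_2 m32_3 m33_1 m33_2 m33_3 : ℤ}
    (C : Ctx1 n1 n2 n3 A1 A2 A3 B1 B2 B3 m11_1 m11_2 m11_3 m12_1 m12_2 m12_3 m22_1 m22_2 m22_3 m32_1 m32_2 m32_3 m33_1 m33_2 m33_3)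
    (e0 : 0 < A2)
    (e1 : 0 < B2)
    (e2 : 0 < A3)
    (e3 : 0 < B3)
    (s1 : 2 * A1 + 1 * B1 ≤ m22_1 + m32_1 + m33_1)
    (s2 : 2 * A2 + 1 * B2 ≤ m22_2 + m32_2 + m33_2)
    (s3 : 2 * A3 + 1 * B3 ≤ m22_3 + m32_3 + m33_3) : False := by
  have d11 : ((0 ≤ 0 - A1 + A2 - n2)) ∨ ((0 ≤ 1 + A2 - A3)) ∨ ((0 ≤ 0 + B1 - B2)) ∨ ((0 ≤ 1 - B2 + B3 - n3)) ∨ ((0 ≤ 1 + A2 - B2) ∧ (0 ≤ -1 + A3 - B3)) := by
    have h := C.tzmp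
    clear C e0 e1 e2 e3 s1 s2 s3
    omega
  have d12 : ((0 ≤ 0 - A1)) ∨ ((0 ≤ 0 - A1 + A2 - n2)) ∨ ((0 ≤ 0 - A2 + A3 - n3)) ∨ ((0 ≤ 0 + B1 - n1)) ∨ ((0 ≤ 0 + B1 - B2)) ∨ ((0 ≤ 0 + B2 - B3)) := by
    have h := C.tpzm
    clear C e0 e1 e2 e3 s1 s2 s3
    omega
  rcases d12 with g1 | g2 | g3 | g4 | g5 | g6
  · linarith only [C.b0, g1, C.o0]
  · linarith only [C.b3, g2, C.o0, C.o1]
  · linarith only [g3, s3, C.f22_4, C.f22_6, C.f32_9, C.f33_7]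
  · linarith only [C.a1, g4, C.o0]
  · linarith only [C.a2, g5, C.o0, C.o1]
  · rcases d11 with g7 | g8 | g9 | g10 | ⟨g11, g12⟩
    · linarith only [g7, s2, C.b3, g6, C.o0, C.f22_4, C.f32_5, C.f33_4]
    · linarith only [g8, s2, C.o2, C.f22_4, C.f32_5, C.f33_4]
    · linarith only [g9, s2, C.a2, g6, C.o0, C.f22_4, C.f32_5, C.f33_4]
    · linarith only [g10, s2, s3, g6, C.o2, C.f22_4, C.f22_6, C.f32_5, C.f32_9, C.f33_4, C.f33_7]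
    · linarith only [g11, s2, g6, C.f22_4, C.f32_5, C.f33_4]

theorem c1_22_32_33_k3 {n1 n2 n3 A1 A2 A3 B1 B2 B3 m11_1 m11_2 m11_3 m12_1 m12_2 m12_3 m22_1 m22_2 m22_3 m32_1 m32_2 m32_3 m33_1 m33_2 m33_3 : ℤ}
    (C : Ctx1 n1 n2 n3 A1 A2 A3 B1 B2 B3 m11_1 m11_2 m11_3 m12_1 m12_2 m12_3 m22_1 m22_2 m22_3 m32_1 m32_2 m32_3 m33_1 m33_2 m33_3)
    (e0 : 0 < A2)
    (e1 : 0 < B2)
    (e2 : 0 < A3)
    (e3 : 0 < B3)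
    (s1 : 3 * A1 + 0 * B1 ≤ m22_1 + m32_1 + m33_1)
    (s2 : 3 * A2 + 0 * B2 ≤ m22_2 + m32_2 + m33_2)
    (s3 : 3 * A3 + 0 * B3 ≤ m22_3 + m32_3 + m33_3) : False := by
  have d0 : ((0 ≤ -1 + A1) ∧ (0 ≤ -1 + A1 - A2 + n2)) ∨ ((0 ≤ -1 + B1) ∧ (0 ≤ -1 + B1 - B2 + n2)) := by
    have h := C.t12
    clear C e0 e1 e2 e3 s1 s2 s3
    omega
  have d2 : ((0 ≤ 0 + m22_1 - n1) ∧ (0 ≤ 0 - m22_1 + n1)) ∨ ((0 ≤ 1 - A2 + m22_1) ∧ (0 ≤ -1 + A2 - m22_1)) := by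
    have h := C.f22_2
    clear C e0 e1 e2 e3 s1 s2 s3
    omega
  have d3 : ((0 ≤ 0 - m22_1 + m22_2 - n2) ∧ (0 ≤ 0 + m22_1 - m22_2 + n2)) ∨ ((0 ≤ 1 - A2 + m22_2) ∧ (0 ≤ -1 + A2 - m22_2)) := by
    have h := C.f22_5
    clear C e0 e1 e2 e3 s1 s2 s3
    omega
  have d4 : ((0 ≤ 0 + m32_1 - n1) ∧ (0 ≤ 0 - m32_1 + n1)) ∨ ((0 ≤ 1 - B2 + m32_1) ∧ (0 ≤ -1 + B2 - m32_1)) ∨ ((0 ≤ 1 - A3 + m32_1) ∧ (0 ≤ -1 + A3 - m32_1)) := by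
    have h := C.f32_3
    clear C e0 e1 e2 e3 s1 s2 s3
    omega
  have d7 : ((0 ≤ 0 + m33_1 - n1) ∧ (0 ≤ 0 - m33_1 + n1)) ∨ ((0 ≤ 1 - B3 + m33_1) ∧ (0 ≤ -1 + B3 - m33_1)) := by
    have h := C.f33_2
    clear C e0 e1 e2 e3 s1 s2 s3
    omega
  have d8 : ((0 ≤ 0 - m33_1 + m33_2 - n2) ∧ (0 ≤ 0 + m33_1 - m33_2 + n2)) ∨ ((0 ≤ 1 - B3 + m33_2) ∧ (0 ≤ -1 + B3 - m33_2)) := by
    have h := C.f33_5
    clear C e0 e1 e2 e3 s1 s2 s3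
    omega
  have d10 : ((0 ≤ 0 - A2)) ∨ ((0 ≤ 0 - B3)) ∨ ((0 ≤ -1 + 2 * A1 - m22_1 - m33_1)) ∨ ((0 ≤ -1 + 2 * A2 - m22_2 - m33_2)) ∨ ((0 ≤ -1 + 2 * A3 - m22_3 - m33_3)) := by
    have h := C.p22_33A
    clear C e0 e1 e2 e3 s1 s2 s3
    omega
  rcases d10 with g1 | g2 | g3 | g4 | g5
  · linarith only [g1, e0]
  · linarith only [g2, e3]
  · rcases d2 with ⟨g6, g7⟩ | ⟨g8, g9⟩
    · rcases d7 with ⟨g10, g11⟩ | ⟨g12, g13⟩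
      · linarith only [g10, s1, g6, C.f32_0, g3]
      · linarith only [C.b4, s1, s2, g6, C.f22_1, C.f22_4, C.f32_0, C.f32_5, g12, C.f33_4, g3]
    · rcases d7 with ⟨g14, g15⟩ | ⟨g16, g17⟩
      · linarith only [g14, s1, C.a2, g8, C.f32_0, g3]
      · linarith only [g16, s1, C.a2, C.b4, g8, C.f32_1, g3]
  · rcases d0 with ⟨g18, g19⟩ | ⟨g20, g21⟩
    · rcases d2 with ⟨g22, g23⟩ | ⟨g24, g25⟩
      · rcases d4 with ⟨g26, g27⟩ | ⟨g28, g29⟩ | ⟨g30, g31⟩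
        · rcases d3 with ⟨g32, g33⟩ | ⟨g34, g35⟩
          · linarith only [g19, C.a1, g22, g32, C.f22_4]
          · rcases d7 with ⟨g36, g37⟩ | ⟨g38, g39⟩
            · rcases d8 with ⟨g40, g41⟩ | ⟨g42, g43⟩
              · linarith only [g4, s1, C.b3, C.o0, C.o1, g23, g34, g27, g36, g40]
              · linarith only [C.b4, s2, g34, C.f32_5, g42, g4]
            · linarith only [C.o1, C.b4, g22, C.f22_1, C.f33_0, g38]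
        · linarith only [g28, s2, g22, C.f22_1, C.f32_0, C.f32_5, g4]
        · linarith only [g30, s2, C.b4, C.o2, g22, C.f22_1, C.f32_0, C.f32_5, g4]
      · rcases d3 with ⟨g44, g45⟩ | ⟨g46, g47⟩
        · linarith only [C.f22_4, s2, C.a2, C.b3, C.o0, g24, g44, C.f32_5, g4]
        · rcases d8 with ⟨g48, g49⟩ | ⟨g50, g51⟩
          · rcases d7 with ⟨g52, g53⟩ | ⟨g54, g55⟩
            · linarith only [g4, C.a1, C.b3, C.o0, C.o1, g46, g52, g48]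
            · linarith only [C.a2, C.b3, C.o0, C.o1, g54, g48, C.f33_4]
          · linarith only [g4, s2, C.b4, g46, C.f32_5, g50]
    · rcases d2 with ⟨g56, g57⟩ | ⟨g58, g59⟩
      · rcases d4 with ⟨g60, g61⟩ | ⟨g62, g63⟩ | ⟨g64, g65⟩
        · rcases d3 with ⟨g66, g67⟩ | ⟨g68, g69⟩
          · linarith only [C.a3, C.a1, g56, g66, C.f22_4]
          · rcases d7 with ⟨g70, g71⟩ | ⟨g72, g73⟩
            · rcases d8 with ⟨g74, g75⟩ | ⟨g76, g77⟩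
              · linarith only [g4, s1, g21, C.o0, C.o1, g57, g68, g61, g70, g74]
              · linarith only [C.b4, s2, g68, C.f32_5, g76, g4]
            · linarith only [C.o1, C.b4, g56, C.f22_1, C.f33_0, g72]
        · linarith only [g62, s2, g56, C.f22_1, C.f32_0, C.f32_5, g4]
        · linarith only [g64, s2, C.b4, C.o2, g56, C.f22_1, C.f32_0, C.f32_5, g4]
      · rcases d3 with ⟨g78, g79⟩ | ⟨g80, g81⟩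
        · linarith only [C.f22_4, s2, C.a2, g21, C.o0, g58, g78, C.f32_5, g4]
        · rcases d8 with ⟨g82, g83⟩ | ⟨g84, g85⟩
          · rcases d7 with ⟨g86, g87⟩ | ⟨g88, g89⟩
            · linarith only [g4, C.a1, g21, C.o0, C.o1, g80, g86, g82]
            · linarith only [C.a2, g21, C.o0, C.o1, g88, g82, C.f33_4]
          · linarith only [g4, s2, C.b4, g80, C.f32_5, g84]
  · linarith only [g5, s3, C.f32_9]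

end Pool.Agent.Helper89.TQ
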