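import Pool.Agent.Helper89.TQ.Ctx

set_option autoImplicit false
set_option linter.all false
set_option maxHeartbeats 4000000

namespace Pool.Agent.Helper89.TQ

theorem c2_11_11_11_k0 {n1 n2 n3 A1 A2 A3 B1 B2 B3 m11_1 m11_2 m11_3 m12_1 m12_2 m12_3 m13_1 m13_2 m13_3 m22_1 m22_2 m22_3 m33_1 m33_2 m33_3 : ℤ}
    (C : Ctx2 n1 n2 n3 A1 A2 A3 B1 B2 B3 m11_1 m11_2 m11_3 m12_1 m12_2 m12_3 m13_1 m13_2 m13_3 m22_1 m22_2 m22_3 m33_1 m33_2 m33_3)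
    (e0 : 0 < B1)
    (s1 : 0 * A1 + 3 * B1 ≤ m11_1 + m11_1 + m11_1)
    (s2 : 0 * A2 + 3 * B2 ≤ m11_2 + m11_2 + m11_2)
    (s3 : 0 * A3 + 3 * B3 ≤ m11_3 + m11_3 + m11_3) : False := by
  linarith only [C.f11_0, s1]

theorem c2_11_11_11_k1 {n1 n2 n3 A1 A2 A3 B1 B2 B3 m11_1 m11_2 m11_3 m12_1 m12_2 m12_3 m13_1 m13_2 m13_3 m22_1 m22_2 m22_3 m33_1 m33_2 m33_3 : ℤ}
    (C : Ctx2 n1 n2 n3 A1 A2 A3 B1 B2 B3 m11_1 m11_2 m11_3 m12_1 m12_2 m12_3 m13_1 m13_2 m13_3 m22_1 m22_2 m22_3 m33_1 m33_2 m33_3)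
    (e0 : 0 < B1)
    (s1 : 1 * A1 + 2 * B1 ≤ m11_1 + m11_1 + m11_1)
    (s2 : 1 * A2 + 2 * B2 ≤ m11_2 + m11_2 + m11_2)
    (s3 : 1 * A3 + 2 * B3 ≤ m11_3 + m11_3 + m11_3) : False := by
  linarith only [C.f11_0, s1, C.o0]

theorem c2_11_11_11_k2 {n1 n2 n3 A1 A2 A3 B1 B2 B3 m11_1 m11_2 m11_3 m12_1 m12_2 m12_3 m13_1 m13_2 m13_3 m22_1 m22_2 m22_3 m33_1 m33_2 m33_3 : ℤ}
    (C : Ctx2 n1 n2 n3 A1 A2 A3 B1 B2 B3 m11_1 m11_2 m11_3 m12_1 m12_2 m12_3 m13_1 m13_2 m13_3 m22_1 m22_2 m22_3 m33_1 m33_2 m33_3)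
    (e0 : 0 < B1)
    (s1 : 2 * A1 + 1 * B1 ≤ m11_1 + m11_1 + m11_1)
    (s2 : 2 * A2 + 1 * B2 ≤ m11_2 + m11_2 + m11_2)
    (s3 : 2 * A3 + 1 * B3 ≤ m11_3 + m11_3 + m11_3) : False := by
  linarith only [C.f11_0, s1, C.o0]

theorem c2_11_11_11_k3 {n1 n2 n3 A1 A2 A3 B1 B2 B3 m11_1 m11_2 m11_3 m12_1 m12_2 m12_3 m13_1 m13_2 m13_3 m22_1 m22_2 m22_3 m33_1 m33_2 m33_3 : ℤ}
    (C : Ctx2 n1 n2 n3 A1 A2 A3 B1 B2 B3 m11_1 m11_2 m11_3 m12_1 m12_2 m12_3 m13_1 m13_2 m13_3 m22_1 m22_2 m22_3 m33_1 m33_2 m33_3)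
    (e0 : 0 < B1)
    (s1 : 3 * A1 + 0 * B1 ≤ m11_1 + m11_1 + m11_1)
    (s2 : 3 * A2 + 0 * B2 ≤ m11_2 + m11_2 + m11_2)
    (s3 : 3 * A3 + 0 * B3 ≤ m11_3 + m11_3 + m11_3) : False := by
  linarith only [C.f11_0, s1, C.o0]

theorem c2_11_11_12_k0 {n1 n2 n3 A1 A2 A3 B1 B2 B3 m11_1 m11_2 m11_3 m12_1 m12_2 m12_3 m13_1 m13_2 m13_3 m22_1 m22_2 m22_3 m33_1 m33_2 m33_3 : ℤ}
    (C : Ctx2 n1 n2 n3 A1 A2 A3 B1 B2 B3 m11_1 m11_2 m11_3 m12_1 m12_2 m12_3 m13_1 m13_2 m13_3 m22_1 m22_2 m22_3 m33_1 m33_2 m33_3)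
    (e0 : 0 < B1)
    (e1 : 0 < A1)
    (e2 : 0 < B2)
    (s1 : 0 * A1 + 3 * B1 ≤ m11_1 + m11_1 + m12_1)
    (s2 : 0 * A2 + 3 * B2 ≤ m11_2 + m11_2 + m12_2)
    (s3 : 0 * A3 + 3 * B3 ≤ m11_3 + m11_3 + m12_3) : False := by
  have d3 : ((0 ≤ 0 - m12_1 + m12_2 - n2) ∧ (0 ≤ 0 + m12_1 - m12_2 + n2)) ∨ ((0 ≤ 1 - B2 + m12_2) ∧ (0 ≤ -1 + B2 - m12_2)) := by
    have h := C.f12_5
    clear C e0 e1 e2 s1 s2 s3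
    omega
  have d4 : ((0 ≤ 0 - B1)) ∨ ((0 ≤ 0 - A1)) ∨ ((0 ≤ 0 - B2)) ∨ ((0 ≤ -1 + 2 * B1 - m11_1 - m12_1)) ∨ ((0 ≤ -1 + 2 * B2 - m11_2 - m12_2)) ∨ ((0 ≤ -1 + 2 * B3 - m11_3 - m12_3)) := by
    have h := C.p11_12B
    clear C e0 e1 e2 s1 s2 s3
    omega
  rcases d3 with ⟨g1, g2⟩ | ⟨g3, g4⟩
  · linarith only [C.f12_4, s1, s2, C.f11_0, C.f11_1, g1]
  · rcases d4 with g5 | g6 | g7 | g8 | g9 | g10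
    · linarith only [g5, e0]
    · linarith only [g6, e1]
    · linarith only [g7, e2]
    · linarith only [g8, s1, C.f11_0]
    · linarith only [g9, s2, g3]
    · linarith only [C.b5, s3, g3, C.f12_6, g10]

theorem c2_11_11_12_k1 {n1 n2 n3 A1 A2 A3 B1 B2 B3 m11_1 m11_2 m11_3 m12_1 m12_2 m12_3 m13_1 m13_2 m13_3 m22_1 m22_2 m22_3 m33_1 m33_2 m33_3 : ℤ}
    (C : Ctx2 n1 n2 n3 A1 A2 A3 B1 B2 B3 m11_1 m11_2 m11_3 m12_1 m12_2 m12_3 m13_1 m13_2 m13_3 m22_1 m22_2 m22_3 m33_1 m33_2 m33_3)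
    (e0 : 0 < B1)
    (e1 : 0 < A1)
    (e2 : 0 < B2)
    (s1 : 1 * A1 + 2 * B1 ≤ m11_1 + m11_1 + m12_1)
    (s2 : 1 * A2 + 2 * B2 ≤ m11_2 + m11_2 + m12_2)
    (s3 : 1 * A3 + 2 * B3 ≤ m11_3 + m11_3 + m12_3) : False := by
  linarith only [C.f12_0, s1, C.f11_0]

theorem c2_11_11_12_k2 {n1 n2 n3 A1 A2 A3 B1 B2 B3 m11_1 m11_2 m11_3 m12_1 m12_2 m12_3 m13_1 m13_2 m13_3 m22_1 m22_2 m22_3 m33_1 m33_2 m33_3 : ℤ}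
    (C : Ctx2 n1 n2 n3 A1 A2 A3 B1 B2 B3 m11_1 m11_2 m11_3 m12_1 m12_2 m12_3 m13_1 m13_2 m13_3 m22_1 m22_2 m22_3 m33_1 m33_2 m33_3)
    (e0 : 0 < B1)
    (e1 : 0 < A1)
    (e2 : 0 < B2)
    (s1 : 2 * A1 + 1 * B1 ≤ m11_1 + m11_1 + m12_1)
    (s2 : 2 * A2 + 1 * B2 ≤ m11_2 + m11_2 + m12_2)
    (s3 : 2 * A3 + 1 * B3 ≤ m11_3 + m11_3 + m12_3) : False := by
  linarith only [C.f12_0, s1, C.o0, C.f11_0]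

theorem c2_11_11_12_k3 {n1 n2 n3 A1 A2 A3 B1 B2 B3 m11_1 m11_2 m11_3 m12_1 m12_2 m12_3 m13_1 m13_2 m13_3 m22_1 m22_2 m22_3 m33_1 m33_2 m33_3 : ℤ}
    (C : Ctx2 n1 n2 n3 A1 A2 A3 B1 B2 B3 m11_1 m11_2 m11_3 m12_1 m12_2 m12_3 m13_1 m13_2 m13_3 m22_1 m22_2 m22_3 m33_1 m33_2 m33_3)
    (e0 : 0 < B1)
    (e1 : 0 < A1)
    (e2 : 0 < B2)
    (s1 : 3 * A1 + 0 * B1 ≤ m11_1 + m11_1 + m12_1)
    (s2 : 3 * A2 + 0 * B2 ≤ m11_2 + m11_2 + m12_2)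
    (s3 : 3 * A3 + 0 * B3 ≤ m11_3 + m11_3 + m12_3) : False := by
  linarith only [C.f12_0, s1, C.o0, C.f11_0]

theorem c2_11_11_13_k0 {n1 n2 n3 A1 A2 A3 B1 B2 B3 m11_1 m11_2 m11_3 m12_1 m12_2 m12_3 m13_1 m13_2 m13_3 m22_1 m22_2 m22_3 m33_1 m33_2 m33_3 : ℤ}
    (C : Ctx2 n1 n2 n3 A1 A2 A3 B1 B2 B3 m11_1 m11_2 m11_3 m12_1 m12_2 m12_3 m13_1 m13_2 m13_3 m22_1 m22_2 m22_3 m33_1 m33_2 m33_3)
    (e0 : 0 < B1)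
    (e1 : 0 < A1)
    (e2 : 0 < B3)
    (s1 : 0 * A1 + 3 * B1 ≤ m11_1 + m11_1 + m13_1)
    (s2 : 0 * A2 + 3 * B2 ≤ m11_2 + m11_2 + m13_2)
    (s3 : 0 * A3 + 3 * B3 ≤ m11_3 + m11_3 + m13_3) : False := by
  have d3 : ((0 ≤ 0 - m13_1 + m13_2 - n2) ∧ (0 ≤ 0 + m13_1 - m13_2 + n2)) ∨ ((0 ≤ 1 - B3 + m13_2) ∧ (0 ≤ -1 + B3 - m13_2)) := by
    have h := C.f13_5
    clear C e0 e1 e2 s1 s2 s3
    omega
  have d4 : ((0 ≤ 0 - m13_2 + m13_3 - n3) ∧ (0 ≤ 0 + m13_2 - m13_3 + n3)) ∨ ((0 ≤ 1 - B3 + m13_3) ∧ (0 ≤ -1 + B3 - m13_3)) := by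
    have h := C.f13_8
    clear C e0 e1 e2 s1 s2 s3
    omega
  have d5 : ((0 ≤ 0 - B1)) ∨ ((0 ≤ 0 - A1)) ∨ ((0 ≤ 0 - B3)) ∨ ((0 ≤ -1 + 2 * B1 - m11_1 - m13_1)) ∨ ((0 ≤ -1 + 2 * B2 - m11_2 - m13_2)) ∨ ((0 ≤ -1 + 2 * B3 - m11_3 - m13_3)) := by
    have h := C.p11_13B
    clear C e0 e1 e2 s1 s2 s3
    omega
  rcases d5 with g1 | g2 | g3 | g4 | g5 | g6
  · linarith only [g1, e0]
  · linarith only [g2, e1]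
  · linarith only [g3, e2]
  · linarith only [g4, s1, C.f11_0]
  · rcases d3 with ⟨g7, g8⟩ | ⟨g9, g10⟩
    · linarith only [g7, s1, s2, C.f11_0, C.f11_1, g5]
    · linarith only [C.b4, s2, g9, g5]
  · rcases d4 with ⟨g11, g12⟩ | ⟨g13, g14⟩
    · rcases d3 with ⟨g15, g16⟩ | ⟨g17, g18⟩
      · linarith only [s3, s1, C.f11_0, C.f11_1, C.f11_2, g15, g11, g6]
      · linarith only [C.a5, s3, C.a4, g17, g11, g6]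
    · linarith only [g13, s3, g6]

theorem c2_11_11_13_k1 {n1 n2 n3 A1 A2 A3 B1 B2 B3 m11_1 m11_2 m11_3 m12_1 m12_2 m12_3 m13_1 m13_2 m13_3 m22_1 m22_2 m22_3 m33_1 m33_2 m33_3 : ℤ}
    (C : Ctx2 n1 n2 n3 A1 A2 A3 B1 B2 B3 m11_1 m11_2 m11_3 m12_1 m12_2 m12_3 m13_1 m13_2 m13_3 m22_1 m22_2 m22_3 m33_1 m33_2 m33_3)
    (e0 : 0 < B1)
    (e1 : 0 < A1)
    (e2 : 0 < B3)
    (s1 : 1 * A1 + 2 * B1 ≤ m11_1 + m11_1 + m13_1)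
    (s2 : 1 * A2 + 2 * B2 ≤ m11_2 + m11_2 + m13_2)
    (s3 : 1 * A3 + 2 * B3 ≤ m11_3 + m11_3 + m13_3) : False := by
  linarith only [C.f13_0, s1, C.f11_0]

theorem c2_11_11_13_k2 {n1 n2 n3 A1 A2 A3 B1 B2 B3 m11_1 m11_2 m11_3 m12_1 m12_2 m12_3 m13_1 m13_2 m13_3 m22_1 m22_2 m22_3 m33_1 m33_2 m33_3 : ℤ}
    (C : Ctx2 n1 n2 n3 A1 A2 A3 B1 B2 B3 m11_1 m11_2 m11_3 m12_1 m12_2 m12_3 m13_1 m13_2 m13_3 m22_1 m22_2 m22_3 m33_1 m33_2 m33_3)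
    (e0 : 0 < B1)
    (e1 : 0 < A1)
    (e2 : 0 < B3)
    (s1 : 2 * A1 + 1 * B1 ≤ m11_1 + m11_1 + m13_1)
    (s2 : 2 * A2 + 1 * B2 ≤ m11_2 + m11_2 + m13_2)
    (s3 : 2 * A3 + 1 * B3 ≤ m11_3 + m11_3 + m13_3) : False := by
  linarith only [C.f13_0, s1, C.o0, C.f11_0]

theorem c2_11_11_13_k3 {n1 n2 n3 A1 A2 A3 B1 B2 B3 m11_1 m11_2 m11_3 m12_1 m12_2 m12_3 m13_1 m13_2 m13_3 m22_1 m22_2 m22_3 m33_1 m33_2 m33_3 : ℤ}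
    (C : Ctx2 n1 n2 n3 A1 A2 A3 B1 B2 B3 m11_1 m11_2 m11_3 m12_1 m12_2 m12_3 m13_1 m13_2 m13_3 m22_1 m22_2 m22_3 m33_1 m33_2 m33_3)
    (e0 : 0 < B1)
    (e1 : 0 < A1)
    (e2 : 0 < B3)
    (s1 : 3 * A1 + 0 * B1 ≤ m11_1 + m11_1 + m13_1)
    (s2 : 3 * A2 + 0 * B2 ≤ m11_2 + m11_2 + m13_2)
    (s3 : 3 * A3 + 0 * B3 ≤ m11_3 + m11_3 + m13_3) : False := by
  linarith only [C.f13_0, s1, C.o0, C.f11_0]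

theorem c2_11_11_22_k0 {n1 n2 n3 A1 A2 A3 B1 B2 B3 m11_1 m11_2 m11_3 m12_1 m12_2 m12_3 m13_1 m13_2 m13_3 m22_1 m22_2 m22_3 m33_1 m33_2 m33_3 : ℤ}
    (C : Ctx2 n1 n2 n3 A1 A2 A3 B1 B2 B3 m11_1 m11_2 m11_3 m12_1 m12_2 m12_3 m13_1 m13_2 m13_3 m22_1 m22_2 m22_3 m33_1 m33_2 m33_3)
    (e0 : 0 < B1)
    (e1 : 0 < A2)
    (s1 : 0 * A1 + 3 * B1 ≤ m11_1 + m11_1 + m22_1)
    (s2 : 0 * A2 + 3 * B2 ≤ m11_2 + m11_2 + m22_2)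
    (s3 : 0 * A3 + 3 * B3 ≤ m11_3 + m11_3 + m22_3) : False := by
  have d2 : ((0 ≤ 1 - A1 + m12_1) ∧ (0 ≤ -1 + A1 - m12_1)) ∨ ((0 ≤ 1 - B2 + m12_1) ∧ (0 ≤ -1 + B2 - m12_1)) := by
    have h := C.f12_2
    clear C e0 e1 s1 s2 s3
    omega
  have d3 : ((0 ≤ 0 - m12_1 + m12_2 - n2) ∧ (0 ≤ 0 + m12_1 - m12_2 + n2)) ∨ ((0 ≤ 1 - B2 + m12_2) ∧ (0 ≤ -1 + B2 - m12_2)) := by
    have h := C.f12_5
    clear C e0 e1 s1 s2 s3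
    omega
  have d6 : ((0 ≤ 0 - B1)) ∨ ((0 ≤ 0 - A1)) ∨ ((0 ≤ 0 - B2)) ∨ ((0 ≤ -1 + 2 * B1 - m11_1 - m12_1)) ∨ ((0 ≤ -1 + 2 * B2 - m11_2 - m12_2)) ∨ ((0 ≤ -1 + 2 * B3 - m11_3 - m12_3)) := by
    have h := C.p11_12B
    clear C e0 e1 s1 s2 s3
    omega
  have d8 : ((0 ≤ 0 + A1 - n1)) ∨ ((0 ≤ 1 + A1 - A2)) ∨ ((0 ≤ 0 - B1)) ∨ ((0 ≤ 1 - B1 + B2 - n2)) := by
    have h := C.tmpp
    clear C e0 e1 s1 s2 s3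
    omega
  rcases d2 with ⟨g1, g2⟩ | ⟨g3, g4⟩
  · rcases d3 with ⟨g5, g6⟩ | ⟨g7, g8⟩
    · linarith only [C.f12_4, s2, C.o0, C.o1, C.f11_0, C.f11_1, g1, g5, C.f22_4]
    · rcases d6 with g9 | g10 | g11 | g12 | g13 | g14
      · linarith only [g9, e0]
      · linarith only [g10, e0, C.o0]
      · linarith only [g11, e0, s1, C.o1, C.f11_0, C.f22_1]
      · rcases d8 with g15 | g16 | g17 | g18
        · linarith only [g12, s1, g15, C.f11_0, g1, C.f22_0]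
        · linarith only [g16, s1, C.f11_0, g1, C.f22_1, g12]
        · linarith only [g17, e0]
        · linarith only [g18, s2, C.o1, C.f11_0, C.f11_1, C.f22_4]
      · linarith only [g13, s2, C.o1, g7, C.f22_4]
      · linarith only [C.b5, s3, C.o1, g7, C.f12_6, C.f22_4, C.f22_6, g14]
  · linarith only [C.a2, C.o1, C.f12_0, g3]

theorem c2_11_11_22_k1 {n1 n2 n3 A1 A2 A3 B1 B2 B3 m11_1 m11_2 m11_3 m12_1 m12_2 m12_3 m13_1 m13_2 m13_3 m22_1 m22_2 m22_3 m33_1 m33_2 m33_3 : ℤ}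
    (C : Ctx2 n1 n2 n3 A1 A2 A3 B1 B2 B3 m11_1 m11_2 m11_3 m12_1 m12_2 m12_3 m13_1 m13_2 m13_3 m22_1 m22_2 m22_3 m33_1 m33_2 m33_3)
    (e0 : 0 < B1)
    (e1 : 0 < A2)
    (s1 : 1 * A1 + 2 * B1 ≤ m11_1 + m11_1 + m22_1)
    (s2 : 1 * A2 + 2 * B2 ≤ m11_2 + m11_2 + m22_2)
    (s3 : 1 * A3 + 2 * B3 ≤ m11_3 + m11_3 + m22_3) : False := by
  have d5 : ((0 ≤ 0 + A1 - n1)) ∨ ((0 ≤ 1 + A1 - A2)) ∨ ((0 ≤ 0 - B1)) ∨ ((0 ≤ 1 - B1 + B2 - n2)) := by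
    have h := C.tmpp
    clear C e0 e1 s1 s2 s3
    omega
  rcases d5 with g1 | g2 | g3 | g4
  · linarith only [g1, s1, C.f11_0, C.f22_0]
  · linarith only [g2, s1, C.f11_0, C.f22_1]
  · linarith only [g3, e0]
  · linarith only [C.f22_4, s2, g4, C.f11_0, C.f11_1]

theorem c2_11_11_22_k2 {n1 n2 n3 A1 A2 A3 B1 B2 B3 m11_1 m11_2 m11_3 m12_1 m12_2 m12_3 m13_1 m13_2 m13_3 m22_1 m22_2 m22_3 m33_1 m33_2 m33_3 : ℤ}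
    (C : Ctx2 n1 n2 n3 A1 A2 A3 B1 B2 B3 m11_1 m11_2 m11_3 m12_1 m12_2 m12_3 m13_1 m13_2 m13_3 m22_1 m22_2 m22_3 m33_1 m33_2 m33_3)
    (e0 : 0 < B1)
    (e1 : 0 < A2)
    (s1 : 2 * A1 + 1 * B1 ≤ m11_1 + m11_1 + m22_1)
    (s2 : 2 * A2 + 1 * B2 ≤ m11_2 + m11_2 + m22_2)
    (s3 : 2 * A3 + 1 * B3 ≤ m11_3 + m11_3 + m22_3) : False := by
  have d3 : ((0 ≤ 0 - m22_1 + m22_2 - n2) ∧ (0 ≤ 0 + m22_1 - m22_2 + n2)) ∨ ((0 ≤ 1 - A2 + m22_2) ∧ (0 ≤ -1 + A2 - m22_2)) := by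
    have h := C.f22_5
    clear C e0 e1 s1 s2 s3
    omega
  have d4 : ((0 ≤ 0 - B1)) ∨ ((0 ≤ 0 - A2)) ∨ ((0 ≤ -1 + 2 * A1 - m11_1 - m22_1)) ∨ ((0 ≤ -1 + 2 * A2 - m11_2 - m22_2)) ∨ ((0 ≤ -1 + 2 * A3 - m11_3 - m22_3)) := by
    have h := C.p11_22A
    clear C e0 e1 s1 s2 s3
    omega
  rcases d3 with ⟨g1, g2⟩ | ⟨g3, g4⟩
  · linarith only [g1, s1, s2, C.o0, C.o1, C.f11_0, C.f11_1, C.f22_4]
  · rcases d4 with g5 | g6 | g7 | g8 | g9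
    · linarith only [g5, e0]
    · linarith only [g6, e1]
    · linarith only [g7, s1, C.f11_0]
    · linarith only [g8, s2, C.o1, g3]
    · linarith only [s2, C.a5, C.o1, C.f11_2, g3, C.f22_6, g9]

theorem c2_11_11_22_k3 {n1 n2 n3 A1 A2 A3 B1 B2 B3 m11_1 m11_2 m11_3 m12_1 m12_2 m12_3 m13_1 m13_2 m13_3 m22_1 m22_2 m22_3 m33_1 m33_2 m33_3 : ℤ}
    (C : Ctx2 n1 n2 n3 A1 A2 A3 B1 B2 B3 m11_1 m11_2 m11_3 m12_1 m12_2 m12_3 m13_1 m13_2 m13_3 m22_1 m22_2 m22_3 m33_1 m33_2 m33_3)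
    (e0 : 0 < B1)
    (e1 : 0 < A2)
    (s1 : 3 * A1 + 0 * B1 ≤ m11_1 + m11_1 + m22_1)
    (s2 : 3 * A2 + 0 * B2 ≤ m11_2 + m11_2 + m22_2)
    (s3 : 3 * A3 + 0 * B3 ≤ m11_3 + m11_3 + m22_3) : False := by
  have d3 : ((0 ≤ 0 - m22_1 + m22_2 - n2) ∧ (0 ≤ 0 + m22_1 - m22_2 + n2)) ∨ ((0 ≤ 1 - A2 + m22_2) ∧ (0 ≤ -1 + A2 - m22_2)) := by
    have h := C.f22_5
    clear C e0 e1 s1 s2 s3
    omega
  have d4 : ((0 ≤ 0 - B1)) ∨ ((0 ≤ 0 - A2)) ∨ ((0 ≤ -1 + 2 * A1 - m11_1 - m22_1)) ∨ ((0 ≤ -1 + 2 * A2 - m11_2 - m22_2)) ∨ ((0 ≤ -1 + 2 * A3 - m11_3 - m22_3)) := by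
    have h := C.p11_22A
    clear C e0 e1 s1 s2 s3
    omega
  rcases d3 with ⟨g1, g2⟩ | ⟨g3, g4⟩
  · linarith only [s2, s1, C.o0, C.f11_0, C.f11_1, g1, C.f22_4]
  · rcases d4 with g5 | g6 | g7 | g8 | g9
    · linarith only [g5, e0]
    · linarith only [g6, e1]
    · linarith only [g7, s1, C.o0, C.f11_0]
    · linarith only [s2, g3, g8]
    · linarith only [C.a5, s3, g3, C.f22_6, g9]

theorem c2_11_11_33_k1 {n1 n2 n3 A1 A2 A3 B1 B2 B3 m11_1 m11_2 m11_3 m12_1 m12_2 m12_3 m13_1 m13_2 m13_3 m22_1 m22_2 m22_3 m33_1 m33_2 m33_3 : ℤ}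
    (C : Ctx2 n1 n2 n3 A1 A2 A3 B1 B2 B3 m11_1 m11_2 m11_3 m12_1 m12_2 m12_3 m13_1 m13_2 m13_3 m22_1 m22_2 m22_3 m33_1 m33_2 m33_3)
    (e0 : 0 < B1)
    (e1 : 0 < A3)
    (s1 : 1 * A1 + 2 * B1 ≤ m11_1 + m11_1 + m33_1)
    (s2 : 1 * A2 + 2 * B2 ≤ m11_2 + m11_2 + m33_2)
    (s3 : 1 * A3 + 2 * B3 ≤ m11_3 + m11_3 + m33_3) : False := by
  have d1 : ((0 ≤ -1 - A1 + A2) ∧ (0 ≤ -1 + A2 - A3 + n3)) ∨ ((0 ≤ -1 - B1 + B2) ∧ (0 ≤ -1 + B2 - B3 + n3)) := by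
    have h := C.t23
    clear C e0 e1 s1 s2 s3
    omega
  have d3 : ((0 ≤ 0 - m33_1 + m33_2 - n2) ∧ (0 ≤ 0 + m33_1 - m33_2 + n2)) ∨ ((0 ≤ 1 - A3 + m33_2) ∧ (0 ≤ -1 + A3 - m33_2)) := by
    have h := C.f33_5
    clear C e0 e1 s1 s2 s3
    omega
  have d4 : ((0 ≤ 0 - m33_2 + m33_3 - n3) ∧ (0 ≤ 0 + m33_2 - m33_3 + n3)) ∨ ((0 ≤ 1 - A3 + m33_3) ∧ (0 ≤ -1 + A3 - m33_3)) := by
    have h := C.f33_8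
    clear C e0 e1 s1 s2 s3
    omega
  have d5 : ((0 ≤ 0 - B1)) ∨ ((0 ≤ 0 - A3)) ∨ ((0 ≤ -1 + 2 * A1 - m11_1 - m33_1)) ∨ ((0 ≤ -1 + 2 * A2 - m11_2 - m33_2)) ∨ ((0 ≤ -1 + 2 * A3 - m11_3 - m33_3)) := by
    have h := C.p11_33A
    clear C e0 e1 s1 s2 s3
    omega
  have d6 : ((0 ≤ 0 + A1 - n1)) ∨ ((0 ≤ 1 + A1 - A2)) ∨ ((0 ≤ 0 - B1)) ∨ ((0 ≤ 1 - B1 + B2 - n2)) := by
    have h := C.tmpp
    clear C e0 e1 s1 s2 s3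
    omega
  have d7 : ((0 ≤ 0 - A1)) ∨ ((0 ≤ 1 - A1 + A2 - n2)) ∨ ((0 ≤ 0 + B1 - n1)) ∨ ((0 ≤ 1 + B1 - B2)) ∨ ((0 ≤ 1 + A2 - B2) ∧ (0 ≤ 1 + A3 - B3)) ∨ ((0 ≤ 1 - A1 + B1)) := by
    have h := C.tpmm
    clear C e0 e1 s1 s2 s3
    omega
  have d8 : ((0 ≤ 0 - A1)) ∨ ((0 ≤ 1 - A1 + A2 - n2)) ∨ ((0 ≤ 0 + A2 - A3)) ∨ ((0 ≤ 0 + B1 - n1)) ∨ ((0 ≤ 1 + B1 - B2)) ∨ ((0 ≤ 0 - B2 + B3 - n3)) ∨ ((0 ≤ 1 - A1 + B1)) := by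
    have h := C.tpmz
    clear C e0 e1 s1 s2 s3
    omega
  rcases d7 with g1 | g2 | g3 | g4 | ⟨g5, g6⟩ | g7
  · linarith only [C.o0, e0, g1]
  · linarith only [C.b3, g2, C.o0, C.o1]
  · linarith only [g3, s1, C.o0, C.f11_0, C.f33_0]
  · linarith only [C.a2, g4, C.o0, C.o1]
  · rcases d6 with g8 | g9 | g10 | g11
    · linarith only [g8, s1, C.f11_0, C.f33_0]
    · rcases d8 with g12 | g13 | g14 | g15 | g16 | g17 | g18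
      · linarith only [C.o0, e0, g12]
      · linarith only [C.b3, g13, C.o0, C.o1]
      · linarith only [g9, s1, g14, C.f11_0, C.f33_1]
      · linarith only [g15, s1, C.o0, C.f11_0, C.f33_0]
      · linarith only [C.a2, g16, C.o0, C.o1]
      · rcases d1 with ⟨g19, g20⟩ | ⟨g21, g22⟩
        · linarith only [g20, g17, C.o1, g6]
        · linarith only [g22, g17]
      · rcases d5 with g23 | g24 | g25 | g26 | g27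
        · linarith only [g23, e0]
        · linarith only [g24, e1]
        · linarith only [g25, s1, g18, C.f11_0]
        · rcases d3 with ⟨g28, g29⟩ | ⟨g30, g31⟩
          · linarith only [g28, s1, s2, C.o0, C.o1, C.f11_0, C.f11_1, g26]
          · linarith only [g30, s1, s2, g9, C.o1, C.f11_0, C.f33_1, g26]
        · rcases d4 with ⟨g32, g33⟩ | ⟨g34, g35⟩
          · rcases d3 with ⟨g36, g37⟩ | ⟨g38, g39⟩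
            · linarith only [s3, s1, C.o0, C.o2, C.f11_0, C.f11_1, C.f11_2, g36, g32, g27]
            · linarith only [C.a5, s1, s3, g9, C.o2, C.f11_0, C.f33_1, g38, g32, g27]
          · linarith only [g34, s3, C.o2, g27]
    · linarith only [g10, e0]
    · rcases d8 with g40 | g41 | g42 | g43 | g44 | g45 | g46
      · linarith only [C.o0, e0, g40]
      · linarith only [C.b3, g41, C.o0, C.o1]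
      · linarith only [g11, s2, g42, C.f11_0, C.f11_1, C.f33_4]
      · linarith only [g43, s1, C.o0, C.f11_0, C.f33_0]
      · linarith only [C.a2, g44, C.o0, C.o1]
      · linarith only [C.f33_7, s3, g11, g45, C.f11_0, C.f11_1, C.f11_2]
      · rcases d5 with g47 | g48 | g49 | g50 | g51
        · linarith only [g47, e0]
        · linarith only [g48, e1]
        · linarith only [g49, s1, g46, C.f11_0]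
        · linarith only [s2, g11, C.o1, C.f11_0, C.f11_1, g50]
        · rcases d4 with ⟨g52, g53⟩ | ⟨g54, g55⟩
          · linarith only [s2, s3, g11, g5, C.o2, C.f11_0, C.f11_1, C.f11_2, g52, g51]
          · linarith only [g54, s3, C.o2, g51]
  · rcases d5 with g56 | g57 | g58 | g59 | g60
    · linarith only [g56, e0]
    · linarith only [g57, e1]
    · linarith only [g58, s1, g7, C.f11_0]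
    · rcases d3 with ⟨g61, g62⟩ | ⟨g63, g64⟩
      · linarith only [g61, s1, s2, C.o0, C.o1, C.f11_0, C.f11_1, g59]
      · linarith only [g63, s2, C.a4, C.o1, g59]
    · rcases d4 with ⟨g65, g66⟩ | ⟨g67, g68⟩
      · rcases d3 with ⟨g69, g70⟩ | ⟨g71, g72⟩
        · linarith only [s3, s1, C.o0, C.o2, C.f11_0, C.f11_1, C.f11_2, g69, g65, g60]
        · linarith only [C.a5, s3, C.a4, C.o2, g71, g65, g60]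
      · linarith only [g67, s3, C.o2, g60]

theorem c2_11_11_33_k2 {n1 n2 n3 A1 A2 A3 B1 B2 B3 m11_1 m11_2 m11_3 m12_1 m12_2 m12_3 m13_1 m13_2 m13_3 m22_1 m22_2 m22_3 m33_1 m33_2 m33_3 : ℤ}
    (C : Ctx2 n1 n2 n3 A1 A2 A3 B1 B2 B3 m11_1 m11_2 m11_3 m12_1 m12_2 m12_3 m13_1 m13_2 m13_3 m22_1 m22_2 m22_3 m33_1 m33_2 m33_3)
    (e0 : 0 < B1)
    (e1 : 0 < A3)
    (s1 : 2 * A1 + 1 * B1 ≤ m11_1 + m11_1 + m33_1)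
    (s2 : 2 * A2 + 1 * B2 ≤ m11_2 + m11_2 + m33_2)
    (s3 : 2 * A3 + 1 * B3 ≤ m11_3 + m11_3 + m33_3) : False := by
  have d3 : ((0 ≤ 0 - m33_1 + m33_2 - n2) ∧ (0 ≤ 0 + m33_1 - m33_2 + n2)) ∨ ((0 ≤ 1 - A3 + m33_2) ∧ (0 ≤ -1 + A3 - m33_2)) := by
    have h := C.f33_5
    clear C e0 e1 s1 s2 s3
    omega
  have d4 : ((0 ≤ 0 - m33_2 + m33_3 - n3) ∧ (0 ≤ 0 + m33_2 - m33_3 + n3)) ∨ ((0 ≤ 1 - A3 + m33_3) ∧ (0 ≤ -1 + A3 - m33_3)) := by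
    have h := C.f33_8
    clear C e0 e1 s1 s2 s3
    omega
  have d5 : ((0 ≤ 0 - B1)) ∨ ((0 ≤ 0 - A3)) ∨ ((0 ≤ -1 + 2 * A1 - m11_1 - m33_1)) ∨ ((0 ≤ -1 + 2 * A2 - m11_2 - m33_2)) ∨ ((0 ≤ -1 + 2 * A3 - m11_3 - m33_3)) := by
    have h := C.p11_33A
    clear C e0 e1 s1 s2 s3
    omega
  rcases d5 with g1 | g2 | g3 | g4 | g5
  · linarith only [g1, e0]
  · linarith only [g2, e1]
  · linarith only [g3, s1, C.f11_0]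
  · rcases d3 with ⟨g6, g7⟩ | ⟨g8, g9⟩
    · linarith only [g6, s1, s2, C.o0, C.o1, C.f11_0, C.f11_1, g4]
    · linarith only [g8, s2, C.a4, C.o1, g4]
  · rcases d4 with ⟨g10, g11⟩ | ⟨g12, g13⟩
    · rcases d3 with ⟨g14, g15⟩ | ⟨g16, g17⟩
      · linarith only [s3, s1, C.o0, C.o2, C.f11_0, C.f11_1, C.f11_2, g14, g10, g5]
      · linarith only [C.a5, s3, C.a4, C.o2, g16, g10, g5]
    · linarith only [g12, s3, C.o2, g5]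

theorem c2_11_11_33_k3 {n1 n2 n3 A1 A2 A3 B1 B2 B3 m11_1 m11_2 m11_3 m12_1 m12_2 m12_3 m13_1 m13_2 m13_3 m22_1 m22_2 m22_3 m33_1 m33_2 m33_3 : ℤ}
    (C : Ctx2 n1 n2 n3 A1 A2 A3 B1 B2 B3 m11_1 m11_2 m11_3 m12_1 m12_2 m12_3 m13_1 m13_2 m13_3 m22_1 m22_2 m22_3 m33_1 m33_2 m33_3)
    (e0 : 0 < B1)
    (e1 : 0 < A3)
    (s1 : 3 * A1 + 0 * B1 ≤ m11_1 + m11_1 + m33_1)
    (s2 : 3 * A2 + 0 * B2 ≤ m11_2 + m11_2 + m33_2)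
    (s3 : 3 * A3 + 0 * B3 ≤ m11_3 + m11_3 + m33_3) : False := by
  have d3 : ((0 ≤ 0 - m33_1 + m33_2 - n2) ∧ (0 ≤ 0 + m33_1 - m33_2 + n2)) ∨ ((0 ≤ 1 - A3 + m33_2) ∧ (0 ≤ -1 + A3 - m33_2)) := by
    have h := C.f33_5
    clear C e0 e1 s1 s2 s3
    omega
  have d4 : ((0 ≤ 0 - m33_2 + m33_3 - n3) ∧ (0 ≤ 0 + m33_2 - m33_3 + n3)) ∨ ((0 ≤ 1 - A3 + m33_3) ∧ (0 ≤ -1 + A3 - m33_3)) := by
    have h := C.f33_8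
    clear C e0 e1 s1 s2 s3
    omega
  have d5 : ((0 ≤ 0 - B1)) ∨ ((0 ≤ 0 - A3)) ∨ ((0 ≤ -1 + 2 * A1 - m11_1 - m33_1)) ∨ ((0 ≤ -1 + 2 * A2 - m11_2 - m33_2)) ∨ ((0 ≤ -1 + 2 * A3 - m11_3 - m33_3)) := by
    have h := C.p11_33A
    clear C e0 e1 s1 s2 s3
    omega
  rcases d5 with g1 | g2 | g3 | g4 | g5
  · linarith only [g1, e0]
  · linarith only [g2, e1]
  · linarith only [g3, s1, C.o0, C.f11_0]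
  · rcases d3 with ⟨g6, g7⟩ | ⟨g8, g9⟩
    · linarith only [g6, s1, s2, C.o0, C.f11_0, C.f11_1, g4]
    · linarith only [g8, s2, C.a4, g4]
  · rcases d4 with ⟨g10, g11⟩ | ⟨g12, g13⟩
    · rcases d3 with ⟨g14, g15⟩ | ⟨g16, g17⟩
      · linarith only [s3, s1, C.o0, C.f11_0, C.f11_1, C.f11_2, g14, g10, g5]
      · linarith only [C.a5, s3, C.a4, g16, g10, g5]
    · linarith only [g12, s3, g5]

end Pool.Agent.Helper89.TQ
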