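import Pool.Agent.Helper89.TQ.Ctx

set_option autoImplicit false
set_option linter.all false
set_option maxHeartbeats 4000000

namespace Pool.Agent.Helper89.TQ

theorem c2_13_22_22_k0 {n1 n2 n3 A1 A2 A3 B1 B2 B3 m11_1 m11_2 m11_3 m12_1 m12_2 m12_3 m13_1 m13_2 m13_3 m22_1 m22_2 m22_3 m33_1 m33_2 m33_3 : ℤ}
    (C : Ctx2 n1 n2 n3 A1 A2 A3 B1 B2 B3 m11_1 m11_2 m11_3 m12_1 m12_2 m12_3 m13_1 m13_2 m13_3 m22_1 m22_2 m22_3 m33_1 m33_2 m33_3)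
    (e0 : 0 < A1)
    (e1 : 0 < B3)
    (e2 : 0 < A2)
    (s1 : 0 * A1 + 3 * B1 ≤ m13_1 + m22_1 + m22_1)
    (s2 : 0 * A2 + 3 * B2 ≤ m13_2 + m22_2 + m22_2)
    (s3 : 0 * A3 + 3 * B3 ≤ m13_3 + m22_3 + m22_3) : False := by
  have d2 : ((0 ≤ 1 - A1 + m13_1) ∧ (0 ≤ -1 + A1 - m13_1)) ∨ ((0 ≤ 1 - B3 + m13_1) ∧ (0 ≤ -1 + B3 - m13_1)) := by
    have h := C.f13_2
    clear C e0 e1 e2 s1 s2 s3
    omega
  have d4 : ((0 ≤ 0 - m13_2 + m13_3 - n3) ∧ (0 ≤ 0 + m13_2 - m13_3 + n3)) ∨ ((0 ≤ 1 - B3 + m13_3) ∧ (0 ≤ -1 + B3 - m13_3)) := by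
    have h := C.f13_8
    clear C e0 e1 e2 s1 s2 s3
    omega
  have d7 : ((0 ≤ 0 - A1)) ∨ ((0 ≤ 0 - B3)) ∨ ((0 ≤ 0 - A2)) ∨ ((0 ≤ -1 + 2 * B1 - m13_1 - m22_1)) ∨ ((0 ≤ -1 + 2 * B2 - m13_2 - m22_2)) ∨ ((0 ≤ -1 + 2 * B3 - m13_3 - m22_3)) := by
    have h := C.p13_22B
    clear C e0 e1 e2 s1 s2 s3
    omega
  rcases d2 with ⟨g1, g2⟩ | ⟨g3, g4⟩
  · rcases d7 with g5 | g6 | g7 | g8 | g9 | g10
    · linarith only [g5, e0]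
    · linarith only [g6, e1]
    · linarith only [g7, e2]
    · linarith only [C.o0, s1, g1, g8]
    · linarith only [g9, s2, C.o1, C.f22_4]
    · rcases d4 with ⟨g11, g12⟩ | ⟨g13, g14⟩
      · linarith only [g11, s2, s3, C.o1, C.f22_4, C.f22_6, g10]
      · linarith only [g13, s3, g10]
  · linarith only [C.a2, s2, C.o1, C.f13_0, g3, C.f13_4, C.f22_4]

theorem c2_13_22_22_k1 {n1 n2 n3 A1 A2 A3 B1 B2 B3 m11_1 m11_2 m11_3 m12_1 m12_2 m12_3 m13_1 m13_2 m13_3 m22_1 m22_2 m22_3 m33_1 m33_2 m33_3 : ℤ}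
    (C : Ctx2 n1 n2 n3 A1 A2 A3 B1 B2 B3 m11_1 m11_2 m11_3 m12_1 m12_2 m12_3 m13_1 m13_2 m13_3 m22_1 m22_2 m22_3 m33_1 m33_2 m33_3)
    (e0 : 0 < A1)
    (e1 : 0 < B3)
    (e2 : 0 < A2)
    (s1 : 1 * A1 + 2 * B1 ≤ m13_1 + m22_1 + m22_1)
    (s2 : 1 * A2 + 2 * B2 ≤ m13_2 + m22_2 + m22_2)
    (s3 : 1 * A3 + 2 * B3 ≤ m13_3 + m22_3 + m22_3) : False := by
  have d7 : ((0 ≤ 0 + A1 - A2)) ∨ ((0 ≤ 1 - A2 + A3 - n3)) ∨ ((0 ≤ 0 - B1 + B2 - n2)) ∨ ((0 ≤ 1 + B2 - B3)) := by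
    have h := C.tzpm
    clear C e0 e1 e2 s1 s2 s3
    omega
  have d8 : ((0 ≤ 0 - A1)) ∨ ((0 ≤ 0 - A1 + A2 - n2)) ∨ ((0 ≤ 0 - A2 + A3 - n3)) ∨ ((0 ≤ 0 + B1 - n1)) ∨ ((0 ≤ 0 + B1 - B2)) ∨ ((0 ≤ 0 + B2 - B3)) ∨ ((0 ≤ 1 - A1 + B1)) := by
    have h := C.tpzm
    clear C e0 e1 e2 s1 s2 s3
    omega
  rcases d8 with g1 | g2 | g3 | g4 | g5 | g6 | g7
  · linarith only [g1, e0]
  · linarith only [g2, s2, C.o1, C.f13_0, C.f13_3, C.f22_4]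
  · linarith only [g3, s3, C.o2, C.f13_7, C.f22_4, C.f22_6]
  · linarith only [C.o0, C.a1, g4]
  · linarith only [C.o0, C.a2, g5, C.o1]
  · linarith only [g6, s2, C.o1, C.f13_4, C.f22_4]
  · rcases d7 with g8 | g9 | g10 | g11
    · linarith only [g8, s1, g7, C.f13_0, C.f22_1]
    · linarith only [C.o2, s3, g9, C.f13_7, C.f22_4, C.f22_6]
    · linarith only [g10, s2, g7, C.o1, C.f13_0, C.f13_3, C.f22_4]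
    · linarith only [g11, s2, C.o1, C.f13_4, C.f22_4]

theorem c2_13_22_22_k2 {n1 n2 n3 A1 A2 A3 B1 B2 B3 m11_1 m11_2 m11_3 m12_1 m12_2 m12_3 m13_1 m13_2 m13_3 m22_1 m22_2 m22_3 m33_1 m33_2 m33_3 : ℤ}
    (C : Ctx2 n1 n2 n3 A1 A2 A3 B1 B2 B3 m11_1 m11_2 m11_3 m12_1 m12_2 m12_3 m13_1 m13_2 m13_3 m22_1 m22_2 m22_3 m33_1 m33_2 m33_3)
    (e0 : 0 < A1)
    (e1 : 0 < B3)
    (e2 : 0 < A2)
    (s1 : 2 * A1 + 1 * B1 ≤ m13_1 + m22_1 + m22_1)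
    (s2 : 2 * A2 + 1 * B2 ≤ m13_2 + m22_2 + m22_2)
    (s3 : 2 * A3 + 1 * B3 ≤ m13_3 + m22_3 + m22_3) : False := by
  have d7 : ((0 ≤ 0 + A1 - A2)) ∨ ((0 ≤ 1 - A2 + A3 - n3)) ∨ ((0 ≤ 0 - B1 + B2 - n2)) ∨ ((0 ≤ 1 + B2 - B3)) := by
    have h := C.tzpm
    clear C e0 e1 e2 s1 s2 s3
    omega
  have d8 : ((0 ≤ 0 - A1)) ∨ ((0 ≤ 0 - A1 + A2 - n2)) ∨ ((0 ≤ 0 - A2 + A3 - n3)) ∨ ((0 ≤ 0 + B1 - n1)) ∨ ((0 ≤ 0 + B1 - B2)) ∨ ((0 ≤ 0 + B2 - B3)) ∨ ((0 ≤ 1 - A1 + B1)) := by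
    have h := C.tpzm
    clear C e0 e1 e2 s1 s2 s3
    omega
  rcases d8 with g1 | g2 | g3 | g4 | g5 | g6 | g7
  · linarith only [g1, e0]
  · linarith only [g2, s2, C.o1, C.f13_0, C.f13_3, C.f22_4]
  · linarith only [g3, s3, C.f13_7, C.f22_4, C.f22_6]
  · linarith only [C.o0, C.a1, g4]
  · linarith only [C.o0, C.a2, g5, C.o1]
  · linarith only [g6, s2, C.f13_4, C.f22_4]
  · rcases d7 with g8 | g9 | g10 | g11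
    · linarith only [g8, s1, g7, C.f13_0, C.f22_1]
    · linarith only [s3, g9, C.f13_7, C.f22_4, C.f22_6]
    · linarith only [g10, s2, g7, C.f13_0, C.f13_3, C.f22_4]
    · linarith only [g11, s2, C.f13_4, C.f22_4]

theorem c2_13_22_22_k3 {n1 n2 n3 A1 A2 A3 B1 B2 B3 m11_1 m11_2 m11_3 m12_1 m12_2 m12_3 m13_1 m13_2 m13_3 m22_1 m22_2 m22_3 m33_1 m33_2 m33_3 : ℤ}
    (C : Ctx2 n1 n2 n3 A1 A2 A3 B1 B2 B3 m11_1 m11_2 m11_3 m12_1 m12_2 m12_3 m13_1 m13_2 m13_3 m22_1 m22_2 m22_3 m33_1 m33_2 m33_3)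
    (e0 : 0 < A1)
    (e1 : 0 < B3)
    (e2 : 0 < A2)
    (s1 : 3 * A1 + 0 * B1 ≤ m13_1 + m22_1 + m22_1)
    (s2 : 3 * A2 + 0 * B2 ≤ m13_2 + m22_2 + m22_2)
    (s3 : 3 * A3 + 0 * B3 ≤ m13_3 + m22_3 + m22_3) : False := by
  have d2 : ((0 ≤ 1 - A1 + m13_1) ∧ (0 ≤ -1 + A1 - m13_1)) ∨ ((0 ≤ 1 - B3 + m13_1) ∧ (0 ≤ -1 + B3 - m13_1)) := by
    have h := C.f13_2
    clear C e0 e1 e2 s1 s2 s3
    omega
  have d4 : ((0 ≤ 0 - m13_2 + m13_3 - n3) ∧ (0 ≤ 0 + m13_2 - m13_3 + n3)) ∨ ((0 ≤ 1 - B3 + m13_3) ∧ (0 ≤ -1 + B3 - m13_3)) := by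
    have h := C.f13_8
    clear C e0 e1 e2 s1 s2 s3
    omega
  have d7 : ((0 ≤ 0 - A1)) ∨ ((0 ≤ 0 - B3)) ∨ ((0 ≤ 0 - A2)) ∨ ((0 ≤ -1 + 2 * A1 - m13_1 - m22_1)) ∨ ((0 ≤ -1 + 2 * A2 - m13_2 - m22_2)) ∨ ((0 ≤ -1 + 2 * A3 - m13_3 - m22_3)) := by
    have h := C.p13_22A
    clear C e0 e1 e2 s1 s2 s3
    omega
  rcases d2 with ⟨g1, g2⟩ | ⟨g3, g4⟩
  · rcases d7 with g5 | g6 | g7 | g8 | g9 | g10
    · linarith only [g5, e0]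
    · linarith only [g6, e1]
    · linarith only [g7, e2]
    · linarith only [g8, s1, g1]
    · linarith only [g9, s2, C.f22_4]
    · rcases d4 with ⟨g11, g12⟩ | ⟨g13, g14⟩
      · linarith only [g11, s2, s3, C.f22_4, C.f22_6, g10]
      · linarith only [g13, s3, C.o2, g10]
  · linarith only [C.b4, s1, C.o1, C.f13_0, g3, C.f22_1]

theorem c2_13_22_33_k0 {n1 n2 n3 A1 A2 A3 B1 B2 B3 m11_1 m11_2 m11_3 m12_1 m12_2 m12_3 m13_1 m13_2 m13_3 m22_1 m22_2 m22_3 m33_1 m33_2 m33_3 : ℤ}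
    (C : Ctx2 n1 n2 n3 A1 A2 A3 B1 B2 B3 m11_1 m11_2 m11_3 m12_1 m12_2 m12_3 m13_1 m13_2 m13_3 m22_1 m22_2 m22_3 m33_1 m33_2 m33_3)
    (e0 : 0 < A1)
    (e1 : 0 < B3)
    (e2 : 0 < A2)
    (e3 : 0 < A3)
    (s1 : 0 * A1 + 3 * B1 ≤ m13_1 + m22_1 + m33_1)
    (s2 : 0 * A2 + 3 * B2 ≤ m13_2 + m22_2 + m33_2)
    (s3 : 0 * A3 + 3 * B3 ≤ m13_3 + m22_3 + m33_3) : False := by
  have d2 : ((0 ≤ 1 - A1 + m13_1) ∧ (0 ≤ -1 + A1 - m13_1)) ∨ ((0 ≤ 1 - B3 + m13_1) ∧ (0 ≤ -1 + B3 - m13_1)) := by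
    have h := C.f13_2
    clear C e0 e1 e2 e3 s1 s2 s3
    omega
  have d5 : ((0 ≤ 0 + m22_1 - n1) ∧ (0 ≤ 0 - m22_1 + n1)) ∨ ((0 ≤ 1 - A2 + m22_1) ∧ (0 ≤ -1 + A2 - m22_1)) := by
    have h := C.f22_2
    clear C e0 e1 e2 e3 s1 s2 s3
    omega
  have d10 : ((0 ≤ 0 - A1)) ∨ ((0 ≤ 0 - B3)) ∨ ((0 ≤ 0 - A2)) ∨ ((0 ≤ -1 + 2 * B1 - m13_1 - m22_1)) ∨ ((0 ≤ -1 + 2 * B2 - m13_2 - m22_2)) ∨ ((0 ≤ -1 + 2 * B3 - m13_3 - m22_3)) := by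
    have h := C.p13_22B
    clear C e0 e1 e2 e3 s1 s2 s3
    omega
  have d12 : ((0 ≤ 0 - A1 + A2 - n2)) ∨ ((0 ≤ 1 + A2 - A3)) ∨ ((0 ≤ 0 + B1 - B2)) ∨ ((0 ≤ 1 - B2 + B3 - n3)) := by
    have h := C.tzmp
    clear C e0 e1 e2 e3 s1 s2 s3
    omega
  rcases d12 with g1 | g2 | g3 | g4
  · linarith only [C.b3, g1, C.o0, C.o1]
  · rcases d10 with g5 | g6 | g7 | g8 | g9 | g10
    · linarith only [g5, e0]
    · linarith only [g6, e1]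
    · linarith only [g7, e2]
    · rcases d2 with ⟨g11, g12⟩ | ⟨g13, g14⟩
      · rcases d5 with ⟨g15, g16⟩ | ⟨g17, g18⟩
        · linarith only [C.o0, C.a1, g11, g15, g8]
        · linarith only [C.a2, C.o0, g11, g17, g8]
      · linarith only [C.a2, s2, g2, C.o1, C.f13_0, g13, C.f13_4, C.f22_4, C.f33_4]
    · linarith only [g9, s2, g2, C.o1, C.f33_4]
    · linarith only [g10, s2, s3, g2, C.o1, C.f13_4, C.f22_4, C.f33_4, C.f33_7]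
  · linarith only [C.a2, g3, C.o0, C.o1]
  · linarith only [C.a5, s3, g4, C.o1, C.f13_7, C.f22_4, C.f22_6, C.f33_7]

theorem c2_13_22_33_k1 {n1 n2 n3 A1 A2 A3 B1 B2 B3 m11_1 m11_2 m11_3 m12_1 m12_2 m12_3 m13_1 m13_2 m13_3 m22_1 m22_2 m22_3 m33_1 m33_2 m33_3 : ℤ}
    (C : Ctx2 n1 n2 n3 A1 A2 A3 B1 B2 B3 m11_1 m11_2 m11_3 m12_1 m12_2 m12_3 m13_1 m13_2 m13_3 m22_1 m22_2 m22_3 m33_1 m33_2 m33_3)
    (e0 : 0 < A1)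
    (e1 : 0 < B3)
    (e2 : 0 < A2)
    (e3 : 0 < A3)
    (s1 : 1 * A1 + 2 * B1 ≤ m13_1 + m22_1 + m33_1)
    (s2 : 1 * A2 + 2 * B2 ≤ m13_2 + m22_2 + m33_2)
    (s3 : 1 * A3 + 2 * B3 ≤ m13_3 + m22_3 + m33_3) : False := by
  have d2 : ((0 ≤ 1 - A1 + m13_1) ∧ (0 ≤ -1 + A1 - m13_1)) ∨ ((0 ≤ 1 - B3 + m13_1) ∧ (0 ≤ -1 + B3 - m13_1)) := by
    have h := C.f13_2
    clear C e0 e1 e2 e3 s1 s2 s3
    omega
  have d5 : ((0 ≤ 0 + m22_1 - n1) ∧ (0 ≤ 0 - m22_1 + n1)) ∨ ((0 ≤ 1 - A2 + m22_1) ∧ (0 ≤ -1 + A2 - m22_1)) := by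
    have h := C.f22_2
    clear C e0 e1 e2 e3 s1 s2 s3
    omega
  have d10 : ((0 ≤ 0 - A1)) ∨ ((0 ≤ 0 - B3)) ∨ ((0 ≤ 0 - A2)) ∨ ((0 ≤ -1 + 2 * B1 - m13_1 - m22_1)) ∨ ((0 ≤ -1 + 2 * B2 - m13_2 - m22_2)) ∨ ((0 ≤ -1 + 2 * B3 - m13_3 - m22_3)) := by
    have h := C.p13_22B
    clear C e0 e1 e2 e3 s1 s2 s3
    omega
  have d12 : ((0 ≤ 0 - A1 + A2 - n2)) ∨ ((0 ≤ 1 + A2 - A3)) ∨ ((0 ≤ 0 + B1 - B2)) ∨ ((0 ≤ 1 - B2 + B3 - n3)) := by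
    have h := C.tzmp
    clear C e0 e1 e2 e3 s1 s2 s3
    omega
  rcases d12 with g1 | g2 | g3 | g4
  · linarith only [C.b3, g1, C.o0, C.o1]
  · rcases d10 with g5 | g6 | g7 | g8 | g9 | g10
    · linarith only [g5, e0]
    · linarith only [g6, e1]
    · linarith only [g7, e2]
    · rcases d2 with ⟨g11, g12⟩ | ⟨g13, g14⟩
      · rcases d5 with ⟨g15, g16⟩ | ⟨g17, g18⟩
        · linarith only [C.o0, s1, g11, g15, C.f33_0, g8]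
        · linarith only [g17, s1, g2, C.o0, g11, C.f33_1, g8]
      · linarith only [C.f13_0, s1, s2, g2, C.o1, g13, C.f13_4, C.f22_4, C.f33_1, C.f33_4, g8]
    · linarith only [g9, s2, g2, C.f33_4]
    · linarith only [g10, s3, C.f33_7]
  · linarith only [C.a2, g3, C.o0, C.o1]
  · linarith only [C.f22_4, s3, g4, C.o1, C.f13_7, C.f22_6, C.f33_7]

theorem c2_13_22_33_k2 {n1 n2 n3 A1 A2 A3 B1 B2 B3 m11_1 m11_2 m11_3 m12_1 m12_2 m12_3 m13_1 m13_2 m13_3 m22_1 m22_2 m22_3 m33_1 m33_2 m33_3 : ℤ}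
    (C : Ctx2 n1 n2 n3 A1 A2 A3 B1 B2 B3 m11_1 m11_2 m11_3 m12_1 m12_2 m12_3 m13_1 m13_2 m13_3 m22_1 m22_2 m22_3 m33_1 m33_2 m33_3)
    (e0 : 0 < A1)
    (e1 : 0 < B3)
    (e2 : 0 < A2)
    (e3 : 0 < A3)
    (s1 : 2 * A1 + 1 * B1 ≤ m13_1 + m22_1 + m33_1)
    (s2 : 2 * A2 + 1 * B2 ≤ m13_2 + m22_2 + m33_2)
    (s3 : 2 * A3 + 1 * B3 ≤ m13_3 + m22_3 + m33_3) : False := by
  have d2 : ((0 ≤ 1 - A1 + m13_1) ∧ (0 ≤ -1 + A1 - m13_1)) ∨ ((0 ≤ 1 - B3 + m13_1) ∧ (0 ≤ -1 + B3 - m13_1)) := by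
    have h := C.f13_2
    clear C e0 e1 e2 e3 s1 s2 s3
    omega
  have d10 : ((0 ≤ 0 - A1)) ∨ ((0 ≤ 0 - B3)) ∨ ((0 ≤ 0 - A3)) ∨ ((0 ≤ -1 + 2 * A1 - m13_1 - m33_1)) ∨ ((0 ≤ -1 + 2 * A2 - m13_2 - m33_2)) ∨ ((0 ≤ -1 + 2 * A3 - m13_3 - m33_3)) := by
    have h := C.p13_33A
    clear C e0 e1 e2 e3 s1 s2 s3
    omega
  have d11 : ((0 ≤ 0 - A2)) ∨ ((0 ≤ 0 - A3)) ∨ ((0 ≤ -1 + 2 * A1 - m22_1 - m33_1)) ∨ ((0 ≤ -1 + 2 * A2 - m22_2 - m33_2)) ∨ ((0 ≤ -1 + 2 * A3 - m22_3 - m33_3)) := by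
    have h := C.p22_33A
    clear C e0 e1 e2 e3 s1 s2 s3
    omega
  have d12 : ((0 ≤ 0 - A1 + A2 - n2)) ∨ ((0 ≤ 1 + A2 - A3)) ∨ ((0 ≤ 0 + B1 - B2)) ∨ ((0 ≤ 1 - B2 + B3 - n3)) := by
    have h := C.tzmp
    clear C e0 e1 e2 e3 s1 s2 s3
    omega
  have d13 : ((0 ≤ 0 + A1 - A2)) ∨ ((0 ≤ 1 - A2 + A3 - n3)) ∨ ((0 ≤ 0 - B1 + B2 - n2)) ∨ ((0 ≤ 1 + B2 - B3)) := by
    have h := C.tzpm
    clear C e0 e1 e2 e3 s1 s2 s3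
    omega
  have d14 : ((0 ≤ 0 - A1)) ∨ ((0 ≤ 0 - A1 + A2 - n2)) ∨ ((0 ≤ 0 - A2 + A3 - n3)) ∨ ((0 ≤ 0 + B1 - n1)) ∨ ((0 ≤ 0 + B1 - B2)) ∨ ((0 ≤ 0 + B2 - B3)) ∨ ((0 ≤ 1 - A1 + B1)) := by
    have h := C.tpzm
    clear C e0 e1 e2 e3 s1 s2 s3
    omega
  rcases d2 with ⟨g1, g2⟩ | ⟨g3, g4⟩
  · rcases d14 with g5 | g6 | g7 | g8 | g9 | g10 | g11
    · linarith only [g5, e0]
    · linarith only [C.o0, g6, C.b3, C.o1]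
    · linarith only [g7, s3, C.f13_7, C.f22_4, C.f22_6, C.f33_7]
    · linarith only [C.a1, g8, C.o0]
    · linarith only [C.a2, g9, C.o0, C.o1]
    · rcases d12 with g12 | g13 | g14 | g15
      · linarith only [C.o0, s2, g12, C.b3, g10, C.o2, C.f13_4, C.f22_4, C.f33_4]
      · linarith only [g13, s2, g10, C.f13_4, C.f22_4, C.f33_4]
      · linarith only [C.a2, s2, g14, g10, C.o0, C.o2, C.f13_4, C.f22_4, C.f33_4]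
      · linarith only [g15, s2, s3, g10, C.f13_4, C.f13_7, C.f22_4, C.f22_6, C.f33_4, C.f33_7]
    · rcases d11 with g16 | g17 | g18 | g19 | g20
      · linarith only [g16, e2]
      · linarith only [g17, e3]
      · linarith only [g18, s1, g11, g2]
      · rcases d13 with g21 | g22 | g23 | g24
        · rcases d10 with g25 | g26 | g27 | g28 | g29 | g30
          · linarith only [g25, e0]
          · linarith only [g26, e1]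
          · linarith only [g27, e3]
          · linarith only [g28, s1, g21, g11, C.f22_1]
          · linarith only [g29, s2, C.o1, C.f22_4]
          · rcases d12 with g31 | g32 | g33 | g34
            · linarith only [C.b3, g31, C.o0, C.o1]
            · linarith only [g32, s1, g21, g11, g2, C.f22_1, C.f33_1]
            · linarith only [g33, C.a2, C.o0, C.o1]
            · linarith only [g34, s3, C.o1, C.f22_4, C.f22_6, g30]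
        · linarith only [C.f22_4, s3, g22, C.f13_7, C.f22_6, C.f33_7]
        · linarith only [g23, s2, g11, g2, C.f13_3, g19]
        · linarith only [g24, s2, C.f13_4, g19]
      · linarith only [g20, s3, C.f13_7]
  · linarith only [C.b4, C.a2, C.o1, C.f13_0, g3]

end Pool.Agent.Helper89.TQ
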