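import Pool.Agent.Helper89.TQ.Ctx

set_option autoImplicit false
set_option linter.all false
set_option maxHeartbeats 4000000

namespace Pool.Agent.Helper89.TQ

theorem c3_11_11_11_k0 {n1 n2 n3 A1 A2 A3 B1 B2 B3 m11_1 m11_2 m11_3 m22_1 m22_2 m22_3 m23_1 m23_2 m23_3 m33_1 m33_2 m33_3 : ℤ}
    (C : Ctx3 n1 n2 n3 A1 A2 A3 B1 B2 B3 m11_1 m11_2 m11_3 m22_1 m22_2 m22_3 m23_1 m23_2 m23_3 m33_1 m33_2 m33_3)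
    (e0 : 0 < B1)
    (s1 : 0 * A1 + 3 * B1 ≤ m11_1 + m11_1 + m11_1)
    (s2 : 0 * A2 + 3 * B2 ≤ m11_2 + m11_2 + m11_2)
    (s3 : 0 * A3 + 3 * B3 ≤ m11_3 + m11_3 + m11_3) : False := by
  linarith only [C.f11_0, s1]

theorem c3_11_11_11_k1 {n1 n2 n3 A1 A2 A3 B1 B2 B3 m11_1 m11_2 m11_3 m22_1 m22_2 m22_3 m23_1 m23_2 m23_3 m33_1 m33_2 m33_3 : ℤ}
    (C : Ctx3 n1 n2 n3 A1 A2 A3 B1 B2 B3 m11_1 m11_2 m11_3 m22_1 m22_2 m22_3 m23_1 m23_2 m23_3 m33_1 m33_2 m33_3)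
    (e0 : 0 < B1)
    (s1 : 1 * A1 + 2 * B1 ≤ m11_1 + m11_1 + m11_1)
    (s2 : 1 * A2 + 2 * B2 ≤ m11_2 + m11_2 + m11_2)
    (s3 : 1 * A3 + 2 * B3 ≤ m11_3 + m11_3 + m11_3) : False := by
  linarith only [C.f11_0, s1, C.o0]

theorem c3_11_11_11_k2 {n1 n2 n3 A1 A2 A3 B1 B2 B3 m11_1 m11_2 m11_3 m22_1 m22_2 m22_3 m23_1 m23_2 m23_3 m33_1 m33_2 m33_3 : ℤ}
    (C : Ctx3 n1 n2 n3 A1 A2 A3 B1 B2 B3 m11_1 m11_2 m11_3 m22_1 m22_2 m22_3 m23_1 m23_2 m23_3 m33_1 m33_2 m33_3)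
    (e0 : 0 < B1)
    (s1 : 2 * A1 + 1 * B1 ≤ m11_1 + m11_1 + m11_1)
    (s2 : 2 * A2 + 1 * B2 ≤ m11_2 + m11_2 + m11_2)
    (s3 : 2 * A3 + 1 * B3 ≤ m11_3 + m11_3 + m11_3) : False := by
  linarith only [C.f11_0, s1, C.o0]

theorem c3_11_11_11_k3 {n1 n2 n3 A1 A2 A3 B1 B2 B3 m11_1 m11_2 m11_3 m22_1 m22_2 m22_3 m23_1 m23_2 m23_3 m33_1 m33_2 m33_3 : ℤ}
    (C : Ctx3 n1 n2 n3 A1 A2 A3 B1 B2 B3 m11_1 m11_2 m11_3 m22_1 m22_2 m22_3 m23_1 m23_2 m23_3 m33_1 m33_2 m33_3)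
    (e0 : 0 < B1)
    (s1 : 3 * A1 + 0 * B1 ≤ m11_1 + m11_1 + m11_1)
    (s2 : 3 * A2 + 0 * B2 ≤ m11_2 + m11_2 + m11_2)
    (s3 : 3 * A3 + 0 * B3 ≤ m11_3 + m11_3 + m11_3) : False := by
  linarith only [C.f11_0, s1, C.o0]

theorem c3_11_11_22_k0 {n1 n2 n3 A1 A2 A3 B1 B2 B3 m11_1 m11_2 m11_3 m22_1 m22_2 m22_3 m23_1 m23_2 m23_3 m33_1 m33_2 m33_3 : ℤ}
    (C : Ctx3 n1 n2 n3 A1 A2 A3 B1 B2 B3 m11_1 m11_2 m11_3 m22_1 m22_2 m22_3 m23_1 m23_2 m23_3 m33_1 m33_2 m33_3)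
    (e0 : 0 < B1)
    (e1 : 0 < B2)
    (s1 : 0 * A1 + 3 * B1 ≤ m11_1 + m11_1 + m22_1)
    (s2 : 0 * A2 + 3 * B2 ≤ m11_2 + m11_2 + m22_2)
    (s3 : 0 * A3 + 3 * B3 ≤ m11_3 + m11_3 + m22_3) : False := by
  have d3 : ((0 ≤ 0 - m22_1 + m22_2 - n2) ∧ (0 ≤ 0 + m22_1 - m22_2 + n2)) ∨ ((0 ≤ 1 - B2 + m22_2) ∧ (0 ≤ -1 + B2 - m22_2)) := by
    have h := C.f22_5
    clear C e0 e1 s1 s2 s3
    omega
  have d4 : ((0 ≤ 0 - B1)) ∨ ((0 ≤ 0 - B2)) ∨ ((0 ≤ -1 + 2 * B1 - m11_1 - m22_1)) ∨ ((0 ≤ -1 + 2 * B2 - m11_2 - m22_2)) ∨ ((0 ≤ -1 + 2 * B3 - m11_3 - m22_3)) := by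
    have h := C.p11_22B
    clear C e0 e1 s1 s2 s3
    omega
  rcases d3 with ⟨g1, g2⟩ | ⟨g3, g4⟩
  · linarith only [s2, s1, C.f11_0, C.f11_1, g1, C.f22_4]
  · rcases d4 with g5 | g6 | g7 | g8 | g9
    · linarith only [g5, e0]
    · linarith only [g6, e1]
    · linarith only [g7, s1, C.f11_0]
    · linarith only [s2, g3, g8]
    · linarith only [C.b5, s3, g3, C.f22_6, g9]

theorem c3_11_11_22_k1 {n1 n2 n3 A1 A2 A3 B1 B2 B3 m11_1 m11_2 m11_3 m22_1 m22_2 m22_3 m23_1 m23_2 m23_3 m33_1 m33_2 m33_3 : ℤ}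
    (C : Ctx3 n1 n2 n3 A1 A2 A3 B1 B2 B3 m11_1 m11_2 m11_3 m22_1 m22_2 m22_3 m23_1 m23_2 m23_3 m33_1 m33_2 m33_3)
    (e0 : 0 < B1)
    (e1 : 0 < B2)
    (s1 : 1 * A1 + 2 * B1 ≤ m11_1 + m11_1 + m22_1)
    (s2 : 1 * A2 + 2 * B2 ≤ m11_2 + m11_2 + m22_2)
    (s3 : 1 * A3 + 2 * B3 ≤ m11_3 + m11_3 + m22_3) : False := by
  have d3 : ((0 ≤ 0 - m22_1 + m22_2 - n2) ∧ (0 ≤ 0 + m22_1 - m22_2 + n2)) ∨ ((0 ≤ 1 - B2 + m22_2) ∧ (0 ≤ -1 + B2 - m22_2)) := by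
    have h := C.f22_5
    clear C e0 e1 s1 s2 s3
    omega
  have d4 : ((0 ≤ 0 - B1)) ∨ ((0 ≤ 0 - B2)) ∨ ((0 ≤ -1 + 2 * B1 - m11_1 - m22_1)) ∨ ((0 ≤ -1 + 2 * B2 - m11_2 - m22_2)) ∨ ((0 ≤ -1 + 2 * B3 - m11_3 - m22_3)) := by
    have h := C.p11_22B
    clear C e0 e1 s1 s2 s3
    omega
  rcases d3 with ⟨g1, g2⟩ | ⟨g3, g4⟩
  · linarith only [g1, s1, s2, C.o0, C.o1, C.f11_0, C.f11_1, C.f22_4]
  · rcases d4 with g5 | g6 | g7 | g8 | g9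
    · linarith only [g5, e0]
    · linarith only [g6, e1]
    · linarith only [g7, s1, C.o0, C.f11_0]
    · linarith only [g8, s2, C.o1, g3]
    · linarith only [C.b5, s2, C.o1, C.f11_2, g3, C.f22_6, g9]

theorem c3_11_11_22_k2 {n1 n2 n3 A1 A2 A3 B1 B2 B3 m11_1 m11_2 m11_3 m22_1 m22_2 m22_3 m23_1 m23_2 m23_3 m33_1 m33_2 m33_3 : ℤ}
    (C : Ctx3 n1 n2 n3 A1 A2 A3 B1 B2 B3 m11_1 m11_2 m11_3 m22_1 m22_2 m22_3 m23_1 m23_2 m23_3 m33_1 m33_2 m33_3)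
    (e0 : 0 < B1)
    (e1 : 0 < B2)
    (s1 : 2 * A1 + 1 * B1 ≤ m11_1 + m11_1 + m22_1)
    (s2 : 2 * A2 + 1 * B2 ≤ m11_2 + m11_2 + m22_2)
    (s3 : 2 * A3 + 1 * B3 ≤ m11_3 + m11_3 + m22_3) : False := by
  have d3 : ((0 ≤ 0 - m22_1 + m22_2 - n2) ∧ (0 ≤ 0 + m22_1 - m22_2 + n2)) ∨ ((0 ≤ 1 - B2 + m22_2) ∧ (0 ≤ -1 + B2 - m22_2)) := by
    have h := C.f22_5
    clear C e0 e1 s1 s2 s3
    omega
  have d4 : ((0 ≤ 0 - B1)) ∨ ((0 ≤ 0 - B2)) ∨ ((0 ≤ -1 + 2 * B1 - m11_1 - m22_1)) ∨ ((0 ≤ -1 + 2 * B2 - m11_2 - m22_2)) ∨ ((0 ≤ -1 + 2 * B3 - m11_3 - m22_3)) := by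
    have h := C.p11_22B
    clear C e0 e1 s1 s2 s3
    omega
  rcases d3 with ⟨g1, g2⟩ | ⟨g3, g4⟩
  · linarith only [g1, s1, s2, C.o0, C.o1, C.f11_0, C.f11_1, C.f22_4]
  · rcases d4 with g5 | g6 | g7 | g8 | g9
    · linarith only [g5, e0]
    · linarith only [g6, e1]
    · linarith only [g7, s1, C.o0, C.f11_0]
    · linarith only [g8, s2, C.o1, g3]
    · linarith only [C.b5, s2, C.o1, C.f11_2, g3, C.f22_6, g9]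

theorem c3_11_11_22_k3 {n1 n2 n3 A1 A2 A3 B1 B2 B3 m11_1 m11_2 m11_3 m22_1 m22_2 m22_3 m23_1 m23_2 m23_3 m33_1 m33_2 m33_3 : ℤ}
    (C : Ctx3 n1 n2 n3 A1 A2 A3 B1 B2 B3 m11_1 m11_2 m11_3 m22_1 m22_2 m22_3 m23_1 m23_2 m23_3 m33_1 m33_2 m33_3)
    (e0 : 0 < B1)
    (e1 : 0 < B2)
    (s1 : 3 * A1 + 0 * B1 ≤ m11_1 + m11_1 + m22_1)
    (s2 : 3 * A2 + 0 * B2 ≤ m11_2 + m11_2 + m22_2)
    (s3 : 3 * A3 + 0 * B3 ≤ m11_3 + m11_3 + m22_3) : False := by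
  have d3 : ((0 ≤ 0 - m22_1 + m22_2 - n2) ∧ (0 ≤ 0 + m22_1 - m22_2 + n2)) ∨ ((0 ≤ 1 - B2 + m22_2) ∧ (0 ≤ -1 + B2 - m22_2)) := by
    have h := C.f22_5
    clear C e0 e1 s1 s2 s3
    omega
  have d4 : ((0 ≤ 0 - B1)) ∨ ((0 ≤ 0 - B2)) ∨ ((0 ≤ -1 + 2 * B1 - m11_1 - m22_1)) ∨ ((0 ≤ -1 + 2 * B2 - m11_2 - m22_2)) ∨ ((0 ≤ -1 + 2 * B3 - m11_3 - m22_3)) := by
    have h := C.p11_22B
    clear C e0 e1 s1 s2 s3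
    omega
  rcases d3 with ⟨g1, g2⟩ | ⟨g3, g4⟩
  · linarith only [g1, s1, s2, C.o0, C.o1, C.f11_0, C.f11_1, C.f22_4]
  · rcases d4 with g5 | g6 | g7 | g8 | g9
    · linarith only [g5, e0]
    · linarith only [g6, e1]
    · linarith only [g7, s1, C.o0, C.f11_0]
    · linarith only [g8, s2, C.o1, g3]
    · linarith only [C.b5, s2, C.o1, C.f11_2, g3, C.f22_6, g9]

theorem c3_11_11_23_k0 {n1 n2 n3 A1 A2 A3 B1 B2 B3 m11_1 m11_2 m11_3 m22_1 m22_2 m22_3 m23_1 m23_2 m23_3 m33_1 m33_2 m33_3 : ℤ}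
    (C : Ctx3 n1 n2 n3 A1 A2 A3 B1 B2 B3 m11_1 m11_2 m11_3 m22_1 m22_2 m22_3 m23_1 m23_2 m23_3 m33_1 m33_2 m33_3)
    (e0 : 0 < B1)
    (e1 : 0 < A2)
    (e2 : 0 < B3)
    (s1 : 0 * A1 + 3 * B1 ≤ m11_1 + m11_1 + m23_1)
    (s2 : 0 * A2 + 3 * B2 ≤ m11_2 + m11_2 + m23_2)
    (s3 : 0 * A3 + 3 * B3 ≤ m11_3 + m11_3 + m23_3) : False := by
  have d3 : ((0 ≤ 0 - m23_1 + m23_2 - n2) ∧ (0 ≤ 0 + m23_1 - m23_2 + n2)) ∨ ((0 ≤ 1 - A2 + m23_2) ∧ (0 ≤ -1 + A2 - m23_2)) ∨ ((0 ≤ 1 - B3 + m23_2) ∧ (0 ≤ -1 + B3 - m23_2)) := by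
    have h := C.f23_7
    clear C e0 e1 e2 s1 s2 s3
    omega
  have d4 : ((0 ≤ 0 - m23_2 + m23_3 - n3) ∧ (0 ≤ 0 + m23_2 - m23_3 + n3)) ∨ ((0 ≤ 1 - B3 + m23_3) ∧ (0 ≤ -1 + B3 - m23_3)) := by
    have h := C.f23_10
    clear C e0 e1 e2 s1 s2 s3
    omega
  have d5 : ((0 ≤ 0 - B1)) ∨ ((0 ≤ 0 - A2)) ∨ ((0 ≤ 0 - B3)) ∨ ((0 ≤ -1 + 2 * B1 - m11_1 - m23_1)) ∨ ((0 ≤ -1 + 2 * B2 - m11_2 - m23_2)) ∨ ((0 ≤ -1 + 2 * B3 - m11_3 - m23_3)) := by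
    have h := C.p11_23B
    clear C e0 e1 e2 s1 s2 s3
    omega
  rcases d3 with ⟨g1, g2⟩ | ⟨g3, g4⟩ | ⟨g5, g6⟩
  · linarith only [C.f23_5, s1, C.a3, C.o0, C.f11_0, g1]
  · rcases d5 with g7 | g8 | g9 | g10 | g11 | g12
    · linarith only [g7, e0]
    · linarith only [g8, e1]
    · linarith only [g9, e2]
    · linarith only [g10, s1, C.f11_0]
    · linarith only [s2, C.o1, g3, g11]
    · rcases d4 with ⟨g13, g14⟩ | ⟨g15, g16⟩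
      · linarith only [C.b5, s3, C.o1, g3, g13, g12]
      · linarith only [g15, s3, g12]
  · linarith only [g5, C.a4, C.o2, C.f23_5]

theorem c3_11_11_23_k1 {n1 n2 n3 A1 A2 A3 B1 B2 B3 m11_1 m11_2 m11_3 m22_1 m22_2 m22_3 m23_1 m23_2 m23_3 m33_1 m33_2 m33_3 : ℤ}
    (C : Ctx3 n1 n2 n3 A1 A2 A3 B1 B2 B3 m11_1 m11_2 m11_3 m22_1 m22_2 m22_3 m23_1 m23_2 m23_3 m33_1 m33_2 m33_3)
    (e0 : 0 < B1)
    (e1 : 0 < A2)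
    (e2 : 0 < B3)
    (s1 : 1 * A1 + 2 * B1 ≤ m11_1 + m11_1 + m23_1)
    (s2 : 1 * A2 + 2 * B2 ≤ m11_2 + m11_2 + m23_2)
    (s3 : 1 * A3 + 2 * B3 ≤ m11_3 + m11_3 + m23_3) : False := by
  have d3 : ((0 ≤ 0 - m23_1 + m23_2 - n2) ∧ (0 ≤ 0 + m23_1 - m23_2 + n2)) ∨ ((0 ≤ 1 - A2 + m23_2) ∧ (0 ≤ -1 + A2 - m23_2)) ∨ ((0 ≤ 1 - B3 + m23_2) ∧ (0 ≤ -1 + B3 - m23_2)) := by
    have h := C.f23_7
    clear C e0 e1 e2 s1 s2 s3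
    omega
  have d4 : ((0 ≤ 0 - m23_2 + m23_3 - n3) ∧ (0 ≤ 0 + m23_2 - m23_3 + n3)) ∨ ((0 ≤ 1 - B3 + m23_3) ∧ (0 ≤ -1 + B3 - m23_3)) := by
    have h := C.f23_10
    clear C e0 e1 e2 s1 s2 s3
    omega
  have d5 : ((0 ≤ 0 - B1)) ∨ ((0 ≤ 0 - A2)) ∨ ((0 ≤ 0 - B3)) ∨ ((0 ≤ -1 + 2 * B1 - m11_1 - m23_1)) ∨ ((0 ≤ -1 + 2 * B2 - m11_2 - m23_2)) ∨ ((0 ≤ -1 + 2 * B3 - m11_3 - m23_3)) := by
    have h := C.p11_23B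
    clear C e0 e1 e2 s1 s2 s3
    omega
  rcases d3 with ⟨g1, g2⟩ | ⟨g3, g4⟩ | ⟨g5, g6⟩
  · linarith only [C.a3, s1, C.f11_0, g1, C.f23_5]
  · rcases d5 with g7 | g8 | g9 | g10 | g11 | g12
    · linarith only [g7, e0]
    · linarith only [g8, e1]
    · linarith only [g9, e2]
    · linarith only [g10, s1, C.o0, C.f11_0]
    · linarith only [g11, s2, C.o1, g3]
    · rcases d4 with ⟨g13, g14⟩ | ⟨g15, g16⟩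
      · linarith only [s2, C.b5, C.o1, C.f11_2, g3, g13, g12]
      · linarith only [g15, s2, C.b5, C.f11_2, g4, g12]
  · linarith only [g5, C.a4, C.o2, C.f23_5]

theorem c3_11_11_23_k2 {n1 n2 n3 A1 A2 A3 B1 B2 B3 m11_1 m11_2 m11_3 m22_1 m22_2 m22_3 m23_1 m23_2 m23_3 m33_1 m33_2 m33_3 : ℤ}
    (C : Ctx3 n1 n2 n3 A1 A2 A3 B1 B2 B3 m11_1 m11_2 m11_3 m22_1 m22_2 m22_3 m23_1 m23_2 m23_3 m33_1 m33_2 m33_3)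
    (e0 : 0 < B1)
    (e1 : 0 < A2)
    (e2 : 0 < B3)
    (s1 : 2 * A1 + 1 * B1 ≤ m11_1 + m11_1 + m23_1)
    (s2 : 2 * A2 + 1 * B2 ≤ m11_2 + m11_2 + m23_2)
    (s3 : 2 * A3 + 1 * B3 ≤ m11_3 + m11_3 + m23_3) : False := by
  have d3 : ((0 ≤ 0 - m23_1 + m23_2 - n2) ∧ (0 ≤ 0 + m23_1 - m23_2 + n2)) ∨ ((0 ≤ 1 - A2 + m23_2) ∧ (0 ≤ -1 + A2 - m23_2)) ∨ ((0 ≤ 1 - B3 + m23_2) ∧ (0 ≤ -1 + B3 - m23_2)) := by
    have h := C.f23_7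
    clear C e0 e1 e2 s1 s2 s3
    omega
  have d4 : ((0 ≤ 0 - m23_2 + m23_3 - n3) ∧ (0 ≤ 0 + m23_2 - m23_3 + n3)) ∨ ((0 ≤ 1 - B3 + m23_3) ∧ (0 ≤ -1 + B3 - m23_3)) := by
    have h := C.f23_10
    clear C e0 e1 e2 s1 s2 s3
    omega
  have d5 : ((0 ≤ 0 - B1)) ∨ ((0 ≤ 0 - A2)) ∨ ((0 ≤ 0 - B3)) ∨ ((0 ≤ -1 + 2 * B1 - m11_1 - m23_1)) ∨ ((0 ≤ -1 + 2 * B2 - m11_2 - m23_2)) ∨ ((0 ≤ -1 + 2 * B3 - m11_3 - m23_3)) := by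
    have h := C.p11_23B
    clear C e0 e1 e2 s1 s2 s3
    omega
  rcases d3 with ⟨g1, g2⟩ | ⟨g3, g4⟩ | ⟨g5, g6⟩
  · linarith only [C.a3, s1, C.o0, C.f11_0, g1, C.f23_5]
  · rcases d5 with g7 | g8 | g9 | g10 | g11 | g12
    · linarith only [g7, e0]
    · linarith only [g8, e1]
    · linarith only [g9, e2]
    · linarith only [g10, s1, C.o0, C.f11_0]
    · linarith only [g11, s2, C.o1, g3]
    · rcases d4 with ⟨g13, g14⟩ | ⟨g15, g16⟩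
      · linarith only [C.b5, s2, C.o1, C.f11_2, g3, g13, g12]
      · linarith only [g15, s2, C.b5, C.o1, C.f11_2, g4, g12]
  · linarith only [g5, C.a4, C.o2, C.f23_5]

theorem c3_11_11_23_k3 {n1 n2 n3 A1 A2 A3 B1 B2 B3 m11_1 m11_2 m11_3 m22_1 m22_2 m22_3 m23_1 m23_2 m23_3 m33_1 m33_2 m33_3 : ℤ}
    (C : Ctx3 n1 n2 n3 A1 A2 A3 B1 B2 B3 m11_1 m11_2 m11_3 m22_1 m22_2 m22_3 m23_1 m23_2 m23_3 m33_1 m33_2 m33_3)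
    (e0 : 0 < B1)
    (e1 : 0 < A2)
    (e2 : 0 < B3)
    (s1 : 3 * A1 + 0 * B1 ≤ m11_1 + m11_1 + m23_1)
    (s2 : 3 * A2 + 0 * B2 ≤ m11_2 + m11_2 + m23_2)
    (s3 : 3 * A3 + 0 * B3 ≤ m11_3 + m11_3 + m23_3) : False := by
  have d3 : ((0 ≤ 0 - m23_1 + m23_2 - n2) ∧ (0 ≤ 0 + m23_1 - m23_2 + n2)) ∨ ((0 ≤ 1 - A2 + m23_2) ∧ (0 ≤ -1 + A2 - m23_2)) ∨ ((0 ≤ 1 - B3 + m23_2) ∧ (0 ≤ -1 + B3 - m23_2)) := by
    have h := C.f23_7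
    clear C e0 e1 e2 s1 s2 s3
    omega
  have d4 : ((0 ≤ 0 - m23_2 + m23_3 - n3) ∧ (0 ≤ 0 + m23_2 - m23_3 + n3)) ∨ ((0 ≤ 1 - B3 + m23_3) ∧ (0 ≤ -1 + B3 - m23_3)) := by
    have h := C.f23_10
    clear C e0 e1 e2 s1 s2 s3
    omega
  have d5 : ((0 ≤ 0 - B1)) ∨ ((0 ≤ 0 - A2)) ∨ ((0 ≤ 0 - B3)) ∨ ((0 ≤ -1 + 2 * A1 - m11_1 - m23_1)) ∨ ((0 ≤ -1 + 2 * A2 - m11_2 - m23_2)) ∨ ((0 ≤ -1 + 2 * A3 - m11_3 - m23_3)) := by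
    have h := C.p11_23A
    clear C e0 e1 e2 s1 s2 s3
    omega
  rcases d3 with ⟨g1, g2⟩ | ⟨g3, g4⟩ | ⟨g5, g6⟩
  · linarith only [g1, s1, s2, C.o0, C.f11_0, C.f11_1, C.f23_5]
  · rcases d5 with g7 | g8 | g9 | g10 | g11 | g12
    · linarith only [g7, e0]
    · linarith only [g8, e1]
    · linarith only [g9, e2]
    · linarith only [g10, s1, C.o0, C.f11_0]
    · linarith only [g11, s2, g3]
    · rcases d4 with ⟨g13, g14⟩ | ⟨g15, g16⟩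
      · linarith only [C.a5, s3, g3, g13, g12]
      · linarith only [g15, s2, C.b5, C.o1, C.o2, C.f11_2, g4, g12]
  · linarith only [g5, C.a4, C.o2, C.f23_5]

theorem c3_11_11_33_k0 {n1 n2 n3 A1 A2 A3 B1 B2 B3 m11_1 m11_2 m11_3 m22_1 m22_2 m22_3 m23_1 m23_2 m23_3 m33_1 m33_2 m33_3 : ℤ}
    (C : Ctx3 n1 n2 n3 A1 A2 A3 B1 B2 B3 m11_1 m11_2 m11_3 m22_1 m22_2 m22_3 m23_1 m23_2 m23_3 m33_1 m33_2 m33_3)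
    (e0 : 0 < B1)
    (e1 : 0 < A3)
    (s1 : 0 * A1 + 3 * B1 ≤ m11_1 + m11_1 + m33_1)
    (s2 : 0 * A2 + 3 * B2 ≤ m11_2 + m11_2 + m33_2)
    (s3 : 0 * A3 + 3 * B3 ≤ m11_3 + m11_3 + m33_3) : False := by
  have d0 : ((0 ≤ -1 + A1) ∧ (0 ≤ -1 + A1 - A2 + n2)) ∨ ((0 ≤ -1 + B1) ∧ (0 ≤ -1 + B1 - B2 + n2)) := by
    have h := C.t12
    clear C e0 e1 s1 s2 s3
    omega
  have d2 : ((0 ≤ 0 + m23_1 - n1) ∧ (0 ≤ 0 - m23_1 + n1)) ∨ ((0 ≤ 1 - A2 + m23_1) ∧ (0 ≤ -1 + A2 - m23_1)) ∨ ((0 ≤ 1 - B3 + m23_1) ∧ (0 ≤ -1 + B3 - m23_1)) := by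
    have h := C.f23_3
    clear C e0 e1 s1 s2 s3
    omega
  have d3 : ((0 ≤ 0 - m23_1 + m23_2 - n2) ∧ (0 ≤ 0 + m23_1 - m23_2 + n2)) ∨ ((0 ≤ 1 - A2 + m23_2) ∧ (0 ≤ -1 + A2 - m23_2)) ∨ ((0 ≤ 1 - B3 + m23_2) ∧ (0 ≤ -1 + B3 - m23_2)) := by
    have h := C.f23_7
    clear C e0 e1 s1 s2 s3
    omega
  have d4 : ((0 ≤ 0 - m23_2 + m23_3 - n3) ∧ (0 ≤ 0 + m23_2 - m23_3 + n3)) ∨ ((0 ≤ 1 - B3 + m23_3) ∧ (0 ≤ -1 + B3 - m23_3)) := by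
    have h := C.f23_10
    clear C e0 e1 s1 s2 s3
    omega
  have d6 : ((0 ≤ 0 - m33_1 + m33_2 - n2) ∧ (0 ≤ 0 + m33_1 - m33_2 + n2)) ∨ ((0 ≤ 1 - A3 + m33_2) ∧ (0 ≤ -1 + A3 - m33_2)) := by
    have h := C.f33_5
    clear C e0 e1 s1 s2 s3
    omega
  have d7 : ((0 ≤ 0 - m33_2 + m33_3 - n3) ∧ (0 ≤ 0 + m33_2 - m33_3 + n3)) ∨ ((0 ≤ 1 - A3 + m33_3) ∧ (0 ≤ -1 + A3 - m33_3)) := by
    have h := C.f33_8
    clear C e0 e1 s1 s2 s3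
    omega
  have d8 : ((0 ≤ 0 - B1)) ∨ ((0 ≤ 0 - A2)) ∨ ((0 ≤ 0 - B3)) ∨ ((0 ≤ -1 + 2 * B1 - m11_1 - m23_1)) ∨ ((0 ≤ -1 + 2 * B2 - m11_2 - m23_2)) ∨ ((0 ≤ -1 + 2 * B3 - m11_3 - m23_3)) := by
    have h := C.p11_23B
    clear C e0 e1 s1 s2 s3
    omega
  have d9 : ((0 ≤ 0 - B1)) ∨ ((0 ≤ 0 - A3)) ∨ ((0 ≤ -1 + 2 * A1 - m11_1 - m33_1)) ∨ ((0 ≤ -1 + 2 * A2 - m11_2 - m33_2)) ∨ ((0 ≤ -1 + 2 * A3 - m11_3 - m33_3)) := by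
    have h := C.p11_33A
    clear C e0 e1 s1 s2 s3
    omega
  have d11 : ((0 ≤ 0 + A1 - n1)) ∨ ((0 ≤ 0 + A1 - A2)) ∨ ((0 ≤ 0 + A2 - A3)) ∨ ((0 ≤ 0 - B1)) ∨ ((0 ≤ 0 - B1 + B2 - n2)) ∨ ((0 ≤ 0 - B2 + B3 - n3)) := by
    have h := C.tmzp
    clear C e0 e1 s1 s2 s3
    omega
  have d12 : ((0 ≤ 0 + A1 - n1)) ∨ ((0 ≤ 1 + A1 - A2)) ∨ ((0 ≤ 0 - B1)) ∨ ((0 ≤ 1 - B1 + B2 - n2)) := by
    have h := C.tmpp
    clear C e0 e1 s1 s2 s3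
    omega
  rcases d11 with g1 | g2 | g3 | g4 | g5 | g6
  · linarith only [g1, s1, C.o0, C.f11_0, C.f33_0]
  · linarith only [g2, C.b2, C.o0, C.o1]
  · rcases d12 with g7 | g8 | g9 | g10
    · linarith only [g7, s1, C.o0, C.f11_0, C.f33_0]
    · linarith only [g8, s1, g3, C.o0, C.f11_0, C.f33_1]
    · linarith only [g9, e0]
    · rcases d0 with ⟨g11, g12⟩ | ⟨g13, g14⟩
      · linarith only [g12, g10, C.o0, C.o1]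
      · rcases d6 with ⟨g15, g16⟩ | ⟨g17, g18⟩
        · linarith only [C.a3, s1, g3, C.o0, C.f11_0, g15, C.f33_4]
        · rcases d7 with ⟨g19, g20⟩ | ⟨g21, g22⟩
          · linarith only [C.f33_7, s2, s3, g10, C.o2, C.f11_0, C.f11_1, C.f11_2, g19]
          · rcases d2 with ⟨g23, g24⟩ | ⟨g25, g26⟩ | ⟨g27, g28⟩
            · rcases d3 with ⟨g29, g30⟩ | ⟨g31, g32⟩ | ⟨g33, g34⟩
              · linarith only [C.a3, s1, C.o0, C.f11_0, g23, g29, C.f23_5, C.f33_0]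
              · rcases d8 with g35 | g36 | g37 | g38 | g39 | g40
                · linarith only [g35, g13]
                · linarith only [g36, g13, s1, g3, C.f11_0, C.f33_1]
                · linarith only [g37, g13, s1, C.o2, C.f11_0, C.f33_1]
                · linarith only [g38, s1, C.f11_0, g23, C.f33_0]
                · linarith only [g39, s2, g3, g10, C.f11_0, C.f11_1, g31, g18]
                · rcases d4 with ⟨g41, g42⟩ | ⟨g43, g44⟩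
                  · linarith only [g41, s2, s3, g3, g10, C.o2, C.f11_0, C.f11_1, C.f11_2, g31, g18, g22, g40]
                  · linarith only [g43, s3, C.o2, g22, g40]
              · linarith only [g33, C.a4, C.o2, C.f23_5]
            · rcases d3 with ⟨g45, g46⟩ | ⟨g47, g48⟩ | ⟨g49, g50⟩
              · linarith only [g25, s1, C.a3, g3, C.o0, C.f11_0, g45, C.f23_5, C.f33_1]
              · rcases d8 with g51 | g52 | g53 | g54 | g55 | g56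
                · linarith only [g51, g13]
                · linarith only [g52, g13, s1, g3, C.f11_0, C.f33_1]
                · linarith only [g53, g13, s1, C.o2, C.f11_0, C.f33_1]
                · linarith only [g54, s1, g3, C.f11_0, g25, C.f33_1]
                · linarith only [g55, s2, g3, g10, C.f11_0, C.f11_1, g47, g18]
                · rcases d4 with ⟨g57, g58⟩ | ⟨g59, g60⟩
                  · linarith only [g57, s2, s3, g3, g10, C.o2, C.f11_0, C.f11_1, C.f11_2, g47, g18, g22, g56]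
                  · linarith only [g59, s3, C.o2, g22, g56]
              · linarith only [g49, C.a4, C.o2, C.f23_5]
            · linarith only [C.f23_1, C.a4, C.o2, g27]
  · linarith only [g4, e0]
  · linarith only [C.a3, g5, C.o0, C.o1]
  · rcases d12 with g61 | g62 | g63 | g64
    · linarith only [g61, s1, C.o0, C.f11_0, C.f33_0]
    · rcases d9 with g65 | g66 | g67 | g68 | g69
      · linarith only [g65, e0]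
      · linarith only [g66, e1]
      · linarith only [g67, s1, C.o0, C.f11_0]
      · rcases d6 with ⟨g70, g71⟩ | ⟨g72, g73⟩
        · linarith only [C.a3, s1, C.o0, C.f11_0, C.f11_1, g70, g68]
        · linarith only [C.f33_1, s1, g62, C.a3, C.o0, C.f11_0, C.f11_1, g72, g68]
      · rcases d7 with ⟨g74, g75⟩ | ⟨g76, g77⟩
        · rcases d6 with ⟨g78, g79⟩ | ⟨g80, g81⟩
          · linarith only [g78, s1, s3, C.o2, C.f11_0, C.f11_1, C.f11_2, g74, g69]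
          · linarith only [g80, s1, s3, g62, C.b5, C.o0, C.o1, C.o2, C.f11_0, C.f33_1, g74, g69]
        · linarith only [g76, s3, C.o2, g69]
    · linarith only [g63, e0]
    · linarith only [C.f33_7, s3, g64, g6, C.o2, C.f11_0, C.f11_1, C.f11_2]

theorem c3_11_11_33_k1 {n1 n2 n3 A1 A2 A3 B1 B2 B3 m11_1 m11_2 m11_3 m22_1 m22_2 m22_3 m23_1 m23_2 m23_3 m33_1 m33_2 m33_3 : ℤ}
    (C : Ctx3 n1 n2 n3 A1 A2 A3 B1 B2 B3 m11_1 m11_2 m11_3 m22_1 m22_2 m22_3 m23_1 m23_2 m23_3 m33_1 m33_2 m33_3)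
    (e0 : 0 < B1)
    (e1 : 0 < A3)
    (s1 : 1 * A1 + 2 * B1 ≤ m11_1 + m11_1 + m33_1)
    (s2 : 1 * A2 + 2 * B2 ≤ m11_2 + m11_2 + m33_2)
    (s3 : 1 * A3 + 2 * B3 ≤ m11_3 + m11_3 + m33_3) : False := by
  have d3 : ((0 ≤ 0 - m33_1 + m33_2 - n2) ∧ (0 ≤ 0 + m33_1 - m33_2 + n2)) ∨ ((0 ≤ 1 - A3 + m33_2) ∧ (0 ≤ -1 + A3 - m33_2)) := by
    have h := C.f33_5
    clear C e0 e1 s1 s2 s3
    omega
  have d4 : ((0 ≤ 0 - m33_2 + m33_3 - n3) ∧ (0 ≤ 0 + m33_2 - m33_3 + n3)) ∨ ((0 ≤ 1 - A3 + m33_3) ∧ (0 ≤ -1 + A3 - m33_3)) := by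
    have h := C.f33_8
    clear C e0 e1 s1 s2 s3
    omega
  have d5 : ((0 ≤ 0 - B1)) ∨ ((0 ≤ 0 - A3)) ∨ ((0 ≤ -1 + 2 * A1 - m11_1 - m33_1)) ∨ ((0 ≤ -1 + 2 * A2 - m11_2 - m33_2)) ∨ ((0 ≤ -1 + 2 * A3 - m11_3 - m33_3)) := by
    have h := C.p11_33A
    clear C e0 e1 s1 s2 s3
    omega
  have d7 : ((0 ≤ 0 + A1 - n1)) ∨ ((0 ≤ 0 + A1 - A2)) ∨ ((0 ≤ 0 + A2 - A3)) ∨ ((0 ≤ 0 - B1)) ∨ ((0 ≤ 0 - B1 + B2 - n2)) ∨ ((0 ≤ 0 - B2 + B3 - n3)) := by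
    have h := C.tmzp
    clear C e0 e1 s1 s2 s3
    omega
  have d8 : ((0 ≤ 0 + A1 - n1)) ∨ ((0 ≤ 1 + A1 - A2)) ∨ ((0 ≤ 0 - B1)) ∨ ((0 ≤ 1 - B1 + B2 - n2)) := by
    have h := C.tmpp
    clear C e0 e1 s1 s2 s3
    omega
  rcases d7 with g1 | g2 | g3 | g4 | g5 | g6
  · linarith only [g1, s1, C.f11_0, C.f33_0]
  · linarith only [g2, C.b2, C.o0, C.o1]
  · rcases d8 with g7 | g8 | g9 | g10
    · linarith only [g7, s1, C.f11_0, C.f33_0]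
    · linarith only [g8, s1, g3, C.f11_0, C.f33_1]
    · linarith only [g9, e0]
    · linarith only [C.f33_4, s2, g3, g10, C.f11_0, C.f11_1]
  · linarith only [g4, e0]
  · linarith only [C.a3, g5, C.o0, C.o1]
  · rcases d8 with g11 | g12 | g13 | g14
    · linarith only [g11, s1, C.f11_0, C.f33_0]
    · rcases d5 with g15 | g16 | g17 | g18 | g19
      · linarith only [g15, e0]
      · linarith only [g16, e1]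
      · linarith only [g17, s1, C.o0, C.f11_0]
      · rcases d3 with ⟨g20, g21⟩ | ⟨g22, g23⟩
        · linarith only [s2, s1, g12, C.b2, C.o0, C.f11_0, C.f11_1, g20, g18]
        · linarith only [C.f33_1, s1, s2, g12, C.b2, C.o0, C.f11_0, g22, g18]
      · rcases d4 with ⟨g24, g25⟩ | ⟨g26, g27⟩
        · rcases d3 with ⟨g28, g29⟩ | ⟨g30, g31⟩
          · linarith only [g28, s1, s2, C.b5, C.o0, C.o1, C.o2, C.f11_0, C.f11_1, C.f11_2, g24, g19]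
          · linarith only [g30, s1, s2, g12, C.b5, C.o1, C.o2, C.f11_0, C.f11_2, C.f33_1, g24, g19]
        · linarith only [s3, C.o2, g26, g19]
    · linarith only [g13, e0]
    · linarith only [C.f33_7, s3, g14, g6, C.f11_0, C.f11_1, C.f11_2]

theorem c3_11_11_33_k2 {n1 n2 n3 A1 A2 A3 B1 B2 B3 m11_1 m11_2 m11_3 m22_1 m22_2 m22_3 m23_1 m23_2 m23_3 m33_1 m33_2 m33_3 : ℤ}
    (C : Ctx3 n1 n2 n3 A1 A2 A3 B1 B2 B3 m11_1 m11_2 m11_3 m22_1 m22_2 m22_3 m23_1 m23_2 m23_3 m33_1 m33_2 m33_3)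
    (e0 : 0 < B1)
    (e1 : 0 < A3)
    (s1 : 2 * A1 + 1 * B1 ≤ m11_1 + m11_1 + m33_1)
    (s2 : 2 * A2 + 1 * B2 ≤ m11_2 + m11_2 + m33_2)
    (s3 : 2 * A3 + 1 * B3 ≤ m11_3 + m11_3 + m33_3) : False := by
  have d3 : ((0 ≤ 0 - m33_1 + m33_2 - n2) ∧ (0 ≤ 0 + m33_1 - m33_2 + n2)) ∨ ((0 ≤ 1 - A3 + m33_2) ∧ (0 ≤ -1 + A3 - m33_2)) := by
    have h := C.f33_5
    clear C e0 e1 s1 s2 s3
    omega
  have d4 : ((0 ≤ 0 - m33_2 + m33_3 - n3) ∧ (0 ≤ 0 + m33_2 - m33_3 + n3)) ∨ ((0 ≤ 1 - A3 + m33_3) ∧ (0 ≤ -1 + A3 - m33_3)) := by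
    have h := C.f33_8
    clear C e0 e1 s1 s2 s3
    omega
  have d5 : ((0 ≤ 0 - B1)) ∨ ((0 ≤ 0 - A3)) ∨ ((0 ≤ -1 + 2 * A1 - m11_1 - m33_1)) ∨ ((0 ≤ -1 + 2 * A2 - m11_2 - m33_2)) ∨ ((0 ≤ -1 + 2 * A3 - m11_3 - m33_3)) := by
    have h := C.p11_33A
    clear C e0 e1 s1 s2 s3
    omega
  have d7 : ((0 ≤ 0 + A1 - n1)) ∨ ((0 ≤ 1 + A1 - A2)) ∨ ((0 ≤ 0 - B1)) ∨ ((0 ≤ 1 - B1 + B2 - n2)) := by
    have h := C.tmpp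
    clear C e0 e1 s1 s2 s3
    omega
  rcases d5 with g1 | g2 | g3 | g4 | g5
  · linarith only [g1, e0]
  · linarith only [g2, e1]
  · linarith only [g3, s1, C.f11_0]
  · rcases d7 with g6 | g7 | g8 | g9
    · linarith only [g6, s1, C.o0, C.f11_0, C.f33_0]
    · rcases d3 with ⟨g10, g11⟩ | ⟨g12, g13⟩
      · linarith only [C.a3, s1, C.f11_0, C.f11_1, g10, g4]
      · linarith only [g12, s1, s2, g7, C.b2, C.f11_0, C.f33_1, g4]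
    · linarith only [g8, e0]
    · linarith only [g4, s2, g9, C.f11_0, C.f11_1]
  · rcases d4 with ⟨g14, g15⟩ | ⟨g16, g17⟩
    · rcases d3 with ⟨g18, g19⟩ | ⟨g20, g21⟩
      · linarith only [s3, s1, C.o0, C.o2, C.f11_0, C.f11_1, C.f11_2, g18, g14, g5]
      · linarith only [C.a4, s2, C.b5, C.o1, C.o2, C.f11_2, g20, g14, g5]
    · linarith only [s3, C.o2, g16, g5]

theorem c3_11_11_33_k3 {n1 n2 n3 A1 A2 A3 B1 B2 B3 m11_1 m11_2 m11_3 m22_1 m22_2 m22_3 m23_1 m23_2 m23_3 m33_1 m33_2 m33_3 : ℤ}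
    (C : Ctx3 n1 n2 n3 A1 A2 A3 B1 B2 B3 m11_1 m11_2 m11_3 m22_1 m22_2 m22_3 m23_1 m23_2 m23_3 m33_1 m33_2 m33_3)
    (e0 : 0 < B1)
    (e1 : 0 < A3)
    (s1 : 3 * A1 + 0 * B1 ≤ m11_1 + m11_1 + m33_1)
    (s2 : 3 * A2 + 0 * B2 ≤ m11_2 + m11_2 + m33_2)
    (s3 : 3 * A3 + 0 * B3 ≤ m11_3 + m11_3 + m33_3) : False := by
  have d3 : ((0 ≤ 0 - m33_1 + m33_2 - n2) ∧ (0 ≤ 0 + m33_1 - m33_2 + n2)) ∨ ((0 ≤ 1 - A3 + m33_2) ∧ (0 ≤ -1 + A3 - m33_2)) := by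
    have h := C.f33_5
    clear C e0 e1 s1 s2 s3
    omega
  have d4 : ((0 ≤ 0 - m33_2 + m33_3 - n3) ∧ (0 ≤ 0 + m33_2 - m33_3 + n3)) ∨ ((0 ≤ 1 - A3 + m33_3) ∧ (0 ≤ -1 + A3 - m33_3)) := by
    have h := C.f33_8
    clear C e0 e1 s1 s2 s3
    omega
  have d5 : ((0 ≤ 0 - B1)) ∨ ((0 ≤ 0 - A3)) ∨ ((0 ≤ -1 + 2 * A1 - m11_1 - m33_1)) ∨ ((0 ≤ -1 + 2 * A2 - m11_2 - m33_2)) ∨ ((0 ≤ -1 + 2 * A3 - m11_3 - m33_3)) := by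
    have h := C.p11_33A
    clear C e0 e1 s1 s2 s3
    omega
  rcases d5 with g1 | g2 | g3 | g4 | g5
  · linarith only [g1, e0]
  · linarith only [g2, e1]
  · linarith only [g3, s1, C.o0, C.f11_0]
  · rcases d3 with ⟨g6, g7⟩ | ⟨g8, g9⟩
    · linarith only [g6, s1, s2, C.o0, C.f11_0, C.f11_1, g4]
    · linarith only [g8, s2, C.a4, g4]
  · rcases d4 with ⟨g10, g11⟩ | ⟨g12, g13⟩
    · rcases d3 with ⟨g14, g15⟩ | ⟨g16, g17⟩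
      · linarith only [s3, s1, C.o0, C.f11_0, C.f11_1, C.f11_2, g14, g10, g5]
      · linarith only [g16, s2, C.a4, C.b5, C.o1, C.o2, C.f11_2, g10, g5]
    · linarith only [s3, g12, g5]

end Pool.Agent.Helper89.TQ
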