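import Pool.Agent.Helper89.TQ.Base

set_option autoImplicit false
set_option linter.all false
set_option maxHeartbeats 4000000

namespace Pool.Agent.Helper89.TQ

theorem g3_11 {n1 n2 n3 A1 A2 A3 B1 B2 B3 m11_1 m11_2 m11_3 : ℤ}
    (h0 : 0 ≤ A1)
    (h1 : A1 ≤ n1)
    (h2 : A1 ≤ A2)
    (h3 : A2 ≤ A1 + n2)
    (h4 : A2 ≤ A3)
    (h5 : A3 ≤ A2 + n3)
    (h6 : 0 ≤ B1)
    (h7 : B1 ≤ n1)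
    (h8 : B1 ≤ B2)
    (h9 : B2 ≤ B1 + n2)
    (h10 : B2 ≤ B3)
    (h11 : B3 ≤ B2 + n3)
    (h12 : A1 = B1)
    (h13 : A2 > B2)
    (h14 : A3 < B3)
    (f0 : m11_1 = B1 - 1)
    (f1 : m11_2 = m11_1 + n2)
    (f2 : m11_3 = m11_2 + n3)
    (e0 : 0 < B1) :
    Bx n1 n2 n3 m11_1 m11_2 m11_3 ∧ Ls A1 A2 A3 B1 B2 B3 m11_1 m11_2 m11_3 := by
  unfold Bx Ls; omega

theorem g3_22 {n1 n2 n3 A1 A2 A3 B1 B2 B3 m22_1 m22_2 m22_3 : ℤ}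
    (h0 : 0 ≤ A1)
    (h1 : A1 ≤ n1)
    (h2 : A1 ≤ A2)
    (h3 : A2 ≤ A1 + n2)
    (h4 : A2 ≤ A3)
    (h5 : A3 ≤ A2 + n3)
    (h6 : 0 ≤ B1)
    (h7 : B1 ≤ n1)
    (h8 : B1 ≤ B2)
    (h9 : B2 ≤ B1 + n2)
    (h10 : B2 ≤ B3)
    (h11 : B3 ≤ B2 + n3)
    (h12 : A1 = B1)
    (h13 : A2 > B2)
    (h14 : A3 < B3)
    (f0 : m22_1 ≤ n1)
    (f1 : m22_1 ≤ B2 - 1)
    (f2 : m22_1 = n1 ∨ m22_1 = B2 - 1)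
    (f3 : m22_2 ≤ m22_1 + n2)
    (f4 : m22_2 ≤ B2 - 1)
    (f5 : m22_2 = m22_1 + n2 ∨ m22_2 = B2 - 1)
    (f6 : m22_3 = m22_2 + n3)
    (e0 : 0 < B2) :
    Bx n1 n2 n3 m22_1 m22_2 m22_3 ∧ Ls A1 A2 A3 B1 B2 B3 m22_1 m22_2 m22_3 := by
  unfold Bx Ls; omega

theorem g3_23 {n1 n2 n3 A1 A2 A3 B1 B2 B3 m23_1 m23_2 m23_3 : ℤ}
    (h0 : 0 ≤ A1)
    (h1 : A1 ≤ n1)
    (h2 : A1 ≤ A2)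
    (h3 : A2 ≤ A1 + n2)
    (h4 : A2 ≤ A3)
    (h5 : A3 ≤ A2 + n3)
    (h6 : 0 ≤ B1)
    (h7 : B1 ≤ n1)
    (h8 : B1 ≤ B2)
    (h9 : B2 ≤ B1 + n2)
    (h10 : B2 ≤ B3)
    (h11 : B3 ≤ B2 + n3)
    (h12 : A1 = B1)
    (h13 : A2 > B2)
    (h14 : A3 < B3)
    (f0 : m23_1 ≤ n1)
    (f1 : m23_1 ≤ A2 - 1)
    (f2 : m23_1 ≤ B3 - 1)
    (f3 : m23_1 = n1 ∨ m23_1 = A2 - 1 ∨ m23_1 = B3 - 1)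
    (f4 : m23_2 ≤ m23_1 + n2)
    (f5 : m23_2 ≤ A2 - 1)
    (f6 : m23_2 ≤ B3 - 1)
    (f7 : m23_2 = m23_1 + n2 ∨ m23_2 = A2 - 1 ∨ m23_2 = B3 - 1)
    (f8 : m23_3 ≤ m23_2 + n3)
    (f9 : m23_3 ≤ B3 - 1)
    (f10 : m23_3 = m23_2 + n3 ∨ m23_3 = B3 - 1)
    (e0 : 0 < A2)
    (e1 : 0 < B3) :
    Bx n1 n2 n3 m23_1 m23_2 m23_3 ∧ Ls A1 A2 A3 B1 B2 B3 m23_1 m23_2 m23_3 := by
  unfold Bx Ls; omega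

theorem g3_33 {n1 n2 n3 A1 A2 A3 B1 B2 B3 m33_1 m33_2 m33_3 : ℤ}
    (h0 : 0 ≤ A1)
    (h1 : A1 ≤ n1)
    (h2 : A1 ≤ A2)
    (h3 : A2 ≤ A1 + n2)
    (h4 : A2 ≤ A3)
    (h5 : A3 ≤ A2 + n3)
    (h6 : 0 ≤ B1)
    (h7 : B1 ≤ n1)
    (h8 : B1 ≤ B2)
    (h9 : B2 ≤ B1 + n2)
    (h10 : B2 ≤ B3)
    (h11 : B3 ≤ B2 + n3)
    (h12 : A1 = B1)
    (h13 : A2 > B2)
    (h14 : A3 < B3)
    (f0 : m33_1 ≤ n1)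
    (f1 : m33_1 ≤ A3 - 1)
    (f2 : m33_1 = n1 ∨ m33_1 = A3 - 1)
    (f3 : m33_2 ≤ m33_1 + n2)
    (f4 : m33_2 ≤ A3 - 1)
    (f5 : m33_2 = m33_1 + n2 ∨ m33_2 = A3 - 1)
    (f6 : m33_3 ≤ m33_2 + n3)
    (f7 : m33_3 ≤ A3 - 1)
    (f8 : m33_3 = m33_2 + n3 ∨ m33_3 = A3 - 1)
    (e0 : 0 < A3) :
    Bx n1 n2 n3 m33_1 m33_2 m33_3 ∧ Ls A1 A2 A3 B1 B2 B3 m33_1 m33_2 m33_3 := by
  unfold Bx Ls; omega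

theorem exctx3 {n1 n2 n3 A1 A2 A3 B1 B2 B3 : ℤ}
    (h0 : 0 ≤ A1)
    (h1 : A1 ≤ n1)
    (h2 : A1 ≤ A2)
    (h3 : A2 ≤ A1 + n2)
    (h4 : A2 ≤ A3)
    (h5 : A3 ≤ A2 + n3)
    (h6 : 0 ≤ B1)
    (h7 : B1 ≤ n1)
    (h8 : B1 ≤ B2)
    (h9 : B2 ≤ B1 + n2)
    (h10 : B2 ≤ B3)
    (h11 : B3 ≤ B2 + n3)
    (h12 : A1 = B1)
    (h13 : A2 > B2)
    (h14 : A3 < B3)
    (h15 : (0 < A1 ∧ A2 < A1 + n2) ∨ (0 < B1 ∧ B2 < B1 + n2))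
    (h16 : (A1 < A2 ∧ A3 < A2 + n3) ∨ (B1 < B2 ∧ B3 < B2 + n3))
    (hN : NT n1 n2 n3 A1 A2 A3 B1 B2 B3) :
    ∃ m11_1 m11_2 m11_3 m22_1 m22_2 m22_3 m23_1 m23_2 m23_3 m33_1 m33_2 m33_3 : ℤ, Ctx3 n1 n2 n3 A1 A2 A3 B1 B2 B3 m11_1 m11_2 m11_3 m22_1 m22_2 m22_3 m23_1 m23_2 m23_3 m33_1 m33_2 m33_3 := by
  have hA : Bx n1 n2 n3 A1 A2 A3 := ⟨h0, h1, h2, h3, h4, h5⟩
  have hB : Bx n1 n2 n3 B1 B2 B3 := ⟨h6, h7, h8, h9, h10, h11⟩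
  obtain ⟨m11_1, f11_0⟩ : ∃ x : ℤ, x = B1 - 1 := ⟨_, rfl⟩
  obtain ⟨m11_2, f11_1⟩ : ∃ x : ℤ, x = m11_1 + n2 := ⟨_, rfl⟩
  obtain ⟨m11_3, f11_2⟩ : ∃ x : ℤ, x = m11_2 + n3 := ⟨_, rfl⟩
  obtain ⟨m22_1, f22_0, f22_1, f22_2⟩ := min2 (n1) (B2 - 1)
  obtain ⟨m22_2, f22_3, f22_4, f22_5⟩ := min2 (m22_1 + n2) (B2 - 1)
  obtain ⟨m22_3, f22_6⟩ : ∃ x : ℤ, x = m22_2 + n3 := ⟨_, rfl⟩
  obtain ⟨m23_1, f23_0, f23_1, f23_2, f23_3⟩ := min3 (n1) (A2 - 1) (B3 - 1)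
  obtain ⟨m23_2, f23_4, f23_5, f23_6, f23_7⟩ := min3 (m23_1 + n2) (A2 - 1) (B3 - 1)
  obtain ⟨m23_3, f23_8, f23_9, f23_10⟩ := min2 (m23_2 + n3) (B3 - 1)
  obtain ⟨m33_1, f33_0, f33_1, f33_2⟩ := min2 (n1) (A3 - 1)
  obtain ⟨m33_2, f33_3, f33_4, f33_5⟩ := min2 (m33_1 + n2) (A3 - 1)
  obtain ⟨m33_3, f33_6, f33_7, f33_8⟩ := min2 (m33_2 + n3) (A3 - 1)
  have g11 : 0 < B1 → Bx n1 n2 n3 m11_1 m11_2 m11_3 ∧ Ls A1 A2 A3 B1 B2 B3 m11_1 m11_2 m11_3 := fun e0 =>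
    g3_11 h0 h1 h2 h3 h4 h5 h6 h7 h8 h9 h10 h11 h12 h13 h14 f11_0 f11_1 f11_2 e0
  have g22 : 0 < B2 → Bx n1 n2 n3 m22_1 m22_2 m22_3 ∧ Ls A1 A2 A3 B1 B2 B3 m22_1 m22_2 m22_3 := fun e0 =>
    g3_22 h0 h1 h2 h3 h4 h5 h6 h7 h8 h9 h10 h11 h12 h13 h14 f22_0 f22_1 f22_2 f22_3 f22_4 f22_5 f22_6 e0
  have g23 : 0 < A2 → 0 < B3 → Bx n1 n2 n3 m23_1 m23_2 m23_3 ∧ Ls A1 A2 A3 B1 B2 B3 m23_1 m23_2 m23_3 := fun e0 e1 =>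
    g3_23 h0 h1 h2 h3 h4 h5 h6 h7 h8 h9 h10 h11 h12 h13 h14 f23_0 f23_1 f23_2 f23_3 f23_4 f23_5 f23_6 f23_7 f23_8 f23_9 f23_10 e0 e1
  have g33 : 0 < A3 → Bx n1 n2 n3 m33_1 m33_2 m33_3 ∧ Ls A1 A2 A3 B1 B2 B3 m33_1 m33_2 m33_3 := fun e0 =>
    g3_33 h0 h1 h2 h3 h4 h5 h6 h7 h8 h9 h10 h11 h12 h13 h14 f33_0 f33_1 f33_2 f33_3 f33_4 f33_5 f33_6 f33_7 f33_8 e0
  exact ⟨m11_1, m11_2, m11_3, m22_1, m22_2, m22_3, m23_1, m23_2, m23_3, m33_1, m33_2, m33_3, {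
    a0 := h0
    a1 := h1
    a2 := h2
    a3 := h3
    a4 := h4
    a5 := h5
    b0 := h6
    b1 := h7
    b2 := h8
    b3 := h9
    b4 := h10
    b5 := h11
    o0 := h12
    o1 := h13
    o2 := h14
    t12 := h15
    t23 := h16
    f11_0 := f11_0
    f11_1 := f11_1
    f11_2 := f11_2
    f22_0 := f22_0
    f22_1 := f22_1
    f22_2 := f22_2
    f22_3 := f22_3
    f22_4 := f22_4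
    f22_5 := f22_5
    f22_6 := f22_6
    f23_0 := f23_0
    f23_1 := f23_1
    f23_2 := f23_2
    f23_3 := f23_3
    f23_4 := f23_4
    f23_5 := f23_5
    f23_6 := f23_6
    f23_7 := f23_7
    f23_8 := f23_8
    f23_9 := f23_9
    f23_10 := f23_10
    f33_0 := f33_0
    f33_1 := f33_1
    f33_2 := f33_2
    f33_3 := f33_3
    f33_4 := f33_4
    f33_5 := f33_5
    f33_6 := f33_6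
    f33_7 := f33_7
    f33_8 := f33_8
    p11_22A := fun e0 e1 => pairA hN (g11 e0) (g22 e1)
    p11_22B := fun e0 e1 => pairB hN (g11 e0) (g22 e1)
    p11_23A := fun e0 e1 e2 => pairA hN (g11 e0) (g23 e1 e2)
    p11_23B := fun e0 e1 e2 => pairB hN (g11 e0) (g23 e1 e2)
    p11_33A := fun e0 e1 => pairA hN (g11 e0) (g33 e1)
    p11_33B := fun e0 e1 => pairB hN (g11 e0) (g33 e1)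
    p22_23A := fun e0 e1 e2 => pairA hN (g22 e0) (g23 e1 e2)
    p22_23B := fun e0 e1 e2 => pairB hN (g22 e0) (g23 e1 e2)
    p22_33A := fun e0 e1 => pairA hN (g22 e0) (g33 e1)
    p22_33B := fun e0 e1 => pairB hN (g22 e0) (g33 e1)
    p23_33A := fun e0 e1 e2 => pairA hN (g23 e0 e1) (g33 e2)
    p23_33B := fun e0 e1 e2 => pairB hN (g23 e0 e1) (g33 e2)
    tmzp := fun hc => temp hN hA hB (-1) (0) (1) (by unfold Bx Ls; omega) (by unfold Bx Ls; omega)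
    tmpp := fun hc => temp hN hA hB (-1) (1) (1) (by unfold Bx Ls; omega) (by unfold Bx Ls; omega)
    tzmp := fun hc => temp hN hA hB (0) (-1) (1) (by unfold Bx Ls; omega) (by unfold Bx Ls; omega)
    tzpm := fun hc => temp hN hA hB (0) (1) (-1) (by unfold Bx Ls; omega) (by unfold Bx Ls; omega)
    tpmm := fun hc => temp hN hA hB (1) (-1) (-1) (by unfold Bx Ls; omega) (by unfold Bx Ls; omega)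
    tpmz := fun hc => temp hN hA hB (1) (-1) (0) (by unfold Bx Ls; omega) (by unfold Bx Ls; omega)
    tpzm := fun hc => temp hN hA hB (1) (0) (-1) (by unfold Bx Ls; omega) (by unfold Bx Ls; omega) }⟩

theorem l3_11 {n1 n2 n3 A1 A2 A3 B1 B2 B3 m11_1 m11_2 m11_3 y1 y2 y3 : ℤ}
    (h0 : 0 ≤ A1)
    (h1 : A1 ≤ n1)
    (h2 : A1 ≤ A2)
    (h3 : A2 ≤ A1 + n2)
    (h4 : A2 ≤ A3)
    (h5 : A3 ≤ A2 + n3)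
    (h6 : 0 ≤ B1)
    (h7 : B1 ≤ n1)
    (h8 : B1 ≤ B2)
    (h9 : B2 ≤ B1 + n2)
    (h10 : B2 ≤ B3)
    (h11 : B3 ≤ B2 + n3)
    (h12 : A1 = B1)
    (h13 : A2 > B2)
    (h14 : A3 < B3)
    (f0 : m11_1 = B1 - 1)
    (f1 : m11_2 = m11_1 + n2)
    (f2 : m11_3 = m11_2 + n3)
    (hy : Bx n1 n2 n3 y1 y2 y3)
    (c0 : y1 < B1) :
    (0 < B1) ∧ y1 ≤ m11_1 ∧ y2 ≤ m11_2 ∧ y3 ≤ m11_3 := by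
  unfold Bx at hy; omega

theorem l3_22 {n1 n2 n3 A1 A2 A3 B1 B2 B3 m22_1 m22_2 m22_3 y1 y2 y3 : ℤ}
    (h0 : 0 ≤ A1)
    (h1 : A1 ≤ n1)
    (h2 : A1 ≤ A2)
    (h3 : A2 ≤ A1 + n2)
    (h4 : A2 ≤ A3)
    (h5 : A3 ≤ A2 + n3)
    (h6 : 0 ≤ B1)
    (h7 : B1 ≤ n1)
    (h8 : B1 ≤ B2)
    (h9 : B2 ≤ B1 + n2)
    (h10 : B2 ≤ B3)
    (h11 : B3 ≤ B2 + n3)
    (h12 : A1 = B1)
    (h13 : A2 > B2)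
    (h14 : A3 < B3)
    (f0 : m22_1 ≤ n1)
    (f1 : m22_1 ≤ B2 - 1)
    (f2 : m22_1 = n1 ∨ m22_1 = B2 - 1)
    (f3 : m22_2 ≤ m22_1 + n2)
    (f4 : m22_2 ≤ B2 - 1)
    (f5 : m22_2 = m22_1 + n2 ∨ m22_2 = B2 - 1)
    (f6 : m22_3 = m22_2 + n3)
    (hy : Bx n1 n2 n3 y1 y2 y3)
    (c0 : y2 < B2) :
    (0 < B2) ∧ y1 ≤ m22_1 ∧ y2 ≤ m22_2 ∧ y3 ≤ m22_3 := by
  unfold Bx at hy; omega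

theorem l3_23 {n1 n2 n3 A1 A2 A3 B1 B2 B3 m23_1 m23_2 m23_3 y1 y2 y3 : ℤ}
    (h0 : 0 ≤ A1)
    (h1 : A1 ≤ n1)
    (h2 : A1 ≤ A2)
    (h3 : A2 ≤ A1 + n2)
    (h4 : A2 ≤ A3)
    (h5 : A3 ≤ A2 + n3)
    (h6 : 0 ≤ B1)
    (h7 : B1 ≤ n1)
    (h8 : B1 ≤ B2)
    (h9 : B2 ≤ B1 + n2)
    (h10 : B2 ≤ B3)
    (h11 : B3 ≤ B2 + n3)
    (h12 : A1 = B1)
    (h13 : A2 > B2)
    (h14 : A3 < B3)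
    (f0 : m23_1 ≤ n1)
    (f1 : m23_1 ≤ A2 - 1)
    (f2 : m23_1 ≤ B3 - 1)
    (f3 : m23_1 = n1 ∨ m23_1 = A2 - 1 ∨ m23_1 = B3 - 1)
    (f4 : m23_2 ≤ m23_1 + n2)
    (f5 : m23_2 ≤ A2 - 1)
    (f6 : m23_2 ≤ B3 - 1)
    (f7 : m23_2 = m23_1 + n2 ∨ m23_2 = A2 - 1 ∨ m23_2 = B3 - 1)
    (f8 : m23_3 ≤ m23_2 + n3)
    (f9 : m23_3 ≤ B3 - 1)
    (f10 : m23_3 = m23_2 + n3 ∨ m23_3 = B3 - 1)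
    (hy : Bx n1 n2 n3 y1 y2 y3)
    (c0 : y2 < A2)
    (c1 : y3 < B3) :
    (0 < A2) ∧ (0 < B3) ∧ y1 ≤ m23_1 ∧ y2 ≤ m23_2 ∧ y3 ≤ m23_3 := by
  unfold Bx at hy; omega

theorem l3_33 {n1 n2 n3 A1 A2 A3 B1 B2 B3 m33_1 m33_2 m33_3 y1 y2 y3 : ℤ}
    (h0 : 0 ≤ A1)
    (h1 : A1 ≤ n1)
    (h2 : A1 ≤ A2)
    (h3 : A2 ≤ A1 + n2)
    (h4 : A2 ≤ A3)
    (h5 : A3 ≤ A2 + n3)
    (h6 : 0 ≤ B1)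
    (h7 : B1 ≤ n1)
    (h8 : B1 ≤ B2)
    (h9 : B2 ≤ B1 + n2)
    (h10 : B2 ≤ B3)
    (h11 : B3 ≤ B2 + n3)
    (h12 : A1 = B1)
    (h13 : A2 > B2)
    (h14 : A3 < B3)
    (f0 : m33_1 ≤ n1)
    (f1 : m33_1 ≤ A3 - 1)
    (f2 : m33_1 = n1 ∨ m33_1 = A3 - 1)
    (f3 : m33_2 ≤ m33_1 + n2)
    (f4 : m33_2 ≤ A3 - 1)
    (f5 : m33_2 = m33_1 + n2 ∨ m33_2 = A3 - 1)
    (f6 : m33_3 ≤ m33_2 + n3)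
    (f7 : m33_3 ≤ A3 - 1)
    (f8 : m33_3 = m33_2 + n3 ∨ m33_3 = A3 - 1)
    (hy : Bx n1 n2 n3 y1 y2 y3)
    (c0 : y3 < A3) :
    (0 < A3) ∧ y1 ≤ m33_1 ∧ y2 ≤ m33_2 ∧ y3 ≤ m33_3 := by
  unfold Bx at hy; omega

theorem cl3 {n1 n2 n3 A1 A2 A3 B1 B2 B3 m11_1 m11_2 m11_3 m22_1 m22_2 m22_3 m23_1 m23_2 m23_3 m33_1 m33_2 m33_3 y1 y2 y3 : ℤ}
    (C : Ctx3 n1 n2 n3 A1 A2 A3 B1 B2 B3 m11_1 m11_2 m11_3 m22_1 m22_2 m22_3 m23_1 m23_2 m23_3 m33_1 m33_2 m33_3) (hy : Bx n1 n2 n3 y1 y2 y3)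
    (hl : Ls A1 A2 A3 B1 B2 B3 y1 y2 y3) :
    ((0 < B1) ∧ y1 ≤ m11_1 ∧ y2 ≤ m11_2 ∧ y3 ≤ m11_3) ∨
    ((0 < B2) ∧ y1 ≤ m22_1 ∧ y2 ≤ m22_2 ∧ y3 ≤ m22_3) ∨
    ((0 < A2) ∧ (0 < B3) ∧ y1 ≤ m23_1 ∧ y2 ≤ m23_2 ∧ y3 ≤ m23_3) ∨
    ((0 < A3) ∧ y1 ≤ m33_1 ∧ y2 ≤ m33_2 ∧ y3 ≤ m33_3) := by
  obtain ⟨ha, hb⟩ := hl
  have ha' : y1 < A1 ∨ y2 < A2 ∨ y3 < A3 := by omega
  have hb' : y1 < B1 ∨ y2 < B2 ∨ y3 < B3 := by omega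
  have h0 := C.a0
  have h1 := C.a1
  have h2 := C.a2
  have h3 := C.a3
  have h4 := C.a4
  have h5 := C.a5
  have h6 := C.b0
  have h7 := C.b1
  have h8 := C.b2
  have h9 := C.b3
  have h10 := C.b4
  have h11 := C.b5
  have h12 := C.o0
  have h13 := C.o1
  have h14 := C.o2
  rcases ha' with ha' | ha' | ha' <;> rcases hb' with hb' | hb' | hb'
  · exact (Or.inl (l3_11 h0 h1 h2 h3 h4 h5 h6 h7 h8 h9 h10 h11 h12 h13 h14 C.f11_0 C.f11_1 C.f11_2 hy (by omega)))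
  · exact (Or.inl (l3_11 h0 h1 h2 h3 h4 h5 h6 h7 h8 h9 h10 h11 h12 h13 h14 C.f11_0 C.f11_1 C.f11_2 hy (by omega)))
  · exact (Or.inl (l3_11 h0 h1 h2 h3 h4 h5 h6 h7 h8 h9 h10 h11 h12 h13 h14 C.f11_0 C.f11_1 C.f11_2 hy (by omega)))
  · exact (Or.inl (l3_11 h0 h1 h2 h3 h4 h5 h6 h7 h8 h9 h10 h11 h12 h13 h14 C.f11_0 C.f11_1 C.f11_2 hy (by omega)))
  · exact (Or.inr (Or.inl (l3_22 h0 h1 h2 h3 h4 h5 h6 h7 h8 h9 h10 h11 h12 h13 h14 C.f22_0 C.f22_1 C.f22_2 C.f22_3 C.f22_4 C.f22_5 C.f22_6 hy (by omega))))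
  · exact (Or.inr (Or.inr (Or.inl (l3_23 h0 h1 h2 h3 h4 h5 h6 h7 h8 h9 h10 h11 h12 h13 h14 C.f23_0 C.f23_1 C.f23_2 C.f23_3 C.f23_4 C.f23_5 C.f23_6 C.f23_7 C.f23_8 C.f23_9 C.f23_10 hy (by omega) (by omega)))))
  · exact (Or.inr (Or.inr (Or.inr (l3_33 h0 h1 h2 h3 h4 h5 h6 h7 h8 h9 h10 h11 h12 h13 h14 C.f33_0 C.f33_1 C.f33_2 C.f33_3 C.f33_4 C.f33_5 C.f33_6 C.f33_7 C.f33_8 hy (by omega)))))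
  · exact (Or.inr (Or.inr (Or.inr (l3_33 h0 h1 h2 h3 h4 h5 h6 h7 h8 h9 h10 h11 h12 h13 h14 C.f33_0 C.f33_1 C.f33_2 C.f33_3 C.f33_4 C.f33_5 C.f33_6 C.f33_7 C.f33_8 hy (by omega)))))
  · exact (Or.inr (Or.inr (Or.inr (l3_33 h0 h1 h2 h3 h4 h5 h6 h7 h8 h9 h10 h11 h12 h13 h14 C.f33_0 C.f33_1 C.f33_2 C.f33_3 C.f33_4 C.f33_5 C.f33_6 C.f33_7 C.f33_8 hy (by omega)))))

end Pool.Agent.Helper89.TQ
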